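import Mathlib
import Pool.Agent.Lib.MP_c95dcf_gt.BDefs
import Pool.Agent.Lib.MP_c95dcf_gt.TDefs

section

/-!
# MP_c95dcf_gt, part B: the weighted plane. Statements of the lemma tasks
-/

set_option autoImplicit false

open MeasureTheory Set Filter Topology
open scoped ENNReal NNReal

namespace Pool.Agent.Lib.MP_c95dcf_gt

/-! ## Profile functions -/

def Stmt_Prof : Prop := ∀ m : ℕ, 2 ≤ m →
  (∀ r : ℝ, 0 ≤ r → r ≤ m → vp m r = wp m r ^ (m + 1) * (m / (m + 2)) * (r + m / (m + 1))) ∧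
  (ContinuousOn (vp m) (Icc 0 (m : ℝ))) ∧ (StrictAntiOn (vp m) (Icc 0 (m : ℝ))) ∧
  (∀ r : ℝ, 0 ≤ r → 0 ≤ vp m r) ∧
  (∀ r : ℝ, 0 ≤ r → vp m r ≤ Wp m r * (1 + r)) ∧
  (∀ r y : ℝ, 0 ≤ y → y ≤ r → 0 < r → r ≤ m →
    Real.exp y * (1 - y / r) * vp m r ≤ vp m (r - y)) ∧
  (∀ r s : ℝ, 0 < r → 0 ≤ s → vp m (r + s) ≤ Real.exp (-s) * (1 + s / r) * vp m r) ∧
  (∀ r s : ℝ, 0 ≤ s → s ≤ r → Real.exp s * Wp m r ≤ Wp m (r - s)) ∧
  (∀ r : ℝ, 0 ≤ r → Wp m r ≤ Real.exp (-r)) ∧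
  (∀ r : ℝ, 0 ≤ r → r ≤ m → Wp m r ≤ Real.exp (-(7 / 10 * r)) * Wp m (r / 8) ^ 2)

def Stmt_ProfLim : Prop := (∀ r : ℝ, Tendsto (fun m : ℕ => Wp m r) atTop (𝓝 (Real.exp (-r)))) ∧
  (∀ r : ℝ, 0 ≤ r → Tendsto (fun m : ℕ => vp m r) atTop (𝓝 ((1 + r) * Real.exp (-r))))

/-! ## One dimensional isoperimetry -/

/-- The weighted perimeter of a subset of `(α, β)`, with weight `h`. -/
noncomputable def p1 (m : ℕ) (α β : ℝ) (A : Set ℝ) : ℝ≥0∞ :=
  ⨆ (a : ℝ → ℝ) (_ : ContDiff ℝ 1 a ∧ HasCompactSupport a ∧ tsupport a ⊆ Ioo α β ∧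
    ∀ r, |a r| ≤ 1), ENNReal.ofReal (∫ r in A, - deriv (fun s => a s * hp m s) r)

def Stmt_Cross : Prop := ∀ (m : ℕ) (α β c : ℝ) (A : Set ℝ), 2 ≤ m → 0 < α → α < β → β < m →
  MeasurableSet A → 0 < volume (A ∩ Ioo α β) → 0 < volume (Ioo α β \ A) →
  (∀ r ∈ Icc α β, c ≤ hp m r) → ENNReal.ofReal c ≤ p1 m α β A

def Stmt_P1add : Prop := ∀ (m : ℕ) (α β γ δ : ℝ) (A : Set ℝ), 2 ≤ m → 0 ≤ α → α ≤ β → β ≤ γ →
  γ ≤ δ → δ ≤ m → MeasurableSet A → p1 m α β A + p1 m γ δ A ≤ p1 m 0 m A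

/-- A countable family of test functions computes the one dimensional perimeter. -/
def Stmt_P1sep : Prop := ∀ m : ℕ, 2 ≤ m → ∃ a : ℕ → ℝ → ℝ, (∀ k, ContDiff ℝ 1 (a k) ∧
  HasCompactSupport (a k) ∧ tsupport (a k) ⊆ Ioo 0 (m : ℝ) ∧ ∀ r, |a k r| ≤ 1) ∧
  ∀ A : Set ℝ, MeasurableSet A →
    p1 m 0 m A ≤ ⨆ k, ENNReal.ofReal (∫ r in A, - deriv (fun s => a k s * hp m s) r)

/-- A countable family of test fields computes the weighted perimeter. -/
def Stmt_P0sep : Prop := ∀ m : ℕ, 2 ≤ m → ∃ Y : ℕ → ℂ → ℂ, (∀ k, TFc (Dp m) (Y k) ∧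
  ∀ c, ‖Y k c‖ ≤ 1) ∧ ∀ A : Set ℂ, MeasurableSet A →
    P0 m A ≤ ⨆ k, ENNReal.ofReal (∫ c in A, dvc (fun c => (Wp m ‖c‖ : ℂ) * Y k c) c)

/-- One dimensional isoperimetric inequality for small masses. -/
def Stmt_Iso1 : Prop := ∃ (vmax : ℝ) (m₀ : ℕ), 0 < vmax ∧ 2 ≤ m₀ ∧ ∀ m ≥ m₀, ∀ (A : Set ℝ) (ρ : ℝ),
  MeasurableSet A → 0 < ρ → ρ ≤ m → ∫ r in A ∩ Ioo 0 (m : ℝ), hp m r ≤ vmax →
  vp m ρ = ∫ r in A ∩ Ioo 0 (m : ℝ), hp m r →
    ENNReal.ofReal (vp m ρ * (1 - 1 / (1 + ρ))) ≤ p1 m 0 m A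

/-- Crude one dimensional isoperimetric inequality. -/
def Stmt_Iso1c : Prop := ∀ v₁ : ℝ, 0 < v₁ → ∃ (c : ℝ) (m₀ : ℕ), 0 < c ∧ 2 ≤ m₀ ∧
  ∀ m ≥ m₀, ∀ A : Set ℝ, MeasurableSet A → v₁ ≤ ∫ r in A ∩ Ioo 0 (m : ℝ), hp m r →
    ∫ r in A ∩ Ioo 0 (m : ℝ), hp m r ≤ 4 / 5 * vp m 0 → ENNReal.ofReal c ≤ p1 m 0 m A

/-! ## Polar coordinates -/

/-- The slice of `A` along the ray of angle `θ`. -/
def Sl (m : ℕ) (A : Set ℂ) (θ : ℝ) : Set ℝ :=
  {r | r ∈ Ioo 0 (m : ℝ) ∧ (r : ℂ) * Complex.exp (θ * Complex.I) ∈ A}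

/-- The mass of a slice. -/
noncomputable def vth (m : ℕ) (A : Set ℂ) (θ : ℝ) : ℝ := ∫ r in Sl m A θ, hp m r

/-- The modified mass of a slice. -/
noncomputable def vt (m : ℕ) (R' : ℝ) (A : Set ℂ) (θ : ℝ) : ℝ :=
  ∫ r in Sl m A θ, min 1 (R' / r) * hp m r

def Stmt_Polar : Prop := ∀ (m : ℕ) (A : Set ℂ), 2 ≤ m → MeasurableSet A →
  V0 m A = ∫ θ in Ioo (-Real.pi) Real.pi, vth m A θ

/-- Basic facts on the masses of the slices. -/
def Stmt_Slices : Prop := ∀ (m : ℕ) (R' : ℝ) (A : Set ℂ), 2 ≤ m → 0 < R' → MeasurableSet A →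
  Measurable (vth m A) ∧ Measurable (vt m R' A) ∧ ∀ θ, 0 ≤ vt m R' A θ ∧
    vt m R' A θ ≤ vth m A θ ∧ vth m A θ ≤ vt m R' A θ + vp m R' ∧ vth m A θ ≤ vp m 0

/-- The main lower bound for the weighted perimeter in polar coordinates. -/
def Stmt_S3 : Prop := ∀ (m : ℕ) (R' G P σ₀ : ℝ) (A : Set ℂ) (p g σ : ℝ → ℝ), 2 ≤ m → 0 < R' →
  MeasurableSet A → Measurable p → (∀ θ, 0 ≤ p θ) → (∀ θ, p θ ≤ P) →
  (∀ θ ∈ Ioo (-Real.pi) Real.pi, ENNReal.ofReal (p θ) ≤ p1 m 0 m (Sl m A θ)) →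
  Measurable g → (∀ θ, |g θ| ≤ G) → ∫ θ in Ioo (-Real.pi) Real.pi, g θ = 0 →
  (∀ θ, σ θ = σ₀ + ∫ τ in Ioc (-Real.pi) θ, g τ) →
  (∀ θ ∈ Icc (-Real.pi) Real.pi, |σ θ| ≤ 1 / 2) →
    ENNReal.ofReal (∫ θ in Ioo (-Real.pi) Real.pi,
      (Real.sqrt (1 - σ θ ^ 2) * p θ - 1 / R' * g θ * vt m R' A θ)) ≤ P0 m A

/-- Oscillation of the masses of the slices. -/
def Stmt_Osc : Prop := ∀ (m : ℕ) (R' P : ℝ) (A : Set ℂ), 2 ≤ m → 0 < R' → 0 ≤ P →
  MeasurableSet A → P0 m A ≤ ENNReal.ofReal P →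
  ∀ᵐ θ ∂(volume.restrict (Ioo (-Real.pi) Real.pi)),
    ∀ᵐ θ' ∂(volume.restrict (Ioo (-Real.pi) Real.pi)), vt m R' A θ ≤ vt m R' A θ' + R' * P

/-! ## The transport inequality -/

/-- The fixed parameters: `a = 99/100`, `b = 158/100` (slightly more than `π/2`). -/
noncomputable def aa : ℝ := 99 / 100
noncomputable def bb : ℝ := 158 / 100

/-- Pointwise inequality obtained from the monotone transport of the density `q` on `[-b, b]`
to a multiple of `cos² (a θ)`. -/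
def Stmt_Transport : Prop := ∀ (q : ℝ → ℝ) (Q : ℝ), Measurable q → (∀ θ, 0 ≤ q θ) →
  (∀ θ, q θ ≤ Q) → 0 < ∫ θ in Icc (-bb) bb, q θ →
  ∃ (s g : ℝ → ℝ) (G : ℝ), Measurable g ∧ (∀ θ, |g θ| ≤ G) ∧
    s (-bb) = 2 * aa * Real.tan (aa * bb) ∧ s bb = -(2 * aa * Real.tan (aa * bb)) ∧
    (∀ θ ∈ Icc (-bb) bb, s θ = s (-bb) + ∫ τ in Ioc (-bb) θ, g τ) ∧
    (∀ θ ∈ Icc (-bb) bb, |s θ| ≤ 2 * aa * Real.tan (aa * bb) + 2 * bb) ∧
    ∀ᵐ θ ∂(volume.restrict (Icc (-bb) bb)),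
      q θ * (2 * aa ^ 2 + Real.log bb + Real.log (q θ / ∫ τ in Icc (-bb) bb, q τ)) ≤
        q θ * (-(g θ + s θ ^ 2 / 2))

/-- The core estimate. -/
def Stmt_Core : Prop := ∃ R₀ : ℝ, 1 ≤ R₀ ∧ ∀ R ≥ R₀, ∀ (V P : ℝ) (v q : ℝ → ℝ), 0 < V →
  Measurable v → Measurable q → (∀ θ, 0 ≤ q θ) → (∀ θ, q θ ≤ v θ) →
  (∀ θ, v θ ≤ q θ + V / R ^ 3) → (∀ θ, v θ ≤ 8 * R * V) →
  ∫ θ in Ioo (-Real.pi) Real.pi, v θ = V →
  ∫ θ in Ioo (-Real.pi) Real.pi \ Icc (-bb) bb, q θ ≤ V / R ^ 3 →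
  (∀ (g σ : ℝ → ℝ) (G σ₀ : ℝ), Measurable g → (∀ θ, |g θ| ≤ G) →
    ∫ θ in Ioo (-Real.pi) Real.pi, g θ = 0 →
    (∀ θ, σ θ = σ₀ + ∫ τ in Ioc (-Real.pi) θ, g τ) →
    (∀ θ ∈ Icc (-Real.pi) Real.pi, |σ θ| ≤ 1 / 2) →
    ∫ θ in Ioo (-Real.pi) Real.pi, (Real.sqrt (1 - σ θ ^ 2) *
      (v θ * (1 - 1 / (1 + R - (1 + 4 / R) * max 0 (Real.log (2 * Real.pi * v θ / V)))))
        - 1 / (R + 4 * Real.log R) * g θ * q θ) ≤ P) →
  V * (1 - 1 / (1 + R) + 3 / (10 * R ^ 2)) ≤ P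

/-! ## Monotone sets -/

/-- Translation along the direction of monotonicity. -/
def Stmt_MonoShift : Prop := ∀ (m : ℕ) (h : ℂ) (A : Set ℂ), 2 ≤ m → MeasurableSet A →
  Mono m h A → ∀ s : ℝ, 0 ≤ s → ∀ᵐ c : ℂ, c ∈ A → c ∈ Metric.ball (0 : ℂ) m →
    c + s • h ∈ Metric.ball (0 : ℂ) m → c + s • h ∈ A

/-- The mass of a monotone set on the wrong side is exponentially small. -/
def Stmt_Left : Prop := ∀ (m : ℕ) (A : Set ℂ) (δ R : ℝ), 2 ≤ m → MeasurableSet A → Mono m 1 A →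
  0 < δ → δ < 1 → 0 < R → R ≤ m →
    V0 m (A ∩ {c | c.re ≤ -(δ * ‖c‖) ∧ R / 8 ≤ ‖c‖}) ≤ Real.exp (-(δ ^ 2 * R / 16)) * V0 m A

/-- Relative isoperimetric inequality in discs. -/
def Stmt_IsoDisc : Prop := ∃ c : ℝ, 0 < c ∧ ∀ (r M : ℝ) (A : Set ℂ), 0 < r → 0 ≤ M →
  MeasurableSet A → volume (A ∩ Metric.ball (0 : ℂ) r) ≤ volume (Metric.ball (0 : ℂ) r \ A) →
  (∀ Y : ℂ → ℂ, TFc (Metric.ball (0 : ℂ) r \ {0}) Y → (∀ x, ‖Y x‖ ≤ 1) →
    ∫ x in A, dvc Y x ≤ M) →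
  c * (volume (A ∩ Metric.ball (0 : ℂ) r)).toReal ≤ M ^ 2

/-- The mass near the centre is small. -/
def Stmt_Inner : Prop := ∃ C : ℝ, 0 < C ∧ ∀ (m : ℕ) (A : Set ℂ) (R : ℝ), 2 ≤ m →
  MeasurableSet A → 0 < R → R ≤ m → P0 m A ≤ ENNReal.ofReal (V0 m A) →
  V0 m A ≤ Wp m (R / 8) * (Real.pi * (R / 8) ^ 2) / 2 →
    V0 m (A ∩ Metric.ball (0 : ℂ) (R / 8)) * Wp m (R / 8) ^ 2 ≤ C * V0 m A ^ 2

/-- The main inequality for monotone sets. -/
def Stmt_Main : Prop := ∃ (R₀ : ℝ) (m₀ : ℕ), 1 ≤ R₀ ∧ 2 ≤ m₀ ∧ ∀ m ≥ m₀, ∀ (A : Set ℂ) (R : ℝ),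
  MeasurableSet A → Mono m 1 A → R₀ ≤ R → R < m → 2 * Real.pi * vp m R = V0 m A →
    ENNReal.ofReal (V0 m A * (1 - 1 / (1 + R) + 3 / (10 * R ^ 2))) ≤ P0 m A

/-! ## Crude bounds, rings, rotations -/

def Stmt_CrudeMid : Prop := ∃ (c : ℝ) (m₀ : ℕ), 0 < c ∧ 2 ≤ m₀ ∧ ∀ m ≥ m₀, ∀ A : Set ℂ,
  MeasurableSet A → V0 m univ / 4 ≤ V0 m A → V0 m A ≤ 3 / 4 * V0 m univ →
    ENNReal.ofReal c ≤ P0 m A

def Stmt_CrudeLow : Prop := ∃ (R₀ : ℝ) (m₀ : ℕ), 1 ≤ R₀ ∧ 2 ≤ m₀ ∧ ∀ m ≥ m₀, ∀ (A : Set ℂ)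
  (R : ℝ), MeasurableSet A → R₀ ≤ R → R < m → 2 * (2 * Real.pi * vp m R) ≤ V0 m A →
    V0 m A ≤ V0 m univ / 4 → ENNReal.ofReal (2 * Real.pi * vp m R) ≤ P0 m A

def Stmt_CrudeRad : Prop := ∃ (c : ℝ) (m₀ : ℕ), 0 < c ∧ 2 ≤ m₀ ∧ ∀ m ≥ m₀, ∀ A : Set ℂ,
  MeasurableSet A → Rad m A → 0 < V0 m A → V0 m A < V0 m univ → ENNReal.ofReal c ≤ P0 m A

def Stmt_Ring : Prop := ∀ (m : ℕ) (R : ℝ), 2 ≤ m → 0 < R → R < m →
  V0 m ({c : ℂ | R < ‖c‖} ∩ Metric.ball (0 : ℂ) m) = 2 * Real.pi * vp m R ∧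
  P0 m ({c : ℂ | R < ‖c‖} ∩ Metric.ball (0 : ℂ) m) ≤ ENNReal.ofReal (2 * Real.pi * hp m R)

def Stmt_Rot : Prop := ∀ (m : ℕ) (h : ℂ) (A : Set ℂ), h ≠ 0 → MeasurableSet A → Mono m h A →
  ∃ B : Set ℂ, MeasurableSet B ∧ Mono m 1 B ∧ V0 m B = V0 m A ∧ P0 m B = P0 m A

/-- The final result of part B. -/
def Stmt_B : Prop := ∃ (m : ℕ) (κ t : ℝ), 2 ≤ m ∧ 0 < κ ∧ κ < 1 ∧ 0 < t ∧ t ≤ V0 m univ / 16 ∧
  (∃ A : Set ℂ, MeasurableSet A ∧ A ⊆ Metric.ball (0 : ℂ) m ∧ V0 m A = t ∧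
    P0 m A < ENNReal.ofReal (κ * t)) ∧
  (∀ A : Set ℂ, MeasurableSet A → V0 m univ / 4 ≤ V0 m A → V0 m A ≤ 3 / 4 * V0 m univ →
    ENNReal.ofReal (κ * t) < P0 m A) ∧
  (∀ A : Set ℂ, MeasurableSet A → 0 < V0 m A → V0 m A ≤ 3 / 4 * V0 m univ →
    ((∃ h : ℂ, h ≠ 0 ∧ Mono m h A) ∨ Rad m A) →
      ENNReal.ofReal (κ * min (V0 m A) t) < P0 m A)

end Pool.Agent.Lib.MP_c95dcf_gt
end

section

/-!
# MP_c95dcf_gt, part T: elementary facts on the coordinates of `E (2 + m)`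
-/

set_option autoImplicit false

open MeasureTheory Set Filter Topology
open scoped ENNReal NNReal RealInnerProductSpace

namespace Pool.Agent.Lib.MP_c95dcf_gt

variable {m : ℕ}

@[simp] theorem px_jn (c : ℂ) (z : E m) : px (jn c z) = c := by
  apply Complex.ext <;> simp [px, jn]

@[simp] theorem pz_jn (c : ℂ) (z : E m) : pz (jn c z) = z := by
  ext i; simp [pz, jn]

@[simp] theorem jn_px_pz (p : E (2 + m)) : jn (px p) (pz p) = p := by
  ext i
  refine Fin.addCases (fun i => ?_) (fun i => ?_) i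
  · fin_cases i <;> simp [px, pz, jn]
  · simp [px, pz, jn]

/-- The linear version of `px`. -/
noncomputable def pxL (m : ℕ) : E (2 + m) →ₗ[ℝ] ℂ where
  toFun := px
  map_add' p q := by apply Complex.ext <;> simp [px]
  map_smul' c p := by apply Complex.ext <;> simp [px]

/-- The linear version of `pz`. -/
noncomputable def pzL (m : ℕ) : E (2 + m) →ₗ[ℝ] E m where
  toFun := pz
  map_add' p q := by ext i; simp [pz]
  map_smul' c p := by ext i; simp [pz]

theorem px_add (p q : E (2 + m)) : px (p + q) = px p + px q := (pxL m).map_add p q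
theorem pz_add (p q : E (2 + m)) : pz (p + q) = pz p + pz q := (pzL m).map_add p q
theorem px_smul (c : ℝ) (p : E (2 + m)) : px (c • p) = c • px p := (pxL m).map_smul c p
theorem pz_smul (c : ℝ) (p : E (2 + m)) : pz (c • p) = c • pz p := (pzL m).map_smul c p
@[simp] theorem px_zero : px (0 : E (2 + m)) = 0 := (pxL m).map_zero
@[simp] theorem pz_zero : pz (0 : E (2 + m)) = 0 := (pzL m).map_zero
theorem px_neg (p : E (2 + m)) : px (-p) = - px p := (pxL m).map_neg p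
theorem pz_neg (p : E (2 + m)) : pz (-p) = - pz p := (pzL m).map_neg p

theorem jn_add (c d : ℂ) (z y : E m) : jn (c + d) (z + y) = jn c z + jn d y := by
  rw [← jn_px_pz (jn c z + jn d y), px_add, pz_add]; simp

theorem jn_smul (r : ℝ) (c : ℂ) (z : E m) : jn (r • c) (r • z) = r • jn c z := by
  rw [← jn_px_pz (r • jn c z), px_smul, pz_smul]; simp

/-- The linear version of `jn`. -/
noncomputable def jnL (m : ℕ) : (ℂ × E m) →ₗ[ℝ] E (2 + m) where
  toFun q := jn q.1 q.2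
  map_add' _ _ := jn_add _ _ _ _
  map_smul' _ _ := jn_smul _ _ _

/-- The linear equivalence `E (2 + m) ≃ ℂ × E m`. -/
noncomputable def splitL (m : ℕ) : E (2 + m) ≃L[ℝ] ℂ × E m :=
  LinearEquiv.toContinuousLinearEquiv
    { toFun := fun p => (px p, pz p)
      map_add' := fun p q => by rw [px_add, pz_add]; rfl
      map_smul' := fun c p => by rw [px_smul, pz_smul]; rfl
      invFun := fun q => jn q.1 q.2
      left_inv := fun p => jn_px_pz p
      right_inv := fun q => by simp }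

@[simp] theorem splitL_apply (p : E (2 + m)) : splitL m p = (px p, pz p) := rfl
@[simp] theorem splitL_symm_apply (q : ℂ × E m) : (splitL m).symm q = jn q.1 q.2 := rfl

theorem continuous_px : Continuous (px : E (2 + m) → ℂ) :=
  (continuous_fst.comp (splitL m).continuous)
theorem continuous_pz : Continuous (pz : E (2 + m) → E m) :=
  (continuous_snd.comp (splitL m).continuous)
theorem continuous_jn : Continuous (fun q : ℂ × E m => (jn q.1 q.2 : E (2 + m))) :=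
  (splitL m).symm.continuous
theorem contDiff_px {n : WithTop ℕ∞} : ContDiff ℝ n (px : E (2 + m) → ℂ) :=
  contDiff_fst.comp (splitL m).contDiff
theorem contDiff_pz {n : WithTop ℕ∞} : ContDiff ℝ n (pz : E (2 + m) → E m) :=
  contDiff_snd.comp (splitL m).contDiff
theorem contDiff_jn {n : WithTop ℕ∞} : ContDiff ℝ n (fun q : ℂ × E m => (jn q.1 q.2 : E (2 + m))) :=
  (splitL m).symm.contDiff

theorem sum_split {M : Type*} [AddCommMonoid M] (f : Fin (2 + m) → M) :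
    ∑ i, f i = f (Fin.castAdd m 0) + f (Fin.castAdd m 1) + ∑ i : Fin m, f (Fin.natAdd 2 i) := by
  rw [Fin.sum_univ_add, Fin.sum_univ_two]

theorem inner_split (p q : E (2 + m)) : ⟪p, q⟫ = ⟪px p, px q⟫ + ⟪pz p, pz q⟫ := by
  simp only [PiLp.inner_apply, Complex.inner, px, pz]
  rw [sum_split]
  simp

theorem norm_sq_split (p : E (2 + m)) : ‖p‖ ^ 2 = ‖px p‖ ^ 2 + ‖pz p‖ ^ 2 := by
  rw [← real_inner_self_eq_norm_sq, ← real_inner_self_eq_norm_sq, ← real_inner_self_eq_norm_sq,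
    inner_split]

theorem norm_px_le (p : E (2 + m)) : ‖px p‖ ≤ ‖p‖ := by
  have := norm_sq_split p
  nlinarith [sq_nonneg ‖pz p‖, norm_nonneg p, norm_nonneg (px p)]

theorem norm_pz_le (p : E (2 + m)) : ‖pz p‖ ≤ ‖p‖ := by
  have := norm_sq_split p
  nlinarith [sq_nonneg ‖px p‖, norm_nonneg p, norm_nonneg (pz p)]

theorem norm_jn_sq (c : ℂ) (z : E m) : ‖jn c z‖ ^ 2 = ‖c‖ ^ 2 + ‖z‖ ^ 2 := by
  rw [norm_sq_split]; simp

theorem norm_jn_le (c : ℂ) (z : E m) : ‖jn c z‖ ≤ ‖c‖ + ‖z‖ := by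
  have := norm_jn_sq c z
  nlinarith [norm_nonneg c, norm_nonneg z, norm_nonneg (jn c z), mul_nonneg (norm_nonneg c) (norm_nonneg z)]

/-- The isometry `E (2 + m) ≃ WithLp 2 (ℂ × E m)`. -/
noncomputable def splitI (m : ℕ) : E (2 + m) ≃ₗᵢ[ℝ] WithLp 2 (ℂ × E m) where
  toLinearEquiv := (splitL m).toLinearEquiv.trans (WithLp.linearEquiv 2 ℝ (ℂ × E m)).symm
  norm_map' p := by
    rw [← sq_eq_sq₀ (norm_nonneg _) (norm_nonneg _), WithLp.prod_norm_sq_eq_of_L2, norm_sq_split]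
    rfl

/-- The coordinates preserve the volume. -/
theorem mp_split (m : ℕ) : MeasurePreserving (fun p : E (2 + m) => (px p, pz p)) volume
    ((volume : Measure ℂ).prod (volume : Measure (E m))) :=
  (WithLp.volume_preserving_ofLp ℂ (E m)).comp (splitI m).measurePreserving

/-- The coordinates as a measurable equivalence. -/
noncomputable def splitM (m : ℕ) : E (2 + m) ≃ᵐ ℂ × E m := (splitL m).toHomeomorph.toMeasurableEquiv

@[simp] theorem splitM_apply (p : E (2 + m)) : splitM m p = (px p, pz p) := rfl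
@[simp] theorem splitM_symm_apply (q : ℂ × E m) : (splitM m).symm q = jn q.1 q.2 := rfl

theorem mp_splitM (m : ℕ) : MeasurePreserving (splitM m) volume
    ((volume : Measure ℂ).prod (volume : Measure (E m))) := mp_split m

theorem mp_splitM_symm (m : ℕ) : MeasurePreserving (splitM m).symm
    ((volume : Measure ℂ).prod (volume : Measure (E m))) volume := (mp_splitM m).symm _

/-- Tonelli. -/
theorem lintegral_split (f : E (2 + m) → ℝ≥0∞) (hf : Measurable f) :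
    ∫⁻ p, f p = ∫⁻ c : ℂ, ∫⁻ z : E m, f (jn c z) := by
  rw [← (mp_splitM_symm m).lintegral_comp hf, lintegral_prod]
  · rfl
  · exact (hf.comp (splitM m).symm.measurable).aemeasurable

/-- Fubini. -/
theorem integral_split (f : E (2 + m) → ℝ) (hf : Integrable f) :
    ∫ p, f p = ∫ c : ℂ, ∫ z : E m, f (jn c z) := by
  rw [← (mp_splitM_symm m).integral_comp', integral_prod]
  · rfl
  · exact ((mp_splitM_symm m).integrable_comp_emb (splitM m).symm.measurableEmbedding).2 hf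

theorem integrable_split (f : E (2 + m) → ℝ) :
    Integrable f ↔ Integrable (fun q : ℂ × E m => f (jn q.1 q.2))
      ((volume : Measure ℂ).prod (volume : Measure (E m))) :=
  ((mp_splitM_symm m).integrable_comp_emb (splitM m).symm.measurableEmbedding).symm

theorem measurable_px : Measurable (px : E (2 + m) → ℂ) := continuous_px.measurable
theorem measurable_pz : Measurable (pz : E (2 + m) → E m) := continuous_pz.measurable
theorem measurable_jn : Measurable (fun q : ℂ × E m => (jn q.1 q.2 : E (2 + m))) :=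
  continuous_jn.measurable

/-- The scaling as a linear equivalence. -/
noncomputable def LsE (m : ℕ) (ε : ℝ) (hε : ε ≠ 0) : E (2 + m) ≃L[ℝ] E (2 + m) :=
  LinearEquiv.toContinuousLinearEquiv
    { toFun := Ls ε
      map_add' := fun p q => by simp [Ls, px_add, pz_add, ← jn_add]
      map_smul' := fun c p => by
        simp only [Ls, px_smul, pz_smul, RingHom.id_apply]
        rw [smul_comm, jn_smul]
      invFun := Ls ε⁻¹
      left_inv := fun p => by simp [Ls, smul_smul, hε]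
      right_inv := fun p => by simp [Ls, smul_smul, hε] }

@[simp] theorem LsE_apply (m : ℕ) (ε : ℝ) (hε : ε ≠ 0) (p : E (2 + m)) : LsE m ε hε p = Ls ε p := rfl
@[simp] theorem LsE_symm_apply (m : ℕ) (ε : ℝ) (hε : ε ≠ 0) (p : E (2 + m)) :
    (LsE m ε hε).symm p = Ls ε⁻¹ p := rfl

@[simp] theorem px_Ls (ε : ℝ) (p : E (2 + m)) : px (Ls ε p) = px p := by simp [Ls]
@[simp] theorem pz_Ls (ε : ℝ) (p : E (2 + m)) : pz (Ls ε p) = ε • pz p := by simp [Ls]
theorem Ls_Ls (a b : ℝ) (p : E (2 + m)) : Ls a (Ls b p) = Ls (a * b) p := by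
  simp [Ls, smul_smul]
@[simp] theorem Ls_one (p : E (2 + m)) : Ls 1 p = p := by simp [Ls]

/-! ### The profile and membership in the body -/

theorem wp_nonneg (m : ℕ) (r : ℝ) : 0 ≤ wp m r := le_max_left _ _

theorem wp_of_lt (hm : 0 < m) {r : ℝ} (hr : r < m) : wp m r = 1 - r / m ∧ 0 < wp m r := by
  have hm' : (0 : ℝ) < m := by exact_mod_cast hm
  have h : 0 < 1 - r / m := by
    rw [sub_pos, div_lt_one hm']; exact hr
  refine ⟨max_eq_right h.le, ?_⟩
  rw [wp, max_eq_right h.le]; exact h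

theorem wp_pos_iff (hm : 0 < m) {r : ℝ} : 0 < wp m r ↔ r < m := by
  have hm' : (0 : ℝ) < m := by exact_mod_cast hm
  constructor
  · intro h
    by_contra hr
    push Not at hr
    have : 1 - r / m ≤ 0 := by
      rw [sub_nonpos, one_le_div hm']; exact hr
    rw [wp, max_eq_left this] at h
    exact lt_irrefl _ h
  · intro h; exact (wp_of_lt hm h).2

/-- Membership in the scaled body. -/
theorem mem_Ub_one (hm : 0 < m) (p : E (2 + m)) : p ∈ Ub m 1 ↔ ‖pz p‖ < wp m ‖px p‖ := by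
  have hm' : (0 : ℝ) < m := by exact_mod_cast hm
  simp only [Ub, mem_setOf_eq, div_one]
  constructor
  · intro h
    have h1 : ‖px p‖ < m := by
      have : ‖px p‖ / m < 1 := by linarith [norm_nonneg (pz p)]
      rwa [div_lt_one hm'] at this
    rw [(wp_of_lt hm h1).1]; linarith
  · intro h
    have h1 : ‖px p‖ < m := (wp_pos_iff hm).1 (lt_of_le_of_lt (norm_nonneg _) h)
    rw [(wp_of_lt hm h1).1] at h; linarith

theorem px_lt_of_mem (hm : 0 < m) {p : E (2 + m)} (hp : p ∈ Ub m 1) : ‖px p‖ < m :=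
  (wp_pos_iff hm).1 (lt_of_le_of_lt (norm_nonneg _) ((mem_Ub_one hm p).1 hp))

theorem norm_zt_lt (hm : 0 < m) {p : E (2 + m)} (hp : p ∈ Ub m 1) : ‖zt m p‖ < 1 := by
  have h := (mem_Ub_one hm p).1 hp
  have h0 : 0 < wp m ‖px p‖ := lt_of_le_of_lt (norm_nonneg _) h
  rw [zt, norm_smul, norm_inv, Real.norm_of_nonneg h0.le, inv_mul_lt_iff₀ h0, mul_one]
  exact h

theorem jn_wp_mem (hm : 0 < m) {c : ℂ} (hc : ‖c‖ < m) (ζ : E m) :
    jn c (wp m ‖c‖ • ζ) ∈ Ub m 1 ↔ ‖ζ‖ < 1 := by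
  have h0 : 0 < wp m ‖c‖ := (wp_of_lt hm hc).2
  rw [mem_Ub_one hm, px_jn, pz_jn, norm_smul, Real.norm_of_nonneg h0.le]
  constructor
  · intro h; nlinarith
  · intro h; nlinarith

theorem zt_jn (hm : 0 < m) {c : ℂ} (hc : ‖c‖ < m) (ζ : E m) :
    zt m (jn c (wp m ‖c‖ • ζ)) = ζ := by
  have h0 : 0 < wp m ‖c‖ := (wp_of_lt hm hc).2
  rw [zt, px_jn, pz_jn, smul_smul, inv_mul_cancel₀ h0.ne', one_smul]

theorem wp_smul_zt (hm : 0 < m) {p : E (2 + m)} (hp : ‖px p‖ < m) :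
    wp m ‖px p‖ • zt m p = pz p := by
  have h0 : 0 < wp m ‖px p‖ := (wp_of_lt hm hp).2
  rw [zt, smul_smul, mul_inv_cancel₀ h0.ne', one_smul]

theorem om_pos (d : ℕ) : 0 < om d := Metric.measure_ball_pos _ _ one_pos
theorem om_ne_top (d : ℕ) : om d ≠ ∞ := measure_ball_lt_top.ne
theorem omr_pos (m : ℕ) : 0 < omr m := ENNReal.toReal_pos (om_pos m).ne' (om_ne_top m)

end Pool.Agent.Lib.MP_c95dcf_gt
end

section

/-!
# MP_c95dcf_gt, B02: one dimensional crossings and additivity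
-/

set_option autoImplicit false

open MeasureTheory Set Filter Topology
open scoped ENNReal NNReal

namespace Pool.Agent.Lib.MP_c95dcf_gt

theorem cross_contDiff_of_tsupport {f : ℝ → ℝ} (h : ∀ x ∈ tsupport f, ContDiffAt ℝ 1 f x) :
    ContDiff ℝ 1 f := by
  rw [contDiff_iff_contDiffAt]
  intro x
  by_cases hx : x ∈ tsupport f
  · exact h x hx
  · rw [notMem_tsupport_iff_eventuallyEq] at hx
    exact contDiffAt_const.congr_of_eventuallyEq hx

/-- A bump in `(α, β)` most of whose mass is in `B`. -/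
theorem cross_bump {α β ε : ℝ} (hε : 0 < ε) {B : Set ℝ} (hB : MeasurableSet B)
    (hpos : 0 < volume (B ∩ Ioo α β)) :
    ∃ η : ℝ → ℝ, Continuous η ∧ HasCompactSupport η ∧ tsupport η ⊆ Ioo α β ∧ (∀ x, 0 ≤ η x) ∧
      ∫ x, η x = 1 ∧ ∫ x in Bᶜ, η x ≤ ε := by
  obtain ⟨K, hKB, hK, hK0⟩ := (hB.inter measurableSet_Ioo).exists_lt_isCompact hpos
  have hKfin : volume K ≠ ∞ := hK.measure_lt_top.ne
  set κ : ℝ := (volume K).toReal with hκ
  have hκ0 : 0 < κ := ENNReal.toReal_pos hK0.ne' hKfin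
  obtain ⟨U, hKU, hU, hUv⟩ := K.exists_isOpen_lt_add hKfin
    (ε := ENNReal.ofReal (ε * κ)) (by
      rw [Ne, ENNReal.ofReal_eq_zero, not_le]
      positivity)
  set W : Set ℝ := U ∩ Ioo α β with hW
  have hWo : IsOpen W := hU.inter isOpen_Ioo
  have hKW : K ⊆ W := subset_inter hKU (hKB.trans inter_subset_right)
  have hWc : IsCompact (closure W) :=
    (isCompact_Icc (a := α) (b := β)).of_isClosed_subset isClosed_closure
      ((closure_mono (inter_subset_right.trans Ioo_subset_Icc_self)).trans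
        isClosed_Icc.closure_subset)
  obtain ⟨f, hfs, hf1, hf01⟩ := exists_tsupport_one_of_isOpen_isClosed hWo hWc hK.isClosed hKW
  have hfc : HasCompactSupport f :=
    hWc.of_isClosed_subset (isClosed_tsupport _) (hfs.trans subset_closure)
  have hfi : Integrable f := f.continuous.integrable_of_hasCompactSupport hfc
  have hWfin : volume W ≠ ∞ := ne_top_of_le_ne_top hWc.measure_lt_top.ne
    (measure_mono subset_closure)
  have hI : κ ≤ ∫ x, f x := by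
    have h1 : ∫ x in K, f x = κ := by
      rw [setIntegral_congr_fun hK.measurableSet (g := fun _ => (1 : ℝ)) (fun x hx => hf1 hx)]
      simp [hκ, Measure.real]
    rw [← h1]
    exact setIntegral_le_integral hfi (Eventually.of_forall fun x => (hf01 x).1)
  have hI0 : 0 < ∫ x, f x := lt_of_lt_of_le hκ0 hI
  have hJ : ∫ x in Bᶜ, f x ≤ ε * κ := by
    have h1 : ∫ x in Bᶜ, f x ≤ ∫ x in Bᶜ, (W \ K).indicator (fun _ => (1 : ℝ)) x := by
      refine setIntegral_mono_on hfi.integrableOn ?_ hB.compl ?_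
      · refine Integrable.integrableOn ?_
        exact (integrable_indicator_iff (hWo.measurableSet.diff hK.measurableSet)).2
          (integrableOn_const (ne_top_of_le_ne_top hWfin (measure_mono sdiff_subset)))
      · intro x hx
        by_cases hxW : x ∈ W
        · have hxK : x ∉ K := fun h => hx (hKB h).1
          rw [indicator_of_mem (show x ∈ W \ K from ⟨hxW, hxK⟩)]
          exact (hf01 x).2
        · have h0 : f x = 0 := by
            by_contra h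
            exact hxW (hfs (subset_tsupport _ h))
          rw [h0]
          exact indicator_nonneg (fun _ _ => zero_le_one) _
    have h2 : ∫ x in Bᶜ, (W \ K).indicator (fun _ => (1 : ℝ)) x ≤ (volume (W \ K)).toReal := by
      have h3 : Integrable ((W \ K).indicator (fun _ => (1 : ℝ))) :=
        (integrable_indicator_iff (hWo.measurableSet.diff hK.measurableSet)).2
          (integrableOn_const (ne_top_of_le_ne_top hWfin (measure_mono sdiff_subset)))
      refine (setIntegral_le_integral h3 (Eventually.of_forall fun x =>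
        indicator_nonneg (fun _ _ => zero_le_one) _)).trans (le_of_eq ?_)
      rw [integral_indicator (hWo.measurableSet.diff hK.measurableSet)]
      simp [Measure.real]
    have h3 : volume (W \ K) ≤ ENNReal.ofReal (ε * κ) := by
      rw [measure_sdiff hKW hK.measurableSet.nullMeasurableSet hKfin]
      have h4 : volume W ≤ volume K + ENNReal.ofReal (ε * κ) :=
        (measure_mono inter_subset_left).trans hUv.le
      rw [add_comm] at h4
      exact tsub_le_iff_right.2 h4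
    calc ∫ x in Bᶜ, f x ≤ (volume (W \ K)).toReal := h1.trans h2
      _ ≤ ε * κ := ENNReal.toReal_le_of_le_ofReal (by positivity) h3
  refine ⟨fun x => (∫ y, f y)⁻¹ * f x, by fun_prop, hfc.mul_left, ?_, ?_, ?_, ?_⟩
  · exact (tsupport_mul_subset_right).trans (hfs.trans inter_subset_right)
  · intro x
    exact mul_nonneg (inv_nonneg.2 hI0.le) (hf01 x).1
  · rw [integral_const_mul, inv_mul_cancel₀ hI0.ne']
  · rw [integral_const_mul, inv_mul_le_iff₀ hI0]
    calc ∫ x in Bᶜ, f x ≤ ε * κ := hJ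
      _ ≤ ε * ∫ x, f x := by gcongr
      _ = (∫ x, f x) * ε := mul_comm _ _

/-- The primitive of a difference of two bumps is a test function. -/
theorem cross_prim {α β : ℝ} {η₁ η₂ : ℝ → ℝ} (h1 : Continuous η₁)
    (h2 : Continuous η₂) (hs1 : tsupport η₁ ⊆ Ioo α β) (hs2 : tsupport η₂ ⊆ Ioo α β)
    (hc1 : HasCompactSupport η₁) (hc2 : HasCompactSupport η₂)
    (hp1 : ∀ x, 0 ≤ η₁ x) (hp2 : ∀ x, 0 ≤ η₂ x) (hi1 : ∫ x, η₁ x = 1) (hi2 : ∫ x, η₂ x = 1) :
    ∃ ψ : ℝ → ℝ, ContDiff ℝ 1 ψ ∧ HasCompactSupport ψ ∧ tsupport ψ ⊆ Ioo α β ∧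
      (∀ x, |ψ x| ≤ 1) ∧ ∀ x, deriv ψ x = η₁ x - η₂ x := by
  let ψ : ℝ → ℝ := fun x => ∫ t in α..x, (η₁ t - η₂ t)
  have hcont : Continuous fun t => η₁ t - η₂ t := h1.sub h2
  have hder : ∀ x, HasDerivAt ψ (η₁ x - η₂ x) x := fun x =>
    intervalIntegral.integral_hasDerivAt_right (hcont.intervalIntegrable _ _)
      (hcont.stronglyMeasurableAtFilter _ _) hcont.continuousAt
  have hint1 : Integrable η₁ := h1.integrable_of_hasCompactSupport hc1
  have hint2 : Integrable η₂ := h2.integrable_of_hasCompactSupport hc2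
  -- a compact interval containing both supports
  obtain ⟨a, b, haα, hab, hbβ, hsa⟩ : ∃ a b : ℝ, α < a ∧ a ≤ b ∧ b < β ∧
      ∀ x, x ∉ Icc a b → η₁ x = 0 ∧ η₂ x = 0 := by
    have hK : IsCompact (tsupport η₁ ∪ tsupport η₂) := hc1.union hc2
    have hne : (tsupport η₁ ∪ tsupport η₂).Nonempty := by
      by_contra h
      rw [not_nonempty_iff_eq_empty, union_empty_iff] at h
      have h3 : η₁ = 0 := tsupport_eq_empty_iff.1 h.1
      rw [h3] at hi1
      simp at hi1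
    have hsub : tsupport η₁ ∪ tsupport η₂ ⊆ Ioo α β := union_subset hs1 hs2
    refine ⟨sInf (tsupport η₁ ∪ tsupport η₂), sSup (tsupport η₁ ∪ tsupport η₂),
      (hsub (hK.sInf_mem hne)).1, ?_, (hsub (hK.sSup_mem hne)).2, ?_⟩
    · exact csInf_le_csSup hne hK.bddBelow hK.bddAbove
    · intro x hx
      constructor
      · by_contra h
        have h3 : x ∈ tsupport η₁ ∪ tsupport η₂ := Or.inl (subset_tsupport _ h)
        exact hx ⟨csInf_le hK.bddBelow h3, le_csSup hK.bddAbove h3⟩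
      · by_contra h
        have h3 : x ∈ tsupport η₁ ∪ tsupport η₂ := Or.inr (subset_tsupport _ h)
        exact hx ⟨csInf_le hK.bddBelow h3, le_csSup hK.bddAbove h3⟩
  have hψ0 : ∀ x, x ∉ Icc a b → ψ x = 0 := by
    intro x hx
    rcases lt_or_ge x a with hxa | hxa
    · have h3 : ∀ t ∈ uIcc α x, η₁ t - η₂ t = 0 := by
        intro t ht
        have h4 : t ∉ Icc a b := by
          intro h5
          have h6 : t ≤ max α x := ht.2
          have : max α x < a := max_lt haα hxa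
          linarith [h5.1]
        rw [(hsa t h4).1, (hsa t h4).2, sub_zero]
      show ∫ t in α..x, (η₁ t - η₂ t) = 0
      rw [intervalIntegral.integral_congr (g := fun _ => (0 : ℝ)) h3]
      simp
    · have hxb : b < x := by
        by_contra h
        exact hx ⟨hxa, not_lt.1 h⟩
      have hαx : α ≤ x := by linarith
      have h4 : ∀ η : ℝ → ℝ, Integrable η → (∀ t, t ∉ Icc a b → η t = 0) →
          ∫ t in Ioc α x, η t = ∫ t, η t := by
        intro η hη hη0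
        refine setIntegral_eq_integral_of_forall_compl_eq_zero fun t ht => hη0 t fun h5 => ht ?_
        exact ⟨by linarith [h5.1], by linarith [h5.2]⟩
      show ∫ t in α..x, (η₁ t - η₂ t) = 0
      rw [intervalIntegral.integral_of_le hαx,
        h4 (fun t => η₁ t - η₂ t) (hint1.sub hint2) (fun t ht => by
          simp only [(hsa t ht).1, (hsa t ht).2, sub_zero]), integral_sub hint1 hint2, hi1, hi2,
        sub_self]
  have hsupp : tsupport ψ ⊆ Icc a b :=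
    closure_minimal (fun x hx => by
      by_contra h
      exact hx (hψ0 x h)) isClosed_Icc
  refine ⟨ψ, ?_, ?_, ?_, ?_, fun x => (hder x).deriv⟩
  · rw [contDiff_one_iff_deriv]
    refine ⟨fun x => (hder x).differentiableAt, ?_⟩
    have : deriv ψ = fun x => η₁ x - η₂ x := funext fun x => (hder x).deriv
    rw [this]
    exact hcont
  · exact isCompact_Icc.of_isClosed_subset (isClosed_tsupport _) hsupp
  · intro x hx
    have h3 := hsupp hx
    exact ⟨lt_of_lt_of_le haα h3.1, lt_of_le_of_lt h3.2 hbβ⟩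
  · intro x
    by_cases hx : x ∈ Icc a b
    · have hαx : α ≤ x := by linarith [hx.1]
      have h3 : ψ x = (∫ t in Ioc α x, η₁ t) - ∫ t in Ioc α x, η₂ t := by
        show ∫ t in α..x, (η₁ t - η₂ t) = _
        rw [intervalIntegral.integral_of_le hαx, integral_sub hint1.integrableOn
          hint2.integrableOn]
      have h4 : ∀ η : ℝ → ℝ, Integrable η → (∀ t, 0 ≤ η t) → ∫ t, η t = 1 →
          0 ≤ ∫ t in Ioc α x, η t ∧ ∫ t in Ioc α x, η t ≤ 1 := by
        intro η hη hη0 hη1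
        refine ⟨integral_nonneg fun t => hη0 t, ?_⟩
        rw [← hη1]
        exact setIntegral_le_integral hη (Eventually.of_forall hη0)
      have h5 := h4 η₁ hint1 hp1 hi1
      have h6 := h4 η₂ hint2 hp2 hi2
      rw [h3, abs_le]
      constructor <;> linarith [h5.1, h5.2, h6.1, h6.2]
    · rw [hψ0 x hx]
      simp

theorem cross_hp_eq {m : ℕ} (hm : 2 ≤ m) {r : ℝ} (hr : r < m) :
    hp m =ᶠ[𝓝 r] fun s => s * (1 - s / m) ^ m := by
  filter_upwards [Iio_mem_nhds hr] with s hs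
  have hm0 : (0 : ℝ) < m := by
    have : 0 < m := by omega
    exact_mod_cast this
  have : 0 ≤ 1 - s / m := by
    rw [sub_nonneg, div_le_one hm0]
    exact (mem_Iio.1 hs).le
  simp only [hp, Wp, wp, max_eq_right this]

theorem cross_hp_contDiffAt {m : ℕ} (hm : 2 ≤ m) {r : ℝ} (hr : r < m) :
    ContDiffAt ℝ 1 (hp m) r := by
  refine ContDiffAt.congr_of_eventuallyEq ?_ (cross_hp_eq hm hr)
  have : ContDiff ℝ 1 (fun s : ℝ => s * (1 - s / (m : ℝ)) ^ m) := by fun_prop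
  exact this.contDiffAt

theorem cross_hp_pos {m : ℕ} (hm : 2 ≤ m) {r : ℝ} (h0 : 0 < r) (hr : r < m) : 0 < hp m r := by
  have hm0 : (0 : ℝ) < m := by
    have : 0 < m := by omega
    exact_mod_cast this
  have : 0 < 1 - r / m := by
    rw [sub_pos, div_lt_one hm0]
    exact hr
  simp only [hp, Wp, wp, max_eq_right this.le]
  positivity

/-- B02, part 1: crossing. -/
theorem cross : Stmt_Cross := by
  intro m α β c A hm hα hαβ hβ hA hpos1 hpos2 hc
  rcases le_or_gt c 0 with hc0 | hc0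
  · rw [ENNReal.ofReal_of_nonpos hc0]
    exact zero_le
  by_contra hlt
  rw [not_le] at hlt
  have hfin : p1 m α β A ≠ ∞ := ne_top_of_lt hlt
  set p : ℝ := (p1 m α β A).toReal with hp'
  have hpc : p < c := by
    have h1 := (ENNReal.toReal_lt_toReal hfin ENNReal.ofReal_ne_top).2 hlt
    rwa [ENNReal.toReal_ofReal hc0.le] at h1
  set ε : ℝ := (c - p) / (4 * c) with hε
  have hε0 : 0 < ε := by
    rw [hε]
    have : 0 < c - p := by linarith
    positivity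
  obtain ⟨η₂, a1, a2, a3, a4, a5, a6⟩ := cross_bump hε0 hA hpos1
  have hpos2' : 0 < volume (Aᶜ ∩ Ioo α β) := by
    have : Aᶜ ∩ Ioo α β = Ioo α β \ A := by
      ext x
      simp only [mem_inter_iff, mem_compl_iff, Set.mem_sdiff]
      tauto
    rw [this]
    exact hpos2
  obtain ⟨η₁, b1, b2, b3, b4, b5, b6⟩ := cross_bump hε0 hA.compl hpos2'
  rw [compl_compl] at b6
  obtain ⟨ψ, c1, c2, c3, c4, c5⟩ := cross_prim b1 a1 b3 a3 b2 a2 b4 a4 b5 a5
  have hint1 : Integrable η₁ := b1.integrable_of_hasCompactSupport b2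
  have hint2 : Integrable η₂ := a1.integrable_of_hasCompactSupport a2
  have hpos : ∀ r ∈ Ioo α β, 0 < hp m r := fun r hr =>
    lt_of_lt_of_le hc0 (hc r ⟨hr.1.le, hr.2.le⟩)
  let a : ℝ → ℝ := fun r => c * ψ r / hp m r
  have hψ0 : ∀ r, r ∉ Ioo α β → ψ r = 0 := by
    intro r hr
    by_contra h
    exact hr (c3 (subset_tsupport _ h))
  have hats : tsupport a ⊆ tsupport ψ := by
    refine closure_mono fun r hr => ?_
    intro h
    apply hr
    simp [a, h]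
  have haC : ContDiff ℝ 1 a := by
    refine cross_contDiff_of_tsupport fun r hr => ?_
    have hr' := c3 (hats hr)
    exact (contDiffAt_const.mul c1.contDiffAt).div
      (cross_hp_contDiffAt hm (lt_trans hr'.2 hβ)) (hpos r hr').ne'
  have hac : HasCompactSupport a := c2.of_isClosed_subset (isClosed_tsupport _) hats
  have ha1 : ∀ r, |a r| ≤ 1 := by
    intro r
    by_cases hr : r ∈ Ioo α β
    · have h3 := hpos r hr
      have h4 := hc r ⟨hr.1.le, hr.2.le⟩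
      simp only [a]
      rw [abs_div, abs_mul, abs_of_pos hc0, abs_of_pos h3, div_le_one h3]
      calc c * |ψ r| ≤ c * 1 := by
            gcongr
            exact c4 r
        _ ≤ hp m r := by linarith
    · simp [a, hψ0 r hr]
  have hah : (fun s => a s * hp m s) = fun s => c * ψ s := by
    funext s
    by_cases hs : s ∈ Ioo α β
    · simp only [a]
      rw [div_mul_cancel₀ _ (hpos s hs).ne']
    · simp [a, hψ0 s hs]
  have hval : ∫ r in A, - deriv (fun s => a s * hp m s) r =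
      c * ((∫ r in A, η₂ r) - ∫ r in A, η₁ r) := by
    rw [hah]
    have h5 : ∀ r, - deriv (fun s => c * ψ s) r = c * (η₂ r - η₁ r) := by
      intro r
      rw [deriv_const_mul _ (c1.differentiable (by norm_num)).differentiableAt, c5]
      ring
    simp only [h5]
    rw [integral_const_mul, integral_sub hint2.integrableOn hint1.integrableOn]
  have hA2 : 1 - ε ≤ ∫ r in A, η₂ r := by
    have := integral_add_compl hA hint2
    linarith
  have hle : ENNReal.ofReal (∫ r in A, - deriv (fun s => a s * hp m s) r) ≤ p1 m α β A :=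
    le_iSup₂_of_le a ⟨haC, hac, hats.trans c3, ha1⟩ le_rfl
  have hle2 : ∫ r in A, - deriv (fun s => a s * hp m s) r ≤ p :=
    (ENNReal.ofReal_le_iff_le_toReal hfin).1 hle
  rw [hval] at hle2
  have h6 : c * (1 - 2 * ε) ≤ p := by
    refine le_trans (mul_le_mul_of_nonneg_left ?_ hc0.le) hle2
    linarith
  have h7 : c * (1 - 2 * ε) = c - (c - p) / 2 := by
    rw [hε]
    field_simp
    ring
  rw [h7] at h6
  linarith

theorem p1add_contDiff {m : ℕ} (hm : 2 ≤ m) {a : ℝ → ℝ} (h1 : ContDiff ℝ 1 a)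
    (h2 : HasCompactSupport a) (h3 : tsupport a ⊆ Ioo 0 (m : ℝ)) :
    ContDiff ℝ 1 (fun s => a s * hp m s) ∧ HasCompactSupport (fun s => a s * hp m s) := by
  refine ⟨cross_contDiff_of_tsupport fun r hr => ?_, h2.mul_right⟩
  have hr' := h3 (tsupport_mul_subset_left hr)
  exact h1.contDiffAt.mul (cross_hp_contDiffAt hm hr'.2)

theorem p1add_integrable {m : ℕ} (hm : 2 ≤ m) {a : ℝ → ℝ} (h1 : ContDiff ℝ 1 a)
    (h2 : HasCompactSupport a) (h3 : tsupport a ⊆ Ioo 0 (m : ℝ)) :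
    Integrable (fun r => - deriv (fun s => a s * hp m s) r) := by
  obtain ⟨h4, h5⟩ := p1add_contDiff hm h1 h2 h3
  exact ((contDiff_one_iff_deriv.1 h4).2.integrable_of_hasCompactSupport h5.deriv).neg

/-- B02, part 2: additivity. -/
theorem p1add : Stmt_P1add := by
  intro m α β γ δ A hm h0 hαβ hβγ hγδ hδm hA
  have hz : ∀ u v : ℝ, ∃ a : ℝ → ℝ, ContDiff ℝ 1 a ∧ HasCompactSupport a ∧
      tsupport a ⊆ Ioo u v ∧ ∀ r, |a r| ≤ 1 := by
    intro u v
    refine ⟨fun _ => 0, contDiff_const, HasCompactSupport.zero, ?_, by simp⟩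
    have : tsupport (fun _ : ℝ => (0 : ℝ)) = ∅ := by
      rw [tsupport_eq_empty_iff]
      rfl
    rw [this]
    exact empty_subset _
  refine ENNReal.biSup_add_biSup_le' (hz α β) (hz γ δ) ?_
  rintro a ⟨ha1, ha2, ha3, ha4⟩ b ⟨hb1, hb2, hb3, hb4⟩
  have ha5 : tsupport a ⊆ Ioo 0 (m : ℝ) := ha3.trans (Ioo_subset_Ioo h0 (by linarith))
  have hb5 : tsupport b ⊆ Ioo 0 (m : ℝ) := hb3.trans (Ioo_subset_Ioo (by linarith) hδm)
  have hle : ∀ f : ℝ → ℝ, ContDiff ℝ 1 f → HasCompactSupport f → tsupport f ⊆ Ioo 0 (m : ℝ) →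
      (∀ r, |f r| ≤ 1) → ENNReal.ofReal (∫ r in A, - deriv (fun s => f s * hp m s) r) ≤
        p1 m 0 m A := fun f h1 h2 h3 h4 => le_iSup₂_of_le f ⟨h1, h2, h3, h4⟩ le_rfl
  by_cases hpa : (∫ r in A, - deriv (fun s => a s * hp m s) r) ≤ 0
  · rw [ENNReal.ofReal_of_nonpos hpa, zero_add]
    exact hle b hb1 hb2 hb5 hb4
  by_cases hq : (∫ r in A, - deriv (fun s => b s * hp m s) r) ≤ 0
  · rw [ENNReal.ofReal_of_nonpos hq, add_zero]
    exact hle a ha1 ha2 ha5 ha4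
  rw [not_le] at hpa hq
  rw [← ENNReal.ofReal_add hpa.le hq.le, ← integral_add (p1add_integrable hm ha1 ha2 ha5).integrableOn
    (p1add_integrable hm hb1 hb2 hb5).integrableOn]
  have e : ∀ r, - deriv (fun s => a s * hp m s) r + - deriv (fun s => b s * hp m s) r =
      - deriv (fun s => (a s + b s) * hp m s) r := by
    intro r
    have h1 : DifferentiableAt ℝ (fun s => a s * hp m s) r :=
      ((p1add_contDiff hm ha1 ha2 ha5).1.differentiable (by norm_num)) r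
    have h2 : DifferentiableAt ℝ (fun s => b s * hp m s) r :=
      ((p1add_contDiff hm hb1 hb2 hb5).1.differentiable (by norm_num)) r
    have h3 : (fun s => (a s + b s) * hp m s) = fun s => a s * hp m s + b s * hp m s := by
      funext s
      ring
    rw [h3, deriv_fun_add h1 h2]
    ring
  simp only [e]
  refine hle (fun s => a s + b s) (ha1.add hb1) (ha2.add hb2) ?_ ?_
  · exact (tsupport_add a b).trans (union_subset ha5 hb5)
  · intro r
    by_cases hr : a r = 0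
    · simpa [hr] using hb4 r
    · have h1 : r ∈ Ioo α β := ha3 (subset_tsupport _ hr)
      have h2 : b r = 0 := by
        by_contra h
        have h3 : r ∈ Ioo γ δ := hb3 (subset_tsupport _ h)
        linarith [h1.2, h3.1]
      simpa [h2] using ha4 r

end Pool.Agent.Lib.MP_c95dcf_gt
end
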