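import Pool.Agent.Lib.MP_c95dcf_gt.GStmts

section

set_option autoImplicit false

open MeasureTheory Set Filter Topology
open scoped ENNReal NNReal RealInnerProductSpace

namespace Pool.Agent.Lib.MP_c95dcf_gt

theorem e2scalar_om_ne_top (d : ℕ) : om d ≠ ∞ := Metric.isBounded_ball.measure_lt_top.ne

theorem e2scalar_c0_ne_top (d : ℕ) : c0 d ≠ ∞ := by
  unfold c0
  exact ENNReal.div_ne_top (e2scalar_om_ne_top d) (by positivity)

theorem e2scalar_vol {n : ℕ} (C : Set (E n)) (hne : C.Nonempty) (hb : Metric.ediam C ≠ ∞) :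
    volume C ≤ om n * Metric.ediam C ^ n := by
  obtain ⟨x, hx⟩ := hne
  have h1 : C ⊆ Metric.closedBall x (Metric.ediam C).toReal := by
    intro y hy
    rw [Metric.mem_closedBall]
    exact Metric.dist_le_diam_of_mem' hb hy hx
  refine (measure_mono h1).trans ?_
  rw [Measure.addHaar_closedBall _ _ ENNReal.toReal_nonneg]
  rw [finrank_euclideanSpace, Fintype.card_fin, ENNReal.ofReal_pow ENNReal.toReal_nonneg,
    ENNReal.ofReal_toReal hb, mul_comm]
  rfl

/-- The cover estimate for an arbitrary finite index type, in extended nonnegative reals. -/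
theorem e2scalar_cover (h2 : Stmt_E2cover) {n : ℕ} (hn : 2 ≤ n) {F : Set (E n)} {φ : E n → ℝ}
    {e : E n} {ι : Type} [Fintype ι] (C : ι → Set (E n)) (s : ι → ℝ) {M : ℝ} (hM0 : 0 ≤ M)
    (hF : MeasurableSet F) (hφ : ContDiff ℝ 1 φ) (hcs : HasCompactSupport φ) (he : ‖e‖ = 1)
    (hM : ∀ x, |fderiv ℝ φ x e| ≤ M) (hC : ∀ i, IsCompact (C i)) (hconv : ∀ i, Convex ℝ (C i))
    (hne : ∀ i, (C i).Nonempty) (hcov : frontier F ∩ tsupport φ ⊆ ⋃ i, C i)
    (hs0 : ∀ i, 0 ≤ s i) (hs : ∀ i, ∀ x ∈ C i, |φ x| ≤ s i) :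
    ENNReal.ofReal |∫ x in F, fderiv ℝ φ x e| ≤
      (∑ i, ENNReal.ofReal (s i) * (c0 (n - 1) * Metric.ediam (C i) ^ (n - 1))) +
        ENNReal.ofReal (2 * M) * ∑ i, volume (C i) := by
  have eq : Fin (Fintype.card ι) ≃ ι := (Fintype.equivFin ι).symm
  have key := h2 n F φ e (Fintype.card ι) (fun j => C (eq j)) (fun j => s (eq j)) M hn hF hφ hcs
    he hM (fun j => hC _) (fun j => hconv _) (fun j => hne _)
    (by
      intro x hx
      obtain ⟨i, hi⟩ := mem_iUnion.mp (hcov hx)
      exact mem_iUnion.mpr ⟨eq.symm i, by simpa using hi⟩)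
    (fun j x hx => hs _ x hx)
  rw [Equiv.sum_comp eq (fun i => s i * ((c0 (n - 1)).toReal * Metric.diam (C i) ^ (n - 1))),
    Equiv.sum_comp eq (fun i => (volume (C i)).toReal)] at key
  refine (ENNReal.ofReal_le_ofReal key).trans ?_
  refine ENNReal.ofReal_add_le.trans ?_
  apply add_le_add
  · rw [ENNReal.ofReal_sum_of_nonneg (fun i _ => mul_nonneg (hs0 i)
      (mul_nonneg ENNReal.toReal_nonneg (pow_nonneg Metric.diam_nonneg _)))]
    apply Finset.sum_le_sum
    intro i _
    rw [ENNReal.ofReal_mul (hs0 i), ENNReal.ofReal_mul ENNReal.toReal_nonneg,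
      ENNReal.ofReal_toReal (e2scalar_c0_ne_top _), ENNReal.ofReal_pow Metric.diam_nonneg]
    gcongr
    exact ENNReal.ofReal_toReal_le
  · rw [ENNReal.ofReal_mul (by linarith), ENNReal.ofReal_sum_of_nonneg
      (fun i _ => ENNReal.toReal_nonneg)]
    gcongr
    exact ENNReal.ofReal_toReal_le

/-- The estimate for a good step `d` and a small parameter `t`. -/
theorem e2scalar_step (h1 : Stmt_Cover) (h2 : Stmt_E2cover) {n : ℕ} (hn : 2 ≤ n)
    {F : Set (E n)} {φ : E n → ℝ} {e : E n} {M : ℝ} (hM0 : 0 ≤ M) (hF : MeasurableSet F)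
    (hφ : ContDiff ℝ 1 φ) (hcs : HasCompactSupport φ) (he : ‖e‖ = 1)
    (hM : ∀ x, |fderiv ℝ φ x e| ≤ M)
    (hH : (Measure.hausdorffMeasure ((n : ℝ) - 1) : Measure (E n))
      (frontier F ∩ tsupport φ) ≠ ∞)
    {d : ℝ} (hd : 0 < d)
    (hgood : ∀ m : ℕ, 1 ≤ m → (Measure.hausdorffMeasure ((n : ℝ) - 1) : Measure (E n))
      (frontier F ∩ tsupport φ ∩ {x | |φ x| = m * d}) = 0)
    {K : ℕ} (hK : ∀ x, |φ x| < K * d) {t : ℝ≥0∞} (ht : 0 < t) (httop : t ≠ ∞) :
    ENNReal.ofReal |∫ x in F, fderiv ℝ φ x e| ≤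
      c0 (n - 1) * (∫⁻ x in frontier F ∩ tsupport φ, ENNReal.ofReal |φ x|
        ∂(Measure.hausdorffMeasure ((n : ℝ) - 1) : Measure (E n))) +
      c0 (n - 1) * (ENNReal.ofReal (2 * d) *
        (Measure.hausdorffMeasure ((n : ℝ) - 1) : Measure (E n)) (frontier F ∩ tsupport φ)) +
      (c0 (n - 1) * (∑ k ∈ Finset.range K, ENNReal.ofReal ((k + 2) * d)) * t +
        ENNReal.ofReal (2 * M) * (om n * t * ((Measure.hausdorffMeasure ((n : ℝ) - 1) :
          Measure (E n)) (frontier F ∩ tsupport φ) + K * t))) := by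
  classical
  set H : Measure (E n) := Measure.hausdorffMeasure ((n : ℝ) - 1) with hHdef
  set S : Set (E n) := frontier F ∩ tsupport φ with hS
  have hScomp : IsCompact S := by
    have : IsCompact (tsupport φ) := hcs
    exact this.inter_left isClosed_frontier
  have hφc : Continuous φ := hφ.continuous
  have habs : Continuous fun x => |φ x| := hφc.abs
  let Sk : ℕ → Set (E n) := fun k => S ∩ {x | k * d ≤ |φ x| ∧ |φ x| ≤ (k + 1) * d}
  have hSkcl : ∀ k : ℕ, IsClosed {x : E n | k * d ≤ |φ x| ∧ |φ x| ≤ (k + 1) * d} := fun k =>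
    (isClosed_le continuous_const habs).inter (isClosed_le habs continuous_const)
  have hSkcomp : ∀ k, IsCompact (Sk k) := fun k => hScomp.inter_right (hSkcl k)
  have hSksub : ∀ k, Sk k ⊆ S := fun k => inter_subset_left
  have hSkmeas : ∀ k, MeasurableSet (Sk k) := fun k => (hSkcomp k).measurableSet
  have hSkfin : ∀ k, H (Sk k) ≠ ∞ := fun k => ne_top_of_le_ne_top hH (measure_mono (hSksub k))
  have hcovk : ∀ k : ℕ, ∃ (N : ℕ) (C : Fin N → Set (E n)), (∀ i, IsCompact (C i)) ∧
      (∀ i, Convex ℝ (C i)) ∧ (∀ i, (C i).Nonempty) ∧ (∀ i, C i ⊆ {x | |φ x| < (k + 2) * d}) ∧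
      (Sk k ⊆ ⋃ i, interior (C i)) ∧ (∀ i, Metric.ediam (C i) ≤ t) ∧
      ∑ i, Metric.ediam (C i) ^ (n - 1) ≤ H (Sk k) + t := by
    intro k
    refine h1 n (Sk k) {x | |φ x| < (k + 2) * d} t t hn (hSkcomp k)
      (isOpen_lt habs continuous_const) ?_ ht ht (hSkfin k)
    intro x hx
    have := hx.2.2
    simp only [mem_ofPred_eq]
    nlinarith
  choose N C hC1 hC2 hC3 hC4 hC5 hC6 hC7 using hcovk
  -- apply the cover estimate
  have key := e2scalar_cover h2 hn (ι := Σ k : Fin K, Fin (N k)) (fun p => C p.1 p.2)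
    (fun p => ((p.1 : ℕ) + 2 : ℝ) * d) hM0 hF hφ hcs he hM (fun p => hC1 _ _) (fun p => hC2 _ _)
    (fun p => hC3 _ _)
    (by
      intro x hx
      have hfl : (⌊|φ x| / d⌋₊ : ℝ) ≤ |φ x| / d := Nat.floor_le (by positivity)
      have hfl2 : |φ x| / d < ⌊|φ x| / d⌋₊ + 1 := Nat.lt_floor_add_one _
      have hlt : ⌊|φ x| / d⌋₊ < K := by
        rw [Nat.floor_lt (by positivity), div_lt_iff₀ hd]
        exact hK x
      have hxk : x ∈ Sk ⌊|φ x| / d⌋₊ := by
        refine ⟨hx, ?_, ?_⟩
        · rw [le_div_iff₀ hd] at hfl; exact hfl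
        · rw [div_lt_iff₀ hd] at hfl2; exact hfl2.le
      obtain ⟨i, hi⟩ := mem_iUnion.mp (hC5 _ hxk)
      exact mem_iUnion.mpr ⟨⟨⟨_, hlt⟩, i⟩, interior_subset hi⟩)
    (fun p => by positivity)
    (fun p x hx => (hC4 _ _ hx).le)
  refine key.trans ?_
  -- sums over the sigma type
  have hsig1 : (∑ p : (Σ k : Fin K, Fin (N k)), ENNReal.ofReal (((p.1 : ℕ) + 2 : ℝ) * d) *
      (c0 (n - 1) * Metric.ediam (C p.1 p.2) ^ (n - 1))) ≤
      ∑ k ∈ Finset.range K, ENNReal.ofReal ((k + 2) * d) * (c0 (n - 1) * (H (Sk k) + t)) := by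
    rw [Fintype.sum_sigma, Finset.sum_range]
    apply Finset.sum_le_sum
    intro k _
    change ∑ y : Fin (N k), ENNReal.ofReal (((k : ℕ) + 2 : ℝ) * d) *
      (c0 (n - 1) * Metric.ediam (C k y) ^ (n - 1)) ≤ _
    rw [← Finset.mul_sum, ← Finset.mul_sum]
    gcongr
    exact hC7 k
  have hvol : ∀ (k : ℕ) (i : Fin (N k)), volume (C k i) ≤
      om n * t * Metric.ediam (C k i) ^ (n - 1) := by
    intro k i
    have hfin : Metric.ediam (C k i) ≠ ∞ := ne_top_of_le_ne_top httop (hC6 k i)
    refine (e2scalar_vol _ (hC3 k i) hfin).trans ?_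
    have : Metric.ediam (C k i) ^ n = Metric.ediam (C k i) * Metric.ediam (C k i) ^ (n - 1) := by
      rw [← pow_succ']
      congr 1
      omega
    rw [this, mul_assoc]
    gcongr
    exact hC6 k i
  have hsig2 : (∑ p : (Σ k : Fin K, Fin (N k)), volume (C p.1 p.2)) ≤
      om n * t * ∑ k ∈ Finset.range K, (H (Sk k) + t) := by
    rw [Fintype.sum_sigma, Finset.mul_sum, Finset.sum_range]
    apply Finset.sum_le_sum
    intro k _
    change ∑ i : Fin (N k), volume (C k i) ≤ _
    calc ∑ i, volume (C k i) ≤ ∑ i, om n * t * Metric.ediam (C k i) ^ (n - 1) :=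
          Finset.sum_le_sum fun i _ => hvol k i
      _ = om n * t * ∑ i, Metric.ediam (C k i) ^ (n - 1) := by rw [Finset.mul_sum]
      _ ≤ _ := by gcongr; exact hC7 k
  -- almost everywhere disjoint
  have hdisj : Set.Pairwise (↑(Finset.range K)) (Function.onFun (AEDisjoint H) Sk) := by
    have main : ∀ j k : ℕ, j < k → H (Sk j ∩ Sk k) = 0 := by
      intro j k hjk
      refine measure_mono_null ?_ (hgood k (by omega))
      intro x hx
      refine ⟨hx.1.1, ?_⟩
      have h3 := hx.1.2.2
      have h4 := hx.2.2.1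
      have h5 : ((j : ℝ) + 1) ≤ k := by exact_mod_cast hjk
      simp only [mem_ofPred_eq]
      nlinarith
    intro j _ k _ hjk
    rcases lt_or_gt_of_ne hjk with h | h
    · exact main j k h
    · change H (Sk j ∩ Sk k) = 0
      rw [inter_comm]
      exact main k j h
  have hsub : (⋃ k ∈ Finset.range K, Sk k) ⊆ S := iUnion₂_subset fun k _ => hSksub k
  have hsum1 : ∑ k ∈ Finset.range K, H (Sk k) ≤ H S := by
    rw [← measure_biUnion_finset₀ hdisj (fun k _ => (hSkmeas k).nullMeasurableSet)]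
    exact measure_mono hsub
  have hsum2 : ∑ k ∈ Finset.range K, ENNReal.ofReal (k * d) * H (Sk k) ≤
      ∫⁻ x in S, ENNReal.ofReal |φ x| ∂H := by
    calc ∑ k ∈ Finset.range K, ENNReal.ofReal (k * d) * H (Sk k) ≤
        ∑ k ∈ Finset.range K, ∫⁻ x in Sk k, ENNReal.ofReal |φ x| ∂H := by
          apply Finset.sum_le_sum
          intro k _
          rw [← setLIntegral_const]
          apply setLIntegral_mono' (hSkmeas k)
          intro x hx
          exact ENNReal.ofReal_le_ofReal hx.2.1
      _ = ∫⁻ x in ⋃ k ∈ Finset.range K, Sk k, ENNReal.ofReal |φ x| ∂H :=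
          (lintegral_biUnion_finset₀ hdisj (fun k _ => (hSkmeas k).nullMeasurableSet) _).symm
      _ ≤ _ := lintegral_mono_set hsub
  have hsum3 : ∑ k ∈ Finset.range K, ENNReal.ofReal ((k + 2) * d) * H (Sk k) ≤
      (∫⁻ x in S, ENNReal.ofReal |φ x| ∂H) + ENNReal.ofReal (2 * d) * H S := by
    have : ∀ k : ℕ, ENNReal.ofReal ((k + 2) * d) * H (Sk k) =
        ENNReal.ofReal (k * d) * H (Sk k) + ENNReal.ofReal (2 * d) * H (Sk k) := by
      intro k
      rw [← add_mul, ← ENNReal.ofReal_add (by positivity) (by positivity)]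
      congr 2
      ring
    simp_rw [this]
    rw [Finset.sum_add_distrib, ← Finset.mul_sum]
    gcongr
  have hsum4 : ∑ k ∈ Finset.range K, (H (Sk k) + t) ≤ H S + K * t := by
    rw [Finset.sum_add_distrib, Finset.sum_const, Finset.card_range, nsmul_eq_mul]
    gcongr
  have hsum5 : ∑ k ∈ Finset.range K, ENNReal.ofReal ((k + 2) * d) * (c0 (n - 1) *
      (H (Sk k) + t)) ≤ c0 (n - 1) * (∫⁻ x in S, ENNReal.ofReal |φ x| ∂H) +
      c0 (n - 1) * (ENNReal.ofReal (2 * d) * H S) +
      c0 (n - 1) * (∑ k ∈ Finset.range K, ENNReal.ofReal ((k + 2) * d)) * t := by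
    have : ∀ k : ℕ, ENNReal.ofReal ((k + 2) * d) * (c0 (n - 1) * (H (Sk k) + t)) =
        c0 (n - 1) * (ENNReal.ofReal ((k + 2) * d) * H (Sk k)) +
        c0 (n - 1) * (ENNReal.ofReal ((k + 2) * d) * t) := by
      intro k; ring
    simp_rw [this]
    rw [Finset.sum_add_distrib, ← Finset.mul_sum, ← Finset.mul_sum, ← Finset.sum_mul]
    rw [← mul_add (c0 (n - 1)) (∫⁻ x in S, ENNReal.ofReal |φ x| ∂H)]
    apply add_le_add
    · gcongr
    · rw [mul_assoc]
  calc _ ≤ (c0 (n - 1) * (∫⁻ x in S, ENNReal.ofReal |φ x| ∂H) +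
      c0 (n - 1) * (ENNReal.ofReal (2 * d) * H S) +
      c0 (n - 1) * (∑ k ∈ Finset.range K, ENNReal.ofReal ((k + 2) * d)) * t) +
      ENNReal.ofReal (2 * M) * (om n * t * (H S + K * t)) := by
        apply add_le_add (hsig1.trans hsum5)
        gcongr
        exact hsig2.trans (by gcongr)
    _ = _ := by rw [add_assoc]

theorem e2scalar (h1 : Stmt_Cover) (h2 : Stmt_E2cover) : Stmt_E2scalar := by
  intro n U F φ e hn hU hF hφ hcs hsupp he hH
  set H : Measure (E n) := Measure.hausdorffMeasure ((n : ℝ) - 1) with hHdef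
  set S : Set (E n) := frontier F ∩ tsupport φ with hS
  have hSsub : S ⊆ frontier F ∩ U := inter_subset_inter_right _ hsupp
  have hScomp : IsCompact S := by
    have : IsCompact (tsupport φ) := hcs
    exact this.inter_left isClosed_frontier
  have hHS : H S ≠ ∞ := ne_top_of_le_ne_top hH (measure_mono hSsub)
  have hφc : Continuous φ := hφ.continuous
  -- bounds
  obtain ⟨B, hB⟩ := hcs.exists_bound_of_continuous hφc
  have hdc : Continuous fun x => fderiv ℝ φ x e :=
    (hφ.continuous_fderiv one_ne_zero).clm_apply continuous_const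
  have hdcs : HasCompactSupport fun x => fderiv ℝ φ x e := by
    apply (hcs.fderiv (𝕜 := ℝ)).mono
    intro x hx
    rw [Function.mem_support] at hx ⊢
    intro h0
    apply hx
    rw [h0]; rfl
  obtain ⟨M, hM⟩ := hdcs.exists_bound_of_continuous hdc
  have hM0 : 0 ≤ M := (norm_nonneg _).trans (hM 0)
  have hM' : ∀ x, |fderiv ℝ φ x e| ≤ M := fun x => hM x
  -- good steps
  have hgood : ∀ ε : ℝ, 0 < ε → ∃ d : ℝ, 0 < d ∧ d < ε ∧ ∀ m : ℕ, 1 ≤ m →
      H (S ∩ {x | |φ x| = m * d}) = 0 := by
    intro ε hε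
    have : IsFiniteMeasure (H.restrict S) :=
      ⟨by rw [Measure.restrict_apply_univ]; exact hHS.lt_top⟩
    have hcount : Set.Countable {v : ℝ | 0 < (H.restrict S) {a : E n | |φ a| = v}} :=
      Measure.countable_meas_level_set_pos (μ := H.restrict S) hφc.abs.measurable
    have hbad : Set.Countable (⋃ m : ℕ, (fun v : ℝ => v / m) ''
        {v : ℝ | 0 < (H.restrict S) {a : E n | |φ a| = v}}) :=
      countable_iUnion fun m => hcount.image _
    obtain ⟨d, hd1, hd2⟩ := (hbad.dense_compl ℝ).exists_between hε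
    refine ⟨d, hd2.1, hd2.2, ?_⟩
    intro m hm
    by_contra hne
    apply hd1
    refine mem_iUnion.mpr ⟨m, m * d, ?_, ?_⟩
    · simp only [mem_ofPred_eq]
      have hms : MeasurableSet {a : E n | |φ a| = m * d} :=
        (isClosed_eq hφc.abs continuous_const).measurableSet
      rw [Measure.restrict_apply hms, inter_comm]
      exact pos_iff_ne_zero.mpr hne
    · have : (m : ℝ) ≠ 0 := by positivity
      field_simp
  -- constants
  have hc0 := e2scalar_c0_ne_top (n - 1)
  have hom := e2scalar_om_ne_top n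
  have hIle : c0 (n - 1) * (∫⁻ x in S, ENNReal.ofReal |φ x| ∂H) ≤
      c0 (n - 1) * ∫⁻ x in frontier F ∩ U, ENNReal.ofReal |φ x| ∂H := by
    gcongr
  refine le_trans ?_ hIle
  set X := ENNReal.ofReal |∫ x in F, fderiv ℝ φ x e| with hX
  set I := c0 (n - 1) * (∫⁻ x in S, ENNReal.ofReal |φ x| ∂H) with hI
  lift H S to ℝ≥0 using hHS with hs hhs
  lift c0 (n - 1) to ℝ≥0 using hc0 with c hc
  lift om n to ℝ≥0 using hom with w hw
  have stepd : ∀ ε : ℝ, 0 < ε → X ≤ I + ((c * (Real.toNNReal (2 * ε) * hs) : ℝ≥0) : ℝ≥0∞) := by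
    intro ε hε
    obtain ⟨d, hd, hdε, hg⟩ := hgood ε hε
    obtain ⟨K, hK⟩ := exists_nat_gt (B / d)
    have hK' : ∀ x, |φ x| < K * d := by
      intro x
      rw [div_lt_iff₀ hd] at hK
      exact lt_of_le_of_lt (hB x) hK
    have hfun : ∀ t : ℝ≥0, 0 < t → X ≤ I + ((c * (Real.toNNReal (2 * d) * hs) +
        (c * (∑ k ∈ Finset.range K, Real.toNNReal ((k + 2) * d)) * t +
          Real.toNNReal (2 * M) * (w * t * (hs + K * t))) : ℝ≥0) : ℝ≥0∞) := by
      intro t ht
      have := e2scalar_step h1 h2 hn hM0 hF hφ hcs he hM' (by rw [← hS, ← hHdef, ← hhs]; simp) hd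
        hg hK' (t := (t : ℝ≥0∞)) (by exact_mod_cast ht) ENNReal.coe_ne_top
      rw [← hS, ← hHdef, ← hhs, ← hc, ← hw, ← hX] at this
      refine this.trans (le_of_eq ?_)
      push_cast
      rw [← hI, add_assoc]
      rfl
    have hlim : X ≤ I + ((c * (Real.toNNReal (2 * d) * hs) +
        (c * (∑ k ∈ Finset.range K, Real.toNNReal ((k + 2) * d)) * 0 +
          Real.toNNReal (2 * M) * (w * 0 * (hs + K * 0))) : ℝ≥0) : ℝ≥0∞) := by
      have hcont : Continuous fun t : ℝ≥0 => I + ((c * (Real.toNNReal (2 * d) * hs) +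
        (c * (∑ k ∈ Finset.range K, Real.toNNReal ((k + 2) * d)) * t +
          Real.toNNReal (2 * M) * (w * t * (hs + K * t))) : ℝ≥0) : ℝ≥0∞) := by
        apply continuous_const.add
        apply ENNReal.continuous_coe.comp
        fun_prop
      refine ge_of_tendsto (x := 𝓝[>] (0 : ℝ≥0)) ((hcont.tendsto 0).mono_left nhdsWithin_le_nhds) ?_
      filter_upwards [self_mem_nhdsWithin] with t ht
      exact hfun t ht
    refine hlim.trans ?_
    simp only [mul_zero, zero_mul, add_zero]
    gcongr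
  have hcont2 : Continuous fun ε : ℝ => I + ((c * (Real.toNNReal (2 * ε) * hs) : ℝ≥0) : ℝ≥0∞) := by
    apply continuous_const.add
    apply ENNReal.continuous_coe.comp
    fun_prop
  have hfin : X ≤ I + ((c * (Real.toNNReal (2 * 0) * hs) : ℝ≥0) : ℝ≥0∞) := by
    refine ge_of_tendsto (x := 𝓝[>] (0 : ℝ)) ((hcont2.tendsto 0).mono_left nhdsWithin_le_nhds) ?_
    filter_upwards [self_mem_nhdsWithin] with ε hε
    exact stepd ε hε
  simpa using hfin

end Pool.Agent.Lib.MP_c95dcf_gt
end

section

/-!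
# MP_c95dcf_gt, task G06: elementary properties of the perimeter
-/

set_option autoImplicit false

open MeasureTheory Set Filter Topology
open scoped ENNReal NNReal RealInnerProductSpace

namespace Pool.Agent.Lib.MP_c95dcf_gt

variable {n : ℕ}

theorem Elem_continuous_dv {X : E n → E n} (hX : ContDiff ℝ 1 X) : Continuous (dv X) := by
  unfold dv
  have hf : Continuous (fderiv ℝ X) := hX.continuous_fderiv one_ne_zero
  fun_prop

theorem Elem_dv_eq_zero {X : E n → E n} {x : E n} (hx : x ∉ tsupport X) : dv X x = 0 := by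
  unfold dv
  have h : fderiv ℝ X x = 0 := by
    by_contra hne
    exact hx (support_fderiv_subset ℝ (by simpa [Function.mem_support] using hne))
  rw [h]
  simp

theorem Elem_compSupp_dv {X : E n → E n} (hX : HasCompactSupport X) :
    HasCompactSupport (dv X) := by
  apply HasCompactSupport.intro hX
  intro x hx
  exact Elem_dv_eq_zero hx

theorem Elem_integrable_dv {X : E n → E n} (hX : ContDiff ℝ 1 X) (hc : HasCompactSupport X) :
    Integrable (dv X) :=
  (Elem_continuous_dv hX).integrable_of_hasCompactSupport (Elem_compSupp_dv hc)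

theorem Elem_dv_neg (X : E n → E n) (x : E n) : dv (fun y => - X y) x = - dv X x := by
  unfold dv
  rw [← Finset.sum_neg_distrib]
  refine Finset.sum_congr rfl fun i _ => ?_
  have h : fderiv ℝ (fun y => - X y) x = - fderiv ℝ X x := fderiv_fun_neg
  rw [h]
  simp

theorem Elem_tf_neg {U : Set (E n)} {X : E n → E n} (h : TF U X) : TF U (fun y => - X y) where
  diff := h.diff.neg
  comp := h.comp.neg
  supp := by
    have h1 : tsupport (fun y => - X y) = tsupport X := by
      unfold tsupport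
      congr 1
      ext y
      simp
    rw [h1]; exact h.supp

/-- the integral of a divergence vanishes -/
theorem Elem_integral_dv {X : E n → E n} (hX : ContDiff ℝ 1 X) (hc : HasCompactSupport X) :
    ∫ x, dv X x = 0 := by
  unfold dv
  have hf : Continuous (fderiv ℝ X) := hX.continuous_fderiv one_ne_zero
  have hc' : HasCompactSupport (fderiv ℝ X) := hc.fderiv ℝ
  have hint : ∀ i : Fin n, Integrable
      (fun x => (fderiv ℝ X x (EuclideanSpace.single i (1 : ℝ))) i) := by
    intro i
    apply Continuous.integrable_of_hasCompactSupport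
    · fun_prop
    · apply HasCompactSupport.intro hc'
      intro x hx
      rw [image_eq_zero_of_notMem_tsupport hx]
      simp
  rw [integral_finsetSum _ (fun i _ => hint i)]
  apply Finset.sum_eq_zero
  intro i _
  let g : E n → ℝ := fun x => X x i
  have hg : ContDiff ℝ 1 g := by
    have : g = fun x => (EuclideanSpace.proj i : E n →L[ℝ] ℝ) (X x) := rfl
    rw [this]
    exact (EuclideanSpace.proj i : E n →L[ℝ] ℝ).contDiff.comp hX
  have hgc : HasCompactSupport g := by
    apply HasCompactSupport.intro hc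
    intro x hx
    simp [g, image_eq_zero_of_notMem_tsupport hx]
  have hfd : ∀ x v, (fderiv ℝ X x v) i = fderiv ℝ g x v := by
    intro x v
    have h1 : HasFDerivAt g ((EuclideanSpace.proj i : E n →L[ℝ] ℝ).comp (fderiv ℝ X x)) x :=
      (EuclideanSpace.proj i : E n →L[ℝ] ℝ).hasFDerivAt.comp x
        ((hX.differentiable one_ne_zero) x).hasFDerivAt
    rw [h1.fderiv]
    rfl
  simp only [hfd]
  have key := integral_mul_fderiv_eq_neg_fderiv_mul_of_integrable (μ := (volume : Measure (E n)))
    (f := fun _ : E n => (1:ℝ)) (g := g) (v := EuclideanSpace.single i (1 : ℝ)) ?_ ?_ ?_ ?_ ?_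
  · simpa using key
  · simp
  · simp only [one_mul]
    refine (hint i).congr ?_
    filter_upwards with x
    rw [hfd]
  · simp only [one_mul]
    exact hg.continuous.integrable_of_hasCompactSupport hgc
  · intro x _; exact differentiableAt_const _
  · intro x _; exact (hg.differentiable one_ne_zero) x

theorem Elem_setIntegral_inter {U A : Set (E n)} (hU : IsOpen U) {X : E n → E n}
    (hX : tsupport X ⊆ U) : ∫ x in A, dv X x = ∫ x in U ∩ A, dv X x := by
  rw [← Measure.restrict_restrict hU.measurableSet, ← integral_indicator hU.measurableSet]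
  congr 1
  funext x
  by_cases hx : x ∈ U
  · rw [indicator_of_mem hx]
  · rw [indicator_of_notMem hx]
    exact Elem_dv_eq_zero (fun h => hx (hX h))

theorem perMono : Stmt_PerMono := by
  intro n U V A hVU
  unfold Per
  apply iSup_mono
  intro X
  apply iSup_mono'
  rintro ⟨h1, h2⟩
  exact ⟨⟨⟨h1.diff, h1.comp, h1.supp.trans hVU⟩, h2⟩, le_rfl⟩

theorem perCongr : Stmt_PerCongr := by
  intro n U A B hU hAB
  unfold Per
  have h1 : (U ∩ A : Set (E n)) =ᵐ[volume] (U ∩ B : Set (E n)) := by
    rw [← measure_symmDiff_eq_zero_iff]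
    have : symmDiff (U ∩ A) (U ∩ B) = symmDiff A B ∩ U := by
      ext x
      simp only [mem_symmDiff, mem_inter_iff]
      tauto
    rw [this]; exact hAB
  congr 1
  funext X
  apply iSup_congr_Prop Iff.rfl
  rintro ⟨h2, -⟩
  rw [Elem_setIntegral_inter (A := A) hU h2.supp, Elem_setIntegral_inter (A := B) hU h2.supp,
    Measure.restrict_congr_set h1]

/-- complement inside `U` -/
theorem Elem_compl {U A : Set (E n)} (hU : IsOpen U) (hA : MeasurableSet A) {X : E n → E n}
    (hX : TF U X) : ∫ x in U \ A, dv X x = - ∫ x in A, dv X x := by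
  have hi := Elem_integrable_dv hX.diff hX.comp
  have h0 : ∫ x in U, dv X x = 0 := by
    have h5 := Elem_setIntegral_inter (A := univ) hU hX.supp
    rw [inter_univ, setIntegral_univ, Elem_integral_dv hX.diff hX.comp] at h5
    exact h5.symm
  have h1 := integral_inter_add_sdiff (s := U) (f := dv X) hA hi.integrableOn
  rw [h0, ← Elem_setIntegral_inter (A := A) hU hX.supp] at h1
  linarith

theorem Elem_per_le {U A : Set (E n)} {C : ℝ≥0∞}
    (h : ∀ X, TF U X → (∀ x, ‖X x‖ ≤ 1) → ENNReal.ofReal (∫ x in A, dv X x) ≤ C) :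
    Per U A ≤ C := by
  unfold Per
  apply iSup₂_le
  rintro X ⟨h1, h2⟩
  exact h X h1 h2

theorem Elem_le_per {U A : Set (E n)} {X : E n → E n} (hX : TF U X) (h1 : ∀ x, ‖X x‖ ≤ 1) :
    ENNReal.ofReal (∫ x in A, dv X x) ≤ Per U A := by
  unfold Per
  exact le_iSup₂ (f := fun (X : E n → E n) (_ : TF U X ∧ ∀ x, ‖X x‖ ≤ 1) =>
    ENNReal.ofReal (∫ x in A, dv X x)) X ⟨hX, h1⟩

theorem perCompl : Stmt_PerCompl := by
  intro n U A hU hA
  apply le_antisymm
  · refine Elem_per_le (fun X hX h1 => ?_)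
    rw [Elem_compl hU hA hX]
    have h2 := Elem_le_per (A := A) (Elem_tf_neg hX) (by simpa using h1)
    simp only [Elem_dv_neg, integral_neg] at h2
    exact h2
  · refine Elem_per_le (fun X hX h1 => ?_)
    have h2 := Elem_le_per (A := U \ A) (Elem_tf_neg hX) (by simpa using h1)
    rw [Elem_compl hU hA (Elem_tf_neg hX)] at h2
    simp only [Elem_dv_neg, integral_neg, neg_neg] at h2
    exact h2

theorem Elem_tendsto {U A : Set (E n)} {B : ℕ → Set (E n)} (hU : IsOpen U)
    (hA : MeasurableSet A) (hB : ∀ j, MeasurableSet (B j))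
    (h : Tendsto (fun j => volume (symmDiff (B j) A ∩ U)) atTop (𝓝 0)) {X : E n → E n}
    (hX : TF U X) : Tendsto (fun j => ∫ x in B j, dv X x) atTop (𝓝 (∫ x in A, dv X x)) := by
  have hc := Elem_continuous_dv hX.diff
  obtain ⟨M, hM⟩ := hc.bounded_above_of_compact_support (Elem_compSupp_dv hX.comp)
  have hi := Elem_integrable_dv hX.diff hX.comp
  have hM0 : 0 ≤ M := (norm_nonneg _).trans (hM 0)
  rw [tendsto_iff_dist_tendsto_zero]
  have hbd : ∀ᶠ j in atTop, dist (∫ x in B j, dv X x) (∫ x in A, dv X x) ≤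
      M * (volume (symmDiff (B j) A ∩ U)).toReal := by
    have hfin : ∀ᶠ j in atTop, volume (symmDiff (B j) A ∩ U) < ∞ :=
      h.eventually (gt_mem_nhds ENNReal.zero_lt_top)
    filter_upwards [hfin] with j hj
    rw [Real.dist_eq]

    have h2 : (∫ x in B j, dv X x) - ∫ x in A, dv X x =
        (∫ x in B j \ A, dv X x) - ∫ x in A \ B j, dv X x := by
      have e1 := integral_inter_add_sdiff (s := B j) (f := dv X) hA hi.integrableOn
      have e2 := integral_inter_add_sdiff (s := A) (f := dv X) (hB j) hi.integrableOn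
      rw [inter_comm] at e2
      linarith
    have h3 : ∀ S : Set (E n), MeasurableSet S → volume (U ∩ S) < ∞ →
        |∫ x in S, dv X x| ≤ M * (volume (U ∩ S)).toReal := by
      intro S _ hS
      rw [Elem_setIntegral_inter hU hX.supp]
      have := norm_setIntegral_le_of_norm_le_const hS (f := dv X) (C := M) (fun x _ => hM x)
      simpa [Measure.real] using this
    have s1 : U ∩ (B j \ A) ⊆ symmDiff (B j) A ∩ U := by
      intro x hx; exact ⟨Or.inl hx.2, hx.1⟩
    have s2 : U ∩ (A \ B j) ⊆ symmDiff (B j) A ∩ U := by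
      intro x hx; exact ⟨Or.inr hx.2, hx.1⟩
    have f1 := lt_of_le_of_lt (measure_mono s1) hj
    have f2 := lt_of_le_of_lt (measure_mono s2) hj
    have t1 := h3 _ ((hB j).diff hA) f1
    have t2 := h3 _ (hA.diff (hB j)) f2
    have hsum : volume (U ∩ (B j \ A)) + volume (U ∩ (A \ B j)) = volume (symmDiff (B j) A ∩ U) := by
      rw [← measure_union]
      · congr 1
        ext x
        simp only [mem_union, mem_inter_iff, Set.mem_sdiff, mem_symmDiff]
        tauto
      · rw [Set.disjoint_left]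
        rintro x ⟨_, hx1, hx2⟩ ⟨_, hx3, _⟩
        exact hx2 hx3
      · exact hU.measurableSet.inter (hA.diff (hB j))
    rw [h2, ← hsum, ENNReal.toReal_add f1.ne f2.ne, mul_add]
    exact (abs_sub _ _).trans (add_le_add t1 t2)
  have hlim : Tendsto (fun j => M * (volume (symmDiff (B j) A ∩ U)).toReal) atTop (𝓝 0) := by
    have h1 := (ENNReal.tendsto_toReal ENNReal.zero_ne_top).comp h
    have h2 := h1.const_mul M
    simpa using h2
  exact squeeze_zero' (Eventually.of_forall fun _ => dist_nonneg) hbd hlim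

theorem lsc : Stmt_LSC := by
  intro n U A B hU hA hB h
  refine Elem_per_le (fun X hX h1 => ?_)
  have h2 := Elem_tendsto hU hA hB h hX
  have h3 : Tendsto (fun j => ENNReal.ofReal (∫ x in B j, dv X x)) atTop
      (𝓝 (ENNReal.ofReal (∫ x in A, dv X x))) := ENNReal.tendsto_ofReal h2
  rw [← h3.liminf_eq]
  exact liminf_le_liminf (Eventually.of_forall fun j => Elem_le_per hX h1)

theorem poincareSet (h : Stmt_Poincare) : Stmt_PoincareSet := by
  intro n
  obtain ⟨C, hC, hP⟩ := h n
  refine ⟨C.toNNReal, Real.toNNReal_pos.2 hC, ?_⟩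
  intro V A hV hconv hbd hA
  have hVfin : volume V < ∞ := hbd.measure_lt_top
  by_cases hd : Metric.diam V = 0
  · have hss : V.Subsingleton := by
      intro x hx y hy
      have := Metric.dist_le_diam_of_mem hbd hx hy
      rw [hd] at this
      exact dist_le_zero.1 this
    by_cases hAV : (A ∩ V).Nonempty
    · obtain ⟨x, hxA, hxV⟩ := hAV
      have : V \ A = ∅ := by
        rw [Set.sdiff_eq_empty]
        intro y hy
        rw [hss hy hxV]; exact hxA
      rw [this]; simp
    · rw [Set.not_nonempty_iff_eq_empty] at hAV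
      rw [hAV]; simp
  by_cases hv0 : volume V = 0
  · have : volume (A ∩ V) = 0 := measure_mono_null inter_subset_right hv0
    rw [this]; simp
  by_cases htop : Per V A = ∞
  · rw [htop, ENNReal.mul_top]
    · exact le_top
    · have hd' : 0 < Metric.diam V := lt_of_le_of_ne Metric.diam_nonneg (Ne.symm hd)
      have h1 : ENNReal.ofReal (Metric.diam V) ≠ 0 := by simpa using hd'
      have h2 : (C.toNNReal : ℝ≥0∞) ≠ 0 := by
        simpa using hC
      exact mul_ne_zero (mul_ne_zero h2 h1) hv0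
  have hint : IntegrableOn (A.indicator (fun _ => (1:ℝ))) V := by
    apply Integrable.indicator _ hA
    exact integrable_const_iff.2 (Or.inr ⟨by simpa using hVfin⟩)
  have hTV : TVle V (A.indicator (fun _ => (1:ℝ))) (Per V A).toReal := by
    intro X hX h1
    have e1 : ∫ x in V, A.indicator (fun _ => (1:ℝ)) x * dv X x = ∫ x in A, dv X x := by
      rw [Elem_setIntegral_inter hV hX.supp, inter_comm,
        ← Measure.restrict_restrict hA, ← integral_indicator hA]
      congr 1
      funext x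
      by_cases hx : x ∈ A
      · simp [hx]
      · simp [hx]
    rw [e1]
    exact (ENNReal.ofReal_le_iff_le_toReal htop).1 (Elem_le_per hX h1)
  have key := hP V _ _ hV hconv hbd hint hTV
  have h2 : ∀ x, ∫ y in V, |A.indicator (fun _ => (1:ℝ)) x - A.indicator (fun _ => (1:ℝ)) y| =
      A.indicator (fun _ => (volume (V \ A)).toReal) x +
        Aᶜ.indicator (fun _ => (volume (A ∩ V)).toReal) x := by
    intro x
    by_cases hx : x ∈ A
    · have e : ∀ y, |A.indicator (fun _ => (1:ℝ)) x - A.indicator (fun _ => (1:ℝ)) y| =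
          Aᶜ.indicator (fun _ => (1:ℝ)) y := by
        intro y
        by_cases hy : y ∈ A
        · simp [hx, hy]
        · simp [hx, hy]
      simp only [e]
      rw [integral_indicator hA.compl, Measure.restrict_restrict hA.compl]
      simp [hx, Measure.real, Set.sdiff_eq, inter_comm]
    · have e : ∀ y, |A.indicator (fun _ => (1:ℝ)) x - A.indicator (fun _ => (1:ℝ)) y| =
          A.indicator (fun _ => (1:ℝ)) y := by
        intro y
        by_cases hy : y ∈ A
        · simp [hx, hy]
        · simp [hx, hy]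
      simp only [e]
      rw [integral_indicator hA, Measure.restrict_restrict hA]
      simp [hx, Measure.real]
  simp only [h2] at key
  have hconst : ∀ c : ℝ, IntegrableOn (fun _ : E n => c) V := by
    intro c
    exact integrable_const_iff.2 (Or.inr ⟨by simpa using hVfin⟩)
  rw [integral_add ((hconst _).indicator hA) ((hconst _).indicator hA.compl),
    integral_indicator hA, integral_indicator hA.compl, Measure.restrict_restrict hA,
    Measure.restrict_restrict hA.compl] at key
  simp only [integral_const, Measure.real, Measure.restrict_apply_univ, smul_eq_mul] at key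
  have e3 : Aᶜ ∩ V = V \ A := by rw [Set.sdiff_eq, inter_comm]
  rw [e3] at key
  have f1 : volume (A ∩ V) < ∞ := lt_of_le_of_lt (measure_mono inter_subset_right) hVfin
  have f2 : volume (V \ A) < ∞ := lt_of_le_of_lt (measure_mono sdiff_subset) hVfin
  have n1 : 0 ≤ (volume (A ∩ V)).toReal * (volume (V \ A)).toReal := by positivity
  have key2 : (volume (A ∩ V)).toReal * (volume (V \ A)).toReal ≤
      C * Metric.diam V * (volume V).toReal * (Per V A).toReal := by nlinarith
  have e4 : volume (A ∩ V) * volume (V \ A) =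
      ENNReal.ofReal ((volume (A ∩ V)).toReal * (volume (V \ A)).toReal) := by
    rw [ENNReal.ofReal_mul ENNReal.toReal_nonneg, ENNReal.ofReal_toReal f1.ne,
      ENNReal.ofReal_toReal f2.ne]
  have e5 : (C.toNNReal : ℝ≥0∞) * ENNReal.ofReal (Metric.diam V) * volume V * Per V A =
      ENNReal.ofReal (C * Metric.diam V * (volume V).toReal * (Per V A).toReal) := by
    rw [ENNReal.ofReal_mul (by have := Metric.diam_nonneg (s := V); positivity),
      ENNReal.ofReal_mul (by have := Metric.diam_nonneg (s := V); positivity),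
      ENNReal.ofReal_mul hC.le, ENNReal.ofReal_toReal hVfin.ne, ENNReal.ofReal_toReal htop]
    rfl
  rw [e4, e5]
  exact ENNReal.ofReal_le_ofReal key2

end Pool.Agent.Lib.MP_c95dcf_gt
end

section

/-!
# MP_c95dcf_gt, task G13: existence of minimisers, almost minimisers
-/

set_option autoImplicit false

open MeasureTheory Set Filter Topology
open scoped ENNReal NNReal RealInnerProductSpace

namespace Pool.Agent.Lib.MP_c95dcf_gt

theorem Exist_per_empty {n : ℕ} (U : Set (E n)) : Per U (∅ : Set (E n)) = 0 := by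
  unfold Per
  simp

theorem Exist_vol_sub {n : ℕ} {A B : Set (E n)} (hA : MeasurableSet A) (hB : MeasurableSet B)
    (hA1 : volume A ≠ ∞) (hB1 : volume B ≠ ∞) :
    |(volume A).toReal - (volume B).toReal| ≤ (volume (symmDiff A B)).toReal := by
  have h := abs_measureReal_sub_le_measureReal_symmDiff' (μ := (volume : Measure (E n)))
    hA.nullMeasurableSet hB.nullMeasurableSet hA1 hB1
  simpa [Measure.real] using h

theorem exist (h1 : Stmt_Compact) (h2 : Stmt_LSC) : Stmt_Exist := by
  intro n U f hU hbd hf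
  have hUfin : volume U < ∞ := hbd.measure_lt_top
  have hvol : ∀ A : Set (E n), A ⊆ U → volume A < ∞ := fun A hA =>
    lt_of_le_of_lt (measure_mono hA) hUfin
  have hmem : ∀ A : Set (E n), A ⊆ U → (volume A).toReal ∈ Icc (0:ℝ) (volume U).toReal :=
    fun A hA => ⟨ENNReal.toReal_nonneg, ENNReal.toReal_mono hUfin.ne (measure_mono hA)⟩
  obtain ⟨c, hc⟩ : ∃ c : ℝ, ∀ t ∈ Icc (0:ℝ) (volume U).toReal, c ≤ f t := by
    obtain ⟨c, hc⟩ := (isCompact_Icc.image hf).bddBelow
    exact ⟨c, fun t ht => hc ⟨t, ht, rfl⟩⟩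
  let S : Set ℝ := {v | ∃ A : Set (E n), (MeasurableSet A ∧ A ⊆ U ∧ Per U A ≠ ∞) ∧
    v = (Per U A).toReal + f (volume A).toReal}
  have hSne : S.Nonempty :=
    ⟨_, ∅, ⟨MeasurableSet.empty, empty_subset _, by rw [Exist_per_empty]; exact ENNReal.zero_ne_top⟩, rfl⟩
  have hSb : BddBelow S := by
    refine ⟨c, ?_⟩
    rintro v ⟨A, ⟨_, hAU, _⟩, rfl⟩
    have h3 : 0 ≤ (Per U A).toReal := ENNReal.toReal_nonneg
    have h4 := hc _ (hmem A hAU)
    linarith
  obtain ⟨u, -, hu, huS⟩ := exists_seq_tendsto_sInf hSne hSb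
  choose A hA hAv using huS
  have hbdd : ∃ M : ℝ, ∀ j, u j ≤ M := by
    obtain ⟨M, hM⟩ := hu.bddAbove_range
    exact ⟨M, fun j => hM ⟨j, rfl⟩⟩
  obtain ⟨M, hM⟩ := hbdd
  have hPer : ∀ j, Per U (A j) ≤ ((M - c).toNNReal : ℝ≥0) := by
    intro j
    have h3 : (Per U (A j)).toReal ≤ M - c := by
      have e1 := hAv j
      have e2 := hc _ (hmem _ (hA j).2.1)
      have e3 := hM j
      linarith
    rw [← ENNReal.ofReal_toReal (hA j).2.2]
    exact ENNReal.ofReal_le_ofReal h3
  obtain ⟨φ, B, hφ, hBm, hBU, hB⟩ := h1 n U A (M - c).toNNReal hU hbd (fun j => (hA j).1) hPer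
  have hlsc := h2 n U B (fun j => A (φ j)) hU hBm (fun j => (hA _).1) hB
  -- volumes converge
  have hv : Tendsto (fun j => (volume (A (φ j))).toReal) atTop (𝓝 (volume B).toReal) := by
    rw [tendsto_iff_dist_tendsto_zero]
    have h5 : Tendsto (fun j => (volume (symmDiff (A (φ j)) B ∩ U)).toReal) atTop (𝓝 0) := by
      have := (ENNReal.tendsto_toReal ENNReal.zero_ne_top).comp hB
      simpa [Function.comp_def] using this
    refine squeeze_zero (fun _ => dist_nonneg) (fun j => ?_) h5
    rw [Real.dist_eq]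
    have h6 : symmDiff (A (φ j)) B ∩ U = symmDiff (A (φ j)) B := by
      apply inter_eq_left.2
      intro x hx
      rcases hx with hx | hx
      · exact (hA (φ j)).2.1 hx.1
      · exact hBU hx.1
    rw [h6]
    exact Exist_vol_sub (hA _).1 hBm (hvol _ (hA _).2.1).ne (hvol _ hBU).ne
  have hP : Tendsto (fun j => (Per U (A (φ j))).toReal) atTop
      (𝓝 (sInf S - f (volume B).toReal)) := by
    have h7 : ∀ j, (Per U (A (φ j))).toReal = u (φ j) - f (volume (A (φ j))).toReal := by
      intro j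
      rw [hAv (φ j)]
      ring
    simp only [h7]
    exact (hu.comp hφ.tendsto_atTop).sub ((hf.tendsto _).comp hv)
  have hP' : Tendsto (fun j => Per U (A (φ j))) atTop
      (𝓝 (ENNReal.ofReal (sInf S - f (volume B).toReal))) := by
    have h8 := ENNReal.tendsto_ofReal hP
    refine h8.congr (fun j => ?_)
    exact ENNReal.ofReal_toReal (hA _).2.2
  rw [hP'.liminf_eq] at hlsc
  have hp0 : 0 ≤ sInf S - f (volume B).toReal :=
    ge_of_tendsto hP (Eventually.of_forall fun j => ENNReal.toReal_nonneg)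
  have hBfin : Per U B ≠ ∞ := ne_top_of_le_ne_top ENNReal.ofReal_ne_top hlsc
  refine ⟨B, hBm, hBU, hBfin, ?_⟩
  intro D hDm hDU hDfin
  have h9 : sInf S ≤ (Per U D).toReal + f (volume D).toReal :=
    csInf_le hSb ⟨D, ⟨hDm, hDU, hDfin⟩, rfl⟩
  have h10 : (Per U B).toReal ≤ sInf S - f (volume B).toReal := by
    rw [← ENNReal.toReal_ofReal hp0]
    exact ENNReal.toReal_mono ENNReal.ofReal_ne_top hlsc
  linarith

theorem lmin : Stmt_LMin := by
  intro n U A f L hU hbd hf h
  have hUfin : volume U < ∞ := hbd.measure_lt_top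
  refine ⟨h.meas, h.sub, h.fin, ?_⟩
  intro B hB hBU
  by_cases hBf : Per U B = ∞
  · rw [hBf]; simp
  have hA1 : volume A ≠ ∞ := (lt_of_le_of_lt (measure_mono h.sub) hUfin).ne
  have hB1 : volume B ≠ ∞ := (lt_of_le_of_lt (measure_mono hBU) hUfin).ne
  have hS1 : volume (symmDiff A B) ≠ ∞ := by
    refine (lt_of_le_of_lt (measure_mono ?_) hUfin).ne
    intro x hx
    rcases hx with hx | hx
    · exact h.sub hx.1
    · exact hBU hx.1
  have h1 := h.le B hB hBU hBf
  have h2 : f (volume B).toReal - f (volume A).toReal ≤ L * (volume (symmDiff A B)).toReal := by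
    have h3 := hf.dist_le_mul (volume B).toReal (volume A).toReal
    rw [Real.dist_eq, Real.dist_eq, abs_sub_comm (volume B).toReal] at h3
    have h4 := Exist_vol_sub h.meas hB hA1 hB1
    calc f (volume B).toReal - f (volume A).toReal
        ≤ |f (volume B).toReal - f (volume A).toReal| := le_abs_self _
      _ ≤ L * |(volume A).toReal - (volume B).toReal| := h3
      _ ≤ _ := mul_le_mul_of_nonneg_left h4 L.coe_nonneg
  have h5 : (Per U A).toReal ≤ (Per U B).toReal + L * (volume (symmDiff A B)).toReal := by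
    linarith
  rw [← ENNReal.ofReal_toReal h.fin, ← ENNReal.ofReal_toReal hBf, ← ENNReal.ofReal_toReal hS1]
  have h6 : (L : ℝ≥0∞) = ENNReal.ofReal L := by simp
  rw [h6, ← ENNReal.ofReal_mul L.coe_nonneg, ← ENNReal.ofReal_add ENNReal.toReal_nonneg
    (mul_nonneg L.coe_nonneg ENNReal.toReal_nonneg)]
  exact ENNReal.ofReal_le_ofReal h5

theorem lminCompl (h : Stmt_PerCompl) : Stmt_LMinCompl := by
  intro n U A L hU
  constructor
  · intro hA
    refine ⟨hU.measurableSet.diff hA.meas, sdiff_subset, ?_, ?_⟩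
    · rw [h n U A hU hA.meas]; exact hA.fin
    · intro B hB hBU
      rw [h n U A hU hA.meas]
      have h1 := hA.le (U \ B) (hU.measurableSet.diff hB) sdiff_subset
      rw [h n U B hU hB] at h1
      have h2 : symmDiff A (U \ B) = symmDiff (U \ A) B := by
        ext x
        have hAx := @hA.sub x
        have hBx := @hBU x
        simp only [mem_symmDiff, Set.mem_sdiff]
        tauto
      rwa [h2] at h1
  · intro hA μ ν hP
    refine ⟨hP.fin, hP.null, hP.meas.neg, fun x => by simpa using hP.unit x, ?_, ?_⟩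
    · intro X hX
      rw [Elem_compl hU hA hX]
      have h3 : ∫ x in A, dv X x = ∫ x, ⟪X x, ν x⟫ ∂μ := hP.repr X hX
      rw [h3]
      simp only [inner_neg_right, integral_neg]
    · intro W hW hWU
      have h4 := hP.open_eq W hW hWU
      rw [h4]
      apply le_antisymm
      · apply iSup₂_le
        rintro X ⟨hX, hX1⟩
        have hXU : TF U X := ⟨hX.diff, hX.comp, hX.supp.trans hWU⟩
        have e1 : ∫ x in A, dv X x = ∫ x in U \ A, dv (fun y => - X y) x := by
          rw [Elem_compl hU hA (Elem_tf_neg hXU)]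
          simp only [Elem_dv_neg, integral_neg, neg_neg]
        rw [e1]
        exact le_iSup₂ (f := fun (X : E n → E n) (_ : TF W X ∧ ∀ x, ‖X x‖ ≤ 1) =>
          ENNReal.ofReal (∫ x in U \ A, dv X x)) (fun y => - X y)
          ⟨Elem_tf_neg hX, by simpa using hX1⟩
      · apply iSup₂_le
        rintro X ⟨hX, hX1⟩
        have hXU : TF U X := ⟨hX.diff, hX.comp, hX.supp.trans hWU⟩
        have e1 : ∫ x in U \ A, dv X x = ∫ x in A, dv (fun y => - X y) x := by
          rw [Elem_compl hU hA hXU]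
          simp only [Elem_dv_neg, integral_neg]
        rw [e1]
        exact le_iSup₂ (f := fun (X : E n → E n) (_ : TF W X ∧ ∀ x, ‖X x‖ ≤ 1) =>
          ENNReal.ofReal (∫ x in A, dv X x)) (fun y => - X y)
          ⟨Elem_tf_neg hX, by simpa using hX1⟩

end Pool.Agent.Lib.MP_c95dcf_gt
end
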