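import Pool.Agent.Lib.MP_c95dcf_gt.Mg.G001
import Pool.Agent.Lib.MP_c95dcf_gt.GStmts

section

/-!
# MP_c95dcf_gt, part T: the thin limit. Statements of the lemma tasks
-/

set_option autoImplicit false

open MeasureTheory Set Filter Topology
open scoped ENNReal NNReal RealInnerProductSpace

namespace Pool.Agent.Lib.MP_c95dcf_gt

/-! ## The body, fibres, lifts, scaling -/

def Stmt_Body : Prop := ∀ (m : ℕ) (ε : ℝ), 1 ≤ m → 0 < ε →
  Convex ℝ (Kb m ε) ∧ IsCompact (Kb m ε) ∧ interior (Kb m ε) = Ub m ε ∧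
  closure (Ub m ε) = Kb m ε ∧ (Ub m ε).Nonempty ∧ IsOpen (Ub m ε) ∧ Convex ℝ (Ub m ε) ∧
  Bornology.IsBounded (Ub m ε) ∧ (∀ x ∈ Kb m ε, -x ∈ Kb m ε) ∧
  Ls ε '' Ub m 1 = Ub m ε ∧ Ls ε '' Kb m 1 = Kb m ε

/-- Fibre integration in the normalised coordinates. -/
def Stmt_Fib : Prop := ∀ (m : ℕ) (A : Set (E (2 + m))), 2 ≤ m → MeasurableSet A → A ⊆ Ub m 1 →
  (∀ ζ, MeasurableSet (As m A ζ)) ∧
  (∀ (θ : ℂ → E m → ℝ) (C : ℝ), Measurable (fun q : ℂ × E m => θ q.1 q.2) →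
    (∀ c ζ, |θ c ζ| ≤ C) →
    (Measurable fun ζ => ∫ c in As m A ζ, θ c ζ * Wp m ‖c‖) ∧
    ∫ p in A, θ (px p) (zt m p) =
      ∫ ζ in Metric.ball (0 : E m) 1, ∫ c in As m A ζ, θ c ζ * Wp m ‖c‖) ∧
  (Measurable fun ζ => V0 m (As m A ζ)) ∧
  (∀ ζ, 0 ≤ V0 m (As m A ζ) ∧ V0 m (As m A ζ) ≤ V0 m univ) ∧
  (volume A).toReal = ∫ ζ in Metric.ball (0 : E m) 1, V0 m (As m A ζ)

def Stmt_Lift : Prop := ∀ (m : ℕ) (A : Set ℂ), 2 ≤ m → MeasurableSet A →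
  MeasurableSet (lift m A) ∧ (volume (lift m A)).toReal = omr m * V0 m A ∧
  (∀ ζ ∈ Metric.ball (0 : E m) 1, As m (lift m A) ζ = A ∩ Metric.ball 0 m) ∧
  (∀ ε : ℝ, 0 < ε → Pe m ε (lift m A) ≤ om m * P0 m A)

def Stmt_PeScale : Prop := ∀ (m : ℕ) (ε : ℝ) (A : Set (E (2 + m))), 1 ≤ m → 0 < ε →
  MeasurableSet A → MeasurableSet (Ls ε '' A) ∧
  volume (Ls ε '' A) = ENNReal.ofReal (ε ^ m) * volume A ∧
  Per (Ub m ε) (Ls ε '' A) = ENNReal.ofReal (ε ^ m) * Pe m ε A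

def Stmt_PeProps : Prop := ∀ (m : ℕ) (ε : ℝ), 2 ≤ m → 0 < ε →
  (∀ A B : Set (E (2 + m)), volume ((symmDiff A B) ∩ Ub m 1) = 0 → Pe m ε A = Pe m ε B) ∧
  (∀ A : Set (E (2 + m)), MeasurableSet A → Pe m ε (Ub m 1 \ A) = Pe m ε A) ∧
  (∀ A B : Set (E (2 + m)), MeasurableSet A → MeasurableSet B →
    Pe m ε (A ∪ B) + Pe m ε (A ∩ B) ≤ Pe m ε A + Pe m ε B) ∧
  (∀ A B : Set (E (2 + m)), MeasurableSet A → MeasurableSet B →
    closure (A ∩ Ub m 1) ∩ closure (B ∩ Ub m 1) ∩ Ub m 1 = ∅ →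
    Pe m ε (A ∪ B) = Pe m ε A + Pe m ε B) ∧
  (∀ A : Set (E (2 + m)), MeasurableSet A → Pe m ε A ≠ ∞ → ∃ lam ν, ERep m ε A lam ν) ∧
  (∀ (A : Set (E (2 + m))) lam ν, ERep m ε A lam ν → WRep m ε A lam ν ∧ lam univ = Pe m ε A) ∧
  (ε ≤ 1 → ∀ A : Set (E (2 + m)), MeasurableSet A → Per (Ub m 1) A ≤ Pe m ε A)

def Stmt_PeIso : Prop := ∀ m : ℕ, 2 ≤ m → ∃ c : ℝ, 0 < c ∧ ∀ ε : ℝ, 0 < ε → ε ≤ 1 →
  ∀ A : Set (E (2 + m)), MeasurableSet A →
    ENNReal.ofReal c * (min (volume (A ∩ Ub m 1)) (volume (Ub m 1 \ A))) ^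
      (((m : ℝ) + 1) / (m + 2)) ≤ Pe m ε A

/-! ## The basic identity and the slices -/

/-- The identity obtained from the field `η(ζ) (Y, ε ⟪Y, ∇w⟫ ζ)`. -/
def Stmt_Ident : Prop := ∀ (m : ℕ) (ε : ℝ) (A : Set (E (2 + m))) (lam : Measure (E (2 + m)))
  (ν : E (2 + m) → E (2 + m)), 2 ≤ m → 0 < ε → MeasurableSet A → A ⊆ Ub m 1 →
  WRep m ε A lam ν → ∀ (η : E m → ℝ) (Y : ℂ → ℂ), ContDiff ℝ 1 η → HasCompactSupport η →
  tsupport η ⊆ Metric.ball 0 1 → TFc (Dp m) Y →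
    ∫ ζ in Metric.ball (0 : E m) 1, η ζ * ∫ c in As m A ζ, dvW m Y c =
      ∫ p, η (zt m p) * (⟪Y (px p), px (ν p)⟫ +
        ε * ⟪pz (ν p), zt m p⟫ * ⟪Y (px p), gw m (px p)⟫) ∂lam

/-- The weighted perimeters of the slices. -/
def Stmt_SliceP : Prop := ∀ (m : ℕ) (ε : ℝ) (A : Set (E (2 + m))) (lam : Measure (E (2 + m)))
  (ν : E (2 + m) → E (2 + m)), 2 ≤ m → 0 < ε → MeasurableSet A → A ⊆ Ub m 1 →
  WRep m ε A lam ν →
    ∫⁻ ζ in Metric.ball (0 : E m) 1, P0 m (As m A ζ) ≤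
      ∫⁻ p, ENNReal.ofReal ‖px (ν p) + (ε * ⟪pz (ν p), zt m p⟫ : ℝ) • gw m (px p)‖ ∂lam

/-- The variation of the mass of the slices. -/
def Stmt_SliceV : Prop := ∀ (m : ℕ) (ε : ℝ) (A : Set (E (2 + m))) (lam : Measure (E (2 + m)))
  (ν : E (2 + m) → E (2 + m)), 2 ≤ m → 0 < ε → MeasurableSet A → A ⊆ Ub m 1 →
  WRep m ε A lam ν →
    TVle (Metric.ball (0 : E m) 1) (fun ζ => V0 m (As m A ζ)) (ε * ∫ p, ‖pz (ν p)‖ ∂lam)

/-! ## `L²` bounds for the vertical part of the normal -/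

def Stmt_L2 : Prop := ∀ (m : ℕ) (κ t : ℝ), 2 ≤ m → 0 < κ → κ < 1 → 0 < t → ∃ C : ℝ,
  ∀ ε : ℝ, 0 < ε → ε ≤ 1 → ∀ (A : Set (E (2 + m))) (lam : Measure (E (2 + m)))
  (ν : E (2 + m) → E (2 + m)), IsMinE m ε (fT m κ t) A → WRep m ε A lam ν →
    ∫ p, ‖pz (ν p)‖ ^ 2 ∂lam ≤ C * ε ^ 2

/-- The same for relatively clopen pieces of minimisers. -/
def Stmt_L2P : Prop := ∀ (m : ℕ) (κ t : ℝ), 2 ≤ m → 0 < κ → κ < 1 → 0 < t → ∃ C : ℝ,
  ∀ ε : ℝ, 0 < ε → ε ≤ 1 → ∀ (A F : Set (E (2 + m))) (lam : Measure (E (2 + m)))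
  (ν : E (2 + m) → E (2 + m)), IsMinE m ε (fT m κ t) A → MeasurableSet F → F ⊆ A →
  closure F ∩ closure (A \ F) ∩ Ub m 1 = ∅ → ERep m ε F lam ν →
    ∫ p, ‖pz (ν p)‖ ^ 2 ∂lam ≤ C * ε ^ 2

/-! ## Compactness and lower semicontinuity -/

def Stmt_CompE : Prop := ∀ (m : ℕ) (ε : ℕ → ℝ) (A : ℕ → Set (E (2 + m))) (M : ℝ≥0), 2 ≤ m →
  (∀ j, 0 < ε j) → (∀ j, ε j ≤ 1) → Tendsto ε atTop (𝓝 0) → (∀ j, MeasurableSet (A j)) →
  (∀ j, A j ⊆ Ub m 1) → (∀ j, Pe m (ε j) (A j) ≤ M) →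
    ∃ (φ : ℕ → ℕ) (A0 : Set ℂ), StrictMono φ ∧ MeasurableSet A0 ∧ A0 ⊆ Metric.ball (0 : ℂ) m ∧
      Tendsto (fun j => volume (symmDiff (A (φ j)) (lift m A0))) atTop (𝓝 0)

def Stmt_LscE : Prop := ∀ (m : ℕ) (ε : ℕ → ℝ) (A : ℕ → Set (E (2 + m))) (A0 : Set ℂ), 2 ≤ m →
  (∀ j, 0 < ε j) → (∀ j, ε j ≤ 1) → Tendsto ε atTop (𝓝 0) → (∀ j, MeasurableSet (A j)) →
  (∀ j, A j ⊆ Ub m 1) → MeasurableSet A0 →
  Tendsto (fun j => volume (symmDiff (A j) (lift m A0))) atTop (𝓝 0) →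
    om m * P0 m A0 ≤ liminf (fun j => Pe m (ε j) (A j)) atTop

/-! ## Consequences of part B for thin bodies -/

/-- The parameters provided by part B. -/
structure BHyp (m : ℕ) (κ t : ℝ) : Prop where
  hm : 2 ≤ m
  κ_pos : 0 < κ
  κ_lt : κ < 1
  t_pos : 0 < t
  t_le : t ≤ V0 m univ / 16
  ring : ∃ A : Set ℂ, MeasurableSet A ∧ A ⊆ Metric.ball (0 : ℂ) m ∧ V0 m A = t ∧
    P0 m A < ENNReal.ofReal (κ * t)
  mid : ∀ A : Set ℂ, MeasurableSet A → V0 m univ / 4 ≤ V0 m A → V0 m A ≤ 3 / 4 * V0 m univ →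
    ENNReal.ofReal (κ * t) < P0 m A
  mono : ∀ A : Set ℂ, MeasurableSet A → 0 < V0 m A → V0 m A ≤ 3 / 4 * V0 m univ →
    ((∃ h : ℂ, h ≠ 0 ∧ Mono m h A) ∨ Rad m A) →
      ENNReal.ofReal (κ * min (V0 m A) t) < P0 m A

/-- Sets of intermediate volume have large perimeter. -/
def Stmt_Mid : Prop := ∀ (m : ℕ) (κ t : ℝ), BHyp m κ t → ∃ ε₀ : ℝ, 0 < ε₀ ∧ ε₀ ≤ 1 ∧
  ∀ ε : ℝ, 0 < ε → ε < ε₀ → ∀ A : Set (E (2 + m)), MeasurableSet A → A ⊆ Ub m 1 →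
    vU m / 4 ≤ (volume A).toReal → (volume A).toReal ≤ 3 / 4 * vU m →
      ENNReal.ofReal (κ * (omr m * t)) < Pe m ε A

/-- Volume and perimeter of the minimisers. -/
def Stmt_MinVol : Prop := ∀ (m : ℕ) (κ t : ℝ), BHyp m κ t → ∃ ε₀ : ℝ, 0 < ε₀ ∧ ε₀ ≤ 1 ∧
  ∀ ε : ℝ, 0 < ε → ε < ε₀ → ∀ A : Set (E (2 + m)), IsMinE m ε (fT m κ t) A →
    0 < (volume A).toReal ∧ (volume A).toReal < vU m / 4 ∧
    Pe m ε A ≤ ENNReal.ofReal (κ * min (volume A).toReal (omr m * t))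

/-- The monotone piece. -/
def Stmt_PieceD : Prop := ∀ (m : ℕ) (κ t : ℝ), BHyp m κ t → ∃ ε₀ c δ : ℝ, 0 < ε₀ ∧ ε₀ ≤ 1 ∧
  0 < c ∧ 0 < δ ∧ ∀ ε : ℝ, 0 < ε → ε < ε₀ → ∀ (A : Set (E (2 + m))) (e : E (2 + m)),
    Bad m κ t ε A e → ∃ F, PieceD m κ t c δ ε (A ∩ Ub m 1) F

/-! ## First variation -/

/-- The factor by which the scaled area changes under a linear map. -/
noncomputable def Jc {m : ℕ} (ε : ℝ) (L : E (2 + m) →L[ℝ] E (2 + m)) (n : E (2 + m)) : ℝ :=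
  |L.det| * ‖Ls ε⁻¹ (L.inverse.adjoint (Ls ε n))‖

def Stmt_DiffeoE : Prop := ∀ (m : ℕ) (ε : ℝ) (A : Set (E (2 + m))) (lam : Measure (E (2 + m)))
  (ν Φ Ψ : E (2 + m) → E (2 + m)), 1 ≤ m → 0 < ε → MeasurableSet A → A ⊆ Ub m 1 →
  ERep m ε A lam ν → ContDiffOn ℝ 1 Φ (Ub m 1) → ContDiffOn ℝ 1 Ψ (Ub m 1) →
  MapsTo Φ (Ub m 1) (Ub m 1) → MapsTo Ψ (Ub m 1) (Ub m 1) →
  (∀ x ∈ Ub m 1, Ψ (Φ x) = x) → (∀ x ∈ Ub m 1, Φ (Ψ x) = x) →
  Pe m ε (Φ '' A) ≤ ∫⁻ x, ENNReal.ofReal (Jc ε (fderiv ℝ Φ x) (ν x)) ∂lam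

/-- Derivative of volume and area along a smooth family of maps. -/
def Stmt_FirstVar : Prop := ∀ (m : ℕ) (ε s₀ : ℝ) (U₁ U' K₀ : Set (E (2 + m)))
  (Φ : ℝ → E (2 + m) → E (2 + m)) (V : E (2 + m) → E (2 + m)), 0 < ε → 0 < s₀ →
  IsOpen U₁ → IsOpen U' → U₁ ⊆ U' → IsCompact K₀ → K₀ ⊆ U' →
  ContDiffOn ℝ 2 (fun q : ℝ × E (2 + m) => Φ q.1 q.2) (Ioo (-s₀) s₀ ×ˢ U') →
  (∀ p ∈ U', Φ 0 p = p) → (∀ p ∈ U', HasDerivAt (fun s => Φ s p) (V p) 0) →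
  (∀ s ∈ Ioo (-s₀) s₀, ∀ p ∈ U₁ \ K₀, Φ s p = p) →
  ∀ lam : Measure (E (2 + m)), IsFiniteMeasure lam → lam U₁ᶜ = 0 →
    HasDerivAt (fun s => ∫ p, |(fderiv ℝ (Φ s) p).det| ∂lam) (∫ p, dv V p ∂lam) 0 ∧
    ∀ ν : E (2 + m) → E (2 + m), Measurable ν → (∀ p, ‖ν p‖ = 1) →
      HasDerivAt (fun s => ∫ p, Jc ε (fderiv ℝ (Φ s) p) (ν p) ∂lam)
        (∫ p, (dv V p - ⟪Ls ε (ν p), fderiv ℝ V p (Ls ε⁻¹ (ν p))⟫) ∂lam) 0

/-- The flow `(x, ζ) ↦ (x + s η(⟪ζ, v⟫) Y(x), ζ)`. -/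
noncomputable def Fl (m : ℕ) (v : E m) (η : ℝ → ℝ) (Y : ℂ → ℂ) (s : ℝ) (p : E (2 + m)) :
    E (2 + m) :=
  jn (px p + (s * η ⟪zt m p, v⟫ : ℝ) • Y (px p))
    ((wp m ‖px p + (s * η ⟪zt m p, v⟫ : ℝ) • Y (px p)‖) • zt m p)

/-- Its velocity. -/
noncomputable def Vf (m : ℕ) (v : E m) (η : ℝ → ℝ) (Y : ℂ → ℂ) (p : E (2 + m)) : E (2 + m) :=
  jn (η ⟪zt m p, v⟫ • Y (px p)) ((η ⟪zt m p, v⟫ * ⟪Y (px p), gw m (px p)⟫) • zt m p)

def Stmt_Flow : Prop := ∀ (m : ℕ) (v : E m) (η : ℝ → ℝ) (Y : ℂ → ℂ), 2 ≤ m → ‖v‖ = 1 →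
  ContDiff ℝ 2 η → ContDiff ℝ 2 Y → TFc (Dp m) Y → ∃ (s₀ : ℝ) (U' K₀ : Set (E (2 + m))),
    0 < s₀ ∧ IsOpen U' ∧ IsCompact K₀ ∧ K₀ ⊆ U' ∧ Ub m 1 ⊆ U' ∧
    ContDiffOn ℝ 2 (fun q : ℝ × E (2 + m) => Fl m v η Y q.1 q.2) (Ioo (-s₀) s₀ ×ˢ U') ∧
    (∀ p ∈ U', Fl m v η Y 0 p = p) ∧
    (∀ p ∈ U', HasDerivAt (fun s => Fl m v η Y s p) (Vf m v η Y p) 0) ∧
    (∀ s ∈ Ioo (-s₀) s₀, ∀ p ∈ Ub m 1 \ K₀, Fl m v η Y s p = p) ∧
    ∀ s ∈ Ioo (-s₀) s₀, MapsTo (Fl m v η Y s) (Ub m 1) (Ub m 1) ∧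
      ∃ Ψ : E (2 + m) → E (2 + m), ContDiffOn ℝ 1 Ψ (Ub m 1) ∧
        MapsTo Ψ (Ub m 1) (Ub m 1) ∧ (∀ x ∈ Ub m 1, Ψ (Fl m v η Y s x) = x) ∧
        (∀ x ∈ Ub m 1, Fl m v η Y s (Ψ x) = x)

/-- The main part of the integrand of the first variation. -/
noncomputable def mainI (m : ℕ) (ε : ℝ) (v : E m) (η : ℝ → ℝ) (Y : ℂ → ℂ) (p n : E (2 + m)) : ℝ :=
  η ⟪zt m p, v⟫ * (dvW m Y (px p) / Wp m ‖px p‖ - ⟪px n, fderiv ℝ Y (px p) (px n)⟫) +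
  deriv η ⟪zt m p, v⟫ * ⟪px n, Y (px p)⟫ *
    ((⟪zt m p, v⟫ * ⟪px n, gw m (px p)⟫ - ε⁻¹ * ⟪pz n, v⟫) / wp m ‖px p‖)

def Stmt_VarCalc : Prop := ∀ (m : ℕ) (v : E m) (η : ℝ → ℝ) (Y : ℂ → ℂ), 2 ≤ m → ‖v‖ = 1 →
  ContDiff ℝ 2 η → ContDiff ℝ 2 Y → TFc (Dp m) Y → ∃ C : ℝ, 0 ≤ C ∧
  ∀ p ∈ Ub m 1, dv (Vf m v η Y) p = η ⟪zt m p, v⟫ * (dvW m Y (px p) / Wp m ‖px p‖) ∧
    ∀ ε : ℝ, 0 < ε → ε ≤ 1 → ∀ n : E (2 + m), ‖n‖ = 1 →
      |dv (Vf m v η Y) p - ⟪Ls ε n, fderiv ℝ (Vf m v η Y) p (Ls ε⁻¹ n)⟫ - mainI m ε v η Y p n| ≤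
        C * (ε * ‖pz n‖ + ‖pz n‖ ^ 2)

/-- The first variation inequality. -/
def Stmt_FV : Prop := ∀ (m : ℕ) (v : E m) (η : ℝ → ℝ) (Y : ℂ → ℂ), 2 ≤ m → ‖v‖ = 1 →
  ContDiff ℝ 2 η → ContDiff ℝ 2 Y → TFc (Dp m) Y → ∃ C : ℝ, 0 ≤ C ∧
  ∀ (ε δ : ℝ) (F : Set (E (2 + m))) (lam : Measure (E (2 + m))) (ν : E (2 + m) → E (2 + m)),
    0 < ε → ε ≤ 1 → 0 < δ → MeasurableSet F → F ⊆ Ub m 1 → Quasi m ε δ F →
    ERep m ε F lam ν →
      |∫ p, mainI m ε v η Y p (ν p) ∂lam| ≤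
        |∫ ζ in Metric.ball (0 : E m) 1, η ⟪ζ, v⟫ * ∫ c in As m F ζ, dvW m Y c| +
          C * (ε * ∫ p, ‖pz (ν p)‖ ∂lam + ∫ p, ‖pz (ν p)‖ ^ 2 ∂lam)

/-! ## The limit -/

/-- Elementary facts on the weighted perimeter. -/
def Stmt_P0C2 : Prop := ∀ (m : ℕ) (A : Set ℂ), 2 ≤ m → MeasurableSet A →
  (∀ Y : ℂ → ℂ, TFc (Dp m) Y → TFc (Dp m) (fun c => ((Wp m ‖c‖ : ℝ) : ℂ) * Y c)) ∧
  (P0 m A ≠ ∞ → ∀ (Y : ℂ → ℂ) (b : ℝ), TFc (Dp m) Y → (∀ c, ‖Y c‖ ≤ b) →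
    |∫ c in A, dvW m Y c| ≤ b * (P0 m A).toReal) ∧
  (P0 m A ≠ ∞ → ∀ δ : ℝ, 0 < δ → ∃ Y : ℂ → ℂ, ContDiff ℝ 2 Y ∧ TFc (Dp m) Y ∧
    (∀ c, ‖Y c‖ ≤ 1) ∧ (P0 m A).toReal ≤ (∫ c in A, dvW m Y c) + δ)

/-- Convergence of a sequence of pieces and of the perimeters. -/
def Stmt_Strict : Prop := ∀ (m : ℕ) (κ t : ℝ) (ε : ℕ → ℝ) (A F : ℕ → Set (E (2 + m))), 2 ≤ m →
  0 < κ → κ < 1 → 0 < t → (∀ j, 0 < ε j) → (∀ j, ε j ≤ 1) → Tendsto ε atTop (𝓝 0) →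
  (∀ j, IsMinE m (ε j) (fT m κ t) (A j)) → (∀ j, MeasurableSet (F j)) → (∀ j, F j ⊆ A j) →
  (∀ j, closure (F j) ∩ closure (A j \ F j) ∩ Ub m 1 = ∅) →
    ∃ (φ : ℕ → ℕ) (F0 : Set ℂ) (lam : ℕ → Measure (E (2 + m)))
      (ν : ℕ → E (2 + m) → E (2 + m)), StrictMono φ ∧
      LimD m (fun j => ε (φ j)) (fun j => F (φ j)) F0 lam ν

/-- Convergence to the product structure. -/
def Stmt_ProdConv : Prop := ∀ (m : ℕ) (ε : ℕ → ℝ) (F : ℕ → Set (E (2 + m))) (F0 : Set ℂ)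
  (lam : ℕ → Measure (E (2 + m))) (ν : ℕ → E (2 + m) → E (2 + m)), 2 ≤ m →
  LimD m ε F F0 lam ν →
  (∀ (η : E m → ℝ) (Y : ℂ → ℂ), Continuous η → TFc (Dp m) Y →
    Tendsto (fun j => ∫ p, η (zt m p) * ⟪Y (px p), px (ν j p)⟫ ∂(lam j)) atTop
      (𝓝 ((∫ ζ in Metric.ball (0 : E m) 1, η ζ) * ∫ c in F0, dvW m Y c))) ∧
  (∀ (η : E m → ℝ) (Θ : ℂ → ℂ → ℝ) (K : Set ℂ), Continuous η →
    Continuous (fun q : ℂ × ℂ => Θ q.1 q.2) → IsCompact K → K ⊆ Dp m →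
    (∀ x, x ∉ K → ∀ p, Θ x p = 0) → ∫ ζ in Metric.ball (0 : E m) 1, η ζ = 0 →
    Tendsto (fun j => ∫ p, η (zt m p) * Θ (px p) (px (ν j p)) ∂(lam j)) atTop (𝓝 0)) ∧
  (∀ (Y : ℂ → ℂ) (δ : ℝ), TFc (Dp m) Y → (∀ c, ‖Y c‖ ≤ 1) → 0 < δ →
    (P0 m F0).toReal ≤ (∫ c in F0, dvW m Y c) + δ →
    ∀ᶠ j in atTop, ∫ p, (1 - ⟪Y (px p), px (ν j p)⟫) ∂(lam j) ≤ 2 * omr m * δ)

/-- The weak equation satisfied by the limit. -/
def Stmt_Weak : Prop := ∀ (m : ℕ) (ε : ℕ → ℝ) (F : ℕ → Set (E (2 + m))) (F0 : Set ℂ)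
  (lam : ℕ → Measure (E (2 + m))) (ν : ℕ → E (2 + m) → E (2 + m)) (δ : ℝ), 2 ≤ m →
  LimD m ε F F0 lam ν → 0 < δ → (∀ j, Quasi m (ε j) δ (F j)) →
  ∀ (v : E m) (g : ℝ → ℝ) (ψ : ℂ → ℝ), ‖v‖ = 1 → ContDiff ℝ 1 g → ContDiff ℝ 2 ψ →
    HasCompactSupport ψ → tsupport ψ ⊆ Dp m →
    Tendsto (fun j => ∫ p, g ⟪zt m p, v⟫ * ψ (px p) *
      ((⟪zt m p, v⟫ * ⟪px (ν j p), gw m (px p)⟫ - (ε j)⁻¹ * ⟪pz (ν j p), v⟫) / wp m ‖px p‖)
        ∂(lam j)) atTop (𝓝 0)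

/-- The limit of monotone pieces is monotone or radially invariant. -/
def Stmt_Dir : Prop := ∀ (m : ℕ) (ε : ℕ → ℝ) (F : ℕ → Set (E (2 + m))) (F0 : Set ℂ)
  (lam : ℕ → Measure (E (2 + m))) (ν : ℕ → E (2 + m) → E (2 + m)), 2 ≤ m →
  LimD m ε F F0 lam ν →
  (∀ (v : E m) (g : ℝ → ℝ) (ψ : ℂ → ℝ), ‖v‖ = 1 → ContDiff ℝ 1 g → ContDiff ℝ 2 ψ →
    HasCompactSupport ψ → tsupport ψ ⊆ Dp m →
    Tendsto (fun j => ∫ p, g ⟪zt m p, v⟫ * ψ (px p) *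
      ((⟪zt m p, v⟫ * ⟪px (ν j p), gw m (px p)⟫ - (ε j)⁻¹ * ⟪pz (ν j p), v⟫) / wp m ‖px p‖)
        ∂(lam j)) atTop (𝓝 0)) →
  (∀ j, ∃ e : E (2 + m), e ≠ 0 ∧
    ∀ x ∈ F j, ∀ s : ℝ, 0 ≤ s → x + s • e ∈ Ub m 1 → x + s • e ∈ F j) →
  (∃ h : ℂ, h ≠ 0 ∧ Mono m h F0) ∨ Rad m F0

/-! ## Final results -/

/-- The result of part T. -/
def Stmt_T : Prop := ∀ (m : ℕ) (κ t : ℝ), BHyp m κ t → ∃ ε₀ : ℝ, 0 < ε₀ ∧ ε₀ ≤ 1 ∧
  ∀ ε : ℝ, 0 < ε → ε < ε₀ → ∀ (A : Set (E (2 + m))) (e : E (2 + m)), ¬ Bad m κ t ε A e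

/-- The (positive) statement of the problem. -/
def Frozen : Prop := ∀ (n : ℕ), 2 ≤ n → ∀ (K : Set (EuclideanSpace ℝ (Fin n))),
  Convex ℝ K → IsCompact K → (interior K).Nonempty → (∀ x ∈ K, -x ∈ K) →
  ∀ t : ℝ, 0 < t → t < 1 →
  ∀ F : Set (EuclideanSpace ℝ (Fin n)), F ⊆ K → IsClosed F → closure (interior F) = F →
    MeasureTheory.volume F = ENNReal.ofReal t * MeasureTheory.volume K →
    (∀ G : Set (EuclideanSpace ℝ (Fin n)), G ⊆ K → IsClosed G →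
      closure (interior G) = G →
      MeasureTheory.volume G = ENNReal.ofReal t * MeasureTheory.volume K →
      MeasureTheory.Measure.hausdorffMeasure ((n : ℝ) - 1) (frontier F ∩ interior K) ≤
        MeasureTheory.Measure.hausdorffMeasure ((n : ℝ) - 1) (frontier G ∩ interior K)) →
    ∃ v : EuclideanSpace ℝ (Fin n), v ≠ 0 ∧
      ∀ x ∈ frontier F ∩ interior K, ∀ y ∈ frontier F ∩ interior K,
        ∀ c : ℝ, y = x + c • v → x = y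

/-- Under the positive statement, there are regular minimisers which are graphs. -/
def Stmt_Exist0 : Prop := Frozen → ∀ (m : ℕ) (κ t : ℝ), BHyp m κ t →
  ∃ ε₀ : ℝ, 0 < ε₀ ∧ ∀ ε : ℝ, 0 < ε → ε < ε₀ →
    ∃ (A : Set (E (2 + m))) (e : E (2 + m)), Bad m κ t ε A e

end Pool.Agent.Lib.MP_c95dcf_gt
end

section

/-!
# MP_c95dcf_gt, T01: the body
-/

set_option autoImplicit false

open MeasureTheory Set Filter Topology
open scoped ENNReal NNReal RealInnerProductSpace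

namespace Pool.Agent.Lib.MP_c95dcf_gt

variable {m : ℕ}

/-- The gauge of the body. -/
noncomputable def bodyN (m : ℕ) (ε : ℝ) (p : E (2 + m)) : ℝ := ‖px p‖ / m + ‖pz p‖ / ε

theorem bodyN_cont (m : ℕ) (ε : ℝ) : Continuous (bodyN m ε) := by
  unfold bodyN
  exact (continuous_px.norm.div_const _).add (continuous_pz.norm.div_const _)

theorem bodyN_smul (m : ℕ) (ε t : ℝ) (p : E (2 + m)) : bodyN m ε (t • p) = |t| * bodyN m ε p := by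
  unfold bodyN
  rw [px_smul, pz_smul, norm_smul, norm_smul, Real.norm_eq_abs]; ring

theorem bodyN_add {ε : ℝ} (hε : 0 < ε) (p q : E (2 + m)) :
    bodyN m ε (p + q) ≤ bodyN m ε p + bodyN m ε q := by
  unfold bodyN
  rw [px_add, pz_add]
  have h1 : ‖px p + px q‖ / m ≤ ‖px p‖ / m + ‖px q‖ / m := by
    rw [← add_div]; gcongr; exact norm_add_le _ _
  have h2 : ‖pz p + pz q‖ / ε ≤ ‖pz p‖ / ε + ‖pz q‖ / ε := by
    rw [← add_div]; gcongr; exact norm_add_le _ _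
  linarith

theorem bodyN_nonneg {ε : ℝ} (hε : 0 < ε) (p : E (2 + m)) : 0 ≤ bodyN m ε p := by
  unfold bodyN; positivity

theorem bodyN_norm (hm : 1 ≤ m) {ε : ℝ} (hε : 0 < ε) (p : E (2 + m)) :
    ‖p‖ ≤ (m + ε) * bodyN m ε p := by
  have hm' : (0 : ℝ) < m := by exact_mod_cast hm
  have h1 : ‖p‖ ≤ ‖px p‖ + ‖pz p‖ := by
    have := norm_jn_le (px p) (pz p)
    rwa [jn_px_pz] at this
  have h2 : ‖px p‖ = m * (‖px p‖ / m) := by field_simp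
  have h3 : ‖pz p‖ = ε * (‖pz p‖ / ε) := by field_simp
  have h4 : 0 ≤ ‖px p‖ / m := by positivity
  have h5 : 0 ≤ ‖pz p‖ / ε := by positivity
  unfold bodyN
  nlinarith [mul_nonneg hm'.le h5, mul_nonneg hε.le h4]

theorem bodyN_Ls {ε : ℝ} (hε : 0 < ε) (p : E (2 + m)) : bodyN m ε (Ls ε p) = bodyN m 1 p := by
  unfold bodyN
  rw [px_Ls, pz_Ls, norm_smul, Real.norm_of_nonneg hε.le]
  field_simp

/-- T01. -/
theorem body : Stmt_Body := by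
  intro m ε hm hε
  have hK : Kb m ε = {p | bodyN m ε p ≤ 1} := rfl
  have hU : Ub m ε = {p | bodyN m ε p < 1} := rfl
  have hcl : IsClosed (Kb m ε) := isClosed_le (bodyN_cont m ε) continuous_const
  have hop : IsOpen (Ub m ε) := isOpen_lt (bodyN_cont m ε) continuous_const
  have hbd : Bornology.IsBounded (Kb m ε) := by
    rw [isBounded_iff_forall_norm_le]
    refine ⟨m + ε, fun p hp => ?_⟩
    have h1 := bodyN_norm hm hε p
    have h2 : bodyN m ε p ≤ 1 := hp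
    have h3 : (0 : ℝ) ≤ m + ε := by positivity
    nlinarith
  have hsub : Ub m ε ⊆ Kb m ε := fun p hp => (show bodyN m ε p < 1 from hp).le
  refine ⟨?_, Metric.isCompact_of_isClosed_isBounded hcl hbd, ?_, ?_, ?_, hop, ?_, hbd.subset hsub, ?_, ?_, ?_⟩
  · intro x hx y hy a b ha hb hab
    show bodyN m ε _ ≤ 1
    refine (bodyN_add hε _ _).trans ?_
    rw [bodyN_smul, bodyN_smul, abs_of_nonneg ha, abs_of_nonneg hb]
    have h1 : bodyN m ε x ≤ 1 := hx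
    have h2 : bodyN m ε y ≤ 1 := hy
    nlinarith
  · apply Subset.antisymm
    · intro x hx
      have hc : Continuous (fun t : ℝ => t • x) := by fun_prop
      have h1 : (fun t : ℝ => t • x) ⁻¹' (interior (Kb m ε)) ∈ 𝓝 (1 : ℝ) := by
        apply hc.continuousAt.preimage_mem_nhds
        rw [one_smul]
        exact isOpen_interior.mem_nhds hx
      obtain ⟨δ, hδ, hball⟩ := Metric.mem_nhds_iff.mp h1
      have h2 : (1 + δ / 2 : ℝ) • x ∈ interior (Kb m ε) := by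
        apply hball
        rw [Metric.mem_ball, Real.dist_eq]
        rw [show (1 + δ / 2 - 1 : ℝ) = δ / 2 by ring, abs_of_pos (by linarith)]
        linarith
      have h3' : (1 + δ / 2 : ℝ) • x ∈ Kb m ε := interior_subset h2
      have h3 : bodyN m ε ((1 + δ / 2 : ℝ) • x) ≤ 1 := h3'
      rw [bodyN_smul, abs_of_pos (by linarith)] at h3
      show bodyN m ε x < 1
      have h4 := bodyN_nonneg hε x
      nlinarith
    · exact interior_maximal hsub hop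
  · apply Subset.antisymm
    · exact closure_minimal hsub hcl
    · intro x hx
      have hx' : bodyN m ε x ≤ 1 := hx
      have hc : Tendsto (fun n : ℕ => (1 - 1 / ((n : ℝ) + 1)) • x) atTop (𝓝 ((1 - 0 : ℝ) • x)) := by
        apply Tendsto.smul_const
        exact tendsto_const_nhds.sub tendsto_one_div_add_atTop_nhds_zero_nat
      rw [sub_zero, one_smul] at hc
      refine mem_closure_of_tendsto hc (Eventually.of_forall fun n => ?_)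
      show bodyN m ε _ < 1
      have h1 : (0 : ℝ) < 1 / ((n : ℝ) + 1) := by positivity
      have h2 : 1 / ((n : ℝ) + 1) ≤ 1 := by
        rw [div_le_one (by positivity)]; linarith [(Nat.cast_nonneg n : (0 : ℝ) ≤ n)]
      rw [bodyN_smul, abs_of_nonneg (by linarith)]
      have h4 := bodyN_nonneg hε x
      nlinarith
  · refine ⟨0, ?_⟩
    show bodyN m ε 0 < 1
    simp [bodyN]
  · intro x hx y hy a b ha hb hab
    show bodyN m ε _ < 1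
    refine lt_of_le_of_lt (bodyN_add hε _ _) ?_
    rw [bodyN_smul, bodyN_smul, abs_of_nonneg ha, abs_of_nonneg hb]
    have h1 : bodyN m ε x < 1 := hx
    have h2 : bodyN m ε y < 1 := hy
    rcases eq_or_lt_of_le ha with h | h
    · rw [← h] at hab ⊢
      have : b = 1 := by linarith
      rw [this]; linarith
    · nlinarith
  · intro x hx
    show bodyN m ε _ ≤ 1
    have h1 : bodyN m ε x ≤ 1 := hx
    have h2 := bodyN_smul m ε (-1) x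
    rw [neg_one_smul, abs_neg, abs_one, one_mul] at h2
    rw [h2]; exact h1
  · ext p
    constructor
    · rintro ⟨q, hq, rfl⟩
      show bodyN m ε _ < 1
      rw [bodyN_Ls hε]; exact hq
    · intro hp
      have hq : Ls ε (Ls ε⁻¹ p) = p := by rw [Ls_Ls, mul_inv_cancel₀ hε.ne', Ls_one]
      refine ⟨Ls ε⁻¹ p, ?_, hq⟩
      show bodyN m 1 _ < 1
      rw [← bodyN_Ls hε, hq]; exact hp
  · ext p
    constructor
    · rintro ⟨q, hq, rfl⟩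
      show bodyN m ε _ ≤ 1
      rw [bodyN_Ls hε]; exact hq
    · intro hp
      have hq : Ls ε (Ls ε⁻¹ p) = p := by rw [Ls_Ls, mul_inv_cancel₀ hε.ne', Ls_one]
      refine ⟨Ls ε⁻¹ p, ?_, hq⟩
      show bodyN m 1 _ ≤ 1
      rw [← bodyN_Ls hε, hq]; exact hp

end Pool.Agent.Lib.MP_c95dcf_gt
end

section

/-!
# MP_c95dcf_gt, T04: the perimeter and the scaling of the fibres
-/

set_option autoImplicit false

open MeasureTheory Set Filter Topology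
open scoped ENNReal NNReal RealInnerProductSpace

namespace Pool.Agent.Lib.MP_c95dcf_gt

variable {m : ℕ}

theorem pesc_image (ε : ℝ) (hε : ε ≠ 0) (A : Set (E (2 + m))) :
    Ls ε '' A = (LsE m ε hε).symm ⁻¹' A := by
  have : Ls ε '' A = (LsE m ε hε) '' A := rfl
  rw [this, ContinuousLinearEquiv.image_eq_preimage_symm]

theorem pesc_meas (ε : ℝ) (hε : ε ≠ 0) {A : Set (E (2 + m))} (hA : MeasurableSet A) :
    MeasurableSet (Ls ε '' A) := by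
  rw [pesc_image ε hε]
  exact (LsE m ε hε).symm.continuous.measurable hA

theorem pesc_vol_fib {A : Set (E (2 + m))} (hA : MeasurableSet A) :
    volume A = ∫⁻ c : ℂ, volume {z : E m | jn c z ∈ A} := by
  rw [← lintegral_indicator_one hA, lintegral_split _ (measurable_one.indicator hA)]
  refine lintegral_congr fun c => ?_
  have hm : MeasurableSet {z : E m | jn c z ∈ A} :=
    (measurable_jn.comp (measurable_const.prodMk measurable_id)) hA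
  rw [← lintegral_indicator_one hm]
  rfl

theorem pesc_vol {ε : ℝ} (hε : 0 < ε) {A : Set (E (2 + m))} (hA : MeasurableSet A) :
    volume (Ls ε '' A) = ENNReal.ofReal (ε ^ m) * volume A := by
  rw [pesc_vol_fib (pesc_meas ε hε.ne' hA), pesc_vol_fib hA]
  have hm : Measurable fun c : ℂ => volume {z : E m | jn c z ∈ A} :=
    measurable_measure_prodMk_left (measurable_jn hA)
  rw [← lintegral_const_mul _ hm]
  refine lintegral_congr fun c => ?_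
  have h1 : {z : E m | jn c z ∈ Ls ε '' A} = (fun z : E m => ε⁻¹ • z) ⁻¹' {z : E m | jn c z ∈ A} := by
    ext z
    rw [pesc_image ε hε.ne']
    simp [Ls]
  rw [h1, Measure.addHaar_preimage_smul volume (inv_ne_zero hε.ne')]
  congr 2
  rw [finrank_euclideanSpace_fin, inv_pow, inv_inv, abs_of_pos (by positivity)]

theorem pesc_dve {ε : ℝ} (hε : 0 < ε) {X : E (2 + m) → E (2 + m)} {p : E (2 + m)}
    (hX : DifferentiableAt ℝ X (Ls ε p)) : dve ε (fun q => X (Ls ε q)) p = dv X (Ls ε p) := by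
  have h1 : fderiv ℝ (fun q => X (Ls ε q)) p =
      (fderiv ℝ X (Ls ε p)).comp (LsE m ε hε.ne' : E (2 + m) →L[ℝ] E (2 + m)) := by
    have h2 : HasFDerivAt (LsE m ε hε.ne') (LsE m ε hε.ne' : E (2 + m) →L[ℝ] E (2 + m)) p :=
      (LsE m ε hε.ne').hasFDerivAt
    exact (HasFDerivAt.comp p (f := LsE m ε hε.ne') (g := X) hX.hasFDerivAt h2).fderiv
  have hb : ∀ i : Fin 2, Ls ε (EuclideanSpace.single (Fin.castAdd m i) (1 : ℝ)) =
      EuclideanSpace.single (Fin.castAdd m i) (1 : ℝ) := by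
    intro i
    ext j
    refine Fin.addCases (fun j => ?_) (fun j => ?_) j
    · fin_cases i <;> fin_cases j <;> simp [Ls, jn, px, Fin.ext_iff]
    · fin_cases i <;> simp [Ls, jn, px, pz, Fin.ext_iff]
      rw [if_neg (by omega), if_neg (by omega)]
  have hz : ∀ i : Fin m, Ls ε (EuclideanSpace.single (Fin.natAdd 2 i) (1 : ℝ)) =
      ε • EuclideanSpace.single (Fin.natAdd 2 i) (1 : ℝ) := by
    intro i
    ext j
    refine Fin.addCases (fun j => ?_) (fun j => ?_) j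
    · fin_cases j <;> simp [Ls, jn, px, pz, Fin.ext_iff]
      rw [if_neg (by omega), if_neg (by omega)]
    · simp [Ls, jn, px, pz]
  unfold dve dv
  rw [Fin.sum_univ_add, h1]
  congr 1
  · refine Finset.sum_congr rfl fun i _ => ?_
    simp only [ContinuousLinearMap.comp_apply, ContinuousLinearEquiv.coe_coe, LsE_apply, hb]
  · rw [Finset.mul_sum]
    refine Finset.sum_congr rfl fun i _ => ?_
    simp only [ContinuousLinearMap.comp_apply, ContinuousLinearEquiv.coe_coe, LsE_apply, hz]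
    rw [map_smul]
    simp only [PiLp.smul_apply, smul_eq_mul]
    rw [← mul_assoc, inv_mul_cancel₀ hε.ne', one_mul]

theorem pesc_TF (L : E (2 + m) ≃L[ℝ] E (2 + m)) {V : Set (E (2 + m))} {X : E (2 + m) → E (2 + m)}
    (hX : TF V X) : TF (L ⁻¹' V) (fun q => X (L q)) := by
  refine ⟨hX.diff.comp L.contDiff, hX.comp.comp_homeomorph L.toHomeomorph, ?_⟩
  have h1 : tsupport (X ∘ L.toHomeomorph) = L.toHomeomorph ⁻¹' tsupport X :=
    tsupport_comp_eq_preimage X L.toHomeomorph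
  have h2 : tsupport (fun q => X (L q)) = L ⁻¹' tsupport X := h1
  rw [h2]
  exact preimage_mono hX.supp

/-- Change of variables for the scaling. -/
theorem pesc_map {ε : ℝ} (hε : 0 < ε) :
    Measure.map (LsE m ε hε.ne').symm (volume : Measure (E (2 + m))) =
      ENNReal.ofReal (ε ^ m) • (volume : Measure (E (2 + m))) := by
  ext A hA
  rw [Measure.map_apply (LsE m ε hε.ne').symm.continuous.measurable hA, Measure.smul_apply, smul_eq_mul,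
    ← pesc_vol hε hA, pesc_image ε hε.ne']

theorem pesc_integral {ε : ℝ} (hε : 0 < ε) (A : Set (E (2 + m))) (f : E (2 + m) → ℝ) :
    ∫ x in Ls ε '' A, f x = ε ^ m * ∫ x in A, f (Ls ε x) := by
  have he : MeasurableEmbedding (LsE m ε hε.ne').symm :=
    (LsE m ε hε.ne').symm.toHomeomorph.measurableEmbedding
  have h1 := he.setIntegral_map (μ := (volume : Measure (E (2 + m)))) (fun x => f (Ls ε x)) A
  rw [pesc_map hε, Measure.restrict_smul, integral_smul_measure, ← pesc_image ε hε.ne'] at h1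
  rw [ENNReal.toReal_ofReal (by positivity), smul_eq_mul] at h1
  rw [h1]
  congr 1
  funext x
  rw [LsE_symm_apply, Ls_Ls, mul_inv_cancel₀ hε.ne', Ls_one]

theorem pesc_integral_dv {ε : ℝ} (hε : 0 < ε) (A : Set (E (2 + m))) {X : E (2 + m) → E (2 + m)}
    (hX : ContDiff ℝ 1 X) :
    ∫ x in Ls ε '' A, dv X x = ε ^ m * ∫ x in A, dve ε (fun q => X (Ls ε q)) x := by
  rw [pesc_integral hε]
  congr 1
  congr 1
  funext x
  rw [pesc_dve hε (hX.differentiable one_ne_zero _)]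

/-- Transport of the suprema. -/
theorem pesc_iSup {ε : ℝ} (hε : 0 < ε) (A W : Set (E (2 + m))) :
    (⨆ (X : E (2 + m) → E (2 + m)) (_ : TF W X ∧ ∀ x, ‖X x‖ ≤ 1),
      ENNReal.ofReal (∫ x in Ls ε '' A, dv X x)) =
    ENNReal.ofReal (ε ^ m) * ⨆ (X : E (2 + m) → E (2 + m))
      (_ : TF (LsE m ε hε.ne' ⁻¹' W) X ∧ ∀ x, ‖X x‖ ≤ 1), ENNReal.ofReal (∫ x in A, dve ε X x) := by
  have hpos : (0 : ℝ) ≤ ε ^ m := by positivity
  apply le_antisymm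
  · refine iSup₂_le fun X hX => ?_
    rw [pesc_integral_dv hε A hX.1.diff, ENNReal.ofReal_mul hpos]
    gcongr
    exact le_iSup₂_of_le (fun q => X (Ls ε q)) ⟨pesc_TF (LsE m ε hε.ne') hX.1, fun x => hX.2 _⟩ le_rfl
  · simp only [ENNReal.mul_iSup]
    refine iSup₂_le fun X hX => ?_
    have h1 : TF W (fun q => X ((LsE m ε hε.ne').symm q)) := by
      have := pesc_TF (LsE m ε hε.ne').symm hX.1
      have h2 : (LsE m ε hε.ne').symm ⁻¹' ((LsE m ε hε.ne') ⁻¹' W) = W := by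
        ext x; simp
      rwa [h2] at this
    refine le_iSup₂_of_le (fun q => X ((LsE m ε hε.ne').symm q)) ⟨h1, fun x => hX.2 _⟩ ?_
    rw [pesc_integral_dv hε A h1.diff, ENNReal.ofReal_mul hpos]
    have h3 : (fun q => X ((LsE m ε hε.ne').symm (Ls ε q))) = X := by
      funext q
      rw [← LsE_apply m ε hε.ne', ContinuousLinearEquiv.symm_apply_apply]
    simp only [h3]
    exact le_rfl

theorem pesc_preimage (h : Stmt_Body) {ε : ℝ} (hm : 1 ≤ m) (hε : 0 < ε) :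
    LsE m ε hε.ne' ⁻¹' (Ub m ε) = Ub m 1 := by
  have h1 := (h m ε hm hε).2.2.2.2.2.2.2.2.2.1
  rw [← h1]
  ext x
  constructor
  · rintro ⟨y, hy, hxy⟩
    have : y = x := (LsE m ε hε.ne').injective hxy
    rw [← this]; exact hy
  · intro hx; exact ⟨x, hx, rfl⟩

/-- T04. -/
theorem peScale (h : Stmt_Body) : Stmt_PeScale := by
  intro m ε A hm hε hA
  refine ⟨pesc_meas ε hε.ne' hA, pesc_vol hε hA, ?_⟩
  unfold Per Pe
  rw [pesc_iSup hε, pesc_preimage h hm hε]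

end Pool.Agent.Lib.MP_c95dcf_gt
end

section

/-!
# MP_c95dcf_gt, part T, task T25: the final contradiction
-/

set_option autoImplicit false

open MeasureTheory Set Filter Topology
open scoped ENNReal NNReal RealInnerProductSpace

namespace Pool.Agent.Lib.MP_c95dcf_gt

theorem tfin_Ub_lt_top (m : ℕ) (hm : 0 < m) : volume (Ub m 1) < ∞ := by
  refine lt_of_le_of_lt (measure_mono (t := Metric.ball (0 : E (2 + m)) (m + 1)) ?_)
    measure_ball_lt_top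
  intro p hp
  rw [mem_ball_zero_iff]
  have h1 := px_lt_of_mem hm hp
  have h2 : ‖pz p‖ < 1 := by
    have h := hp
    simp only [Ub, mem_ofPred_eq, div_one] at h
    have : 0 ≤ ‖px p‖ / m := by positivity
    linarith
  have h3 := norm_sq_split p
  have hm' : (0 : ℝ) < m := by exact_mod_cast hm
  by_contra hcon
  push Not at hcon
  nlinarith [norm_nonneg (px p), norm_nonneg (pz p), norm_nonneg p]

theorem tfin_abs_sub_le {α : Type*} [MeasurableSpace α] {μ : Measure α} {s t : Set α}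
    (hs : μ s ≠ ∞) (ht : μ t ≠ ∞) :
    |(μ s).toReal - (μ t).toReal| ≤ (μ (symmDiff s t)).toReal := by
  have h1 : μ (symmDiff s t) ≠ ∞ := by
    refine (lt_of_le_of_lt (measure_mono (t := s ∪ t) ?_) ?_).ne
    · intro x hx
      rw [mem_symmDiff] at hx
      rcases hx with hx | hx
      · exact Or.inl hx.1
      · exact Or.inr hx.1
    · exact lt_of_le_of_lt (measure_union_le s t)
        (ENNReal.add_lt_top.2 ⟨lt_top_iff_ne_top.2 hs, lt_top_iff_ne_top.2 ht⟩)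
  have key : ∀ a b : Set α, μ a ≠ ∞ → μ b ≠ ∞ → μ (symmDiff a b) ≠ ∞ →
      (μ a).toReal - (μ b).toReal ≤ (μ (symmDiff a b)).toReal := by
    intro a b ha hb hab
    have h2 : μ a ≤ μ b + μ (symmDiff a b) := by
      refine le_trans (measure_mono (t := b ∪ symmDiff a b) ?_) (measure_union_le _ _)
      intro x hx
      by_cases hxb : x ∈ b
      · exact Or.inl hxb
      · exact Or.inr (mem_symmDiff.2 (Or.inl ⟨hx, hxb⟩))
    have h3 := ENNReal.toReal_mono (ENNReal.add_ne_top.2 ⟨hb, hab⟩) h2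
    rw [ENNReal.toReal_add hb hab] at h3
    linarith
  rw [abs_sub_le_iff]
  refine ⟨key s t hs ht h1, ?_⟩
  rw [symmDiff_comm]
  rw [symmDiff_comm] at h1
  exact key t s ht hs h1

theorem partT (h1 : Stmt_PieceD) (h2 : Stmt_Strict) (h3 : Stmt_Weak) (h4 : Stmt_Dir)
    (h5 : Stmt_PeProps) (h6 : Stmt_Lift) : Stmt_T := by
  intro m κ t hB
  by_contra hcon
  push Not at hcon
  obtain ⟨ε₀, c, δ, hε0, hε1, hc, hδ, hP⟩ := h1 m κ t hB
  have hm := hB.hm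
  have hm0 : 0 < m := by omega
  -- the sequence
  have hseq : ∀ j : ℕ, ∃ (ε : ℝ) (A F : Set (E (2 + m))), 0 < ε ∧ ε < min ε₀ (1 / ((j : ℝ) + 1)) ∧
      PieceD m κ t c δ ε A F := by
    intro j
    have hj : (0 : ℝ) < 1 / ((j : ℝ) + 1) := by positivity
    obtain ⟨ε, hε, hεlt, A, e, hbad⟩ := hcon (min ε₀ (1 / ((j : ℝ) + 1))) (lt_min hε0 hj)
      (le_trans (min_le_left _ _) hε1)
    obtain ⟨F, hF⟩ := hP ε hε (lt_of_lt_of_le hεlt (min_le_left _ _)) A e hbad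
    exact ⟨ε, A ∩ Ub m 1, F, hε, hεlt, hF⟩
  choose ε A F hε hεlt hD using hseq
  have hε_le : ∀ j, ε j ≤ 1 := fun j =>
    ((hεlt j).le.trans (min_le_left _ _)).trans hε1
  have hε_lim : Tendsto ε atTop (𝓝 0) := by
    refine squeeze_zero (fun j => (hε j).le)
      (fun j => (hεlt j).le.trans (min_le_right _ _)) ?_
    exact tendsto_one_div_add_atTop_nhds_zero_nat
  obtain ⟨φ, F0, lam, ν, hφ, hL⟩ := h2 m κ t ε A F hm hB.κ_pos hB.κ_lt hB.t_pos hε hε_le hε_lim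
    (fun j => (hD j).mini) (fun j => (hD j).meas) (fun j => (hD j).sub) (fun j => (hD j).disj)
  have hW := h3 m (fun j => ε (φ j)) (fun j => F (φ j)) F0 lam ν δ hm hL hδ
    (fun j => (hD (φ j)).quasi)
  have hDir := h4 m (fun j => ε (φ j)) (fun j => F (φ j)) F0 lam ν hm hL hW
    (fun j => (hD (φ j)).mono)
  -- volumes
  have hUfin := tfin_Ub_lt_top m hm0
  obtain ⟨hLm, hLv, -, -⟩ := h6 m F0 hm hL.meas0
  have hLsub : lift m F0 ⊆ Ub m 1 := fun p hp => hp.1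
  have hLfin : volume (lift m F0) ≠ ∞ := (lt_of_le_of_lt (measure_mono hLsub) hUfin).ne
  have hFfin : ∀ j, volume (F (φ j)) ≠ ∞ := fun j =>
    (lt_of_le_of_lt (measure_mono (hL.sub j)) hUfin).ne
  have hom := omr_pos m
  have hvol : Tendsto (fun j => (volume (F (φ j))).toReal) atTop (𝓝 (omr m * V0 m F0)) := by
    rw [← hLv]
    rw [tendsto_iff_dist_tendsto_zero]
    have hz : Tendsto (fun j => (volume (symmDiff (F (φ j)) (lift m F0))).toReal) atTop (𝓝 0) := by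
      have := (ENNReal.tendsto_toReal ENNReal.zero_ne_top).comp hL.conv
      simpa [Function.comp_def] using this
    refine squeeze_zero (fun j => dist_nonneg) (fun j => ?_) hz
    rw [Real.dist_eq]
    exact tfin_abs_sub_le (hFfin j) hLfin
  have hV0u : 0 < V0 m univ := by
    have := hB.t_le; have := hB.t_pos; linarith
  have hAfin : ∀ j, volume (A (φ j)) ≠ ∞ := fun j =>
    (lt_of_le_of_lt (measure_mono (hD (φ j)).mini.sub) hUfin).ne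
  have hlow : c ≤ omr m * V0 m F0 := ge_of_tendsto' hvol (fun j => (hD (φ j)).volF)
  have hupp : omr m * V0 m F0 ≤ vU m / 4 := by
    refine le_of_tendsto' hvol (fun j => ?_)
    exact (ENNReal.toReal_mono (hAfin j) (measure_mono (hD (φ j)).sub)).trans (hD (φ j)).volA
  have hVpos : 0 < V0 m F0 := by
    by_contra hneg
    push Not at hneg
    have : omr m * V0 m F0 ≤ 0 := mul_nonpos_of_nonneg_of_nonpos hom.le hneg
    linarith
  have hVle : V0 m F0 ≤ 3 / 4 * V0 m univ := by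
    have h7 : omr m * V0 m F0 ≤ omr m * (V0 m univ / 4) := by
      have : vU m / 4 = omr m * (V0 m univ / 4) := by simp only [vU]; ring
      rw [← this]; exact hupp
    have h8 : V0 m F0 ≤ V0 m univ / 4 := le_of_mul_le_mul_left h7 hom
    linarith
  -- perimeters
  have hPerj : ∀ j, (lam j univ).toReal ≤
      κ * min (volume (F (φ j))).toReal (omr m * t) := by
    intro j
    obtain ⟨-, -, -, -, -, h56, -⟩ := h5 m (ε (φ j)) hm (hε (φ j))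
    have h9 : lam j univ = Pe m (ε (φ j)) (F (φ j)) := (h56 _ _ _ (hL.rep j)).2
    rw [h9]
    refine ENNReal.toReal_le_of_le_ofReal ?_ (hD (φ j)).per
    exact mul_nonneg hB.κ_pos.le (le_min ENNReal.toReal_nonneg
      (mul_nonneg hom.le hB.t_pos.le))
  have hlim2 : Tendsto (fun j => κ * min (volume (F (φ j))).toReal (omr m * t)) atTop
      (𝓝 (κ * min (omr m * V0 m F0) (omr m * t))) :=
    (hvol.min tendsto_const_nhds).const_mul κ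
  have hfin : omr m * (P0 m F0).toReal ≤ κ * min (omr m * V0 m F0) (omr m * t) :=
    le_of_tendsto_of_tendsto' hL.strict hlim2 hPerj
  have hfin2 : (P0 m F0).toReal ≤ κ * min (V0 m F0) t := by
    rw [← mul_min_of_nonneg _ _ hom.le] at hfin
    have h10 : omr m * (P0 m F0).toReal ≤ omr m * (κ * min (V0 m F0) t) := by
      calc omr m * (P0 m F0).toReal ≤ κ * (omr m * min (V0 m F0) t) := hfin
        _ = omr m * (κ * min (V0 m F0) t) := by ring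
    exact le_of_mul_le_mul_left h10 hom
  have hlt := hB.mono F0 hL.meas0 hVpos hVle hDir
  have hle : P0 m F0 ≤ ENNReal.ofReal (κ * min (V0 m F0) t) := by
    rw [← ENNReal.ofReal_toReal hL.fin0]
    exact ENNReal.ofReal_le_ofReal hfin2
  exact absurd hlt (not_lt.2 hle)

end Pool.Agent.Lib.MP_c95dcf_gt
end
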