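import Pool.Agent.Lib.MP_c95dcf_gt.Mg.G002

section

/-!
# MP_c95dcf_gt, T07: the weighted perimeters of the slices
-/

set_option autoImplicit false

open MeasureTheory Set Filter Topology
open scoped ENNReal NNReal RealInnerProductSpace

namespace Pool.Agent.Lib.MP_c95dcf_gt

/-! ### the weighted divergence -/

theorem sliceP_measurable_dvW (m : ℕ) (Y : ℂ → ℂ) : Measurable (dvW m Y) := by
  unfold dvW dvc
  exact (Complex.measurable_re.comp (measurable_fderiv_apply_const ℝ _ 1)).add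
    (Complex.measurable_im.comp (measurable_fderiv_apply_const ℝ _ Complex.I))

theorem sliceP_dvW_off {m : ℕ} {Y : ℂ → ℂ} {c : ℂ} (hc : c ∉ tsupport Y) : dvW m Y c = 0 := by
  have h : (fun c => ((Wp m ‖c‖ : ℝ) : ℂ) * Y c) =ᶠ[𝓝 c] (fun _ => (0 : ℂ)) := by
    have h1 := notMem_tsupport_iff_eventuallyEq.mp hc
    filter_upwards [h1] with y hy
    simp [hy]
  unfold dvW dvc
  rw [h.fderiv_eq]
  simp

theorem sliceP_isOpen_Dp (m : ℕ) : IsOpen (Dp m) :=
  Metric.isOpen_ball.sdiff isClosed_singleton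

theorem sliceP_contDiffOn_W {m : ℕ} (hm : 0 < m) :
    ContDiffOn ℝ 1 (fun c : ℂ => ((Wp m ‖c‖ : ℝ) : ℂ)) (Dp m) := by
  have h1 : ContDiffOn ℝ 1 (fun c : ℂ => (((1 - ‖c‖ / m) ^ m : ℝ) : ℂ)) (Dp m) := by
    have hn : ContDiffOn ℝ 1 (fun c : ℂ => ‖c‖) (Dp m) := fun c hc =>
      (contDiffAt_norm ℝ (by simpa using hc.2)).contDiffWithinAt
    have h2 : ContDiffOn ℝ 1 (fun c : ℂ => (1 - ‖c‖ / m) ^ m) (Dp m) :=
      (contDiffOn_const.sub (hn.div_const _)).pow m
    exact Complex.ofRealCLM.contDiff.comp_contDiffOn h2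
  apply h1.congr
  intro c hc
  have hc1 : ‖c‖ < m := by simpa using hc.1
  rw [Wp, (wp_of_lt hm hc1).1]

theorem sliceP_Wp_pos {m : ℕ} (hm : 0 < m) {c : ℂ} (hc : ‖c‖ < m) : 0 < Wp m ‖c‖ :=
  pow_pos (wp_of_lt hm hc).2 m

theorem sliceP_continuousOn_dvW {m : ℕ} (hm : 0 < m) {Y : ℂ → ℂ} (hY : ContDiff ℝ 1 Y) :
    ContinuousOn (dvW m Y) (Dp m) := by
  have h1 : ContDiffOn ℝ 1 (fun c => ((Wp m ‖c‖ : ℝ) : ℂ) * Y c) (Dp m) :=
    (sliceP_contDiffOn_W hm).mul hY.contDiffOn
  have h2 := h1.continuousOn_fderiv_of_isOpen (sliceP_isOpen_Dp m) le_rfl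
  unfold dvW dvc
  exact (Complex.continuous_re.comp_continuousOn (h2.clm_apply continuousOn_const)).add
    (Complex.continuous_im.comp_continuousOn (h2.clm_apply continuousOn_const))

theorem sliceP_bound {m : ℕ} (hm : 0 < m) {Y : ℂ → ℂ} (hY : TFc (Dp m) Y) :
    ∃ C : ℝ, 0 ≤ C ∧ ∀ c, |dvW m Y c / Wp m ‖c‖| ≤ C := by
  have hW : ContinuousOn (fun c : ℂ => Wp m ‖c‖) (Dp m) := by
    have h1 := (sliceP_contDiffOn_W hm).continuousOn
    have h2 := Complex.continuous_re.comp_continuousOn h1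
    exact h2.congr (fun c _ => by simp)
  have h1 : ContinuousOn (fun c : ℂ => dvW m Y c / Wp m ‖c‖) (tsupport Y) := by
    apply ContinuousOn.div ((sliceP_continuousOn_dvW hm hY.diff).mono hY.supp) (hW.mono hY.supp)
    intro c hc
    exact (sliceP_Wp_pos hm (by simpa using (hY.supp hc).1)).ne'
  obtain ⟨C, hC⟩ := IsCompact.exists_bound_of_continuousOn hY.comp h1
  refine ⟨max C 0, le_max_right _ _, fun c => ?_⟩
  by_cases hc : c ∈ tsupport Y
  · exact (hC c hc).trans (le_max_left _ _)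
  · rw [sliceP_dvW_off hc]
    simp

/-! ### smooth approximation of bounded open sets -/

theorem sliceP_approx {m : ℕ} {O : Set (E m)} (hO : IsOpen O) (hb : Bornology.IsBounded O) :
    ∃ η : ℕ → E m → ℝ, (∀ j, ContDiff ℝ 1 (η j) ∧ HasCompactSupport (η j) ∧ tsupport (η j) ⊆ O ∧
      ∀ x, 0 ≤ η j x ∧ η j x ≤ 1) ∧
      ∀ x, Tendsto (fun j => η j x) atTop (𝓝 (O.indicator (fun _ => (1 : ℝ)) x)) := by
  obtain ⟨f, hf, hfd, hf01⟩ := hO.exists_contDiff_support_eq (n := 1)
  have hf0 : ∀ x, 0 ≤ f x := fun x => (hf01 ⟨x, rfl⟩).1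
  refine ⟨fun j x => Real.smoothTransition (((j : ℝ) + 1) * f x - 1), fun j => ?_, fun x => ?_⟩
  · have hclosed : IsClosed {x : E m | 1 ≤ ((j : ℝ) + 1) * f x} :=
      isClosed_le continuous_const (continuous_const.mul hfd.continuous)
    have hsub1 : {x : E m | 1 ≤ ((j : ℝ) + 1) * f x} ⊆ O := by
      intro x hx
      rw [← hf, Function.mem_support]
      intro h0
      simp only [Set.mem_ofPred_eq, h0, mul_zero] at hx
      linarith
    have hts : tsupport (fun x => Real.smoothTransition (((j : ℝ) + 1) * f x - 1)) ⊆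
        {x : E m | 1 ≤ ((j : ℝ) + 1) * f x} := by
      apply closure_minimal _ hclosed
      intro x hx
      by_contra hlt
      apply hx
      simp only [Set.mem_ofPred_eq, not_le] at hlt
      exact Real.smoothTransition.zero_of_nonpos (by linarith)
    refine ⟨?_, ?_, hts.trans hsub1, fun x => ⟨Real.smoothTransition.nonneg _,
      Real.smoothTransition.le_one _⟩⟩
    · have h1 : ContDiff ℝ 1 (fun x => ((j : ℝ) + 1) * f x - 1) :=
        (contDiff_const.mul (by exact_mod_cast hfd)).sub contDiff_const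
      exact (Real.smoothTransition.contDiff (n := 1)).comp h1
    · apply HasCompactSupport.intro (K := {x : E m | 1 ≤ ((j : ℝ) + 1) * f x})
      · exact Metric.isCompact_of_isClosed_isBounded hclosed (hb.subset hsub1)
      · intro x hx
        simp only [Set.mem_ofPred_eq, not_le] at hx
        exact Real.smoothTransition.zero_of_nonpos (by linarith)
  · by_cases hx : x ∈ O
    · rw [indicator_of_mem hx]
      have hfx : 0 < f x := by
        rw [← hf, Function.mem_support] at hx
        exact lt_of_le_of_ne (hf0 x) (Ne.symm hx)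
      obtain ⟨N, hN⟩ := exists_nat_gt (2 / f x)
      apply tendsto_const_nhds.congr'
      filter_upwards [eventually_ge_atTop N] with j hj
      symm
      apply Real.smoothTransition.one_of_one_le
      have h1 : (N : ℝ) ≤ j := by exact_mod_cast hj
      have h2 : 2 < (N : ℝ) * f x := by rwa [div_lt_iff₀ hfx] at hN
      nlinarith
    · rw [indicator_of_notMem hx]
      have hfx : f x = 0 := by
        by_contra h
        exact hx (by rw [← hf]; exact h)
      apply tendsto_const_nhds.congr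
      intro j
      simp only
      rw [hfx, mul_zero]
      exact (Real.smoothTransition.zero_of_nonpos (by norm_num)).symm

theorem sliceP_measurable_wp (m : ℕ) : Measurable (fun c : ℂ => wp m ‖c‖) := by
  unfold wp
  fun_prop

theorem sliceP_measurable_zt (m : ℕ) : Measurable (zt m) := by
  unfold zt
  exact ((sliceP_measurable_wp m).comp measurable_px).inv.smul measurable_pz

theorem sliceP_measurable_gw (m : ℕ) : Measurable (gw m) := by
  unfold gw
  fun_prop

theorem sliceP_norm_gw_le {m : ℕ} (hm : 1 ≤ m) (c : ℂ) : ‖gw m c‖ ≤ 1 := by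
  unfold gw
  rw [norm_neg, norm_div, norm_mul, Complex.norm_natCast, Complex.norm_real, norm_norm]
  have hm' : (1 : ℝ) ≤ m := by exact_mod_cast hm
  rcases eq_or_ne c 0 with h | h
  · simp [h]
  · have hc : 0 < ‖c‖ := norm_pos_iff.mpr h
    rw [div_le_one (by positivity)]
    nlinarith

/-- The representation of a slice functional holds for all Borel sets. -/
theorem sliceP_borel (h1 : Stmt_Ident) (h3 : Stmt_Fib) (m : ℕ) (ε : ℝ) (A : Set (E (2 + m)))
    (lam : Measure (E (2 + m))) (ν : E (2 + m) → E (2 + m)) (hm : 2 ≤ m) (hε : 0 < ε)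
    (hA : MeasurableSet A) (hAU : A ⊆ Ub m 1) (hw : WRep m ε A lam ν) (Y : ℂ → ℂ)
    (hY : TFc (Dp m) Y) (hY1 : ∀ c, ‖Y c‖ ≤ 1) :
    (Measurable fun ζ => ∫ c in As m A ζ, dvW m Y c) ∧
    IntegrableOn (fun ζ => ∫ c in As m A ζ, dvW m Y c) (Metric.ball (0 : E m) 1) ∧
    ∀ S : Set (E m), MeasurableSet S →
      ∫ ζ in S ∩ Metric.ball (0 : E m) 1, (∫ c in As m A ζ, dvW m Y c) =
        ∫ p in zt m ⁻¹' S, (⟪Y (px p), px (ν p)⟫ +
        ε * ⟪pz (ν p), zt m p⟫ * ⟪Y (px p), gw m (px p)⟫) ∂lam := by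
  have hm0 : 0 < m := by omega
  have := hw.fin
  obtain ⟨C, hC0, hC⟩ := sliceP_bound hm0 hY
  obtain ⟨f1, f2, f3, f4, f5⟩ := h3 m A hm hA hAU
  have hAsball : ∀ ζ, As m A ζ ⊆ Metric.ball (0 : ℂ) m := fun ζ c hc => hc.1
  have hYm : Measurable Y := hY.diff.continuous.measurable
  -- measurability of the slice functional
  have hmeas : Measurable fun ζ => ∫ c in As m A ζ, dvW m Y c := by
    have hθ := (f2 (fun c _ => dvW m Y c / Wp m ‖c‖) C
      (by
        have hWm : Measurable (fun c : ℂ => Wp m ‖c‖) := (sliceP_measurable_wp m).pow_const m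
        exact ((sliceP_measurable_dvW m Y).comp measurable_fst).div (hWm.comp measurable_fst))
      (fun c _ => hC c)).1
    convert hθ using 2 with ζ
    apply setIntegral_congr_fun (f1 ζ)
    intro c hc
    have hc1 : ‖c‖ < m := by simpa using hAsball ζ hc
    simp only
    rw [div_mul_cancel₀ _ (sliceP_Wp_pos hm0 hc1).ne']
  have hWle : ∀ c : ℂ, ‖c‖ < m → Wp m ‖c‖ ≤ 1 := by
    intro c hc
    have hm' : (0 : ℝ) < m := by exact_mod_cast hm0
    have h1 := (wp_of_lt hm0 hc).2
    have h2 : wp m ‖c‖ ≤ 1 := by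
      rw [(wp_of_lt hm0 hc).1]
      have : 0 ≤ ‖c‖ / m := by positivity
      linarith
    exact pow_le_one₀ h1.le h2
  have hdb : ∀ c : ℂ, ‖c‖ < m → ‖dvW m Y c‖ ≤ C := by
    intro c hc
    have h1 := hC c
    have h2 := sliceP_Wp_pos hm0 hc
    rw [abs_div, abs_of_pos h2, div_le_iff₀ h2] at h1
    rw [Real.norm_eq_abs]
    have := mul_le_mul_of_nonneg_left (hWle c hc) hC0
    linarith
  set V : ℝ := (volume : Measure ℂ).real (Metric.ball (0 : ℂ) m) with hV
  have hΨb : ∀ ζ, ‖∫ c in As m A ζ, dvW m Y c‖ ≤ C * V := by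
    intro ζ
    have hfin : (volume : Measure ℂ) (As m A ζ) < ∞ :=
      (measure_mono (hAsball ζ)).trans_lt Metric.isBounded_ball.measure_lt_top
    have h1 := norm_setIntegral_le_of_norm_le_const hfin
      (fun c hc => hdb c (by simpa using hAsball ζ hc))
    refine h1.trans (mul_le_mul_of_nonneg_left ?_ hC0)
    exact measureReal_mono (hAsball ζ) Metric.isBounded_ball.measure_lt_top.ne
  have hBfin : (volume : Measure (E m)) (Metric.ball (0 : E m) 1) < ∞ :=
    Metric.isBounded_ball.measure_lt_top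
  have : IsFiniteMeasure ((volume : Measure (E m)).restrict (Metric.ball (0 : E m) 1)) :=
    ⟨by rw [Measure.restrict_apply_univ]; exact hBfin⟩
  have hΨint : IntegrableOn (fun ζ => ∫ c in As m A ζ, dvW m Y c) (Metric.ball (0 : E m) 1) :=
    Integrable.of_bound hmeas.aestronglyMeasurable (C * V) (Eventually.of_forall hΨb)
  refine ⟨hmeas, hΨint, ?_⟩
  -- the density on the other side
  set g : E (2 + m) → ℝ := fun p => ⟪Y (px p), px (ν p)⟫ +
        ε * ⟪pz (ν p), zt m p⟫ * ⟪Y (px p), gw m (px p)⟫ with hg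
  have hgm : Measurable g := by
    have a1 : Measurable fun p => Y (px p : ℂ) := hYm.comp (measurable_px (m := m))
    have a2 : Measurable fun p => px (ν p) := measurable_px.comp hw.meas
    have a3 : Measurable fun p => pz (ν p) := measurable_pz.comp hw.meas
    have a4 : Measurable fun p => gw m (px (p : E (2 + m))) :=
      (sliceP_measurable_gw m).comp measurable_px
    have a5 := sliceP_measurable_zt m
    exact (a1.inner a2).add (((a3.inner a5).const_mul ε).mul (a1.inner a4))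
  have hUae : ∀ᵐ p ∂lam, p ∈ Ub m 1 := by
    rw [ae_iff]
    exact hw.null
  have hgb : ∀ p ∈ Ub m 1, ‖g p‖ ≤ 1 + ε := by
    intro p hp
    have b1 : ‖px (ν p)‖ ≤ 1 := (norm_px_le _).trans (hw.unit p).le
    have b2 : ‖pz (ν p)‖ ≤ 1 := (norm_pz_le _).trans (hw.unit p).le
    have b3 : ‖zt m p‖ ≤ 1 := (norm_zt_lt hm0 hp).le
    have b4 := sliceP_norm_gw_le (by omega : 1 ≤ m) (px p)
    have b5 := hY1 (px p)
    have c1 : ‖⟪Y (px p), px (ν p)⟫‖ ≤ 1 :=
      (norm_inner_le_norm _ _).trans (mul_le_one₀ b5 (norm_nonneg _) b1)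
    have c2 : ‖⟪pz (ν p), zt m p⟫‖ ≤ 1 :=
      (norm_inner_le_norm _ _).trans (mul_le_one₀ b2 (norm_nonneg _) b3)
    have c3 : ‖⟪Y (px p), gw m (px p)⟫‖ ≤ 1 :=
      (norm_inner_le_norm _ _).trans (mul_le_one₀ b5 (norm_nonneg _) b4)
    refine (norm_add_le _ _).trans (add_le_add c1 ?_)
    rw [norm_mul, norm_mul, Real.norm_of_nonneg hε.le]
    have : ε * ‖⟪pz (ν p), zt m p⟫‖ ≤ ε * 1 := mul_le_mul_of_nonneg_left c2 hε.le
    calc ε * ‖⟪pz (ν p), zt m p⟫‖ * ‖⟪Y (px p), gw m (px p)⟫‖
        ≤ (ε * 1) * 1 := mul_le_mul this c3 (norm_nonneg _) (by positivity)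
      _ = ε := by ring
  have hgint : Integrable g lam :=
    Integrable.of_bound hgm.aestronglyMeasurable (1 + ε) (hUae.mono hgb)
  -- open sets inside the ball
  have hopen : ∀ O : Set (E m), IsOpen O → O ⊆ Metric.ball (0 : E m) 1 →
      ∫ ζ in O, (∫ c in As m A ζ, dvW m Y c) = ∫ p in zt m ⁻¹' O, g p ∂lam := by
    intro O hO hOB
    obtain ⟨η, hη, hηlim⟩ := sliceP_approx hO (Metric.isBounded_ball.subset hOB)
    have hid : ∀ j, ∫ ζ in Metric.ball (0 : E m) 1, η j ζ * ∫ c in As m A ζ, dvW m Y c =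
        ∫ p, η j (zt m p) * g p ∂lam := fun j =>
      h1 m ε A lam ν hm hε hA hAU hw (η j) Y (hη j).1 (hη j).2.1 ((hη j).2.2.1.trans hOB) hY
    have hl1 : Tendsto (fun j => ∫ ζ in Metric.ball (0 : E m) 1,
        η j ζ * ∫ c in As m A ζ, dvW m Y c) atTop
        (𝓝 (∫ ζ in Metric.ball (0 : E m) 1,
          (O.indicator (fun _ => (1 : ℝ)) ζ) * ∫ c in As m A ζ, dvW m Y c)) := by
      apply tendsto_integral_of_dominated_convergence (fun _ => C * V)
      · intro j
        exact ((hη j).1.continuous.measurable.mul hmeas).aestronglyMeasurable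
      · exact integrable_const _
      · intro j
        refine Eventually.of_forall (fun ζ => ?_)
        rw [norm_mul, Real.norm_of_nonneg ((hη j).2.2.2 ζ).1]
        calc η j ζ * ‖∫ c in As m A ζ, dvW m Y c‖
            ≤ 1 * ‖∫ c in As m A ζ, dvW m Y c‖ :=
              mul_le_mul_of_nonneg_right ((hη j).2.2.2 ζ).2 (norm_nonneg _)
          _ ≤ C * V := by rw [one_mul]; exact hΨb ζ
      · exact Eventually.of_forall (fun ζ => (hηlim ζ).mul_const _)
    have hl2 : Tendsto (fun j => ∫ p, η j (zt m p) * g p ∂lam) atTop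
        (𝓝 (∫ p, (O.indicator (fun _ => (1 : ℝ)) (zt m p)) * g p ∂lam)) := by
      apply tendsto_integral_of_dominated_convergence (fun _ => 1 + ε)
      · intro j
        exact (((hη j).1.continuous.measurable.comp (sliceP_measurable_zt m)).mul
          hgm).aestronglyMeasurable
      · exact integrable_const _
      · intro j
        filter_upwards [hUae] with p hp
        rw [norm_mul, Real.norm_of_nonneg ((hη j).2.2.2 _).1]
        calc η j (zt m p) * ‖g p‖ ≤ 1 * ‖g p‖ :=
              mul_le_mul_of_nonneg_right ((hη j).2.2.2 _).2 (norm_nonneg _)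
          _ ≤ 1 + ε := by rw [one_mul]; exact hgb p hp
      · exact Eventually.of_forall (fun p => (hηlim _).mul_const _)
    have heq := tendsto_nhds_unique (hl1.congr hid) hl2
    have e1 : ∫ ζ in Metric.ball (0 : E m) 1,
          (O.indicator (fun _ => (1 : ℝ)) ζ) * ∫ c in As m A ζ, dvW m Y c =
        ∫ ζ in O, (∫ c in As m A ζ, dvW m Y c) := by
      have : ∀ ζ, (O.indicator (fun _ => (1 : ℝ)) ζ) * (∫ c in As m A ζ, dvW m Y c) =
          O.indicator (fun ζ => ∫ c in As m A ζ, dvW m Y c) ζ := by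
        intro ζ
        by_cases h : ζ ∈ O
        · rw [indicator_of_mem h, indicator_of_mem h, one_mul]
        · rw [indicator_of_notMem h, indicator_of_notMem h, zero_mul]
      simp_rw [this]
      rw [setIntegral_indicator hO.measurableSet, inter_eq_right.mpr hOB]
    have e2 : ∫ p, (O.indicator (fun _ => (1 : ℝ)) (zt m p)) * g p ∂lam =
        ∫ p in zt m ⁻¹' O, g p ∂lam := by
      rw [← integral_indicator (hO.measurableSet.preimage (sliceP_measurable_zt m))]
      congr 1
      ext p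
      by_cases h : zt m p ∈ O
      · rw [indicator_of_mem h, indicator_of_mem (show p ∈ zt m ⁻¹' O from h), one_mul]
      · rw [indicator_of_notMem h, indicator_of_notMem (show p ∉ zt m ⁻¹' O from h), zero_mul]
    rw [← e1, ← e2]
    exact heq
  have hztB : ∀ S : Set (E m), MeasurableSet S →
      ∫ p in zt m ⁻¹' S, g p ∂lam = ∫ p in zt m ⁻¹' (S ∩ Metric.ball (0 : E m) 1), g p ∂lam := by
    intro S hS
    apply setIntegral_congr_set
    filter_upwards [hUae] with p hp
    apply propext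
    have hB : zt m p ∈ Metric.ball (0 : E m) 1 := by simpa using norm_zt_lt hm0 hp
    exact ⟨fun h => ⟨h, hB⟩, fun h => h.1⟩
  -- all Borel sets
  intro S hS
  refine MeasurableSpace.induction_on_inter
    (C := fun S _ => ∫ ζ in S ∩ Metric.ball (0 : E m) 1, (∫ c in As m A ζ, dvW m Y c) =
      ∫ p in zt m ⁻¹' S, g p ∂lam) BorelSpace.measurable_eq isPiSystem_isOpen ?_ ?_ ?_ ?_ S hS
  · simp
  · intro O hO
    have hO' : IsOpen O := hO
    rw [hztB O hO'.measurableSet]
    exact hopen _ (hO'.inter Metric.isOpen_ball) inter_subset_right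
  · intro S hS ih
    have t1 : ∫ ζ in Metric.ball (0 : E m) 1, (∫ c in As m A ζ, dvW m Y c) =
        ∫ p, g p ∂lam := by
      rw [hopen _ Metric.isOpen_ball subset_rfl]
      have := hztB univ MeasurableSet.univ
      rw [preimage_univ, univ_inter, setIntegral_univ] at this
      exact this.symm
    have t2 : (∫ ζ in S ∩ Metric.ball (0 : E m) 1, (∫ c in As m A ζ, dvW m Y c)) +
        (∫ ζ in Sᶜ ∩ Metric.ball (0 : E m) 1, (∫ c in As m A ζ, dvW m Y c)) =
        ∫ ζ in Metric.ball (0 : E m) 1, (∫ c in As m A ζ, dvW m Y c) := by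
      rw [← Measure.restrict_restrict hS, ← Measure.restrict_restrict hS.compl]
      exact integral_add_compl hS hΨint
    have t3 : (∫ p in zt m ⁻¹' S, g p ∂lam) + (∫ p in zt m ⁻¹' Sᶜ, g p ∂lam) =
        ∫ p, g p ∂lam := by
      rw [preimage_compl]
      exact integral_add_compl (hS.preimage (sliceP_measurable_zt m)) hgint
    linarith
  · intro f hd hf ih
    have s1 : HasSum (fun n => ∫ ζ in f n ∩ Metric.ball (0 : E m) 1,
        (∫ c in As m A ζ, dvW m Y c)) (∫ ζ in (⋃ n, f n) ∩ Metric.ball (0 : E m) 1,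
        (∫ c in As m A ζ, dvW m Y c)) := by
      rw [iUnion_inter]
      apply hasSum_integral_iUnion (fun n => (hf n).inter measurableSet_ball)
      · intro i j hij
        exact (hd hij).mono inter_subset_left inter_subset_left
      · rw [← iUnion_inter]
        exact hΨint.mono_set inter_subset_right
    have s2 : HasSum (fun n => ∫ p in zt m ⁻¹' (f n), g p ∂lam)
        (∫ p in zt m ⁻¹' (⋃ n, f n), g p ∂lam) := by
      rw [preimage_iUnion]
      apply hasSum_integral_iUnion (fun n => (hf n).preimage (sliceP_measurable_zt m))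
      · intro i j hij
        exact (hd hij).preimage _
      · exact hgint.integrableOn
    have : (fun n => ∫ ζ in f n ∩ Metric.ball (0 : E m) 1, (∫ c in As m A ζ, dvW m Y c)) =
        fun n => ∫ p in zt m ⁻¹' (f n), g p ∂lam := funext ih
    rw [this] at s1
    exact s1.unique s2

/-- **T07** -/
theorem sliceP (h1 : Stmt_Ident) (h2 : Stmt_P0sep) (h3 : Stmt_Fib) : Stmt_SliceP := by
  intro m ε A lam ν hm hε hA hAU hw
  have hm0 : 0 < m := by omega
  obtain ⟨Y, hY, hYs⟩ := h2 m hm
  have hAm : ∀ ζ, MeasurableSet (As m A ζ) := (h3 m A hm hA hAU).1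
  have hb := fun k => sliceP_borel h1 h3 m ε A lam ν hm hε hA hAU hw (Y k) (hY k).1 (hY k).2
  set G : E (2 + m) → ℂ :=
    fun p => px (ν p) + (ε * ⟪pz (ν p), zt m p⟫ : ℝ) • gw m (px p) with hG
  have hGm : Measurable G := by
    have a2 : Measurable fun p => px (ν p) := measurable_px.comp hw.meas
    have a3 : Measurable fun p => pz (ν p) := measurable_pz.comp hw.meas
    have a4 : Measurable fun p => gw m (px (p : E (2 + m))) :=
      (sliceP_measurable_gw m).comp measurable_px
    exact a2.add (((a3.inner (sliceP_measurable_zt m)).const_mul ε).smul a4)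
  set f : ℕ → E m → ℝ≥0∞ := fun k ζ => ENNReal.ofReal (∫ c in As m A ζ, dvW m (Y k) c) with hf
  have hfm : ∀ k, Measurable (f k) := fun k => (hb k).1.ennreal_ofReal
  have hgG : ∀ k p, ‖⟪Y k (px p), px (ν p)⟫ +
        ε * ⟪pz (ν p), zt m p⟫ * ⟪Y k (px p), gw m (px p)⟫‖ₑ ≤ ENNReal.ofReal ‖G p‖ := by
    intro k p
    have e1 : ⟪Y k (px p), px (ν p)⟫ +
        ε * ⟪pz (ν p), zt m p⟫ * ⟪Y k (px p), gw m (px p)⟫ = ⟪Y k (px p), G p⟫ := by
      rw [hG]
      simp only
      rw [inner_add_right, real_inner_smul_right]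
    rw [e1, ← ofReal_norm]
    apply ENNReal.ofReal_le_ofReal
    refine (norm_inner_le_norm _ _).trans ?_
    calc ‖Y k (px p)‖ * ‖G p‖ ≤ 1 * ‖G p‖ :=
          mul_le_mul_of_nonneg_right ((hY k).2 _) (norm_nonneg _)
      _ = ‖G p‖ := one_mul _
  have hB : ∀ k, ∀ S : Set (E m), MeasurableSet S →
      ∫⁻ ζ in S ∩ Metric.ball (0 : E m) 1, f k ζ ≤
        ∫⁻ p in zt m ⁻¹' S, ENNReal.ofReal ‖G p‖ ∂lam := by
    intro k S hS
    obtain ⟨b1, b2, b3⟩ := hb k
    set T : Set (E m) := S ∩ {ζ | 0 ≤ ∫ c in As m A ζ, dvW m (Y k) c} with hT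
    have hTm : MeasurableSet T := hS.inter (measurableSet_le measurable_const b1)
    have e1 : ∫⁻ ζ in S ∩ Metric.ball (0 : E m) 1, f k ζ =
        ∫⁻ ζ in T ∩ Metric.ball (0 : E m) 1, f k ζ := by
      rw [← lintegral_indicator (hS.inter measurableSet_ball),
        ← lintegral_indicator (hTm.inter measurableSet_ball)]
      congr 1
      ext ζ
      by_cases h : ζ ∈ S ∩ Metric.ball (0 : E m) 1
      · rw [indicator_of_mem h]
        by_cases h' : 0 ≤ ∫ c in As m A ζ, dvW m (Y k) c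
        · rw [indicator_of_mem]
          exact ⟨⟨h.1, h'⟩, h.2⟩
        · rw [indicator_of_notMem]
          · push Not at h'
            simp only [hf]
            exact ENNReal.ofReal_of_nonpos h'.le
          · intro hh
            exact h' hh.1.2
      · rw [indicator_of_notMem h, indicator_of_notMem]
        intro hh
        exact h ⟨hh.1.1, hh.2⟩
    rw [e1, ← ofReal_integral_eq_lintegral_ofReal (b2.mono_set inter_subset_right), b3 T hTm]
    · refine (Real.ofReal_le_enorm _).trans ?_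
      refine (enorm_integral_le_lintegral_enorm _).trans ?_
      refine (lintegral_mono (fun p => hgG k p)).trans ?_
      exact lintegral_mono_set (preimage_mono inter_subset_left)
    · rw [EventuallyLE, ae_restrict_iff' (hTm.inter measurableSet_ball)]
      exact Eventually.of_forall (fun ζ hζ => hζ.1.2)
  have key : ∀ n, Measurable (partialSups f n) ∧ ∀ S : Set (E m), MeasurableSet S →
      ∫⁻ ζ in S ∩ Metric.ball (0 : E m) 1, (partialSups f n) ζ ≤
        ∫⁻ p in zt m ⁻¹' S, ENNReal.ofReal ‖G p‖ ∂lam := by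
    intro n
    induction n with
    | zero =>
      rw [partialSups_zero]
      exact ⟨hfm 0, hB 0⟩
    | succ n ih =>
      obtain ⟨ih1, ih2⟩ := ih
      rw [partialSups_add_one]
      refine ⟨ih1.sup (hfm (n + 1)), fun S hS => ?_⟩
      set T : Set (E m) := {ζ | (partialSups f n) ζ ≤ f (n + 1) ζ} with hT
      have hTm : MeasurableSet T := measurableSet_le ih1 (hfm (n + 1))
      have e1 : ∫⁻ ζ in S ∩ Metric.ball (0 : E m) 1, (partialSups f n ⊔ f (n + 1)) ζ =
          (∫⁻ ζ in (S ∩ T) ∩ Metric.ball (0 : E m) 1, (partialSups f n ⊔ f (n + 1)) ζ) +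
          (∫⁻ ζ in (S ∩ Tᶜ) ∩ Metric.ball (0 : E m) 1, (partialSups f n ⊔ f (n + 1)) ζ) := by
        rw [← lintegral_inter_add_sdiff _ (S ∩ Metric.ball (0 : E m) 1) hTm]
        have u1 : S ∩ Metric.ball (0 : E m) 1 ∩ T = (S ∩ T) ∩ Metric.ball (0 : E m) 1 := by
          ext ζ; simp only [mem_inter_iff]; tauto
        have u2 : (S ∩ Metric.ball (0 : E m) 1) \ T = (S ∩ Tᶜ) ∩ Metric.ball (0 : E m) 1 := by
          ext ζ; simp only [mem_inter_iff, Set.mem_sdiff, mem_compl_iff]; tauto
        rw [u1, u2]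
      have e2 : ∫⁻ ζ in (S ∩ T) ∩ Metric.ball (0 : E m) 1, (partialSups f n ⊔ f (n + 1)) ζ ≤
          ∫⁻ p in zt m ⁻¹' (S ∩ T), ENNReal.ofReal ‖G p‖ ∂lam := by
        refine le_trans (le_of_eq ?_) (hB (n + 1) (S ∩ T) (hS.inter hTm))
        apply setLIntegral_congr_fun ((hS.inter hTm).inter measurableSet_ball)
        intro ζ hζ
        exact sup_eq_right.mpr hζ.1.2
      have e3 : ∫⁻ ζ in (S ∩ Tᶜ) ∩ Metric.ball (0 : E m) 1, (partialSups f n ⊔ f (n + 1)) ζ ≤
          ∫⁻ p in zt m ⁻¹' (S ∩ Tᶜ), ENNReal.ofReal ‖G p‖ ∂lam := by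
        refine le_trans (le_of_eq ?_) (ih2 (S ∩ Tᶜ) (hS.inter hTm.compl))
        apply setLIntegral_congr_fun ((hS.inter hTm.compl).inter measurableSet_ball)
        intro ζ hζ
        have h' : ¬ (partialSups f n) ζ ≤ f (n + 1) ζ := hζ.1.2
        exact sup_eq_left.mpr (not_le.mp h').le
      have e4 : ∫⁻ p in zt m ⁻¹' S, ENNReal.ofReal ‖G p‖ ∂lam =
          (∫⁻ p in zt m ⁻¹' (S ∩ T), ENNReal.ofReal ‖G p‖ ∂lam) +
          (∫⁻ p in zt m ⁻¹' (S ∩ Tᶜ), ENNReal.ofReal ‖G p‖ ∂lam) := by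
        rw [← lintegral_inter_add_sdiff _ (zt m ⁻¹' S) (hTm.preimage (sliceP_measurable_zt m))]
        congr 2
      rw [e1, e4]
      exact add_le_add e2 e3
  calc ∫⁻ ζ in Metric.ball (0 : E m) 1, P0 m (As m A ζ)
      ≤ ∫⁻ ζ in Metric.ball (0 : E m) 1, ⨆ n, (partialSups f n) ζ := by
        apply lintegral_mono
        intro ζ
        refine (hYs (As m A ζ) (hAm ζ)).trans ?_
        apply iSup_le
        intro k
        refine le_trans ?_ (le_iSup (fun n => (partialSups f n) ζ) k)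
        exact (le_partialSups f k) ζ
    _ = ⨆ n, ∫⁻ ζ in Metric.ball (0 : E m) 1, (partialSups f n) ζ := by
        apply lintegral_iSup (fun n => (key n).1)
        intro a b hab
        exact (partialSups f).monotone hab
    _ ≤ ∫⁻ p, ENNReal.ofReal ‖G p‖ ∂lam := by
        apply iSup_le
        intro n
        have := (key n).2 univ MeasurableSet.univ
        rw [univ_inter, preimage_univ, Measure.restrict_univ] at this
        exact this

end Pool.Agent.Lib.MP_c95dcf_gt
end

section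

/-!
# MP_c95dcf_gt, T05: properties of the scaled perimeter
-/

set_option autoImplicit false

open MeasureTheory Set Filter Topology
open scoped ENNReal NNReal RealInnerProductSpace

namespace Pool.Agent.Lib.MP_c95dcf_gt

variable {m : ℕ}

theorem pepr_dve_cont (ε : ℝ) {X : E (2 + m) → E (2 + m)} (hX : ContDiff ℝ 1 X) :
    Continuous (dve ε X) := by
  have h1 : Continuous (fderiv ℝ X) := hX.continuous_fderiv one_ne_zero
  unfold dve
  fun_prop

theorem pepr_dve_zero (ε : ℝ) {X : E (2 + m) → E (2 + m)} {x : E (2 + m)} (hx : x ∉ tsupport X) :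
    dve ε X x = 0 := by
  have h : fderiv ℝ X x = 0 :=
    image_eq_zero_of_notMem_tsupport (fun h => hx (tsupport_fderiv_subset ℝ h))
  unfold dve
  rw [h]
  simp

theorem pepr_dve_int (ε : ℝ) {V : Set (E (2 + m))} {X : E (2 + m) → E (2 + m)} (hX : TF V X) :
    Integrable (dve ε X) := by
  refine (pepr_dve_cont ε hX.diff).integrable_of_hasCompactSupport ?_
  refine HasCompactSupport.intro hX.comp (fun x hx => pepr_dve_zero ε hx)

theorem pepr_inter (ε : ℝ) {U : Set (E (2 + m))} (hU : MeasurableSet U) (A : Set (E (2 + m)))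
    {X : E (2 + m) → E (2 + m)} (hX : TF U X) :
    ∫ x in A, dve ε X x = ∫ x in A ∩ U, dve ε X x := by
  rw [← setIntegral_indicator hU]
  congr 1
  funext x
  by_cases hx : x ∈ U
  · rw [indicator_of_mem hx]
  · rw [indicator_of_notMem hx, pepr_dve_zero ε (fun h => hx (hX.supp h))]

theorem pepr_norm_Ls {ε : ℝ} (hε : 0 < ε) (hε1 : ε ≤ 1) (v : E (2 + m)) : ‖Ls ε v‖ ≤ ‖v‖ := by
  rw [← sq_le_sq₀ (norm_nonneg _) (norm_nonneg _), norm_sq_split, norm_sq_split v, px_Ls, pz_Ls, norm_smul,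
    Real.norm_of_nonneg hε.le, mul_pow]
  have : ε ^ 2 ≤ 1 := by nlinarith
  nlinarith [sq_nonneg ‖pz v‖]

theorem pepr_dve_Ls {ε : ℝ} (hε : 0 < ε) {X : E (2 + m) → E (2 + m)} {p : E (2 + m)}
    (hX : DifferentiableAt ℝ X p) : dve ε (fun q => Ls ε (X q)) p = dv X p := by
  have h1 : fderiv ℝ (fun q => Ls ε (X q)) p =
      (LsE m ε hε.ne' : E (2 + m) →L[ℝ] E (2 + m)).comp (fderiv ℝ X p) := by
    exact ((LsE m ε hε.ne').hasFDerivAt.comp p hX.hasFDerivAt).fderiv
  unfold dve dv
  rw [h1, Fin.sum_univ_add (fun i : Fin (2 + m) => (fderiv ℝ X p (EuclideanSpace.single i (1 : ℝ))) i)]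
  refine congrArg₂ (· + ·) ?_ ?_
  · refine Finset.sum_congr rfl fun i _ => ?_
    simp only [ContinuousLinearMap.comp_apply, ContinuousLinearEquiv.coe_coe, LsE_apply]
    fin_cases i <;> simp [Ls, jn, px]
  · rw [Finset.mul_sum]
    refine Finset.sum_congr rfl fun i _ => ?_
    simp only [ContinuousLinearMap.comp_apply, ContinuousLinearEquiv.coe_coe, LsE_apply]
    simp only [Ls, jn, pz, Fin.append_right, PiLp.smul_apply, smul_eq_mul]
    rw [← mul_assoc, inv_mul_cancel₀ hε.ne', one_mul]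

/-- T05, first part. -/
theorem peProps (h0 : Stmt_Body) (h1 : Stmt_PeScale) (h2 : Stmt_PerCongr) (h3 : Stmt_PerCompl)
    (h4 : Stmt_Submod) (h5 : Stmt_PerAdd) (h6 : Stmt_Riesz) : Stmt_PeProps := by
  intro m ε hm hε
  have hm1 : 1 ≤ m := by omega
  have hc0 : ENNReal.ofReal (ε ^ m) ≠ 0 := by
    have : 0 < ε ^ m := by positivity
    rw [Ne, ENNReal.ofReal_eq_zero]; linarith
  have hopen : IsOpen (Ub m ε) := (h0 m ε hm1 hε).2.2.2.2.2.1
  have hopen1 : IsOpen (Ub m 1) := (h0 m 1 hm1 one_pos).2.2.2.2.2.1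
  have himgU : Ls ε '' Ub m 1 = Ub m ε := (h0 m ε hm1 hε).2.2.2.2.2.2.2.2.2.1
  have hinj : Function.Injective (Ls ε : E (2 + m) → E (2 + m)) := (LsE m ε hε.ne').injective
  have hsc := fun (A : Set (E (2 + m))) hA => (h1 m ε A hm1 hε hA).2.2
  have hms := fun (A : Set (E (2 + m))) hA => (h1 m ε A hm1 hε hA).1
  have hcongr : ∀ A B : Set (E (2 + m)), volume ((symmDiff A B) ∩ Ub m 1) = 0 → Pe m ε A = Pe m ε B := by
    intro A B hAB
    unfold Pe
    congr 1; funext X; congr 1; funext hX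
    rw [pepr_inter ε hopen1.measurableSet A hX.1, pepr_inter ε hopen1.measurableSet B hX.1]
    congr 1
    apply setIntegral_congr_set
    rw [← measure_symmDiff_eq_zero_iff]
    rw [show symmDiff (A ∩ Ub m 1) (B ∩ Ub m 1) = (symmDiff A B) ∩ Ub m 1 from
      (inf_symmDiff_distrib_right A B (Ub m 1)).symm]
    exact hAB
  refine ⟨hcongr, ?_, ?_, ?_, ?_, ?_, ?_⟩
  · intro A hA
    have e1 := hsc (Ub m 1 \ A) (hopen1.measurableSet.diff hA)
    have e2 := hsc A hA
    rw [image_sdiff hinj, himgU, h3 (2 + m) (Ub m ε) (Ls ε '' A) hopen (hms A hA), e2] at e1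
    exact ((ENNReal.mul_right_inj hc0 ENNReal.ofReal_ne_top).mp e1).symm
  · intro A B hA hB
    have e1 := h4 (2 + m) (Ub m ε) (Ls ε '' A) (Ls ε '' B) hopen (hms A hA) (hms B hB)
    rw [← image_union, ← image_inter hinj, hsc _ (hA.union hB), hsc _ (hA.inter hB), hsc A hA, hsc B hB,
      ← mul_add, ← mul_add] at e1
    exact (ENNReal.mul_le_mul_iff_right hc0 ENNReal.ofReal_ne_top).mp e1
  · intro A B hA hB hcl
    have hclos : ∀ S : Set (E (2 + m)), closure (Ls ε '' S ∩ Ub m ε) = Ls ε '' closure (S ∩ Ub m 1) := by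
      intro S
      rw [← himgU, ← image_inter hinj]
      exact ((LsE m ε hε.ne').toHomeomorph.image_closure (S ∩ Ub m 1)).symm
    have e1 := h5 (2 + m) (Ub m ε) (Ls ε '' A) (Ls ε '' B) hopen (hms A hA) (hms B hB) (by
      rw [hclos, hclos]
      rw [← himgU, ← image_inter hinj, ← image_inter hinj, hcl, image_empty])
    rw [← image_union, hsc _ (hA.union hB), hsc A hA, hsc B hB, ← mul_add] at e1
    exact (ENNReal.mul_right_inj hc0 ENNReal.ofReal_ne_top).mp e1
  · intro A hA hfin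
    refine h6 (2 + m) (Ub m 1) (fun X => ∫ x in A, dve ε X x) (Pe m ε A).toReal (by omega) hopen1 ?_
    constructor
    · intro X Y hX hY
      have e1 : ∀ x, dve ε (X + Y) x = dve ε X x + dve ε Y x := by
        intro x
        unfold dve
        rw [fderiv_add (hX.diff.differentiable one_ne_zero x) (hY.diff.differentiable one_ne_zero x)]
        simp only [add_apply, PiLp.add_apply, Finset.sum_add_distrib]
        ring
      show ∫ x in A, dve ε (X + Y) x = _
      simp only [e1]
      exact integral_add (pepr_dve_int ε hX).integrableOn (pepr_dve_int ε hY).integrableOn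
    · intro c X hX
      have e1 : ∀ x, dve ε (c • X) x = c * dve ε X x := by
        intro x
        unfold dve
        rw [fderiv_const_smul (hX.diff.differentiable one_ne_zero x)]
        simp only [smul_apply, PiLp.smul_apply, smul_eq_mul, ← Finset.mul_sum]
        ring
      show ∫ x in A, dve ε (c • X) x = _
      simp only [e1]
      exact integral_const_mul _ _
    · intro X hX hX1
      rw [← ENNReal.ofReal_le_iff_le_toReal hfin]
      exact le_iSup₂_of_le X ⟨hX, hX1⟩ le_rfl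
  · intro A lam ν hr
    have hmass : lam univ = Pe m ε A := by
      have e1 := hr.open_eq (Ub m 1) hopen1 Subset.rfl
      have e2 : lam univ = lam (Ub m 1) := by
        rw [← union_compl_self (Ub m 1)]
        apply le_antisymm
        · refine (measure_union_le _ _).trans ?_
          rw [hr.null, add_zero]
        · exact measure_mono subset_union_left
      rw [e2, e1]
      rfl
    exact ⟨⟨hr.fin, hr.null, hr.meas, hr.unit, hr.repr, hmass.le⟩, hmass⟩
  · intro hε1 A _
    refine iSup₂_le fun X hX => ?_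
    have hTF : TF (Ub m 1) (fun q => Ls ε (X q)) := by
      refine ⟨(LsE m ε hε.ne').contDiff.comp hX.1.diff, ?_, ?_⟩
      · exact hX.1.comp.comp_left (g := Ls ε) (LsE m ε hε.ne').map_zero
      · refine (tsupport_comp_subset (g := Ls ε) ?_ X).trans hX.1.supp
        exact (LsE m ε hε.ne').map_zero
    refine le_iSup₂_of_le (fun q => Ls ε (X q)) ⟨hTF, fun x => (pepr_norm_Ls hε hε1 _).trans (hX.2 x)⟩ ?_
    apply le_of_eq
    congr 1
    congr 1
    funext x
    rw [pepr_dve_Ls hε (hX.1.diff.differentiable one_ne_zero x)]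

/-- T05, second part. -/
theorem peIso (h1 : Stmt_PeProps) (h2 : Stmt_RelIso) (h3 : Stmt_Body) : Stmt_PeIso := by
  intro m hm
  have hb := h3 m 1 (by omega) one_pos
  obtain ⟨c, hc, hiso⟩ := h2 (2 + m) (Ub m 1) (by omega) hb.2.2.2.2.2.1 hb.2.2.2.2.2.2.1
    hb.2.2.2.2.2.2.2.1 hb.2.2.2.2.1
  refine ⟨c, hc, fun ε hε hε1 A hA => ?_⟩
  refine le_trans ?_ ((h1 m ε hm hε).2.2.2.2.2.2 hε1 A hA)
  have e1 := hiso A hA
  have e2 : (((2 + m : ℕ) : ℝ) - 1) / ((2 + m : ℕ) : ℝ) = ((m : ℝ) + 1) / (m + 2) := by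
    push_cast
    congr 1 <;> ring
  rw [e2] at e1
  exact e1

end Pool.Agent.Lib.MP_c95dcf_gt
end
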