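import Pool.Agent.Lib.MP_c95dcf_gt.SliceMeas
import Pool.Agent.Lib.MP_c95dcf_gt.Mg.G002
import Pool.Agent.Lib.MP_c95dcf_gt.Sep
import Pool.Agent.Lib.MP_c95dcf_gt.Mg.G027

section

/-!
# MP_c95dcf_gt, part B: fields in polar coordinates
-/

set_option autoImplicit false

open MeasureTheory Set Filter Topology
open scoped ENNReal NNReal

namespace Pool.Agent.Lib.MP_c95dcf_gt

/-- A function of the angle which is constant near `±π`. -/
structure AngC (f : ℝ → ℝ) : Prop where
  diff : ContDiff ℝ 1 f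
  cst : ∃ δ > 0, ∀ θ : ℝ, Real.pi - δ < |θ| → f θ = f Real.pi

/-- Radial test functions. -/
structure RadC (m : ℕ) (b : ℝ → ℝ) : Prop where
  diff : ContDiff ℝ 1 b
  comp : HasCompactSupport b
  supp : tsupport b ⊆ Ioo 0 (m : ℝ)

theorem AngC.contDiffAt {f : ℝ → ℝ} (hf : AngC f) {c : ℂ} (hc : c ≠ 0) :
    ContDiffAt ℝ 1 (fun z : ℂ => f (Complex.arg z)) c := by
  by_cases hs : c ∈ Complex.slitPlane
  · have h1 : ContDiffAt ℝ 1 Complex.log c := (Complex.contDiffAt_log hs).restrict_scalars ℝ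
    have h2 : ContDiffAt ℝ 1 (fun z : ℂ => (Complex.log z).im) c :=
      Complex.imCLM.contDiff.contDiffAt.comp c h1
    have h3 : (fun z : ℂ => (Complex.log z).im) = Complex.arg := by
      ext z
      exact Complex.log_im z
    rw [h3] at h2
    exact hf.diff.contDiffAt.comp c h2
  · obtain ⟨δ, hδ, hcst⟩ := hf.cst
    have hc' : c.re < 0 ∧ c.im = 0 := by
      rw [Complex.mem_slitPlane_iff] at hs
      push Not at hs
      refine ⟨lt_of_le_of_ne hs.1 ?_, hs.2⟩
      intro h0
      exact hc (Complex.ext h0 hs.2)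
    have harg : Complex.arg c = Real.pi := Complex.arg_eq_pi_iff.2 hc'
    have h1 : ContinuousAt (fun z : ℂ => |Complex.arg z|) c := by
      have h2 : ContinuousAt (fun z : ℂ => Real.arccos (z.re / ‖z‖)) c := by
        refine Real.continuous_arccos.continuousAt.comp ?_
        exact Complex.continuous_re.continuousAt.div continuous_norm.continuousAt
          (norm_ne_zero_iff.2 hc)
      refine h2.congr ?_
      filter_upwards [isOpen_ne.mem_nhds hc] with z hz
      rw [← Complex.cos_arg hz, ← Real.cos_abs,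
        Real.arccos_cos (abs_nonneg _) (Complex.abs_arg_le_pi z)]
    have h2 : ∀ᶠ z in 𝓝 c, Real.pi - δ < |Complex.arg z| := by
      refine h1.eventually (lt_mem_nhds ?_)
      show Real.pi - δ < |Complex.arg c|
      rw [harg, abs_of_pos Real.pi_pos]
      linarith
    have h3 : (fun z : ℂ => f (Complex.arg z)) =ᶠ[𝓝 c] fun _ => f Real.pi := by
      filter_upwards [h2] with z hz using hcst _ hz
    exact contDiffAt_const.congr_of_eventuallyEq h3

/-- The field `f(arg c) b(|c|) (c/|c|) u`. -/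
noncomputable def pfld (u : ℂ) (f b : ℝ → ℝ) (c : ℂ) : ℂ :=
  ((f (Complex.arg c) * b ‖c‖ / ‖c‖ : ℝ) : ℂ) * (u * c)

theorem RadC.zero_near {m : ℕ} {b : ℝ → ℝ} (hb : RadC m b) : b =ᶠ[𝓝 0] 0 := by
  have : (tsupport b)ᶜ ∈ 𝓝 (0 : ℝ) :=
    (isClosed_tsupport b).isOpen_compl.mem_nhds fun h => (lt_irrefl _ (hb.supp h).1)
  filter_upwards [this] with r hr using image_eq_zero_of_notMem_tsupport hr

theorem RadC.eq_zero {m : ℕ} {b : ℝ → ℝ} (hb : RadC m b) {r : ℝ} (hr : r ∉ Ioo 0 (m : ℝ)) :
    b r = 0 := image_eq_zero_of_notMem_tsupport fun h => hr (hb.supp h)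

theorem pfld_contDiff {m : ℕ} (u : ℂ) {f b : ℝ → ℝ} (hf : AngC f) (hb : RadC m b) :
    ContDiff ℝ 1 (pfld u f b) := by
  rw [contDiff_iff_contDiffAt]
  intro c
  by_cases hc : c = 0
  · have h1 : pfld u f b =ᶠ[𝓝 c] fun _ => 0 := by
      rw [hc]
      have h2 : ∀ᶠ z : ℂ in 𝓝 0, b ‖z‖ = 0 := by
        have : Tendsto (fun z : ℂ => ‖z‖) (𝓝 0) (𝓝 0) := by
          simpa using (continuous_norm (E := ℂ)).tendsto 0
        exact this.eventually hb.zero_near
      filter_upwards [h2] with z hz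
      simp [pfld, hz]
    exact contDiffAt_const.congr_of_eventuallyEq h1
  · have hn : ContDiffAt ℝ 1 (fun z : ℂ => ‖z‖) c := contDiffAt_norm ℝ hc
    have h1 : ContDiffAt ℝ 1 (fun z : ℂ => f (Complex.arg z) * b ‖z‖ / ‖z‖) c :=
      ((hf.contDiffAt hc).mul (hb.diff.contDiffAt.comp c hn)).div hn (norm_ne_zero_iff.2 hc)
    have h2 : ContDiffAt ℝ 1 (fun z : ℂ => ((f (Complex.arg z) * b ‖z‖ / ‖z‖ : ℝ) : ℂ)) c :=
      Complex.ofRealCLM.contDiff.contDiffAt.comp c h1
    exact h2.mul (contDiffAt_const.mul contDiffAt_id)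

theorem pfld_tsupport (u : ℂ) (f b : ℝ → ℝ) :
    tsupport (pfld u f b) ⊆ {c : ℂ | ‖c‖ ∈ tsupport b} := by
  refine closure_minimal ?_ ((isClosed_tsupport b).preimage continuous_norm)
  intro c hc
  by_contra h
  refine hc ?_
  have : b ‖c‖ = 0 := image_eq_zero_of_notMem_tsupport h
  simp [pfld, this]

theorem pfld_TFc {m : ℕ} (u : ℂ) {f b : ℝ → ℝ} (hf : AngC f) (hb : RadC m b) :
    TFc (Dp m) (pfld u f b) where
  diff := pfld_contDiff u hf hb
  comp := by
    refine HasCompactSupport.of_support_subset_isCompact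
      (K := {c : ℂ | ‖c‖ ∈ tsupport b}) ?_ ((subset_tsupport _).trans (pfld_tsupport u f b))
    refine Metric.isCompact_of_isClosed_isBounded
      ((isClosed_tsupport b).preimage continuous_norm) ?_
    refine (Metric.isBounded_ball (x := (0 : ℂ)) (r := (m : ℝ))).subset ?_
    intro c hc
    rw [mem_ball_zero_iff]
    exact (hb.supp hc).2
  supp := by
    refine (pfld_tsupport u f b).trans ?_
    intro c hc
    have := hb.supp hc
    exact ⟨mem_ball_zero_iff.2 this.2, fun h0 => (norm_pos_iff.1 this.1) h0⟩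

theorem TFc.add {D : Set ℂ} {X Y : ℂ → ℂ} (hX : TFc D X) (hY : TFc D Y) :
    TFc D (fun c => X c + Y c) where
  diff := hX.diff.add hY.diff
  comp := hX.comp.add hY.comp
  supp := (tsupport_add X Y).trans (union_subset hX.supp hY.supp)

theorem TFc.neg {D : Set ℂ} {X : ℂ → ℂ} (hX : TFc D X) : TFc D (fun c => - X c) where
  diff := hX.diff.neg
  comp := by
    have : (fun c => - X c) = -X := rfl
    rw [this]
    exact hX.comp.neg
  supp := by
    have : tsupport (fun c => - X c) = tsupport X := by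
      unfold tsupport
      congr 1
      ext c
      simp
    rw [this]
    exact hX.supp

theorem TFc.zero {D : Set ℂ} : TFc D (fun _ => (0 : ℂ)) where
  diff := contDiff_const
  comp := HasCompactSupport.zero
  supp := by
    have : tsupport (fun _ : ℂ => (0 : ℂ)) = ∅ := by
      unfold tsupport
      simp [Function.support]
    rw [this]
    exact empty_subset _

theorem TFc.sum {D : Set ℂ} {ι : Type*} (s : Finset ι) {X : ι → ℂ → ℂ}
    (hX : ∀ i ∈ s, TFc D (X i)) : TFc D (fun c => ∑ i ∈ s, X i c) := by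
  classical
  induction s using Finset.induction_on with
  | empty => simpa using TFc.zero
  | insert a s has ih =>
    have h1 := hX a (Finset.mem_insert_self a s)
    have h2 := ih fun i hi => hX i (Finset.mem_insert_of_mem hi)
    simp_rw [Finset.sum_insert has]
    exact h1.add h2

theorem dvc_add {D : Set ℂ} {X Y : ℂ → ℂ} (hX : TFc D X) (hY : TFc D Y) (c : ℂ) :
    dvc (fun c => X c + Y c) c = dvc X c + dvc Y c := by
  have h1 : DifferentiableAt ℝ X c := (hX.diff.differentiable one_ne_zero) c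
  have h2 : DifferentiableAt ℝ Y c := (hY.diff.differentiable one_ne_zero) c
  unfold dvc
  rw [fderiv_fun_add h1 h2]
  simp only [_root_.add_apply, Complex.add_re, Complex.add_im]
  ring

theorem dvc_neg {X : ℂ → ℂ} (c : ℂ) : dvc (fun c => - X c) c = - dvc X c := by
  unfold dvc
  rw [fderiv_fun_neg]
  simp only [_root_.neg_apply, Complex.neg_re, Complex.neg_im]
  ring

theorem dvc_sum {D : Set ℂ} {ι : Type*} (s : Finset ι) {X : ι → ℂ → ℂ}
    (hX : ∀ i ∈ s, TFc D (X i)) (c : ℂ) :
    dvc (fun c => ∑ i ∈ s, X i c) c = ∑ i ∈ s, dvc (X i) c := by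
  classical
  induction s using Finset.induction_on with
  | empty => simp [dvc]
  | insert a s has ih =>
    have h1 := hX a (Finset.mem_insert_self a s)
    have h2 := ih fun i hi => hX i (Finset.mem_insert_of_mem hi)
    have h3 := TFc.sum s fun i hi => hX i (Finset.mem_insert_of_mem hi)
    simp_rw [Finset.sum_insert has]
    rw [dvc_add h1 h3, h2]

theorem TFc.dvc_continuous {D : Set ℂ} {X : ℂ → ℂ} (hX : TFc D X) : Continuous (dvc X) := by
  have h := hX.diff.continuous_fderiv one_ne_zero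
  unfold dvc
  fun_prop

theorem TFc.dvc_eq_zero {D : Set ℂ} {X : ℂ → ℂ} (hX : TFc D X) {c : ℂ} (hc : c ∉ D) :
    dvc X c = 0 := by
  have h1 : c ∉ tsupport X := fun h => hc (hX.supp h)
  have h2 : X =ᶠ[𝓝 c] fun _ => 0 := by
    have : (tsupport X)ᶜ ∈ 𝓝 c := (isClosed_tsupport X).isOpen_compl.mem_nhds h1
    filter_upwards [this] with z hz using image_eq_zero_of_notMem_tsupport hz
  unfold dvc
  rw [h2.fderiv_eq]
  simp

theorem TFc.dvc_hasCompactSupport {D : Set ℂ} {X : ℂ → ℂ} (hX : TFc D X) :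
    HasCompactSupport (dvc X) := by
  refine HasCompactSupport.of_support_subset_isCompact hX.comp ?_
  intro c hc
  by_contra h
  refine hc ?_
  have h2 : X =ᶠ[𝓝 c] fun _ => 0 := by
    have : (tsupport X)ᶜ ∈ 𝓝 c := (isClosed_tsupport X).isOpen_compl.mem_nhds h
    filter_upwards [this] with z hz using image_eq_zero_of_notMem_tsupport hz
  unfold dvc
  rw [h2.fderiv_eq]
  simp

theorem TFc.dvc_integrable {D : Set ℂ} {X : ℂ → ℂ} (hX : TFc D X) : Integrable (dvc X) :=
  hX.dvc_continuous.integrable_of_hasCompactSupport hX.dvc_hasCompactSupport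

/-- The divergence in a rotated frame. -/
theorem trace_rot (L : ℂ →L[ℝ] ℂ) (u : ℂ) (hu : u.re ^ 2 + u.im ^ 2 = 1) :
    (L 1).re + (L Complex.I).im =
      (L u * (starRingEnd ℂ) u).re + (L (Complex.I * u) * (starRingEnd ℂ) (Complex.I * u)).re := by
  have h1 : L u = (u.re : ℂ) * L 1 + (u.im : ℂ) * L Complex.I := by
    have : u = u.re • (1 : ℂ) + u.im • Complex.I := by
      apply Complex.ext <;> simp
    conv_lhs => rw [this]
    rw [map_add, map_smul, map_smul]
    simp
  have h2 : L (Complex.I * u) = (-u.im : ℂ) * L 1 + (u.re : ℂ) * L Complex.I := by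
    have : Complex.I * u = (-u.im) • (1 : ℂ) + u.re • Complex.I := by
      apply Complex.ext <;> simp
    conv_lhs => rw [this]
    rw [map_add, map_smul, map_smul]
    simp
  rw [h1, h2]
  simp only [Complex.mul_re, Complex.add_re, Complex.mul_im, Complex.add_im, Complex.ofReal_re,
    Complex.ofReal_im, Complex.conj_re, Complex.conj_im, Complex.neg_re, Complex.neg_im,
    Complex.I_re, Complex.I_im]
  linear_combination (-((L 1).re + (L Complex.I).im)) * hu

theorem pfld_polar (u : ℂ) (f b : ℝ → ℝ) {r θ : ℝ} (hr : 0 < r)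
    (hθ : θ ∈ Ioo (-Real.pi) Real.pi) :
    pfld u f b ((r : ℂ) * Complex.exp (θ * Complex.I)) =
      ((f θ * b r : ℝ) : ℂ) * (u * Complex.exp (θ * Complex.I)) := by
  have h1 : Complex.arg ((r : ℂ) * Complex.exp (θ * Complex.I)) = θ := by
    rw [Complex.exp_mul_I]
    exact Complex.arg_mul_cos_add_sin_mul_I hr ⟨hθ.1, hθ.2.le⟩
  have h2 : ‖(r : ℂ) * Complex.exp (θ * Complex.I)‖ = r := by
    rw [norm_mul, Complex.norm_exp_ofReal_mul_I, mul_one, Complex.norm_real,
      Real.norm_of_nonneg hr.le]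
  unfold pfld
  rw [h1, h2]
  have hr' : (r : ℂ) ≠ 0 := by exact_mod_cast hr.ne'
  push_cast
  field_simp

theorem pfld_dvc {m : ℕ} (u : ℂ) {f b : ℝ → ℝ} (hf : AngC f) (hb : RadC m b) {r θ : ℝ}
    (hr : 0 < r) (hθ : θ ∈ Ioo (-Real.pi) Real.pi) :
    r * dvc (pfld u f b) ((r : ℂ) * Complex.exp (θ * Complex.I)) =
      u.re * (f θ * (b r + r * deriv b r)) + u.im * (deriv f θ * b r) := by
  set e : ℝ → ℂ := fun t => Complex.exp (t * Complex.I) with he
  set F := pfld u f b with hF
  set c : ℂ := (r : ℂ) * e θ with hc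
  have hdF : DifferentiableAt ℝ F c := ((pfld_contDiff u hf hb).differentiable one_ne_zero) c
  have hbd : HasDerivAt b (deriv b r) r :=
    ((hb.diff.differentiable one_ne_zero) r).hasDerivAt
  have hfd : HasDerivAt f (deriv f θ) θ :=
    ((hf.diff.differentiable one_ne_zero) θ).hasDerivAt
  have hed : HasDerivAt e (Complex.I * e θ) θ := by
    have h1 : HasDerivAt (fun t : ℝ => (t : ℂ) * Complex.I) (1 * Complex.I) θ :=
      (Complex.ofRealCLM.hasDerivAt (x := θ)).mul_const Complex.I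
    have h2 := h1.cexp
    simp only [one_mul] at h2
    rw [mul_comm] at h2
    exact h2
  have hef : ∀ t, ‖e t‖ = 1 := fun t => Complex.norm_exp_ofReal_mul_I t
  have hunit : (e θ).re ^ 2 + (e θ).im ^ 2 = 1 := by
    have := Complex.sq_norm (e θ)
    rw [hef θ, Complex.normSq_apply] at this
    nlinarith [this]
  -- radial derivative
  have hR : fderiv ℝ F c (e θ) = ((f θ * deriv b r : ℝ) : ℂ) * (u * e θ) := by
    have h1 : HasDerivAt (fun t : ℝ => (t : ℂ) * e θ) (e θ) r := by
      have := (Complex.ofRealCLM.hasDerivAt (x := r)).mul_const (e θ)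
      simpa using this
    have h2 : HasDerivAt (fun t : ℝ => F ((t : ℂ) * e θ)) (fderiv ℝ F c (e θ)) r :=
      HasFDerivAt.comp_hasDerivAt (l := F) r (by exact hdF.hasFDerivAt) h1
    have h3 : HasDerivAt (fun t : ℝ => ((f θ * b t : ℝ) : ℂ) * (u * e θ))
        (((f θ * deriv b r : ℝ) : ℂ) * (u * e θ)) r := by
      have h4 : HasDerivAt (fun t : ℝ => f θ * b t) (f θ * deriv b r) r := hbd.const_mul _
      exact (HasDerivAt.ofReal_comp h4).mul_const _
    have h5 : (fun t : ℝ => F ((t : ℂ) * e θ)) =ᶠ[𝓝 r]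
        fun t : ℝ => ((f θ * b t : ℝ) : ℂ) * (u * e θ) := by
      filter_upwards [lt_mem_nhds hr] with t ht
      exact pfld_polar u f b ht hθ
    exact h2.unique (h3.congr_of_eventuallyEq h5)
  have hT : fderiv ℝ F c (r * (Complex.I * e θ)) =
      ((deriv f θ * b r : ℝ) : ℂ) * (u * e θ) +
        ((f θ * b r : ℝ) : ℂ) * (u * (Complex.I * e θ)) := by
    have h1 : HasDerivAt (fun t : ℝ => (r : ℂ) * e t) (r * (Complex.I * e θ)) θ :=
      hed.const_mul _
    have h2 : HasDerivAt (fun t : ℝ => F ((r : ℂ) * e t))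
        (fderiv ℝ F c (r * (Complex.I * e θ))) θ :=
      HasFDerivAt.comp_hasDerivAt (l := F) θ (by exact hdF.hasFDerivAt) h1
    have h3 : HasDerivAt (fun t : ℝ => ((f t * b r : ℝ) : ℂ) * (u * e t))
        (((deriv f θ * b r : ℝ) : ℂ) * (u * e θ) +
          ((f θ * b r : ℝ) : ℂ) * (u * (Complex.I * e θ))) θ := by
      have h4 : HasDerivAt (fun t : ℝ => f t * b r) (deriv f θ * b r) θ := hfd.mul_const _
      exact (HasDerivAt.ofReal_comp h4).mul (hed.const_mul u)
    have h5 : (fun t : ℝ => F ((r : ℂ) * e t)) =ᶠ[𝓝 θ]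
        fun t : ℝ => ((f t * b r : ℝ) : ℂ) * (u * e t) := by
      filter_upwards [isOpen_Ioo.mem_nhds hθ] with t ht
      exact pfld_polar u f b hr ht
    exact h2.unique (h3.congr_of_eventuallyEq h5)
  have hT' : (r : ℂ) * fderiv ℝ F c (Complex.I * e θ) =
      ((deriv f θ * b r : ℝ) : ℂ) * (u * e θ) +
        ((f θ * b r : ℝ) : ℂ) * (u * (Complex.I * e θ)) := by
    rw [← hT]
    have : (r : ℂ) * (Complex.I * e θ) = r • (Complex.I * e θ) := by
      rw [Complex.real_smul]
    rw [this, map_smul, Complex.real_smul]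
  have hdv : dvc F c = (fderiv ℝ F c (e θ) * (starRingEnd ℂ) (e θ)).re +
      (fderiv ℝ F c (Complex.I * e θ) * (starRingEnd ℂ) (Complex.I * e θ)).re :=
    trace_rot (fderiv ℝ F c) (e θ) hunit
  have h6 : r * (fderiv ℝ F c (Complex.I * e θ) * (starRingEnd ℂ) (Complex.I * e θ)).re =
      ((r : ℂ) * fderiv ℝ F c (Complex.I * e θ) * (starRingEnd ℂ) (Complex.I * e θ)).re := by
    rw [mul_assoc, Complex.re_ofReal_mul]
  rw [hdv, mul_add, h6, hT', hR]
  simp only [Complex.mul_re, Complex.add_re, Complex.mul_im, Complex.add_im, Complex.ofReal_re,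
    Complex.ofReal_im, Complex.conj_re, Complex.conj_im, Complex.I_re, Complex.I_im]
  linear_combination (u.re * (f θ * (b r + r * deriv b r)) + u.im * (deriv f θ * b r)) * hunit

/-- Integration in polar coordinates. -/
theorem polar_setIntegral {m : ℕ} {A : Set ℂ} (hA : MeasurableSet A) {φ : ℂ → ℝ}
    (hφ : Continuous φ) (hz : ∀ c, c ∉ Metric.ball (0 : ℂ) m → φ c = 0) :
    ∫ c in A, φ c = ∫ θ in Ioo (-Real.pi) Real.pi, ∫ r in Sl m A θ,
      r * φ ((r : ℂ) * Complex.exp (θ * Complex.I)) := by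
  set S : Set (ℝ × ℝ) := {x : ℝ × ℝ | x.1 ∈ Sl m A x.2} with hS
  have hSm : MeasurableSet S :=
    measurable_swap (slm_measurableSet_prod m hA)
  set G : ℝ × ℝ → ℝ := fun p => p.1 * φ ((p.1 : ℂ) * Complex.exp (p.2 * Complex.I)) with hG
  have hGc : Continuous G := by
    simp only [hG]
    fun_prop
  have h1 : ∫ c in A, φ c = ∫ p in Ioi (0 : ℝ) ×ˢ Ioo (-Real.pi) Real.pi, S.indicator G p := by
    rw [← integral_indicator hA, ← Complex.integral_comp_polarCoord_symm (A.indicator φ)]
    change ∫ p in Ioi (0 : ℝ) ×ˢ Ioo (-Real.pi) Real.pi,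
      p.1 • A.indicator φ (Complex.polarCoord.symm p) = _
    refine setIntegral_congr_fun (measurableSet_Ioi.prod measurableSet_Ioo) ?_
    rintro ⟨r, θ⟩ ⟨hr, hθ⟩
    have hr' : 0 < r := hr
    have e1 : Complex.polarCoord.symm (r, θ) = (r : ℂ) * Complex.exp (θ * Complex.I) := by
      rw [Complex.polarCoord_symm_apply, Complex.exp_mul_I]
      simp
    show r • A.indicator φ (Complex.polarCoord.symm (r, θ)) = S.indicator G (r, θ)
    rw [e1, smul_eq_mul]
    by_cases hmem : (r, θ) ∈ S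
    · rw [indicator_of_mem hmem, indicator_of_mem (show (r : ℂ) *
        Complex.exp (θ * Complex.I) ∈ A from hmem.2)]
    · rw [indicator_of_notMem hmem]
      by_cases hA' : (r : ℂ) * Complex.exp (θ * Complex.I) ∈ A
      · have hrm : ¬ r < m := fun h => hmem ⟨⟨hr', h⟩, hA'⟩
        have : φ ((r : ℂ) * Complex.exp (θ * Complex.I)) = 0 := by
          refine hz _ fun hb => hrm ?_
          rw [mem_ball_zero_iff, norm_mul, Complex.norm_exp_ofReal_mul_I, mul_one,
            Complex.norm_real, Real.norm_of_nonneg hr'.le] at hb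
          exact hb
        rw [indicator_of_mem hA', this, mul_zero]
      · rw [indicator_of_notMem hA', mul_zero]
  have hT : MeasurableSet (Ioo 0 (m : ℝ) ×ˢ Ioo (-Real.pi) Real.pi) :=
    measurableSet_Ioo.prod measurableSet_Ioo
  have hint0 : IntegrableOn (S.indicator G) (Ioo 0 (m : ℝ) ×ˢ Ioo (-Real.pi) Real.pi) := by
    have hc : IntegrableOn G (Icc 0 (m : ℝ) ×ˢ Icc (-Real.pi) Real.pi) :=
      hGc.continuousOn.integrableOn_compact (isCompact_Icc.prod isCompact_Icc)
    exact (hc.mono_set (prod_mono Ioo_subset_Icc_self Ioo_subset_Icc_self)).indicator hSm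
  have hint : IntegrableOn (S.indicator G) (Ioi (0 : ℝ) ×ˢ Ioo (-Real.pi) Real.pi) := by
    have hsub : Ioo 0 (m : ℝ) ×ˢ Ioo (-Real.pi) Real.pi ⊆ Ioi (0 : ℝ) ×ˢ Ioo (-Real.pi) Real.pi :=
      prod_mono Ioo_subset_Ioi_self Subset.rfl
    refine hint0.of_forall_sdiff_eq_zero (measurableSet_Ioi.prod measurableSet_Ioo) ?_
    rintro ⟨r, θ⟩ ⟨h2, h3⟩
    rw [indicator_of_notMem]
    intro h4
    exact h3 ⟨h4.1, h2.2⟩
  rw [h1]
  have hvol : (volume : Measure (ℝ × ℝ)).restrict (Ioi (0 : ℝ) ×ˢ Ioo (-Real.pi) Real.pi) =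
      (volume.restrict (Ioi (0 : ℝ))).prod (volume.restrict (Ioo (-Real.pi) Real.pi)) := by
    rw [Measure.prod_restrict]
    rfl
  rw [hvol, integral_prod_symm]
  · refine setIntegral_congr_fun measurableSet_Ioo fun θ hθ => ?_
    have hSl : MeasurableSet (Sl m A θ) := slm_measurableSet m hA θ
    have e2 : ∀ r, S.indicator G (r, θ) = (Sl m A θ).indicator
        (fun r : ℝ => r * φ ((r : ℂ) * Complex.exp (θ * Complex.I))) r := fun r => rfl
    simp_rw [e2]
    rw [setIntegral_indicator hSl]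
    congr 1
    congr 1
    exact inter_eq_right.2 ((slm_Sl_subset m A θ).trans Ioo_subset_Ioi_self)
  · rw [← hvol]
    exact hint

/-- The integral of the divergence of a field in polar coordinates. -/
theorem pfld_integral {m : ℕ} {A : Set ℂ} (hA : MeasurableSet A) (u : ℂ) {f b : ℝ → ℝ}
    (hf : AngC f) (hb : RadC m b) :
    ∫ c in A, dvc (pfld u f b) c = ∫ θ in Ioo (-Real.pi) Real.pi,
      (u.re * f θ * (∫ r in Sl m A θ, (b r + r * deriv b r)) +
        u.im * deriv f θ * ∫ r in Sl m A θ, b r) := by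
  have hT := pfld_TFc (m := m) u hf hb
  rw [polar_setIntegral (m := m) hA hT.dvc_continuous fun c hc => hT.dvc_eq_zero fun h => hc h.1]
  refine setIntegral_congr_fun measurableSet_Ioo fun θ hθ => ?_
  have hSl : MeasurableSet (Sl m A θ) := slm_measurableSet m hA θ
  have h1 : ∫ r in Sl m A θ, r * dvc (pfld u f b) ((r : ℂ) * Complex.exp (θ * Complex.I)) =
      ∫ r in Sl m A θ, (u.re * f θ * (b r + r * deriv b r) + u.im * deriv f θ * b r) := by
    refine setIntegral_congr_fun hSl fun r hr => ?_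
    have := pfld_dvc (m := m) u hf hb hr.1.1 hθ
    simp only [this]
    ring
  have hbc : Continuous b := hb.diff.continuous
  have hdc : Continuous (deriv b) := hb.diff.continuous_deriv le_rfl
  have i0 : ∀ g : ℝ → ℝ, Continuous g → IntegrableOn g (Sl m A θ) := by
    intro g hg
    exact (hg.continuousOn.integrableOn_compact (isCompact_Icc (a := (0 : ℝ)) (b := (m : ℝ)))
      ).mono_set ((slm_Sl_subset m A θ).trans Ioo_subset_Icc_self)
  have i1 := i0 (fun r => b r + r * deriv b r) (by fun_prop)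
  have i2 := i0 b hbc
  simp only [h1]
  rw [integral_add (i1.const_mul _) (i2.const_mul _), integral_const_mul, integral_const_mul]

end Pool.Agent.Lib.MP_c95dcf_gt
end

section

/-!
# MP_c95dcf_gt, part T, task T12: lower semicontinuity in the thin limit
-/

set_option autoImplicit false

open MeasureTheory Set Filter Topology
open scoped ENNReal NNReal RealInnerProductSpace

namespace Pool.Agent.Lib.MP_c95dcf_gt

theorem lscE_isOpen_Ub {m : ℕ} : IsOpen (Ub m 1) := by
  have h : Ub m 1 = (fun p : E (2 + m) => ‖px p‖ / m + ‖pz p‖ / 1) ⁻¹' Iio 1 := rfl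
  rw [h]
  exact isOpen_Iio.preimage
    ((continuous_px.norm.div_const _).add (continuous_pz.norm.div_const _))

theorem lscE_vol_Ub {m : ℕ} (hm : 0 < m) : volume (Ub m 1) < ∞ := by
  have hbd : Bornology.IsBounded (Ub m 1) := by
    refine (Metric.isBounded_ball (x := (0 : E (2 + m))) (r := (m : ℝ) + 1)).subset ?_
    intro p hp
    rw [mem_ball_zero_iff]
    have h1 := px_lt_of_mem hm hp
    have h2 : ‖pz p‖ < 1 := by
      refine lt_of_lt_of_le ((mem_Ub_one hm p).1 hp) ?_
      unfold wp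
      refine max_le zero_le_one ?_
      have : 0 ≤ ‖px p‖ / (m : ℝ) := div_nonneg (norm_nonneg _) (Nat.cast_nonneg m)
      linarith
    calc ‖p‖ = ‖jn (px p) (pz p)‖ := by rw [jn_px_pz]
      _ ≤ ‖px p‖ + ‖pz p‖ := norm_jn_le _ _
      _ < m + 1 := by linarith
  exact hbd.measure_lt_top

theorem lscE_norm_gw {m : ℕ} (hm : 2 ≤ m) (c : ℂ) : ‖gw m c‖ ≤ 1 := by
  have hm' : (1 : ℝ) ≤ m := by exact_mod_cast (by omega : 1 ≤ m)
  rw [gw, norm_neg, norm_div, norm_mul, Complex.norm_real, norm_norm, Complex.norm_natCast]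
  rcases (norm_nonneg c).eq_or_lt with h | h
  · rw [← h]; simp
  · rw [div_le_one (by positivity)]
    nlinarith

/-- Difference of set integrals. -/
theorem lscE_diff {X : Type*} [MeasurableSpace X] (μ : Measure X) {A B : Set X}
    (hA : MeasurableSet A) (hB : MeasurableSet B) (hAf : μ A < ∞) (hBf : μ B < ∞) {f : X → ℝ}
    {C : ℝ} (hf : Measurable f) (hC : ∀ x, |f x| ≤ C) :
    |(∫ x in A, f x ∂μ) - ∫ x in B, f x ∂μ| ≤ C * (μ (symmDiff A B)).toReal := by
  have hC0 : ∀ (x : X), 0 ≤ C := fun x => (abs_nonneg _).trans (hC x)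
  have hiA : IntegrableOn f A μ := by
    have : IsFiniteMeasure (μ.restrict A) := ⟨by rwa [Measure.restrict_apply_univ]⟩
    exact Integrable.of_bound hf.aestronglyMeasurable C (Eventually.of_forall hC)
  have hiB : IntegrableOn f B μ := by
    have : IsFiniteMeasure (μ.restrict B) := ⟨by rwa [Measure.restrict_apply_univ]⟩
    exact Integrable.of_bound hf.aestronglyMeasurable C (Eventually.of_forall hC)
  have hsd : MeasurableSet (symmDiff A B) := hA.symmDiff hB
  have hsdf : μ (symmDiff A B) < ∞ := by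
    refine (measure_mono (t := A ∪ B) ?_).trans_lt (measure_union_lt_top hAf hBf)
    intro x hx
    rcases hx with hx | hx
    · exact Or.inl hx.1
    · exact Or.inr hx.1
  rw [← integral_indicator hA, ← integral_indicator hB,
    ← integral_sub (hiA.integrable_indicator hA) (hiB.integrable_indicator hB)]
  have h1 : ∫ x, (A.indicator f x - B.indicator f x) ∂μ =
      ∫ x in symmDiff A B, (A.indicator f x - B.indicator f x) ∂μ := by
    rw [← integral_indicator hsd]
    refine integral_congr_ae (Eventually.of_forall fun x => ?_)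
    by_cases hx : x ∈ symmDiff A B
    · rw [indicator_of_mem hx]
    · rw [indicator_of_notMem hx]
      rw [Set.mem_symmDiff] at hx
      push Not at hx
      by_cases hxA : x ∈ A
      · have hxB := hx.1 hxA
        simp [hxA, hxB]
      · have hxB : x ∉ B := fun h => hxA (hx.2 h)
        simp [hxA, hxB]
  rw [h1, ← Real.norm_eq_abs]
  refine norm_setIntegral_le_of_norm_le_const hsdf fun x _ => ?_
  by_cases hxA : x ∈ A
  · by_cases hxB : x ∈ B
    · simpa [hxA, hxB] using hC0 x
    · simpa [hxA, hxB] using hC x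
  · by_cases hxB : x ∈ B
    · simpa [hxA, hxB] using hC x
    · simpa [hxA, hxB] using hC0 x

/-- Fibre integration of the weighted divergence. -/
theorem lscE_fib (h4 : Stmt_Fib) {m : ℕ} (hm : 2 ≤ m) {A : Set (E (2 + m))}
    (hA : MeasurableSet A) (hAU : A ⊆ Ub m 1) {η : E m → ℝ} {Y : ℂ → ℂ} (hη : Measurable η)
    {C : ℝ} (hC : ∀ c ζ, |η ζ * (dvW m Y c / Wp m ‖c‖)| ≤ C) :
    ∫ p in A, η (zt m p) * (dvW m Y (px p) / Wp m ‖px p‖) =
      ∫ ζ in Metric.ball (0 : E m) 1, η ζ * ∫ c in As m A ζ, dvW m Y c := by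
  have hm0 : 0 < m := by omega
  obtain ⟨hmeas, hfib, -, -, -⟩ := h4 m A hm hA hAU
  have hWm : Measurable (fun c : ℂ => Wp m ‖c‖) := by
    have : Continuous (fun c : ℂ => Wp m ‖c‖) := by
      unfold Wp wp
      exact (continuous_const.max (continuous_const.sub (continuous_norm.div_const _))).pow m
    exact this.measurable
  have h := (hfib (fun c ζ => η ζ * (dvW m Y c / Wp m ‖c‖)) C
    ((hη.comp measurable_snd).mul (((sliceP_measurable_dvW m Y).comp measurable_fst).div
      (hWm.comp measurable_fst))) hC).2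
  rw [h]
  refine setIntegral_congr_fun measurableSet_ball fun ζ _ => ?_
  rw [← integral_const_mul]
  refine setIntegral_congr_fun (hmeas ζ) fun c hc => ?_
  have hpos := sliceP_Wp_pos hm0 (mem_ball_zero_iff.1 hc.1)
  field_simp

/-- The bound by the scaled perimeter. -/
theorem lscE_bound (h1 : Stmt_Ident) (h2 : Stmt_PeProps) {m : ℕ} (hm : 2 ≤ m) {ε : ℝ}
    (hε : 0 < ε) {A : Set (E (2 + m))} (hA : MeasurableSet A) (hAU : A ⊆ Ub m 1)
    {η : E m → ℝ} {Y : ℂ → ℂ} (hη : ContDiff ℝ 1 η) (hηc : HasCompactSupport η)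
    (hηs : tsupport η ⊆ Metric.ball 0 1) (hη1 : ∀ ζ, 0 ≤ η ζ ∧ η ζ ≤ 1) (hY : TFc (Dp m) Y)
    (hY1 : ∀ c, ‖Y c‖ ≤ 1) :
    ENNReal.ofReal (∫ ζ in Metric.ball (0 : E m) 1, η ζ * ∫ c in As m A ζ, dvW m Y c) ≤
      ENNReal.ofReal (1 + ε) * Pe m ε A := by
  have hm0 : 0 < m := by omega
  by_cases hP : Pe m ε A = ∞
  · rw [hP, ENNReal.mul_top]
    · exact le_top
    · simp only [ne_eq, ENNReal.ofReal_eq_zero, not_le]; linarith
  obtain ⟨-, -, -, -, p5, p6, -⟩ := h2 m ε hm hε
  obtain ⟨lam, ν, hrep⟩ := p5 A hA hP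
  obtain ⟨hW, hmass⟩ := p6 A lam ν hrep
  have hfin : IsFiniteMeasure lam := hW.fin
  rw [h1 m ε A lam ν hm hε hA hAU hW η Y hη hηc hηs hY]
  have hb : ∀ᵐ p ∂lam, ‖η (zt m p) * (⟪Y (px p), px (ν p)⟫ +
        ε * ⟪pz (ν p), zt m p⟫ * ⟪Y (px p), gw m (px p)⟫)‖ ≤ 1 + ε := by
    have hU : ∀ᵐ p ∂lam, p ∈ Ub m 1 := by
      rw [ae_iff]; exact hW.null
    filter_upwards [hU] with p hp
    have e1 : |⟪Y (px p), px (ν p)⟫| ≤ 1 := by
      refine (abs_real_inner_le_norm _ _).trans ?_
      exact mul_le_one₀ (hY1 _) (norm_nonneg _) ((norm_px_le _).trans (hW.unit p).le)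
    have e2 : |⟪pz (ν p), zt m p⟫| ≤ 1 := by
      refine (abs_real_inner_le_norm _ _).trans ?_
      exact mul_le_one₀ ((norm_pz_le _).trans (hW.unit p).le) (norm_nonneg _)
        (norm_zt_lt hm0 hp).le
    have e3 : |⟪Y (px p), gw m (px p)⟫| ≤ 1 := by
      refine (abs_real_inner_le_norm _ _).trans ?_
      exact mul_le_one₀ (hY1 _) (norm_nonneg _) (lscE_norm_gw hm _)
    have e4 : |η (zt m p)| ≤ 1 := by
      rw [abs_of_nonneg (hη1 _).1]; exact (hη1 _).2
    have e5 : |⟪Y (px p), px (ν p)⟫ + ε * ⟪pz (ν p), zt m p⟫ * ⟪Y (px p), gw m (px p)⟫| ≤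
        1 + ε := by
      refine (abs_add_le _ _).trans (add_le_add e1 ?_)
      rw [abs_mul, abs_mul, abs_of_pos hε]
      calc ε * |⟪pz (ν p), zt m p⟫| * |⟪Y (px p), gw m (px p)⟫| ≤ ε * 1 * 1 := by
            gcongr
        _ = ε := by ring
    rw [Real.norm_eq_abs, abs_mul]
    calc |η (zt m p)| * |⟪Y (px p), px (ν p)⟫ +
          ε * ⟪pz (ν p), zt m p⟫ * ⟪Y (px p), gw m (px p)⟫| ≤ 1 * (1 + ε) :=
          mul_le_mul e4 e5 (abs_nonneg _) zero_le_one
      _ = 1 + ε := one_mul _
  have h3 := norm_integral_le_of_norm_le_const hb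
  have h4 : ∫ p, η (zt m p) * (⟪Y (px p), px (ν p)⟫ +
        ε * ⟪pz (ν p), zt m p⟫ * ⟪Y (px p), gw m (px p)⟫) ∂lam ≤ (1 + ε) * (lam univ).toReal :=
    (le_abs_self _).trans h3
  refine (ENNReal.ofReal_le_ofReal h4).trans ?_
  rw [ENNReal.ofReal_mul (by linarith), ENNReal.ofReal_toReal (measure_ne_top lam univ), hmass]

/-- Task T12. -/
theorem lscE (h1 : Stmt_Ident) (h2 : Stmt_PeProps) (h3 : Stmt_Lift) (h4 : Stmt_Fib)
    (_h5 : Stmt_P0C2) : Stmt_LscE := by
  intro m ε A A0 hm hε hε1 hεl hA hAU hA0 hconv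
  have hm0 : 0 < m := by omega
  obtain ⟨hLm, -, hLAs, -⟩ := h3 m A0 hm hA0
  have hLU : lift m A0 ⊆ Ub m 1 := fun p hp => hp.1
  have hUf := lscE_vol_Ub hm0
  -- test fields
  rw [P0, ENNReal.mul_iSup]
  refine iSup_le fun Z => ?_
  rw [ENNReal.mul_iSup]
  refine iSup_le fun hZ => ?_
  obtain ⟨Y, hY, hY1, hZY⟩ := sep_exists_Y hm hZ.1 hZ.2
  obtain ⟨C, hC0, hC⟩ := sliceP_bound hm0 hY
  have hWm : Measurable (fun c : ℂ => Wp m ‖c‖) := by
    have : Continuous (fun c : ℂ => Wp m ‖c‖) := by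
      unfold Wp wp
      exact (continuous_const.max (continuous_const.sub (continuous_norm.div_const _))).pow m
    exact this.measurable
  have hdvW : ∀ c, dvW m Y c = dvc Z c := by
    intro c; rw [dvW, ← hZY]
  -- cut-off functions
  have key : ∀ η : E m → ℝ, ContDiff ℝ 1 η → HasCompactSupport η →
      tsupport η ⊆ Metric.ball 0 1 → (∀ ζ, 0 ≤ η ζ ∧ η ζ ≤ 1) →
      ENNReal.ofReal ((∫ ζ in Metric.ball (0 : E m) 1, η ζ) * ∫ c in A0, dvc Z c) ≤
        liminf (fun j => Pe m (ε j) (A j)) atTop := by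
    intro η hη hηc hηs hη1
    have hηm : Measurable η := hη.continuous.measurable
    have hCη : ∀ c ζ, |η ζ * (dvW m Y c / Wp m ‖c‖)| ≤ C := by
      intro c ζ
      rw [abs_mul, abs_of_nonneg (hη1 ζ).1]
      calc η ζ * |dvW m Y c / Wp m ‖c‖| ≤ 1 * C :=
            mul_le_mul (hη1 ζ).2 (hC c) (abs_nonneg _) zero_le_one
        _ = C := one_mul C
    set f : E (2 + m) → ℝ := fun p => η (zt m p) * (dvW m Y (px p) / Wp m ‖px p‖) with hf
    have hztm : Measurable (fun p : E (2 + m) => zt m p) := by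
      unfold zt
      have hw : Continuous (fun c : ℂ => wp m ‖c‖) := by
        unfold wp
        exact continuous_const.max (continuous_const.sub (continuous_norm.div_const _))
      exact ((hw.measurable.comp measurable_px).inv).smul measurable_pz
    have hfm : Measurable f :=
      (hηm.comp hztm).mul (((sliceP_measurable_dvW m Y).comp measurable_px).div
        (hWm.comp measurable_px))
    have hfC : ∀ p, |f p| ≤ C := fun p => hCη _ _
    have hfib := fun j => lscE_fib h4 hm (hA j) (hAU j) (Y := Y) hηm hCη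
    have hfib0 := lscE_fib h4 hm hLm hLU (Y := Y) hηm hCη
    have hlim0 : ∫ ζ in Metric.ball (0 : E m) 1, η ζ * ∫ c in As m (lift m A0) ζ, dvW m Y c =
        (∫ ζ in Metric.ball (0 : E m) 1, η ζ) * ∫ c in A0, dvc Z c := by
      rw [← integral_mul_const]
      refine setIntegral_congr_fun measurableSet_ball fun ζ hζ => ?_
      rw [hLAs ζ hζ]
      congr 1
      simp_rw [hdvW]
      rw [← integral_indicator hA0, ← integral_indicator (hA0.inter measurableSet_ball)]
      refine integral_congr_ae (Eventually.of_forall fun c => ?_)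
      by_cases hc : c ∈ Metric.ball (0 : ℂ) m
      · by_cases hcA : c ∈ A0
        · simp [hcA, mem_ball_zero_iff.1 hc]
        · simp [hcA]
      · have h0 : dvc Z c = 0 := by
          have h1 : Z =ᶠ[𝓝 c] 0 := notMem_tsupport_iff_eventuallyEq.mp fun h => hc (hZ.1.supp h).1
          rw [dvc, h1.fderiv_eq]
          simp
        by_cases hcA : c ∈ A0
        · simp [hcA, h0]
        · simp [hcA]
    -- convergence
    have hT : Tendsto (fun j => ∫ p in A j, f p) atTop (𝓝 (∫ p in lift m A0, f p)) := by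
      rw [tendsto_iff_norm_sub_tendsto_zero]
      have hT0 : Tendsto (fun j => C * (volume (symmDiff (A j) (lift m A0))).toReal) atTop
          (𝓝 0) := by
        have := (ENNReal.tendsto_toReal ENNReal.zero_ne_top).comp hconv
        simpa using this.const_mul C
      refine squeeze_zero (fun j => norm_nonneg _) (fun j => ?_) hT0
      exact lscE_diff volume (hA j) hLm ((measure_mono (hAU j)).trans_lt hUf)
        ((measure_mono hLU).trans_lt hUf) hfm hfC
    rw [hf, hfib0, hlim0] at hT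
    have hT1 : Tendsto (fun j => ENNReal.ofReal (∫ p in A j, η (zt m p) *
        (dvW m Y (px p) / Wp m ‖px p‖)) / ENNReal.ofReal (1 + ε j)) atTop
        (𝓝 (ENNReal.ofReal ((∫ ζ in Metric.ball (0 : E m) 1, η ζ) * ∫ c in A0, dvc Z c) /
          ENNReal.ofReal (1 + 0))) := by
      refine ENNReal.Tendsto.div (ENNReal.tendsto_ofReal hT) (Or.inr (by simp))
        (ENNReal.tendsto_ofReal (hεl.const_add 1)) (Or.inl (by simp))
    rw [add_zero, ENNReal.ofReal_one, div_one] at hT1
    rw [← hT1.liminf_eq]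
    refine liminf_le_liminf (Eventually.of_forall fun j => ?_)
    rw [hfib j]
    refine ENNReal.div_le_of_le_mul ?_
    rw [mul_comm]
    exact lscE_bound h1 h2 hm (hε j) (hA j) (hAU j) hη hηc hηs hη1 hY hY1
  -- the supremum over the cut-off functions
  obtain ⟨η, hη, hηl⟩ := sliceP_approx (m := m) (O := Metric.ball (0 : E m) 1)
    Metric.isOpen_ball Metric.isBounded_ball
  have hT : Tendsto (fun k => ∫ ζ in Metric.ball (0 : E m) 1, η k ζ) atTop
      (𝓝 (∫ ζ in Metric.ball (0 : E m) 1, (1 : ℝ))) := by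
    have : IsFiniteMeasure (volume.restrict (Metric.ball (0 : E m) 1)) :=
      ⟨by rw [Measure.restrict_apply_univ]; exact measure_ball_lt_top⟩
    refine tendsto_integral_of_dominated_convergence (fun _ => 1) ?_ (integrable_const _) ?_ ?_
    · intro k
      exact (hη k).1.continuous.aestronglyMeasurable
    · intro k
      refine Eventually.of_forall fun ζ => ?_
      rw [Real.norm_of_nonneg ((hη k).2.2.2 ζ).1]
      exact ((hη k).2.2.2 ζ).2
    · filter_upwards [ae_restrict_mem measurableSet_ball] with ζ hζ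
      have := hηl ζ
      rwa [indicator_of_mem hζ] at this
  have hone : ∫ ζ in Metric.ball (0 : E m) 1, (1 : ℝ) = omr m := by
    simp [omr, om, Measure.real]
  rw [hone] at hT
  have hT2 := ENNReal.tendsto_ofReal (hT.mul_const (∫ c in A0, dvc Z c))
  have hfin : om m * ENNReal.ofReal (∫ c in A0, dvc Z c) =
      ENNReal.ofReal (omr m * ∫ c in A0, dvc Z c) := by
    rw [ENNReal.ofReal_mul (omr_pos m).le, omr, ENNReal.ofReal_toReal (om_ne_top m)]
  rw [hfin]
  exact le_of_tendsto' hT2 fun k => key (η k) (hη k).1 (hη k).2.1 (hη k).2.2.1 (hη k).2.2.2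

end Pool.Agent.Lib.MP_c95dcf_gt
end
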