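import Pool.Agent.Lib.MP_c95dcf_gt.GStmts

section

/-!
# MP_c95dcf_gt: the gradient of the mollified indicator
-/

set_option autoImplicit false

open MeasureTheory Set Filter Topology
open scoped ENNReal NNReal RealInnerProductSpace Convolution

namespace Pool.Agent.Lib.MP_c95dcf_gt

lemma convGrad_hcs {n : ℕ} {ρ : ℕ → E n → ℝ} (h : Kern n ρ) (k : ℕ) :
    HasCompactSupport (ρ k) :=
  (isCompact_closedBall (0 : E n) (1 / (k + 1 : ℝ))).of_isClosed_subset
    (isClosed_tsupport _) (h.supp k)

lemma convGrad_eq_conv {n : ℕ} (r u : E n → ℝ) :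
    conv r u = (r ⋆[ContinuousLinearMap.lsmul ℝ ℝ, volume] u : E n → ℝ) := by
  funext x
  rw [convolution_lsmul_swap]
  simp [conv]

lemma convGrad_linear_apply {n : ℕ} (L : E n →L[ℝ] ℝ) (w : E n) :
    L w = ∑ i, L (EuclideanSpace.single i (1 : ℝ)) * w i := by
  have h : w = ∑ i, w i • EuclideanSpace.single i (1 : ℝ) := by
    ext j
    simp [Finset.sum_apply, Pi.single_apply]
  conv_lhs => rw [h]
  rw [map_sum]
  exact Finset.sum_congr rfl fun i _ => by rw [map_smul, smul_eq_mul, mul_comm]

/-- The derivative of a mollified function. -/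
lemma convGrad_fderiv {n : ℕ} {r u : E n → ℝ} (hr : ContDiff ℝ 1 r) (hc : HasCompactSupport r)
    (hu : LocallyIntegrable u) (x v : E n) :
    fderiv ℝ (conv r u) x v = ∫ y, fderiv ℝ r (x - y) v * u y := by
  rw [convGrad_eq_conv]
  rw [(hc.hasFDerivAt_convolution_left (ContinuousLinearMap.lsmul ℝ ℝ) hr hu x).fderiv]
  have hi : Integrable (fun t => (ContinuousLinearMap.precompL (E n)
      (ContinuousLinearMap.lsmul ℝ ℝ : ℝ →L[ℝ] ℝ →L[ℝ] ℝ)) (fderiv ℝ r t) (u (x - t))) := by
    have h1 := (hc.fderiv (𝕜 := ℝ)).convolutionExists_left (ContinuousLinearMap.precompL (E n)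
      (ContinuousLinearMap.lsmul ℝ ℝ : ℝ →L[ℝ] ℝ →L[ℝ] ℝ)) (hr.continuous_fderiv one_ne_zero) hu x
    exact h1
  rw [convolution_def, ContinuousLinearMap.integral_apply hi v]
  have h2 : (fun t => ((ContinuousLinearMap.precompL (E n)
      (ContinuousLinearMap.lsmul ℝ ℝ : ℝ →L[ℝ] ℝ →L[ℝ] ℝ)) (fderiv ℝ r t) (u (x - t))) v) =
      fun t => (fun y => fderiv ℝ r (x - y) v * u y) (x - t) := by
    funext t
    simp
  rw [h2, integral_sub_left_eq_self (fun y => fderiv ℝ r (x - y) v * u y) volume x]

theorem convGrad : Stmt_ConvGrad := by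
  intro n ρ hρ U A μ ν hU hA hrep k x hx v
  have hX : TF U (fun y => ρ k (x - y) • v) := by
    refine ⟨?_, ?_, ?_⟩
    · exact ((hρ.smooth k).comp (contDiff_const.sub contDiff_id)).smul contDiff_const
    · have h0 : HasCompactSupport (fun y => ρ k (x - y)) :=
        (convGrad_hcs hρ k).comp_homeomorph (Homeomorph.subLeft x)
      exact h0.smul_right (f' := fun _ => v)
    · refine Subset.trans ?_ hx
      refine closure_minimal ?_ Metric.isClosed_closedBall
      intro y hy
      have h1 : ρ k (x - y) ≠ 0 := by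
        intro h0
        exact hy (by simp [h0])
      have h2 := hρ.supp k (subset_tsupport _ h1)
      rw [mem_closedBall_zero_iff] at h2
      rw [Metric.mem_closedBall, dist_comm, dist_eq_norm]
      exact h2
  have hdiv : ∀ y, dv (fun y => ρ k (x - y) • v) y = - fderiv ℝ (ρ k) (x - y) v := by
    intro y
    have h1 : HasFDerivAt (fun y => ρ k (x - y)) (-(fderiv ℝ (ρ k) (x - y))) y := by
      have h2 := (((hρ.smooth k).differentiable one_ne_zero) (x - y)).hasFDerivAt
      have h3 : HasFDerivAt (fun y : E n => x - y) (-(ContinuousLinearMap.id ℝ (E n))) y :=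
        (hasFDerivAt_id y).const_sub x
      have h4 : HasFDerivAt (fun y => ρ k (x - y))
          ((fderiv ℝ (ρ k) (x - y)).comp (-(ContinuousLinearMap.id ℝ (E n)))) y :=
        HasFDerivAt.comp (f := fun y : E n => x - y) y h2 h3
      have h4' : (fderiv ℝ (ρ k) (x - y)).comp (-(ContinuousLinearMap.id ℝ (E n))) =
          -(fderiv ℝ (ρ k) (x - y)) := by
        ext w
        simp
      rw [h4'] at h4
      exact h4
    have h5 := (h1.smul_const v).fderiv
    rw [dv, h5, convGrad_linear_apply (fderiv ℝ (ρ k) (x - y)) v, ← Finset.sum_neg_distrib]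
    refine Finset.sum_congr rfl fun i _ => ?_
    simp
  have hloc : LocallyIntegrable (A.indicator (1 : E n → ℝ)) :=
    (locallyIntegrable_const (1 : ℝ)).indicator hA
  have h6 := hrep.repr _ hX
  simp only [hdiv] at h6
  rw [integral_neg] at h6
  rw [convGrad_fderiv (hρ.smooth k) (convGrad_hcs hρ k) hloc]
  have h7 : (fun y => fderiv ℝ (ρ k) (x - y) v * A.indicator (1 : E n → ℝ) y) =
      A.indicator (fun y => fderiv ℝ (ρ k) (x - y) v) := by
    funext y
    by_cases hy : y ∈ A
    · simp [hy]
    · simp [hy]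
  rw [h7, integral_indicator hA]
  rw [← neg_eq_iff_eq_neg, h6]
  refine integral_congr_ae (Filter.Eventually.of_forall fun y => ?_)
  simp only [inner_smul_left, RCLike.conj_to_real]

end Pool.Agent.Lib.MP_c95dcf_gt
end

section

/-!
# MP_c95dcf_gt, part G: assembly
-/

set_option autoImplicit false

open MeasureTheory Set Filter Topology
open scoped ENNReal NNReal RealInnerProductSpace

namespace Pool.Agent.Lib.MP_c95dcf_gt

theorem partA (h1 : Stmt_Exist) (h2 : Stmt_LMin) (h3 : Stmt_PRep) (h4 : Stmt_Dens)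
    (h5 : Stmt_RegRep) (h6 : Stmt_Blowup) (h7 : Stmt_Haus) (h8 : Stmt_PerCongr) : Stmt_A := by
  intro n K f L hn hKc hKk hKi hf
  have hn1 : 1 ≤ n := by omega
  have hUo : IsOpen (interior K) := isOpen_interior
  have hUc : Convex ℝ (interior K) := hKc.interior
  have hUb : Bornology.IsBounded (interior K) := hKk.isBounded.subset interior_subset
  obtain ⟨A, hA⟩ := h1 n (interior K) f hUo hUb hf.continuous
  have hL : IsLMin (interior K) L A := h2 n (interior K) A f L hUo hUb hf hA
  obtain ⟨μ, ν, hμ⟩ := h3 n (interior K) A hn1 hUo hA.meas hA.fin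
  obtain ⟨c, C, hc, -, H⟩ := h4 n hn
  have H' := H (interior K) A L μ ν hUo hUb hL hμ
  obtain ⟨F, hFc, hFU, hFr, hFA, hFf, hSg⟩ := h5 n (interior K) A hn1 hUo hUc hUb hA.meas hA.sub
    (by
      intro x hx
      obtain ⟨r₀, hr₀, -, h⟩ := H' x hx
      exact ⟨c, r₀, hc, hr₀, fun r h0 hr => ⟨(h r h0 hr).1, (h r h0 hr).2.1⟩⟩)
  have hsub : symmDiff (F ∩ interior K) A ⊆ symmDiff F A := by
    intro x hx
    rcases hx with ⟨⟨hxF, -⟩, hxA⟩ | ⟨hxA, hx⟩
    · exact Or.inl ⟨hxF, hxA⟩
    · exact Or.inr ⟨hxA, fun hxF => hx ⟨hxF, hA.sub hxA⟩⟩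
  have hnull : volume (symmDiff (F ∩ interior K) A) = 0 := measure_mono_null hsub hFA
  have hPer1 : Per (interior K) (F ∩ interior K) = Per (interior K) A :=
    h8 n _ _ _ hUo (measure_mono_null inter_subset_left hnull)
  have hPer2 : Per (interior K) F = Per (interior K) A :=
    h8 n _ _ _ hUo (measure_mono_null inter_subset_left hFA)
  have hvol : volume (F ∩ interior K) = volume A :=
    measure_congr (ae_eq_set.2 ⟨measure_mono_null (fun x hx => Or.inl hx) hnull,
      measure_mono_null (fun x hx => Or.inr hx) hnull⟩)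
  refine ⟨F, hFc, hFU.trans (closure_minimal interior_subset hKk.isClosed), hFr, ?_, ?_⟩
  · refine ⟨hFc.measurableSet.inter hUo.measurableSet, inter_subset_right, ?_, ?_⟩
    · rw [hPer1]; exact hA.fin
    · intro B hB hBU hBf
      rw [hPer1, hvol]
      exact hA.le B hB hBU hBf
  · rw [hPer2]
    have hmS : MeasurableSet (frontier F ∩ interior K) :=
      isClosed_frontier.measurableSet.inter hUo.measurableSet
    have hfin : IsFiniteMeasure μ := hμ.fin
    have h := h7 n μ (frontier F ∩ interior K) c hn1 hfin hmS hc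
      (by
        intro x hx
        rw [hFf] at hx
        obtain ⟨r₀, hr₀, -, h⟩ := H' x hx
        exact ⟨r₀, hr₀, fun r h0 hr => (h r h0 hr).2.2.1⟩)
      (by
        refine ae_restrict_of_ae ?_
        filter_upwards [h6 n (interior K) A L μ ν hn hUo hUb hL hμ] with x hx
        exact hx.2)
    refine h.trans ((measure_mono inter_subset_right).trans (le_of_eq ?_))
    exact hμ.open_eq _ hUo Subset.rfl

end Pool.Agent.Lib.MP_c95dcf_gt
end

section

/-!
# MP_c95dcf_gt, task G07: lower bound for the volume of a ball centred in a convex body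
-/

set_option autoImplicit false

open MeasureTheory Set Filter Topology
open scoped ENNReal NNReal RealInnerProductSpace

namespace Pool.Agent.Lib.MP_c95dcf_gt

theorem ballLower : Stmt_BallLower := by
  intro n U hn hU hconv hbdd hne
  obtain ⟨x₀, hx₀⟩ := hne
  obtain ⟨ρ, hρ, hball⟩ := Metric.isOpen_iff.1 hU x₀ hx₀
  have hvol_pos : 0 < (volume (Metric.ball x₀ ρ)).toReal :=
    ENNReal.toReal_pos (Metric.measure_ball_pos volume x₀ hρ).ne' measure_ball_lt_top.ne
  rcases (Metric.diam_nonneg (s := U)).eq_or_lt with hD | hD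
  · refine ⟨1, one_pos, fun x _ r hr hrD => ?_⟩
    rw [← hD] at hrD
    exact absurd hr (not_lt.2 hrD)
  · refine ⟨(1 / (2 * Metric.diam U)) ^ n * (volume (Metric.ball x₀ ρ)).toReal, by positivity,
      fun x hx r hr hrD => ?_⟩
    set D := Metric.diam U with hDdef
    set τ : ℝ := r / (2 * D) with hτ
    have hτ0 : 0 < τ := by positivity
    have hτ1 : τ ≤ 1 := by
      rw [hτ, div_le_one (by positivity)]
      linarith
    have hsub : AffineMap.homothety x τ '' Metric.ball x₀ ρ ⊆ U ∩ Metric.ball x r := by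
      rintro _ ⟨y, hy, rfl⟩
      have hyU : y ∈ U := hball hy
      refine ⟨?_, ?_⟩
      · rw [AffineMap.homothety_apply, vsub_eq_sub, vadd_eq_add]
        have := hconv hx hyU (a := 1 - τ) (b := τ) (by linarith) hτ0.le (by ring)
        convert this using 1
        module
      · rw [Metric.mem_ball, dist_homothety_center]
        have h1 : dist x y ≤ D := Metric.dist_le_diam_of_mem hbdd hx hyU
        rw [Real.norm_of_nonneg hτ0.le]
        calc τ * dist x y ≤ τ * D := by gcongr
          _ = r / 2 := by rw [hτ]; field_simp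
          _ < r := by linarith
    refine le_trans ?_ (measure_mono hsub)
    rw [Measure.addHaar_image_homothety, finrank_euclideanSpace, Fintype.card_fin,
      abs_of_nonneg (by positivity)]
    rw [show (1 / (2 * D)) ^ n * (volume (Metric.ball x₀ ρ)).toReal * r ^ n =
      τ ^ n * (volume (Metric.ball x₀ ρ)).toReal by
        rw [hτ, div_pow, div_pow, one_pow]; ring]
    rw [ENNReal.ofReal_mul (by positivity), ENNReal.ofReal_toReal measure_ball_lt_top.ne]

end Pool.Agent.Lib.MP_c95dcf_gt
end
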