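import Pool.Agent.Lib.MP_c95dcf_gt.Mg.G002

section

/-!
# MP_c95dcf_gt, T15: diffeomorphisms and the scaled perimeter
-/

set_option autoImplicit false

open MeasureTheory Set Filter Topology
open scoped ENNReal NNReal RealInnerProductSpace

namespace Pool.Agent.Lib.MP_c95dcf_gt

variable {m : ℕ}

/-- Transport of the representation. -/
theorem diffE_rep (h : Stmt_Body) {ε : ℝ} (hm : 1 ≤ m) (hε : 0 < ε) {A : Set (E (2 + m))}
    {lam : Measure (E (2 + m))} {ν : E (2 + m) → E (2 + m)} (hr : ERep m ε A lam ν) :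
    PRep (Ub m ε) (Ls ε '' A) (ENNReal.ofReal (ε ^ m) • Measure.map (LsE m ε hε.ne') lam)
      (fun y => ν ((LsE m ε hε.ne').symm y)) := by
  set L := LsE m ε hε.ne' with hL
  have hLm : Measurable L := L.continuous.measurable
  have hpre := pesc_preimage h hm hε
  have hpos : (0 : ℝ) ≤ ε ^ m := by positivity
  have hopen : IsOpen (Ub m ε) := (h m ε hm hε).2.2.2.2.2.1
  have := hr.fin
  constructor
  · constructor
    rw [Measure.smul_apply, Measure.map_apply hLm MeasurableSet.univ, smul_eq_mul]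
    exact ENNReal.mul_lt_top ENNReal.ofReal_lt_top (measure_lt_top _ _)
  · rw [Measure.smul_apply, Measure.map_apply hLm hopen.measurableSet.compl, preimage_compl, hpre, hr.null,
      smul_zero]
  · exact hr.meas.comp L.symm.continuous.measurable
  · intro x; exact hr.unit _
  · intro X hX
    have h1 : TF (Ub m 1) (fun q => X (L q)) := by
      have := pesc_TF L hX
      rwa [hpre] at this
    have h2 : (∫ x in Ls ε '' A, dv X x) = ε ^ m * ∫ x in A, dve ε (fun q => X (L q)) x :=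
      pesc_integral_dv hε A hX.diff
    have h3 : (∫ x in A, dve ε (fun q => X (L q)) x) = ∫ x, ⟪X (L x), ν x⟫ ∂lam := hr.repr _ h1
    show (∫ x in Ls ε '' A, dv X x) = _
    rw [h2, h3, integral_smul_measure, ENNReal.toReal_ofReal hpos, smul_eq_mul]
    congr 1
    have he : MeasurableEmbedding L := L.toHomeomorph.measurableEmbedding
    rw [he.integral_map]
    refine integral_congr_ae (Eventually.of_forall fun x => ?_)
    simp
  · intro W hW hWU
    have h1 := hr.open_eq (L ⁻¹' W) (hW.preimage L.continuous) (by rw [← hpre]; exact preimage_mono hWU)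
    rw [Measure.smul_apply, Measure.map_apply hLm hW.measurableSet, smul_eq_mul, h1]
    exact (pesc_iSup hε A W).symm

theorem diffE_adjoint (ε : ℝ) (x y : E (2 + m)) : ⟪Ls ε x, y⟫ = ⟪x, Ls ε y⟫ := by
  rw [inner_split, inner_split]
  simp only [px_Ls, pz_Ls]
  rw [real_inner_smul_left, real_inner_smul_right]

/-- T15. -/
theorem diffeoE (h1 : Stmt_Diffeo) (h2 : Stmt_PeScale) (h3 : Stmt_Body) : Stmt_DiffeoE := by
  intro m ε A lam ν Φ Ψ hm hε hA hAU hr hΦ hΨ hΦU hΨU hΨΦ hΦΨ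
  set L := LsE m ε hε.ne' with hL
  have hpos : (0 : ℝ) < ε ^ m := by positivity
  have hopen : IsOpen (Ub m ε) := (h3 m ε hm hε).2.2.2.2.2.1
  have hopen1 : IsOpen (Ub m 1) := (h3 m 1 hm one_pos).2.2.2.2.2.1
  have hpre : L ⁻¹' (Ub m ε) = Ub m 1 := pesc_preimage h3 hm hε
  have hpre' : ∀ y, y ∈ Ub m ε ↔ L.symm y ∈ Ub m 1 := by
    intro y
    rw [← hpre]; simp
  have hrep := diffE_rep h3 hm hε hr
  have himg : Ls ε '' A = L '' A := rfl
  -- measurability of the image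
  have hΦA : Φ '' A = Ub m 1 ∩ Ψ ⁻¹' A := by
    ext y
    constructor
    · rintro ⟨x, hx, rfl⟩
      exact ⟨hΦU (hAU hx), by rw [mem_preimage, hΨΦ x (hAU hx)]; exact hx⟩
    · rintro ⟨hy1, hy2⟩
      exact ⟨Ψ y, hy2, hΦΨ y hy1⟩
  have hΦAm : MeasurableSet (Φ '' A) := by
    rw [hΦA]
    have hm1 : Measurable ((Ub m 1).domRestrict Ψ) := (continuousOn_iff_continuous_domRestrict.mp hΨ.continuousOn).measurable
    have : Ub m 1 ∩ Ψ ⁻¹' A = Subtype.val '' ((Ub m 1).domRestrict Ψ ⁻¹' A) := by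
      ext y; simp [Set.domRestrict, and_comm]
    rw [this]
    exact (MeasurableEmbedding.subtype_coe hopen1.measurableSet).measurableSet_image.mpr (hm1 hA)
  set Φ₁ : E (2 + m) → E (2 + m) := fun y => L (Φ (L.symm y)) with hΦ₁
  set Ψ₁ : E (2 + m) → E (2 + m) := fun y => L (Ψ (L.symm y)) with hΨ₁
  have hconj : ∀ F : E (2 + m) → E (2 + m), ContDiffOn ℝ 1 F (Ub m 1) →
      ContDiffOn ℝ 1 (fun y => L (F (L.symm y))) (Ub m ε) := by
    intro F hF
    refine L.contDiff.comp_contDiffOn (hF.comp L.symm.contDiff.contDiffOn ?_)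
    intro y hy
    exact (hpre' y).mp hy
  have hmaps : ∀ F : E (2 + m) → E (2 + m), MapsTo F (Ub m 1) (Ub m 1) →
      MapsTo (fun y => L (F (L.symm y))) (Ub m ε) (Ub m ε) := by
    intro F hF y hy
    rw [hpre']
    simp only [ContinuousLinearEquiv.symm_apply_apply]
    exact hF ((hpre' y).mp hy)
  have key := h1 (2 + m) (Ub m ε) (Ls ε '' A) _ _ Φ₁ Ψ₁ (by omega) hopen (pesc_meas ε hε.ne' hA)
    (by
      rintro _ ⟨x, hx, rfl⟩
      rw [hpre']
      rw [← LsE_apply m ε hε.ne', ContinuousLinearEquiv.symm_apply_apply]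
      exact hAU hx) hrep (hconj Φ hΦ) (hconj Ψ hΨ) (hmaps Φ hΦU) (hmaps Ψ hΨU)
    (by
      intro y hy
      simp only [hΦ₁, hΨ₁, ContinuousLinearEquiv.symm_apply_apply]
      rw [hΨΦ _ ((hpre' y).mp hy), ContinuousLinearEquiv.apply_symm_apply])
    (by
      intro y hy
      simp only [hΦ₁, hΨ₁, ContinuousLinearEquiv.symm_apply_apply]
      rw [hΦΨ _ ((hpre' y).mp hy), ContinuousLinearEquiv.apply_symm_apply])
  have himg2 : Φ₁ '' (Ls ε '' A) = Ls ε '' (Φ '' A) := by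
    rw [image_image, image_image]
    refine image_congr fun x _ => ?_
    simp only [hΦ₁]
    rw [← LsE_apply m ε hε.ne' x, ContinuousLinearEquiv.symm_apply_apply]
    rfl
  rw [himg2, (h2 m ε (Φ '' A) hm hε hΦAm).2.2] at key
  have he : MeasurableEmbedding L := L.toHomeomorph.measurableEmbedding
  rw [lintegral_smul_measure, he.lintegral_map, smul_eq_mul] at key
  have hc0 : ENNReal.ofReal (ε ^ m) ≠ 0 := by
    rw [Ne, ENNReal.ofReal_eq_zero]; linarith
  have key2 := (ENNReal.mul_le_mul_iff_right hc0 ENNReal.ofReal_ne_top).mp key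
  refine key2.trans (le_of_eq ?_)
  apply lintegral_congr_ae
  have hae : ∀ᵐ x ∂lam, x ∈ Ub m 1 := by
    rw [ae_iff]
    exact hr.null
  filter_upwards [hae] with x hx
  -- derivatives
  have hdΦ : HasFDerivAt Φ (fderiv ℝ Φ x) x :=
    ((hΦ.contDiffAt (hopen1.mem_nhds hx)).differentiableAt one_ne_zero).hasFDerivAt
  have hdΨ : HasFDerivAt Ψ (fderiv ℝ Ψ (Φ x)) (Φ x) :=
    ((hΨ.contDiffAt (hopen1.mem_nhds (hΦU hx))).differentiableAt one_ne_zero).hasFDerivAt
  have hcomp1 : (fderiv ℝ Ψ (Φ x)).comp (fderiv ℝ Φ x) = ContinuousLinearMap.id ℝ _ := by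
    have h4 : HasFDerivAt (Ψ ∘ Φ) ((fderiv ℝ Ψ (Φ x)).comp (fderiv ℝ Φ x)) x := hdΨ.comp x hdΦ
    have h5 : HasFDerivAt (Ψ ∘ Φ) (ContinuousLinearMap.id ℝ _) x := by
      refine (hasFDerivAt_id x).congr_of_eventuallyEq ?_
      filter_upwards [hopen1.mem_nhds hx] with y hy
      exact hΨΦ y hy
    exact h4.unique h5
  have hcomp2 : (fderiv ℝ Φ x).comp (fderiv ℝ Ψ (Φ x)) = ContinuousLinearMap.id ℝ _ := by
    have hdΦ' : HasFDerivAt Φ (fderiv ℝ Φ x) (Ψ (Φ x)) := by rw [hΨΦ x hx]; exact hdΦ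
    have h4 : HasFDerivAt (Φ ∘ Ψ) ((fderiv ℝ Φ x).comp (fderiv ℝ Ψ (Φ x))) (Φ x) := hdΦ'.comp (Φ x) hdΨ
    have h5 : HasFDerivAt (Φ ∘ Ψ) (ContinuousLinearMap.id ℝ _) (Φ x) := by
      refine (hasFDerivAt_id (Φ x)).congr_of_eventuallyEq ?_
      filter_upwards [hopen1.mem_nhds (hΦU hx)] with y hy
      exact hΦΨ y hy
    exact h4.unique h5
  have hinv : (fderiv ℝ Φ x).inverse = fderiv ℝ Ψ (Φ x) :=
    ContinuousLinearMap.inverse_eq hcomp2 hcomp1
  have hd1 : fderiv ℝ Φ₁ (L x) = ((L : E (2 + m) →L[ℝ] E (2 + m)).comp (fderiv ℝ Φ x)).comp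
      (L.symm : E (2 + m) →L[ℝ] E (2 + m)) := by
    have hs : HasFDerivAt L.symm (L.symm : E (2 + m) →L[ℝ] E (2 + m)) (L x) := L.symm.hasFDerivAt
    have hΦ' : HasFDerivAt Φ (fderiv ℝ Φ x) (L.symm (L x)) := by
      rw [ContinuousLinearEquiv.symm_apply_apply]; exact hdΦ
    have h6 := (L.hasFDerivAt (x := Φ (L.symm (L x)))).comp (L x) (hΦ'.comp (L x) hs)
    exact h6.fderiv
  have hd2 : fderiv ℝ Ψ₁ (Φ₁ (L x)) = ((L : E (2 + m) →L[ℝ] E (2 + m)).comp (fderiv ℝ Ψ (Φ x))).comp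
      (L.symm : E (2 + m) →L[ℝ] E (2 + m)) := by
    have e1 : Φ₁ (L x) = L (Φ x) := by simp [hΦ₁]
    rw [e1]
    have hs : HasFDerivAt L.symm (L.symm : E (2 + m) →L[ℝ] E (2 + m)) (L (Φ x)) := L.symm.hasFDerivAt
    have hΨ' : HasFDerivAt Ψ (fderiv ℝ Ψ (Φ x)) (L.symm (L (Φ x))) := by
      rw [ContinuousLinearEquiv.symm_apply_apply]; exact hdΨ
    have h6 := (L.hasFDerivAt (x := Ψ (L.symm (L (Φ x))))).comp (L (Φ x)) (hΨ'.comp (L (Φ x)) hs)
    exact h6.fderiv
  have hdet : (fderiv ℝ Φ₁ (L x)).det = (fderiv ℝ Φ x).det := by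
    rw [hd1]
    have : ((((L : E (2 + m) →L[ℝ] E (2 + m)).comp (fderiv ℝ Φ x)).comp
      (L.symm : E (2 + m) →L[ℝ] E (2 + m)) : E (2 + m) →L[ℝ] E (2 + m)) : E (2 + m) →ₗ[ℝ] E (2 + m)) =
      (L.toLinearEquiv : E (2 + m) →ₗ[ℝ] E (2 + m)) ∘ₗ (fderiv ℝ Φ x : E (2 + m) →ₗ[ℝ] E (2 + m)) ∘ₗ
        (L.toLinearEquiv.symm : E (2 + m) →ₗ[ℝ] E (2 + m)) := by
      ext y; simp
    unfold ContinuousLinearMap.det
    rw [this, LinearMap.det_conj]
  have hadj : (fderiv ℝ Ψ₁ (Φ₁ (L x))).adjoint (ν (L.symm (L x))) =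
      Ls ε⁻¹ ((fderiv ℝ Ψ (Φ x)).adjoint (Ls ε (ν x))) := by
    rw [ContinuousLinearEquiv.symm_apply_apply]
    apply ext_inner_left ℝ
    intro v
    rw [ContinuousLinearMap.adjoint_inner_right, hd2, ← diffE_adjoint ε⁻¹,
      ContinuousLinearMap.adjoint_inner_right, ← diffE_adjoint ε]
    rfl
  rw [hadj, hdet]
  unfold Jc
  rw [hinv]

end Pool.Agent.Lib.MP_c95dcf_gt
end

section

/-!
# MP_c95dcf_gt, T26: existence of regular minimisers which are graphs, under the positive statement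
-/

set_option autoImplicit false

open MeasureTheory Set Filter Topology
open scoped ENNReal NNReal RealInnerProductSpace

namespace Pool.Agent.Lib.MP_c95dcf_gt

theorem exist0_fT_lip {m : ℕ} {κ t : ℝ} (h0 : 0 ≤ κ) (h1 : κ ≤ 1) (a b : ℝ) :
    |fT m κ t a - fT m κ t b| ≤ |a - b| := by
  wlog hab : a ≤ b with H
  · rw [abs_sub_comm, abs_sub_comm a b]
    exact H h0 h1 b a (le_of_not_ge hab)
  have e1 : min a (omr m * t) ≤ min b (omr m * t) := min_le_min_right _ hab
  have e2 : min b (omr m * t) - min a (omr m * t) ≤ b - a := by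
    rcases le_total a (omr m * t) with h | h
    · rw [min_eq_left h]; linarith [min_le_left b (omr m * t)]
    · rw [min_eq_right h]; linarith [min_le_right b (omr m * t)]
  have e3 : max 0 (a - vU m / 2) ≤ max 0 (b - vU m / 2) := max_le_max_left _ (by linarith)
  have e4 : max 0 (b - vU m / 2) - max 0 (a - vU m / 2) ≤ b - a := by
    rcases le_total 0 (b - vU m / 2) with h | h
    · rw [max_eq_right h]; linarith [le_max_right 0 (a - vU m / 2)]
    · rw [max_eq_left h]; linarith [le_max_left 0 (a - vU m / 2)]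
  have e5 : κ * (min b (omr m * t) - min a (omr m * t)) ≤ b - a := by
    calc κ * (min b (omr m * t) - min a (omr m * t))
        ≤ 1 * (min b (omr m * t) - min a (omr m * t)) :=
          mul_le_mul_of_nonneg_right h1 (by linarith)
      _ ≤ b - a := by linarith
  have e6 : 0 ≤ κ * (min b (omr m * t) - min a (omr m * t)) := mul_nonneg h0 (by linarith)
  rw [abs_sub_comm, abs_sub_comm a b, abs_of_nonneg (by linarith : 0 ≤ b - a), abs_le]
  unfold fT
  constructor <;> nlinarith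

theorem exist0_scaled_lip {m : ℕ} {κ t s : ℝ} (h0 : 0 ≤ κ) (h1 : κ ≤ 1) (hs : 0 < s) :
    LipschitzWith 1 (fun v => s * fT m κ t (v / s)) := by
  refine LipschitzWith.of_dist_le_mul fun a b => ?_
  rw [Real.dist_eq, Real.dist_eq, NNReal.coe_one, one_mul, ← mul_sub, abs_mul, abs_of_pos hs]
  calc s * |fT m κ t (a / s) - fT m κ t (b / s)| ≤ s * |a / s - b / s| :=
        mul_le_mul_of_nonneg_left (exist0_fT_lip h0 h1 _ _) hs.le
    _ = |a - b| := by
        rw [← sub_div, abs_div, abs_of_pos hs]; field_simp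

theorem exist0_c0_pos (d : ℕ) : c0 d ≠ 0 :=
  (ENNReal.div_pos (om_pos d).ne' (by simp)).ne'

theorem exist0_c0_ne_top (d : ℕ) : c0 d ≠ ∞ :=
  (ENNReal.div_lt_top (om_ne_top d) (by positivity)).ne

theorem exist0 (h1 : Stmt_A) (h2 : Stmt_E2) (h3 : Stmt_Body) (h4 : Stmt_PeScale)
    (h5 : Stmt_MinVol) (h6 : Stmt_PerCongr) (h7 : Stmt_Lift) : Stmt_Exist0 := by
  intro hF m κ t hyp
  obtain ⟨ε₀, hε₀, hε₁, hmv⟩ := h5 m κ t hyp
  refine ⟨ε₀, hε₀, fun ε hε hlt => ?_⟩
  have hm : 2 ≤ m := hyp.hm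
  have hm1 : 1 ≤ m := by omega
  obtain ⟨hcv, hcp, hint, hcl, hne, hop, hcvU, hbd, hsym, hLsU, hLsK⟩ := h3 m ε hm1 hε
  obtain ⟨-, -, -, -, -, hop1, -, hbd1, -, -, -⟩ := h3 m 1 hm1 one_pos
  have hs : 0 < ε ^ m := by positivity
  have hs' : ENNReal.ofReal (ε ^ m) ≠ 0 := by simpa using hs
  obtain ⟨F, hFc, hFK, hFr, hFmin, hFH⟩ := h1 (2 + m) (Kb m ε)
    (fun v => ε ^ m * fT m κ t (v / ε ^ m)) 1 (by omega) hcv hcp (by rw [hint]; exact hne)
    (exist0_scaled_lip hyp.κ_pos.le hyp.κ_lt.le hs)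
  rw [hint] at hFmin hFH
  let φ := (LsE m ε hε.ne').toHomeomorph
  have hφ : ∀ p, φ p = Ls ε p := fun p => rfl
  have hφ' : (φ : E (2 + m) → E (2 + m)) = Ls ε := rfl
  have hU : φ ⁻¹' (Ub m ε) = Ub m 1 := by
    rw [← hLsU, ← hφ', φ.injective.preimage_image]
  set A : Set (E (2 + m)) := φ ⁻¹' F with hAdef
  have hAc : IsClosed A := hFc.preimage φ.continuous
  have hAr : closure (interior A) = A := by
    rw [hAdef, ← φ.preimage_interior, ← φ.preimage_closure, hFr]
  have hAf : frontier A = φ ⁻¹' (frontier F) := by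
    rw [hAdef, φ.preimage_frontier]
  have himg : Ls ε '' (A ∩ Ub m 1) = F ∩ Ub m ε := by
    rw [hAdef, ← hU, ← preimage_inter, ← hφ', image_preimage_eq _ φ.surjective]
  have hAm : MeasurableSet (A ∩ Ub m 1) := hAc.measurableSet.inter hop1.measurableSet
  obtain ⟨-, hvA, hPA⟩ := h4 m ε _ hm1 hε hAm
  rw [himg] at hvA hPA
  -- toReal versions of the scaling
  have hscale : ∀ x : ℝ≥0∞, (ENNReal.ofReal (ε ^ m) * x).toReal = ε ^ m * x.toReal := by
    intro x; rw [ENNReal.toReal_mul, ENNReal.toReal_ofReal hs.le]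
  have hfin : Pe m ε (A ∩ Ub m 1) ≠ ∞ := by
    intro h
    apply hFmin.fin
    rw [hPA, h, ENNReal.mul_top hs']
  have hmin : IsMinE m ε (fT m κ t) (A ∩ Ub m 1) := by
    refine ⟨hAm, inter_subset_right, hfin, fun B hB hBU hBf => ?_⟩
    obtain ⟨hBm, hvB, hPB⟩ := h4 m ε B hm1 hε hB
    have hsub : Ls ε '' B ⊆ Ub m ε := by rw [← hLsU]; exact image_mono hBU
    have := hFmin.le (Ls ε '' B) hBm hsub (by
      rw [hPB]; exact ENNReal.mul_ne_top ENNReal.ofReal_ne_top hBf)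
    rw [hPB, hvB, hPA, hvA] at this
    simp only [hscale] at this
    rw [mul_div_cancel_left₀ _ hs.ne', mul_div_cancel_left₀ _ hs.ne', ← mul_add, ← mul_add] at this
    exact le_of_mul_le_mul_left this hs
  obtain ⟨hv0, hv1, -⟩ := hmv ε hε hlt _ hmin
  -- volumes
  have hUfin : volume (Ub m 1) ≠ ∞ := hbd1.measure_lt_top.ne
  have hvUb : (volume (Ub m 1)).toReal = vU m := by
    have := (h7 m univ hm MeasurableSet.univ).2.1
    have hl : lift m univ = Ub m 1 := by ext p; simp [lift]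
    rw [hl] at this; rw [this]; rfl
  have hfr : volume (frontier (Kb m ε)) = 0 := hcv.addHaar_frontier volume
  have hKU : ∀ G : Set (E (2 + m)), G ⊆ Kb m ε → volume (G ∩ Ub m ε) = volume G := by
    intro G hG
    apply le_antisymm (measure_mono inter_subset_left)
    calc volume G ≤ volume ((G ∩ Ub m ε) ∪ frontier (Kb m ε)) := by
          apply measure_mono
          intro x hx
          by_cases hxU : x ∈ Ub m ε
          · exact Or.inl ⟨hx, hxU⟩
          · right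
            rw [hcp.isClosed.frontier_eq, hint]
            exact ⟨hG hx, hxU⟩
      _ ≤ volume (G ∩ Ub m ε) + volume (frontier (Kb m ε)) := measure_union_le _ _
      _ = volume (G ∩ Ub m ε) := by rw [hfr, add_zero]
  have hvK : volume (Kb m ε) = ENNReal.ofReal (ε ^ m) * volume (Ub m 1) := by
    have := (h4 m ε (Ub m 1) hm1 hε hop1.measurableSet).2.1
    rw [← this, hLsU, ← hKU (Kb m ε) subset_rfl]
    congr 1
    rw [← hcl]
    exact (inter_eq_self_of_subset_right subset_closure)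
  have hvF : volume F = ENNReal.ofReal (ε ^ m) * volume (A ∩ Ub m 1) := by
    rw [← hvA, hKU F hFK]
  have hKfin : volume (Kb m ε) ≠ ∞ := hcp.measure_lt_top.ne
  have hFfin : volume F ≠ ∞ := ne_top_of_le_ne_top hKfin (measure_mono hFK)
  have hFr' : (volume F).toReal = ε ^ m * (volume (A ∩ Ub m 1)).toReal := by rw [hvF, hscale]
  have hKr : (volume (Kb m ε)).toReal = ε ^ m * vU m := by rw [hvK, hscale, hvUb]
  have hvUpos : 0 < vU m := by linarith
  have hKpos : 0 < (volume (Kb m ε)).toReal := by rw [hKr]; positivity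
  have hFpos : 0 < (volume F).toReal := by rw [hFr']; positivity
  set t' : ℝ := (volume F).toReal / (volume (Kb m ε)).toReal with ht'
  have ht0 : 0 < t' := by positivity
  have ht1 : t' < 1 := by
    rw [ht', div_lt_one hKpos, hFr', hKr]
    apply mul_lt_mul_of_pos_left _ hs
    linarith
  have hvol : volume F = ENNReal.ofReal t' * volume (Kb m ε) := by
    rw [← ENNReal.ofReal_toReal hKfin, ← ENNReal.ofReal_toReal hFfin, ← ENNReal.ofReal_mul ht0.le,
      ht', div_mul_cancel₀ _ hKpos.ne']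
  -- Per is local
  have hloc : ∀ G : Set (E (2 + m)), Per (Ub m ε) G = Per (Ub m ε) (G ∩ Ub m ε) := by
    intro G
    apply h6 (2 + m) (Ub m ε) G (G ∩ Ub m ε) hop
    have : symmDiff G (G ∩ Ub m ε) ∩ Ub m ε = ∅ := by
      ext x
      simp only [mem_inter_iff, Set.mem_symmDiff, mem_empty_iff_false, iff_false]
      tauto
    rw [this, measure_empty]
  obtain ⟨v, hv, hg⟩ := hF (2 + m) (by omega) (Kb m ε) hcv hcp (by rw [hint]; exact hne) hsym t' ht0
    ht1 F hFK hFc hFr hvol (by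
      intro G hGK hGc hGr hGv
      rw [hint]
      by_contra hcon
      push Not at hcon
      have hE2 := h2 (2 + m) (Ub m ε) G (by omega) hop hGc.measurableSet
      have hGlt : c0 (2 + m - 1) * (Measure.hausdorffMeasure (((2 + m : ℕ) : ℝ) - 1) :
          Measure (E (2 + m))) (frontier G ∩ Ub m ε) <
          c0 (2 + m - 1) * (Measure.hausdorffMeasure (((2 + m : ℕ) : ℝ) - 1) :
          Measure (E (2 + m))) (frontier F ∩ Ub m ε) := by
        rw [ENNReal.mul_lt_mul_iff_right (exist0_c0_pos _) (exist0_c0_ne_top _)]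
        exact hcon
      have hPlt : Per (Ub m ε) (G ∩ Ub m ε) < Per (Ub m ε) (F ∩ Ub m ε) := by
        rw [← hloc, ← hloc]
        exact lt_of_le_of_lt hE2 (lt_of_lt_of_le hGlt hFH)
      have hle := hFmin.le (G ∩ Ub m ε) (hGc.measurableSet.inter hop.measurableSet)
        inter_subset_right (ne_top_of_lt hPlt)
      rw [hKU G hGK, hKU F hFK, hGv, ← hvol] at hle
      have hle' : (Per (Ub m ε) (F ∩ Ub m ε)).toReal ≤ (Per (Ub m ε) (G ∩ Ub m ε)).toReal := by
        linarith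
      have := (ENNReal.toReal_le_toReal hFmin.fin (ne_top_of_lt hPlt)).1 hle'
      exact absurd hPlt (not_lt.2 this))
  rw [hint] at hg
  have hinj : Function.Injective (Ls ε : E (2 + m) → E (2 + m)) := φ.injective
  have hLsv : Ls ε (Ls ε⁻¹ v) = v := by rw [Ls_Ls, mul_inv_cancel₀ hε.ne', Ls_one]
  refine ⟨A, Ls ε⁻¹ v, ⟨hAc, hAr, ?_, ?_⟩, hmin⟩
  · intro h
    apply hv
    rw [← hLsv, h]
    exact (LsE m ε hε.ne').map_zero
  · intro x hx y hy c hyx
    apply hinj
    have hx' : Ls ε x ∈ frontier F ∩ Ub m ε := by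
      have h8 := hx.1
      rw [hAf] at h8
      refine ⟨h8, ?_⟩
      rw [← hLsU]; exact mem_image_of_mem _ hx.2
    have hy' : Ls ε y ∈ frontier F ∩ Ub m ε := by
      have h8 := hy.1
      rw [hAf] at h8
      refine ⟨h8, ?_⟩
      rw [← hLsU]; exact mem_image_of_mem _ hy.2
    apply hg _ hx' _ hy' c
    have h9 : Ls ε y = (LsE m ε hε.ne') (x + c • Ls ε⁻¹ v) := by rw [← hyx]; rfl
    rw [h9, map_add, map_smul, LsE_apply, LsE_apply, hLsv]

end Pool.Agent.Lib.MP_c95dcf_gt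
end
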