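import Pool.Agent.Lib.MP_c95dcf_gt.Mg.G002

section

/-!
# MP_c95dcf_gt, part T, task T02: fibre integration in the normalised coordinates
-/

set_option autoImplicit false

open MeasureTheory Set Filter Topology
open scoped ENNReal NNReal RealInnerProductSpace

namespace Pool.Agent.Lib.MP_c95dcf_gt

variable {m : ℕ}

/-- The set in the normalised coordinates. -/
def fibS (m : ℕ) (A : Set (E (2 + m))) : Set (ℂ × E m) :=
  {q | q.1 ∈ Metric.ball (0 : ℂ) m ∧ jn q.1 (wp m ‖q.1‖ • q.2) ∈ A}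

theorem fib_measurable_wp (m : ℕ) : Measurable (fun c : ℂ => wp m ‖c‖) := by
  unfold wp
  exact measurable_const.max (measurable_const.sub (measurable_norm.div_const _))

theorem fib_measurable_Wp (m : ℕ) : Measurable (fun c : ℂ => Wp m ‖c‖) :=
  (fib_measurable_wp m).pow_const m

theorem fib_Wp_nonneg (m : ℕ) (r : ℝ) : 0 ≤ Wp m r := pow_nonneg (wp_nonneg m r) m

theorem fib_wp_le_one {r : ℝ} (hr : 0 ≤ r) : wp m r ≤ 1 := by
  unfold wp
  refine max_le zero_le_one ?_
  have : 0 ≤ r / m := div_nonneg hr (Nat.cast_nonneg m)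
  linarith

theorem fib_Wp_le_one {r : ℝ} (hr : 0 ≤ r) : Wp m r ≤ 1 :=
  pow_le_one₀ (wp_nonneg m r) (fib_wp_le_one hr)

theorem fib_measurable_Phi (m : ℕ) :
    Measurable (fun q : ℂ × E m => (jn q.1 (wp m ‖q.1‖ • q.2) : E (2 + m))) := by
  have h : Measurable (fun q : ℂ × E m => ((q.1, wp m ‖q.1‖ • q.2) : ℂ × E m)) :=
    measurable_fst.prodMk (((fib_measurable_wp m).comp measurable_fst).smul measurable_snd)
  exact measurable_jn.comp h

theorem fib_measurableSet_S {A : Set (E (2 + m))} (hA : MeasurableSet A) :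
    MeasurableSet (fibS m A) :=
  (measurable_fst measurableSet_ball).inter (fib_measurable_Phi m hA)

theorem fib_mem_S {A : Set (E (2 + m))} (c : ℂ) (ζ : E m) :
    (c, ζ) ∈ fibS m A ↔ c ∈ As m A ζ := Iff.rfl

theorem fib_measurableSet_As {A : Set (E (2 + m))} (hA : MeasurableSet A) (ζ : E m) :
    MeasurableSet (As m A ζ) :=
  (measurable_prodMk_right (y := ζ)) (fib_measurableSet_S hA)

theorem fib_As_empty (hm : 0 < m) {A : Set (E (2 + m))} (hA : A ⊆ Ub m 1) {ζ : E m}
    (hζ : ζ ∉ Metric.ball (0 : E m) 1) : As m A ζ = ∅ := by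
  ext c
  simp only [As, Set.mem_ofPred_eq, mem_empty_iff_false, iff_false, not_and]
  intro hc h
  rw [mem_ball_zero_iff] at hc
  exact hζ (mem_ball_zero_iff.2 ((jn_wp_mem hm hc ζ).1 (hA h)))

/-- The joint integrand. -/
theorem fib_setIntegral {A : Set (E (2 + m))} (hA : MeasurableSet A) (θ : ℂ → E m → ℝ) (ζ : E m) :
    ∫ c in As m A ζ, θ c ζ * Wp m ‖c‖ =
      ∫ c, (fibS m A).indicator (fun q : ℂ × E m => θ q.1 q.2 * Wp m ‖q.1‖) (c, ζ) := by
  rw [← integral_indicator (fib_measurableSet_As hA ζ)]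
  rfl

theorem fib_measurable_F {A : Set (E (2 + m))} (hA : MeasurableSet A) (θ : ℂ → E m → ℝ)
    (hθ : Measurable (fun q : ℂ × E m => θ q.1 q.2)) :
    Measurable ((fibS m A).indicator (fun q : ℂ × E m => θ q.1 q.2 * Wp m ‖q.1‖)) :=
  (hθ.mul ((fib_measurable_Wp m).comp measurable_fst)).indicator (fib_measurableSet_S hA)

theorem fib_measurable {A : Set (E (2 + m))} (hA : MeasurableSet A) (θ : ℂ → E m → ℝ)
    (hθ : Measurable (fun q : ℂ × E m => θ q.1 q.2)) :
    Measurable fun ζ => ∫ c in As m A ζ, θ c ζ * Wp m ‖c‖ := by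
  simp_rw [fib_setIntegral hA θ]
  exact ((fib_measurable_F hA θ hθ).stronglyMeasurable.integral_prod_left').measurable

theorem fib_integrable_F (hm : 0 < m) {A : Set (E (2 + m))} (hA : MeasurableSet A)
    (hAU : A ⊆ Ub m 1) (θ : ℂ → E m → ℝ) (C : ℝ)
    (hθ : Measurable (fun q : ℂ × E m => θ q.1 q.2)) (hC : ∀ c ζ, |θ c ζ| ≤ C) :
    Integrable ((fibS m A).indicator (fun q : ℂ × E m => θ q.1 q.2 * Wp m ‖q.1‖))
      ((volume : Measure ℂ).prod (volume : Measure (E m))) := by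
  have hC0 : 0 ≤ C := (abs_nonneg _).trans (hC 0 0)
  have hsub : fibS m A ⊆ Metric.ball (0 : ℂ) m ×ˢ Metric.ball (0 : E m) 1 := by
    rintro ⟨c, ζ⟩ h
    refine ⟨h.1, ?_⟩
    by_contra hζ
    have := fib_As_empty hm hAU hζ
    have h' : c ∈ As m A ζ := h
    rw [this] at h'
    exact h'
  have hfin : ((volume : Measure ℂ).prod (volume : Measure (E m))) (fibS m A) < ∞ := by
    refine (measure_mono hsub).trans_lt ?_
    rw [Measure.prod_prod]
    exact ENNReal.mul_lt_top measure_ball_lt_top measure_ball_lt_top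
  rw [integrable_indicator_iff (fib_measurableSet_S hA)]
  refine Measure.integrableOn_of_bounded (M := C) hfin.ne
    (hθ.mul ((fib_measurable_Wp m).comp measurable_fst)).aestronglyMeasurable ?_
  refine Eventually.of_forall fun q => ?_
  rw [Real.norm_eq_abs, abs_mul]
  calc |θ q.1 q.2| * |Wp m ‖q.1‖| ≤ C * 1 := by
        refine mul_le_mul (hC _ _) ?_ (abs_nonneg _) hC0
        rw [abs_of_nonneg (fib_Wp_nonneg m _)]
        exact fib_Wp_le_one (norm_nonneg _)
    _ = C := mul_one C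

theorem fib_integrable_G (hm : 0 < m) {A : Set (E (2 + m))} (hA : MeasurableSet A)
    (hAU : A ⊆ Ub m 1) (θ : ℂ → E m → ℝ) (C : ℝ)
    (hθ : Measurable (fun q : ℂ × E m => θ q.1 q.2)) (hC : ∀ c ζ, |θ c ζ| ≤ C) :
    Integrable (A.indicator (fun p : E (2 + m) => θ (px p) (zt m p))) := by
  have hbd : Bornology.IsBounded (Ub m 1) := by
    refine (Metric.isBounded_ball (x := (0 : E (2 + m))) (r := (m : ℝ) + 1)).subset ?_
    intro p hp
    rw [mem_ball_zero_iff]
    have h1 := px_lt_of_mem hm hp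
    have h2 : ‖pz p‖ < 1 := lt_of_lt_of_le ((mem_Ub_one hm p).1 hp) (fib_wp_le_one (norm_nonneg _))
    calc ‖p‖ = ‖jn (px p) (pz p)‖ := by rw [jn_px_pz]
      _ ≤ ‖px p‖ + ‖pz p‖ := norm_jn_le _ _
      _ < m + 1 := by linarith
  have hfin : volume A < ∞ := (measure_mono hAU).trans_lt hbd.measure_lt_top
  have hmz : Measurable (fun p : E (2 + m) => zt m p) := by
    unfold zt
    exact (((fib_measurable_wp m).comp measurable_px).inv).smul measurable_pz
  have hmeas : Measurable (fun p : E (2 + m) => θ (px p) (zt m p)) :=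
    hθ.comp (measurable_px.prodMk hmz)
  rw [integrable_indicator_iff hA]
  exact Measure.integrableOn_of_bounded (M := C) hfin.ne hmeas.aestronglyMeasurable
    (Eventually.of_forall fun p => by rw [Real.norm_eq_abs]; exact hC _ _)

/-- The inner substitution. -/
theorem fib_inner (hm : 0 < m) {A : Set (E (2 + m))} (hAU : A ⊆ Ub m 1)
    (θ : ℂ → E m → ℝ) (c : ℂ) :
    ∫ z : E m, A.indicator (fun p : E (2 + m) => θ (px p) (zt m p)) (jn c z) =
      ∫ ζ : E m, (fibS m A).indicator (fun q : ℂ × E m => θ q.1 q.2 * Wp m ‖q.1‖) (c, ζ) := by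
  by_cases hc : ‖c‖ < m
  · have hw : 0 < wp m ‖c‖ := (wp_of_lt hm hc).2
    have h := Measure.integral_comp_smul (volume : Measure (E m))
      (fun z : E m => A.indicator (fun p : E (2 + m) => θ (px p) (zt m p)) (jn c z)) (wp m ‖c‖)
    rw [finrank_euclideanSpace, Fintype.card_fin, abs_of_nonneg (inv_nonneg.2 (pow_nonneg hw.le _)),
      smul_eq_mul] at h
    have h2 : ∫ z : E m, A.indicator (fun p : E (2 + m) => θ (px p) (zt m p)) (jn c z) =
        Wp m ‖c‖ * ∫ ζ : E m, A.indicator (fun p : E (2 + m) => θ (px p) (zt m p))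
          (jn c (wp m ‖c‖ • ζ)) := by
      rw [h, Wp, ← mul_assoc, mul_inv_cancel₀ (pow_ne_zero _ hw.ne'), one_mul]
    rw [h2, ← integral_const_mul]
    refine integral_congr_ae (Eventually.of_forall fun ζ => ?_)
    by_cases hA : jn c (wp m ‖c‖ • ζ) ∈ A
    · have hS : (c, ζ) ∈ fibS m A := ⟨mem_ball_zero_iff.2 hc, hA⟩
      simp only [indicator_of_mem hA, indicator_of_mem hS, px_jn, zt_jn hm hc]
      ring
    · have hS : (c, ζ) ∉ fibS m A := fun h => hA h.2
      simp only [indicator_of_notMem hA, indicator_of_notMem hS, mul_zero]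
  · have h1 : ∀ z : E m, A.indicator (fun p : E (2 + m) => θ (px p) (zt m p)) (jn c z) = 0 := by
      intro z
      refine indicator_of_notMem (fun h => hc ?_) _
      have := px_lt_of_mem hm (hAU h)
      rwa [px_jn] at this
    have h2 : ∀ ζ : E m,
        (fibS m A).indicator (fun q : ℂ × E m => θ q.1 q.2 * Wp m ‖q.1‖) (c, ζ) = 0 := by
      intro ζ
      exact indicator_of_notMem (fun h => hc (mem_ball_zero_iff.1 h.1)) _
    simp [h1, h2]

theorem fib_main (hm : 0 < m) {A : Set (E (2 + m))} (hA : MeasurableSet A)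
    (hAU : A ⊆ Ub m 1) (θ : ℂ → E m → ℝ) (C : ℝ)
    (hθ : Measurable (fun q : ℂ × E m => θ q.1 q.2)) (hC : ∀ c ζ, |θ c ζ| ≤ C) :
    ∫ p in A, θ (px p) (zt m p) =
      ∫ ζ in Metric.ball (0 : E m) 1, ∫ c in As m A ζ, θ c ζ * Wp m ‖c‖ := by
  rw [← integral_indicator hA, integral_split _ (fib_integrable_G hm hA hAU θ C hθ hC)]
  simp_rw [fib_inner hm hAU θ]
  have hsw := integral_integral_swap (μ := (volume : Measure ℂ)) (ν := (volume : Measure (E m)))
    (f := fun c ζ => (fibS m A).indicator (fun q : ℂ × E m => θ q.1 q.2 * Wp m ‖q.1‖) (c, ζ))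
    (fib_integrable_F hm hA hAU θ C hθ hC)
  rw [hsw]
  simp_rw [fib_setIntegral hA θ]
  rw [← setIntegral_univ (μ := (volume : Measure (E m)))]
  refine setIntegral_eq_of_subset_of_forall_sdiff_eq_zero MeasurableSet.univ (subset_univ _) ?_
  intro ζ hζ
  rw [← fib_setIntegral hA θ, fib_As_empty hm hAU hζ.2]
  simp

theorem fib_V0 {A : Set (E (2 + m))} (ζ : E m) :
    V0 m (As m A ζ) = ∫ c in As m A ζ, (fun (_ : ℂ) (_ : E m) => (1 : ℝ)) c ζ * Wp m ‖c‖ := by
  have : As m A ζ ∩ Metric.ball (0 : ℂ) m = As m A ζ :=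
    inter_eq_left.2 fun c hc => hc.1
  simp only [V0, this, one_mul]

theorem fib_integrableOn_Wp (m : ℕ) : IntegrableOn (fun c : ℂ => Wp m ‖c‖) (Metric.ball 0 m) :=
  Measure.integrableOn_of_bounded (M := 1) measure_ball_lt_top.ne
    (fib_measurable_Wp m).aestronglyMeasurable (Eventually.of_forall fun c => by
      rw [Real.norm_of_nonneg (fib_Wp_nonneg m _)]
      exact fib_Wp_le_one (norm_nonneg _))

/-- Task T02. -/
theorem fib : Stmt_Fib := by
  intro m A hm2 hA hAU
  have hm : 0 < m := by omega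
  refine ⟨fib_measurableSet_As hA, fun θ C hθ hC => ⟨fib_measurable hA θ hθ,
    fib_main hm hA hAU θ C hθ hC⟩, ?_, ?_, ?_⟩
  · simp_rw [fib_V0]
    exact fib_measurable hA _ measurable_const
  · intro ζ
    constructor
    · exact integral_nonneg fun c => fib_Wp_nonneg m _
    · unfold V0
      rw [univ_inter]
      exact setIntegral_mono_set (fib_integrableOn_Wp m)
        (Eventually.of_forall fun c => fib_Wp_nonneg m _)
        (Eventually.of_forall inter_subset_right)
  · simp_rw [fib_V0]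
    rw [← fib_main hm hA hAU (fun _ _ => (1 : ℝ)) 1 measurable_const (fun _ _ => by simp)]
    simp [Measure.real]

end Pool.Agent.Lib.MP_c95dcf_gt
end

section

set_option autoImplicit false

namespace Pool.Agent.Lib.MP_c95dcf_gt

theorem final_step (hB : Stmt_B) (hT : Stmt_T) (h0 : Stmt_Exist0) : ¬ Frozen := by
  intro hF
  obtain ⟨m, κ, t, hm, hκ, hκ1, ht, ht16, hring, hmid, hmono⟩ := hB
  have hyp : BHyp m κ t := ⟨hm, hκ, hκ1, ht, ht16, hring, hmid, hmono⟩
  obtain ⟨ε₀, hε₀, hε₁, hno⟩ := hT m κ t hyp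
  obtain ⟨ε₂, hε₂, hex⟩ := h0 hF m κ t hyp
  obtain ⟨A, e, hbad⟩ := hex (min ε₀ ε₂ / 2) (by positivity) (by
    have := min_le_right ε₀ ε₂
    have h3 : 0 < min ε₀ ε₂ := lt_min hε₀ hε₂
    linarith)
  exact hno (min ε₀ ε₂ / 2) (by positivity) (by
    have := min_le_left ε₀ ε₂
    have h3 : 0 < min ε₀ ε₂ := lt_min hε₀ hε₂
    linarith) A e hbad

end Pool.Agent.Lib.MP_c95dcf_gt
end
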