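import Pool.Agent.Lib.MP_c95dcf_gt.GStmts

section

/-!
# MP_c95dcf_gt: integration by parts
-/

set_option autoImplicit false

open MeasureTheory Set Filter Topology
open scoped ENNReal NNReal RealInnerProductSpace

namespace Pool.Agent.Lib.MP_c95dcf_gt

lemma ibp_coord_fderiv {n : ℕ} {X : E n → E n} (hX : ContDiff ℝ 1 X) (x v : E n) (i : Fin n) :
    fderiv ℝ (fun y => X y i) x v = (fderiv ℝ X x v) i := by
  have h1 : DifferentiableAt ℝ X x := (hX.differentiable one_ne_zero) x
  have h2 := ((EuclideanSpace.proj (𝕜 := ℝ) i : E n →L[ℝ] ℝ).hasFDerivAt (x := X x)).comp x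
    h1.hasFDerivAt
  have h3 : fderiv ℝ (fun y => X y i) x =
      (EuclideanSpace.proj (𝕜 := ℝ) i : E n →L[ℝ] ℝ).comp (fderiv ℝ X x) := h2.fderiv
  rw [h3]
  rfl

lemma ibp_coord_contDiff {n : ℕ} {X : E n → E n} (hX : ContDiff ℝ 1 X) (i : Fin n) :
    ContDiff ℝ 1 (fun y => X y i) :=
  (EuclideanSpace.proj (𝕜 := ℝ) i : E n →L[ℝ] ℝ).contDiff.comp hX

lemma ibp_sum_single {n : ℕ} (w : E n) :
    w = ∑ i, w i • EuclideanSpace.single i (1 : ℝ) := by
  ext j
  simp [Finset.sum_apply, Pi.single_apply]

lemma ibp_linear_apply {n : ℕ} (L : E n →L[ℝ] ℝ) (w : E n) :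
    L w = ∑ i, w i * L (EuclideanSpace.single i (1 : ℝ)) := by
  conv_lhs => rw [ibp_sum_single w]
  rw [map_sum]
  exact Finset.sum_congr rfl fun i _ => by rw [map_smul, smul_eq_mul]

lemma ibp_integrable {n : ℕ} {K : Set (E n)} (hK : IsCompact K) {f : E n → ℝ}
    (hf : ContinuousOn f K) (h0 : ∀ x, x ∉ K → f x = 0) : Integrable f := by
  have h1 : IntegrableOn f K := hf.integrableOn_compact hK
  refine (integrableOn_iff_integrable_of_support_subset ?_).1 h1
  intro x hx
  by_contra h
  exact hx (h0 x h)

theorem ibp : Stmt_IBP := by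
  intro n U u X hU hu hX
  have hK : IsCompact (tsupport X) := hX.comp
  have hX0 : ∀ x, x ∉ tsupport X → X x = 0 := fun x hx => image_eq_zero_of_notMem_tsupport hx
  have hdX0 : ∀ x, x ∉ tsupport X → fderiv ℝ X x = 0 := fun x hx => fderiv_of_notMem_tsupport ℝ hx
  have hdv0 : ∀ x, x ∉ tsupport X → dv X x = 0 := by
    intro x hx
    simp [dv, hdX0 x hx]
  have hucont : ContinuousOn u (tsupport X) := hu.continuousOn.mono hX.supp
  have hdu : ContinuousOn (fderiv ℝ u) (tsupport X) :=
    (hu.continuousOn_fderiv_of_isOpen hU le_rfl).mono hX.supp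
  have hXc : Continuous X := hX.diff.continuous
  have hdX : Continuous (fderiv ℝ X) := hX.diff.continuous_fderiv one_ne_zero
  rw [setIntegral_eq_integral_of_forall_compl_eq_zero
      (fun x hx => by rw [hdv0 x (fun h => hx (hX.supp h)), mul_zero]),
    setIntegral_eq_integral_of_forall_compl_eq_zero
      (fun x hx => by rw [hX0 x (fun h => hx (hX.supp h)), map_zero])]
  have key : ∀ i : Fin n, ∫ x, u x * (fderiv ℝ X x (EuclideanSpace.single i (1 : ℝ))) i =
      - ∫ x, X x i * fderiv ℝ u x (EuclideanSpace.single i (1 : ℝ)) := by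
    intro i
    have hts : tsupport (fun y => X y i) ⊆ tsupport X := by
      refine closure_mono ?_
      intro y hy hy'
      exact hy (by simp [hy'])
    have h1 := integral_mul_fderiv_eq_neg_fderiv_mul_of_integrable (μ := (volume : Measure (E n)))
      (f := u) (g := fun y => X y i) (v := EuclideanSpace.single i (1 : ℝ))
      (ibp_integrable hK ((hdu.clm_apply continuousOn_const).mul
          (ibp_coord_contDiff hX.diff i).continuous.continuousOn)
        (fun x hx => by simp [hX0 x hx]))
      (ibp_integrable hK (hucont.mul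
          (((ibp_coord_contDiff hX.diff i).continuous_fderiv one_ne_zero).clm_apply
            continuous_const).continuousOn)
        (fun x hx => by rw [ibp_coord_fderiv hX.diff, hdX0 x hx]; simp))
      (ibp_integrable hK (hucont.mul (ibp_coord_contDiff hX.diff i).continuous.continuousOn)
        (fun x hx => by simp [hX0 x hx]))
      (fun x hx => (hu.differentiableOn one_ne_zero).differentiableAt
        (hU.mem_nhds (hX.supp (hts hx))))
      (fun x _ => (ibp_coord_contDiff hX.diff i).differentiable one_ne_zero x)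
    simp only [ibp_coord_fderiv hX.diff] at h1
    rw [h1]
    congr 1
    exact integral_congr_ae (Filter.Eventually.of_forall fun x => mul_comm _ _)
  have e1 : ∀ x, u x * dv X x =
      ∑ i, u x * (fderiv ℝ X x (EuclideanSpace.single i (1 : ℝ))) i := by
    intro x
    rw [dv, Finset.mul_sum]
  have e2 : ∀ x, fderiv ℝ u x (X x) =
      ∑ i, X x i * fderiv ℝ u x (EuclideanSpace.single i (1 : ℝ)) :=
    fun x => ibp_linear_apply _ _
  simp only [e1, e2]
  rw [integral_finsetSum, integral_finsetSum, ← Finset.sum_neg_distrib]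
  · exact Finset.sum_congr rfl fun i _ => key i
  · intro i _
    exact ibp_integrable hK ((ibp_coord_contDiff hX.diff i).continuous.continuousOn.mul
      (hdu.clm_apply continuousOn_const)) (fun x hx => by simp [hX0 x hx])
  · intro i _
    refine ibp_integrable hK (hucont.mul ?_) (fun x hx => by rw [hdX0 x hx]; simp)
    have : Continuous fun x => (fderiv ℝ X x (EuclideanSpace.single i (1 : ℝ))) i := by
      have h2 : Continuous fun x => fderiv ℝ X x (EuclideanSpace.single i (1 : ℝ)) :=
        hdX.clm_apply continuous_const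
      exact (EuclideanSpace.proj (𝕜 := ℝ) i : E n →L[ℝ] ℝ).continuous.comp h2
    exact this.continuousOn

end Pool.Agent.Lib.MP_c95dcf_gt
end

section

/-!
# MP_c95dcf_gt: mollification kernels
-/

set_option autoImplicit false

open MeasureTheory Set Filter Topology
open scoped ENNReal NNReal RealInnerProductSpace

namespace Pool.Agent.Lib.MP_c95dcf_gt

/-- The bump function of radius `1 / (k + 1)`. -/
noncomputable def kernBump (n k : ℕ) : ContDiffBump (0 : E n) where
  rIn := 1 / (2 * (k + 1 : ℝ))
  rOut := 1 / (k + 1 : ℝ)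
  rIn_pos := by positivity
  rIn_lt_rOut := by
    have h : (0 : ℝ) < k + 1 := by positivity
    rw [one_div_lt_one_div (by positivity) h]
    linarith

theorem kern : Stmt_Kern := by
  intro n
  refine ⟨fun k => (kernBump n k).normed volume, ?_, ?_, ?_, ?_, ?_⟩
  · intro k
    exact (kernBump n k).contDiff_normed
  · intro k x
    exact (kernBump n k).nonneg_normed x
  · intro k x
    exact (kernBump n k).normed_neg x
  · intro k
    rw [(kernBump n k).tsupport_normed_eq]
    exact subset_rfl
  · intro k
    exact (kernBump n k).integral_normed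

end Pool.Agent.Lib.MP_c95dcf_gt
end
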