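import Pool.Agent.Lib.MP_c95dcf_gt.Mg.G002

section

/-!
# MP_c95dcf_gt, part T: the basic identity
-/

set_option autoImplicit false

open MeasureTheory Set Filter Topology
open scoped ENNReal NNReal RealInnerProductSpace

namespace Pool.Agent.Lib.MP_c95dcf_gt

namespace IdentAux

variable {m : ℕ}

/-- `px` as a continuous linear map. -/
noncomputable def pxC (m : ℕ) : E (2 + m) →L[ℝ] ℂ :=
  (ContinuousLinearMap.fst ℝ ℂ (E m)).comp (splitL m : E (2 + m) →L[ℝ] ℂ × E m)

/-- `pz` as a continuous linear map. -/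
noncomputable def pzC (m : ℕ) : E (2 + m) →L[ℝ] E m :=
  (ContinuousLinearMap.snd ℝ ℂ (E m)).comp (splitL m : E (2 + m) →L[ℝ] ℂ × E m)

@[simp] theorem pxC_apply (p : E (2 + m)) : pxC m p = px p := rfl
@[simp] theorem pzC_apply (p : E (2 + m)) : pzC m p = pz p := rfl

theorem hasFDerivAt_px (p : E (2 + m)) : HasFDerivAt (px : E (2 + m) → ℂ) (pxC m) p :=
  (pxC m).hasFDerivAt

theorem hasFDerivAt_pz (p : E (2 + m)) : HasFDerivAt (pz : E (2 + m) → E m) (pzC m) p :=
  (pzC m).hasFDerivAt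

theorem inner_C (a b : ℂ) : ⟪a, b⟫ = a.re * b.re + a.im * b.im := by
  rw [Complex.inner]
  simp
  ring

/-! ### the profile -/

theorem continuous_wpn (m : ℕ) : Continuous (fun c : ℂ => wp m ‖c‖) := by
  unfold wp
  fun_prop

theorem mem_Dp {c : ℂ} : c ∈ Dp m ↔ ‖c‖ < m ∧ c ≠ 0 := by
  simp [Dp]

theorem isOpen_Dp (m : ℕ) : IsOpen (Dp m) :=
  Metric.isOpen_ball.sdiff isClosed_singleton

theorem hasFDerivAt_wpn (hm : 0 < m) {c : ℂ} (hc : c ∈ Dp m) :
    HasFDerivAt (fun c : ℂ => wp m ‖c‖) (innerSL ℝ (gw m c)) c := by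
  have hm' : (0 : ℝ) < m := by exact_mod_cast hm
  obtain ⟨h1, h0⟩ := mem_Dp.1 hc
  have hn : 0 < ‖c‖ := norm_pos_iff.2 h0
  have h2 : HasFDerivAt (fun c : ℂ => 1 - ‖c‖ / m) (innerSL ℝ (gw m c)) c := by
    have h3 : HasFDerivAt (fun c : ℂ => ‖c‖) ((1 / ‖c‖) • innerSL ℝ c) c := by
      have h4 := (hasStrictFDerivAt_norm_sq c).hasFDerivAt.sqrt (by positivity)
      simp only [Real.sqrt_sq (norm_nonneg _)] at h4
      refine h4.congr_fderiv ?_
      ext v
      simp
      field_simp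
    have h5 := (h3.mul_const ((m : ℝ)⁻¹)).const_sub 1
    refine (h5.congr_fderiv ?_).congr_of_eventuallyEq ?_
    · ext v
      simp only [_root_.neg_apply, _root_.smul_apply, innerSL_apply_apply,
        smul_eq_mul, inner_C, gw]
      have e1 : (c / ((m : ℂ) * (‖c‖ : ℂ))) = ((((m : ℝ) * ‖c‖)⁻¹ : ℝ) : ℂ) * c := by
        push_cast
        rw [div_eq_inv_mul]
      rw [e1]
      simp only [Complex.neg_re, Complex.neg_im, Complex.re_ofReal_mul, Complex.im_ofReal_mul]
      field_simp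
      ring
    · refine Eventually.of_forall fun d => ?_
      simp only [div_eq_mul_inv]
  refine h2.congr_of_eventuallyEq ?_
  have h6 : ∀ᶠ d : ℂ in 𝓝 c, ‖d‖ < m := (continuous_norm.tendsto c).eventually (gt_mem_nhds h1)
  filter_upwards [h6] with d hd
  exact (wp_of_lt hm hd).1

theorem contDiffAt_wpn (hm : 0 < m) {c : ℂ} (hc : c ∈ Dp m) :
    ContDiffAt ℝ 1 (fun c : ℂ => wp m ‖c‖) c := by
  obtain ⟨h1, h0⟩ := mem_Dp.1 hc
  have h2 : ContDiffAt ℝ 1 (fun c : ℂ => 1 - ‖c‖ / m) c :=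
    contDiffAt_const.sub ((contDiffAt_norm ℝ h0).div_const _)
  refine h2.congr_of_eventuallyEq ?_
  have h6 : ∀ᶠ d : ℂ in 𝓝 c, ‖d‖ < m := (continuous_norm.tendsto c).eventually (gt_mem_nhds h1)
  filter_upwards [h6] with d hd
  exact (wp_of_lt hm hd).1

theorem wpn_pos (hm : 0 < m) {c : ℂ} (hc : c ∈ Dp m) : 0 < wp m ‖c‖ :=
  (wp_of_lt hm (mem_Dp.1 hc).1).2

theorem contDiffAt_gw (hm : 0 < m) {c : ℂ} (hc : c ≠ 0) : ContDiffAt ℝ 1 (gw m) c := by
  have hm' : (m : ℂ) ≠ 0 := by exact_mod_cast hm.ne'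
  unfold gw
  simp only [div_eq_mul_inv]
  refine (contDiffAt_id.mul ((contDiffAt_const.mul ?_).inv ?_)).neg
  · exact Complex.ofRealCLM.contDiff.contDiffAt.comp c (contDiffAt_norm ℝ hc)
  · exact mul_ne_zero hm' (by exact_mod_cast (norm_pos_iff.2 hc).ne')

/-- The function `⟪Y, ∇w⟫`. -/
noncomputable def gI (m : ℕ) (Y : ℂ → ℂ) (c : ℂ) : ℝ := ⟪Y c, gw m c⟫

theorem contDiffAt_gI (hm : 0 < m) {Y : ℂ → ℂ} (hY : ContDiff ℝ 1 Y) {c : ℂ} (hc : c ∈ Dp m) :
    ContDiffAt ℝ 1 (gI m Y) c :=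
  hY.contDiffAt.inner ℝ (contDiffAt_gw hm (mem_Dp.1 hc).2)

/-- The function `div Y + m ⟪Y, ∇w⟫ / w`. -/
noncomputable def kI (m : ℕ) (Y : ℂ → ℂ) (c : ℂ) : ℝ := dvc Y c + m * gI m Y c / wp m ‖c‖

theorem continuous_dvc {Y : ℂ → ℂ} (hY : ContDiff ℝ 1 Y) : Continuous (dvc Y) := by
  have h := hY.continuous_fderiv one_ne_zero
  unfold dvc
  exact (Complex.continuous_re.comp (h.clm_apply continuous_const)).add
    (Complex.continuous_im.comp (h.clm_apply continuous_const))

theorem eventually_Y_zero {Y : ℂ → ℂ} {c : ℂ} (hc : c ∉ tsupport Y) : ∀ᶠ d in 𝓝 c, Y d = 0 := by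
  have h1 : (tsupport Y)ᶜ ∈ 𝓝 c := (isClosed_tsupport Y).isOpen_compl.mem_nhds hc
  filter_upwards [h1] with d hd
  exact image_eq_zero_of_notMem_tsupport hd

theorem dvc_eq_zero {Y : ℂ → ℂ} {c : ℂ} (h : ∀ᶠ d in 𝓝 c, Y d = 0) : dvc Y c = 0 := by
  have h1 : Y =ᶠ[𝓝 c] fun _ => 0 := h
  unfold dvc
  rw [h1.fderiv_eq]
  simp

theorem kI_eq_zero {Y : ℂ → ℂ} {c : ℂ} (hc : c ∉ tsupport Y) : kI m Y c = 0 := by
  have h := eventually_Y_zero hc
  rw [kI, dvc_eq_zero h, gI, h.self_of_nhds]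
  simp

theorem continuous_kI (hm : 0 < m) {Y : ℂ → ℂ} (hY : TFc (Dp m) Y) : Continuous (kI m Y) := by
  rw [continuous_iff_continuousAt]
  intro c
  by_cases hc : c ∈ tsupport Y
  · have hc' := hY.supp hc
    refine (continuous_dvc hY.diff).continuousAt.add ?_
    exact (continuousAt_const.mul (contDiffAt_gI hm hY.diff hc').continuousAt).div
      (continuous_wpn m).continuousAt (wpn_pos hm hc').ne'
  · have h1 : (tsupport Y)ᶜ ∈ 𝓝 c := (isClosed_tsupport Y).isOpen_compl.mem_nhds hc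
    have h2 : kI m Y =ᶠ[𝓝 c] fun _ => 0 := by
      filter_upwards [h1] with d hd
      exact kI_eq_zero hd
    exact (continuousAt_const (y := (0 : ℝ))).congr h2.symm

theorem exists_bound_kI (hm : 0 < m) {Y : ℂ → ℂ} (hY : TFc (Dp m) Y) :
    ∃ C : ℝ, ∀ c, |kI m Y c| ≤ C := by
  have hcs : HasCompactSupport (kI m Y) := by
    refine HasCompactSupport.intro hY.comp fun c hc => kI_eq_zero hc
  obtain ⟨C, hC⟩ := (continuous_kI hm hY).bounded_above_of_compact_support hcs
  exact ⟨C, fun c => by simpa using hC c⟩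

/-- The weighted divergence. -/
theorem dvW_eq (hm : 0 < m) {Y : ℂ → ℂ} (hY : TFc (Dp m) Y) (c : ℂ) :
    kI m Y c * Wp m ‖c‖ = dvW m Y c := by
  by_cases hc : c ∈ tsupport Y
  · have hc' := hY.supp hc
    have hw := hasFDerivAt_wpn hm hc'
    have hw0 := wpn_pos hm hc'
    have hYd : HasFDerivAt Y (fderiv ℝ Y c) c :=
      ((hY.diff.differentiable one_ne_zero) c).hasFDerivAt
    have hW : HasFDerivAt (fun c : ℂ => Wp m ‖c‖)
        (((m : ℝ) * wp m ‖c‖ ^ (m - 1)) • innerSL ℝ (gw m c)) c := by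
      have := hw.pow m
      simpa [Wp, mul_comm] using this
    have h1 : HasFDerivAt (fun c : ℂ => ((Wp m ‖c‖ : ℝ) : ℂ) * Y c)
        ((((Wp m ‖c‖ : ℝ) : ℂ)) • fderiv ℝ Y c +
          (Complex.ofRealCLM.comp (((m : ℝ) * wp m ‖c‖ ^ (m - 1)) • innerSL ℝ (gw m c))).smulRight
            (Y c)) c := by
      have h2 : HasFDerivAt (fun c : ℂ => ((Wp m ‖c‖ : ℝ) : ℂ))
          (Complex.ofRealCLM.comp (((m : ℝ) * wp m ‖c‖ ^ (m - 1)) • innerSL ℝ (gw m c))) c :=
        Complex.ofRealCLM.hasFDerivAt.comp c hW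
      have h3 := h2.mul' hYd
      refine h3.congr_fderiv ?_
      ext v
      simp
      ring
    rw [dvW, dvc, h1.fderiv, kI, gI, dvc]
    have e2 : wp m ‖c‖ ^ m = wp m ‖c‖ ^ (m - 1) * wp m ‖c‖ := by
      rw [← pow_succ, Nat.sub_add_cancel hm]
    simp only [_root_.add_apply, _root_.smul_apply,
      ContinuousLinearMap.smulRight_apply, ContinuousLinearMap.comp_apply, Complex.ofRealCLM_apply,
      innerSL_apply_apply, smul_eq_mul, inner_C, Complex.add_re, Complex.add_im,
      Complex.re_ofReal_mul, Complex.im_ofReal_mul, Complex.one_re, Complex.one_im, Complex.I_re,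
      Complex.I_im, Wp]
    rw [e2]
    field_simp
    ring
  · rw [kI_eq_zero hc, zero_mul, dvW, dvc_eq_zero]
    filter_upwards [eventually_Y_zero hc] with d hd
    rw [hd, mul_zero]

/-! ### the normalised fibre coordinate -/

theorem hasFDerivAt_zt (hm : 0 < m) {p : E (2 + m)} (hp : px p ∈ Dp m) :
    HasFDerivAt (zt m) ((wp m ‖px p‖)⁻¹ • (pzC m -
      ((innerSL ℝ (gw m (px p))).comp (pxC m)).smulRight (zt m p))) p := by
  have hw0 := wpn_pos hm hp
  have h1 : HasFDerivAt (fun q : E (2 + m) => wp m ‖px q‖)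
      ((innerSL ℝ (gw m (px p))).comp (pxC m)) p :=
    (hasFDerivAt_wpn hm hp).comp p (hasFDerivAt_px p)
  have h2 := ((hasDerivAt_inv hw0.ne').comp_hasFDerivAt p h1).smul (hasFDerivAt_pz p)
  refine h2.congr_fderiv ?_
  ext v : 1
  simp only [_root_.add_apply, _root_.smul_apply,
    ContinuousLinearMap.smulRight_apply, ContinuousLinearMap.comp_apply,
    _root_.sub_apply, _root_.neg_apply, pxC_apply, pzC_apply, zt]
  rw [smul_sub, smul_smul, smul_smul, sub_eq_add_neg, ← neg_smul]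
  congr 2
  simp only [smul_eq_mul]
  field_simp

theorem contDiffAt_zt (hm : 0 < m) {p : E (2 + m)} (hp : px p ∈ Dp m) :
    ContDiffAt ℝ 1 (zt m) p := by
  have hw0 := wpn_pos hm hp
  have h1 : ContDiffAt ℝ 1 (fun q : E (2 + m) => wp m ‖px q‖) p :=
    (contDiffAt_wpn hm hp).comp p contDiff_px.contDiffAt
  exact (h1.inv hw0.ne').smul contDiff_pz.contDiffAt

/-! ### the scaled divergence in coordinates -/

theorem single_cast_zero : (EuclideanSpace.single (Fin.castAdd m 0) (1 : ℝ) : E (2 + m)) =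
    jn 1 0 := by
  ext i
  refine Fin.addCases (fun i => ?_) (fun i => ?_) i
  · fin_cases i <;> simp [jn, Fin.ext_iff]
  · simp [jn, Fin.ext_iff]

theorem single_cast_one : (EuclideanSpace.single (Fin.castAdd m 1) (1 : ℝ) : E (2 + m)) =
    jn Complex.I 0 := by
  ext i
  refine Fin.addCases (fun i => ?_) (fun i => ?_) i
  · fin_cases i <;> simp [jn, Fin.ext_iff] <;> omega
  · simp [jn, Fin.ext_iff] <;> omega

theorem single_nat (j : Fin m) : (EuclideanSpace.single (Fin.natAdd 2 j) (1 : ℝ) : E (2 + m)) =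
    jn 0 (EuclideanSpace.single j (1 : ℝ)) := by
  ext i
  refine Fin.addCases (fun i => ?_) (fun i => ?_) i
  · fin_cases i <;> simp [jn, Fin.ext_iff] <;> omega
  · simp [jn, Fin.ext_iff] <;> omega

theorem dve_jn (ε : ℝ) {F1 : E (2 + m) → ℂ} {F2 : E (2 + m) → E m} {F1' : E (2 + m) →L[ℝ] ℂ}
    {F2' : E (2 + m) →L[ℝ] E m} {p : E (2 + m)} (h1 : HasFDerivAt F1 F1' p)
    (h2 : HasFDerivAt F2 F2' p) :
    dve ε (fun q => jn (F1 q) (F2 q)) p = (F1' (jn 1 0)).re + (F1' (jn Complex.I 0)).im +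
      ε⁻¹ * ∑ i : Fin m, (F2' (jn 0 (EuclideanSpace.single i (1 : ℝ)))) i := by
  have h3 : HasFDerivAt (fun q => jn (F1 q) (F2 q))
      (((splitL m).symm : ℂ × E m →L[ℝ] E (2 + m)).comp (F1'.prod F2')) p :=
    ((splitL m).symm : ℂ × E m →L[ℝ] E (2 + m)).hasFDerivAt.comp p (h1.prodMk h2)
  rw [dve, h3.fderiv, Fin.sum_univ_two, single_cast_zero, single_cast_one]
  simp only [single_nat, ContinuousLinearMap.comp_apply, ContinuousLinearMap.prod_apply,
    ContinuousLinearEquiv.coe_coe, splitL_symm_apply]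
  simp [jn]

/-- the test field -/
noncomputable def XI (m : ℕ) (ε : ℝ) (η : E m → ℝ) (Y : ℂ → ℂ) (p : E (2 + m)) : E (2 + m) :=
  jn (η (zt m p) • Y (px p)) ((ε * η (zt m p) * gI m Y (px p)) • zt m p)

theorem XI_eq_zero (ε : ℝ) (η : E m → ℝ) {Y : ℂ → ℂ} {p : E (2 + m)} (h : Y (px p) = 0) :
    XI m ε η Y p = 0 := by
  rw [XI, gI, h]
  simp only [smul_zero, inner_zero_left, mul_zero, zero_smul]
  rw [← jn_px_pz (0 : E (2 + m))]
  simp

theorem dve_XI (hm : 0 < m) {ε : ℝ} (hε : ε ≠ 0) {η : E m → ℝ} (hη : ContDiff ℝ 1 η) {Y : ℂ → ℂ}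
    (hY : TFc (Dp m) Y) (p : E (2 + m)) :
    dve ε (XI m ε η Y) p = η (zt m p) * kI m Y (px p) := by
  by_cases hp : px p ∈ tsupport Y
  · have hp' := hY.supp hp
    have hw0 := wpn_pos hm hp'
    have hz := hasFDerivAt_zt hm hp'
    have hη' : HasFDerivAt η (fderiv ℝ η (zt m p)) (zt m p) :=
      ((hη.differentiable one_ne_zero) _).hasFDerivAt
    have hYd : HasFDerivAt Y (fderiv ℝ Y (px p)) (px p) :=
      ((hY.diff.differentiable one_ne_zero) _).hasFDerivAt
    have hg : HasFDerivAt (gI m Y) (fderiv ℝ (gI m Y) (px p)) (px p) :=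
      ((contDiffAt_gI hm hY.diff hp').differentiableAt one_ne_zero).hasFDerivAt
    have h1 := (hη'.comp p hz).smul (hYd.comp p (hasFDerivAt_px p))
    have h2 := (((hη'.comp p hz).const_mul ε).mul (hg.comp p (hasFDerivAt_px p))).smul hz
    have h3 := dve_jn ε h1 h2
    have h4 : dve ε (XI m ε η Y) p = _ := h3
    rw [h4]
    set L := fderiv ℝ η (zt m p) with hL
    set w := wp m ‖px p‖ with hw
    -- the sum over the fibre directions
    have hsum : ∀ i : Fin m, L (EuclideanSpace.single i (1 : ℝ)) * (zt m p) i =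
        L ((zt m p) i • EuclideanSpace.single i (1 : ℝ)) := by
      intro i
      rw [map_smul, smul_eq_mul, mul_comm]
    have hz' : ∑ i : Fin m, (zt m p) i • (EuclideanSpace.single i (1 : ℝ) : E m) = zt m p := by
      ext j
      simp [Finset.sum_apply, Pi.single_apply]
    have hLz : ∑ i : Fin m, L (EuclideanSpace.single i (1 : ℝ)) * (zt m p) i = L (zt m p) := by
      rw [Finset.sum_congr rfl (fun i _ => hsum i), ← map_sum, hz']
    simp only [_root_.add_apply, _root_.smul_apply,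
      ContinuousLinearMap.smulRight_apply, ContinuousLinearMap.comp_apply,
      _root_.sub_apply, pxC_apply, pzC_apply, Function.comp_apply, px_jn, pz_jn,
      innerSL_apply_apply, inner_C, map_zero, smul_zero, zero_smul, add_zero, sub_zero, zero_sub,
      Complex.one_re, Complex.one_im, Complex.I_re, Complex.I_im, mul_one, mul_zero, zero_add,
      map_smul, map_neg, PiLp.add_apply, PiLp.smul_apply, smul_eq_mul, inner_zero_right,
      PiLp.single_apply, if_true, Complex.add_re, Complex.add_im, Complex.smul_re,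
      Complex.smul_im, Complex.real_smul, Complex.re_ofReal_mul, Complex.im_ofReal_mul,
      Pi.mul_apply]
    have hs2 : ∑ i : Fin m, (ε * η (zt m p) * gI m Y (px p) * w⁻¹ +
        gI m Y (px p) * (ε * (w⁻¹ * L (EuclideanSpace.single i (1 : ℝ)))) * (zt m p) i) =
        m * (ε * η (zt m p) * gI m Y (px p) * w⁻¹) + gI m Y (px p) * (ε * w⁻¹) * L (zt m p) := by
      rw [Finset.sum_add_distrib, Finset.sum_const, ← hLz, Finset.mul_sum]
      simp only [Finset.card_univ, Fintype.card_fin, nsmul_eq_mul]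
      congr 1
      refine Finset.sum_congr rfl fun i _ => ?_
      ring
    rw [hs2, kI, dvc, ← hw]
    have hgI : gI m Y (px p) = (Y (px p)).re * (gw m (px p)).re +
      (Y (px p)).im * (gw m (px p)).im := by rw [gI, inner_C]
    field_simp
    rw [hgI]
    ring
  · have h1 : XI m ε η Y =ᶠ[𝓝 p] fun _ => 0 := by
      filter_upwards [(continuous_px.tendsto p).eventually (eventually_Y_zero hp)] with q hq
      exact XI_eq_zero ε η hq
    rw [kI_eq_zero hp, mul_zero, dve, h1.fderiv_eq]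
    simp

theorem contDiff_XI (hm : 0 < m) {ε : ℝ} {η : E m → ℝ} (hη : ContDiff ℝ 1 η) {Y : ℂ → ℂ}
    (hY : TFc (Dp m) Y) : ContDiff ℝ 1 (XI m ε η Y) := by
  rw [contDiff_iff_contDiffAt]
  intro p
  by_cases hp : px p ∈ tsupport Y
  · have hp' := hY.supp hp
    have hz := contDiffAt_zt hm hp'
    have hη' : ContDiffAt ℝ 1 (fun q => η (zt m q)) p := hη.contDiffAt.comp p hz
    have hY' : ContDiffAt ℝ 1 (fun q : E (2 + m) => Y (px q)) p :=
      hY.diff.contDiffAt.comp p contDiff_px.contDiffAt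
    have hg : ContDiffAt ℝ 1 (fun q : E (2 + m) => gI m Y (px q)) p :=
      (contDiffAt_gI hm hY.diff hp').comp p contDiff_px.contDiffAt
    have h1 : ContDiffAt ℝ 1 (fun q : E (2 + m) => η (zt m q) • Y (px q)) p := hη'.smul hY'
    have h2 : ContDiffAt ℝ 1 (fun q : E (2 + m) =>
        (ε * η (zt m q) * gI m Y (px q)) • zt m q) p :=
      ((contDiffAt_const.mul hη').mul hg).smul hz
    exact (contDiff_jn.contDiffAt).comp p (h1.prodMk h2)
  · have h1 : XI m ε η Y =ᶠ[𝓝 p] fun _ => 0 := by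
      filter_upwards [(continuous_px.tendsto p).eventually (eventually_Y_zero hp)] with q hq
      exact XI_eq_zero ε η hq
    exact contDiffAt_const.congr_of_eventuallyEq h1

theorem tf_XI (hm : 0 < m) {ε : ℝ} {η : E m → ℝ} (hη : ContDiff ℝ 1 η)
    (hηc : HasCompactSupport η) (hηs : tsupport η ⊆ Metric.ball 0 1) {Y : ℂ → ℂ}
    (hY : TFc (Dp m) Y) : TF (Ub m 1) (XI m ε η Y) := by
  have hcont : Continuous (fun q : ℂ × E m => (jn q.1 (wp m ‖q.1‖ • q.2) : E (2 + m))) := by
    have h1 : Continuous (fun q : ℂ × E m => (q.1, wp m ‖q.1‖ • q.2)) :=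
      continuous_fst.prodMk (((continuous_wpn m).comp continuous_fst).smul continuous_snd)
    exact continuous_jn.comp h1
  set K : Set (E (2 + m)) :=
    (fun q : ℂ × E m => (jn q.1 (wp m ‖q.1‖ • q.2) : E (2 + m))) '' (tsupport Y ×ˢ tsupport η)
    with hK
  have hKc : IsCompact K := (hY.comp.prod hηc).image hcont
  have hsub : Function.support (XI m ε η Y) ⊆ K := by
    intro p hp
    have hYp : Y (px p) ≠ 0 := fun h => hp (XI_eq_zero ε η h)
    have hηp : η (zt m p) ≠ 0 := by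
      intro h
      apply hp
      rw [XI, h]
      simp only [zero_smul, mul_zero, zero_mul]
      rw [← jn_px_pz (0 : E (2 + m))]
      simp
    have h1 : px p ∈ tsupport Y := subset_tsupport _ hYp
    have h2 : zt m p ∈ tsupport η := subset_tsupport _ hηp
    refine ⟨(px p, zt m p), ⟨h1, h2⟩, ?_⟩
    have h3 := (mem_Dp.1 (hY.supp h1)).1
    simp only
    rw [wp_smul_zt hm h3, jn_px_pz]
  have hts : tsupport (XI m ε η Y) ⊆ K := closure_minimal hsub hKc.isClosed
  refine ⟨contDiff_XI hm hη hY, hKc.of_isClosed_subset (isClosed_tsupport _) hts, ?_⟩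
  refine hts.trans ?_
  rintro _ ⟨⟨c, ζ⟩, ⟨hc, hζ⟩, rfl⟩
  have h3 := (mem_Dp.1 (hY.supp hc)).1
  simp only
  rw [jn_wp_mem hm h3]
  simpa using hηs hζ

end IdentAux

open IdentAux in
theorem ident (h : Stmt_Fib) : Stmt_Ident := by
  intro m ε A lam ν hm hε hA hAU hW η Y hη hηc hηs hY
  have hm0 : 0 < m := by omega
  have hTF := tf_XI (ε := ε) hm0 hη hηc hηs hY
  have hrep := hW.repr _ hTF
  -- the left side
  obtain ⟨_, hfib, _⟩ := h m A hm hA hAU
  obtain ⟨C1, hC1⟩ := exists_bound_kI hm0 hY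
  obtain ⟨C2, hC2⟩ := hη.continuous.bounded_above_of_compact_support hηc
  have hC2' : 0 ≤ C2 := le_trans (norm_nonneg _) (hC2 0)
  obtain ⟨_, hfib2⟩ := hfib (fun c ζ => η ζ * kI m Y c) (C2 * C1)
    ((hη.continuous.measurable.comp measurable_snd).mul
      ((continuous_kI hm0 hY).measurable.comp measurable_fst)) (by
      intro c ζ
      rw [abs_mul]
      exact mul_le_mul (by simpa using hC2 ζ) (hC1 c) (abs_nonneg _) hC2')
  have hL : ∫ p in A, dve ε (XI m ε η Y) p =
      ∫ ζ in Metric.ball (0 : E m) 1, η ζ * ∫ c in As m A ζ, dvW m Y c := by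
    rw [show (∫ p in A, dve ε (XI m ε η Y) p) = ∫ p in A, η (zt m p) * kI m Y (px p) from by
      congr 1
      funext p
      exact dve_XI hm0 hε.ne' hη hY p]
    rw [hfib2]
    congr 1
    funext ζ
    rw [← integral_const_mul]
    congr 1
    funext c
    rw [mul_assoc, dvW_eq hm0 hY c]
  rw [← hL, hrep]
  congr 1
  funext p
  rw [XI, inner_split, px_jn, pz_jn, real_inner_smul_left, real_inner_smul_left, gI,
    real_inner_comm (pz (ν p)) (zt m p)]
  ring

end Pool.Agent.Lib.MP_c95dcf_gt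
end

section

/-!
# MP_c95dcf_gt, task T10: the `L²` bound for relatively clopen pieces of minimisers
-/

set_option autoImplicit false

open MeasureTheory Set Filter Topology
open scoped ENNReal NNReal RealInnerProductSpace

namespace Pool.Agent.Lib.MP_c95dcf_gt

variable {m : ℕ}

theorem l2p_isOpen_Ub (m : ℕ) : IsOpen (Ub m 1) := by
  unfold Ub
  exact isOpen_lt ((continuous_px.norm.div_const _).add (continuous_pz.norm.div_const _))
    continuous_const

theorem l2p_dve_zero {ε : ℝ} {X : E (2 + m) → E (2 + m)} {x : E (2 + m)}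
    (hx : x ∉ tsupport X) : dve ε X x = 0 := by
  have h1 : fderiv ℝ X x = 0 := fderiv_of_notMem_tsupport ℝ hx
  unfold dve
  rw [h1]
  simp

theorem l2p_dve_integrable {ε : ℝ} {X : E (2 + m) → E (2 + m)} (hd : ContDiff ℝ 1 X)
    (hc : HasCompactSupport X) : Integrable (fun x => dve ε X x) := by
  have h1 : Continuous fun x => fderiv ℝ X x := hd.continuous_fderiv one_ne_zero
  have hcoord : ∀ (v : E (2 + m)) (i : Fin (2 + m)), Continuous fun x => (fderiv ℝ X x v) i := by
    intro v i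
    exact (PiLp.continuous_apply 2 _ i).comp (h1.clm_apply continuous_const)
  have h2 : Continuous fun x => dve ε X x := by
    unfold dve
    refine Continuous.add ?_ (Continuous.mul continuous_const ?_)
    · exact continuous_finsetSum _ fun i _ => hcoord _ _
    · exact continuous_finsetSum _ fun i _ => hcoord _ _
  refine h2.integrable_of_hasCompactSupport ?_
  refine HasCompactSupport.intro hc fun x hx => ?_
  exact l2p_dve_zero hx

theorem l2p_null {ε : ℝ} {F : Set (E (2 + m))} {lam : Measure (E (2 + m))}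
    {ν : E (2 + m) → E (2 + m)} (hR : ERep m ε F lam ν) (W : Set (E (2 + m))) (hW : IsOpen W)
    (hWU : W ⊆ Ub m 1) (hd : Disjoint W F) : lam W = 0 := by
  rw [hR.open_eq W hW hWU]
  rw [← le_zero_iff]
  refine iSup₂_le fun X hX => ?_
  have h1 : ∫ x in F, dve ε X x = 0 := by
    have h2 : ∀ x ∈ F, dve ε X x = 0 := by
      intro x hx
      refine l2p_dve_zero fun h3 => ?_
      exact (Set.disjoint_left.1 hd) (hX.1.supp h3) hx
    exact setIntegral_eq_zero_of_forall_eq_zero h2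
  rw [h1]
  simp

theorem l2p_inner_integrable {lam : Measure (E (2 + m))} [IsFiniteMeasure lam]
    {X ν : E (2 + m) → E (2 + m)} (hX : Continuous X) (hc : HasCompactSupport X)
    (hν : Measurable ν) (hu : ∀ x, ‖ν x‖ = 1) : Integrable (fun x => ⟪X x, ν x⟫) lam := by
  obtain ⟨C, hC⟩ := hX.bounded_above_of_compact_support hc
  refine Integrable.of_bound (C := C) ?_ ?_
  · exact (hX.measurable.inner hν).aestronglyMeasurable
  · refine Filter.Eventually.of_forall fun x => ?_
    refine (norm_inner_le_norm _ _).trans ?_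
    rw [hu x, mul_one]
    exact hC x

theorem l2p_pz_integrable {lam : Measure (E (2 + m))} [IsFiniteMeasure lam]
    {ν : E (2 + m) → E (2 + m)} (hν : Measurable ν) (hu : ∀ x, ‖ν x‖ = 1) :
    Integrable (fun x => ‖pz (ν x)‖ ^ 2) lam := by
  refine Integrable.of_bound (C := 1) ?_ ?_
  · exact (((measurable_pz.comp hν).norm).pow_const 2).aestronglyMeasurable
  · refine Filter.Eventually.of_forall fun x => ?_
    have h1 := norm_pz_le (ν x)
    rw [hu x] at h1
    rw [Real.norm_of_nonneg (by positivity)]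
    exact pow_le_one₀ (norm_nonneg _) h1

theorem l2p (h1 : Stmt_L2) (h2 : Stmt_PeProps) : Stmt_L2P := by
  intro m κ t hm hκ hκ1 ht
  obtain ⟨C, hC⟩ := h1 m κ t hm hκ hκ1 ht
  refine ⟨C, ?_⟩
  intro ε hε hε1 A F lam ν hA hFm hFA hcl hR
  obtain ⟨-, -, -, p4, p5, p6, -⟩ := h2 m ε hm hε
  have hAU : A ⊆ Ub m 1 := hA.sub
  have hFU : F ⊆ Ub m 1 := hFA.trans hAU
  have hGm : MeasurableSet (A \ F) := hA.meas.diff hFm
  have hGU : A \ F ⊆ Ub m 1 := sdiff_subset.trans hAU
  have hunion : F ∪ A \ F = A := union_sdiff_cancel hFA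
  have hPe : Pe m ε A = Pe m ε F + Pe m ε (A \ F) := by
    rw [← p4 F (A \ F) hFm hGm (by
      rw [inter_eq_self_of_subset_left hFU, inter_eq_self_of_subset_left hGU]
      exact hcl), hunion]
  have hPeG : Pe m ε (A \ F) ≠ ∞ := by
    intro h
    apply hA.fin
    rw [hPe, h, add_top]
  obtain ⟨lam2, ν2, hR2⟩ := p5 (A \ F) hGm hPeG
  have hfin : IsFiniteMeasure lam := hR.fin
  have hfin2 : IsFiniteMeasure lam2 := hR2.fin
  have hUo := l2p_isOpen_Ub m
  -- the supports
  have hs1 : lam (closure F)ᶜ = 0 := by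
    have h3 : lam (Ub m 1 \ closure F) = 0 := by
      refine l2p_null hR _ (hUo.sdiff isClosed_closure) sdiff_subset ?_
      rw [Set.disjoint_left]
      intro x hx hx2
      exact hx.2 (subset_closure hx2)
    refine le_antisymm ?_ bot_le
    calc lam (closure F)ᶜ ≤ lam ((Ub m 1)ᶜ ∪ (Ub m 1 \ closure F)) := by
          refine measure_mono fun x hx => ?_
          by_cases hxU : x ∈ Ub m 1
          · exact Or.inr ⟨hxU, hx⟩
          · exact Or.inl hxU
      _ ≤ lam (Ub m 1)ᶜ + lam (Ub m 1 \ closure F) := measure_union_le _ _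
      _ = 0 := by rw [hR.null, h3, add_zero]
  have hs2 : lam2 (closure F) = 0 := by
    have h3 : lam2 (Ub m 1 \ closure (A \ F)) = 0 := by
      refine l2p_null hR2 _ (hUo.sdiff isClosed_closure) sdiff_subset ?_
      rw [Set.disjoint_left]
      intro x hx hx2
      exact hx.2 (subset_closure hx2)
    refine le_antisymm ?_ bot_le
    calc lam2 (closure F) ≤ lam2 ((Ub m 1)ᶜ ∪ (Ub m 1 \ closure (A \ F))) := by
          refine measure_mono fun x hx => ?_
          by_cases hxU : x ∈ Ub m 1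
          · refine Or.inr ⟨hxU, fun h4 => ?_⟩
            have h5 : x ∈ closure F ∩ closure (A \ F) ∩ Ub m 1 := ⟨⟨hx, h4⟩, hxU⟩
            rw [hcl] at h5
            exact h5
          · exact Or.inl hxU
      _ ≤ lam2 (Ub m 1)ᶜ + lam2 (Ub m 1 \ closure (A \ F)) := measure_union_le _ _
      _ = 0 := by rw [hR2.null, h3, add_zero]
  classical
  obtain ⟨ν', hν'⟩ : ∃ ν' : E (2 + m) → E (2 + m),
    ν' = fun x => if x ∈ closure F then ν x else ν2 x := ⟨_, rfl⟩
  have hν'm : Measurable ν' := by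
    rw [hν']
    exact Measurable.ite isClosed_closure.measurableSet hR.meas hR2.meas
  have hν'u : ∀ x, ‖ν' x‖ = 1 := by
    intro x
    rw [hν']
    beta_reduce
    split_ifs
    · exact hR.unit x
    · exact hR2.unit x
  have hae1 : ∀ᵐ x ∂lam, ν' x = ν x := by
    rw [ae_iff]
    refine le_antisymm ?_ bot_le
    rw [← hs1]
    refine measure_mono fun x hx => ?_
    intro h3
    apply hx
    rw [hν']
    exact if_pos h3
  have hae2 : ∀ᵐ x ∂lam2, ν' x = ν2 x := by
    rw [ae_iff]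
    refine le_antisymm ?_ bot_le
    rw [← hs2]
    refine measure_mono fun x hx => ?_
    by_contra h3
    apply hx
    rw [hν']
    exact if_neg h3
  have hWR : WRep m ε A (lam + lam2) ν' := by
    refine ⟨inferInstance, ?_, hν'm, hν'u, ?_, ?_⟩
    · rw [Measure.add_apply, hR.null, hR2.null, add_zero]
    · intro X hX
      have hi := l2p_dve_integrable (ε := ε) hX.diff hX.comp
      have h3 : ∫ x in A, dve ε X x = (∫ x in F, dve ε X x) + ∫ x in A \ F, dve ε X x := by
        rw [← setIntegral_union disjoint_sdiff_right hGm hi.integrableOn hi.integrableOn, hunion]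
      rw [h3, integral_add_measure
        (l2p_inner_integrable hX.diff.continuous hX.comp hν'm hν'u)
        (l2p_inner_integrable hX.diff.continuous hX.comp hν'm hν'u), hR.repr X hX, hR2.repr X hX]
      congr 1
      · refine integral_congr_ae ?_
        filter_upwards [hae1] with x hx
        rw [hx]
      · refine integral_congr_ae ?_
        filter_upwards [hae2] with x hx
        rw [hx]
    · rw [Measure.add_apply, (p6 F lam ν hR).2, (p6 (A \ F) lam2 ν2 hR2).2, hPe]
  have hfinal := hC ε hε hε1 A (lam + lam2) ν' hA hWR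
  rw [integral_add_measure (l2p_pz_integrable hν'm hν'u) (l2p_pz_integrable hν'm hν'u)] at hfinal
  have h3 : ∫ p, ‖pz (ν p)‖ ^ 2 ∂lam = ∫ p, ‖pz (ν' p)‖ ^ 2 ∂lam := by
    refine integral_congr_ae ?_
    filter_upwards [hae1] with x hx
    rw [hx]
  have h4 : 0 ≤ ∫ p, ‖pz (ν' p)‖ ^ 2 ∂lam2 := integral_nonneg fun x => by positivity
  rw [h3]
  linarith

end Pool.Agent.Lib.MP_c95dcf_gt
end
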