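import Pool.Agent.Lib.MP_c95dcf_gt.GStmts

section

/-!
# MP_c95dcf_gt, task G12: compactness of sets of bounded perimeter
-/

set_option autoImplicit false

open MeasureTheory Set Filter Topology
open scoped ENNReal NNReal RealInnerProductSpace

namespace Pool.Agent.Lib.MP_c95dcf_gt

/-! ### Elementary facts on test fields -/

theorem Compact_dv_add {n : ℕ} {X Y : E n → E n} (hX : ContDiff ℝ 1 X) (hY : ContDiff ℝ 1 Y)
    (x : E n) : dv (X + Y) x = dv X x + dv Y x := by
  unfold dv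
  rw [← Finset.sum_add_distrib]
  refine Finset.sum_congr rfl fun i _ => ?_
  rw [fderiv_add (hX.differentiable one_ne_zero x) (hY.differentiable one_ne_zero x)]
  rfl

theorem Compact_dv_continuous {n : ℕ} {X : E n → E n} (hX : ContDiff ℝ 1 X) :
    Continuous (dv X) := by
  unfold dv
  refine continuous_finsetSum _ fun i _ => ?_
  have h1 : Continuous fun x => fderiv ℝ X x (EuclideanSpace.single i (1 : ℝ)) :=
    (hX.continuous_fderiv one_ne_zero).clm_apply continuous_const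
  exact (EuclideanSpace.proj (𝕜 := ℝ) i).continuous.comp h1

theorem Compact_dv_support {n : ℕ} {X : E n → E n} (hX : HasCompactSupport X) :
    HasCompactSupport (dv X) := by
  refine HasCompactSupport.of_support_subset_isCompact hX ?_
  intro x hx
  by_contra h
  apply hx
  have : fderiv ℝ X x = 0 := by
    by_contra h2
    exact h (support_fderiv_subset ℝ (Function.mem_support.2 h2))
  unfold dv
  simp [this]

theorem Compact_dv_integrable {n : ℕ} {X : E n → E n} (hX : ContDiff ℝ 1 X)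
    (hc : HasCompactSupport X) (μ : Measure (E n)) [IsFiniteMeasureOnCompacts μ] :
    Integrable (dv X) μ :=
  (Compact_dv_continuous hX).integrable_of_hasCompactSupport (Compact_dv_support hc)

theorem Compact_per_mono {n : ℕ} {U V : Set (E n)} (A : Set (E n)) (h : V ⊆ U) :
    Per V A ≤ Per U A := by
  unfold Per
  refine iSup₂_le fun X hX => ?_
  exact le_iSup₂_of_le X ⟨⟨hX.1.diff, hX.1.comp, hX.1.supp.trans h⟩, hX.2⟩ le_rfl

theorem Compact_tf_zero {n : ℕ} (V : Set (E n)) : TF V (0 : E n → E n) where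
  diff := contDiff_const
  comp := HasCompactSupport.zero
  supp := by simp

theorem Compact_per_add {n : ℕ} (V W A : Set (E n)) (h : Disjoint V W) :
    Per V A + Per W A ≤ Per (V ∪ W) A := by
  have h0 : ∀ V : Set (E n), ∃ X, TF V X ∧ ∀ x, ‖X x‖ ≤ 1 := fun V =>
    ⟨0, Compact_tf_zero V, fun x => by simp⟩
  refine ENNReal.biSup_add_biSup_le' (h0 V) (h0 W) fun X hX Y hY => ?_
  by_cases ha : (∫ x in A, dv X x) ≤ 0
  · rw [ENNReal.ofReal_of_nonpos ha, zero_add]
    exact le_iSup₂_of_le Y ⟨⟨hY.1.diff, hY.1.comp, hY.1.supp.trans subset_union_right⟩, hY.2⟩ le_rfl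
  by_cases hb : (∫ x in A, dv Y x) ≤ 0
  · rw [ENNReal.ofReal_of_nonpos hb, add_zero]
    exact le_iSup₂_of_le X ⟨⟨hX.1.diff, hX.1.comp, hX.1.supp.trans subset_union_left⟩, hX.2⟩ le_rfl
  rw [← ENNReal.ofReal_add (not_le.1 ha).le (not_le.1 hb).le]
  have hs : (∫ x in A, dv X x) + (∫ x in A, dv Y x) = ∫ x in A, dv (X + Y) x := by
    rw [← integral_add (Compact_dv_integrable hX.1.diff hX.1.comp _)
      (Compact_dv_integrable hY.1.diff hY.1.comp _)]
    refine integral_congr_ae (Eventually.of_forall fun x => ?_)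
    exact (Compact_dv_add hX.1.diff hY.1.diff x).symm
  rw [hs]
  refine le_iSup₂_of_le (X + Y) ⟨⟨hX.1.diff.add hY.1.diff, hX.1.comp.add hY.1.comp, ?_⟩, ?_⟩ le_rfl
  · refine (tsupport_add X Y).trans ?_
    exact union_subset_union hX.1.supp hY.1.supp
  · intro x
    by_cases hx : x ∈ V
    · have : Y x = 0 := by
        by_contra hy
        exact (Set.disjoint_left.1 h hx) (hY.1.supp (subset_tsupport _ hy))
      simpa [this] using hX.2 x
    · have : X x = 0 := by
        by_contra hy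
        exact hx (hX.1.supp (subset_tsupport _ hy))
      simpa [this] using hY.2 x

theorem Compact_per_sum {n : ℕ} {ι : Type*} (T : Finset ι) (V : ι → Set (E n)) (A : Set (E n))
    (h : (T : Set ι).PairwiseDisjoint V) :
    ∑ i ∈ T, Per (V i) A ≤ Per (⋃ i ∈ T, V i) A := by
  classical
  induction T using Finset.induction_on with
  | empty => simp
  | insert a T ha ih =>
    rw [Finset.sum_insert ha, Finset.set_biUnion_insert]
    have h1 : (T : Set ι).PairwiseDisjoint V := h.subset (by simp)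
    refine (add_le_add_right (ih h1) _).trans (Compact_per_add _ _ _ ?_)
    rw [Set.disjoint_iUnion₂_right]
    intro i hi
    exact h (by simp) (by simp [hi]) (by rintro rfl; exact ha hi)

/-! ### Finite families of small disjoint balls -/

theorem Compact_balls {n : ℕ} {U : Set (E n)} (hU : IsOpen U) (hb : Bornology.IsBounded U)
    {ε : ℝ≥0∞} (hε : 0 < ε) {δ : ℝ} (hδ : 0 < δ) :
    ∃ (T : Finset (E n)) (V : E n → Set (E n)), (∀ x ∈ T, IsOpen (V x)) ∧
      (∀ x ∈ T, Convex ℝ (V x)) ∧ (∀ x ∈ T, Bornology.IsBounded (V x)) ∧ (∀ x ∈ T, V x ⊆ U) ∧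
      (∀ x ∈ T, Metric.diam (V x) ≤ 2 * δ) ∧ (T : Set (E n)).PairwiseDisjoint V ∧
      volume (U \ ⋃ x ∈ T, V x) ≤ ε := by
  classical
  obtain ⟨t, r, htc, htU, hr, hnull, hdis⟩ := Besicovitch.exists_disjoint_closedBall_covering_ae
    (volume : Measure (E n)) (fun x => {ρ : ℝ | Metric.closedBall x ρ ⊆ U}) U
    (fun x hx d hd => by
      obtain ⟨ρ, hρ, hsub⟩ := Metric.nhds_basis_closedBall.mem_iff.1 (hU.mem_nhds hx)
      refine ⟨min ρ (d / 2), ?_, lt_min hρ (half_pos hd), ?_⟩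
      · exact (Metric.closedBall_subset_closedBall (min_le_left _ _)).trans hsub
      · exact (min_le_right _ _).trans_lt (half_lt_self hd))
    (fun _ => δ) (fun _ _ => hδ)
  have hfin : volume U ≠ ∞ := hb.measure_lt_top.ne
  have hcount : Countable t := htc
  have hsum : ∑' x : t, volume (Metric.closedBall (x : E n) (r x)) ≠ ∞ := by
    have h1 : volume (⋃ x : t, Metric.closedBall (x : E n) (r x)) =
        ∑' x : t, volume (Metric.closedBall (x : E n) (r x)) := by
      refine measure_iUnion ?_ fun x => measurableSet_closedBall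
      intro x y hxy
      exact hdis x.2 y.2 (fun h => hxy (Subtype.ext h))
    rw [← h1]
    refine ne_top_of_le_ne_top hfin (measure_mono (iUnion_subset fun x => (hr x x.2).1))
  obtain ⟨s, hs⟩ : ∃ s : Finset t,
      ∑' x : {x // x ∉ s}, volume (Metric.closedBall ((x : t) : E n) (r x)) < ε :=
    ((ENNReal.tendsto_tsum_compl_atTop_zero hsum).eventually (gt_mem_nhds hε)).exists
  refine ⟨s.image (fun x : t => (x : E n)), fun x => Metric.ball x (r x), fun x _ =>
    Metric.isOpen_ball, fun x _ => convex_ball _ _, fun x _ => Metric.isBounded_ball, ?_, ?_, ?_, ?_⟩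
  · intro x hx
    obtain ⟨y, -, rfl⟩ := Finset.mem_image.1 hx
    exact Metric.ball_subset_closedBall.trans (hr y y.2).1
  · intro x hx
    obtain ⟨y, -, rfl⟩ := Finset.mem_image.1 hx
    have h1 := (hr y y.2).2
    refine (Metric.diam_ball h1.1.le).trans ?_
    linarith [h1.2]
  · intro x hx y hy hxy
    obtain ⟨x', -, rfl⟩ := Finset.mem_image.1 hx
    obtain ⟨y', -, rfl⟩ := Finset.mem_image.1 hy
    exact (hdis x'.2 y'.2 hxy).mono Metric.ball_subset_closedBall Metric.ball_subset_closedBall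
  · have hsub : U \ ⋃ x ∈ s.image (fun x : t => (x : E n)), Metric.ball x (r x) ⊆
        ((U \ ⋃ x ∈ t, Metric.closedBall x (r x)) ∪
          ⋃ x : t, Metric.sphere (x : E n) (r x)) ∪
          ⋃ x : {x // x ∉ s}, Metric.closedBall ((x : t) : E n) (r x) := by
      rintro x ⟨hxU, hx⟩
      by_cases h1 : x ∈ ⋃ y ∈ t, Metric.closedBall y (r y)
      · obtain ⟨y, hy, hxy⟩ := mem_iUnion₂.1 h1
        by_cases h2 : (⟨y, hy⟩ : t) ∈ s
        · left; right
          refine mem_iUnion.2 ⟨⟨y, hy⟩, ?_⟩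
          have h3 : x ∉ Metric.ball y (r y) := fun h => hx (mem_iUnion₂.2
            ⟨y, Finset.mem_image.2 ⟨⟨y, hy⟩, h2, rfl⟩, h⟩)
          rw [Metric.mem_closedBall] at hxy
          rw [Metric.mem_ball, not_lt] at h3
          exact le_antisymm hxy h3
        · right
          exact mem_iUnion.2 ⟨⟨⟨y, hy⟩, h2⟩, hxy⟩
      · left; left; exact ⟨hxU, h1⟩
    refine (measure_mono hsub).trans ((measure_union_le _ _).trans ?_)
    have h4 : volume ((U \ ⋃ x ∈ t, Metric.closedBall x (r x)) ∪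
          ⋃ x : t, Metric.sphere (x : E n) (r x)) = 0 := by
      rw [measure_union_null_iff]
      refine ⟨hnull, measure_iUnion_null fun x => ?_⟩
      exact Measure.addHaar_sphere_of_ne_zero _ _ (hr x x.2).2.1.ne'
    rw [h4, zero_add]
    exact (measure_iUnion_le _).trans hs.le

/-! ### Approximation on a convex set -/

theorem Compact_min_le {n : ℕ} {C : ℝ≥0} {V A : Set (E n)} (hb : Bornology.IsBounded V)
    (hA : MeasurableSet A)
    (h : volume (A ∩ V) * volume (V \ A) ≤ C * ENNReal.ofReal (Metric.diam V) * volume V * Per V A) :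
    min (volume (A ∩ V)) (volume (V \ A)) ≤
      2 * C * ENNReal.ofReal (Metric.diam V) * Per V A := by
  have hfin : volume V ≠ ∞ := hb.measure_lt_top.ne
  have hadd : volume (A ∩ V) + volume (V \ A) = volume V := by
    rw [inter_comm]; exact measure_inter_add_sdiff V hA
  rcases eq_or_ne (volume V) 0 with h0 | h0
  · have : volume (A ∩ V) = 0 := measure_mono_null inter_subset_right h0
    simp [this]
  have key : ∀ p q : ℝ≥0∞, p ≤ q → p + q = volume V →
      p * q ≤ C * ENNReal.ofReal (Metric.diam V) * volume V * Per V A →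
      p ≤ 2 * C * ENNReal.ofReal (Metric.diam V) * Per V A := by
    intro p q hpq hs hm
    have h1 : volume V ≤ 2 * q := by
      rw [← hs, two_mul]; gcongr
    have h2 : p * volume V ≤ (2 * C * ENNReal.ofReal (Metric.diam V) * Per V A) * volume V := by
      calc p * volume V ≤ p * (2 * q) := by gcongr
        _ = 2 * (p * q) := by ring
        _ ≤ 2 * (C * ENNReal.ofReal (Metric.diam V) * volume V * Per V A) := by gcongr
        _ = _ := by ring
    exact (ENNReal.mul_le_mul_iff_left h0 hfin).1 h2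
  rcases le_total (volume (A ∩ V)) (volume (V \ A)) with hle | hle
  · rw [min_eq_left hle]; exact key _ _ hle hadd h
  · rw [min_eq_right hle]
    refine key _ _ hle (by rw [add_comm]; exact hadd) ?_
    rw [mul_comm]; exact h

/-- Sets of bounded perimeter are totally bounded. -/
theorem Compact_approx (h : Stmt_PoincareSet) {n : ℕ} {U : Set (E n)} (hU : IsOpen U)
    (hb : Bornology.IsBounded U) (M : ℝ≥0) {ε : ℝ≥0∞} (hε : ε ≠ 0) (hε' : ε ≠ ∞) :
    ∃ (N : ℕ) (S : Fin N → Set (E n)), ∀ A, MeasurableSet A → Per U A ≤ M →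
      ∃ i, volume (symmDiff A (S i) ∩ U) ≤ ε := by
  classical
  obtain ⟨C, hC, hP⟩ := h n
  have hη : 0 < ε.toReal := ENNReal.toReal_pos hε hε'
  set δ : ℝ := ε.toReal / (2 * (4 * C * M + 1)) with hδdef
  have hden : (0 : ℝ) < 2 * (4 * C * M + 1) := by positivity
  have hδ : 0 < δ := div_pos hη hden
  obtain ⟨T, V, hVo, hVc, hVb, hVU, hVd, hVdis, hVvol⟩ :=
    Compact_balls hU hb (ENNReal.half_pos hε) hδ
  have hbound : 2 * (C : ℝ≥0∞) * ENNReal.ofReal (2 * δ) * M ≤ ε / 2 := by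
    have h1 : 2 * (C : ℝ≥0∞) * ENNReal.ofReal (2 * δ) * M = ENNReal.ofReal (4 * C * M * δ) := by
      have e1 : (C : ℝ≥0∞) = ENNReal.ofReal (C : ℝ) := by simp
      have e2 : (M : ℝ≥0∞) = ENNReal.ofReal (M : ℝ) := by simp
      have e3 : (2 : ℝ≥0∞) = ENNReal.ofReal 2 := by simp
      rw [e1, e2, e3, ← ENNReal.ofReal_mul (by norm_num), ← ENNReal.ofReal_mul (by positivity),
        ← ENNReal.ofReal_mul (by positivity)]
      congr 1; ring
    have h2 : ε / 2 = ENNReal.ofReal (ε.toReal / 2) := by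
      rw [ENNReal.ofReal_div_of_pos (by norm_num), ENNReal.ofReal_toReal hε']
      simp
    rw [h1, h2]
    apply ENNReal.ofReal_le_ofReal
    rw [hδdef, ← mul_div_assoc, div_le_div_iff₀ hden (by norm_num)]
    have h3 : (0 : ℝ) ≤ 4 * C * M := by positivity
    nlinarith
  obtain ⟨N, ⟨e⟩⟩ := Finite.exists_equiv_fin (T.powerset)
  refine ⟨N, fun i => ⋃ x ∈ (e.symm i).1, V x, fun A hA hM => ?_⟩
  set T' : Finset (E n) := T.filter (fun x => volume (V x \ A) ≤ volume (A ∩ V x)) with hT'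
  have hT'T : T' ⊆ T := Finset.filter_subset _ _
  refine ⟨e ⟨T', Finset.mem_powerset.2 hT'T⟩, ?_⟩
  simp only [Equiv.symm_apply_apply]
  set D : E n → Set (E n) := fun x => if x ∈ T' then V x \ A else A ∩ V x with hD
  have hsub : symmDiff A (⋃ x ∈ T', V x) ∩ U ⊆ (U \ ⋃ x ∈ T, V x) ∪ ⋃ x ∈ T, D x := by
    rintro y ⟨hy, hyU⟩
    by_cases hyV : y ∈ ⋃ x ∈ T, V x
    · right
      obtain ⟨x, hx, hyx⟩ := mem_iUnion₂.1 hyV
      refine mem_iUnion₂.2 ⟨x, hx, ?_⟩
      rcases hy with ⟨hyA, hyn⟩ | ⟨hyS, hyn⟩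
      · have : x ∉ T' := fun hx' => hyn (mem_iUnion₂.2 ⟨x, hx', hyx⟩)
        simp only [hD, this, if_false]
        exact ⟨hyA, hyx⟩
      · obtain ⟨x', hx', hyx'⟩ := mem_iUnion₂.1 hyS
        have hxx : x = x' := by
          by_contra hne
          exact Set.disjoint_left.1 (hVdis hx (hT'T hx') hne) hyx hyx'
        subst hxx
        simp only [hD, hx', if_true]
        exact ⟨hyx, hyn⟩
    · left; exact ⟨hyU, hyV⟩
  have hDvol : ∀ x ∈ T, volume (D x) ≤ 2 * C * ENNReal.ofReal (2 * δ) * Per (V x) A := by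
    intro x hx
    have h1 : volume (D x) = min (volume (A ∩ V x)) (volume (V x \ A)) := by
      by_cases hx' : x ∈ T'
      · simp only [hD, hx', if_true]
        rw [min_eq_right (Finset.mem_filter.1 hx').2]
      · simp only [hD, hx', if_false]
        have : ¬ (volume (V x \ A) ≤ volume (A ∩ V x)) := fun hh =>
          hx' (Finset.mem_filter.2 ⟨hx, hh⟩)
        rw [min_eq_left (not_le.1 this).le]
    rw [h1]
    refine (Compact_min_le (hVb x hx) hA (hP (V x) A (hVo x hx) (hVc x hx) (hVb x hx) hA)).trans ?_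
    gcongr
    exact hVd x hx
  calc volume (symmDiff A (⋃ x ∈ T', V x) ∩ U)
      ≤ volume ((U \ ⋃ x ∈ T, V x) ∪ ⋃ x ∈ T, D x) := measure_mono hsub
    _ ≤ volume (U \ ⋃ x ∈ T, V x) + volume (⋃ x ∈ T, D x) := measure_union_le _ _
    _ ≤ ε / 2 + ∑ x ∈ T, volume (D x) := by
        gcongr
        exact measure_biUnion_finset_le _ _
    _ ≤ ε / 2 + ∑ x ∈ T, 2 * C * ENNReal.ofReal (2 * δ) * Per (V x) A := by
        gcongr with x hx
        exact hDvol x hx
    _ = ε / 2 + 2 * C * ENNReal.ofReal (2 * δ) * ∑ x ∈ T, Per (V x) A := by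
        rw [Finset.mul_sum]
    _ ≤ ε / 2 + 2 * C * ENNReal.ofReal (2 * δ) * M := by
        gcongr
        refine (Compact_per_sum T V A hVdis).trans ((Compact_per_mono A ?_).trans hM)
        exact iUnion₂_subset hVU
    _ ≤ ε / 2 + ε / 2 := by gcongr
    _ = ε := ENNReal.add_halves ε

/-! ### Compactness -/

theorem Compact_symmDiff_triangle {n : ℕ} (U A B C : Set (E n)) :
    volume (symmDiff A C ∩ U) ≤ volume (symmDiff A B ∩ U) + volume (symmDiff B C ∩ U) := by
  refine (measure_mono ?_).trans (measure_union_le _ _)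
  rintro x ⟨hx, hxU⟩
  rcases (symmDiff_triangle A B C hx) with h | h
  · left; exact ⟨h, hxU⟩
  · right; exact ⟨h, hxU⟩

theorem compactness (h : Stmt_PoincareSet) : Stmt_Compact := by
  intro n U A M hU hb hA hM
  have hpow0 : ∀ k : ℕ, (2⁻¹ : ℝ≥0∞) ^ k ≠ 0 := fun k => pow_ne_zero _ (by simp)
  have hpowt : ∀ k : ℕ, (2⁻¹ : ℝ≥0∞) ^ k ≠ ∞ := fun k => ENNReal.pow_ne_top (by simp)
  choose N S hS using fun k : ℕ => Compact_approx h hU hb M (hpow0 k) (hpowt k)
  choose c hc using fun (k : ℕ) (j : ℕ) => hS k (A j) (hA j) (hM j)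
  obtain ⟨a, φ, hφ, hlim⟩ := CompactSpace.tendsto_subseq (fun (j k : ℕ) => c k j)
  rw [tendsto_pi_nhds] at hlim
  have hev : ∀ k, ∀ᶠ m in atTop, ∀ j ≥ m, volume (symmDiff (A (φ j)) (S k (a k)) ∩ U) ≤ 2⁻¹ ^ k := by
    intro k
    have h1 := hlim k
    rw [nhds_discrete, tendsto_pure] at h1
    obtain ⟨m, hm⟩ := eventually_atTop.1 h1
    filter_upwards [eventually_ge_atTop m] with m' hm' j hj
    have h2 : c k (φ j) = a k := hm j (hm'.trans hj)
    rw [← h2]
    exact hc k (φ j)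
  obtain ⟨ψ, hψ, hψ2⟩ := extraction_forall_of_eventually hev
  set A' : ℕ → Set (E n) := fun k => A (φ (ψ k)) with hA'
  have hstep : ∀ k, volume (symmDiff (A' k) (A' (k + 1)) ∩ U) ≤ 2 * 2⁻¹ ^ k := by
    intro k
    refine (Compact_symmDiff_triangle U _ (S k (a k)) _).trans ?_
    rw [two_mul]
    refine add_le_add (hψ2 k (ψ k) le_rfl) ?_
    rw [symmDiff_comm]
    exact hψ2 k (ψ (k + 1)) (hψ.monotone (Nat.le_succ k))
  set B : Set (E n) := (⋃ m, ⋂ j, A' (m + j)) ∩ U with hB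
  refine ⟨φ ∘ ψ, B, hφ.comp hψ, ?_, inter_subset_right, ?_⟩
  · exact (MeasurableSet.iUnion fun m => MeasurableSet.iInter fun j => hA _).inter hU.measurableSet
  have hsub : ∀ m, symmDiff (A' m) B ∩ U ⊆ ⋃ i, (symmDiff (A' (m + i)) (A' (m + i + 1)) ∩ U) := by
    intro m y ⟨hy, hyU⟩
    by_contra hcon
    have hstab : ∀ i, (y ∈ A' (m + i) ↔ y ∈ A' m) := by
      intro i
      induction i with
      | zero => simp
      | succ i ih =>
        have h1 : y ∉ symmDiff (A' (m + i)) (A' (m + i + 1)) := fun h2 =>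
          hcon (mem_iUnion.2 ⟨i, h2, hyU⟩)
        rw [mem_symmDiff] at h1
        rw [← ih, ← add_assoc]
        tauto
    rcases hy with ⟨hyA, hyB⟩ | ⟨hyB, hyA⟩
    · exact hyB ⟨mem_iUnion.2 ⟨m, mem_iInter.2 fun j => (hstab j).2 hyA⟩, hyU⟩
    · obtain ⟨p, hp⟩ := mem_iUnion.1 hyB.1
      have h1 : y ∈ A' (p + m) := mem_iInter.1 hp m
      rw [add_comm] at h1
      exact hyA ((hstab p).1 h1)
  have hle : ∀ m, volume (symmDiff (A' m) B ∩ U) ≤ 4 * 2⁻¹ ^ m := by
    intro m
    calc volume (symmDiff (A' m) B ∩ U)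
        ≤ ∑' i, volume (symmDiff (A' (m + i)) (A' (m + i + 1)) ∩ U) :=
          (measure_mono (hsub m)).trans (measure_iUnion_le _)
      _ ≤ ∑' i : ℕ, 2 * 2⁻¹ ^ (m + i) := ENNReal.tsum_le_tsum fun i => hstep (m + i)
      _ = ∑' i : ℕ, (2 * 2⁻¹ ^ m) * (2⁻¹ : ℝ≥0∞) ^ i := by
          refine tsum_congr fun i => ?_
          rw [pow_add]; ring
      _ = (2 * 2⁻¹ ^ m) * 2 := by
          rw [ENNReal.tsum_mul_left, ENNReal.tsum_geometric, ENNReal.one_sub_inv_two, inv_inv]
      _ = 4 * 2⁻¹ ^ m := by ring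
  have hz : Tendsto (fun m : ℕ => 4 * (2⁻¹ : ℝ≥0∞) ^ m) atTop (𝓝 0) := by
    have h1 := ENNReal.Tendsto.const_mul
      (ENNReal.tendsto_pow_atTop_nhds_zero_of_lt_one (r := 2⁻¹) (by
        rw [ENNReal.inv_lt_one]; norm_num)) (Or.inr (by norm_num : (4 : ℝ≥0∞) ≠ ∞))
    simpa using h1
  exact tendsto_of_tendsto_of_tendsto_of_le_of_le tendsto_const_nhds hz
    (fun m => zero_le) hle

end Pool.Agent.Lib.MP_c95dcf_gt
end

section

/-!
# MP_c95dcf_gt, task G29: efficient covers by compact convex sets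
-/

set_option autoImplicit false

open MeasureTheory Set Filter Topology
open scoped ENNReal NNReal RealInnerProductSpace

namespace Pool.Agent.Lib.MP_c95dcf_gt

/-- A small enlargement that hardly changes the power of the diameter. -/
lemma cover_eps {D : ℝ≥0∞} (hD : D ≠ ∞) (m : ℕ) {η r : ℝ≥0∞} (hη : 0 < η) (hr : 0 < r) :
    ∃ ε : ℝ≥0, 0 < ε ∧ 2 * (ε : ℝ≥0∞) ≤ r ∧ (D + 2 * ε) ^ m ≤ D ^ m + η := by
  have hc : Continuous fun ε : ℝ≥0 => (D + 2 * (ε : ℝ≥0∞)) ^ m := by
    have h1 : Continuous fun ε : ℝ≥0 => 2 * (ε : ℝ≥0∞) :=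
      (ENNReal.continuous_const_mul (by norm_num)).comp ENNReal.continuous_coe
    exact (ENNReal.continuous_pow m).comp (continuous_const.add h1)
  have h2 : Continuous fun ε : ℝ≥0 => 2 * (ε : ℝ≥0∞) :=
    (ENNReal.continuous_const_mul (by norm_num)).comp ENNReal.continuous_coe
  have e1 : ∀ᶠ ε : ℝ≥0 in 𝓝 0, (D + 2 * (ε : ℝ≥0∞)) ^ m < D ^ m + η := by
    apply hc.continuousAt.eventually_lt continuousAt_const
    simp only [ENNReal.coe_zero, mul_zero, add_zero]
    exact ENNReal.lt_add_right (ENNReal.pow_ne_top hD) hη.ne'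
  have e2 : ∀ᶠ ε : ℝ≥0 in 𝓝 0, 2 * (ε : ℝ≥0∞) < r := by
    apply h2.continuousAt.eventually_lt continuousAt_const
    simpa using hr
  have e3 : ∀ᶠ ε : ℝ≥0 in 𝓝[>] 0, 0 < ε := self_mem_nhdsWithin
  obtain ⟨ε, h3, h4, h5⟩ := (e3.and ((e1.filter_mono nhdsWithin_le_nhds).and
    (e2.filter_mono nhdsWithin_le_nhds))).exists
  exact ⟨ε, h3, h5.le, h4.le⟩

theorem cover : Stmt_Cover := by
  intro n S W δ η hn hS hW hSW hδ hη hH
  obtain ⟨ρ, hρ, hρW⟩ := hS.exists_thickening_subset_open hW hSW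
  set r₀ : ℝ≥0∞ := min ((δ : ℝ≥0∞) / 2) (ENNReal.ofReal (ρ / 4)) with hr₀
  have hr₀pos : 0 < r₀ := by
    apply lt_min
    · exact ENNReal.div_pos (by exact_mod_cast hδ.ne') (by norm_num)
    · exact ENNReal.ofReal_pos.2 (by positivity)
  have hr₀top : r₀ ≠ ∞ := ne_top_of_le_ne_top ENNReal.ofReal_ne_top (min_le_right _ _)
  have hη2 : (0 : ℝ≥0∞) < (η : ℝ≥0∞) / 2 := ENNReal.div_pos (by exact_mod_cast hη.ne') (by norm_num)
  -- a good cover
  have h1 : (⨅ (t : ℕ → Set (E n)) (_ : S ⊆ ⋃ n, t n) (_ : ∀ n, Metric.ediam (t n) ≤ r₀),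
      ∑' k, ⨆ _ : (t k).Nonempty, Metric.ediam (t k) ^ ((n : ℝ) - 1)) <
      (Measure.hausdorffMeasure ((n : ℝ) - 1) : Measure (E n)) S + η / 2 := by
    refine lt_of_le_of_lt ?_ (ENNReal.lt_add_right hH hη2.ne')
    rw [Measure.hausdorffMeasure_apply]
    exact le_iSup₂ (f := fun (r : ℝ≥0∞) (_ : 0 < r) =>
      ⨅ (t : ℕ → Set (E n)) (_ : S ⊆ ⋃ n, t n) (_ : ∀ n, Metric.ediam (t n) ≤ r),
      ∑' k, ⨆ _ : (t k).Nonempty, Metric.ediam (t k) ^ ((n : ℝ) - 1)) r₀ hr₀pos
  simp only [iInf_lt_iff] at h1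
  obtain ⟨t, ht, htd, hts⟩ := h1
  obtain ⟨η', hη', hη's⟩ := ENNReal.exists_pos_sum_of_countable' hη2.ne' ℕ
  have hT : ∀ k, Metric.ediam (t k ∩ S) ≤ r₀ := fun k =>
    (Metric.ediam_mono inter_subset_left).trans (htd k)
  have hTtop : ∀ k, Metric.ediam (t k ∩ S) ≠ ∞ := fun k => ne_top_of_le_ne_top hr₀top (hT k)
  choose ε hε hεr hεm using fun k => cover_eps (hTtop k) (n - 1) (hη' k) hr₀pos
  set C : ℕ → Set (E n) := fun k => Metric.cthickening (ε k : ℝ) (convexHull ℝ (t k ∩ S)) with hC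
  have hCd : ∀ k, Metric.ediam (C k) ≤ Metric.ediam (t k ∩ S) + 2 * ε k := by
    intro k
    refine (Metric.ediam_cthickening_le (ε k)).trans ?_
    rw [convexHull_ediam]
  have hCd2 : ∀ k, Metric.ediam (C k) ≤ r₀ + r₀ := fun k =>
    (hCd k).trans (add_le_add (hT k) (hεr k))
  have hCδ : ∀ k, Metric.ediam (C k) ≤ δ := by
    intro k
    refine (hCd2 k).trans ?_
    calc r₀ + r₀ ≤ (δ : ℝ≥0∞) / 2 + δ / 2 := add_le_add (min_le_left _ _) (min_le_left _ _)
      _ = δ := ENNReal.add_halves _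
  have hCbd : ∀ k, Bornology.IsBounded (C k) := fun k =>
    Metric.isBounded_iff_ediam_ne_top.2
      (ne_top_of_le_ne_top (ENNReal.add_ne_top.2 ⟨hr₀top, hr₀top⟩) (hCd2 k))
  have hCsub : ∀ k, (t k ∩ S) ⊆ interior (C k) := by
    intro k
    calc t k ∩ S ⊆ convexHull ℝ (t k ∩ S) := subset_convexHull ℝ _
      _ ⊆ Metric.thickening (ε k : ℝ) (convexHull ℝ (t k ∩ S)) :=
        Metric.self_subset_thickening (by exact_mod_cast hε k) _
      _ ⊆ interior (C k) := Metric.thickening_subset_interior_cthickening _ _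
  have hCW : ∀ k, (t k ∩ S).Nonempty → C k ⊆ W := by
    intro k hk y hy
    obtain ⟨x, hx⟩ := hk
    apply hρW
    rw [Metric.mem_thickening_iff_exists_edist_lt]
    refine ⟨x, hx.2, ?_⟩
    calc edist y x ≤ Metric.ediam (C k) :=
          Metric.edist_le_ediam_of_mem hy (interior_subset (hCsub k hx))
      _ ≤ r₀ + r₀ := hCd2 k
      _ ≤ ENNReal.ofReal (ρ / 4) + ENNReal.ofReal (ρ / 4) :=
          add_le_add (min_le_right _ _) (min_le_right _ _)
      _ = ENNReal.ofReal (ρ / 2) := by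
          rw [← ENNReal.ofReal_add (by positivity) (by positivity)]
          congr 1
          ring
      _ < ENNReal.ofReal ρ := by
          rw [ENNReal.ofReal_lt_ofReal_iff hρ]
          linarith
  -- finite subcover
  obtain ⟨I, hI⟩ := hS.elim_finite_subcover
    (fun k : {k : ℕ // (t k ∩ S).Nonempty} => interior (C k)) (fun k => isOpen_interior) (by
      intro x hx
      obtain ⟨k, hk⟩ := mem_iUnion.1 (ht hx)
      exact mem_iUnion.2 ⟨⟨k, ⟨x, hk, hx⟩⟩, hCsub k ⟨hk, hx⟩⟩)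
  refine ⟨I.card, fun i => C (I.equivFin.symm i : {k : ℕ // (t k ∩ S).Nonempty}), ?_, ?_, ?_, ?_,
    ?_, ?_, ?_⟩
  · exact fun i => Metric.isCompact_of_isClosed_isBounded Metric.isClosed_cthickening (hCbd _)
  · exact fun i => (convex_convexHull ℝ _).cthickening _
  · intro i
    obtain ⟨x, hx⟩ := (I.equivFin.symm i : {k : ℕ // (t k ∩ S).Nonempty}).2
    exact ⟨x, interior_subset (hCsub _ hx)⟩
  · exact fun i => hCW _ (I.equivFin.symm i : {k : ℕ // (t k ∩ S).Nonempty}).2
  · intro x hx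
    obtain ⟨k, hk, hxk⟩ := mem_iUnion₂.1 (hI hx)
    refine mem_iUnion.2 ⟨I.equivFin ⟨k, hk⟩, ?_⟩
    simpa using hxk
  · exact fun i => hCδ _
  · have h2 : ∑ i : Fin I.card,
        Metric.ediam (C (I.equivFin.symm i : {k : ℕ // (t k ∩ S).Nonempty})) ^ (n - 1) =
        ∑ k ∈ I, Metric.ediam (C k) ^ (n - 1) := by
      rw [← Finset.sum_coe_sort I, ← Equiv.sum_comp I.equivFin.symm]
    rw [h2]
    have h3 : ∀ k ∈ I, Metric.ediam (C k) ^ (n - 1) ≤
        (⨆ _ : (t k).Nonempty, Metric.ediam (t k) ^ ((n : ℝ) - 1)) + η' k := by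
      intro k _
      have hne : (t k).Nonempty := k.2.mono inter_subset_left
      rw [ciSup_pos hne]
      have h4 : Metric.ediam (t k) ^ ((n : ℝ) - 1) = Metric.ediam (t k) ^ (n - 1) := by
        rw [← ENNReal.rpow_natCast]
        congr 1
        rw [Nat.cast_sub (by omega)]
        simp
      rw [h4]
      calc Metric.ediam (C k) ^ (n - 1) ≤ (Metric.ediam (t k ∩ S) + 2 * ε k) ^ (n - 1) := by
            gcongr
            exact hCd k
        _ ≤ Metric.ediam (t k ∩ S) ^ (n - 1) + η' k := hεm k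
        _ ≤ Metric.ediam (t k) ^ (n - 1) + η' k := by
            gcongr
            exact inter_subset_left
    calc ∑ k ∈ I, Metric.ediam (C k) ^ (n - 1)
        ≤ ∑ k ∈ I, ((⨆ _ : (t k).Nonempty, Metric.ediam (t k) ^ ((n : ℝ) - 1)) + η' k) :=
          Finset.sum_le_sum h3
      _ = ∑ k ∈ I.map (Function.Embedding.subtype _),
            ((⨆ _ : (t k).Nonempty, Metric.ediam (t k) ^ ((n : ℝ) - 1)) + η' k) := by
          rw [Finset.sum_map]
          rfl
      _ ≤ ∑' k : ℕ, ((⨆ _ : (t k).Nonempty, Metric.ediam (t k) ^ ((n : ℝ) - 1)) + η' k) :=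
          ENNReal.sum_le_tsum _
      _ = (∑' k : ℕ, ⨆ _ : (t k).Nonempty, Metric.ediam (t k) ^ ((n : ℝ) - 1)) + ∑' k, η' k :=
          ENNReal.tsum_add
      _ ≤ ((Measure.hausdorffMeasure ((n : ℝ) - 1) : Measure (E n)) S + η / 2) + η / 2 :=
          add_le_add hts.le hη's.le
      _ = (Measure.hausdorffMeasure ((n : ℝ) - 1) : Measure (E n)) S + η := by
          rw [add_assoc, ENNReal.add_halves]

end Pool.Agent.Lib.MP_c95dcf_gt
end
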