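import Pool.Agent.Lib.MP_c95dcf_gt.Mg.G001

section

/-!
# MP_c95dcf_gt, part B: auxiliary facts on the slices
-/

set_option autoImplicit false

open MeasureTheory Set Filter Topology
open scoped ENNReal NNReal

namespace Pool.Agent.Lib.MP_c95dcf_gt

namespace CrudeAux

theorem measurableSet_Sl {m : ℕ} {A : Set ℂ} (hA : MeasurableSet A) (θ : ℝ) :
    MeasurableSet (Sl m A θ) := by
  have h1 : Measurable fun r : ℝ => (r : ℂ) * Complex.exp (θ * Complex.I) :=
    (Complex.measurable_ofReal).mul_const _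
  exact measurableSet_Ioo.inter (h1 hA)

theorem Sl_inter (m : ℕ) (A : Set ℂ) (θ : ℝ) : Sl m A θ ∩ Ioo 0 (m : ℝ) = Sl m A θ :=
  inter_eq_left.2 fun _ hr => hr.1

theorem vth_eq (m : ℕ) (A : Set ℂ) (θ : ℝ) :
    ∫ r in Sl m A θ ∩ Ioo 0 (m : ℝ), hp m r = vth m A θ := by
  rw [Sl_inter]; rfl

theorem Sl_univ (m : ℕ) (θ : ℝ) : Sl m univ θ = Ioo 0 (m : ℝ) := by
  ext r; simp [Sl]

theorem vth_univ (m : ℕ) (θ : ℝ) : vth m univ θ = vp m 0 := by
  rw [vth, Sl_univ, vp]

theorem V0_univ (h4 : Stmt_Polar) {m : ℕ} (hm : 2 ≤ m) :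
    V0 m univ = 2 * Real.pi * vp m 0 := by
  rw [h4 m univ hm MeasurableSet.univ]
  simp only [vth_univ]
  rw [setIntegral_const]
  have : (volume.real (Ioo (-Real.pi) Real.pi)) = 2 * Real.pi := by
    rw [Measure.real, Real.volume_Ioo, ENNReal.toReal_ofReal (by linarith [Real.pi_pos])]
    ring
  rw [this]
  simp

theorem real_vol : (volume.real (Ioo (-Real.pi) Real.pi)) = 2 * Real.pi := by
  rw [Measure.real, Real.volume_Ioo, ENNReal.toReal_ofReal (by linarith [Real.pi_pos])]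
  ring

theorem vth_nonneg (h5 : Stmt_Slices) {m : ℕ} (hm : 2 ≤ m) {A : Set ℂ} (hA : MeasurableSet A)
    (θ : ℝ) : 0 ≤ vth m A θ := by
  obtain ⟨_, _, h⟩ := h5 m 1 A hm one_pos hA
  exact (h θ).1.trans (h θ).2.1

theorem vth_le (h5 : Stmt_Slices) {m : ℕ} (hm : 2 ≤ m) {A : Set ℂ} (hA : MeasurableSet A)
    (θ : ℝ) : vth m A θ ≤ vp m 0 := by
  obtain ⟨_, _, h⟩ := h5 m 1 A hm one_pos hA
  exact (h θ).2.2.2

theorem integrable_vth (h5 : Stmt_Slices) {m : ℕ} (hm : 2 ≤ m) {A : Set ℂ}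
    (hA : MeasurableSet A) : IntegrableOn (vth m A) (Ioo (-Real.pi) Real.pi) := by
  obtain ⟨h1, _, h⟩ := h5 m 1 A hm one_pos hA
  refine Measure.integrableOn_of_bounded (M := vp m 0) ?_ h1.aestronglyMeasurable ?_
  · simp
  · refine Eventually.of_forall fun θ => ?_
    rw [Real.norm_of_nonneg (vth_nonneg h5 hm hA θ)]
    exact vth_le h5 hm hA θ

theorem osc_bounds (h4 : Stmt_Polar) (h5 : Stmt_Slices) (h7 : Stmt_Osc) {m : ℕ} (hm : 2 ≤ m)
    {A : Set ℂ} (hA : MeasurableSet A) {R' P : ℝ} (hR' : 0 < R') (hP : 0 ≤ P)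
    (hPer : P0 m A ≤ ENNReal.ofReal P) :
    ∀ᵐ θ ∂(volume.restrict (Ioo (-Real.pi) Real.pi)),
      V0 m A / (2 * Real.pi) - (R' * P + vp m R') ≤ vth m A θ ∧
      vth m A θ ≤ V0 m A / (2 * Real.pi) + (R' * P + vp m R') := by
  obtain ⟨hm1, hm2, hb⟩ := h5 m R' A hm hR' hA
  have hosc := h7 m R' P A hm hR' hP hA hPer
  have hmeas : MeasurableSet {x : ℝ × ℝ | vt m R' A x.1 ≤ vt m R' A x.2 + R' * P} :=
    measurableSet_le (hm2.comp measurable_fst) ((hm2.comp measurable_snd).add_const _)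
  have hosc' := (Measure.ae_ae_comm (μ := volume.restrict (Ioo (-Real.pi) Real.pi))
    (ν := volume.restrict (Ioo (-Real.pi) Real.pi))
    (p := fun θ θ' => vt m R' A θ ≤ vt m R' A θ' + R' * P) hmeas).1 hosc
  have hint := integrable_vth h5 hm hA
  have hpi := Real.pi_pos
  have hV := h4 m A hm hA
  have hconst : ∀ c : ℝ, IntegrableOn (fun _ : ℝ => c) (Ioo (-Real.pi) Real.pi) := by
    intro c
    exact integrableOn_const (by simp)
  filter_upwards [hosc, hosc'] with θ h1 h2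
  constructor
  · -- lower bound: V0 ≤ 2π (vth θ + E)
    have h3 : ∫ θ' in Ioo (-Real.pi) Real.pi, vth m A θ' ≤
        ∫ θ' in Ioo (-Real.pi) Real.pi, (vth m A θ + (R' * P + vp m R')) := by
      refine integral_mono_ae hint (hconst _) ?_
      filter_upwards [h2] with θ' h
      have := (hb θ').2.2.1
      have := (hb θ).2.1
      linarith
    rw [setIntegral_const, real_vol, smul_eq_mul, ← hV] at h3
    have : V0 m A / (2 * Real.pi) ≤ vth m A θ + (R' * P + vp m R') := by
      rw [div_le_iff₀ (by positivity)]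
      linarith
    linarith
  · have h3 : ∫ θ' in Ioo (-Real.pi) Real.pi, (vth m A θ - (R' * P + vp m R')) ≤
        ∫ θ' in Ioo (-Real.pi) Real.pi, vth m A θ' := by
      refine integral_mono_ae (hconst _) hint ?_
      filter_upwards [h1] with θ' h
      have := (hb θ').2.1
      have := (hb θ).2.2.1
      linarith
    rw [setIntegral_const, real_vol, smul_eq_mul, ← hV] at h3
    have : vth m A θ - (R' * P + vp m R') ≤ V0 m A / (2 * Real.pi) := by
      rw [le_div_iff₀ (by positivity)]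
      linarith
    linarith

theorem s3_good (h6 : Stmt_S3) {m : ℕ} (hm : 2 ≤ m) {A : Set ℂ} (hA : MeasurableSet A)
    {p : ℝ → ℝ} {P : ℝ} (hp : Measurable p) (h0 : ∀ θ, 0 ≤ p θ) (hP : ∀ θ, p θ ≤ P)
    {S : Set ℝ} (hS : MeasurableSet S)
    (hae : ∀ᵐ θ ∂(volume.restrict (Ioo (-Real.pi) Real.pi)), θ ∈ S)
    (h1 : ∀ θ ∈ S, ENNReal.ofReal (p θ) ≤ p1 m 0 m (Sl m A θ)) :
    ENNReal.ofReal (∫ θ in Ioo (-Real.pi) Real.pi, p θ) ≤ P0 m A := by
  have hP0 : 0 ≤ P := (h0 0).trans (hP 0)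
  have key := h6 m 1 0 P 0 A (S.indicator p) (fun _ => 0) (fun _ => 0) hm one_pos hA
    (hp.indicator hS) (fun θ => indicator_nonneg (fun θ _ => h0 θ) θ)
    (fun θ => indicator_le' (fun θ _ => hP θ) (fun θ _ => hP0) θ)
    (by
      intro θ _
      by_cases hθ : θ ∈ S
      · rw [indicator_of_mem hθ]; exact h1 θ hθ
      · rw [indicator_of_notMem hθ]; simp)
    measurable_const (by simp) (by simp) (by simp) (by simp)
  refine le_trans (le_of_eq ?_) key
  congr 1
  refine integral_congr_ae ?_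
  filter_upwards [hae] with θ hθ
  simp [indicator_of_mem hθ]

theorem iso1_use {m m₀ : ℕ} {vmax : ℝ} (hIso : ∀ m ≥ m₀, ∀ (A : Set ℝ) (ρ : ℝ),
    MeasurableSet A → 0 < ρ → ρ ≤ m → ∫ r in A ∩ Ioo 0 (m : ℝ), hp m r ≤ vmax →
    vp m ρ = ∫ r in A ∩ Ioo 0 (m : ℝ), hp m r →
    ENNReal.ofReal (vp m ρ * (1 - 1 / (1 + ρ))) ≤ p1 m 0 m A)
    (h1 : Stmt_Prof) (h5 : Stmt_Slices) (hm : 2 ≤ m) (hmm : m₀ ≤ m) {A : Set ℂ}
    (hA : MeasurableSet A) {θ r : ℝ} (hr : 0 < r) (hrm : r ≤ m) (hv : vth m A θ ≤ vp m r)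
    (hvm : vth m A θ ≤ vmax) :
    ENNReal.ofReal (vth m A θ * (1 - 1 / (1 + r))) ≤ p1 m 0 m (Sl m A θ) := by
  obtain ⟨_, hcont, hanti, _⟩ := h1 m hm
  have hvpm : vp m m = 0 := by simp [vp]
  have h0 := vth_nonneg h5 hm hA θ
  have hc : ContinuousOn (vp m) (Icc r (m : ℝ)) :=
    hcont.mono (Icc_subset_Icc hr.le le_rfl)
  have hmem : vth m A θ ∈ Icc (vp m m) (vp m r) := ⟨by rw [hvpm]; exact h0, hv⟩
  obtain ⟨ρ, hρ, hρe⟩ := intermediate_value_Icc' hrm hc hmem
  have h2 := hIso m hmm (Sl m A θ) ρ (measurableSet_Sl hA θ) (hr.trans_le hρ.1) hρ.2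
    (by rw [vth_eq]; exact hvm) (by rw [vth_eq]; exact hρe)
  refine le_trans (ENNReal.ofReal_le_ofReal ?_) h2
  rw [hρe]
  refine mul_le_mul_of_nonneg_left ?_ h0
  have : 1 / (1 + ρ) ≤ 1 / (1 + r) := one_div_le_one_div_of_le (by linarith) (by linarith [hρ.1])
  linarith

end CrudeAux

end Pool.Agent.Lib.MP_c95dcf_gt
end

section

/-!
# MP_c95dcf_gt, part B, task B17 (first half): radial test fields in polar coordinates
-/

set_option autoImplicit false

open MeasureTheory Set Filter Topology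
open scoped ENNReal NNReal

namespace Pool.Agent.Lib.MP_c95dcf_gt

namespace CrudeRad

/-- The scalar test function. -/
noncomputable def phi (b g : ℝ → ℝ) (c : ℂ) : ℝ := b ‖c‖ / ‖c‖ * g (Complex.arg c)

theorem arg_contDiffAt {c : ℂ} (hc : c ∈ Complex.slitPlane) {n : WithTop ℕ∞} :
    ContDiffAt ℝ n Complex.arg c := by
  have h1 : ContDiffAt ℝ n Complex.log c := (Complex.contDiffAt_log hc).restrict_scalars ℝ
  have h2 : ContDiffAt ℝ n (fun z => (Complex.log z).im) c :=
    Complex.imCLM.contDiff.contDiffAt.comp c h1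
  exact h2.congr_of_eventuallyEq (Eventually.of_forall fun z => by simp [Complex.log_im])

theorem phi_zero_near {m : ℕ} {b g : ℝ → ℝ} (hb2 : tsupport b ⊆ Ioo 0 (m : ℝ))
    (hg1 : HasCompactSupport g) (hg2 : tsupport g ⊆ Ioo (-Real.pi) Real.pi) {c : ℂ}
    (hc : c ∉ Complex.slitPlane) : ∀ᶠ z in 𝓝 c, phi b g z = 0 := by
  by_cases h0 : c = 0
  · subst h0
    have h1 : (tsupport b)ᶜ ∈ 𝓝 (0 : ℝ) :=
      (isClosed_tsupport b).isOpen_compl.mem_nhds fun h => lt_irrefl _ (hb2 h).1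
    have h2 : Tendsto (fun z : ℂ => ‖z‖) (𝓝 0) (𝓝 0) := by
      simpa using (continuous_norm.tendsto (0 : ℂ))
    filter_upwards [h2 h1] with z hz
    have : b ‖z‖ = 0 := image_eq_zero_of_notMem_tsupport hz
    simp [phi, this]
  · -- on the negative real axis
    rw [Complex.mem_slitPlane_iff] at hc
    push Not at hc
    obtain ⟨hre, him⟩ := hc
    have hnorm : ‖c‖ = -c.re := by
      have : c = (c.re : ℂ) := by
        apply Complex.ext <;> simp [him]
      rw [this, Complex.norm_real, Real.norm_of_nonpos hre]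
      simp
    have hne : ‖c‖ ≠ 0 := norm_ne_zero_iff.2 h0
    have hcont : ContinuousAt (fun z : ℂ => z.re / ‖z‖) c :=
      Complex.continuous_re.continuousAt.div continuous_norm.continuousAt hne
    have hval : c.re / ‖c‖ = -1 := by
      have hre0 : c.re ≠ 0 := by
        intro h
        apply hne
        rw [hnorm, h]; simp
      rw [hnorm, div_neg, div_self hre0]
    -- cosine is bounded below on the support of g
    obtain ⟨κ, hκ, hκ2⟩ : ∃ κ : ℝ, -1 < κ ∧ ∀ x ∈ tsupport g, κ ≤ Real.cos x := by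
      by_cases hemp : (tsupport g).Nonempty
      · obtain ⟨x, hx, hmin⟩ := hg1.isCompact.exists_isMinOn hemp
          Real.continuous_cos.continuousOn
        refine ⟨Real.cos x, ?_, fun y hy => hmin hy⟩
        have hx' := hg2 hx
        rw [← Real.cos_pi]
        rw [← Real.cos_abs x]
        apply Real.cos_lt_cos_of_nonneg_of_le_pi (abs_nonneg _) le_rfl
        exact abs_lt.2 hx'
      · refine ⟨0, by norm_num, fun x hx => (hemp ⟨x, hx⟩).elim⟩
    have h3 : ∀ᶠ z in 𝓝 c, z.re / ‖z‖ < κ := by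
      apply hcont.eventually_lt_const
      show c.re / ‖c‖ < κ
      rw [hval]; exact hκ
    have h4 : ∀ᶠ z in 𝓝 c, z ≠ 0 := isOpen_ne.mem_nhds h0
    filter_upwards [h3, h4] with z hz hz0
    have : g (Complex.arg z) = 0 := by
      apply image_eq_zero_of_notMem_tsupport
      intro hmem
      have := hκ2 _ hmem
      rw [Complex.cos_arg hz0] at this
      linarith
    simp [phi, this]

theorem phi_contDiff {m : ℕ} {b g : ℝ → ℝ} {n : WithTop ℕ∞} (hb : ContDiff ℝ n b)
    (hb2 : tsupport b ⊆ Ioo 0 (m : ℝ)) (hg : ContDiff ℝ n g)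
    (hg1 : HasCompactSupport g) (hg2 : tsupport g ⊆ Ioo (-Real.pi) Real.pi) :
    ContDiff ℝ n (phi b g) := by
  rw [contDiff_iff_contDiffAt]
  intro c
  by_cases hc : c ∈ Complex.slitPlane
  · have hc0 : c ≠ 0 := Complex.slitPlane_ne_zero hc
    have h1 : ContDiffAt ℝ n (fun z : ℂ => ‖z‖) c := contDiffAt_norm ℝ hc0
    exact ((hb.contDiffAt.comp c h1).div h1 (norm_ne_zero_iff.2 hc0)).mul
      (hg.contDiffAt.comp c (arg_contDiffAt hc))
  · exact contDiffAt_const.congr_of_eventuallyEq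
      (phi_zero_near hb2 hg1 hg2 hc : ∀ᶠ z in 𝓝 c, phi b g z = 0)

theorem phi_tsupport {b g : ℝ → ℝ} : tsupport (phi b g) ⊆ {c : ℂ | ‖c‖ ∈ tsupport b} := by
  apply closure_minimal
  · intro c hc
    apply subset_tsupport b
    intro h
    apply hc
    simp [phi, h]
  · exact (isClosed_tsupport b).preimage continuous_norm

theorem phi_supp {m : ℕ} {b g : ℝ → ℝ} (hb2 : tsupport b ⊆ Ioo 0 (m : ℝ)) :
    tsupport (phi b g) ⊆ Dp m := by
  intro c hc
  have h := hb2 (phi_tsupport hc)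
  refine ⟨by simpa using h.2, ?_⟩
  intro h0
  rw [mem_singleton_iff] at h0
  subst h0
  simp at h

theorem phi_comp {m : ℕ} {b g : ℝ → ℝ} (hb2 : tsupport b ⊆ Ioo 0 (m : ℝ)) :
    HasCompactSupport (phi b g) := by
  refine HasCompactSupport.of_support_subset_isCompact (isCompact_closedBall (0 : ℂ) m) ?_
  intro c hc
  have := (phi_supp (g := g) hb2 (subset_tsupport _ hc)).1
  exact Metric.ball_subset_closedBall this

/-- Divergence of a radial field. -/
theorem dvc_radial {u : ℂ → ℝ} {c : ℂ} (hu : DifferentiableAt ℝ u c) :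
    dvc (fun c => (u c : ℂ) * c) c = fderiv ℝ u c c + 2 * u c := by
  have h1 : HasFDerivAt (fun z : ℂ => (u z : ℂ))
      (Complex.ofRealCLM.comp (fderiv ℝ u c)) c :=
    Complex.ofRealCLM.hasFDerivAt.comp c hu.hasFDerivAt
  have h2 := h1.mul (hasFDerivAt_id (𝕜 := ℝ) c)
  have h3 : fderiv ℝ (fun c => (u c : ℂ) * c) c = _ := h2.fderiv
  unfold dvc
  rw [h3]
  have hlin : fderiv ℝ u c c = c.re * fderiv ℝ u c 1 + c.im * fderiv ℝ u c Complex.I := by
    have : c = c.re • (1 : ℂ) + c.im • Complex.I := by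
      apply Complex.ext <;> simp
    conv_lhs => rw [this]
    rw [map_add, map_smul, map_smul]
    simp
  rw [hlin]
  simp [Complex.add_re, Complex.add_im]
  ring

theorem dvc_phi {m : ℕ} {b g : ℝ → ℝ} (hb : ContDiff ℝ 2 b)
    (hb2 : tsupport b ⊆ Ioo 0 (m : ℝ)) (hg : ContDiff ℝ 2 g)
    (hg1 : HasCompactSupport g) (hg2 : tsupport g ⊆ Ioo (-Real.pi) Real.pi) {c : ℂ}
    (hc : c ≠ 0) :
    dvc (fun c => ((phi b g c / ‖c‖ : ℝ) : ℂ) * c) c =
      deriv b ‖c‖ / ‖c‖ * g (Complex.arg c) := by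
  have hphi := phi_contDiff hb hb2 hg hg1 hg2
  have hn : ‖c‖ ≠ 0 := norm_ne_zero_iff.2 hc
  have hnpos : 0 < ‖c‖ := norm_pos_iff.2 hc
  have hu : DifferentiableAt ℝ (fun z : ℂ => phi b g z / ‖z‖) c := by
    have h1 : ContDiffAt ℝ 1 (phi b g) c := hphi.contDiffAt.of_le (by norm_num)
    exact (h1.div (contDiffAt_norm ℝ hc) hn).differentiableAt (by norm_num)
  rw [dvc_radial hu]
  -- derivative along the ray
  have hline : HasDerivAt (fun s : ℝ => c + s • c) c 0 := by
    have := ((hasDerivAt_id (0 : ℝ)).smul_const c).const_add c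
    simpa using this
  have hu' : HasFDerivAt (fun z : ℂ => phi b g z / ‖z‖)
      (fderiv ℝ (fun z : ℂ => phi b g z / ‖z‖) c) (c + (0 : ℝ) • c) := by
    simpa using hu.hasFDerivAt
  have h1 : HasDerivAt (fun s : ℝ => phi b g (c + s • c) / ‖c + s • c‖)
      (fderiv ℝ (fun z : ℂ => phi b g z / ‖z‖) c c) 0 :=
    HasFDerivAt.comp_hasDerivAt (f := fun s : ℝ => c + s • c)
      (l := fun z : ℂ => phi b g z / ‖z‖) (0 : ℝ) hu' hline
  have h2 : (fun s : ℝ => phi b g (c + s • c) / ‖c + s • c‖) =ᶠ[𝓝 0]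
      fun s : ℝ => b ((1 + s) * ‖c‖) / ((1 + s) * ‖c‖) ^ 2 * g (Complex.arg c) := by
    have : ∀ᶠ s : ℝ in 𝓝 0, -1 < s := lt_mem_nhds (by norm_num)
    filter_upwards [this] with s hs
    have hs1 : 0 < 1 + s := by linarith
    have e1 : c + s • c = ((1 + s : ℝ) : ℂ) * c := by
      simp [add_mul]
    have e2 : ‖c + s • c‖ = (1 + s) * ‖c‖ := by
      rw [e1, norm_mul, Complex.norm_real, Real.norm_of_nonneg hs1.le]
    have e3 : Complex.arg (c + s • c) = Complex.arg c := by
      rw [e1, Complex.arg_real_mul _ hs1]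
    unfold phi
    rw [e2, e3]
    field_simp
  have hbd : HasDerivAt b (deriv b ‖c‖) ((1 + 0) * ‖c‖) := by
    have := (hb.differentiable (by norm_num) ‖c‖).hasDerivAt
    simpa using this
  have hlin : HasDerivAt (fun s : ℝ => (1 + s) * ‖c‖) ‖c‖ 0 := by
    have := ((hasDerivAt_id (0 : ℝ)).const_add 1).mul_const ‖c‖
    simpa using this
  have h3 : HasDerivAt (fun s : ℝ => b ((1 + s) * ‖c‖)) (deriv b ‖c‖ * ‖c‖) 0 :=
    hbd.comp (0 : ℝ) hlin
  have h4 : HasDerivAt (fun s : ℝ => ((1 + s) * ‖c‖) ^ 2) (2 * ‖c‖ ^ 2) 0 := by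
    have := hlin.pow 2
    refine this.congr_deriv ?_
    norm_num
    ring
  have h5 := (h3.div h4 (by simpa using hn)).mul_const (g (Complex.arg c))
  have h6 := (h5.congr_of_eventuallyEq h2).unique h1
  rw [← h6]
  simp only [add_zero, one_mul, phi]
  field_simp
  ring

end CrudeRad

end Pool.Agent.Lib.MP_c95dcf_gt
end

section

/-!
# MP_c95dcf_gt, part B, task B17 (second part): slices of radially invariant sets
-/

set_option autoImplicit false

open MeasureTheory Set Filter Topology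
open scoped ENNReal NNReal ContDiff

namespace Pool.Agent.Lib.MP_c95dcf_gt

namespace CrudeRad

/-- The points of `A` in polar coordinates, angle first. -/
def PS (m : ℕ) (A : Set ℂ) : Set (ℝ × ℝ) :=
  {p | p.2 ∈ Ioo 0 (m : ℝ) ∧ (p.2 : ℂ) * Complex.exp (p.1 * Complex.I) ∈ A}

theorem measurableSet_PS {m : ℕ} {A : Set ℂ} (hA : MeasurableSet A) :
    MeasurableSet (PS m A) := by
  have h1 : Measurable fun p : ℝ × ℝ => (p.2 : ℂ) * Complex.exp (p.1 * Complex.I) := by
    have : Continuous fun p : ℝ × ℝ => (p.2 : ℂ) * Complex.exp (p.1 * Complex.I) := by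
      fun_prop
    exact this.measurable
  exact (measurable_snd measurableSet_Ioo).inter (h1 hA)

/-- The integral of `k` over the slices. -/
noncomputable def SI (m : ℕ) (A : Set ℂ) (k : ℝ → ℝ) (θ : ℝ) : ℝ := ∫ r in Sl m A θ, k r

theorem SI_eq {m : ℕ} {A : Set ℂ} (hA : MeasurableSet A) (k : ℝ → ℝ) (θ : ℝ) :
    SI m A k θ = ∫ r, (PS m A).indicator (fun p : ℝ × ℝ => k p.2) (θ, r) := by
  rw [SI, ← integral_indicator (CrudeAux.measurableSet_Sl hA θ)]
  rfl

theorem SI_meas {m : ℕ} {A : Set ℂ} (hA : MeasurableSet A) {k : ℝ → ℝ} (hk : Measurable k) :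
    StronglyMeasurable (SI m A k) := by
  have h1 : StronglyMeasurable ((PS m A).indicator (fun p : ℝ × ℝ => k p.2)) :=
    ((hk.comp measurable_snd).indicator (measurableSet_PS hA)).stronglyMeasurable
  have h2 := h1.integral_prod_right' (ν := (volume : Measure ℝ))
  have h3 : SI m A k = fun θ => ∫ r, (PS m A).indicator (fun p : ℝ × ℝ => k p.2) (θ, r) := by
    ext θ; exact SI_eq hA k θ
  rw [h3]; exact h2

theorem SI_bound {m : ℕ} {A : Set ℂ} {k : ℝ → ℝ} (hk : Integrable k) (θ : ℝ) :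
    |SI m A k θ| ≤ ∫ r, |k r| := by
  rw [SI]
  calc |∫ r in Sl m A θ, k r| ≤ ∫ r in Sl m A θ, |k r| := abs_integral_le_integral_abs
    _ ≤ ∫ r, |k r| := setIntegral_le_integral hk.abs (Eventually.of_forall fun _ => abs_nonneg _)

/-- Integral of the divergence of a test field in polar coordinates. -/
theorem integral_dvc {m : ℕ} {A : Set ℂ} (hA : MeasurableSet A) {b g : ℝ → ℝ}
    (hb : ContDiff ℝ 2 b) (hb2 : tsupport b ⊆ Ioo 0 (m : ℝ)) (hg : ContDiff ℝ 2 g)
    (hg1 : HasCompactSupport g) (hg2 : tsupport g ⊆ Ioo (-Real.pi) Real.pi) :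
    ∫ c in A, dvc (fun c => ((phi b g c / ‖c‖ : ℝ) : ℂ) * c) c =
      ∫ θ in Ioo (-Real.pi) Real.pi, g θ * SI m A (deriv b) θ := by
  have hb1 : HasCompactSupport b :=
    HasCompactSupport.of_support_subset_isCompact (isCompact_Icc (a := (0 : ℝ)) (b := m))
      ((subset_tsupport b).trans (hb2.trans Ioo_subset_Icc_self))
  have hdb : Continuous (deriv b) := hb.continuous_deriv (by norm_num)
  have hdb1 : HasCompactSupport (deriv b) := hb1.deriv
  have hdb2 : tsupport (deriv b) ⊆ Ioo 0 (m : ℝ) := fun _ h => hb2 (tsupport_deriv_subset h)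
  have hint1 : Integrable (deriv b) := hdb.integrable_of_hasCompactSupport hdb1
  have hint2 : Integrable g := hg.continuous.integrable_of_hasCompactSupport hg1
  have hS : MeasurableSet {p : ℝ × ℝ | (p.1 : ℂ) * Complex.exp (p.2 * Complex.I) ∈ A} := by
    have : Continuous fun p : ℝ × ℝ => (p.1 : ℂ) * Complex.exp (p.2 * Complex.I) := by
      fun_prop
    exact this.measurable hA
  set H : ℝ × ℝ → ℝ := {p : ℝ × ℝ | (p.1 : ℂ) * Complex.exp (p.2 * Complex.I) ∈ A}.indicator
    (fun p => deriv b p.1 * g p.2) with hH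
  have hHint : Integrable H := (hint1.mul_prod hint2).indicator hS
  rw [← integral_indicator hA, ← Complex.integral_comp_polarCoord_symm]
  have e1 : ∫ p in polarCoord.target, p.1 • A.indicator
      (dvc (fun c => ((phi b g c / ‖c‖ : ℝ) : ℂ) * c)) (Complex.polarCoord.symm p) =
      ∫ p in polarCoord.target, H p := by
    refine setIntegral_congr_fun polarCoord.open_target.measurableSet fun p hp => ?_
    rw [polarCoord_target] at hp
    obtain ⟨hp1, hp2⟩ := hp
    have hp1' : 0 < p.1 := hp1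
    have hz : (Complex.polarCoord.symm p : ℂ) = (p.1 : ℂ) * Complex.exp (p.2 * Complex.I) := by
      rw [Complex.polarCoord_symm_apply, Complex.exp_mul_I]
      simp
    have hzn : ‖(p.1 : ℂ) * Complex.exp (p.2 * Complex.I)‖ = p.1 := by
      rw [norm_mul, Complex.norm_exp_ofReal_mul_I, Complex.norm_real,
        Real.norm_of_nonneg hp1'.le, mul_one]
    have hza : Complex.arg ((p.1 : ℂ) * Complex.exp (p.2 * Complex.I)) = p.2 := by
      rw [Complex.exp_mul_I]
      exact Complex.arg_mul_cos_add_sin_mul_I hp1' ⟨hp2.1, hp2.2.le⟩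
    have hz0 : (p.1 : ℂ) * Complex.exp (p.2 * Complex.I) ≠ 0 := by
      rw [← norm_pos_iff, hzn]; exact hp1'
    simp only [hz]
    rw [hH]
    by_cases hmem : (p.1 : ℂ) * Complex.exp (p.2 * Complex.I) ∈ A
    · rw [indicator_of_mem hmem, indicator_of_mem (show p ∈ {p : ℝ × ℝ |
        (p.1 : ℂ) * Complex.exp (p.2 * Complex.I) ∈ A} from hmem),
        dvc_phi hb hb2 hg hg1 hg2 hz0, hzn, hza, smul_eq_mul]
      field_simp
    · rw [indicator_of_notMem hmem, indicator_of_notMem (show p ∉ {p : ℝ × ℝ |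
        (p.1 : ℂ) * Complex.exp (p.2 * Complex.I) ∈ A} from hmem), smul_zero]
  rw [e1, polarCoord_target]
  have e2 : ∫ p in Ioi (0 : ℝ) ×ˢ Ioo (-Real.pi) Real.pi, H p =
      ∫ θ in Ioo (-Real.pi) Real.pi, ∫ r in Ioi (0 : ℝ), H (r, θ) := by
    rw [Measure.volume_eq_prod, ← Measure.prod_restrict]
    rw [integral_prod_symm]
    rw [Measure.prod_restrict]
    exact hHint.integrableOn
  rw [e2]
  refine setIntegral_congr_fun measurableSet_Ioo fun θ _ => ?_
  show ∫ r in Ioi (0 : ℝ), H (r, θ) = g θ * SI m A (deriv b) θ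
  have e3 : ∀ r : ℝ, H (r, θ) = g θ *
      ({r : ℝ | (r : ℂ) * Complex.exp (θ * Complex.I) ∈ A}.indicator (deriv b) r) := by
    intro r
    rw [hH]
    by_cases hmem : (r : ℂ) * Complex.exp (θ * Complex.I) ∈ A
    · rw [indicator_of_mem (show (r, θ) ∈ {p : ℝ × ℝ |
        (p.1 : ℂ) * Complex.exp (p.2 * Complex.I) ∈ A} from hmem),
        indicator_of_mem (show r ∈ {r : ℝ | (r : ℂ) * Complex.exp (θ * Complex.I) ∈ A} from hmem)]
      ring
    · rw [indicator_of_notMem (show (r, θ) ∉ {p : ℝ × ℝ |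
        (p.1 : ℂ) * Complex.exp (p.2 * Complex.I) ∈ A} from hmem),
        indicator_of_notMem (show r ∉ {r : ℝ | (r : ℂ) * Complex.exp (θ * Complex.I) ∈ A}
          from hmem)]
      simp
  simp_rw [e3]
  rw [integral_const_mul]
  congr 1
  have hray : MeasurableSet {r : ℝ | (r : ℂ) * Complex.exp (θ * Complex.I) ∈ A} := by
    have : Continuous fun r : ℝ => (r : ℂ) * Complex.exp (θ * Complex.I) := by fun_prop
    exact this.measurable hA
  rw [setIntegral_indicator hray, SI]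
  refine setIntegral_eq_of_subset_of_forall_sdiff_eq_zero
    (measurableSet_Ioi.inter hray) ?_ ?_
  · rintro r ⟨hr1, hr2⟩
    exact ⟨hr1.1, hr2⟩
  · rintro r ⟨⟨hr1, hr2⟩, hr3⟩
    apply image_eq_zero_of_notMem_tsupport
    intro hmem
    exact hr3 ⟨hdb2 hmem, hr2⟩

theorem slice_deriv {m : ℕ} {A : Set ℂ} (hA : MeasurableSet A) (hR : Rad m A) {b : ℝ → ℝ}
    (hb : ContDiff ℝ ∞ b) (hb2 : tsupport b ⊆ Ioo 0 (m : ℝ)) :
    ∀ᵐ θ : ℝ, θ ∈ Ioo (-Real.pi) Real.pi → SI m A (deriv b) θ = 0 := by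
  have hb1 : HasCompactSupport b :=
    HasCompactSupport.of_support_subset_isCompact (isCompact_Icc (a := (0 : ℝ)) (b := m))
      ((subset_tsupport b).trans (hb2.trans Ioo_subset_Icc_self))
  have hb' : ContDiff ℝ 2 b := by exact_mod_cast contDiff_infty.1 hb 2
  have hdb : Continuous (deriv b) := hb'.continuous_deriv (by norm_num)
  have hint1 : Integrable (deriv b) := hdb.integrable_of_hasCompactSupport hb1.deriv
  apply isOpen_Ioo.ae_eq_zero_of_integral_contDiff_smul_eq_zero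
  · have : LocallyIntegrable (SI m A (deriv b)) := by
      rw [locallyIntegrable_iff]
      intro K hK
      refine Measure.integrableOn_of_bounded (M := ∫ r, |deriv b r|) hK.measure_lt_top.ne
        (SI_meas hA hdb.measurable).aestronglyMeasurable ?_
      exact Eventually.of_forall fun θ => by
        rw [Real.norm_eq_abs]; exact SI_bound hint1 θ
    exact this.locallyIntegrableOn _
  · intro g hg hg1 hg2
    have hg' : ContDiff ℝ 2 g := by exact_mod_cast contDiff_infty.1 hg 2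
    have h1 := hR (phi b g) (phi_contDiff hb' hb2 hg' hg1 hg2) (phi_comp hb2) (phi_supp hb2)
    rw [integral_dvc hA hb' hb2 hg' hg1 hg2] at h1
    rw [← h1]
    simp only [smul_eq_mul]
    symm
    apply setIntegral_eq_integral_of_forall_compl_eq_zero
    intro θ hθ
    have : g θ = 0 := by
      apply image_eq_zero_of_notMem_tsupport
      exact fun h => hθ (hg2 h)
    rw [this, zero_mul]

/-- Compactly supported primitives. -/
theorem exists_prim {m : ℕ} (hm : 2 ≤ m) {k : ℝ → ℝ} (hk : ContDiff ℝ ∞ k)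
    (hk2 : tsupport k ⊆ Ioo 0 (m : ℝ)) (hk0 : ∫ r, k r = 0) :
    ∃ b : ℝ → ℝ, ContDiff ℝ ∞ b ∧ tsupport b ⊆ Ioo 0 (m : ℝ) ∧ deriv b = k := by
  have hmr : (2 : ℝ) ≤ m := by exact_mod_cast hm
  have hk1 : IsCompact (tsupport k) :=
    IsCompact.of_isClosed_subset isCompact_Icc (isClosed_tsupport k)
      (hk2.trans Ioo_subset_Icc_self)
  obtain ⟨α, β, hα, hβ, hαβ⟩ : ∃ α β : ℝ, 0 < α ∧ β < m ∧ tsupport k ⊆ Icc α β := by
    by_cases hne : (tsupport k).Nonempty
    · obtain ⟨α, hα⟩ := hk1.exists_isLeast hne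
      obtain ⟨β, hβ⟩ := hk1.exists_isGreatest hne
      exact ⟨α, β, (hk2 hα.1).1, (hk2 hβ.1).2, fun x hx => ⟨hα.2 hx, hβ.2 hx⟩⟩
    · rw [not_nonempty_iff_eq_empty] at hne
      exact ⟨1, 1, one_pos, by linarith, by rw [hne]; exact empty_subset _⟩
  set b : ℝ → ℝ := fun r => ∫ t in (0 : ℝ)..r, k t with hb
  have hder : ∀ r, HasDerivAt b (k r) r := fun r =>
    (hk.continuous.integral_hasStrictDerivAt 0 r).hasDerivAt
  have hderiv : deriv b = k := funext fun r => (hder r).deriv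
  refine ⟨b, ?_, ?_, hderiv⟩
  · rw [contDiff_infty_iff_deriv]
    exact ⟨fun r => (hder r).differentiableAt, by rw [hderiv]; exact hk⟩
  · have hsupp : Function.support b ⊆ Icc α β := by
      intro r hr
      by_contra hcon
      apply hr
      rw [mem_Icc, not_and_or, not_le, not_le] at hcon
      rcases hcon with h | h
      · have : ∀ t ∈ uIcc 0 r, k t = 0 := by
          intro t ht
          apply image_eq_zero_of_notMem_tsupport
          intro hmem
          have h1 := (hαβ hmem).1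
          have h2 : t ≤ max 0 r := (mem_uIcc.1 ht).elim
            (fun h => h.2.trans (le_max_right _ _)) (fun h => h.2.trans (le_max_left _ _))
          have h3 : max 0 r < α := max_lt hα h
          linarith
        rw [hb]
        simp only
        rw [intervalIntegral.integral_congr this]
        simp
      · rw [hb]
        simp only
        by_cases hne : (Function.support k).Nonempty
        · obtain ⟨x, hx⟩ := hne
          have hx' := hαβ (subset_tsupport k hx)
          rw [intervalIntegral.integral_eq_integral_of_support_subset, hk0]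
          intro t ht
          have := hαβ (subset_tsupport k ht)
          exact ⟨by linarith [this.1], by linarith [this.2]⟩
        · rw [not_nonempty_iff_eq_empty, Function.support_eq_empty_iff] at hne
          rw [hne]; simp
    exact (closure_minimal hsupp isClosed_Icc).trans
      (fun x hx => ⟨hα.trans_le hx.1, lt_of_le_of_lt hx.2 hβ⟩)

/-- The slices have constant density on test functions. -/
theorem slice_test {m : ℕ} (hm : 2 ≤ m) {A : Set ℂ} (hA : MeasurableSet A) (hR : Rad m A)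
    {β₀ : ℝ → ℝ} (hβ : ContDiff ℝ ∞ β₀) (hβ2 : tsupport β₀ ⊆ Ioo 0 (m : ℝ))
    (hβ0 : ∫ r, β₀ r = 1) {k : ℝ → ℝ} (hk : ContDiff ℝ ∞ k)
    (hk2 : tsupport k ⊆ Ioo 0 (m : ℝ)) :
    ∀ᵐ θ : ℝ, θ ∈ Ioo (-Real.pi) Real.pi → SI m A k θ = (∫ r, k r) * SI m A β₀ θ := by
  have hcs : ∀ f : ℝ → ℝ, tsupport f ⊆ Ioo 0 (m : ℝ) → HasCompactSupport f := fun f hf =>
    HasCompactSupport.of_support_subset_isCompact (isCompact_Icc (a := (0 : ℝ)) (b := m))
      ((subset_tsupport f).trans (hf.trans Ioo_subset_Icc_self))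
  have hki : Integrable k := hk.continuous.integrable_of_hasCompactSupport (hcs k hk2)
  have hβi : Integrable β₀ := hβ.continuous.integrable_of_hasCompactSupport (hcs β₀ hβ2)
  set I := ∫ r, k r with hI
  set k' : ℝ → ℝ := fun r => k r - I * β₀ r with hk'
  have h1 : ContDiff ℝ ∞ k' := hk.sub (contDiff_const.mul hβ)
  have h2 : tsupport k' ⊆ Ioo 0 (m : ℝ) := by
    have : tsupport k' ⊆ tsupport k ∪ tsupport β₀ := by
      apply closure_minimal _ ((isClosed_tsupport k).union (isClosed_tsupport β₀))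
      intro r hr
      by_contra hcon
      rw [mem_union, not_or] at hcon
      apply hr
      show k r - I * β₀ r = 0
      rw [image_eq_zero_of_notMem_tsupport hcon.1, image_eq_zero_of_notMem_tsupport hcon.2]
      ring
    exact this.trans (union_subset hk2 hβ2)
  have h3 : ∫ r, k' r = 0 := by
    rw [hk', integral_sub hki (hβi.const_mul I), integral_const_mul, hβ0, ← hI]
    ring
  obtain ⟨b, hb, hb2, hbd⟩ := exists_prim hm h1 h2 h3
  filter_upwards [slice_deriv hA hR hb hb2] with θ hθ hmem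
  have h4 := hθ hmem
  rw [hbd] at h4
  have h5 : SI m A k' θ = SI m A k θ - I * SI m A β₀ θ := by
    rw [SI, hk', integral_sub hki.integrableOn (hβi.const_mul I).integrableOn,
      integral_const_mul]
    rfl
  linarith

end CrudeRad

end Pool.Agent.Lib.MP_c95dcf_gt
end
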