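import Pool.Agent.Lib.MP_c95dcf_gt.Mg.G007
import Pool.Agent.Lib.MP_c95dcf_gt.Crude
import Pool.Agent.Lib.MP_c95dcf_gt.SliceMeas

section

/-!
# MP_c95dcf_gt, part B, task B17: radially invariant sets have large perimeter
-/

set_option autoImplicit false

open MeasureTheory Set Filter Topology
open scoped ENNReal NNReal ContDiff

namespace Pool.Agent.Lib.MP_c95dcf_gt

namespace CrudeRad

theorem quot_lt (n : ℕ) : (1 : ℝ) / (n + 3) < 1 / (n + 2) := by
  apply one_div_lt_one_div_of_lt <;> [positivity; linarith]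

theorem quot_le (n : ℕ) : (1 : ℝ) / (n + 2) < 1 := by
  rw [div_lt_one (by positivity)]
  have : (0 : ℝ) ≤ n := n.cast_nonneg
  linarith

/-- Bumps approximating the indicator of an interval of centre `c` and radius `d`. -/
noncomputable def bmp (c d : ℝ) (hd : 0 < d) (n : ℕ) : ContDiffBump c where
  rIn := d * (1 - 1 / (n + 2))
  rOut := d * (1 - 1 / (n + 3))
  rIn_pos := mul_pos hd (by linarith [quot_le n])
  rIn_lt_rOut := mul_lt_mul_of_pos_left (by linarith [quot_lt n]) hd

theorem bmp_out (c d : ℝ) (hd : 0 < d) (n : ℕ) : (bmp c d hd n).rOut < d := by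
  show d * (1 - 1 / ((n : ℝ) + 3)) < d
  have : (0 : ℝ) < 1 / (n + 3) := by positivity
  nlinarith

theorem bmp_tendsto {c d : ℝ} (hd : 0 < d) (r : ℝ) :
    Tendsto (fun n => bmp c d hd n r) atTop
      (𝓝 ((Ioo (c - d) (c + d)).indicator (fun _ => (1 : ℝ)) r)) := by
  by_cases hr : r ∈ Ioo (c - d) (c + d)
  · rw [indicator_of_mem hr]
    have h1 : Tendsto (fun n : ℕ => d * (1 - 1 / ((n : ℝ) + 2))) atTop (𝓝 (d * (1 - 0))) := by
      apply Tendsto.const_mul
      apply Tendsto.const_sub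
      have h2 : Tendsto (fun n : ℕ => (n : ℝ) + 2) atTop atTop :=
        tendsto_atTop_add_const_right _ _ tendsto_natCast_atTop_atTop
      refine h2.inv_tendsto_atTop.congr fun n => ?_
      rw [one_div]; rfl
    have h3 : dist r c < d * (1 - 0) := by
      rw [Real.dist_eq, abs_lt]
      constructor <;> linarith [hr.1, hr.2]
    refine tendsto_const_nhds.congr' ?_
    filter_upwards [h1.eventually_const_lt h3] with n hn
    symm
    apply ContDiffBump.one_of_mem_closedBall
    exact hn.le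
  · rw [indicator_of_notMem hr]
    refine tendsto_const_nhds.congr fun n => ?_
    symm
    apply ContDiffBump.zero_of_le_dist
    rw [Real.dist_eq]
    by_contra hcon
    push Not at hcon
    have h4 := hcon.trans (bmp_out c d hd n)
    rw [abs_lt] at h4
    apply hr
    constructor <;> linarith [h4.1, h4.2]

theorem bmp_le {c d : ℝ} (hd : 0 < d) (n : ℕ) (r : ℝ) :
    ‖bmp c d hd n r‖ ≤ (Ioo (c - d) (c + d)).indicator (fun _ => (1 : ℝ)) r := by
  by_cases hr : r ∈ Ioo (c - d) (c + d)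
  · rw [indicator_of_mem hr, Real.norm_of_nonneg (ContDiffBump.nonneg _)]
    exact ContDiffBump.le_one _
  · rw [indicator_of_notMem hr]
    have : bmp c d hd n r = 0 := by
      apply ContDiffBump.zero_of_le_dist
      rw [Real.dist_eq]
      by_contra hcon
      push Not at hcon
      have h4 := hcon.trans (bmp_out c d hd n)
      rw [abs_lt] at h4
      apply hr
      constructor <;> linarith [h4.1, h4.2]
    rw [this]; simp

theorem ind_int (a b : ℝ) : Integrable ((Ioo a b).indicator (fun _ => (1 : ℝ))) := by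
  rw [integrable_indicator_iff measurableSet_Ioo]
  exact integrableOn_const (by simp)

theorem bmp_int {c d : ℝ} (hd : 0 < d) (S : Set ℝ) :
    Tendsto (fun n => ∫ r in S, bmp c d hd n r) atTop
      (𝓝 (volume.real (S ∩ Ioo (c - d) (c + d)))) := by
  have h1 : ∫ r in S, (Ioo (c - d) (c + d)).indicator (fun _ => (1 : ℝ)) r =
      volume.real (S ∩ Ioo (c - d) (c + d)) := by
    rw [setIntegral_indicator measurableSet_Ioo, setIntegral_const]
    simp
  rw [← h1]
  refine tendsto_integral_of_dominated_convergence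
    ((Ioo (c - d) (c + d)).indicator (fun _ => (1 : ℝ))) ?_ (ind_int _ _).integrableOn ?_ ?_
  · intro n
    exact (bmp c d hd n).continuous.aestronglyMeasurable
  · intro n
    exact Eventually.of_forall fun r => bmp_le hd n r
  · exact Eventually.of_forall fun r => bmp_tendsto hd r

theorem slice_interval {m : ℕ} (hm : 2 ≤ m) {A : Set ℂ} (hA : MeasurableSet A) (hR : Rad m A)
    {β₀ : ℝ → ℝ} (hβ : ContDiff ℝ ∞ β₀) (hβ2 : tsupport β₀ ⊆ Ioo 0 (m : ℝ))
    (hβ0 : ∫ r, β₀ r = 1) {p q : ℝ} (hp : 0 ≤ p) (hpq : p < q) (hq : q ≤ m) :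
    ∀ᵐ θ : ℝ, θ ∈ Ioo (-Real.pi) Real.pi →
      volume.real (Sl m A θ ∩ Ioo p q) = (q - p) * SI m A β₀ θ := by
  have hd : 0 < (q - p) / 2 := by linarith
  have e1 : (p + q) / 2 - (q - p) / 2 = p := by ring
  have e2 : (p + q) / 2 + (q - p) / 2 = q := by ring
  have hsupp : ∀ n, tsupport (bmp ((p + q) / 2) ((q - p) / 2) hd n) ⊆ Ioo 0 (m : ℝ) := by
    intro n r hr
    rw [ContDiffBump.tsupport_eq, Metric.mem_closedBall, Real.dist_eq] at hr
    have h1 := hr.trans_lt (bmp_out _ _ hd n)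
    rw [abs_lt] at h1
    constructor <;> linarith [h1.1, h1.2]
  have hall : ∀ᵐ θ : ℝ, ∀ n, θ ∈ Ioo (-Real.pi) Real.pi →
      SI m A (bmp ((p + q) / 2) ((q - p) / 2) hd n) θ =
        (∫ r, bmp ((p + q) / 2) ((q - p) / 2) hd n r) * SI m A β₀ θ := by
    rw [ae_all_iff]
    intro n
    exact slice_test hm hA hR hβ hβ2 hβ0 (bmp _ _ hd n).contDiff (hsupp n)
  filter_upwards [hall] with θ hθ hmem
  have t1 := bmp_int (c := (p + q) / 2) hd (Sl m A θ)
  have t2 := bmp_int (c := (p + q) / 2) hd univ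
  rw [e1, e2] at t1 t2
  simp only [Measure.restrict_univ, univ_inter] at t2
  have t3 := t2.mul_const (SI m A β₀ θ)
  have t4 := tendsto_nhds_unique t1 (t3.congr fun n => (hθ n hmem).symm)
  rw [t4, Measure.real, Real.volume_Ioo, ENNReal.toReal_ofReal (by linarith)]

/-- Almost every slice of a radially invariant set is null or full. -/
theorem slice_zero_one {m : ℕ} (hm : 2 ≤ m) {A : Set ℂ} (hA : MeasurableSet A)
    (hR : Rad m A) : ∀ᵐ θ : ℝ, θ ∈ Ioo (-Real.pi) Real.pi →
      volume (Sl m A θ) = 0 ∨ volume (Ioo 0 (m : ℝ) \ Sl m A θ) = 0 := by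
  have hmr : (2 : ℝ) ≤ m := by exact_mod_cast hm
  -- the normalised bump
  let f : ContDiffBump ((m : ℝ) / 2) := ⟨1 / 4, 1 / 2, by norm_num, by norm_num⟩
  have hβ : ContDiff ℝ ∞ (f.normed volume) := f.contDiff_normed
  have hβ2 : tsupport (f.normed volume) ⊆ Ioo 0 (m : ℝ) := by
    intro r hr
    rw [ContDiffBump.tsupport_normed_eq, Metric.mem_closedBall, Real.dist_eq] at hr
    have h1 : |r - m / 2| ≤ 1 / 2 := hr
    rw [abs_le] at h1
    constructor <;> linarith [h1.1, h1.2]
  have hβ0 : ∫ r, f.normed volume r = 1 := f.integral_normed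
  have hall : ∀ᵐ θ : ℝ, ∀ p q : ℚ, 0 ≤ (p : ℝ) → (p : ℝ) < q → (q : ℝ) ≤ m →
      θ ∈ Ioo (-Real.pi) Real.pi →
      volume.real (Sl m A θ ∩ Ioo (p : ℝ) q) = (q - p) * SI m A (f.normed volume) θ := by
    rw [ae_all_iff]
    intro p
    rw [ae_all_iff]
    intro q
    by_cases h1 : 0 ≤ (p : ℝ)
    · by_cases h2 : (p : ℝ) < q
      · by_cases h3 : (q : ℝ) ≤ m
        · filter_upwards [slice_interval hm hA hR hβ hβ2 hβ0 h1 h2 h3] with θ hθ _ _ _
          exact hθ
        · exact Eventually.of_forall fun θ _ _ h => absurd h h3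
      · exact Eventually.of_forall fun θ _ h _ => absurd h h2
    · exact Eventually.of_forall fun θ h _ _ => absurd h h1
  filter_upwards [hall] with θ hθ hmem
  set C := SI m A (f.normed volume) θ with hC
  have hSm := CrudeAux.measurableSet_Sl (m := m) hA θ
  have hfin : ∀ p q : ℝ, volume (Sl m A θ ∩ Ioo p q) ≠ ⊤ := fun p q =>
    (lt_of_le_of_lt (measure_mono inter_subset_right) (by simp)).ne
  have hμν : volume.restrict (Sl m A θ) =
      ENNReal.ofReal C • volume.restrict (Ioo 0 (m : ℝ)) := by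
    apply Real.measure_ext_Ioo_rat
    intro a b
    rw [Measure.restrict_apply measurableSet_Ioo, Measure.smul_apply,
      Measure.restrict_apply measurableSet_Ioo, smul_eq_mul]
    have e1 : Ioo (a : ℝ) b ∩ Sl m A θ =
        Sl m A θ ∩ Ioo ((max a 0 : ℚ) : ℝ) ((min b m : ℚ) : ℝ) := by
      ext r
      simp only [mem_inter_iff, mem_Ioo, Rat.cast_max, Rat.cast_min, Rat.cast_zero,
        Rat.cast_natCast, max_lt_iff, lt_min_iff]
      constructor
      · rintro ⟨⟨h1, h2⟩, h3⟩
        exact ⟨h3, ⟨h1, h3.1.1⟩, h2, h3.1.2⟩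
      · rintro ⟨h3, ⟨h1, _⟩, h2, _⟩
        exact ⟨⟨h1, h2⟩, h3⟩
    have e2 : Ioo (a : ℝ) b ∩ Ioo 0 (m : ℝ) =
        Ioo ((max a 0 : ℚ) : ℝ) ((min b m : ℚ) : ℝ) := by
      rw [Ioo_inter_Ioo]
      simp
    rw [e1, e2]
    rcases lt_or_ge ((max a 0 : ℚ) : ℝ) ((min b m : ℚ) : ℝ) with hlt | hge
    · have h1 := hθ (max a 0) (min b m) (by simp) hlt (by simp) hmem
      rw [← ENNReal.ofReal_toReal (hfin _ _), ← Measure.real, h1, Real.volume_Ioo,
        ENNReal.ofReal_mul (by linarith), mul_comm]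
    · rw [Ioo_eq_empty (not_lt.2 hge)]
      simp
  have h1 : volume.restrict (Sl m A θ) (Ioo 0 (m : ℝ) \ Sl m A θ) = 0 := by
    rw [Measure.restrict_apply (measurableSet_Ioo.diff hSm)]
    simp
  rw [hμν, Measure.smul_apply, smul_eq_mul, mul_eq_zero] at h1
  rcases h1 with h1 | h1
  · left
    have h2 : volume.restrict (Sl m A θ) univ = 0 := by
      rw [hμν, h1]; simp
    simpa using h2
  · right
    rw [Measure.restrict_apply (measurableSet_Ioo.diff hSm)] at h1
    rwa [inter_eq_left.2 sdiff_subset] at h1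

end CrudeRad

open CrudeAux CrudeRad

theorem crudeRad (h1 : Stmt_Prof) (h2 : Stmt_ProfLim) (h3 : Stmt_Polar) (h4 : Stmt_Slices)
    (h5 : Stmt_Osc) : Stmt_CrudeRad := by
  have hl0 := h2.2 0 le_rfl
  have hl10 := h2.2 10 (by norm_num)
  have e1 : ∀ᶠ m : ℕ in atTop, (9 : ℝ) / 10 < vp m 0 :=
    hl0.eventually_const_lt (by simp; norm_num)
  have e2 : ∀ᶠ m : ℕ in atTop, vp m 10 < 1 / 1000 :=
    hl10.eventually_lt_const (by
      have := CrudeAux.exp_ten
      have h : (1 + (10 : ℝ)) = 11 := by norm_num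
      rw [h]; exact this)
  obtain ⟨m₂, hm₂⟩ := (e1.and e2).exists_forall_of_atTop
  have hpi := Real.pi_pos
  refine ⟨1 / 20, max 2 m₂, by norm_num, le_max_left _ _, ?_⟩
  intro m hm A hA hR hpos hlt
  have hm2 : 2 ≤ m := (le_max_left _ _).trans hm
  obtain ⟨hv0, hv10⟩ := hm₂ m ((le_max_right _ _).trans hm)
  by_contra hcon
  push Not at hcon
  have hosc := h5 m 10 (1 / 20) A hm2 (by norm_num) (by norm_num) hA hcon.le
  have hzo : ∀ᵐ θ ∂(volume.restrict (Ioo (-Real.pi) Real.pi)),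
      volume (Sl m A θ) = 0 ∨ volume (Ioo 0 (m : ℝ) \ Sl m A θ) = 0 := by
    rw [ae_restrict_iff' measurableSet_Ioo]
    exact slice_zero_one hm2 hA hR
  obtain ⟨_, _, hb⟩ := h4 m 10 A hm2 (by norm_num) hA
  have hnull : ∀ θ, volume (Sl m A θ) = 0 → vth m A θ = 0 := by
    intro θ h
    rw [vth]
    exact setIntegral_measure_zero _ h
  have hfull : ∀ θ, volume (Ioo 0 (m : ℝ) \ Sl m A θ) = 0 → vth m A θ = vp m 0 := by
    intro θ h
    rw [vth, vp]
    refine setIntegral_congr_set ?_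
    have hsub : Sl m A θ ⊆ Ioo 0 (m : ℝ) := fun _ hr => hr.1
    exact hsub.eventuallyLE.antisymm (ae_le_set.2 h)
  -- some slice is full
  have f1 : ∃ᶠ θ in ae (volume.restrict (Ioo (-Real.pi) Real.pi)),
      vth m A θ = vp m 0 := by
    intro hno
    have : ∀ᵐ θ ∂(volume.restrict (Ioo (-Real.pi) Real.pi)), vth m A θ = 0 := by
      filter_upwards [hno, hzo] with θ ha hb
      rcases hb with hb | hb
      · exact hnull θ hb
      · exact absurd (hfull θ hb) ha
    have h6 := h3 m A hm2 hA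
    rw [integral_congr_ae this] at h6
    simp at h6
    linarith
  have f2 : ∃ᶠ θ in ae (volume.restrict (Ioo (-Real.pi) Real.pi)), vth m A θ = 0 := by
    intro hno
    have : ∀ᵐ θ ∂(volume.restrict (Ioo (-Real.pi) Real.pi)), vth m A θ = vp m 0 := by
      filter_upwards [hno, hzo] with θ ha hb
      rcases hb with hb | hb
      · exact absurd (hnull θ hb) ha
      · exact hfull θ hb
    have h6 := h3 m A hm2 hA
    rw [integral_congr_ae this, setIntegral_const, real_vol, smul_eq_mul] at h6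
    rw [V0_univ h3 hm2] at hlt
    linarith
  obtain ⟨θ, hθ1, hθ2⟩ := (f1.and_eventually hosc).exists
  obtain ⟨θ', hθ'1, hθ'2⟩ := (f2.and_eventually hθ2).exists
  have g1 := (hb θ).2.2.1
  have g2 := (hb θ').2.1
  linarith

end Pool.Agent.Lib.MP_c95dcf_gt
end

section

/-!
# MP_c95dcf_gt, part B: oscillation of the masses of the slices
-/

set_option autoImplicit false

open MeasureTheory Set Filter Topology
open scoped ENNReal NNReal

namespace Pool.Agent.Lib.MP_c95dcf_gt

/-- centring of a function of oscillation at most one. -/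
theorem osc_center {ι : Type*} (s : Set ι) (hs : s.Nonempty) (D : ι → ℝ)
    (h : ∀ x ∈ s, ∀ y ∈ s, D x - D y ≤ 1) : ∃ c : ℝ, ∀ x ∈ s, |c + D x| ≤ 1 / 2 := by
  obtain ⟨x₀, hx₀⟩ := hs
  have hbdd : BddAbove (D '' s) := ⟨D x₀ + 1, by rintro _ ⟨x, hx, rfl⟩; linarith [h x hx x₀ hx₀]⟩
  refine ⟨1 / 2 - sSup (D '' s), fun x hx => ?_⟩
  have h1 : D x ≤ sSup (D '' s) := le_csSup hbdd ⟨x, hx, rfl⟩
  have h2 : sSup (D '' s) ≤ D x + 1 :=
    csSup_le ⟨D x₀, x₀, hx₀, rfl⟩ (by rintro _ ⟨y, hy, rfl⟩; linarith [h y hy x hx])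
  rw [abs_le]
  constructor <;> linarith

theorem osc_key (h : Stmt_S3) {m : ℕ} {R' P : ℝ} {A : Set ℂ} (hm : 2 ≤ m) (hR : 0 < R')
    (hP : 0 ≤ P) (hA : MeasurableSet A) (hPA : P0 m A ≤ ENNReal.ofReal P) {s t : ℝ}
    (hst : t + R' * P < s) :
    volume {θ | θ ∈ Ioo (-Real.pi) Real.pi ∧ s < vt m R' A θ} = 0 ∨
      volume {θ | θ ∈ Ioo (-Real.pi) Real.pi ∧ vt m R' A θ < t} = 0 := by
  by_contra hcon
  push Not at hcon
  obtain ⟨hU, hL⟩ := hcon
  set I := Ioo (-Real.pi) Real.pi with hI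
  set U := {θ | θ ∈ I ∧ s < vt m R' A θ} with hUdef
  set L := {θ | θ ∈ I ∧ vt m R' A θ < t} with hLdef
  have hvm : Measurable (vt m R' A) := slm_vt_meas m R' hA
  have hUm : MeasurableSet U := measurableSet_Ioo.inter (hvm measurableSet_Ioi)
  have hLm : MeasurableSet L := measurableSet_Ioo.inter (hvm measurableSet_Iio)
  have hUI : U ⊆ I := fun _ hx => hx.1
  have hLI : L ⊆ I := fun _ hx => hx.1
  have hIfin : volume I < ⊤ := measure_Ioo_lt_top
  have hUfin : volume U ≠ ⊤ := (lt_of_le_of_lt (measure_mono hUI) hIfin).ne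
  have hLfin : volume L ≠ ⊤ := (lt_of_le_of_lt (measure_mono hLI) hIfin).ne
  set u := (volume U).toReal with hu
  set l := (volume L).toReal with hl
  have hu0 : 0 < u := ENNReal.toReal_pos hU hUfin
  have hl0 : 0 < l := ENNReal.toReal_pos hL hLfin
  set g : ℝ → ℝ := fun θ => L.indicator (fun _ => 1 / l) θ - U.indicator (fun _ => 1 / u) θ
    with hg
  have hgm : Measurable g :=
    (measurable_const.indicator hLm).sub (measurable_const.indicator hUm)
  have hgb : ∀ θ, |g θ| ≤ 1 / l + 1 / u := by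
    intro θ
    have hl' : 0 < 1 / l := by positivity
    have hu' : 0 < 1 / u := by positivity
    simp only [hg, indicator_apply]
    split_ifs <;> rw [abs_le] <;> constructor <;> linarith
  -- integrals of `g`
  have hint : ∀ S : Set ℝ, MeasurableSet S → ∫ θ in S, g θ =
      (1 / l) * (volume (L ∩ S)).toReal - (1 / u) * (volume (U ∩ S)).toReal := by
    intro S hS
    have i1 : IntegrableOn (L.indicator (fun _ : ℝ => 1 / l)) S :=
      (IntegrableOn.integrable_indicator (integrableOn_const hLfin) hLm).integrableOn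
    have i2 : IntegrableOn (U.indicator (fun _ : ℝ => 1 / u)) S :=
      (IntegrableOn.integrable_indicator (integrableOn_const hUfin) hUm).integrableOn
    have : ∫ θ in S, g θ = (∫ θ in S, L.indicator (fun _ : ℝ => 1 / l) θ) -
        ∫ θ in S, U.indicator (fun _ : ℝ => 1 / u) θ := integral_sub i1 i2
    rw [this, integral_indicator_const _ hLm, integral_indicator_const _ hUm]
    simp only [Measure.real, Measure.restrict_apply hLm, Measure.restrict_apply hUm, smul_eq_mul]
    ring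
  have hfrac : ∀ (B : Set ℝ) (b : ℝ), volume B ≠ ⊤ → b = (volume B).toReal → 0 < b →
      ∀ S : Set ℝ, 0 ≤ (1 / b) * (volume (B ∩ S)).toReal ∧
        (1 / b) * (volume (B ∩ S)).toReal ≤ 1 := by
    intro B b hB hb hb0 S
    have h1 : (volume (B ∩ S)).toReal ≤ b := by
      rw [hb]
      exact ENNReal.toReal_mono hB (measure_mono inter_subset_left)
    refine ⟨by positivity, ?_⟩
    rw [one_div, inv_mul_le_iff₀ hb0]
    linarith
  have hgI : ∫ θ in I, g θ = 0 := by
    rw [hint I measurableSet_Ioo, inter_eq_left.mpr hLI, inter_eq_left.mpr hUI, ← hl, ← hu]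
    field_simp
    ring
  set D : ℝ → ℝ := fun θ => ∫ τ in Ioc (-Real.pi) θ, g τ with hD
  have hDle : ∀ x ∈ Icc (-Real.pi) Real.pi, ∀ y ∈ Icc (-Real.pi) Real.pi, D x - D y ≤ 1 := by
    have hgi : ∀ S : Set ℝ, IntegrableOn g S := by
      intro S
      have i1 : IntegrableOn (L.indicator (fun _ : ℝ => 1 / l)) S :=
        (IntegrableOn.integrable_indicator (integrableOn_const hLfin) hLm).integrableOn
      have i2 : IntegrableOn (U.indicator (fun _ : ℝ => 1 / u)) S :=
        (IntegrableOn.integrable_indicator (integrableOn_const hUfin) hUm).integrableOn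
      exact i1.sub i2
    have hsplit : ∀ x y, -Real.pi ≤ x → x ≤ y → D y = D x + ∫ τ in Ioc x y, g τ := by
      intro x y hx hxy
      simp only [hD]
      rw [← Ioc_union_Ioc_eq_Ioc hx hxy, setIntegral_union (Ioc_disjoint_Ioc_of_le le_rfl)
        measurableSet_Ioc (hgi _) (hgi _)]
    intro x hx y hy
    rcases le_total x y with hxy | hxy
    · rw [hsplit x y hx.1 hxy, hint _ measurableSet_Ioc]
      have h1 := hfrac L l hLfin hl hl0 (Ioc x y)
      have h2 := hfrac U u hUfin hu hu0 (Ioc x y)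
      linarith [h1.1, h2.2]
    · rw [hsplit y x hy.1 hxy, hint _ measurableSet_Ioc]
      have h1 := hfrac L l hLfin hl hl0 (Ioc y x)
      have h2 := hfrac U u hUfin hu hu0 (Ioc y x)
      linarith [h1.2, h2.1]
  have hne : (Icc (-Real.pi) Real.pi).Nonempty :=
    nonempty_Icc.mpr (by linarith [Real.pi_pos])
  obtain ⟨σ₀, hσ₀⟩ := osc_center (Icc (-Real.pi) Real.pi) hne D hDle
  have hS3 := h m R' (1 / l + 1 / u) 0 σ₀ A (fun _ => 0) g (fun θ => σ₀ + D θ) hm hR hA
    measurable_const (fun _ => le_rfl) (fun _ => le_rfl) (fun θ _ => by simp) hgm hgb hgI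
    (fun θ => rfl) hσ₀
  have h4 : ∫ θ in I, (Real.sqrt (1 - (σ₀ + D θ) ^ 2) * 0 - 1 / R' * g θ * vt m R' A θ) ≤ P :=
    (ENNReal.ofReal_le_ofReal_iff hP).1 (hS3.trans hPA)
  -- compute the integral
  have hvb := fun θ => slm_vt_bound m hR hA θ
  have hvi : ∀ S : Set ℝ, S ⊆ I → IntegrableOn (vt m R' A) S := by
    intro S hS
    refine IntegrableOn.mono_set ?_ hS
    refine Measure.integrableOn_of_bounded hIfin.ne hvm.aestronglyMeasurable
      (M := vp m 0) (Eventually.of_forall fun θ => ?_)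
    rw [Real.norm_of_nonneg (hvb θ).1]
    exact (hvb θ).2
  have h5 : ∫ θ in I, (Real.sqrt (1 - (σ₀ + D θ) ^ 2) * 0 - 1 / R' * g θ * vt m R' A θ) =
      1 / R' * ((1 / u) * (∫ θ in U, vt m R' A θ) - (1 / l) * ∫ θ in L, vt m R' A θ) := by
    have e1 : ∀ θ, Real.sqrt (1 - (σ₀ + D θ) ^ 2) * 0 - 1 / R' * g θ * vt m R' A θ =
        1 / R' * ((1 / u) * U.indicator (vt m R' A) θ - (1 / l) * L.indicator (vt m R' A) θ) := by
      intro θ
      simp only [hg, indicator_apply]
      split_ifs <;> ring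
    simp_rw [e1]
    have i1 : IntegrableOn (U.indicator (vt m R' A)) I :=
      ((hvi I Subset.rfl).indicator hUm)
    have i2 : IntegrableOn (L.indicator (vt m R' A)) I :=
      ((hvi I Subset.rfl).indicator hLm)
    rw [integral_const_mul, integral_sub (i1.const_mul _) (i2.const_mul _), integral_const_mul,
      integral_const_mul, setIntegral_indicator hUm, setIntegral_indicator hLm,
      inter_eq_right.mpr hUI, inter_eq_right.mpr hLI]
  have h6 : s * u ≤ ∫ θ in U, vt m R' A θ := by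
    have : ∫ θ in U, s ≤ ∫ θ in U, vt m R' A θ :=
      setIntegral_mono_on (integrableOn_const hUfin) (hvi U hUI) hUm fun θ hθ => hθ.2.le
    rw [setIntegral_const, smul_eq_mul, Measure.real, ← hu] at this
    linarith
  have h7 : ∫ θ in L, vt m R' A θ ≤ t * l := by
    have : ∫ θ in L, vt m R' A θ ≤ ∫ θ in L, t :=
      setIntegral_mono_on (hvi L hLI) (integrableOn_const hLfin) hLm fun θ hθ => hθ.2.le
    rw [setIntegral_const, smul_eq_mul, Measure.real, ← hl] at this
    linarith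
  rw [h5] at h4
  have h8 : s ≤ (1 / u) * ∫ θ in U, vt m R' A θ := by
    rw [one_div, ← div_eq_inv_mul, le_div_iff₀ hu0]
    exact h6
  have h9 : (1 / l) * ∫ θ in L, vt m R' A θ ≤ t := by
    rw [one_div, ← div_eq_inv_mul, div_le_iff₀ hl0]
    exact h7
  have h10 : 1 / R' * (s - t) ≤ P := by
    refine le_trans (mul_le_mul_of_nonneg_left ?_ (by positivity)) h4
    linarith
  rw [one_div, ← div_eq_inv_mul, div_le_iff₀ hR] at h10
  linarith

theorem osc (h : Stmt_S3) : Stmt_Osc := by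
  intro m R' P A hm hR hP hA hPA
  set I := Ioo (-Real.pi) Real.pi with hI
  have h1 : ∀ᵐ θ ∂(volume.restrict I), ∀ s : ℚ,
      volume {θ | θ ∈ I ∧ (s : ℝ) < vt m R' A θ} = 0 → vt m R' A θ ≤ s := by
    rw [ae_all_iff]
    intro s
    rw [ae_restrict_iff' measurableSet_Ioo]
    by_cases h0 : volume {θ | θ ∈ I ∧ (s : ℝ) < vt m R' A θ} = 0
    · have := measure_eq_zero_iff_ae_notMem.1 h0
      filter_upwards [this] with θ hθ hθI _
      by_contra hc
      exact hθ ⟨hθI, not_le.1 hc⟩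
    · exact Eventually.of_forall fun θ _ hc => absurd hc h0
  have h2 : ∀ᵐ θ ∂(volume.restrict I), ∀ t : ℚ,
      volume {θ | θ ∈ I ∧ vt m R' A θ < (t : ℝ)} = 0 → (t : ℝ) ≤ vt m R' A θ := by
    rw [ae_all_iff]
    intro t
    rw [ae_restrict_iff' measurableSet_Ioo]
    by_cases h0 : volume {θ | θ ∈ I ∧ vt m R' A θ < (t : ℝ)} = 0
    · have := measure_eq_zero_iff_ae_notMem.1 h0
      filter_upwards [this] with θ hθ hθI _
      by_contra hc
      exact hθ ⟨hθI, not_le.1 hc⟩
    · exact Eventually.of_forall fun θ _ hc => absurd hc h0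
  filter_upwards [h1] with θ hθ
  filter_upwards [h2] with θ' hθ'
  by_contra hc
  push Not at hc
  obtain ⟨t, ht1, ht2⟩ := exists_rat_btwn (show vt m R' A θ' < vt m R' A θ - R' * P by linarith)
  obtain ⟨s, hs1, hs2⟩ := exists_rat_btwn (show (t : ℝ) + R' * P < vt m R' A θ by linarith)
  rcases osc_key h hm hR hP hA hPA hs1 with h0 | h0
  · exact absurd (hθ s h0) (not_le.2 hs2)
  · exact absurd (hθ' t h0) (not_le.2 ht1)

end Pool.Agent.Lib.MP_c95dcf_gt
end
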