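import Pool.Agent.Lib.MP_c95dcf_gt.GStmts

section

/-!
# MP_c95dcf_gt, task G17: perimeter after removing a ball
-/

set_option autoImplicit false

open MeasureTheory Set Filter Topology
open scoped ENNReal NNReal RealInnerProductSpace

namespace Pool.Agent.Lib.MP_c95dcf_gt

namespace Cut

variable {n : ℕ}

/-! ### A profile with slope almost one -/

/-- trapezoid -/
noncomputable def trap (δ t : ℝ) : ℝ := max 0 (min 1 (min (t / δ) ((1 - t) / δ)))

lemma trap_cont (δ : ℝ) : Continuous (trap δ) := by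
  unfold trap
  fun_prop

lemma trap_nonneg (δ t : ℝ) : 0 ≤ trap δ t := le_max_left _ _

lemma trap_le (δ t : ℝ) : trap δ t ≤ 1 := max_le zero_le_one (min_le_left _ _)

lemma trap_zero {δ t : ℝ} (hδ : 0 < δ) (h : t ≤ 0 ∨ 1 ≤ t) : trap δ t = 0 := by
  unfold trap
  refine max_eq_left ?_
  rcases h with h | h
  · exact (min_le_right _ _).trans ((min_le_left _ _).trans (div_nonpos_of_nonpos_of_nonneg h hδ.le))
  · exact (min_le_right _ _).trans ((min_le_right _ _).trans
      (div_nonpos_of_nonpos_of_nonneg (by linarith) hδ.le))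

lemma trap_one {δ t : ℝ} (hδ : 0 < δ) (h1 : δ ≤ t) (h2 : t ≤ 1 - δ) : trap δ t = 1 := by
  unfold trap
  have h3 : 1 ≤ t / δ := (one_le_div hδ).2 h1
  have h4 : 1 ≤ (1 - t) / δ := (one_le_div hδ).2 (by linarith)
  rw [min_eq_left (le_min h3 h4)]
  exact max_eq_right zero_le_one

/-- A `C¹` profile. -/
lemma exists_profile {ε : ℝ} (hε : 0 < ε) : ∃ η : ℝ → ℝ, ContDiff ℝ 1 η ∧ (∀ t ≤ 0, η t = 0) ∧
    (∀ t, 1 ≤ t → η t = 1) ∧ (∀ t, 0 ≤ η t) ∧ (∀ t, η t ≤ 1) ∧ (∀ t, |deriv η t| ≤ 1 + ε) := by
  obtain ⟨δ, hδ, hδ2, hδ3⟩ : ∃ δ : ℝ, 0 < δ ∧ 2 * δ < 1 ∧ 1 ≤ (1 + ε) * (1 - 2 * δ) := by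
    refine ⟨ε / (2 * (1 + ε)), by positivity, ?_, ?_⟩
    · have : 2 * (ε / (2 * (1 + ε))) = ε / (1 + ε) := by field_simp
      rw [this, div_lt_one (by positivity)]
      linarith
    · have : (1 + ε) * (1 - 2 * (ε / (2 * (1 + ε)))) = 1 := by field_simp; ring
      rw [this]
  have hii : ∀ a b : ℝ, IntervalIntegrable (trap δ) volume a b :=
    fun a b => (trap_cont δ).intervalIntegrable a b
  set I : ℝ := ∫ t in (0 : ℝ)..1, trap δ t with hI
  have hI1 : 1 - 2 * δ ≤ I := by
    have h1 : I = (∫ t in (0 : ℝ)..δ, trap δ t) + (∫ t in δ..(1 - δ), trap δ t) +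
        ∫ t in (1 - δ)..1, trap δ t := by
      rw [intervalIntegral.integral_add_adjacent_intervals (hii _ _) (hii _ _),
        intervalIntegral.integral_add_adjacent_intervals (hii _ _) (hii _ _)]
    have h2 : 0 ≤ ∫ t in (0 : ℝ)..δ, trap δ t :=
      intervalIntegral.integral_nonneg hδ.le fun t _ => trap_nonneg δ t
    have h3 : 0 ≤ ∫ t in (1 - δ)..1, trap δ t :=
      intervalIntegral.integral_nonneg (by linarith) fun t _ => trap_nonneg δ t
    have h4 : ∫ t in δ..(1 - δ), trap δ t = 1 - 2 * δ := by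
      have : ∫ t in δ..(1 - δ), trap δ t = ∫ t in δ..(1 - δ), (1 : ℝ) := by
        refine intervalIntegral.integral_congr fun t ht => ?_
        rw [uIcc_of_le (by linarith)] at ht
        exact trap_one hδ ht.1 ht.2
      rw [this, intervalIntegral.integral_const]
      simp
      ring
    rw [h1, h4]
    linarith
  have hIpos : 0 < I := by linarith
  have hzero : ∀ t ≤ 0, ∫ s in (0 : ℝ)..t, trap δ s = 0 := by
    intro t ht
    have : ∫ s in (0 : ℝ)..t, trap δ s = ∫ s in (0 : ℝ)..t, (0 : ℝ) := by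
      refine intervalIntegral.integral_congr fun s hs => ?_
      rw [uIcc_of_ge ht] at hs
      exact trap_zero hδ (Or.inl hs.2)
    rw [this]; simp
  have hone : ∀ t, 1 ≤ t → ∫ s in (0 : ℝ)..t, trap δ s = I := by
    intro t ht
    have : ∫ s in (1 : ℝ)..t, trap δ s = ∫ s in (1 : ℝ)..t, (0 : ℝ) := by
      refine intervalIntegral.integral_congr fun s hs => ?_
      rw [uIcc_of_le ht] at hs
      exact trap_zero hδ (Or.inr hs.1)
    rw [← intervalIntegral.integral_add_adjacent_intervals (hii 0 1) (hii 1 t), this]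
    simp [hI]
  have hder : ∀ t, HasDerivAt (fun t => (∫ s in (0 : ℝ)..t, trap δ s) / I) (trap δ t / I) t := by
    intro t
    exact ((trap_cont δ).integral_hasStrictDerivAt 0 t).hasDerivAt.div_const I
  have hmono : Monotone (fun t => (∫ s in (0 : ℝ)..t, trap δ s) / I) := by
    refine monotone_of_deriv_nonneg (fun t => (hder t).differentiableAt) fun t => ?_
    rw [(hder t).deriv]
    exact div_nonneg (trap_nonneg _ _) hIpos.le
  refine ⟨fun t => (∫ s in (0 : ℝ)..t, trap δ s) / I, ?_, ?_, ?_, ?_, ?_, ?_⟩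
  · rw [contDiff_one_iff_deriv]
    refine ⟨fun t => (hder t).differentiableAt, ?_⟩
    have : deriv (fun t => (∫ s in (0 : ℝ)..t, trap δ s) / I) = fun t => trap δ t / I :=
      funext fun t => (hder t).deriv
    rw [this]
    exact (trap_cont δ).div_const I
  · intro t ht
    simp [hzero t ht]
  · intro t ht
    simp only [hone t ht]
    exact div_self hIpos.ne'
  · intro t
    rcases le_or_gt t 0 with h | h
    · simp [hzero t h]
    · have := hmono h.le
      simpa [hzero 0 le_rfl] using this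
  · intro t
    rcases le_or_gt 1 t with h | h
    · simp only [hone t h]
      rw [div_self hIpos.ne']
    · have := hmono h.le
      simpa [hone 1 le_rfl, div_self hIpos.ne'] using this
  · intro t
    rw [(hder t).deriv, abs_of_nonneg (div_nonneg (trap_nonneg _ _) hIpos.le), div_le_iff₀ hIpos]
    calc trap δ t ≤ 1 := trap_le _ _
      _ ≤ (1 + ε) * (1 - 2 * δ) := hδ3
      _ ≤ (1 + ε) * I := mul_le_mul_of_nonneg_left hI1 (by linarith)

/-! ### The cutoff function -/

/-- Cutoff, `0` on the closed ball of radius `r`, and `1` outside the ball of radius `r + d`. -/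
noncomputable def chi (η : ℝ → ℝ) (x : E n) (r d : ℝ) (y : E n) : ℝ := η ((‖y - x‖ - r) / d)

lemma chi_zero {η : ℝ → ℝ} (h0 : ∀ t ≤ 0, η t = 0) {x : E n} {r d : ℝ} (hd : 0 < d) {y : E n}
    (hy : ‖y - x‖ ≤ r) : chi η x r d y = 0 :=
  h0 _ (div_nonpos_of_nonpos_of_nonneg (by linarith) hd.le)

lemma chi_one {η : ℝ → ℝ} (h1 : ∀ t, 1 ≤ t → η t = 1) {x : E n} {r d : ℝ} (hd : 0 < d) {y : E n}
    (hy : r + d ≤ ‖y - x‖) : chi η x r d y = 1 :=
  h1 _ ((one_le_div hd).2 (by linarith))

lemma norm_chi_le {η : ℝ → ℝ} (h0 : ∀ t, 0 ≤ η t) (h1 : ∀ t, η t ≤ 1) (x : E n) (r d : ℝ)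
    (y : E n) : ‖chi η x r d y‖ ≤ 1 := by
  unfold chi
  rw [Real.norm_of_nonneg (h0 _)]
  exact h1 _

lemma contDiff_chi {η : ℝ → ℝ} (hη : ContDiff ℝ 1 η) (h0 : ∀ t ≤ 0, η t = 0) (x : E n) {r d : ℝ}
    (hr : 0 < r) (hd : 0 < d) : ContDiff ℝ 1 (chi η x r d) := by
  rw [contDiff_iff_contDiffAt]
  intro y
  by_cases hy : y = x
  · have h : chi η x r d =ᶠ[𝓝 y] fun _ => 0 := by
      have : Metric.ball x r ∈ 𝓝 y := by rw [hy]; exact Metric.ball_mem_nhds x hr
      filter_upwards [this] with z hz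
      rw [mem_ball_iff_norm] at hz
      exact chi_zero h0 hd hz.le
    exact contDiffAt_const.congr_of_eventuallyEq h
  · have h1 : ContDiffAt ℝ 1 (fun y : E n => ‖y - x‖) y :=
      (contDiffAt_id.sub contDiffAt_const).norm ℝ (sub_ne_zero.2 hy)
    exact hη.contDiffAt.comp y ((h1.sub contDiffAt_const).div_const d)

lemma lip_chi {η : ℝ → ℝ} (hη : ContDiff ℝ 1 η) {L : ℝ} (hL : ∀ t, |deriv η t| ≤ L) (x : E n)
    {r d : ℝ} (hd : 0 < d) : LipschitzWith (Real.toNNReal (L / d)) (chi η x r d) := by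
  have hL0 : 0 ≤ L := (abs_nonneg _).trans (hL 0)
  have h1 : LipschitzWith (Real.toNNReal L) η := by
    refine lipschitzWith_of_nnnorm_deriv_le (hη.differentiable one_ne_zero) fun t => ?_
    rw [← NNReal.coe_le_coe, coe_nnnorm, Real.coe_toNNReal _ hL0]
    exact hL t
  refine LipschitzWith.of_dist_le_mul fun y z => ?_
  rw [Real.coe_toNNReal _ (by positivity)]
  unfold chi
  refine (h1.dist_le_mul _ _).trans ?_
  rw [Real.coe_toNNReal _ hL0, Real.dist_eq]
  have h2 : (‖y - x‖ - r) / d - (‖z - x‖ - r) / d = (‖y - x‖ - ‖z - x‖) / d := by ring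
  rw [h2, abs_div, abs_of_pos hd, div_mul_eq_mul_div, mul_div_assoc]
  refine mul_le_mul_of_nonneg_left ?_ hL0
  refine div_le_div_of_nonneg_right ?_ hd.le
  calc |‖y - x‖ - ‖z - x‖| ≤ ‖(y - x) - (z - x)‖ := abs_norm_sub_norm_le _ _
    _ = dist y z := by rw [dist_eq_norm]; congr 1; abel

lemma norm_fderiv_chi_le {η : ℝ → ℝ} (hη : ContDiff ℝ 1 η) {L : ℝ} (hL : ∀ t, |deriv η t| ≤ L)
    (x : E n) {r d : ℝ} (hd : 0 < d) (y : E n) : ‖fderiv ℝ (chi η x r d) y‖ ≤ L / d := by
  have hL0 : 0 ≤ L := (abs_nonneg _).trans (hL 0)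
  have := norm_fderiv_le_of_lipschitz ℝ (lip_chi hη hL x hd (r := r)) (x₀ := y)
  rwa [Real.coe_toNNReal _ (by positivity)] at this

lemma fderiv_chi_zero {η : ℝ → ℝ} (h0 : ∀ t ≤ 0, η t = 0) (h1 : ∀ t, 1 ≤ t → η t = 1) (x : E n)
    {r d : ℝ} (hd : 0 < d) (y : E n) (hy : ‖y - x‖ < r ∨ r + d < ‖y - x‖) :
    fderiv ℝ (chi η x r d) y = 0 := by
  have hc : Continuous fun z : E n => ‖z - x‖ := by fun_prop
  rcases hy with hy | hy
  · have h : chi η x r d =ᶠ[𝓝 y] fun _ => 0 := by
      filter_upwards [hc.continuousAt.eventually (gt_mem_nhds hy)] with z hz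
      exact chi_zero h0 hd (le_of_lt hz)
    rw [h.fderiv_eq]; simp
  · have h : chi η x r d =ᶠ[𝓝 y] fun _ => 1 := by
      filter_upwards [hc.continuousAt.eventually (lt_mem_nhds hy)] with z hz
      exact chi_one h1 hd (le_of_lt hz)
    rw [h.fderiv_eq]; simp

/-! ### Divergence of a product -/

lemma dv_smul {g : E n → ℝ} {X : E n → E n} (hg : ContDiff ℝ 1 g) (hX : ContDiff ℝ 1 X) (y : E n) :
    dv (fun z => g z • X z) y = g y * dv X y + fderiv ℝ g y (X y) := by
  have h1 : fderiv ℝ (fun z => g z • X z) y =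
      g y • fderiv ℝ X y + (fderiv ℝ g y).smulRight (X y) :=
    fderiv_fun_smul (hg.differentiable one_ne_zero y) (hX.differentiable one_ne_zero y)
  unfold dv
  rw [h1, Finset.mul_sum]
  have h2 : fderiv ℝ g y (X y) =
      ∑ i, fderiv ℝ g y (EuclideanSpace.single i (1 : ℝ)) * (X y) i := by
    have h3 : X y = ∑ i, (X y) i • (EuclideanSpace.single i (1 : ℝ) : E n) := by
      conv_lhs => rw [← (EuclideanSpace.basisFun (Fin n) ℝ).sum_repr (X y)]
      simp
    conv_lhs => rw [h3]
    rw [map_sum]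
    refine Finset.sum_congr rfl fun i _ => ?_
    rw [map_smul, smul_eq_mul, mul_comm]
  rw [h2, ← Finset.sum_add_distrib]
  refine Finset.sum_congr rfl fun i _ => ?_
  simp

lemma dv_eq_zero_of_notMem {X : E n → E n} {x : E n} (hx : x ∉ tsupport X) : dv X x = 0 := by
  unfold dv
  have : fderiv ℝ X x = 0 := by
    have h := support_fderiv_subset ℝ (f := X)
    by_contra hne
    exact hx (h hne)
  simp [this]

lemma continuous_dv {X : E n → E n} (hX : ContDiff ℝ 1 X) : Continuous (dv X) := by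
  unfold dv
  have h := hX.continuous_fderiv one_ne_zero
  refine continuous_finsetSum _ fun i _ => ?_
  have h2 : Continuous fun x => (fderiv ℝ X x) (EuclideanSpace.single i (1 : ℝ)) :=
    h.clm_apply continuous_const
  exact (EuclideanSpace.proj (𝕜 := ℝ) i).continuous.comp h2

lemma integrable_dv {X : E n → E n} (hX : ContDiff ℝ 1 X) (hXc : HasCompactSupport X) :
    Integrable (dv X) :=
  (continuous_dv hX).integrable_of_hasCompactSupport
    (HasCompactSupport.intro hXc.isCompact fun _ hx => dv_eq_zero_of_notMem hx)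

lemma tf_smul {U : Set (E n)} {g : E n → ℝ} {X : E n → E n} (hg : ContDiff ℝ 1 g) (hX : TF U X) :
    TF U (fun z => g z • X z) := by
  have hs : tsupport (fun z => g z • X z) ⊆ tsupport X := tsupport_smul_subset_right g X
  exact ⟨hg.smul hX.diff, HasCompactSupport.intro hX.comp.isCompact fun z hz => by
    simp [image_eq_zero_of_notMem_tsupport hz], hs.trans hX.supp⟩

/-! ### The estimate for one test field -/

lemma annulus_le {A : Set (E n)} (hA : MeasurableSet A) (x : E n) {r d : ℝ} (hr : 0 < r)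
    (hd : 0 < d) :
    (volume (A ∩ (Metric.closedBall x (r + d) \ Metric.ball x r))).toReal ≤
      (volume (A ∩ Metric.ball x (r + d))).toReal - (volume (A ∩ Metric.ball x r)).toReal := by
  have hfin : volume (A ∩ Metric.ball x (r + d)) ≠ ∞ :=
    ((measure_mono inter_subset_right).trans_lt measure_ball_lt_top).ne
  have hfin' : volume (A ∩ Metric.ball x r) ≠ ∞ :=
    ((measure_mono inter_subset_right).trans_lt measure_ball_lt_top).ne
  have hsub : A ∩ Metric.ball x r ⊆ A ∩ Metric.ball x (r + d) :=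
    inter_subset_inter_right _ (Metric.ball_subset_ball (by linarith))
  have h1 : volume (A ∩ (Metric.closedBall x (r + d) \ Metric.ball x r)) ≤
      volume ((A ∩ Metric.ball x (r + d)) \ (A ∩ Metric.ball x r)) := by
    have h2 : A ∩ (Metric.closedBall x (r + d) \ Metric.ball x r) ⊆
        ((A ∩ Metric.ball x (r + d)) \ (A ∩ Metric.ball x r)) ∪ Metric.sphere x (r + d) := by
      rintro y ⟨hyA, hy1, hy2⟩
      rcases lt_or_eq_of_le (Metric.mem_closedBall.1 hy1) with h | h
      · exact Or.inl ⟨⟨hyA, h⟩, fun hh => hy2 hh.2⟩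
      · exact Or.inr h
    refine (measure_mono h2).trans ((measure_union_le _ _).trans ?_)
    rw [Measure.addHaar_sphere_of_ne_zero _ _ (by linarith : r + d ≠ 0), add_zero]
  have h3 := measure_sdiff hsub (hA.inter Metric.isOpen_ball.measurableSet).nullMeasurableSet hfin'
  rw [h3] at h1
  have h4 := ENNReal.toReal_mono (ENNReal.sub_ne_top hfin) h1
  rwa [ENNReal.toReal_sub_of_le (measure_mono hsub) hfin] at h4

lemma cut_field {U A : Set (E n)} {μ : Measure (E n)} {ν : E n → E n} (hU : IsOpen U)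
    (hA : MeasurableSet A)
    (hrep : PRep U A μ ν) {x : E n} {r m' : ℝ} (hr : 0 < r)
    (hder : HasDerivAt (fun s => (volume (A ∩ Metric.ball x s)).toReal) m' r)
    {X : E n → E n} (hX : TF U X) (hX1 : ∀ y, ‖X y‖ ≤ 1) {ε : ℝ} (hε : 0 < ε) :
    ∫ y in A \ Metric.ball x r, dv X y ≤ (μ (U \ Metric.ball x r)).toReal + (1 + ε) * m' := by
  have := hrep.fin
  obtain ⟨η, hη, h0, h1, hη0, hη1, hηd⟩ := exists_profile hε
  set d : ℕ → ℝ := fun k => 1 / (k + 1 : ℝ) with hd
  have hdpos : ∀ k, 0 < d k := fun k => by rw [hd]; positivity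
  have hd0 : Tendsto d atTop (𝓝 0) := tendsto_one_div_add_atTop_nhds_zero_nat
  -- the limit of the left-hand side
  have hlim : Tendsto (fun k => ∫ y in A, chi η x r (d k) y * dv X y) atTop
      (𝓝 (∫ y in A, (Metric.closedBall x r)ᶜ.indicator (dv X) y)) := by
    refine tendsto_integral_of_dominated_convergence (fun y => ‖dv X y‖) ?_ ?_ ?_ ?_
    · intro k
      exact ((contDiff_chi hη h0 x hr (hdpos k)).continuous.mul
        (continuous_dv hX.diff)).aestronglyMeasurable
    · exact (integrable_dv hX.diff hX.comp).norm.integrableOn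
    · intro k
      refine Eventually.of_forall fun y => ?_
      rw [norm_mul]
      refine mul_le_of_le_one_left (norm_nonneg _) ?_
      exact norm_chi_le hη0 hη1 x r (d k) y
    · refine Eventually.of_forall fun y => ?_
      by_cases hy : y ∈ Metric.closedBall x r
      · have : ∀ k, chi η x r (d k) y * dv X y = 0 := fun k => by
          rw [chi_zero h0 (hdpos k) (mem_closedBall_iff_norm.1 hy), zero_mul]
        simp [this, hy]
      · have hy2 : r < ‖y - x‖ := by
          rw [mem_closedBall_iff_norm, not_le] at hy; exact hy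
        have hev : ∀ᶠ k in atTop, chi η x r (d k) y * dv X y = dv X y := by
          filter_upwards [hd0.eventually (gt_mem_nhds (sub_pos.2 hy2))] with k hk
          rw [chi_one h1 (hdpos k) (by linarith), one_mul]
        rw [indicator_of_mem (show y ∈ (Metric.closedBall x r)ᶜ from hy)]
        exact tendsto_const_nhds.congr' (hev.mono fun k hk => hk.symm)
  have hlimeq : ∫ y in A, (Metric.closedBall x r)ᶜ.indicator (dv X) y =
      ∫ y in A \ Metric.ball x r, dv X y := by
    rw [setIntegral_indicator Metric.isClosed_closedBall.measurableSet.compl]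
    refine setIntegral_congr_set ?_
    rw [← Set.sdiff_eq]
    have hae : (Metric.closedBall x r : Set (E n)) =ᵐ[volume] Metric.ball x r := by
      rw [← Metric.ball_union_sphere]
      have hs : (Metric.sphere x r : Set (E n)) =ᵐ[volume] (∅ : Set (E n)) :=
        ae_eq_empty.2 (Measure.addHaar_sphere_of_ne_zero _ _ hr.ne')
      simpa using (ae_eq_refl (Metric.ball x r : Set (E n))).union hs
    exact (ae_eq_refl A).diff hae
  rw [hlimeq] at hlim
  -- the limit of the right-hand side
  set m : ℝ → ℝ := fun s => (volume (A ∩ Metric.ball x s)).toReal with hm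
  have hlim2 : Tendsto (fun k => (μ (U \ Metric.ball x r)).toReal +
      (1 + ε) * ((d k)⁻¹ * (m (r + d k) - m r))) atTop
      (𝓝 ((μ (U \ Metric.ball x r)).toReal + (1 + ε) * m')) := by
    have h2 : Tendsto d atTop (𝓝[>] 0) :=
      tendsto_nhdsWithin_iff.2 ⟨hd0, Eventually.of_forall fun k => hdpos k⟩
    have h3 := hder.tendsto_slope_zero_right.comp h2
    exact (h3.const_mul (1 + ε)).const_add _
  refine le_of_tendsto_of_tendsto' hlim hlim2 fun k => ?_
  have hchi := contDiff_chi hη h0 x hr (hdpos k)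
  have hint : Integrable (fun y => fderiv ℝ (chi η x r (d k)) y (X y)) := by
    refine Continuous.integrable_of_hasCompactSupport
      ((hchi.continuous_fderiv one_ne_zero).clm_apply hX.diff.continuous)
      (HasCompactSupport.intro hX.comp.isCompact fun y hy => ?_)
    simp [image_eq_zero_of_notMem_tsupport hy]
  have hTF := tf_smul hchi hX
  have hsplit : ∫ y in A, chi η x r (d k) y * dv X y =
      (∫ y in A, dv (fun z => chi η x r (d k) z • X z) y) -
        ∫ y in A, fderiv ℝ (chi η x r (d k)) y (X y) := by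
    rw [← integral_sub (integrable_dv hTF.diff hTF.comp).integrableOn hint.integrableOn]
    refine integral_congr_ae (Eventually.of_forall fun y => ?_)
    simp only [dv_smul hchi hX.diff y]
    ring
  rw [hsplit, sub_eq_add_neg]
  refine add_le_add ?_ ?_
  · rw [hrep.repr _ hTF]
    refine (le_abs_self _).trans ?_
    have hbd : ∀ y, ‖⟪chi η x r (d k) y • X y, ν y⟫‖ ≤
        (U \ Metric.ball x r).indicator (1 : E n → ℝ) y := by
      intro y
      by_cases hyU : y ∈ U
      · by_cases hyb : y ∈ Metric.ball x r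
        · rw [chi_zero h0 (hdpos k) (mem_ball_iff_norm.1 hyb).le]
          simp [hyb]
        · rw [indicator_of_mem (show y ∈ U \ Metric.ball x r from ⟨hyU, hyb⟩)]
          refine (norm_inner_le_norm _ _).trans ?_
          rw [hrep.unit, mul_one, norm_smul, Pi.one_apply]
          exact mul_le_one₀ (norm_chi_le hη0 hη1 x r (d k) y) (norm_nonneg _) (hX1 y)
      · rw [image_eq_zero_of_notMem_tsupport (fun h => hyU (hX.supp h))]
        simp [hyU]
    have hmeas : MeasurableSet (U \ Metric.ball x r) :=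
      hU.measurableSet.diff Metric.isOpen_ball.measurableSet
    have hgi : Integrable ((U \ Metric.ball x r).indicator (1 : E n → ℝ)) μ :=
      (integrable_const (1 : ℝ)).indicator hmeas
    have := norm_integral_le_of_norm_le hgi (Eventually.of_forall hbd)
    rw [integral_indicator_one hmeas] at this
    exact this
  · refine (neg_le_abs _).trans ?_
    set S : Set (E n) := Metric.closedBall x (r + d k) \ Metric.ball x r with hS
    have hSm : MeasurableSet S :=
      Metric.isClosed_closedBall.measurableSet.diff Metric.isOpen_ball.measurableSet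
    have hSfin : (volume.restrict A) S ≠ ∞ := by
      rw [Measure.restrict_apply hSm]
      exact ((measure_mono (inter_subset_left.trans sdiff_subset)).trans_lt
        measure_closedBall_lt_top).ne
    have hbd : ∀ y, ‖fderiv ℝ (chi η x r (d k)) y (X y)‖ ≤
        S.indicator (fun _ => (1 + ε) / d k) y := by
      intro y
      by_cases hy : y ∈ S
      · rw [indicator_of_mem hy]
        refine (ContinuousLinearMap.le_opNorm _ _).trans ?_
        calc _ ≤ (1 + ε) / d k * 1 :=
              mul_le_mul (norm_fderiv_chi_le hη hηd x (hdpos k) y) (hX1 y) (norm_nonneg _)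
                (div_nonneg (by linarith) (hdpos k).le)
          _ = _ := mul_one _
      · rw [indicator_of_notMem hy]
        have : ‖y - x‖ < r ∨ r + d k < ‖y - x‖ := by
          by_contra hcon
          push Not at hcon
          exact hy ⟨mem_closedBall_iff_norm.2 hcon.2,
            fun h => absurd (mem_ball_iff_norm.1 h) (not_lt.2 hcon.1)⟩
        rw [fderiv_chi_zero h0 h1 x (hdpos k) y this]
        simp
    have hgi : Integrable (S.indicator (fun _ => (1 + ε) / d k)) (volume.restrict A) :=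
      (integrable_indicator_iff hSm).2 (integrableOn_const hSfin)
    have h5 := norm_integral_le_of_norm_le hgi (Eventually.of_forall hbd)
    rw [integral_indicator_const _ hSm, smul_eq_mul, Measure.real, Measure.restrict_apply hSm,
      inter_comm] at h5
    refine h5.trans ?_
    have h6 := annulus_le hA x hr (hdpos k)
    have h7 : 0 ≤ (1 + ε) / d k := div_nonneg (by linarith) (hdpos k).le
    calc _ ≤ (m (r + d k) - m r) * ((1 + ε) / d k) := mul_le_mul_of_nonneg_right h6 h7
      _ = _ := by rw [div_eq_mul_inv]; ring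

end Cut

open Cut in
theorem cut : Stmt_Cut := by
  intro n U A μ ν x r m' hU hA hrep hr _ hder
  have := hrep.fin
  have hm' : 0 ≤ m' := by
    have hmono : Monotone (fun s => (volume (A ∩ Metric.ball x s)).toReal) := by
      intro s t hst
      exact ENNReal.toReal_mono ((measure_mono inter_subset_right).trans_lt
        measure_ball_lt_top).ne
        (measure_mono (inter_subset_inter_right _ (Metric.ball_subset_ball hst)))
    have h := hder.tendsto_slope_zero_right
    refine ge_of_tendsto h ?_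
    filter_upwards [self_mem_nhdsWithin] with t ht
    rw [smul_eq_mul]
    exact mul_nonneg (inv_nonneg.2 (le_of_lt ht)) (sub_nonneg.2 (hmono (by linarith [mem_Ioi.1 ht])))
  unfold Per
  refine iSup₂_le fun X hX => ?_
  have hle : ∫ y in A \ Metric.ball x r, dv X y ≤ (μ (U \ Metric.ball x r)).toReal + m' := by
    refine le_of_forall_pos_le_add fun e he => ?_
    have := cut_field hU hA hrep hr hder hX.1 hX.2 (ε := e / (m' + 1)) (by positivity)
    refine this.trans ?_
    have h2 : e / (m' + 1) * m' ≤ e := by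
      rw [div_mul_eq_mul_div, div_le_iff₀ (by positivity)]
      nlinarith
    linarith
  refine (ENNReal.ofReal_le_ofReal hle).trans ?_
  rw [ENNReal.ofReal_add ENNReal.toReal_nonneg hm', ENNReal.ofReal_toReal (measure_ne_top μ _)]

end Pool.Agent.Lib.MP_c95dcf_gt
end

section

/-!
# MP_c95dcf_gt, task G18: density estimates for almost minimisers
-/

set_option autoImplicit false

open MeasureTheory Set Filter Topology
open scoped ENNReal NNReal RealInnerProductSpace

namespace Pool.Agent.Lib.MP_c95dcf_gt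

/-- Volume of the part of `A` in the ball of radius `s`. -/
noncomputable def densM {n : ℕ} (A : Set (E n)) (x : E n) (s : ℝ) : ℝ :=
  (volume (A ∩ Metric.ball x s)).toReal

theorem dens_fin {n : ℕ} (A : Set (E n)) (x : E n) (s : ℝ) :
    volume (A ∩ Metric.ball x s) ≠ ∞ :=
  measure_ne_top_of_subset inter_subset_right measure_ball_lt_top.ne

theorem densM_mono {n : ℕ} (A : Set (E n)) (x : E n) : Monotone (densM A x) := by
  intro s t hst
  exact ENNReal.toReal_mono (dens_fin A x t)
    (measure_mono (inter_subset_inter_right _ (Metric.ball_subset_ball hst)))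

theorem densM_nonneg {n : ℕ} (A : Set (E n)) (x : E n) (s : ℝ) : 0 ≤ densM A x s :=
  ENNReal.toReal_nonneg

theorem densM_ofReal {n : ℕ} (A : Set (E n)) (x : E n) (s : ℝ) :
    ENNReal.ofReal (densM A x s) = volume (A ∩ Metric.ball x s) :=
  ENNReal.ofReal_toReal (dens_fin A x s)

theorem dens_om_pos (n : ℕ) : 0 < (om n).toReal := by
  refine ENNReal.toReal_pos ?_ ?_
  · exact (Metric.measure_ball_pos volume (0 : E n) one_pos).ne'
  · exact measure_ball_lt_top.ne

theorem dens_ball {n : ℕ} (x : E n) {r : ℝ} (hr : 0 < r) :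
    volume (Metric.ball x r) = ENNReal.ofReal ((om n).toReal * r ^ n) := by
  rw [Measure.addHaar_ball_of_pos volume x hr, ENNReal.ofReal_mul ENNReal.toReal_nonneg,
    ENNReal.ofReal_toReal, mul_comm]
  · simp [om]
  · exact measure_ball_lt_top.ne

theorem densM_le {n : ℕ} (A : Set (E n)) (x : E n) {r : ℝ} (hr : 0 < r) :
    densM A x r ≤ (om n).toReal * r ^ n := by
  refine ENNReal.toReal_le_of_le_ofReal (by positivity) ?_
  rw [← dens_ball x hr]
  exact measure_mono inter_subset_right

/-- The sum of the volumes inside and outside `A`. -/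
theorem dens_compl {n : ℕ} {A : Set (E n)} (hA : MeasurableSet A) (x : E n) {r : ℝ}
    (hr : 0 < r) :
    (volume (Metric.ball x r \ A)).toReal = (om n).toReal * r ^ n - densM A x r := by
  have h1 := measure_inter_add_sdiff (μ := (volume : Measure (E n))) (Metric.ball x r) hA
  rw [inter_comm] at h1
  have h2 : (volume (Metric.ball x r)).toReal = (om n).toReal * r ^ n := by
    rw [dens_ball x hr, ENNReal.toReal_ofReal (by positivity)]
  rw [← h2, ← h1, ENNReal.toReal_add (dens_fin A x r)
    (measure_ne_top_of_subset sdiff_subset measure_ball_lt_top.ne)]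
  simp [densM]

theorem densM_deriv_nonneg {n : ℕ} (A : Set (E n)) (x : E n) {r m' : ℝ}
    (h : HasDerivAt (densM A x) m' r) : 0 ≤ m' := by
  rw [← h.deriv]
  exact (densM_mono A x).deriv_nonneg

theorem densM_deriv_le {n : ℕ} {A : Set (E n)} (hA : MeasurableSet A) (x : E n) {r m' : ℝ}
    (hr : 0 < r) (h : HasDerivAt (densM A x) m' r) :
    m' ≤ (om n).toReal * (n * r ^ (n - 1)) := by
  have h1 : HasDerivAt (fun t => (om n).toReal * t ^ n - densM A x t)
      ((om n).toReal * (n * r ^ (n - 1)) - m') r :=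
    ((hasDerivAt_pow n r).const_mul _).sub h
  have h2 : HasDerivAt (fun t => (volume (Metric.ball x t \ A)).toReal)
      ((om n).toReal * (n * r ^ (n - 1)) - m') r := by
    refine h1.congr_of_eventuallyEq ?_
    filter_upwards [Ioi_mem_nhds hr] with t ht
    exact dens_compl hA x ht
  have h3 : Monotone (fun t => (volume (Metric.ball x t \ A)).toReal) := by
    intro s t hst
    exact ENNReal.toReal_mono (measure_ne_top_of_subset sdiff_subset measure_ball_lt_top.ne)
      (measure_mono (sdiff_subset_sdiff_left (Metric.ball_subset_ball hst)))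
  have h4 := h3.deriv_nonneg (x := r)
  rw [h2.deriv] at h4
  linarith

/-- The comparison with the set minus a ball. -/
theorem dens_key (hcut : Stmt_Cut) {n : ℕ} {U A : Set (E n)} {L : ℝ≥0} {μ : Measure (E n)}
    {ν : E n → E n} (hU : IsOpen U) (hL : IsLMin U L A) (hP : PRep U A μ ν) {x : E n}
    {s m' : ℝ} (hs : 0 < s) (hsU : Metric.closedBall x s ⊆ U)
    (hm : HasDerivAt (densM A x) m' s) :
    (μ (Metric.ball x s)).toReal ≤ m' + L * densM A x s := by
  have := hP.fin
  have h1 := hcut n U A μ ν x s m' hU hL.meas hP hs hsU hm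
  have h2 := hL.le (A \ Metric.ball x s) (hL.meas.diff measurableSet_ball)
    (sdiff_subset.trans hL.sub)
  have h3 : symmDiff A (A \ Metric.ball x s) = A ∩ Metric.ball x s := by
    ext y; simp only [Set.mem_symmDiff, Set.mem_sdiff, Set.mem_inter_iff]; tauto
  have h4 : Per U A = μ U := (hP.open_eq U hU subset_rfl).symm
  have h5 : μ U = μ (Metric.ball x s) + μ (U \ Metric.ball x s) := by
    have := measure_inter_add_sdiff (μ := μ) U (measurableSet_ball (x := x) (ε := s))
    rw [← this, inter_eq_self_of_subset_right (Metric.ball_subset_closedBall.trans hsU)]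
  rw [h3, h4, h5, ← densM_ofReal A x s] at h2
  have h6 : μ (U \ Metric.ball x s) + μ (Metric.ball x s) ≤
      μ (U \ Metric.ball x s) + (ENNReal.ofReal m' + L * ENNReal.ofReal (densM A x s)) := by
    rw [add_comm, ← add_assoc]
    exact h2.trans (by gcongr)
  have h7 : μ (Metric.ball x s) ≤ ENNReal.ofReal m' + L * ENNReal.ofReal (densM A x s) :=
    (ENNReal.add_le_add_iff_left (measure_ne_top μ _)).1 h6
  have hm' := densM_deriv_nonneg A x hm
  have hLm : 0 ≤ (L : ℝ) * densM A x s := mul_nonneg L.2 (densM_nonneg A x s)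
  have h8 : ENNReal.ofReal m' + L * ENNReal.ofReal (densM A x s) =
      ENNReal.ofReal (m' + L * densM A x s) := by
    rw [ENNReal.ofReal_add hm' hLm, ENNReal.ofReal_mul L.coe_nonneg]
    simp
  rw [h8] at h7
  exact ENNReal.toReal_le_of_le_ofReal (add_nonneg hm' hLm) h7

/-- Upper bound of the perimeter measure of small balls. -/
theorem dens_upper (hcut : Stmt_Cut) {n : ℕ} (hn : 1 ≤ n) {U A : Set (E n)} {L : ℝ≥0}
    {μ : Measure (E n)} {ν : E n → E n} (hU : IsOpen U) (hL : IsLMin U L A)
    (hP : PRep U A μ ν) {x : E n} {r : ℝ} (hr : 0 < r)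
    (hrU : Metric.closedBall x (2 * r) ⊆ U) (hrL : L * (2 * r) ≤ 1) :
    (μ (Metric.ball x r)).toReal ≤ ((n + 1) * (om n).toReal * 2 ^ (n - 1)) * r ^ (n - 1) := by
  have := hP.fin
  have hlt : r < 2 * r := by linarith
  obtain ⟨s, hs1, hs2⟩ : ∃ s ∈ Ioo r (2 * r), DifferentiableAt ℝ (densM A x) s := by
    have h1 : ∃ᵐ s ∂(volume : Measure ℝ), s ∈ Ioo r (2 * r) := by
      refine frequently_ae_mem_iff.2 ?_
      rw [Real.volume_Ioo]
      simpa using (by linarith : r < 2 * r)
    obtain ⟨s, h2, h3⟩ := (h1.and_eventually (densM_mono A x).ae_differentiableAt).exists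
    exact ⟨s, h2, h3⟩
  have hs0 : 0 < s := hr.trans hs1.1
  have h1 := dens_key hcut hU hL hP hs0
    ((Metric.closedBall_subset_closedBall hs1.2.le).trans hrU) hs2.hasDerivAt
  have h2 := densM_deriv_le hL.meas x hs0 hs2.hasDerivAt
  have h3 := densM_le A x hs0
  have h4 : (μ (Metric.ball x r)).toReal ≤ (μ (Metric.ball x s)).toReal :=
    ENNReal.toReal_mono (measure_ne_top μ _) (measure_mono (Metric.ball_subset_ball hs1.1.le))
  have hω := dens_om_pos n
  have h5 : L * densM A x s ≤ (om n).toReal * s ^ (n - 1) := by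
    calc L * densM A x s ≤ L * ((om n).toReal * s ^ n) :=
          mul_le_mul_of_nonneg_left h3 L.coe_nonneg
      _ = (L * s) * ((om n).toReal * s ^ (n - 1)) := by
          obtain ⟨k, rfl⟩ : ∃ k, n = k + 1 := ⟨n - 1, by omega⟩
          simp only [Nat.add_sub_cancel, pow_succ]; ring
      _ ≤ 1 * ((om n).toReal * s ^ (n - 1)) := by
          refine mul_le_mul_of_nonneg_right ?_ (by positivity)
          refine le_trans (mul_le_mul_of_nonneg_left hs1.2.le L.coe_nonneg) hrL
      _ = _ := one_mul _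
  have h6 : s ^ (n - 1) ≤ (2 * r) ^ (n - 1) := pow_le_pow_left₀ hs0.le hs1.2.le _
  calc (μ (Metric.ball x r)).toReal
      ≤ (om n).toReal * (n * s ^ (n - 1)) + (om n).toReal * s ^ (n - 1) := by linarith
    _ = ((n + 1) * (om n).toReal) * s ^ (n - 1) := by ring
    _ ≤ ((n + 1) * (om n).toReal) * (2 * r) ^ (n - 1) :=
        mul_le_mul_of_nonneg_left h6 (by positivity)
    _ = _ := by rw [mul_pow]; ring

/-- The measure of a ball is the perimeter in it. -/
theorem dens_mu_ball {n : ℕ} {U A : Set (E n)} {μ : Measure (E n)} {ν : E n → E n}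
    (hP : PRep U A μ ν) {x : E n} {s : ℝ} (hsU : Metric.ball x s ⊆ U) :
    Per (Metric.ball x s) A = μ (Metric.ball x s) :=
  (hP.open_eq _ Metric.isOpen_ball hsU).symm

/-- The isoperimetric inequality in real numbers. -/
theorem dens_iso {n : ℕ} {c₁ : ℝ} (hc₁ : 0 < c₁)
    (hiso : ∀ (x : E n) (r : ℝ), 0 < r → ∀ A : Set (E n), MeasurableSet A →
      ENNReal.ofReal c₁ * (min (volume (A ∩ Metric.ball x r)) (volume (Metric.ball x r \ A))) ^
        (((n : ℝ) - 1) / n) ≤ Per (Metric.ball x r) A)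
    {U A : Set (E n)} (hA : MeasurableSet A) {μ : Measure (E n)} {ν : E n → E n} (hn : 1 ≤ n)
    (hP : PRep U A μ ν) {x : E n} {s t : ℝ} (hs : 0 < s) (hsU : Metric.ball x s ⊆ U)
    (ht : 0 ≤ t) (ht1 : t ≤ densM A x s) (ht2 : t ≤ (volume (Metric.ball x s \ A)).toReal) :
    c₁ * t ^ (((n : ℝ) - 1) / n) ≤ (μ (Metric.ball x s)).toReal := by
  have := hP.fin
  have hp : 0 ≤ ((n : ℝ) - 1) / n := by
    have : (1 : ℝ) ≤ n := by exact_mod_cast hn
    exact div_nonneg (by linarith) (by linarith)
  have h1 := hiso x s hs A hA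
  rw [dens_mu_ball hP hsU] at h1
  have h2 : ENNReal.ofReal t ≤ min (volume (A ∩ Metric.ball x s))
      (volume (Metric.ball x s \ A)) := by
    refine le_min ?_ ?_
    · exact ENNReal.ofReal_le_of_le_toReal ht1
    · exact ENNReal.ofReal_le_of_le_toReal ht2
  have h3 : ENNReal.ofReal (c₁ * t ^ (((n : ℝ) - 1) / n)) ≤ μ (Metric.ball x s) := by
    refine le_trans ?_ h1
    rw [ENNReal.ofReal_mul hc₁.le, ← ENNReal.ofReal_rpow_of_nonneg ht hp]
    gcongr
  exact (ENNReal.ofReal_le_iff_le_toReal (measure_ne_top μ _)).1 h3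

/-- Lower bound of the volume in small balls. -/
theorem dens_lower (hcut : Stmt_Cut) {n : ℕ} (hn : 1 ≤ n) {c₁ : ℝ} (hc₁ : 0 < c₁)
    (hiso : ∀ (x : E n) (r : ℝ), 0 < r → ∀ A : Set (E n), MeasurableSet A →
      ENNReal.ofReal c₁ * (min (volume (A ∩ Metric.ball x r)) (volume (Metric.ball x r \ A))) ^
        (((n : ℝ) - 1) / n) ≤ Per (Metric.ball x r) A)
    {U A : Set (E n)} {L : ℝ≥0} {μ : Measure (E n)} {ν : E n → E n} (hU : IsOpen U)
    (hL : IsLMin U L A) (hP : PRep U A μ ν) {x : E n}
    (hpos : ∀ s : ℝ, 0 < s → 0 < volume (A ∩ Metric.ball x s)) {r : ℝ} (hr : 0 < r)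
    (hrU : Metric.closedBall x r ⊆ U)
    (hrL : L * ((om n).toReal ^ (1 / (n : ℝ)) * r) ≤ c₁ / 2) {c : ℝ}
    (hc : c ≤ (om n).toReal / 2 ^ (n + 1)) (hc' : c ≤ (c₁ / (4 * n)) ^ n) :
    c * r ^ n ≤ densM A x r := by
  have hω := dens_om_pos n
  by_contra hcon
  push Not at hcon
  have hn0 : (0 : ℝ) < n := by exact_mod_cast hn
  have hposM : ∀ s, 0 < s → 0 < densM A x s := fun s hs =>
    ENNReal.toReal_pos (hpos s hs).ne' (dens_fin A x s)
  -- the differential inequality
  have hdiff : ∀ s ∈ Ioo (r / 2) r, DifferentiableAt ℝ (densM A x) s →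
      c₁ / (2 * n) ≤ deriv (fun t => densM A x t ^ (1 / (n : ℝ))) s := by
    intro s hs hsd
    have hs0 : 0 < s := lt_trans (by linarith) hs.1
    have hms := hposM s hs0
    have h1 := dens_key hcut hU hL hP hs0
      ((Metric.closedBall_subset_closedBall hs.2.le).trans hrU) hsd.hasDerivAt
    have h2 : densM A x s ≤ (volume (Metric.ball x s \ A)).toReal := by
      rw [dens_compl hL.meas x hs0]
      have h3 : densM A x s ≤ densM A x r := densM_mono A x hs.2.le
      have h4 : r ^ n ≤ 2 ^ n * s ^ n := by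
        rw [← mul_pow]
        exact pow_le_pow_left₀ hr.le (by linarith [hs.1]) _
      have h5 : c * r ^ n ≤ (om n).toReal / 2 * s ^ n := by
        calc c * r ^ n ≤ ((om n).toReal / 2 ^ (n + 1)) * r ^ n :=
              mul_le_mul_of_nonneg_right hc (by positivity)
          _ ≤ ((om n).toReal / 2 ^ (n + 1)) * (2 ^ n * s ^ n) :=
              mul_le_mul_of_nonneg_left h4 (by positivity)
          _ = _ := by
              rw [pow_succ]; field_simp
      linarith
    have h3 := dens_iso hc₁ hiso hL.meas hn hP hs0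
      ((Metric.ball_subset_closedBall.trans
        (Metric.closedBall_subset_closedBall hs.2.le)).trans hrU) hms.le le_rfl h2
    have h4 : densM A x s =
        densM A x s ^ (1 / (n : ℝ)) * densM A x s ^ (((n : ℝ) - 1) / n) := by
      rw [← Real.rpow_add hms]
      have : 1 / (n : ℝ) + ((n : ℝ) - 1) / n = 1 := by field_simp; ring
      rw [this, Real.rpow_one]
    have h5 : densM A x s ^ (1 / (n : ℝ)) ≤ (om n).toReal ^ (1 / (n : ℝ)) * s := by
      calc densM A x s ^ (1 / (n : ℝ)) ≤ ((om n).toReal * s ^ n) ^ (1 / (n : ℝ)) :=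
            Real.rpow_le_rpow hms.le (densM_le A x hs0) (by positivity)
        _ = _ := by
            rw [Real.mul_rpow hω.le (by positivity), ← Real.rpow_natCast s n,
              ← Real.rpow_mul hs0.le]
            have : (n : ℝ) * (1 / (n : ℝ)) = 1 := by field_simp
            rw [this, Real.rpow_one]
    have hp0 : 0 < densM A x s ^ (((n : ℝ) - 1) / n) := Real.rpow_pos_of_pos hms _
    have h6 : L * densM A x s ≤ c₁ / 2 * densM A x s ^ (((n : ℝ) - 1) / n) := by
      calc L * densM A x s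
          = L * densM A x s ^ (1 / (n : ℝ)) * densM A x s ^ (((n : ℝ) - 1) / n) := by
            rw [mul_assoc, ← h4]
        _ ≤ L * ((om n).toReal ^ (1 / (n : ℝ)) * r) *
              densM A x s ^ (((n : ℝ) - 1) / n) := by
            refine mul_le_mul_of_nonneg_right ?_ hp0.le
            refine mul_le_mul_of_nonneg_left ?_ L.coe_nonneg
            refine h5.trans (mul_le_mul_of_nonneg_left hs.2.le (by positivity))
        _ ≤ _ := mul_le_mul_of_nonneg_right hrL hp0.le
    have h7 : c₁ / 2 * densM A x s ^ (((n : ℝ) - 1) / n) ≤ deriv (densM A x) s := by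
      linarith
    have h8 := hsd.hasDerivAt.rpow_const (p := 1 / (n : ℝ)) (Or.inl hms.ne')
    rw [h8.deriv]
    have h9 : c₁ / (2 * n) = c₁ / 2 * densM A x s ^ (((n : ℝ) - 1) / n) * (1 / (n : ℝ)) *
        densM A x s ^ (1 / (n : ℝ) - 1) := by
      have h10 : densM A x s ^ (((n : ℝ) - 1) / n) * densM A x s ^ (1 / (n : ℝ) - 1) = 1 := by
        rw [← Real.rpow_add hms]
        have : ((n : ℝ) - 1) / n + (1 / (n : ℝ) - 1) = 0 := by field_simp; ring
        rw [this, Real.rpow_zero]
      calc c₁ / (2 * n) = c₁ / 2 * (1 / (n : ℝ)) * 1 := by field_simp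
        _ = c₁ / 2 * (1 / (n : ℝ)) * (densM A x s ^ (((n : ℝ) - 1) / n) *
            densM A x s ^ (1 / (n : ℝ) - 1)) := by rw [h10]
        _ = _ := by ring
    rw [h9]
    gcongr
  -- integration
  have hmono : Monotone (fun t => densM A x t ^ (1 / (n : ℝ))) := by
    intro s t hst
    exact Real.rpow_le_rpow (densM_nonneg A x s) (densM_mono A x hst) (by positivity)
  have hmon' : MonotoneOn (fun t => densM A x t ^ (1 / (n : ℝ))) (uIcc (r / 2) r) :=
    hmono.monotoneOn _
  have hle : r / 2 ≤ r := by linarith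
  have hI1 : ∫ t in (r / 2)..r, deriv (fun t => densM A x t ^ (1 / (n : ℝ))) t ≤
      densM A x r ^ (1 / (n : ℝ)) - densM A x (r / 2) ^ (1 / (n : ℝ)) := by
    have := hmon'.intervalIntegral_deriv_mem_uIcc
    rw [uIcc_of_le (by have := hmono hle; simpa using this)] at this
    exact this.2
  have hI2 : c₁ / (2 * n) * (r - r / 2) ≤
      ∫ t in (r / 2)..r, deriv (fun t => densM A x t ^ (1 / (n : ℝ))) t := by
    have h1 : ∫ t in (r / 2)..r, c₁ / (2 * n) = c₁ / (2 * n) * (r - r / 2) := by
      rw [intervalIntegral.integral_const, smul_eq_mul, mul_comm]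
    rw [← h1]
    refine intervalIntegral.integral_mono_ae_restrict hle intervalIntegrable_const
      hmon'.intervalIntegrable_deriv ?_
    rw [Filter.EventuallyLE, ← restrict_Ioo_eq_restrict_Icc,
      MeasureTheory.ae_restrict_iff' measurableSet_Ioo]
    filter_upwards [(densM_mono A x).ae_differentiableAt] with s hs hs'
    exact hdiff s hs' hs
  have h0 : 0 ≤ densM A x (r / 2) ^ (1 / (n : ℝ)) :=
    Real.rpow_nonneg (densM_nonneg A x _) _
  have h1 : c₁ / (4 * n) * r ≤ densM A x r ^ (1 / (n : ℝ)) := by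
    have : c₁ / (2 * n) * (r - r / 2) = c₁ / (4 * n) * r := by field_simp; ring
    linarith
  have h2 : (c₁ / (4 * n) * r) ^ n ≤ densM A x r := by
    have h3 := pow_le_pow_left₀ (by positivity) h1 n
    rw [← Real.rpow_natCast (densM A x r ^ (1 / (n : ℝ))) n,
      ← Real.rpow_mul (densM_nonneg A x r)] at h3
    have : 1 / (n : ℝ) * (n : ℝ) = 1 := by field_simp
    rwa [this, Real.rpow_one] at h3
  rw [mul_pow] at h2
  have h3 : c * r ^ n ≤ (c₁ / (4 * n)) ^ n * r ^ n :=
    mul_le_mul_of_nonneg_right hc' (by positivity)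
  linarith

/-- The radius: a small positive number satisfying finitely many conditions. -/
theorem dens_radius {n : ℕ} {U : Set (E n)} (hU : IsOpen U) {x : E n} (hx : x ∈ U)
    (L : ℝ≥0) (a b : ℝ) (hb : 0 < b) :
    ∃ r₀ : ℝ, 0 < r₀ ∧ Metric.closedBall x (2 * r₀) ⊆ U ∧ L * (2 * r₀) ≤ 1 ∧
      ∀ r : ℝ, 0 < r → r < r₀ → L * (a * r) ≤ b := by
  obtain ⟨ρ, hρ, hρU⟩ := Metric.isOpen_iff.1 hU x hx
  refine ⟨min (ρ / 4) (min (1 / (2 * (L + 1))) (b / ((L + 1) * (|a| + 1)))), ?_, ?_, ?_, ?_⟩
  · have := L.coe_nonneg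
    have := abs_nonneg a
    positivity
  · refine (Metric.closedBall_subset_ball ?_).trans hρU
    have := min_le_left (ρ / 4) (min (1 / (2 * ((L : ℝ) + 1))) (b / ((L + 1) * (|a| + 1))))
    linarith
  · have h1 := (min_le_right (ρ / 4) (min (1 / (2 * ((L : ℝ) + 1)))
      (b / ((L + 1) * (|a| + 1))))).trans (min_le_left _ _)
    have hL := L.coe_nonneg
    calc (L : ℝ) * (2 * _) ≤ L * (2 * (1 / (2 * ((L : ℝ) + 1)))) := by gcongr
      _ = L / (L + 1) := by field_simp
      _ ≤ 1 := by rw [div_le_one (by positivity)]; linarith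
  · intro r hr hr'
    have h1 := hr'.le.trans ((min_le_right (ρ / 4) (min (1 / (2 * ((L : ℝ) + 1)))
      (b / ((L + 1) * (|a| + 1))))).trans (min_le_right _ _))
    have hL := L.coe_nonneg
    have ha := abs_nonneg a
    have h2 : a * r ≤ (|a| + 1) * (b / ((L + 1) * (|a| + 1))) := by
      calc a * r ≤ (|a| + 1) * r := by
            refine mul_le_mul_of_nonneg_right ?_ hr.le
            linarith [le_abs_self a]
        _ ≤ _ := by gcongr
    calc (L : ℝ) * (a * r) ≤ L * ((|a| + 1) * (b / ((L + 1) * (|a| + 1)))) :=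
          mul_le_mul_of_nonneg_left h2 hL
      _ ≤ (L + 1) * ((|a| + 1) * (b / ((L + 1) * (|a| + 1)))) := by
          refine mul_le_mul_of_nonneg_right (by linarith) (by positivity)
      _ = b := by field_simp

theorem densHalf (h1 : Stmt_Cut) (h2 : Stmt_RelIsoBall) : Stmt_DensHalf := by
  intro n hn
  obtain ⟨c₁, hc₁, hiso⟩ := h2 n hn
  have hω := dens_om_pos n
  have hn0 : (0 : ℝ) < n := by exact_mod_cast (by omega : 0 < n)
  refine ⟨min ((om n).toReal / 2 ^ (n + 1)) ((c₁ / (4 * n)) ^ n),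
    (n + 1) * (om n).toReal * 2 ^ (n - 1), by positivity, by positivity, ?_⟩
  intro U A L μ ν hU _ hL hP x hx hpos
  have := hP.fin
  obtain ⟨r₀, hr₀, hr₀U, hr₀L, hr₀c⟩ := dens_radius hU hx L ((om n).toReal ^ (1 / (n : ℝ)))
    (c₁ / 2) (by positivity)
  refine ⟨r₀, hr₀, (Metric.closedBall_subset_closedBall (by linarith)).trans hr₀U, ?_⟩
  intro r hr hrr
  refine ⟨?_, ?_⟩
  · rw [← densM_ofReal]
    refine ENNReal.ofReal_le_ofReal ?_
    exact dens_lower h1 (by omega) hc₁ hiso hU hL hP hpos hr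
      ((Metric.closedBall_subset_closedBall (by linarith)).trans hr₀U) (hr₀c r hr hrr)
      (min_le_left _ _) (min_le_right _ _)
  · refine (ENNReal.le_ofReal_iff_toReal_le (measure_ne_top μ _) (by positivity)).2 ?_
    refine dens_upper h1 (by omega) hU hL hP hr
      ((Metric.closedBall_subset_closedBall (by linarith)).trans hr₀U) ?_
    refine le_trans (mul_le_mul_of_nonneg_left ?_ L.coe_nonneg) hr₀L
    linarith

theorem dens (h1 : Stmt_DensHalf) (h2 : Stmt_RelIsoBall) (h3 : Stmt_LMinCompl) : Stmt_Dens := by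
  intro n hn
  obtain ⟨c₁, hc₁, hiso⟩ := h2 n hn
  obtain ⟨c, C, hc, hC, hD⟩ := h1 n hn
  have hn0 : (0 : ℝ) < n := by exact_mod_cast (by omega : 0 < n)
  refine ⟨min c (c₁ * c ^ (((n : ℝ) - 1) / n)), C, by positivity, hC, ?_⟩
  intro U A L μ ν hU hUb hL hP x hx
  have := hP.fin
  obtain ⟨hLc, hPc⟩ := h3 n U A L hU
  have hL' := hLc hL
  have hP' := hPc hL.meas μ ν hP
  obtain ⟨ρ, hρ, hρU⟩ := Metric.isOpen_iff.1 hU x hx.1
  have hsub : ∀ s, s ≤ ρ → (U \ A) ∩ Metric.ball x s = Metric.ball x s \ A := by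
    intro s hs
    ext y
    simp only [Set.mem_inter_iff, Set.mem_sdiff]
    constructor
    · tauto
    · intro hy
      exact ⟨⟨hρU (Metric.ball_subset_ball hs hy.1), hy.2⟩, hy.1⟩
  obtain ⟨r₁, hr₁, hr₁U, h₁⟩ := hD U A L μ ν hU hUb hL hP x hx.1 (fun s hs => (hx.2 s hs).1)
  obtain ⟨r₂, hr₂, hr₂U, h₂⟩ := hD U (U \ A) L μ _ hU hUb hL' hP' x hx.1 (fun s hs => by
    have h4 : 0 < volume (Metric.ball x (min s ρ) \ A) := (hx.2 _ (lt_min hs hρ)).2
    rw [← hsub _ (min_le_right _ _)] at h4
    exact h4.trans_le (measure_mono (inter_subset_inter_right _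
      (Metric.ball_subset_ball (min_le_left _ _)))))
  refine ⟨min r₁ (min r₂ ρ), by positivity,
    (Metric.closedBall_subset_closedBall (min_le_left _ _)).trans hr₁U, ?_⟩
  intro r hr hrr
  have hrr1 : r < r₁ := hrr.trans_le (min_le_left _ _)
  have hrr2 : r < r₂ := hrr.trans_le ((min_le_right _ _).trans (min_le_left _ _))
  have hrr3 : r < ρ := hrr.trans_le ((min_le_right _ _).trans (min_le_right _ _))
  obtain ⟨h5, h6⟩ := h₁ r hr hrr1
  obtain ⟨h7, _⟩ := h₂ r hr hrr2
  rw [hsub r hrr3.le] at h7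
  have hmin : min c (c₁ * c ^ (((n : ℝ) - 1) / n)) * r ^ n ≤ c * r ^ n :=
    mul_le_mul_of_nonneg_right (min_le_left _ _) (by positivity)
  refine ⟨(ENNReal.ofReal_le_ofReal hmin).trans h5, (ENNReal.ofReal_le_ofReal hmin).trans h7,
    ?_, h6⟩
  have h8 : c * r ^ n ≤ densM A x r :=
    (ENNReal.ofReal_le_iff_le_toReal (dens_fin A x r)).1 h5
  have h9 : c * r ^ n ≤ (volume (Metric.ball x r \ A)).toReal :=
    (ENNReal.ofReal_le_iff_le_toReal
      (measure_ne_top_of_subset sdiff_subset measure_ball_lt_top.ne)).1 h7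
  have h10 := dens_iso hc₁ hiso hL.meas (by omega) hP hr
    ((Metric.ball_subset_ball hrr3.le).trans hρU) (by positivity) h8 h9
  refine (ENNReal.ofReal_le_iff_le_toReal (measure_ne_top μ _)).2 (le_trans ?_ h10)
  have h11 : (c * r ^ n) ^ (((n : ℝ) - 1) / n) = c ^ (((n : ℝ) - 1) / n) * r ^ (n - 1) := by
    rw [Real.mul_rpow hc.le (by positivity), ← Real.rpow_natCast r n, ← Real.rpow_mul hr.le,
      ← Real.rpow_natCast r (n - 1)]
    have : (n : ℝ) * (((n : ℝ) - 1) / n) = ((n - 1 : ℕ) : ℝ) := by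
      rw [Nat.cast_sub (by omega)]; field_simp; simp
    rw [this]
  rw [h11, ← mul_assoc]
  exact mul_le_mul_of_nonneg_right (min_le_right _ _) (by positivity)

end Pool.Agent.Lib.MP_c95dcf_gt
end
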