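import Pool.Agent.Lib.MP_c95dcf_gt.GStmts

section

/-!
# MP_c95dcf_gt, task G32: the perimeter is at most the Hausdorff measure of the frontier
-/

set_option autoImplicit false

open MeasureTheory Set Filter Topology
open scoped ENNReal NNReal RealInnerProductSpace Manifold

namespace Pool.Agent.Lib.MP_c95dcf_gt

theorem E2_dv_add {n : ℕ} {X Y : E n → E n} {x : E n} (hX : DifferentiableAt ℝ X x)
    (hY : DifferentiableAt ℝ Y x) : dv (fun y => X y + Y y) x = dv X x + dv Y x := by
  simp only [dv]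
  rw [fderiv_fun_add hX hY, ← Finset.sum_add_distrib]
  rfl

theorem E2_dv_sum {n : ℕ} {ι : Type*} (s : Finset ι) {X : ι → E n → E n} {x : E n}
    (hX : ∀ i ∈ s, DifferentiableAt ℝ (X i) x) :
    dv (fun y => ∑ i ∈ s, X i y) x = ∑ i ∈ s, dv (X i) x := by
  simp only [dv]
  rw [fderiv_fun_sum hX, Finset.sum_comm]
  apply Finset.sum_congr rfl
  intro i _
  simp

theorem E2_dv_smul_const {n : ℕ} {φ : E n → ℝ} {x : E n} (hφ : DifferentiableAt ℝ φ x)
    (v : E n) : dv (fun y => φ y • v) x = fderiv ℝ φ x v := by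
  simp only [dv]
  have h1 : fderiv ℝ (fun y => φ y • v) x = (fderiv ℝ φ x).smulRight v :=
    (hφ.hasFDerivAt.smul_const v).fderiv
  rw [h1]
  have h2 : v = ∑ i, (v i) • (EuclideanSpace.single i (1 : ℝ) : E n) := by
    ext j
    simp [Finset.sum_apply, Pi.single_apply]
  conv_rhs => rw [h2]
  rw [map_sum]
  apply Finset.sum_congr rfl
  intro i _
  rw [map_smul]
  simp [mul_comm]

theorem E2_dv_coord {n : ℕ} {X : E n → E n} {x : E n} (hX : DifferentiableAt ℝ X x) :
    dv X x = ∑ i, fderiv ℝ (fun y => X y i) x (EuclideanSpace.single i (1 : ℝ)) := by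
  simp only [dv]
  apply Finset.sum_congr rfl
  intro i _
  have h1 : HasFDerivAt (fun y => X y i)
      ((EuclideanSpace.proj i : E n →L[ℝ] ℝ).comp (fderiv ℝ X x)) x :=
    (EuclideanSpace.proj i : E n →L[ℝ] ℝ).hasFDerivAt.comp x hX.hasFDerivAt
  rw [h1.fderiv]
  rfl

theorem E2_int_fderiv {n : ℕ} {φ : E n → ℝ} (h1 : ContDiff ℝ 1 φ) (h2 : HasCompactSupport φ)
    (v : E n) : Integrable (fun x => fderiv ℝ φ x v) := by
  apply Continuous.integrable_of_hasCompactSupport
  · exact (h1.continuous_fderiv one_ne_zero).clm_apply continuous_const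
  · exact h2.fderiv_apply (𝕜 := ℝ) v

theorem E2_int_dv {n : ℕ} {X : E n → E n} (h1 : ContDiff ℝ 1 X) (h2 : HasCompactSupport X) :
    Integrable (fun x => dv X x) := by
  have h3 : (fun x => dv X x) =
      fun x => ∑ i, fderiv ℝ (fun y => X y i) x (EuclideanSpace.single i (1 : ℝ)) := by
    funext x
    exact E2_dv_coord (h1.differentiable one_ne_zero x)
  rw [h3]
  apply integrable_finsetSum
  intro i _
  apply E2_int_fderiv
  · exact (contDiff_euclidean.mp h1) i
  · exact h2.comp_left (g := fun y : E n => y i) rfl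

theorem E2_bound_one (h : Stmt_E2scalar) {n : ℕ} (hn : 2 ≤ n) {U F : Set (E n)} (hU : IsOpen U)
    (hF : MeasurableSet F)
    (hfin : (Measure.hausdorffMeasure ((n : ℝ) - 1) : Measure (E n)) (frontier F ∩ U) ≠ ∞)
    {φ : E n → ℝ} (h1 : ContDiff ℝ 1 φ) (h2 : HasCompactSupport φ) (h3 : tsupport φ ⊆ U)
    (v : E n) (hv : ‖v‖ ≤ 1) :
    ENNReal.ofReal |∫ x in F, fderiv ℝ φ x v| ≤
      c0 (n - 1) * ∫⁻ x in frontier F ∩ U, ENNReal.ofReal |φ x|
        ∂(Measure.hausdorffMeasure ((n : ℝ) - 1) : Measure (E n)) := by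
  rcases eq_or_ne v 0 with rfl | hv0
  · simp
  · have hv1 : 0 < ‖v‖ := norm_pos_iff.mpr hv0
    have he : ‖(‖v‖)⁻¹ • v‖ = 1 := by
      rw [norm_smul, norm_inv, norm_norm, inv_mul_cancel₀ hv1.ne']
    have h4 := h n U F φ ((‖v‖)⁻¹ • v) hn hU hF h1 h2 h3 he hfin
    refine le_trans (ENNReal.ofReal_le_ofReal ?_) h4
    have h5 : ∀ x, fderiv ℝ φ x v = ‖v‖ * fderiv ℝ φ x ((‖v‖)⁻¹ • v) := by
      intro x
      rw [map_smul, smul_eq_mul, ← mul_assoc, mul_inv_cancel₀ hv1.ne', one_mul]
    simp_rw [h5]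
    rw [integral_const_mul, abs_mul, abs_of_pos hv1]
    exact mul_le_of_le_one_left (abs_nonneg _) hv

theorem E2_bound_two (h : Stmt_E2scalar) {n : ℕ} (hn : 2 ≤ n) {U F : Set (E n)} (hU : IsOpen U)
    (hF : MeasurableSet F)
    (hfin : (Measure.hausdorffMeasure ((n : ℝ) - 1) : Measure (E n)) (frontier F ∩ U) ≠ ∞)
    {W : E n → E n} (h1 : ContDiff ℝ 1 W) (h2 : HasCompactSupport W) (h3 : tsupport W ⊆ U)
    {ε : ℝ} (hε : 0 ≤ ε) {η : E n → ℝ} (hη : ∀ x, ‖W x‖ ≤ ε * η x) :
    ENNReal.ofReal |∫ x in F, dv W x| ≤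
      n * (c0 (n - 1) * (ENNReal.ofReal ε * ∫⁻ x in frontier F ∩ U, ENNReal.ofReal (η x)
        ∂(Measure.hausdorffMeasure ((n : ℝ) - 1) : Measure (E n)))) := by
  have hW : ∀ i : Fin n, ContDiff ℝ 1 (fun y => W y i) := fun i => (contDiff_euclidean.mp h1) i
  have hWc : ∀ i : Fin n, HasCompactSupport (fun y => W y i) := fun i =>
    h2.comp_left (g := fun y : E n => y i) rfl
  have hWs : ∀ i : Fin n, tsupport (fun y => W y i) ⊆ U := by
    intro i
    refine subset_trans (closure_mono ?_) h3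
    intro y hy
    rw [Function.mem_support] at hy ⊢
    intro h0
    apply hy
    rw [h0]
    rfl
  have e1 : ∫ x in F, dv W x =
      ∑ i : Fin n, ∫ x in F, fderiv ℝ (fun y => W y i) x (EuclideanSpace.single i (1 : ℝ)) := by
    rw [← integral_finsetSum]
    · apply integral_congr_ae
      exact Eventually.of_forall fun x => E2_dv_coord (h1.differentiable one_ne_zero x)
    · intro i _
      exact (E2_int_fderiv (hW i) (hWc i) _).integrableOn
  rw [e1]
  calc ENNReal.ofReal |∑ i : Fin n, ∫ x in F,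
        fderiv ℝ (fun y => W y i) x (EuclideanSpace.single i (1 : ℝ))|
      ≤ ENNReal.ofReal (∑ i : Fin n, |∫ x in F,
        fderiv ℝ (fun y => W y i) x (EuclideanSpace.single i (1 : ℝ))|) :=
        ENNReal.ofReal_le_ofReal (Finset.abs_sum_le_sum_abs _ _)
    _ = ∑ i : Fin n, ENNReal.ofReal |∫ x in F,
        fderiv ℝ (fun y => W y i) x (EuclideanSpace.single i (1 : ℝ))| :=
        ENNReal.ofReal_sum_of_nonneg fun i _ => abs_nonneg _
    _ ≤ ∑ _i : Fin n, c0 (n - 1) * (ENNReal.ofReal ε * ∫⁻ x in frontier F ∩ U,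
          ENNReal.ofReal (η x)
          ∂(Measure.hausdorffMeasure ((n : ℝ) - 1) : Measure (E n))) := by
        apply Finset.sum_le_sum
        intro i _
        refine (E2_bound_one h hn hU hF hfin (hW i) (hWc i) (hWs i)
          (EuclideanSpace.single i (1 : ℝ)) (by simp)).trans ?_
        apply mul_le_mul_right
        rw [← lintegral_const_mul' _ _ ENNReal.ofReal_ne_top]
        apply lintegral_mono
        intro x
        simp only
        rw [← ENNReal.ofReal_mul hε]
        apply ENNReal.ofReal_le_ofReal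
        refine le_trans ?_ (hη x)
        have := PiLp.norm_apply_le (W x) i
        simpa using this
    _ = _ := by
        rw [Finset.sum_const, Finset.card_univ, Fintype.card_fin, nsmul_eq_mul]

theorem E2_c0_pos (d : ℕ) : c0 d ≠ 0 := by
  have h1 : om d ≠ 0 := (Metric.measure_ball_pos volume (0 : E d) one_pos).ne'
  rw [c0]
  exact (ENNReal.div_pos h1 (by simp)).ne'

theorem E2_c0_fin (d : ℕ) : c0 d ≠ ∞ := by
  have h1 : om d ≠ ∞ := measure_ball_lt_top.ne
  rw [c0]
  exact ENNReal.div_ne_top h1 (by simp)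

theorem E2_field (h : Stmt_E2scalar) {n : ℕ} (hn : 2 ≤ n) {U F : Set (E n)} (hU : IsOpen U)
    (hF : MeasurableSet F)
    (hfin : (Measure.hausdorffMeasure ((n : ℝ) - 1) : Measure (E n)) (frontier F ∩ U) ≠ ∞)
    {X : E n → E n} (hX : TF U X) (hX1 : ∀ x, ‖X x‖ ≤ 1) {ε : ℝ} (hε : 0 < ε) :
    ENNReal.ofReal (∫ x in F, dv X x) ≤
      c0 (n - 1) * (Measure.hausdorffMeasure ((n : ℝ) - 1) : Measure (E n)) (frontier F ∩ U) +
      n * (c0 (n - 1) * (ENNReal.ofReal ε *
        (Measure.hausdorffMeasure ((n : ℝ) - 1) : Measure (E n)) (frontier F ∩ U))) := by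
  classical
  -- the cover
  have hVo : ∀ x : E n, IsOpen (U ∩ {y | ‖X y - X x‖ < ε} ∩ Metric.ball x 1) := by
    intro x
    refine (hU.inter ?_).inter Metric.isOpen_ball
    exact isOpen_lt ((hX.diff.continuous.sub continuous_const).norm) continuous_const
  obtain ⟨t, ht1, ht2⟩ := hX.comp.isCompact.elim_nhds_subcover
    (fun x => U ∩ {y | ‖X y - X x‖ < ε} ∩ Metric.ball x 1) (by
      intro x hx
      apply (hVo x).mem_nhds
      refine ⟨⟨hX.supp hx, ?_⟩, Metric.mem_ball_self one_pos⟩
      simpa using hε)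
  obtain ⟨f, hf⟩ := SmoothPartitionOfUnity.exists_isSubordinate 𝓘(ℝ, E n)
    (isClosed_tsupport X) (fun x : t => U ∩ {y | ‖X y - X x‖ < ε} ∩ Metric.ball (x : E n) 1)
    (fun x => hVo x) (by
      intro y hy
      obtain ⟨x, hx, hyx⟩ := Set.mem_iUnion₂.mp (ht2 hy)
      exact Set.mem_iUnion.mpr ⟨⟨x, hx⟩, hyx⟩)
  have hfs : ∀ i : t, tsupport (f i) ⊆ U ∩ {y | ‖X y - X i‖ < ε} ∩ Metric.ball (i : E n) 1 :=
    fun i => hf i
  have hfU : ∀ i : t, tsupport (f i) ⊆ U := fun i => (hfs i).trans
    (inter_subset_left.trans inter_subset_left)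
  have hfc : ∀ i : t, HasCompactSupport (f i) := fun i =>
    (isCompact_closedBall (i : E n) 1).of_isClosed_subset (isClosed_tsupport _)
      ((hfs i).trans (inter_subset_right.trans Metric.ball_subset_closedBall))
  have hfd : ∀ i : t, ContDiff ℝ 1 (f i) := fun i =>
    ((f i).contMDiff.contDiff).of_le (by exact_mod_cast le_top)
  have hf0 : ∀ (i : t) (x : E n), 0 ≤ f i x := fun i x => f.nonneg i x
  have hf1 : ∀ x : E n, ∑ i : t, f i x ≤ 1 := by
    intro x
    have := f.sum_le_one x
    rwa [finsum_eq_sum_of_fintype] at this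
  have hfX : ∀ x : E n, (∑ i : t, f i x) • X x = X x := by
    intro x
    by_cases hx : X x = 0
    · rw [hx, smul_zero]
    · have hx' : x ∈ tsupport X := subset_tsupport X hx
      have := f.sum_eq_one hx'
      rw [finsum_eq_sum_of_fintype] at this
      rw [this, one_smul]
  -- the two parts of the field
  let A : t → E n → E n := fun i y => f i y • X i
  let W : t → E n → E n := fun i y => f i y • (X y - X i)
  have hA1 : ∀ i, ContDiff ℝ 1 (A i) := fun i => (hfd i).smul contDiff_const
  have hAc : ∀ i, HasCompactSupport (A i) := fun i => (hfc i).smul_right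
  have hW1 : ∀ i, ContDiff ℝ 1 (W i) := fun i => (hfd i).smul (hX.diff.sub contDiff_const)
  have hWc : ∀ i, HasCompactSupport (W i) := fun i => (hfc i).smul_right
  have hWU : ∀ i, tsupport (W i) ⊆ U := fun i => (tsupport_smul_subset_left (f i) _).trans (hfU i)
  have hWε : ∀ i x, ‖W i x‖ ≤ ε * f i x := by
    intro i x
    by_cases hx : f i x = 0
    · simp [W, hx]
    · have hx' : x ∈ tsupport (f i) := subset_tsupport (f i) hx
      have h4 : ‖X x - X i‖ < ε := ((hfs i) hx').1.2
      simp only [W]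
      rw [norm_smul, Real.norm_of_nonneg (hf0 i x), mul_comm]
      exact mul_le_mul_of_nonneg_right h4.le (hf0 i x)
  have hXeq : X = fun y => ∑ i : t, (A i y + W i y) := by
    funext y
    simp only [A, W, ← smul_add, add_sub_cancel]
    rw [← Finset.sum_smul, hfX]
  have hdv : ∀ x, dv X x = ∑ i : t, (fderiv ℝ (f i) x (X i) + dv (W i) x) := by
    intro x
    conv_lhs => rw [hXeq]
    rw [E2_dv_sum]
    · apply Finset.sum_congr rfl
      intro i _
      rw [E2_dv_add ((hA1 i).differentiable one_ne_zero x) ((hW1 i).differentiable one_ne_zero x)]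
      congr 1
      exact E2_dv_smul_const ((hfd i).differentiable one_ne_zero x) (X i)
    · intro i _
      exact ((hA1 i).differentiable one_ne_zero x).add ((hW1 i).differentiable one_ne_zero x)
  have hint : ∫ x in F, dv X x =
      ∑ i : t, ((∫ x in F, fderiv ℝ (f i) x (X i)) + ∫ x in F, dv (W i) x) := by
    simp_rw [hdv]
    rw [integral_finsetSum]
    · apply Finset.sum_congr rfl
      intro i _
      exact integral_add (E2_int_fderiv (hfd i) (hfc i) _).integrableOn
        (E2_int_dv (hW1 i) (hWc i)).integrableOn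
    · intro i _
      exact (E2_int_fderiv (hfd i) (hfc i) _).integrableOn.add
        (E2_int_dv (hW1 i) (hWc i)).integrableOn
  set H := (Measure.hausdorffMeasure ((n : ℝ) - 1) : Measure (E n)) with hH
  have hsum : ∑ i : t, ∫⁻ x in frontier F ∩ U, ENNReal.ofReal (f i x) ∂H ≤ H (frontier F ∩ U) := by
    rw [← lintegral_finsetSum']
    · calc ∫⁻ x in frontier F ∩ U, ∑ i : t, ENNReal.ofReal (f i x) ∂H
          ≤ ∫⁻ x in frontier F ∩ U, 1 ∂H := by
            apply lintegral_mono
            intro x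
            simp only
            rw [← ENNReal.ofReal_sum_of_nonneg (fun i _ => hf0 i x)]
            exact (ENNReal.ofReal_le_ofReal (hf1 x)).trans (by simp)
        _ = H (frontier F ∩ U) := setLIntegral_one _
    · intro i _
      exact ((hfd i).continuous.measurable.ennreal_ofReal).aemeasurable
  rw [hint]
  calc ENNReal.ofReal (∑ i : t, ((∫ x in F, fderiv ℝ (f i) x (X i)) + ∫ x in F, dv (W i) x))
      ≤ ENNReal.ofReal (∑ i : t, (|∫ x in F, fderiv ℝ (f i) x (X i)| +
          |∫ x in F, dv (W i) x|)) := by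
        apply ENNReal.ofReal_le_ofReal
        apply Finset.sum_le_sum
        intro i _
        exact add_le_add (le_abs_self _) (le_abs_self _)
    _ = ∑ i : t, (ENNReal.ofReal |∫ x in F, fderiv ℝ (f i) x (X i)| +
          ENNReal.ofReal |∫ x in F, dv (W i) x|) := by
        rw [ENNReal.ofReal_sum_of_nonneg (fun i _ => by positivity)]
        apply Finset.sum_congr rfl
        intro i _
        exact ENNReal.ofReal_add (abs_nonneg _) (abs_nonneg _)
    _ ≤ ∑ i : t, ((c0 (n - 1) * ∫⁻ x in frontier F ∩ U, ENNReal.ofReal (f i x) ∂H) +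
          n * (c0 (n - 1) * (ENNReal.ofReal ε *
            ∫⁻ x in frontier F ∩ U, ENNReal.ofReal (f i x) ∂H))) := by
        apply Finset.sum_le_sum
        intro i _
        apply add_le_add
        · have := E2_bound_one h hn hU hF hfin (hfd i) (hfc i) (hfU i) (X i) (hX1 _)
          simpa only [abs_of_nonneg (hf0 i _)] using this
        · exact E2_bound_two h hn hU hF hfin (hW1 i) (hWc i) (hWU i) hε.le (hWε i)
    _ = c0 (n - 1) * (∑ i : t, ∫⁻ x in frontier F ∩ U, ENNReal.ofReal (f i x) ∂H) +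
          n * (c0 (n - 1) * (ENNReal.ofReal ε *
            (∑ i : t, ∫⁻ x in frontier F ∩ U, ENNReal.ofReal (f i x) ∂H))) := by
        rw [Finset.sum_add_distrib]
        simp only [Finset.mul_sum]
    _ ≤ _ := by
        gcongr

/-- Task G32. -/
theorem e2 (h : Stmt_E2scalar) : Stmt_E2 := by
  intro n U F hn hU hF
  by_cases hfin : (Measure.hausdorffMeasure ((n : ℝ) - 1) : Measure (E n)) (frontier F ∩ U) = ∞
  · rw [hfin, ENNReal.mul_top (E2_c0_pos _)]
    exact le_top
  · apply iSup₂_le
    rintro X ⟨hX, hX1⟩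
    set H := (Measure.hausdorffMeasure ((n : ℝ) - 1) : Measure (E n)) (frontier F ∩ U) with hH
    apply ENNReal.le_of_forall_pos_le_add
    intro ε hε _
    set Q : ℝ≥0∞ := n * (c0 (n - 1) * H) with hQ
    have hQfin : Q ≠ ∞ := by
      rw [hQ]
      exact ENNReal.mul_ne_top (ENNReal.natCast_ne_top n) (ENNReal.mul_ne_top (E2_c0_fin _) hfin)
    have hδ : 0 < (ε : ℝ) / (Q.toReal + 1) := by positivity
    refine (E2_field h hn hU hF hfin hX hX1 hδ).trans ?_
    rw [← hH]
    gcongr
    calc (n : ℝ≥0∞) * (c0 (n - 1) * (ENNReal.ofReal ((ε : ℝ) / (Q.toReal + 1)) * H)) =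
        ENNReal.ofReal ((ε : ℝ) / (Q.toReal + 1)) * Q := by
          rw [hQ]
          ring
      _ = ENNReal.ofReal ((ε : ℝ) / (Q.toReal + 1)) * ENNReal.ofReal Q.toReal := by
          rw [ENNReal.ofReal_toReal hQfin]
      _ = ENNReal.ofReal ((ε : ℝ) / (Q.toReal + 1) * Q.toReal) := by
          rw [ENNReal.ofReal_mul hδ.le]
      _ ≤ ENNReal.ofReal (ε : ℝ) := by
          apply ENNReal.ofReal_le_ofReal
          have h0 : 0 ≤ Q.toReal := ENNReal.toReal_nonneg
          rw [div_mul_eq_mul_div, div_le_iff₀ (by positivity)]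
          have : (0 : ℝ) ≤ ε := ε.2
          nlinarith
      _ = ε := ENNReal.ofReal_coe_nnreal

end Pool.Agent.Lib.MP_c95dcf_gt
end

section

/-!
# MP_c95dcf_gt, task G30: Fubini along lines for a cover of the frontier by convex sets
-/

set_option autoImplicit false

open MeasureTheory Set Filter Topology
open scoped ENNReal NNReal RealInnerProductSpace

namespace Pool.Agent.Lib.MP_c95dcf_gt

/-- An isometry with a prescribed image of the first basis vector. -/
lemma e2c_rot (m : ℕ) (e : E (m + 1)) (he : ‖e‖ = 1) :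
    ∃ R : E (m + 1) ≃ₗᵢ[ℝ] E (m + 1), R (EuclideanSpace.single 0 1) = e := by
  have hv : Orthonormal ℝ (({0} : Set (Fin (m + 1))).domRestrict fun _ => e) := by
    rw [orthonormal_iff_ite]
    rintro ⟨i, hi⟩ ⟨j, hj⟩
    simp only [mem_singleton_iff] at hi hj
    subst hi hj
    simp [Set.domRestrict, he]
  obtain ⟨b, hb⟩ := hv.exists_orthonormalBasis_extension_of_card_eq (by simp)
  refine ⟨b.repr.symm, ?_⟩
  rw [b.repr_symm_single]
  exact hb 0 rfl

/-- Coordinates adapted to the direction `e`. -/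
lemma e2c_coord (m : ℕ) (e : E (m + 1)) (he : ‖e‖ = 1) :
    ∃ T : (E m × ℝ) ≃ₜ E (m + 1), MeasurePreserving T ∧
      (∀ w t, T (w, t) = t • e + T (w, 0)) ∧
      (∀ w w' t t', dist w w' ≤ dist (T (w, t)) (T (w', t'))) := by
  obtain ⟨R, hR⟩ := e2c_rot m e he
  let T : (E m × ℝ) ≃ₜ E (m + 1) :=
    { toFun := fun p => R (WithLp.toLp 2 (Fin.cons p.2 (WithLp.ofLp p.1) : Fin (m + 1) → ℝ))
      invFun := fun x => (WithLp.toLp 2 (Fin.tail (WithLp.ofLp (R.symm x)) : Fin m → ℝ),
        WithLp.ofLp (R.symm x) 0)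
      left_inv := by
        rintro ⟨w, t⟩
        simp
      right_inv := by
        intro x
        simp
      continuous_toFun := by
        refine R.continuous.comp ((PiLp.continuous_toLp 2 _).comp ?_)
        refine continuous_pi fun i => ?_
        refine Fin.cases ?_ (fun j => ?_) i
        · simp only [Fin.cons_zero]
          exact continuous_snd
        · simp only [Fin.cons_succ]
          exact (continuous_apply j).comp ((PiLp.continuous_ofLp 2 _).comp continuous_fst)
      continuous_invFun := by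
        have h1 : Continuous fun x => WithLp.ofLp (R.symm x) :=
          (PiLp.continuous_ofLp 2 _).comp R.symm.continuous
        refine Continuous.prodMk ((PiLp.continuous_toLp 2 _).comp ?_)
          ((continuous_apply 0).comp h1)
        exact continuous_pi fun i => (continuous_apply i.succ).comp h1 }
  have hT : ∀ p, T p = R (WithLp.toLp 2 (Fin.cons p.2 (WithLp.ofLp p.1) : Fin (m + 1) → ℝ)) :=
    fun p => rfl
  refine ⟨T, ?_, ?_, ?_⟩
  · have h1 : MeasurePreserving (Prod.swap : E m × ℝ → ℝ × E m) volume volume :=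
      Measure.measurePreserving_swap
    have h2 : MeasurePreserving (Prod.map id (MeasurableEquiv.toLp 2 (Fin m → ℝ)).symm :
        ℝ × E m → ℝ × (Fin m → ℝ)) volume volume :=
      (MeasurePreserving.id (volume : Measure ℝ)).prod
        (EuclideanSpace.volume_preserving_symm_measurableEquiv_toLp (Fin m))
    have h3 := (volume_preserving_piFinSuccAbove (fun _ : Fin (m + 1) => ℝ) 0).symm
    have h4 := (EuclideanSpace.volume_preserving_symm_measurableEquiv_toLp (Fin (m + 1))).symm
    have h5 := R.measurePreserving.comp (h4.comp (h3.comp (h2.comp h1)))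
    have h6 : (T : E m × ℝ → E (m + 1)) = R ∘ (MeasurableEquiv.toLp 2 (Fin (m + 1) → ℝ)).symm.symm ∘
        (MeasurableEquiv.piFinSuccAbove (fun _ => ℝ) 0).symm ∘
          Prod.map id (MeasurableEquiv.toLp 2 (Fin m → ℝ)).symm ∘ Prod.swap := by
      funext p
      rw [hT]
      simp only [Function.comp]
      congr 1
      ext i
      refine Fin.cases ?_ (fun j => ?_) i
      · rfl
      · rfl
    rw [h6]
    exact h5
  · intro w t
    rw [hT, hT, ← hR, ← map_smul, ← map_add]
    congr 1
    ext i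
    refine Fin.cases ?_ (fun j => ?_) i
    · simp
    · simp
  · intro w w' t t'
    rw [hT, hT, R.dist_map, EuclideanSpace.dist_eq, EuclideanSpace.dist_eq]
    apply Real.sqrt_le_sqrt
    rw [Fin.sum_univ_succ]
    simp only [Fin.cons_succ, Fin.cons_zero]
    have := sq_nonneg (dist t t')
    linarith

/-- The estimate on one line. -/
lemma e2c_line (h1 : Stmt_LineLemma) (m : ℕ) (F : Set (E (m + 1))) (φ : E (m + 1) → ℝ)
    (e c : E (m + 1)) (N : ℕ) (C : Fin N → Set (E (m + 1))) (s : Fin N → ℝ) (M : ℝ)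
    (hF : MeasurableSet F) (hφ : ContDiff ℝ 1 φ) (hφc : HasCompactSupport φ) (he : ‖e‖ = 1)
    (hM : ∀ x, |fderiv ℝ φ x e| ≤ M) (hCc : ∀ i, IsCompact (C i)) (hCv : ∀ i, Convex ℝ (C i))
    (hcov : frontier F ∩ tsupport φ ⊆ ⋃ i, C i) (hCs : ∀ i, ∀ x ∈ C i, |φ x| ≤ s i) :
    |∫ t : ℝ in {t : ℝ | t • e + c ∈ F}, fderiv ℝ φ (t • e + c) e| ≤
      (∑ i, {i | ∃ t : ℝ, t • e + c ∈ C i}.indicator s i) +
        2 * M * ∑ i, volume.real {t : ℝ | t • e + c ∈ C i} := by
  classical
  have hM0 : 0 ≤ M := (abs_nonneg _).trans (hM 0)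
  set γ : ℝ → E (m + 1) := fun t => t • e + c with hγ
  have hiso : Isometry γ := by
    apply Isometry.of_dist_eq
    intro t t'
    rw [hγ]
    simp only
    rw [dist_add_right, dist_eq_norm, ← sub_smul, norm_smul, he, mul_one, Real.dist_eq,
      Real.norm_eq_abs]
  have hγc : Continuous γ := hiso.continuous
  have hγe : Topology.IsClosedEmbedding γ := hiso.isClosedEmbedding
  have hγd : ∀ t, HasDerivAt γ e t := by
    intro t
    have h3 := ((hasDerivAt_id t).smul_const e).add_const c
    rw [one_smul] at h3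
    exact h3
  have hψd : ∀ t, HasDerivAt (φ ∘ γ) (fderiv ℝ φ (γ t) e) t := fun t =>
    ((hφ.differentiable (by norm_num)) (γ t)).hasFDerivAt.comp_hasDerivAt t (hγd t)
  have hψ1 : ContDiff ℝ 1 (φ ∘ γ) := by
    apply hφ.comp
    exact (contDiff_id.smul contDiff_const).add contDiff_const
  have hψc : HasCompactSupport (φ ∘ γ) := hφc.comp_isClosedEmbedding hγe
  have hsl : ∀ i, IsCompact (γ ⁻¹' C i) := fun i => hγe.isCompact_preimage (hCc i)
  have hslv : ∀ i, Convex ℝ (γ ⁻¹' C i) := by
    intro i t ht t' ht' a b ha hb hab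
    have h3 := hCv i ht ht' ha hb hab
    have h4 : a • γ t + b • γ t' = γ (a • t + b • t') := by
      simp only [hγ, smul_eq_mul]
      have hc : c = a • c + b • c := by rw [← add_smul, hab, one_smul]
      conv_rhs => rw [hc]
      module
    rw [mem_preimage, ← h4]
    exact h3
  set eqv := (Fintype.equivFin {i : Fin N // (γ ⁻¹' C i).Nonempty}).symm with heqv
  have hIcc : ∀ i, (γ ⁻¹' C i).Nonempty →
      γ ⁻¹' C i = Icc (sInf (γ ⁻¹' C i)) (sSup (γ ⁻¹' C i)) := fun i hi =>
    eq_Icc_of_connected_compact ⟨hi, (hslv i).isPreconnected⟩ (hsl i)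
  have hle : ∀ i, (γ ⁻¹' C i).Nonempty → sInf (γ ⁻¹' C i) ≤ sSup (γ ⁻¹' C i) := by
    intro i hi
    have h3 := hi
    rw [hIcc i hi] at h3
    exact nonempty_Icc.1 h3
  have key := h1 (γ ⁻¹' F) (φ ∘ γ) (Fintype.card {i : Fin N // (γ ⁻¹' C i).Nonempty})
    (fun j => sInf (γ ⁻¹' C (eqv j))) (fun j => sSup (γ ⁻¹' C (eqv j))) (fun j => s (eqv j)) M
    (hγc.measurable hF) hψ1 hψc (fun t => by rw [(hψd t).deriv]; exact hM _)
    (by
      rintro t ⟨ht1, ht2⟩
      have h3 : γ t ∈ frontier F := hγc.frontier_preimage_subset F ht1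
      have h4 : γ t ∈ tsupport φ := tsupport_comp_subset_preimage φ hγc ht2
      obtain ⟨i, hi⟩ := mem_iUnion.1 (hcov ⟨h3, h4⟩)
      have hne : (γ ⁻¹' C i).Nonempty := ⟨t, hi⟩
      refine mem_iUnion.2 ⟨eqv.symm ⟨i, hne⟩, ?_⟩
      simp only [Equiv.apply_symm_apply]
      rw [← hIcc i hne]
      exact hi)
    (by
      intro j t ht
      rw [← hIcc _ (eqv j).2] at ht
      exact hCs _ _ ht)
    (fun j => hle _ (eqv j).2)
  have e1 : ∫ t : ℝ in {t : ℝ | t • e + c ∈ F}, fderiv ℝ φ (t • e + c) e =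
      ∫ t in γ ⁻¹' F, deriv (φ ∘ γ) t := by
    apply integral_congr_ae
    exact Eventually.of_forall fun t => (hψd t).deriv.symm
  rw [e1]
  refine key.trans ?_
  have e2 : ∀ f : Fin N → ℝ, ∑ j, f (eqv j) = ∑ i, if (γ ⁻¹' C i).Nonempty then f i else 0 := by
    intro f
    rw [Equiv.sum_comp eqv (fun i => f i), ← Finset.sum_filter]
    exact (Finset.sum_subtype _ (fun i => by simp) f).symm
  have e3 : ∑ j, s (eqv j) = ∑ i, {i | ∃ t : ℝ, t • e + c ∈ C i}.indicator s i := by
    rw [e2 s]
    apply Finset.sum_congr rfl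
    intro i _
    rw [indicator_apply]
    rfl
  have e4 : ∑ j, (sSup (γ ⁻¹' C (eqv j)) - sInf (γ ⁻¹' C (eqv j))) ≤
      ∑ i, volume.real {t : ℝ | t • e + c ∈ C i} := by
    rw [e2 (fun i => sSup (γ ⁻¹' C i) - sInf (γ ⁻¹' C i))]
    apply Finset.sum_le_sum
    intro i _
    split_ifs with hi
    · have h5 : volume.real (γ ⁻¹' C i) = sSup (γ ⁻¹' C i) - sInf (γ ⁻¹' C i) := by
        conv_lhs => rw [hIcc i hi]
        exact Real.volume_real_Icc_of_le (hle i hi)
      rw [← h5]
      exact le_rfl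
    · exact measureReal_nonneg
  rw [e3]
  gcongr

theorem e2cover (h1 : Stmt_LineLemma) (h2 : Stmt_Isodiam) : Stmt_E2cover := by
  classical
  intro n F φ e N C s M hn hF hφ hφc he hM hCc hCv hCn hcov hCs
  obtain ⟨m, rfl⟩ : ∃ m, n = m + 1 := ⟨n - 1, by omega⟩
  simp only [Nat.add_sub_cancel]
  obtain ⟨T, hTm, hTl, hTd⟩ := e2c_coord m e he
  have hM0 : 0 ≤ M := (abs_nonneg _).trans (hM 0)
  have hs0 : ∀ i, 0 ≤ s i := by
    intro i
    obtain ⟨x, hx⟩ := hCn i
    exact (abs_nonneg _).trans (hCs i x hx)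
  have hgc : Continuous fun x => fderiv ℝ φ x e :=
    (hφ.continuous_fderiv (by norm_num)).clm_apply continuous_const
  have hgs : HasCompactSupport fun x => fderiv ℝ φ x e := hφc.fderiv_apply (𝕜 := ℝ) e
  have hgi : Integrable (F.indicator fun x => fderiv ℝ φ x e) :=
    (hgc.integrable_of_hasCompactSupport hgs).indicator hF
  have hemb : MeasurableEmbedding T := T.measurableEmbedding
  have hgiT : Integrable (fun p => F.indicator (fun x => fderiv ℝ φ x e) (T p)) :=
    (hTm.integrable_comp_emb hemb).2 hgi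
  have hSc : ∀ i, IsCompact (T ⁻¹' C i) := fun i => T.isCompact_preimage.2 (hCc i)
  have hSm : ∀ i, MeasurableSet (T ⁻¹' C i) := fun i => (hSc i).measurableSet
  have hSf : ∀ i, (volume : Measure (E m × ℝ)) (T ⁻¹' C i) ≠ ∞ := fun i =>
    (hSc i).measure_lt_top.ne
  have hPc : ∀ i, IsCompact (Prod.fst '' (T ⁻¹' C i)) := fun i => (hSc i).image continuous_fst
  set B : E m → ℝ := fun w => (∑ i, (Prod.fst '' (T ⁻¹' C i)).indicator (fun _ => s i) w) +
    2 * M * ∑ i, volume.real (Prod.mk w ⁻¹' (T ⁻¹' C i)) with hB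
  have hint1 : ∀ i, Integrable fun w => (Prod.fst '' (T ⁻¹' C i)).indicator (fun _ => s i) w := by
    intro i
    exact (integrable_indicator_iff (hPc i).measurableSet).2
      (integrableOn_const (hPc i).measure_lt_top.ne)
  have hint2 : ∀ i, Integrable fun w => volume.real (Prod.mk w ⁻¹' (T ⁻¹' C i)) := fun i =>
    Measure.integrable_measure_prodMk_left (hSm i) (hSf i)
  have hBi : Integrable B :=
    (integrable_finsetSum _ fun i _ => hint1 i).add
      ((integrable_finsetSum _ fun i _ => hint2 i).const_mul _)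
  have key : ∀ w, ‖∫ t, F.indicator (fun x => fderiv ℝ φ x e) (T (w, t))‖ ≤ B w := by
    intro w
    have h3 := e2c_line h1 m F φ e (T (w, 0)) N C s M hF hφ hφc he hM hCc hCv hcov hCs
    have h4 : ∫ t, F.indicator (fun x => fderiv ℝ φ x e) (T (w, t)) =
        ∫ t : ℝ in {t : ℝ | t • e + T (w, 0) ∈ F}, fderiv ℝ φ (t • e + T (w, 0)) e := by
      have hmeas : MeasurableSet {t : ℝ | t • e + T (w, 0) ∈ F} := by
        have : Continuous fun t : ℝ => t • e + T (w, 0) := by fun_prop
        exact this.measurable hF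
      rw [← integral_indicator hmeas]
      congr 1
      funext t
      rw [hTl w t, indicator_apply, indicator_apply]
      rfl
    rw [h4, Real.norm_eq_abs]
    refine h3.trans (le_of_eq ?_)
    rw [hB]
    simp only
    congr 1
    · apply Finset.sum_congr rfl
      intro i _
      rw [indicator_apply, indicator_apply]
      have h5 : (i ∈ {i | ∃ t : ℝ, t • e + T (w, 0) ∈ C i}) ↔ w ∈ Prod.fst '' (T ⁻¹' C i) := by
        constructor
        · rintro ⟨t, ht⟩
          refine ⟨(w, t), ?_, rfl⟩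
          rw [mem_preimage, hTl]
          exact ht
        · rintro ⟨⟨w', t⟩, ht, rfl⟩
          refine ⟨t, ?_⟩
          rw [mem_preimage, hTl] at ht
          exact ht
      simp only [h5]
    · congr 1
      apply Finset.sum_congr rfl
      intro i _
      congr 1
      ext t
      simp only [mem_preimage]
      rw [hTl w t]
      rfl
  have hfin : ∀ i, volume.real (Prod.fst '' (T ⁻¹' C i)) ≤
      (c0 m).toReal * Metric.diam (C i) ^ m := by
    intro i
    have h3 := h2 m (Prod.fst '' (T ⁻¹' C i))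
    have h4 : Metric.ediam (Prod.fst '' (T ⁻¹' C i)) ≤ Metric.ediam (C i) := by
      apply Metric.ediam_le
      rintro _ ⟨⟨w, t⟩, h5, rfl⟩ _ ⟨⟨w', t'⟩, h6, rfl⟩
      refine le_trans ?_ (Metric.edist_le_ediam_of_mem h5 h6)
      rw [edist_dist, edist_dist]
      exact ENNReal.ofReal_le_ofReal (hTd w w' t t')
    have h5 : volume (Prod.fst '' (T ⁻¹' C i)) ≤ c0 m * Metric.ediam (C i) ^ m := by
      calc volume (Prod.fst '' (T ⁻¹' C i)) ≤
            om m * (Metric.ediam (Prod.fst '' (T ⁻¹' C i)) / 2) ^ m := h3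
        _ ≤ om m * (Metric.ediam (C i) / 2) ^ m := by gcongr
        _ = c0 m * Metric.ediam (C i) ^ m := by
          rw [c0, div_eq_mul_inv, div_eq_mul_inv, mul_pow, ENNReal.inv_pow]
          ring
    have h6 : c0 m * Metric.ediam (C i) ^ m ≠ ∞ := by
      apply ENNReal.mul_ne_top
      · rw [c0]
        apply ENNReal.div_ne_top
        · exact Metric.isBounded_ball.measure_lt_top.ne
        · positivity
      · exact ENNReal.pow_ne_top (hCc i).isBounded.ediam_ne_top
    have h7 := ENNReal.toReal_mono h6 h5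
    rwa [ENNReal.toReal_mul, ENNReal.toReal_pow] at h7
  have hvol : ∀ i, ∫ w, volume.real (Prod.mk w ⁻¹' (T ⁻¹' C i)) = (volume (C i)).toReal := by
    intro i
    have h3 := integral_toReal
      (measurable_measure_prodMk_left (ν := (volume : Measure ℝ)) (hSm i)).aemeasurable
      (Measure.ae_measure_lt_top (μ := (volume : Measure (E m))) (hSm i) (hSf i))
    rw [← Measure.prod_apply (hSm i), ← Measure.volume_eq_prod,
      hTm.measure_preimage_emb hemb] at h3
    exact h3
  calc |∫ x in F, fderiv ℝ φ x e| = ‖∫ x, F.indicator (fun x => fderiv ℝ φ x e) x‖ := by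
        rw [integral_indicator hF, Real.norm_eq_abs]
    _ = ‖∫ p : E m × ℝ, F.indicator (fun x => fderiv ℝ φ x e) (T p)‖ := by
        rw [hTm.integral_comp hemb]
    _ = ‖∫ w, ∫ t, F.indicator (fun x => fderiv ℝ φ x e) (T (w, t))‖ := by
        rw [Measure.volume_eq_prod, integral_prod]
        exact hgiT
    _ ≤ ∫ w, B w := norm_integral_le_of_norm_le hBi (Eventually.of_forall key)
    _ = (∑ i, volume.real (Prod.fst '' (T ⁻¹' C i)) * s i) +
          2 * M * ∑ i, (volume (C i)).toReal := by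
        rw [hB, integral_add (integrable_finsetSum _ fun i _ => hint1 i)
          ((integrable_finsetSum _ fun i _ => hint2 i).const_mul _), integral_const_mul,
          integral_finsetSum _ (fun i _ => hint1 i), integral_finsetSum _ (fun i _ => hint2 i)]
        congr 1
        · apply Finset.sum_congr rfl
          intro i _
          rw [integral_indicator_const _ (hPc i).measurableSet, smul_eq_mul]
        · congr 1
          exact Finset.sum_congr rfl fun i _ => hvol i
    _ ≤ (∑ i, s i * ((c0 m).toReal * Metric.diam (C i) ^ m)) +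
          2 * M * ∑ i, (volume (C i)).toReal := by
        apply add_le_add_left
        apply Finset.sum_le_sum
        intro i _
        rw [mul_comm]
        exact mul_le_mul_of_nonneg_left (hfin i) (hs0 i)

end Pool.Agent.Lib.MP_c95dcf_gt
end
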