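import Pool.Agent.Lib.MP_c95dcf_gt.GStmts

section

/-!
# MP_c95dcf_gt, task G20: sets monotone in one direction are half spaces
-/

set_option autoImplicit false

open MeasureTheory Set Filter Topology
open scoped ENNReal NNReal RealInnerProductSpace

namespace Pool.Agent.Lib.MP_c95dcf_gt

theorem HalfSpace_plane_null {n : ℕ} {e : E n} (he : ‖e‖ = 1) (c : ℝ) :
    volume {x : E n | ⟪x, e⟫ = c} = 0 := by
  set L : E n →ₗ[ℝ] ℝ := (innerSL ℝ e).toLinearMap with hL
  set s : AffineSubspace ℝ (E n) := AffineSubspace.mk' (c • e) (LinearMap.ker L) with hs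
  have hee : ⟪e, e⟫ = (1 : ℝ) := by rw [real_inner_self_eq_norm_sq, he]; norm_num
  have h1 : {x : E n | ⟪x, e⟫ = c} = (s : Set (E n)) := by
    ext x
    rw [mem_ofPred_eq, SetLike.mem_coe, hs, AffineSubspace.mem_mk', LinearMap.mem_ker, vsub_eq_sub]
    simp only [hL, map_sub, map_smul, ContinuousLinearMap.coe_coe, innerSL_apply_apply, hee,
      smul_eq_mul, mul_one, sub_eq_zero]
    rw [real_inner_comm]
  rw [h1]
  refine Measure.addHaar_affineSubspace volume s ?_
  intro htop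
  have h2 : (c + 1) • e ∈ (s : Set (E n)) := by rw [htop]; trivial
  rw [← h1, mem_ofPred_eq, real_inner_smul_left, hee] at h2
  linarith

theorem HalfSpace_conv_eq {n : ℕ} (ρ u : E n → ℝ) :
    conv ρ u = convolution u ρ (ContinuousLinearMap.lsmul ℝ ℝ) volume := by
  ext x
  rw [convolution_def]
  unfold conv
  refine integral_congr_ae (Eventually.of_forall fun y => ?_)
  simp [mul_comm]

theorem HalfSpace_locInt {n : ℕ} {A : Set (E n)} (hA : MeasurableSet A) :
    LocallyIntegrable (A.indicator (1 : E n → ℝ)) := by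
  have h1 : LocallyIntegrable (1 : E n → ℝ) := (locallyIntegrable_const (1 : ℝ))
  exact h1.indicator hA

theorem HalfSpace_hasFDeriv {n : ℕ} {ρ : E n → ℝ} (hρ : ContDiff ℝ 1 ρ)
    (hc : HasCompactSupport ρ) {A : Set (E n)} (hA : MeasurableSet A) (x : E n) :
    ∃ L : E n →L[ℝ] ℝ, HasFDerivAt (conv ρ (A.indicator 1)) L x ∧
      ∀ v, L v = - ∫ y in A, fderiv ℝ (fun y => ρ (x - y)) y v := by
  have hu := HalfSpace_locInt hA
  have h1 := hc.hasFDerivAt_convolution_right (ContinuousLinearMap.lsmul ℝ ℝ) hu hρ x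
  rw [← HalfSpace_conv_eq] at h1
  refine ⟨_, h1, fun v => ?_⟩
  rw [convolution_precompR_apply _ hu (hc.fderiv ℝ) (hρ.continuous_fderiv one_ne_zero),
    convolution_def, ← integral_neg, ← integral_indicator hA]
  refine integral_congr_ae (Eventually.of_forall fun y => ?_)
  have h2 : fderiv ℝ (fun y => ρ (x - y)) y v = - fderiv ℝ ρ (x - y) v := by
    have h3 : HasFDerivAt (fun y => ρ (x - y))
        ((fderiv ℝ ρ (x - y)).comp (-(ContinuousLinearMap.id ℝ (E n)))) y := by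
      refine HasFDerivAt.comp y (hρ.differentiable one_ne_zero (x - y)).hasFDerivAt ?_
      exact (hasFDerivAt_id y).const_sub x
    rw [h3.fderiv]
    simp
  by_cases hy : y ∈ A
  · simp [hy, h2]
  · simp [hy]

theorem HalfSpace_mono {n : ℕ} {U A : Set (E n)} {e : E n} {ρ : E n → ℝ} {r : ℝ}
    (hρ : ContDiff ℝ 1 ρ) (hn : ∀ x, 0 ≤ ρ x) (hs : tsupport ρ ⊆ Metric.closedBall 0 r)
    (hUc : Convex ℝ U) (hA : MeasurableSet A) (he : ‖e‖ = 1)
    (h1 : ∀ v : E n, ⟪v, e⟫ = 0 → ∀ φ : E n → ℝ, ContDiff ℝ 1 φ → HasCompactSupport φ →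
      tsupport φ ⊆ U → ∫ x in A, fderiv ℝ φ x v = 0)
    (h2 : ∀ φ : E n → ℝ, ContDiff ℝ 1 φ → HasCompactSupport φ → tsupport φ ⊆ U →
      (∀ x, 0 ≤ φ x) → ∫ x in A, fderiv ℝ φ x e ≤ 0)
    {x y : E n} (hx : Metric.closedBall x r ⊆ U) (hy : Metric.closedBall y r ⊆ U)
    (hxy : ⟪x, e⟫ ≤ (⟪y, e⟫ : ℝ)) :
    conv ρ (A.indicator 1) x ≤ conv ρ (A.indicator 1) y := by
  have hc : HasCompactSupport ρ :=
    IsCompact.of_isClosed_subset (isCompact_closedBall 0 r) (isClosed_tsupport _) hs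
  set u := conv ρ (A.indicator 1) with hu
  -- the reflected translate of `ρ` is a test function
  have htest : ∀ z, Metric.closedBall z r ⊆ U → ContDiff ℝ 1 (fun y => ρ (z - y)) ∧
      HasCompactSupport (fun y => ρ (z - y)) ∧ tsupport (fun y => ρ (z - y)) ⊆ U := by
    intro z hz
    have hsupp : tsupport (fun y => ρ (z - y)) ⊆ Metric.closedBall z r := by
      refine closure_minimal ?_ Metric.isClosed_closedBall
      intro w hw
      have h3 : z - w ∈ tsupport ρ := subset_tsupport _ hw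
      have h4 := hs h3
      rw [mem_closedBall_zero_iff] at h4
      rw [Metric.mem_closedBall, dist_comm, dist_eq_norm]
      exact h4
    refine ⟨hρ.comp (contDiff_const.sub contDiff_id), ?_, hsupp.trans hz⟩
    exact IsCompact.of_isClosed_subset (isCompact_closedBall z r) (isClosed_tsupport _) hsupp
  have hder : ∀ z, Metric.closedBall z r ⊆ U → ∀ w, 0 ≤ (⟪w, e⟫ : ℝ) → 0 ≤ fderiv ℝ u z w := by
    intro z hz w hw
    obtain ⟨L, hL, hLv⟩ := HalfSpace_hasFDeriv hρ hc hA z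
    obtain ⟨t1, t2, t3⟩ := htest z hz
    have hee : ⟪e, e⟫ = (1 : ℝ) := by rw [real_inner_self_eq_norm_sq, he]; norm_num
    have hdec : w = (⟪w, e⟫ : ℝ) • e + (w - (⟪w, e⟫ : ℝ) • e) := by abel
    have horth : (⟪w - (⟪w, e⟫ : ℝ) • e, e⟫ : ℝ) = 0 := by
      rw [inner_sub_left, real_inner_smul_left, hee]; ring
    rw [hL.fderiv, hdec, map_add, map_smul, hLv (w - _), h1 _ horth _ t1 t2 t3, hLv e]
    have h5 := h2 _ t1 t2 t3 (fun y => hn _)
    simp only [neg_zero, add_zero, smul_eq_mul]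
    exact mul_nonneg hw (neg_nonneg.2 h5)
  -- monotonicity along the segment
  set γ : ℝ → E n := fun t => x + t • (y - x) with hγ
  have hγin : ∀ t ∈ Icc (0 : ℝ) 1, Metric.closedBall (γ t) r ⊆ U := by
    intro t ht w hw
    have h6 : w = (1 - t) • (x + (w - γ t)) + t • (y + (w - γ t)) := by
      simp only [hγ]
      module
    rw [h6]
    refine hUc (hx ?_) (hy ?_) (by linarith [ht.2]) ht.1 (by ring)
    · rw [Metric.mem_closedBall, dist_eq_norm, add_sub_cancel_left, ← dist_eq_norm]; exact hw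
    · rw [Metric.mem_closedBall, dist_eq_norm, add_sub_cancel_left, ← dist_eq_norm]; exact hw
  have hdiff : ∀ t, HasDerivAt (fun t => u (γ t)) (fderiv ℝ u (γ t) (y - x)) t := by
    intro t
    obtain ⟨L, hL, -⟩ := HalfSpace_hasFDeriv hρ hc hA (γ t)
    have h7 : HasDerivAt γ (y - x) t := by
      have h := ((hasDerivAt_id t).smul_const (y - x)).const_add x
      rw [one_smul] at h
      exact h
    have h8 := hL.comp_hasDerivAt t h7
    rw [hL.fderiv]
    exact h8
  have hmono : MonotoneOn (fun t => u (γ t)) (Icc 0 1) := by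
    refine monotoneOn_of_deriv_nonneg (convex_Icc 0 1)
      (fun t _ => (hdiff t).continuousAt.continuousWithinAt)
      (fun t _ => (hdiff t).differentiableAt.differentiableWithinAt) ?_
    intro t ht
    rw [interior_Icc] at ht
    rw [(hdiff t).deriv]
    refine hder _ (hγin t ⟨ht.1.le, ht.2.le⟩) _ ?_
    rw [inner_sub_left]
    linarith
  have h9 := hmono (left_mem_Icc.2 zero_le_one) (right_mem_Icc.2 zero_le_one) zero_le_one
  simpa [hγ] using h9

theorem HalfSpace_ae {n : ℕ} {U A : Set (E n)} {ρ : ℕ → E n → ℝ} (hk : Kern n ρ)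
    (h1 : Stmt_Conv) (hb : Bornology.IsBounded U) (hA : MeasurableSet A) :
    ∃ ns : ℕ → ℕ, StrictMono ns ∧ ∀ᵐ x ∂(volume.restrict U),
      Tendsto (fun i => conv (ρ (ns i)) (A.indicator 1) x) atTop (𝓝 (A.indicator 1 x)) := by
  have hu := HalfSpace_locInt hA
  obtain ⟨hC1, hlim⟩ := h1 n ρ hk _ hu
  have hK : IsCompact (closure U) := hb.isCompact_closure
  have hlimK := hlim _ hK
  have hint : ∀ k, IntegrableOn (fun x => conv (ρ k) (A.indicator 1) x - A.indicator 1 x)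
      (closure U) volume := by
    intro k
    refine IntegrableOn.sub ?_ (hu.integrableOn_isCompact hK)
    exact (hC1 k).continuous.continuousOn.integrableOn_compact hK
  have hmeas : TendstoInMeasure (volume.restrict (closure U))
      (fun k => conv (ρ k) (A.indicator 1)) atTop (A.indicator 1) := by
    refine tendstoInMeasure_of_tendsto_eLpNorm (p := 1) one_ne_zero ?_ ?_ ?_
    · intro k
      exact (hC1 k).continuous.aestronglyMeasurable
    · exact (measurable_one.indicator hA).aestronglyMeasurable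
    · have h3 : (fun k => eLpNorm (conv (ρ k) (A.indicator 1) - A.indicator (1 : E n → ℝ)) 1
          (volume.restrict (closure U))) = fun k => ENNReal.ofReal
          (∫ x in closure U, |conv (ρ k) (A.indicator 1) x - A.indicator 1 x|) := by
        ext k
        rw [eLpNorm_one_eq_lintegral_enorm]
        have := ofReal_integral_norm_eq_lintegral_enorm (hint k)
        simp only [Real.norm_eq_abs] at this
        rw [this]
        rfl
      rw [h3]
      simpa using ENNReal.tendsto_ofReal hlimK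
  obtain ⟨ns, hns, hae⟩ := hmeas.exists_seq_tendsto_ae
  exact ⟨ns, hns, ae_restrict_of_ae_restrict_of_subset subset_closure hae⟩

set_option linter.unusedVariables false in
theorem halfSpace (hK : Stmt_Kern) (h1 : Stmt_Conv) (h2 : Stmt_ConvTest) (h3 : Stmt_IBP) :
    Stmt_HalfSpace := by
  intro n U A e hn hU hUc hb hA he hv hep
  obtain ⟨ρ, hk⟩ := hK n
  obtain ⟨ns, hns, hae⟩ := HalfSpace_ae (U := U) hk h1 hb hA
  set G : Set (E n) := {x | x ∈ U ∧
    Tendsto (fun i => conv (ρ (ns i)) (A.indicator 1) x) atTop (𝓝 (A.indicator 1 x))} with hG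
  have hGnull : volume (U \ G) = 0 := by
    rw [ae_restrict_iff' hU.measurableSet] at hae
    refine measure_mono_null ?_ (ae_iff.1 hae)
    intro x hx
    simp only [mem_ofPred_eq, Classical.not_imp]
    exact ⟨hx.1, fun h => hx.2 ⟨hx.1, h⟩⟩
  have hball : ∀ x ∈ U, ∀ᶠ k : ℕ in atTop, Metric.closedBall x (1 / ((ns k : ℝ) + 1)) ⊆ U := by
    intro x hx
    obtain ⟨r, hr, hsub⟩ := Metric.nhds_basis_closedBall.mem_iff.1 (hU.mem_nhds hx)
    have h4 : Tendsto (fun k : ℕ => 1 / ((ns k : ℝ) + 1)) atTop (𝓝 0) :=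
      tendsto_one_div_add_atTop_nhds_zero_nat.comp hns.tendsto_atTop
    filter_upwards [h4.eventually (gt_mem_nhds hr)] with k hk
    exact (Metric.closedBall_subset_closedBall hk.le).trans hsub
  have hmono : ∀ x ∈ G, ∀ y ∈ G, (⟪x, e⟫ : ℝ) ≤ ⟪y, e⟫ →
      A.indicator (1 : E n → ℝ) x ≤ A.indicator 1 y := by
    intro x hx y hy hxy
    refine le_of_tendsto_of_tendsto hx.2 hy.2 ?_
    filter_upwards [hball x hx.1, hball y hy.1] with k hkx hky
    exact HalfSpace_mono (hk.smooth _) (hk.nonneg _) (hk.supp _) hUc hA he hv hep hkx hky hxy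
  by_cases hA1 : (G ∩ A).Nonempty
  swap
  · left
    refine measure_mono_null ?_ hGnull
    intro x hx
    exact ⟨hx.2, fun h => hA1 ⟨x, h, hx.1⟩⟩
  by_cases hA2 : (G \ A).Nonempty
  swap
  · right; left
    refine measure_mono_null ?_ hGnull
    intro x hx
    exact ⟨hx.1, fun h => hA2 ⟨x, h, hx.2⟩⟩
  right; right
  have hlt : ∀ x ∈ G \ A, ∀ y ∈ G ∩ A, (⟪x, e⟫ : ℝ) < ⟪y, e⟫ := by
    intro x hx y hy
    by_contra hcon
    have h5 := hmono y hy.1 x hx.1 (not_lt.1 hcon)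
    simp only [indicator_of_mem hy.2, indicator_of_notMem hx.2, Pi.one_apply] at h5
    linarith
  set S : Set ℝ := (fun y : E n => (⟪y, e⟫ : ℝ)) '' (G ∩ A) with hS
  have hSne : S.Nonempty := hA1.image _
  obtain ⟨x0, hx0⟩ := hA2
  have hSb : BddBelow S := by
    refine ⟨⟪x0, e⟫, ?_⟩
    rintro _ ⟨y, hy, rfl⟩
    exact (hlt x0 hx0 y hy).le
  refine ⟨sInf S, ?_⟩
  have hsub : symmDiff A {x | sInf S < ⟪x, e⟫} ∩ U ⊆ (U \ G) ∪ {x | ⟪x, e⟫ = sInf S} := by
    rintro x ⟨hx, hxU⟩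
    by_cases hxG : x ∈ G
    swap
    · left; exact ⟨hxU, hxG⟩
    right
    rcases hx with ⟨hxA, hxn⟩ | ⟨hxl, hxn⟩
    · exact le_antisymm (not_lt.1 hxn) (csInf_le hSb ⟨x, ⟨hxG, hxA⟩, rfl⟩)
    · exfalso
      obtain ⟨_, ⟨y, hy, rfl⟩, hlt2⟩ := (csInf_lt_iff hSb hSne).1 hxl
      exact absurd (hlt x ⟨hxG, hxn⟩ y hy) (not_lt.2 hlt2.le)
  refine measure_mono_null hsub ?_
  rw [measure_union_null_iff]
  exact ⟨hGnull, HalfSpace_plane_null he _⟩

end Pool.Agent.Lib.MP_c95dcf_gt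
end

section

/-!
# MP_c95dcf_gt, G24: covering argument for the Hausdorff measure
-/

set_option autoImplicit false

open MeasureTheory Set Filter Topology
open scoped ENNReal NNReal RealInnerProductSpace

namespace Pool.Agent.Lib.MP_c95dcf_gt

/-- a disjoint family of small balls with large mass, whose enlargements cover `N` -/
def HausCov {n : ℕ} (μ : Measure (E n)) (d : ℕ) (a : ℝ≥0∞) (W : Set (E n)) (τ δ : ℝ)
    (N : Set (E n)) (u : Set (E n)) (r : E n → ℝ) : Prop :=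
  u.Countable ∧ (u.PairwiseDisjoint fun x => Metric.closedBall x (r x)) ∧
    (∀ x ∈ u, Metric.closedBall x (r x) ⊆ W) ∧ (∀ x ∈ u, 0 < r x) ∧
    (∀ x ∈ u, a * ENNReal.ofReal (r x ^ d) ≤ μ (Metric.ball x (r x))) ∧
    (∀ x ∈ u, τ * r x ≤ δ) ∧ N ⊆ ⋃ x ∈ u, Metric.closedBall x (τ * r x)

theorem haus_ediam {n : ℕ} (x : E n) {r : ℝ} (hr : 0 ≤ r) :
    Metric.ediam (Metric.closedBall x r) ≤ 2 * ENNReal.ofReal r := by
  rw [← Metric.closedEBall_ofReal hr]
  exact Metric.ediam_closedEBall_le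

theorem haus_sum {n : ℕ} {μ : Measure (E n)} {d : ℕ} {a : ℝ≥0∞} (ha0 : a ≠ 0) (ha : a ≠ ∞)
    {W N u : Set (E n)} {τ δ : ℝ} {r : E n → ℝ} (hτ : 0 ≤ τ) (h : HausCov μ d a W τ δ N u r) :
    ∑' x : u, Metric.ediam (Metric.closedBall (x : E n) (τ * r x)) ^ (d : ℝ) ≤
      ENNReal.ofReal ((2 * τ) ^ d) / a * μ W := by
  obtain ⟨hu, hd, hW, hr, hm, -, -⟩ := h
  calc ∑' x : u, Metric.ediam (Metric.closedBall (x : E n) (τ * r x)) ^ (d : ℝ)
      ≤ ∑' x : u, ENNReal.ofReal ((2 * τ) ^ d) / a * μ (Metric.closedBall (x : E n) (r x)) := by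
        refine ENNReal.tsum_le_tsum fun x => ?_
        have hrx := hr x x.2
        calc Metric.ediam (Metric.closedBall (x : E n) (τ * r x)) ^ (d : ℝ)
            ≤ (2 * ENNReal.ofReal (τ * r x)) ^ (d : ℝ) :=
              ENNReal.rpow_le_rpow (haus_ediam _ (by positivity)) (by positivity)
          _ = ENNReal.ofReal ((2 * τ) ^ d) * ENNReal.ofReal (r x ^ d) := by
              rw [ENNReal.rpow_natCast, ← ENNReal.ofReal_mul (by positivity), ← mul_pow,
                ENNReal.ofReal_pow (by positivity)]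
              congr 1
              rw [mul_assoc, ENNReal.ofReal_mul (p := 2) (by norm_num)]
              norm_num
          _ = ENNReal.ofReal ((2 * τ) ^ d) / a * (a * ENNReal.ofReal (r x ^ d)) := by
              rw [← mul_assoc, ENNReal.div_mul_cancel ha0 ha]
          _ ≤ ENNReal.ofReal ((2 * τ) ^ d) / a * μ (Metric.closedBall (x : E n) (r x)) :=
              mul_le_mul_right ((hm x x.2).trans (measure_mono Metric.ball_subset_closedBall)) _
    _ = ENNReal.ofReal ((2 * τ) ^ d) / a * ∑' x : u, μ (Metric.closedBall (x : E n) (r x)) :=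
        ENNReal.tsum_mul_left
    _ ≤ ENNReal.ofReal ((2 * τ) ^ d) / a * μ (⋃ x : u, Metric.closedBall (x : E n) (r x)) := by
        refine mul_le_mul_right (tsum_meas_le_meas_iUnion_of_disjoint μ
          (fun x => Metric.isClosed_closedBall.measurableSet) ?_) _
        exact (hd.subtype _ _)
    _ ≤ ENNReal.ofReal ((2 * τ) ^ d) / a * μ W :=
        mul_le_mul_right (measure_mono (iUnion_subset fun x : u => hW x x.2)) _

theorem haus_le {n : ℕ} {μ : Measure (E n)} {d : ℕ} {a : ℝ≥0∞} (ha0 : a ≠ 0) (ha : a ≠ ∞)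
    {W N : Set (E n)} {τ : ℝ} (hτ : 0 ≤ τ)
    (h : ∀ m : ℕ, ∃ (u : Set (E n)) (r : E n → ℝ), HausCov μ d a W τ (1 / ((m : ℝ) + 1)) N u r) :
    (Measure.hausdorffMeasure (d : ℝ) : Measure (E n)) N ≤
      ENNReal.ofReal ((2 * τ) ^ d) / a * μ W := by
  choose u r hur using h
  have hcount : ∀ m, Countable (u m) := fun m => (hur m).1.to_subtype
  have h1 := Measure.hausdorffMeasure_le_liminf_tsum (X := E n) (β := ℕ) (ι := fun m => u m)
    (d : ℝ) N (l := atTop) (fun m => 2 * ENNReal.ofReal (1 / ((m : ℝ) + 1))) ?_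
    (fun m x => Metric.closedBall (x : E n) (τ * r m x)) ?_ ?_
  · refine h1.trans ?_
    calc liminf (fun m => ∑' x : u m, Metric.ediam (Metric.closedBall (x : E n) (τ * r m x)) ^
          (d : ℝ)) atTop
        ≤ liminf (fun _ : ℕ => ENNReal.ofReal ((2 * τ) ^ d) / a * μ W) atTop :=
          liminf_le_liminf (Eventually.of_forall fun m => haus_sum ha0 ha hτ (hur m))
      _ = ENNReal.ofReal ((2 * τ) ^ d) / a * μ W := liminf_const _
  · have h2 : Tendsto (fun m : ℕ => ENNReal.ofReal (1 / ((m : ℝ) + 1))) atTop (𝓝 0) := by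
      rw [← ENNReal.ofReal_zero]
      exact ENNReal.tendsto_ofReal tendsto_one_div_add_atTop_nhds_zero_nat
    have h3 := ENNReal.Tendsto.const_mul (a := 2) h2 (Or.inr (by norm_num))
    simpa using h3
  · refine Eventually.of_forall fun m x => ?_
    obtain ⟨-, -, -, hr, -, hδ, -⟩ := hur m
    exact (haus_ediam _ (mul_nonneg hτ (hr x x.2).le)).trans
      (mul_le_mul_right (ENNReal.ofReal_le_ofReal (hδ x x.2)) _)
  · refine Eventually.of_forall fun m => ?_
    obtain ⟨-, -, -, -, -, -, hN⟩ := hur m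
    rw [biUnion_eq_iUnion] at hN
    exact hN

theorem haus_null {n : ℕ} (μ : Measure (E n)) [IsFiniteMeasure μ] {d : ℕ} {a : ℝ≥0∞}
    (ha0 : a ≠ 0) (ha : a ≠ ∞) {N : Set (E n)} {r₀ : ℝ} (hr₀ : 0 < r₀)
    (hN : ∀ x ∈ N, ∀ r : ℝ, 0 < r → r < r₀ → a * ENNReal.ofReal (r ^ d) ≤ μ (Metric.ball x r))
    (h0 : μ N = 0) : (Measure.hausdorffMeasure (d : ℝ) : Measure (E n)) N = 0 := by
  by_contra hne
  have hC : ENNReal.ofReal ((2 * 5) ^ d) / a ≠ ∞ :=
    ENNReal.div_ne_top ENNReal.ofReal_ne_top ha0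
  obtain ⟨ε, hε, hlt⟩ := ENNReal.exists_nnreal_pos_mul_lt hC hne
  obtain ⟨W, hNW, hWo, hWμ⟩ := N.exists_isOpen_le_add μ
    (ε := (ε : ℝ≥0∞)) (by simpa using hε.ne')
  rw [h0, zero_add] at hWμ
  have hle := haus_le (μ := μ) (d := d) (a := a) (W := W) (N := N) (τ := 5) ha0 ha
    (by norm_num) ?_
  · refine absurd hlt (not_lt.2 (hle.trans ?_))
    rw [mul_comm]
    exact mul_le_mul_left hWμ _
  · intro m
    have hex : ∀ x ∈ N, ∃ r : ℝ, 0 < r ∧ r < r₀ ∧ 5 * r ≤ 1 / ((m : ℝ) + 1) ∧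
        Metric.closedBall x r ⊆ W := by
      intro x hx
      obtain ⟨ε', hε', hball⟩ := Metric.isOpen_iff.1 hWo x (hNW hx)
      have hm : (0 : ℝ) < 1 / ((m : ℝ) + 1) := by positivity
      refine ⟨min (ε' / 2) (min (r₀ / 2) (1 / ((m : ℝ) + 1) / 5)), by positivity, ?_, ?_, ?_⟩
      · exact lt_of_le_of_lt ((min_le_right _ _).trans (min_le_left _ _)) (by linarith)
      · have := (min_le_right (ε' / 2) (min (r₀ / 2) (1 / ((m : ℝ) + 1) / 5))).trans
          (min_le_right _ _)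
        linarith
      · exact (Metric.closedBall_subset_ball (lt_of_le_of_lt (min_le_left _ _)
          (by linarith))).trans hball
    choose! r hr1 hr2 hr3 hr4 using hex
    obtain ⟨u, huN, hud, hcov⟩ := Vitali.exists_disjoint_subfamily_covering_enlargement_closedBall
      N (fun x => x) r r₀ (fun x hx => (hr2 x hx).le) 5 (by norm_num)
    refine ⟨u, r, ?_, hud, fun x hx => hr4 x (huN hx), fun x hx => hr1 x (huN hx),
      fun x hx => hN x (huN hx) _ (hr1 x (huN hx)) (hr2 x (huN hx)),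
      fun x hx => hr3 x (huN hx), ?_⟩
    · refine hud.countable_of_nonempty_interior fun x hx => ?_
      exact ⟨x, Metric.ball_subset_interior_closedBall (Metric.mem_ball_self (hr1 x (huN hx)))⟩
    · intro x hx
      obtain ⟨y, hy, hxy⟩ := hcov x hx
      exact mem_biUnion hy (hxy (Metric.mem_closedBall_self (hr1 x hx).le))

theorem haus_unif {n : ℕ} (μ : Measure (E n)) [IsFiniteMeasure μ] {d : ℕ} {a : ℝ≥0∞}
    (ha0 : a ≠ 0) (ha : a ≠ ∞) {S W : Set (E n)} {r₀ : ℝ} (hr₀ : 0 < r₀)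
    (hS : ∀ x ∈ S, ∀ r : ℝ, 0 < r → r < r₀ → a * ENNReal.ofReal (r ^ d) ≤ μ (Metric.ball x r))
    (hW : IsOpen W) (hSW : S ⊆ W) :
    (Measure.hausdorffMeasure (d : ℝ) : Measure (E n)) S ≤
      ENNReal.ofReal (2 ^ d) / a * μ W := by
  have hex : ∀ m : ℕ, ∃ (u : Set (E n)) (r : E n → ℝ), u.Countable ∧ u ⊆ S ∧
      (∀ x ∈ u, 0 < r x ∧ r x < r₀ ∧ r x < 1 / ((m : ℝ) + 1) ∧
        Metric.closedBall x (r x) ⊆ W) ∧
      μ (S \ ⋃ x ∈ u, Metric.closedBall x (r x)) = 0 ∧
      u.PairwiseDisjoint fun x => Metric.closedBall x (r x) := by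
    intro m
    have hf : ∀ x ∈ S, ∀ δ > 0, ((fun x => {r : ℝ | r < r₀ ∧ r < 1 / ((m : ℝ) + 1) ∧
        Metric.closedBall x r ⊆ W}) x ∩ Ioo 0 δ).Nonempty := by
      intro x hx δ hδ
      obtain ⟨ε', hε', hball⟩ := Metric.isOpen_iff.1 hW x (hSW hx)
      have hm : (0 : ℝ) < 1 / ((m : ℝ) + 1) := by positivity
      have key : ∀ t : ℝ, 0 < t → t / 2 < t := fun t ht => by linarith
      refine ⟨min (min (δ / 2) (ε' / 2)) (min (r₀ / 2) (1 / ((m : ℝ) + 1) / 2)),
        ⟨?_, ?_, ?_⟩, by positivity, ?_⟩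
      · exact lt_of_le_of_lt ((min_le_right _ _).trans (min_le_left _ _)) (key _ hr₀)
      · exact lt_of_le_of_lt ((min_le_right _ _).trans (min_le_right _ _)) (key _ hm)
      · exact (Metric.closedBall_subset_ball (lt_of_le_of_lt
          ((min_le_left _ _).trans (min_le_right _ _)) (key _ hε'))).trans hball
      · exact lt_of_le_of_lt ((min_le_left _ _).trans (min_le_left _ _)) (key _ hδ)
    obtain ⟨u, r, hu, huS, hur, hμ, hdisj⟩ := Besicovitch.exists_disjoint_closedBall_covering_ae μ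
      (fun x => {r : ℝ | r < r₀ ∧ r < 1 / ((m : ℝ) + 1) ∧ Metric.closedBall x r ⊆ W}) S hf
      (fun _ => 1) (fun _ _ => one_pos)
    exact ⟨u, r, hu, huS, fun x hx => ⟨(hur x hx).2.1, (hur x hx).1.1, (hur x hx).1.2.1,
      (hur x hx).1.2.2⟩, hμ, hdisj⟩
  choose u r hu huS hur hμ hdisj using hex
  set N : Set (E n) := ⋃ m : ℕ, S \ ⋃ x ∈ u m, Metric.closedBall x (r m x) with hNdef
  have hN0 : (Measure.hausdorffMeasure (d : ℝ) : Measure (E n)) N = 0 := by
    rw [hNdef, measure_iUnion_null_iff]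
    intro m
    exact haus_null μ ha0 ha hr₀ (fun x hx => hS x hx.1) (hμ m)
  have hle : (Measure.hausdorffMeasure (d : ℝ) : Measure (E n)) (S \ N) ≤
      ENNReal.ofReal ((2 * 1) ^ d) / a * μ W := by
    refine haus_le ha0 ha (by norm_num) fun m => ⟨u m, r m, hu m, hdisj m,
      fun x hx => (hur m x hx).2.2.2, fun x hx => (hur m x hx).1,
      fun x hx => hS x (huS m hx) _ (hur m x hx).1 (hur m x hx).2.1,
      fun x hx => by rw [one_mul]; exact (hur m x hx).2.2.1.le, ?_⟩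
    intro x hx
    simp only [one_mul]
    by_contra hcon
    exact hx.2 (mem_iUnion.2 ⟨m, hx.1, hcon⟩)
  rw [mul_one] at hle
  calc (Measure.hausdorffMeasure (d : ℝ) : Measure (E n)) S
      ≤ (Measure.hausdorffMeasure (d : ℝ) : Measure (E n)) ((S \ N) ∪ N) :=
        measure_mono (fun x hx => by
          by_cases hxN : x ∈ N
          · exact Or.inr hxN
          · exact Or.inl ⟨hx, hxN⟩)
    _ ≤ _ := measure_union_le _ _
    _ ≤ _ := by rw [hN0, add_zero]; exact hle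

theorem haus_main {n : ℕ} (μ : Measure (E n)) [IsFiniteMeasure μ] {d : ℕ} {S : Set (E n)}
    {c : ℝ} (hc : 0 < c)
    (h1 : ∀ x ∈ S, ∃ r₀ : ℝ, 0 < r₀ ∧ ∀ r : ℝ, 0 < r → r < r₀ →
      ENNReal.ofReal (c * r ^ d) ≤ μ (Metric.ball x r))
    {η : ℝ≥0∞} (hη0 : η ≠ 0) (hη : η ≠ ∞) {T : Set (E n)} (hTS : T ⊆ S)
    (hT : ∀ x ∈ T, ∀ᶠ r in 𝓝[>] (0 : ℝ), η * ENNReal.ofReal (r ^ d) ≤ μ (Metric.ball x r))
    (hST : μ (S \ T) = 0) :
    (Measure.hausdorffMeasure (d : ℝ) : Measure (E n)) S ≤ ENNReal.ofReal (2 ^ d) / η * μ S := by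
  -- the good part
  have hgood : (Measure.hausdorffMeasure (d : ℝ) : Measure (E n)) T ≤
      ENNReal.ofReal (2 ^ d) / η * μ S := by
    set T' : ℕ → Set (E n) := fun k => {x ∈ T | ∀ r : ℝ, 0 < r → r < 1 / ((k : ℝ) + 1) →
      η * ENNReal.ofReal (r ^ d) ≤ μ (Metric.ball x r)} with hT'
    have hmono : Monotone T' := by
      intro k l hkl x hx
      refine ⟨hx.1, fun r hr0 hr => hx.2 r hr0 (hr.trans_le ?_)⟩
      exact one_div_le_one_div_of_le (by positivity) (by
        have : (k : ℝ) ≤ l := by exact_mod_cast hkl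
        linarith)
    have hun : T ⊆ ⋃ k, T' k := by
      intro x hx
      obtain ⟨ε', hε', hsub⟩ := mem_nhdsGT_iff_exists_Ioo_subset.1 (hT x hx)
      obtain ⟨k, hk⟩ := exists_nat_one_div_lt (mem_Ioi.1 hε')
      exact mem_iUnion.2 ⟨k, hx, fun r hr0 hr => hsub ⟨hr0, hr.trans hk⟩⟩
    refine (measure_mono hun).trans ?_
    rw [hmono.measure_iUnion]
    refine iSup_le fun k => ?_
    have hC : ENNReal.ofReal (2 ^ d) / η ≠ ∞ := ENNReal.div_ne_top ENNReal.ofReal_ne_top hη0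
    refine ENNReal.le_of_forall_pos_le_add fun ε hε _ => ?_
    obtain ⟨ε', hε', hlt⟩ := ENNReal.exists_nnreal_pos_mul_lt hC
      (show ((ε : ℝ≥0∞)) ≠ 0 by simpa using hε.ne')
    obtain ⟨W, hSW, hWo, hWμ⟩ := S.exists_isOpen_le_add μ
      (ε := (ε' : ℝ≥0∞)) (by simpa using hε'.ne')
    have h2 := haus_unif μ hη0 hη (S := T' k) (W := W) (r₀ := 1 / ((k : ℝ) + 1)) (by positivity)
      (fun x hx => hx.2) hWo (fun x hx => hSW (hTS hx.1))
    calc (Measure.hausdorffMeasure (d : ℝ) : Measure (E n)) (T' k)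
        ≤ ENNReal.ofReal (2 ^ d) / η * μ W := h2
      _ ≤ ENNReal.ofReal (2 ^ d) / η * (μ S + ε') := mul_le_mul_right hWμ _
      _ = ENNReal.ofReal (2 ^ d) / η * μ S + ε' * (ENNReal.ofReal (2 ^ d) / η) := by
          rw [mul_add, mul_comm (ε' : ℝ≥0∞)]
      _ ≤ ENNReal.ofReal (2 ^ d) / η * μ S + ε := add_le_add le_rfl hlt.le
  -- the null part
  have hbad : (Measure.hausdorffMeasure (d : ℝ) : Measure (E n)) (S \ T) = 0 := by
    have hsub : S \ T ⊆ ⋃ k : ℕ, {x ∈ S \ T | ∀ r : ℝ, 0 < r → r < 1 / ((k : ℝ) + 1) →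
        ENNReal.ofReal c * ENNReal.ofReal (r ^ d) ≤ μ (Metric.ball x r)} := by
      intro x hx
      obtain ⟨r₀, hr₀, hr⟩ := h1 x hx.1
      obtain ⟨k, hk⟩ := exists_nat_one_div_lt hr₀
      refine mem_iUnion.2 ⟨k, hx, fun r hr0 hrk => ?_⟩
      rw [← ENNReal.ofReal_mul hc.le]
      exact hr r hr0 (hrk.trans hk)
    refine measure_mono_null hsub ?_
    rw [measure_iUnion_null_iff]
    intro k
    refine haus_null μ (a := ENNReal.ofReal c) (r₀ := 1 / ((k : ℝ) + 1)) ?_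
      ENNReal.ofReal_ne_top (by positivity) (fun x hx => hx.2) ?_
    · simpa using hc
    · exact measure_mono_null (fun x hx => hx.1) hST
  calc (Measure.hausdorffMeasure (d : ℝ) : Measure (E n)) S
      ≤ (Measure.hausdorffMeasure (d : ℝ) : Measure (E n)) (T ∪ (S \ T)) :=
        measure_mono (fun x hx => by
          by_cases hxT : x ∈ T
          · exact Or.inl hxT
          · exact Or.inr ⟨hx, hxT⟩)
    _ ≤ _ := measure_union_le _ _
    _ ≤ _ := by rw [hbad, add_zero]; exact hgood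

theorem haus : Stmt_Haus := by
  intro n μ S c hn hfin hS hc h1 h2
  obtain ⟨d, rfl⟩ : ∃ d, n = d + 1 := ⟨n - 1, by omega⟩
  have hexp : (((d + 1 : ℕ) : ℝ) - 1) = (d : ℝ) := by push_cast; ring
  rw [hexp]
  simp only [Nat.add_sub_cancel] at h1 h2 ⊢
  rw [ae_restrict_iff' hS] at h2
  unfold c0
  rw [div_eq_mul_inv, mul_assoc]
  refine ENNReal.mul_le_of_forall_lt fun η hη b hb => ?_
  rcases eq_or_ne η 0 with rfl | hη0
  · simp
  have hηtop : η ≠ ∞ := hη.ne_top
  set T : Set (E (d + 1)) := {x ∈ S | ∀ᶠ r in 𝓝[>] (0 : ℝ),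
    η * ENNReal.ofReal (r ^ d) ≤ μ (Metric.ball x r)} with hT
  have hST : μ (S \ T) = 0 := by
    refine measure_mono_null ?_ (ae_iff.1 h2)
    intro x hx hcon
    exact hx.2 ⟨hx.1, hcon hx.1 η hη⟩
  have hmain := haus_main μ hc h1 hη0 hηtop (T := T) (fun x hx => hx.1) (fun x hx => hx.2) hST
  have h2d : ENNReal.ofReal (2 ^ d) = 2 ^ d := by
    rw [ENNReal.ofReal_pow (by norm_num)]
    norm_num
  calc η * b ≤ η * ((2 ^ d)⁻¹ * (Measure.hausdorffMeasure (d : ℝ) : Measure (E (d + 1))) S) :=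
        mul_le_mul_right hb.le _
    _ ≤ η * ((2 ^ d)⁻¹ * (ENNReal.ofReal (2 ^ d) / η * μ S)) :=
        mul_le_mul_right (mul_le_mul_right hmain _) _
    _ = (η * η⁻¹) * ((2 ^ d)⁻¹ * 2 ^ d) * μ S := by
        rw [h2d, div_eq_mul_inv]
        ring
    _ = μ S := by
        rw [ENNReal.mul_inv_cancel hη0 hηtop, ENNReal.inv_mul_cancel (by positivity)
          (ENNReal.pow_ne_top (by norm_num)), one_mul, one_mul]

end Pool.Agent.Lib.MP_c95dcf_gt
end
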