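import Pool.Agent.Lib.MP_c95dcf_gt.Mg.G001
import Pool.Agent.Lib.MP_c95dcf_gt.GStmts

section

/-!
# MP_c95dcf_gt, B14: the mass near the centre is small
-/

set_option autoImplicit false

open MeasureTheory Set Filter Topology
open scoped ENNReal NNReal

namespace Pool.Agent.Lib.MP_c95dcf_gt

theorem inner_wp_nonneg (m : ℕ) (r : ℝ) : 0 ≤ wp m r := le_max_left _ _

theorem inner_wp_anti (m : ℕ) {r s : ℝ} (h : r ≤ s) : wp m s ≤ wp m r := by
  unfold wp
  refine max_le_max le_rfl ?_
  have : r / m ≤ s / m := div_le_div_of_nonneg_right h (Nat.cast_nonneg m)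
  linarith

theorem inner_Wp_anti (m : ℕ) {r s : ℝ} (h : r ≤ s) : Wp m s ≤ Wp m r :=
  pow_le_pow_left₀ (inner_wp_nonneg m s) (inner_wp_anti m h) m

theorem inner_Wp_nonneg (m : ℕ) (r : ℝ) : 0 ≤ Wp m r := pow_nonneg (inner_wp_nonneg m r) m

theorem inner_Wp_le_one (m : ℕ) {r : ℝ} (h : 0 ≤ r) : Wp m r ≤ 1 := by
  refine pow_le_one₀ (inner_wp_nonneg m r) ?_
  unfold wp
  refine max_le zero_le_one ?_
  have : 0 ≤ r / m := div_nonneg h (Nat.cast_nonneg m)
  linarith

theorem inner_Wp_cont (m : ℕ) : Continuous (fun c : ℂ => Wp m ‖c‖) := by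
  unfold Wp wp
  fun_prop

theorem inner_Wp_intOn (m : ℕ) (S : Set ℂ) (R : ℝ) :
    IntegrableOn (fun c : ℂ => Wp m ‖c‖) (S ∩ Metric.ball (0 : ℂ) R) := by
  have h : IntegrableOn (fun c : ℂ => Wp m ‖c‖) (Metric.closedBall (0 : ℂ) R) :=
    (inner_Wp_cont m).continuousOn.integrableOn_compact (isCompact_closedBall _ _)
  exact h.mono_set (inter_subset_right.trans Metric.ball_subset_closedBall)

theorem inner_mass (h1 : Stmt_IsoDisc) (_h2 : Stmt_Prof) : Stmt_Inner := by
  obtain ⟨c, hc, hiso⟩ := h1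
  refine ⟨1 / c, by positivity, ?_⟩
  intro m A R hm hA hR hRm hP hV
  set r : ℝ := R / 8 with hr
  have hr0 : 0 < r := by positivity
  have hm0 : (0 : ℝ) < m := by
    have : 0 < m := by omega
    exact_mod_cast this
  have hrm : r < m := by
    rw [hr]
    linarith
  set w : ℝ := Wp m r with hw
  have hw0 : 0 < w := by
    rw [hw]
    refine pow_pos ?_ m
    refine lt_max_of_lt_right ?_
    have : r / m < 1 := (div_lt_one hm0).2 hrm
    linarith
  have hV0 : 0 ≤ V0 m A := by
    unfold V0
    exact integral_nonneg fun c => inner_Wp_nonneg m _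
  set B : Set ℂ := Metric.ball (0 : ℂ) r with hB
  have hBm : B ⊆ Metric.ball (0 : ℂ) m := Metric.ball_subset_ball hrm.le
  have hAB : MeasurableSet (A ∩ B) := hA.inter measurableSet_ball
  have hfinB : volume B ≠ ∞ := measure_ball_lt_top.ne
  have hfin : volume (A ∩ B) ≠ ∞ := measure_ne_top_of_subset inter_subset_right hfinB
  -- the volume of `A ∩ B`
  have hvol : w * (volume (A ∩ B)).toReal ≤ V0 m A := by
    have e1 : w * (volume (A ∩ B)).toReal = ∫ _x in A ∩ B, w := by
      rw [setIntegral_const, Measure.real, smul_eq_mul, mul_comm]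
    rw [e1]
    calc ∫ _x in A ∩ B, w ≤ ∫ x in A ∩ B, Wp m ‖x‖ := by
          refine setIntegral_mono_on ?_ ?_ hAB ?_
          · exact integrableOn_const hfin
          · exact inner_Wp_intOn m A r
          · intro x hx
            refine inner_Wp_anti m ?_
            have := hx.2
            rw [hB, mem_ball_zero_iff] at this
            exact this.le
      _ ≤ ∫ x in A ∩ Metric.ball (0 : ℂ) m, Wp m ‖x‖ := by
          refine setIntegral_mono_set (inner_Wp_intOn m A m) ?_ ?_
          · exact Eventually.of_forall fun x => inner_Wp_nonneg m _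
          · exact (inter_subset_inter_right A hBm).eventuallyLE
      _ = V0 m A := rfl
  have hBvol : (volume B).toReal = Real.pi * r ^ 2 := by
    rw [hB, Complex.volume_ball]
    rw [ENNReal.toReal_mul, ENNReal.toReal_pow, ENNReal.toReal_ofReal hr0.le]
    simp [mul_comm]
  have hhalf : (volume (A ∩ B)).toReal ≤ (volume B).toReal / 2 := by
    rw [hBvol]
    have h3 : w * (volume (A ∩ B)).toReal ≤ w * (Real.pi * r ^ 2 / 2) := by
      refine hvol.trans (hV.trans (le_of_eq ?_))
      ring
    exact le_of_mul_le_mul_left h3 hw0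
  have hsplit : (volume B).toReal = (volume (A ∩ B)).toReal + (volume (B \ A)).toReal := by
    have h4 : volume B = volume (A ∩ B) + volume (B \ A) := by
      rw [inter_comm]
      exact (measure_inter_add_diff B hA).symm
    rw [h4, ENNReal.toReal_add hfin (measure_ne_top_of_subset diff_subset hfinB)]
  have hcomp : volume (A ∩ B) ≤ volume (B \ A) := by
    rw [← ENNReal.toReal_le_toReal hfin (measure_ne_top_of_subset diff_subset hfinB)]
    linarith
  -- test fields
  have htest : ∀ Y : ℂ → ℂ, TFc (B \ {0}) Y → (∀ x, ‖Y x‖ ≤ 1) →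
      ∫ x in A, dvc Y x ≤ V0 m A / w := by
    intro Y hY hY1
    have hdv : ∀ x, dvc (fun x => (w : ℂ) * Y x) x = w * dvc Y x := by
      intro x
      have h5 : HasFDerivAt (fun x => (w : ℂ) * Y x) ((w : ℂ) • fderiv ℝ Y x) x := by
        have h6 := ((hY.diff.differentiable (by norm_num)) x).hasFDerivAt.const_mul (w : ℂ)
        exact h6
      unfold dvc
      rw [h5.fderiv]
      simp
      ring
    have hTF : TFc (Dp m) (fun x => (w : ℂ) * Y x) := by
      have hs : tsupport (fun x => (w : ℂ) * Y x) ⊆ tsupport Y := by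
        refine closure_minimal ?_ (isClosed_tsupport _)
        intro x hx
        refine subset_tsupport _ ?_
        intro h0
        exact hx (by simp [h0])
      refine ⟨?_, ?_, ?_⟩
      · exact contDiff_const.mul hY.diff
      · exact hY.comp.isCompact.of_isClosed_subset (isClosed_tsupport _) hs
      · refine hs.trans (hY.supp.trans ?_)
        exact diff_subset_diff_left hBm
    have hle : ∀ x, ‖(w : ℂ) * Y x‖ ≤ Wp m ‖x‖ := by
      intro x
      by_cases hx : x ∈ B
      · rw [hB, mem_ball_zero_iff] at hx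
        rw [norm_mul, Complex.norm_real, Real.norm_eq_abs, abs_of_pos hw0]
        calc w * ‖Y x‖ ≤ w * 1 := mul_le_mul_of_nonneg_left (hY1 x) hw0.le
          _ = w := mul_one w
          _ ≤ Wp m ‖x‖ := inner_Wp_anti m hx.le
      · have h0 : Y x = 0 := by
          by_contra h0
          exact hx (hY.supp (subset_tsupport Y h0)).1
        rw [h0, mul_zero, norm_zero]
        exact inner_Wp_nonneg m _
    have h7 : ENNReal.ofReal (∫ x in A, dvc (fun x => (w : ℂ) * Y x) x) ≤ P0 m A := by
      unfold P0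
      exact le_iSup₂ (f := fun (Y : ℂ → ℂ)
        (_ : TFc (Dp m) Y ∧ ∀ c, ‖Y c‖ ≤ Wp m ‖c‖) =>
          ENNReal.ofReal (∫ c in A, dvc Y c)) (fun x => (w : ℂ) * Y x) ⟨hTF, hle⟩
    have h8 := (ENNReal.ofReal_le_ofReal_iff hV0).1 (h7.trans hP)
    have h9 : ∫ x in A, dvc (fun x => (w : ℂ) * Y x) x = w * ∫ x in A, dvc Y x := by
      rw [← integral_const_mul]
      exact integral_congr_ae (Eventually.of_forall hdv)
    rw [h9] at h8
    rw [le_div_iff₀ hw0]
    linarith
  have hmain := hiso r (V0 m A / w) A hr0 (by positivity) hA hcomp htest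
  -- conclusion
  have hVB : V0 m (A ∩ B) ≤ (volume (A ∩ B)).toReal := by
    unfold V0
    have e1 : (A ∩ B) ∩ Metric.ball (0 : ℂ) m = A ∩ B :=
      inter_eq_left.2 (inter_subset_right.trans hBm)
    rw [e1]
    calc ∫ x in A ∩ B, Wp m ‖x‖ ≤ ∫ _x in A ∩ B, (1 : ℝ) := by
          refine setIntegral_mono_on (inner_Wp_intOn m A r) (integrableOn_const hfin) hAB ?_
          intro x _
          exact inner_Wp_le_one m (norm_nonneg x)
      _ = (volume (A ∩ B)).toReal := by
          rw [setIntegral_const, Measure.real, smul_eq_mul, mul_one]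
  have h10 : c * (volume (A ∩ B)).toReal * w ^ 2 ≤ V0 m A ^ 2 := by
    have h11 : (V0 m A / w) ^ 2 * w ^ 2 = V0 m A ^ 2 := by
      field_simp
    rw [← h11]
    exact mul_le_mul_of_nonneg_right hmain (by positivity)
  calc V0 m (A ∩ B) * w ^ 2 ≤ (volume (A ∩ B)).toReal * w ^ 2 :=
        mul_le_mul_of_nonneg_right hVB (by positivity)
    _ = 1 / c * (c * (volume (A ∩ B)).toReal * w ^ 2) := by
        field_simp
    _ ≤ 1 / c * V0 m A ^ 2 := mul_le_mul_of_nonneg_left h10 (by positivity)

end Pool.Agent.Lib.MP_c95dcf_gt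
end

section

/-!
# MP_c95dcf_gt, part B: relative isoperimetric inequality in discs
-/

set_option autoImplicit false

open MeasureTheory Set Filter Topology
open scoped ENNReal NNReal

namespace Pool.Agent.Lib.MP_c95dcf_gt

namespace IsoDisc

/-- The isometry between the plane and `E 2`. -/
noncomputable def Ph : ℂ ≃ₗᵢ[ℝ] E 2 := Complex.orthonormalBasisOneI.repr

lemma Ph_one : Ph 1 = EuclideanSpace.single 0 (1 : ℝ) := by
  have h := Complex.orthonormalBasisOneI.repr_self 0
  have h1 : Complex.orthonormalBasisOneI 0 = (1 : ℂ) := by simp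
  rw [h1] at h
  exact h

lemma Ph_I : Ph Complex.I = EuclideanSpace.single 1 (1 : ℝ) := by
  have h := Complex.orthonormalBasisOneI.repr_self 1
  have h1 : Complex.orthonormalBasisOneI 1 = Complex.I := by simp
  rw [h1] at h
  exact h

lemma Ph_apply0 (z : ℂ) : Ph z 0 = z.re := by
  have := Complex.orthonormalBasisOneI_repr_apply z
  change (Complex.orthonormalBasisOneI.repr z) 0 = z.re
  simp

lemma Ph_apply1 (z : ℂ) : Ph z 1 = z.im := by
  change (Complex.orthonormalBasisOneI.repr z) 1 = z.im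
  simp

lemma symm_re (v : E 2) : (Ph.symm v).re = v 0 := by
  rw [← Ph_apply0, LinearIsometryEquiv.apply_symm_apply]

lemma symm_im (v : E 2) : (Ph.symm v).im = v 1 := by
  rw [← Ph_apply1, LinearIsometryEquiv.apply_symm_apply]

lemma dvc_eq (X : E 2 → E 2) (hX : ContDiff ℝ 1 X) (c : ℂ) :
    dvc (fun z => Ph.symm (X (Ph z))) c = dv X (Ph c) := by
  have hd : DifferentiableAt ℝ X (Ph c) := (hX.differentiable one_ne_zero) _
  have h1 : HasFDerivAt (fun z => Ph.symm (X (Ph z)))
      ((Ph.symm.toContinuousLinearEquiv : E 2 →L[ℝ] ℂ).comp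
        ((fderiv ℝ X (Ph c)).comp (Ph.toContinuousLinearEquiv : ℂ →L[ℝ] E 2))) c := by
    refine HasFDerivAt.comp c ?_ ?_
    · exact (Ph.symm.toContinuousLinearEquiv : E 2 →L[ℝ] ℂ).hasFDerivAt
    · exact hd.hasFDerivAt.comp c (Ph.toContinuousLinearEquiv : ℂ →L[ℝ] E 2).hasFDerivAt
  unfold dvc dv
  rw [h1.fderiv]
  have h2 : ∀ z : ℂ, ((Ph.symm.toContinuousLinearEquiv : E 2 →L[ℝ] ℂ).comp
        ((fderiv ℝ X (Ph c)).comp (Ph.toContinuousLinearEquiv : ℂ →L[ℝ] E 2))) z =
      Ph.symm (fderiv ℝ X (Ph c) (Ph z)) := fun z => rfl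
  rw [h2, h2, symm_re, symm_im, Ph_one, Ph_I, Fin.sum_univ_two]

/-- A cutoff function of the plane. -/
lemma exists_cutoff : ∃ (ψ : ℂ → ℝ) (C : ℝ), ContDiff ℝ 1 ψ ∧ HasCompactSupport ψ ∧
    tsupport ψ ⊆ Metric.closedBall 0 2 ∧ (∀ z ∈ Metric.closedBall (0 : ℂ) 1, ψ z = 1) ∧
    (∀ z, 0 ≤ ψ z) ∧ (∀ z, ψ z ≤ 1) ∧ 0 ≤ C ∧ ∀ z, ‖fderiv ℝ ψ z‖ ≤ C := by
  let b : ContDiffBump (0 : ℂ) := ⟨1, 2, one_pos, one_lt_two⟩
  have hc : ContDiff ℝ 1 (b : ℂ → ℝ) := b.contDiff
  have h1 : Continuous (fderiv ℝ (b : ℂ → ℝ)) := hc.continuous_fderiv one_ne_zero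
  have h2 : HasCompactSupport (fderiv ℝ (b : ℂ → ℝ)) := b.hasCompactSupport.fderiv (𝕜 := ℝ)
  obtain ⟨C, hC⟩ := h1.bounded_above_of_compact_support h2
  refine ⟨b, max C 0, hc, b.hasCompactSupport, ?_, ?_, fun z => b.nonneg, fun z => b.le_one,
    le_max_right _ _, fun z => (hC z).trans (le_max_left _ _)⟩
  · rw [b.tsupport_eq]
  · intro z hz
    exact b.one_of_mem_closedBall hz

/-- Removing the origin from the support of a test field. -/
lemma punctured (r M : ℝ) (A : Set ℂ) (hM : 0 ≤ M) (hA : MeasurableSet A)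
    (H : ∀ Y : ℂ → ℂ, TFc (Metric.ball (0 : ℂ) r \ {0}) Y → (∀ x, ‖Y x‖ ≤ 1) →
      ∫ x in A, dvc Y x ≤ M) (Y : ℂ → ℂ) (hY : TFc (Metric.ball (0 : ℂ) r) Y)
    (hY1 : ∀ x, ‖Y x‖ ≤ 1) : ∫ x in A, dvc Y x ≤ M := by
  obtain ⟨ψ, C, hψ, hψc, hψs, hψ1, hψ0, hψle, hC0, hC⟩ := exists_cutoff
  -- bound for the divergence
  have hdc : ∀ Z : ℂ → ℂ, ContDiff ℝ 1 Z → Continuous (dvc Z) := by
    intro Z hZ
    have h1 : Continuous (fderiv ℝ Z) := hZ.continuous_fderiv one_ne_zero
    have h2 : Continuous (fun c => fderiv ℝ Z c 1) := h1.clm_apply continuous_const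
    have h3 : Continuous (fun c => fderiv ℝ Z c Complex.I) := h1.clm_apply continuous_const
    exact (Complex.continuous_re.comp h2).add (Complex.continuous_im.comp h3)
  have hds : ∀ Z : ℂ → ℂ, HasCompactSupport Z → HasCompactSupport (dvc Z) := by
    intro Z hZ
    refine (hZ.fderiv (𝕜 := ℝ)).mono ?_
    intro x hx hx'
    apply hx
    unfold dvc
    rw [hx']
    simp
  have hint : Integrable (dvc Y) := (hdc Y hY.diff).integrable_of_hasCompactSupport (hds Y hY.comp)
  obtain ⟨B, hB⟩ := (hdc Y hY.diff).bounded_above_of_compact_support (hds Y hY.comp)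
  have hB0 : 0 ≤ B := (norm_nonneg _).trans (hB 0)
  -- the cut off field at scale `d`
  have key : ∀ d : ℝ, 0 < d → ∫ x in A, dvc Y x ≤
      M + (B + 2 * (C / d)) * (Real.pi * (2 * d) ^ 2) := by
    intro d hd
    let χ : ℂ → ℝ := fun z => ψ (d⁻¹ • z)
    have hχ : ContDiff ℝ 1 χ := hψ.comp (contDiff_const_smul d⁻¹)
    have hχs : ∀ z, χ z ≠ 0 → z ∈ Metric.closedBall (0 : ℂ) (2 * d) := by
      intro z hz
      have h1 : d⁻¹ • z ∈ tsupport ψ := subset_tsupport _ hz
      have h2 := hψs h1
      rw [mem_closedBall_zero_iff, norm_smul, norm_inv, Real.norm_of_nonneg hd.le] at h2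
      rw [mem_closedBall_zero_iff]
      rw [inv_mul_le_iff₀ hd] at h2
      linarith
    have hχd : ∀ z, HasFDerivAt χ (d⁻¹ • fderiv ℝ ψ (d⁻¹ • z)) z := by
      intro z
      have h1 : HasFDerivAt (fun z : ℂ => d⁻¹ • z) (d⁻¹ • ContinuousLinearMap.id ℝ ℂ) z :=
        (hasFDerivAt_id z).const_smul d⁻¹
      have h2 := ((hψ.differentiable one_ne_zero) (d⁻¹ • z)).hasFDerivAt.comp z h1
      refine h2.congr_fderiv ?_
      ext w
      simp
    have hχb : ∀ z w, |fderiv ℝ χ z w| ≤ C / d * ‖w‖ := by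
      intro z w
      rw [(hχd z).fderiv]
      change |d⁻¹ • (fderiv ℝ ψ (d⁻¹ • z) w)| ≤ _
      rw [smul_eq_mul, abs_mul, abs_of_pos (inv_pos.2 hd), div_eq_inv_mul, mul_assoc]
      refine mul_le_mul_of_nonneg_left ?_ (inv_pos.2 hd).le
      exact ((fderiv ℝ ψ (d⁻¹ • z)).le_opNorm w).trans
        (mul_le_mul_of_nonneg_right (hC _) (norm_nonneg _))
    have hχz : ∀ z, z ∉ Metric.closedBall (0 : ℂ) (2 * d) → fderiv ℝ χ z = 0 := by
      intro z hz
      have hev : χ =ᶠ[𝓝 z] fun _ => 0 := by
        filter_upwards [Metric.isClosed_closedBall.isOpen_compl.mem_nhds hz] with w hw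
        by_contra h
        exact hw (hχs w h)
      rw [hev.fderiv_eq]
      simp
    let Z : ℂ → ℂ := fun z => (1 - χ z) • Y z
    have hZd : ContDiff ℝ 1 Z := (contDiff_const.sub hχ).smul hY.diff
    have hZsup : tsupport Z ⊆ tsupport Y := closure_mono (by
      intro z hz hz'
      apply hz
      change (1 - χ z) • Y z = 0
      rw [hz', smul_zero])
    have hZ : TFc (Metric.ball (0 : ℂ) r \ {0}) Z := by
      refine ⟨hZd, ?_, ?_⟩
      · exact hY.comp.smul_left (f := fun z => 1 - χ z)
      · intro z hz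
        refine ⟨hY.supp (hZsup hz), ?_⟩
        rintro rfl
        have hev : Z =ᶠ[𝓝 (0 : ℂ)] 0 := by
          filter_upwards [Metric.ball_mem_nhds (0 : ℂ) hd] with w hw
          have : χ w = 1 := by
            apply hψ1
            rw [mem_closedBall_zero_iff, norm_smul, norm_inv, Real.norm_of_nonneg hd.le,
              inv_mul_le_iff₀ hd, mul_one]
            exact (mem_ball_zero_iff.1 hw).le
          change (1 - χ w) • Y w = 0
          rw [this, sub_self, zero_smul]
        exact (notMem_tsupport_iff_eventuallyEq.2 hev) hz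
    have hZ1 : ∀ x, ‖Z x‖ ≤ 1 := by
      intro x
      change ‖(1 - χ x) • Y x‖ ≤ 1
      rw [norm_smul, Real.norm_eq_abs]
      have h0 : 0 ≤ χ x := hψ0 _
      have h1 : χ x ≤ 1 := hψle _
      rw [abs_of_nonneg (by linarith)]
      calc (1 - χ x) * ‖Y x‖ ≤ 1 * 1 := mul_le_mul (by linarith) (hY1 x) (norm_nonneg _)
            zero_le_one
        _ = 1 := one_mul 1
    have hHZ := H Z hZ hZ1
    -- comparison of the divergences
    have hZfd : ∀ z w, fderiv ℝ Z z w = (1 - χ z) • fderiv ℝ Y z w - (fderiv ℝ χ z w) • Y z := by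
      intro z w
      have h1 : HasFDerivAt (fun z => 1 - χ z) (-(fderiv ℝ χ z)) z := by
        have := ((hχ.differentiable one_ne_zero) z).hasFDerivAt
        simpa using this.const_sub 1
      have h2 : HasFDerivAt Z ((1 - χ z) • fderiv ℝ Y z +
          (-(fderiv ℝ χ z)).smulRight (Y z)) z :=
        h1.smul ((hY.diff.differentiable one_ne_zero) z).hasFDerivAt
      rw [h2.fderiv]
      simp [sub_eq_add_neg]
    have hdiv : ∀ z, dvc Y z - dvc Z z =
        χ z * dvc Y z + ((fderiv ℝ χ z 1) * (Y z).re + (fderiv ℝ χ z Complex.I) * (Y z).im) := by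
      intro z
      unfold dvc
      rw [hZfd, hZfd]
      simp only [Complex.sub_re, Complex.sub_im, Complex.real_smul, Complex.re_ofReal_mul,
        Complex.im_ofReal_mul]
      ring
    have hbound : ∀ z, dvc Y z - dvc Z z ≤
        (Metric.closedBall (0 : ℂ) (2 * d)).indicator (fun _ => B + 2 * (C / d)) z := by
      intro z
      rw [hdiv]
      by_cases hz : z ∈ Metric.closedBall (0 : ℂ) (2 * d)
      · rw [indicator_of_mem hz]
        have e1 : χ z * dvc Y z ≤ B := by
          have h0 : 0 ≤ χ z := hψ0 _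
          have h1 : χ z ≤ 1 := hψle _
          have h2 : |dvc Y z| ≤ B := hB z
          calc χ z * dvc Y z ≤ χ z * |dvc Y z| := mul_le_mul_of_nonneg_left (le_abs_self _) h0
            _ ≤ 1 * B := mul_le_mul h1 h2 (abs_nonneg _) zero_le_one
            _ = B := one_mul B
        have e2 : (fderiv ℝ χ z 1) * (Y z).re ≤ C / d := by
          have h1 := hχb z 1
          rw [norm_one, mul_one] at h1
          have h2 : |(Y z).re| ≤ 1 := (Complex.abs_re_le_norm _).trans (hY1 z)
          calc (fderiv ℝ χ z 1) * (Y z).re ≤ |(fderiv ℝ χ z 1) * (Y z).re| := le_abs_self _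
            _ = |fderiv ℝ χ z 1| * |(Y z).re| := abs_mul _ _
            _ ≤ C / d * 1 := mul_le_mul h1 h2 (abs_nonneg _) (by positivity)
            _ = C / d := mul_one _
        have e3 : (fderiv ℝ χ z Complex.I) * (Y z).im ≤ C / d := by
          have h1 := hχb z Complex.I
          rw [Complex.norm_I, mul_one] at h1
          have h2 : |(Y z).im| ≤ 1 := (Complex.abs_im_le_norm _).trans (hY1 z)
          calc (fderiv ℝ χ z Complex.I) * (Y z).im ≤ |(fderiv ℝ χ z Complex.I) * (Y z).im| :=
                le_abs_self _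
            _ = |fderiv ℝ χ z Complex.I| * |(Y z).im| := abs_mul _ _
            _ ≤ C / d * 1 := mul_le_mul h1 h2 (abs_nonneg _) (by positivity)
            _ = C / d := mul_one _
        linarith
      · rw [indicator_of_notMem hz, hχz z hz]
        have : χ z = 0 := by
          by_contra h
          exact hz (hχs z h)
        rw [this]
        simp
    have hZint : Integrable (dvc Z) :=
      (hdc Z hZd).integrable_of_hasCompactSupport (hds Z hZ.comp)
    have hvol : (volume (Metric.closedBall (0 : ℂ) (2 * d))).toReal = Real.pi * (2 * d) ^ 2 := by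
      rw [Complex.volume_closedBall]
      rw [ENNReal.toReal_mul, ENNReal.toReal_pow, ENNReal.toReal_ofReal (by positivity)]
      simp [mul_comm]
    have hii : Integrable ((Metric.closedBall (0 : ℂ) (2 * d)).indicator
        (fun _ => B + 2 * (C / d))) := by
      rw [integrable_indicator_iff Metric.isClosed_closedBall.measurableSet]
      exact integrableOn_const (measure_closedBall_lt_top).ne
    have hK0 : 0 ≤ B + 2 * (C / d) := by positivity
    calc ∫ x in A, dvc Y x = (∫ x in A, dvc Z x) + ∫ x in A, (dvc Y x - dvc Z x) := by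
          rw [integral_sub hint.integrableOn hZint.integrableOn]; ring
      _ ≤ M + ∫ x in A, (Metric.closedBall (0 : ℂ) (2 * d)).indicator
            (fun _ => B + 2 * (C / d)) x := by
          refine add_le_add hHZ ?_
          exact integral_mono (hint.sub hZint).integrableOn hii.integrableOn hbound
      _ ≤ M + ∫ x, (Metric.closedBall (0 : ℂ) (2 * d)).indicator
            (fun _ => B + 2 * (C / d)) x := by
          refine add_le_add le_rfl ?_
          refine setIntegral_le_integral hii ?_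
          filter_upwards with x
          exact indicator_nonneg (fun _ _ => hK0) x
      _ = M + (B + 2 * (C / d)) * (Real.pi * (2 * d) ^ 2) := by
          rw [integral_indicator Metric.isClosed_closedBall.measurableSet, setIntegral_const,
            measureReal_def, hvol, smul_eq_mul, mul_comm]
  -- the limit `d → 0`
  have hlim : Tendsto (fun d : ℝ => M + (B + 2 * (C / d)) * (Real.pi * (2 * d) ^ 2))
      (𝓝[>] 0) (𝓝 M) := by
    have h1 : Tendsto (fun d : ℝ => M + (4 * Real.pi * B * d ^ 2 + 8 * Real.pi * C * d))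
        (𝓝[>] 0) (𝓝 (M + (4 * Real.pi * B * 0 ^ 2 + 8 * Real.pi * C * 0))) := by
      have hc : Continuous (fun d : ℝ => M + (4 * Real.pi * B * d ^ 2 + 8 * Real.pi * C * d)) := by
        fun_prop
      exact (hc.tendsto 0).mono_left nhdsWithin_le_nhds
    have h2 : M + (4 * Real.pi * B * 0 ^ 2 + 8 * Real.pi * C * 0) = M := by ring
    rw [h2] at h1
    refine h1.congr' ?_
    filter_upwards [self_mem_nhdsWithin] with d hd
    have hd' : d ≠ 0 := ne_of_gt hd
    field_simp
    ring
  refine ge_of_tendsto hlim ?_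
  filter_upwards [self_mem_nhdsWithin] with d hd
  exact key d hd

end IsoDisc

open IsoDisc in
theorem isoDisc (h : Stmt_RelIsoBall) : Stmt_IsoDisc := by
  obtain ⟨c, hc, H⟩ := h 2 le_rfl
  refine ⟨c ^ 2, by positivity, ?_⟩
  intro r M A hr hM hA hvol HY
  let A' : Set (E 2) := Ph.symm ⁻¹' A
  have hmp : MeasurePreserving Ph volume volume := Ph.measurePreserving
  have hme : MeasurableEmbedding Ph := Ph.toHomeomorph.measurableEmbedding
  have hA' : MeasurableSet A' := Ph.symm.continuous.measurable hA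
  have hpre : Ph ⁻¹' A' = A := by
    ext z
    change Ph.symm (Ph z) ∈ A ↔ z ∈ A
    rw [LinearIsometryEquiv.symm_apply_apply]
  have hball : Ph ⁻¹' (Metric.ball (0 : E 2) r) = Metric.ball (0 : ℂ) r := by
    ext z
    simp only [mem_preimage, mem_ball_zero_iff, LinearIsometryEquiv.norm_map]
  have hv1 : volume (A' ∩ Metric.ball (0 : E 2) r) = volume (A ∩ Metric.ball (0 : ℂ) r) := by
    rw [← hmp.measure_preimage_emb hme, preimage_inter, hpre, hball]
  have hv2 : volume (Metric.ball (0 : E 2) r \ A') = volume (Metric.ball (0 : ℂ) r \ A) := by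
    rw [← hmp.measure_preimage_emb hme, preimage_sdiff, hpre, hball]
  have hPer : Per (Metric.ball (0 : E 2) r) A' ≤ ENNReal.ofReal M := by
    unfold Per
    refine iSup₂_le fun X hX => ENNReal.ofReal_le_ofReal ?_
    have hY : TFc (Metric.ball (0 : ℂ) r) (fun z => Ph.symm (X (Ph z))) := by
      have hsup : tsupport (fun z => Ph.symm (X (Ph z))) ⊆ Ph ⁻¹' (tsupport X) := by
        refine closure_minimal ?_ ((isClosed_tsupport X).preimage Ph.continuous)
        intro z hz
        refine subset_tsupport _ ?_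
        intro h0
        apply hz
        change Ph.symm (X (Ph z)) = 0
        rw [h0, map_zero]
      refine ⟨?_, ?_, ?_⟩
      · exact Ph.symm.contDiff.comp (hX.1.diff.comp Ph.contDiff)
      · exact (Ph.toHomeomorph.isCompact_preimage.2 hX.1.comp).of_isClosed_subset
          (isClosed_tsupport _) hsup
      · refine hsup.trans ?_
        rw [← hball]
        exact preimage_mono hX.1.supp
    have h1 := punctured r M A hM hA HY _ hY (fun x => by
      rw [LinearIsometryEquiv.norm_map]; exact hX.2 _)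
    have h2 : ∫ x in A', dv X x = ∫ z in A, dvc (fun z => Ph.symm (X (Ph z))) z := by
      rw [← hpre, ← hmp.setIntegral_preimage_emb hme]
      refine integral_congr_ae ?_
      filter_upwards with z
      exact (dvc_eq X hX.1.diff z).symm
    rw [h2]
    exact h1
  have h1 := (H 0 r hr A' hA').trans hPer
  rw [hv1, hv2, min_eq_left hvol] at h1
  have hfin : volume (A ∩ Metric.ball (0 : ℂ) r) ≠ ∞ :=
    (measure_mono inter_subset_right |>.trans_lt measure_ball_lt_top).ne
  have h2 := ENNReal.toReal_mono ENNReal.ofReal_ne_top h1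
  rw [ENNReal.toReal_mul, ENNReal.toReal_ofReal hc.le, ENNReal.toReal_ofReal hM,
    ← ENNReal.toReal_rpow] at h2
  have h3 : (((2 : ℕ) : ℝ) - 1) / ((2 : ℕ) : ℝ) = 1 / 2 := by norm_num
  rw [h3, ← Real.sqrt_eq_rpow] at h2
  have h4 := mul_self_le_mul_self (by positivity) h2
  have h5 := Real.sq_sqrt (ENNReal.toReal_nonneg (a := volume (A ∩ Metric.ball (0 : ℂ) r)))
  nlinarith [h4, h5]

end Pool.Agent.Lib.MP_c95dcf_gt
end
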