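import Pool.Agent.Lib.MP_c95dcf_gt.Mg.G001

section

/-!
# MP_c95dcf_gt, B03: one dimensional weighted isoperimetric inequality
-/

set_option autoImplicit false

open MeasureTheory Set Filter Topology
open scoped ENNReal NNReal

namespace Pool.Agent.Lib.MP_c95dcf_gt

/-! ## The weight -/

theorem iso1_hp_continuous (m : ℕ) : Continuous (hp m) := by
  unfold hp Wp wp
  fun_prop

theorem iso1_hp_nonneg {m : ℕ} {r : ℝ} (hr : 0 ≤ r) : 0 ≤ hp m r :=
  mul_nonneg hr (pow_nonneg (le_max_left _ _) _)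

theorem iso1_hp_eq {m : ℕ} (hm : 2 ≤ m) {r : ℝ} (h1 : r ≤ m) :
    hp m r = r * (1 - r / m) ^ m := by
  have hm0 : (0 : ℝ) < m := by exact_mod_cast (by omega : 0 < m)
  have h2 : 0 ≤ 1 - r / m := by
    rw [sub_nonneg, div_le_one hm0]; exact h1
  simp [hp, Wp, wp, max_eq_right h2]

theorem iso1_hp_pos {m : ℕ} (hm : 2 ≤ m) {r : ℝ} (h0 : 0 < r) (h1 : r < m) : 0 < hp m r := by
  rw [iso1_hp_eq hm h1.le]
  have hm0 : (0 : ℝ) < m := by exact_mod_cast (by omega : 0 < m)
  have h2 : 0 < 1 - r / m := by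
    rw [sub_pos, div_lt_one hm0]; exact h1
  positivity

theorem iso1_hasDerivAt {m : ℕ} (hm : 2 ≤ m) (r : ℝ) :
    HasDerivAt (fun r : ℝ => r * (1 - r / m) ^ m)
      ((1 - r / m) ^ (m - 1) * (1 - r / m - r)) r := by
  have hm0 : (m : ℝ) ≠ 0 := by exact_mod_cast (by omega : m ≠ 0)
  have h1 : HasDerivAt (fun r : ℝ => 1 - r / m) (-(1 / m)) r := by
    simpa using ((hasDerivAt_id r).div_const (m : ℝ)).const_sub 1
  have h2 := (hasDerivAt_id r).mul (h1.pow m)
  refine h2.congr_deriv ?_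
  simp only [id_eq, one_mul, Pi.pow_apply]
  obtain ⟨k, rfl⟩ : ∃ k, m = k + 1 := ⟨m - 1, by omega⟩
  rw [Nat.add_sub_cancel, pow_succ]
  field_simp
  ring

theorem iso1_mono {m : ℕ} (hm : 2 ≤ m) : MonotoneOn (hp m) (Icc 0 ((m : ℝ) / (m + 1))) := by
  have hm0 : (0 : ℝ) < m := by exact_mod_cast (by omega : 0 < m)
  have hle : (m : ℝ) / (m + 1) ≤ m := by
    rw [div_le_iff₀ (by positivity)]; nlinarith
  have : MonotoneOn (fun r : ℝ => r * (1 - r / m) ^ m) (Icc 0 ((m : ℝ) / (m + 1))) := by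
    refine monotoneOn_of_deriv_nonneg (convex_Icc _ _) ?_ ?_ ?_
    · exact fun x _ => (iso1_hasDerivAt hm x).continuousAt.continuousWithinAt
    · exact fun x _ => (iso1_hasDerivAt hm x).differentiableAt.differentiableWithinAt
    · intro x hx
      rw [interior_Icc] at hx
      rw [(iso1_hasDerivAt hm x).deriv]
      have hx2 := hx.2
      rw [lt_div_iff₀ (by positivity)] at hx2
      have h3 : 0 ≤ 1 - x / m - x := by
        have : x / m = x * (m + 1) / m - x := by field_simp; ring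
        rw [this]
        have : x * (m + 1) / m ≤ 1 := by
          rw [div_le_one hm0]; exact hx2.le
        linarith
      have h4 : 0 ≤ 1 - x / m := by linarith [hx.1]
      positivity
  refine this.congr fun r hr => ?_
  exact (iso1_hp_eq hm (hr.2.trans hle)).symm

theorem iso1_anti {m : ℕ} (hm : 2 ≤ m) : AntitoneOn (hp m) (Icc ((m : ℝ) / (m + 1)) m) := by
  have hm0 : (0 : ℝ) < m := by exact_mod_cast (by omega : 0 < m)
  have : AntitoneOn (fun r : ℝ => r * (1 - r / m) ^ m) (Icc ((m : ℝ) / (m + 1)) m) := by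
    refine antitoneOn_of_deriv_nonpos (convex_Icc _ _) ?_ ?_ ?_
    · exact fun x _ => (iso1_hasDerivAt hm x).continuousAt.continuousWithinAt
    · exact fun x _ => (iso1_hasDerivAt hm x).differentiableAt.differentiableWithinAt
    · intro x hx
      rw [interior_Icc] at hx
      rw [(iso1_hasDerivAt hm x).deriv]
      have hx1 := hx.1
      rw [div_lt_iff₀ (by positivity)] at hx1
      have h3 : 1 - x / m - x ≤ 0 := by
        have : x / m = x * (m + 1) / m - x := by field_simp; ring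
        rw [this]
        have : 1 ≤ x * (m + 1) / m := by
          rw [one_le_div hm0]; exact hx1.le
        linarith
      have h4 : 0 ≤ 1 - x / m := by
        rw [sub_nonneg, div_le_one hm0]; exact hx.2.le
      exact mul_nonpos_of_nonneg_of_nonpos (pow_nonneg h4 _) h3
  refine this.congr fun r hr => ?_
  exact (iso1_hp_eq hm hr.2).symm

theorem iso1_peak_lt_one (m : ℕ) : (m : ℝ) / (m + 1) < 1 := by
  rw [div_lt_one (by positivity)]; linarith

/-- The minimum of the weight on an interval is attained at an end point. -/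
theorem iso1_min {m : ℕ} (hm : 2 ≤ m) {α β r c : ℝ} (hα : 0 ≤ α) (hβ : β ≤ m)
    (hr : r ∈ Icc α β) (h1 : c ≤ hp m α) (h2 : c ≤ hp m β) : c ≤ hp m r := by
  rcases le_total r ((m : ℝ) / (m + 1)) with h | h
  · exact h1.trans (iso1_mono hm ⟨hα, hr.1.trans h⟩ ⟨hα.trans hr.1, h⟩ hr.1)
  · exact h2.trans (iso1_anti hm ⟨h, hr.2.trans hβ⟩ ⟨h.trans hr.2, hβ⟩ hr.2)

theorem iso1_integrableOn {m : ℕ} {a b : ℝ} {S : Set ℝ} (hS : S ⊆ Icc a b) :
    IntegrableOn (hp m) S :=
  ((iso1_hp_continuous m).continuousOn.integrableOn_compact isCompact_Icc).mono_set hS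

theorem iso1_setIntegral_mono {m : ℕ} {S T : Set ℝ} (hT : T ⊆ Ioo 0 (m : ℝ))
    (hTm : MeasurableSet T) (hST : S ⊆ T) : ∫ r in S, hp m r ≤ ∫ r in T, hp m r := by
  refine setIntegral_mono_set (iso1_integrableOn (hT.trans Ioo_subset_Icc_self)) ?_
    (Eventually.of_forall hST)
  filter_upwards [ae_restrict_mem hTm] with r hr
  exact iso1_hp_nonneg (hT hr).1.le

theorem iso1_p1_mono {m : ℕ} {α β α' β' : ℝ} (A : Set ℝ) (h1 : α' ≤ α) (h2 : β ≤ β') :
    p1 m α β A ≤ p1 m α' β' A := by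
  unfold p1
  refine biSup_mono fun a ha => ?_
  exact ⟨ha.1, ha.2.1, ha.2.2.1.trans (Ioo_subset_Ioo h1 h2), ha.2.2.2⟩

/-! ## The inner part -/

theorem iso1_inner (h3 : Stmt_Cross) {m : ℕ} (hm : 2 ≤ m) {A : Set ℝ} {rs : ℝ}
    (hA : MeasurableSet A) (hrs : 0 < rs) (hrs1 : rs ≤ (m : ℝ) / (m + 1))
    (hmin : ∀ r ∈ Icc rs (3 / 2), hp m rs ≤ hp m r)
    (hnull : volume (A ∩ Ioo rs (3 / 2)) = 0) :
    ENNReal.ofReal (∫ r in A ∩ Ioc 0 rs, hp m r) ≤ p1 m 0 (3 / 2) A := by
  have hm2 : (2 : ℝ) ≤ m := by exact_mod_cast hm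
  have hrs2 : rs < 1 := hrs1.trans_lt (iso1_peak_lt_one m)
  by_contra hcon
  rw [not_le] at hcon
  set δ := ∫ r in A ∩ Ioc 0 rs, hp m r with hδ
  have hp1 : p1 m 0 (3 / 2) A ≠ ∞ := (hcon.trans ENNReal.ofReal_lt_top).ne
  set c := (p1 m 0 (3 / 2) A).toReal with hc
  have hc0 : 0 ≤ c := ENNReal.toReal_nonneg
  have hcp : p1 m 0 (3 / 2) A = ENNReal.ofReal c := (ENNReal.ofReal_toReal hp1).symm
  have hcδ : c < δ := by
    rw [hcp] at hcon
    exact (ENNReal.ofReal_lt_ofReal_iff_of_nonneg hc0).1 hcon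
  -- bound of the mass of `A ∩ (0, α]`
  have hmass : ∀ α : ℝ, 0 < α → α ≤ rs → ∫ r in A ∩ Ioc 0 α, hp m r ≤ hp m α := by
    intro α hα hαr
    calc ∫ r in A ∩ Ioc 0 α, hp m r ≤ ∫ r in Ioc 0 α, hp m r := by
          refine iso1_setIntegral_mono ?_ measurableSet_Ioc inter_subset_right
          intro r hr
          exact ⟨hr.1, by linarith [hr.2]⟩
      _ ≤ ∫ r in Ioc 0 α, hp m α := by
          refine setIntegral_mono_on (iso1_integrableOn Ioc_subset_Icc_self)
            (integrableOn_const (by simp)) measurableSet_Ioc fun r hr => ?_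
          exact iso1_mono hm ⟨hr.1.le, hr.2.trans (hαr.trans hrs1)⟩ ⟨hα.le, hαr.trans hrs1⟩ hr.2
      _ = α * hp m α := by
          rw [setIntegral_const]
          simp [hα.le, Measure.real]
      _ ≤ 1 * hp m α := by
          gcongr
          · exact iso1_hp_nonneg hα.le
          · linarith
      _ = hp m α := one_mul _
  set c' := (c + δ) / 2 with hc'
  have hcc' : c < c' := by rw [hc']; linarith
  have hc'δ : c' < δ := by rw [hc']; linarith
  have hc'0 : 0 < c' := by linarith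
  rcases le_or_gt (hp m rs) c' with h | h
  · have := hmass rs hrs le_rfl
    linarith
  · have h0 : hp m 0 = 0 := by simp [hp]
    obtain ⟨α, hα, hαc⟩ := intermediate_value_Icc hrs.le (iso1_hp_continuous m).continuousOn
      (show c' ∈ Icc (hp m 0) (hp m rs) from ⟨by rw [h0]; exact hc'0.le, h.le⟩)
    have hα0 : 0 < α := by
      rcases hα.1.lt_or_eq with h' | h'
      · exact h'
      · rw [← h', h0] at hαc; linarith
    have hnull2 : volume (A ∩ Ioc α rs) = 0 := by
      by_contra hne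
      have hpos : 0 < volume (A ∩ Ioc α rs) := pos_iff_ne_zero.2 hne
      have h5 : 0 < volume (A ∩ Ioo α (3 / 2)) := by
        refine hpos.trans_le (measure_mono ?_)
        refine inter_subset_inter_right _ ?_
        intro r hr
        exact ⟨hr.1, by linarith [hr.2]⟩
      have h6 : 0 < volume (Ioo α (3 / 2) \ A) := by
        have e1 : volume (Ioo rs (3 / 2 : ℝ)) ≤ volume (Ioo α (3 / 2) \ A) := by
          calc volume (Ioo rs (3 / 2 : ℝ)) ≤
                volume ((A ∩ Ioo rs (3 / 2)) ∪ (Ioo α (3 / 2) \ A)) := by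
                refine measure_mono ?_
                intro r hr
                by_cases hrA : r ∈ A
                · exact Or.inl ⟨hrA, hr⟩
                · exact Or.inr ⟨⟨hα.2.trans_lt hr.1, hr.2⟩, hrA⟩
            _ ≤ volume (A ∩ Ioo rs (3 / 2)) + volume (Ioo α (3 / 2) \ A) := measure_union_le _ _
            _ = volume (Ioo α (3 / 2) \ A) := by rw [hnull, zero_add]
        refine lt_of_lt_of_le ?_ e1
        rw [Real.volume_Ioo]
        simp; linarith
      have h7 := h3 m α (3 / 2) c' A hm hα0 (by linarith [hα.2]) (by linarith) hA h5 h6 (by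
        intro r hr
        rcases le_total r rs with h8 | h8
        · rw [← hαc]
          exact iso1_mono hm ⟨hα0.le, hα.2.trans hrs1⟩ ⟨hα0.le.trans hr.1, h8.trans hrs1⟩ hr.1
        · exact h.le.trans (hmin r ⟨h8, hr.2⟩))
      have h9 := h7.trans (iso1_p1_mono A hα0.le le_rfl)
      rw [hcp, ENNReal.ofReal_le_ofReal_iff hc0] at h9
      linarith
    have h10 : δ ≤ c' := by
      rw [← hαc]
      refine le_trans (le_of_eq ?_) (hmass α hα0 hα.2)
      rw [hδ]
      have e2 : A ∩ Ioc 0 rs = (A ∩ Ioc 0 α) ∪ (A ∩ Ioc α rs) := by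
        rw [← inter_union_distrib_left, Ioc_union_Ioc_eq_Ioc hα0.le hα.2]
      refine (setIntegral_congr_set ?_)
      rw [e2]
      exact union_ae_eq_left_of_ae_eq_empty (ae_eq_empty.2 hnull2)
    linarith

/-! ## The outer part -/

theorem iso1_outer (h1 : Stmt_Prof) (h3 : Stmt_Cross) {m : ℕ} (hm : 2 ≤ m) {A : Set ℝ} {ρ : ℝ}
    (hA : MeasurableSet A) (hρ : 2 < ρ) (hρm : ρ < m)
    (hnull : volume (A ∩ Ioo (3 / 2) ρ) = 0) :
    ENNReal.ofReal ((∫ r in A ∩ Ico ρ m, hp m r) * (1 - 1 / (1 + ρ))) ≤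
      p1 m (3 / 2) m A := by
  obtain ⟨-, hcont, hanti, -, hle, -⟩ := h1 m hm
  by_contra hcon
  rw [not_le] at hcon
  set v2 := ∫ r in A ∩ Ico ρ m, hp m r with hv2
  have hp1 : p1 m (3 / 2) m A ≠ ∞ := (hcon.trans ENNReal.ofReal_lt_top).ne
  set c := (p1 m (3 / 2) m A).toReal with hc
  have hc0 : 0 ≤ c := ENNReal.toReal_nonneg
  have hcp : p1 m (3 / 2) m A = ENNReal.ofReal c := (ENNReal.ofReal_toReal hp1).symm
  have hcv : c < v2 * (1 - 1 / (1 + ρ)) := by
    rw [hcp] at hcon
    exact (ENNReal.ofReal_lt_ofReal_iff_of_nonneg hc0).1 hcon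
  have hfac : 1 - 1 / (1 + ρ) = ρ / (1 + ρ) := by field_simp; ring
  have hfac0 : 0 < 1 - 1 / (1 + ρ) := by rw [hfac]; positivity
  have hv20 : 0 < v2 := by
    by_contra hneg
    rw [not_lt] at hneg
    have := mul_nonpos_of_nonpos_of_nonneg hneg hfac0.le
    linarith
  have hvpm : vp m m = 0 := by simp [vp]
  -- mass of the tail
  have htail : ∀ β : ℝ, ρ ≤ β → β < m → volume (A ∩ Ioo (3 / 2) β) = 0 → v2 ≤ vp m β := by
    intro β hβ hβm hnul
    have e1 : v2 = ∫ r in A ∩ Ico β m, hp m r := by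
      rw [hv2]
      have e2 : A ∩ Ico ρ (m : ℝ) = (A ∩ Ico ρ β) ∪ (A ∩ Ico β m) := by
        rw [← inter_union_distrib_left, Ico_union_Ico_eq_Ico hβ hβm.le]
      refine (setIntegral_congr_set ?_)
      rw [e2, union_comm]
      refine union_ae_eq_left_of_ae_eq_empty (ae_eq_empty.2 (measure_mono_null ?_ hnul))
      refine inter_subset_inter_right _ ?_
      intro r hr
      exact ⟨by linarith [hr.1], hr.2⟩
    rw [e1, vp, ← integral_Ico_eq_integral_Ioo]
    refine iso1_setIntegral_mono ?_ measurableSet_Ico inter_subset_right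
    intro r hr
    exact ⟨by linarith [hr.1], hr.2⟩
  have hvρ : v2 ≤ vp m ρ := htail ρ le_rfl hρm hnull
  obtain ⟨ρ2, hρ2, hρ2v⟩ := intermediate_value_Icc' hρm.le
    (hcont.mono (Icc_subset_Icc_left (by linarith)))
    (show v2 ∈ Icc (vp m m) (vp m ρ) from ⟨by rw [hvpm]; exact hv20.le, hvρ⟩)
  have hρ2m : ρ2 < m := by
    rcases hρ2.2.lt_or_eq with h | h
    · exact h
    · rw [h, hvpm] at hρ2v; linarith
  have hρ20 : 0 < ρ2 := by linarith [hρ2.1]
  have hhp : c < hp m ρ2 := by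
    have h5 := hle ρ2 hρ20.le
    rw [hρ2v] at h5
    have h6 : v2 * (ρ2 / (1 + ρ2)) ≤ hp m ρ2 := by
      rw [mul_div_assoc', div_le_iff₀ (by positivity), hp]
      calc v2 * ρ2 ≤ Wp m ρ2 * (1 + ρ2) * ρ2 := by gcongr
        _ = ρ2 * Wp m ρ2 * (1 + ρ2) := by ring
    have h7 : ρ / (1 + ρ) ≤ ρ2 / (1 + ρ2) := by
      rw [div_le_div_iff₀ (by positivity) (by positivity)]
      nlinarith [hρ2.1]
    rw [hfac] at hcv
    have h8 : v2 * (ρ / (1 + ρ)) ≤ v2 * (ρ2 / (1 + ρ2)) := by gcongr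
    linarith
  -- a slightly larger radius
  obtain ⟨β, hβ1, hβm, hβc⟩ : ∃ β, ρ2 < β ∧ β < m ∧ c < hp m β := by
    have h5 : ∀ᶠ β in 𝓝[>] ρ2, c < hp m β :=
      ((iso1_hp_continuous m).continuousAt.eventually (lt_mem_nhds hhp)).filter_mono
        nhdsWithin_le_nhds
    have h6 : ∀ᶠ β : ℝ in 𝓝[>] ρ2, β < m :=
      (gt_mem_nhds hρ2m).filter_mono nhdsWithin_le_nhds
    obtain ⟨β, h7, h8, h9⟩ := (h5.and (h6.and self_mem_nhdsWithin)).exists
    exact ⟨β, h9, h8, h7⟩
  have hnul : volume (A ∩ Ioo (3 / 2) β) = 0 := by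
    by_contra hne
    have hpos : 0 < volume (A ∩ Ioo (3 / 2) β) := pos_iff_ne_zero.2 hne
    have h6 : 0 < volume (Ioo (3 / 2) β \ A) := by
      have e1 : volume (Ioo (3 / 2 : ℝ) ρ) ≤ volume (Ioo (3 / 2) β \ A) := by
        calc volume (Ioo (3 / 2 : ℝ) ρ) ≤
              volume ((A ∩ Ioo (3 / 2) ρ) ∪ (Ioo (3 / 2) β \ A)) := by
              refine measure_mono ?_
              intro r hr
              by_cases hrA : r ∈ A
              · exact Or.inl ⟨hrA, hr⟩
              · exact Or.inr ⟨⟨hr.1, by linarith [hr.2, hρ2.1]⟩, hrA⟩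
          _ ≤ volume (A ∩ Ioo (3 / 2) ρ) + volume (Ioo (3 / 2) β \ A) := measure_union_le _ _
          _ = volume (Ioo (3 / 2) β \ A) := by rw [hnull, zero_add]
      refine lt_of_lt_of_le ?_ e1
      rw [Real.volume_Ioo]
      simp; linarith
    have hpk : (m : ℝ) / (m + 1) ≤ 3 / 2 := by linarith [iso1_peak_lt_one m]
    have h7 := h3 m (3 / 2) β (hp m β) A hm (by norm_num) (by linarith [hρ2.1]) hβm hA hpos h6 (by
      intro r hr
      exact iso1_anti hm ⟨hpk.trans hr.1, hr.2.trans hβm.le⟩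
        ⟨hpk.trans (hr.1.trans hr.2), hβm.le⟩ hr.2)
    have h9 := h7.trans (iso1_p1_mono A le_rfl hβm.le)
    rw [hcp, ENNReal.ofReal_le_ofReal_iff hc0] at h9
    linarith
  have h10 := htail β (by linarith [hρ2.1]) hβm hnul
  have h11 : vp m β < vp m ρ2 :=
    hanti ⟨hρ20.le, hρ2m.le⟩ ⟨by linarith, hβm.le⟩ hβ1
  linarith

/-! ## The theorem -/

theorem iso1 (h1 : Stmt_Prof) (h2 : Stmt_ProfLim) (h3 : Stmt_Cross) (h4 : Stmt_P1add) :
    Stmt_Iso1 := by
  obtain ⟨hW, hV⟩ := h2
  have he : Real.exp (-2) > 1 / 9 := by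
    rw [Real.exp_neg]
    have h5 : Real.exp 2 < 9 := by
      have h6 : Real.exp 2 = Real.exp 1 * Real.exp 1 := by
        rw [← Real.exp_add]; norm_num
      rw [h6]
      nlinarith [Real.exp_one_lt_d9, Real.exp_pos 1]
    rw [gt_iff_lt, one_div]
    exact inv_strictAnti₀ (Real.exp_pos 2) h5
  have ev1 : ∀ᶠ m : ℕ in atTop, 1 / 9 < Wp m 2 := (hW 2).eventually (lt_mem_nhds he)
  have ev2 : ∀ᶠ m : ℕ in atTop, 1 / 9 < vp m 2 := by
    refine (hV 2 (by norm_num)).eventually (lt_mem_nhds ?_)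
    nlinarith
  obtain ⟨m₀, hm₀⟩ := eventually_atTop.1 ((ev1.and ev2).and (eventually_ge_atTop 2))
  refine ⟨1 / 100, m₀, by norm_num, (hm₀ m₀ le_rfl).2, ?_⟩
  intro m hm A ρ hA hρ hρm hv hvρ
  obtain ⟨⟨hW2, hV2⟩, hm2⟩ := hm₀ m hm
  have hm2' : (2 : ℝ) ≤ m := by exact_mod_cast hm2
  obtain ⟨-, hcont, hanti, -, hle, -⟩ := h1 m hm2
  rcases hρm.lt_or_eq with hρm | rfl
  swap
  · simp [vp]
  have hρ2 : 2 < ρ := by
    by_contra hcon
    rw [not_lt] at hcon
    have := hanti.antitoneOn ⟨hρ.le, hρm.le⟩ ⟨by norm_num, hm2'⟩ hcon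
    linarith
  have hfac : 1 - 1 / (1 + ρ) = ρ / (1 + ρ) := by field_simp; ring
  -- the radius with the same weight
  have hpk0 : (0 : ℝ) < (m : ℝ) / (m + 1) := by positivity
  have hpk1 := iso1_peak_lt_one m
  have hhρ : 0 < hp m ρ := iso1_hp_pos hm2 hρ hρm
  obtain ⟨rs, hrs, hrsρ⟩ := intermediate_value_Icc hpk0.le (iso1_hp_continuous m).continuousOn
    (show hp m ρ ∈ Icc (hp m 0) (hp m ((m : ℝ) / (m + 1))) from
      ⟨by simpa [hp] using hhρ.le, iso1_anti hm2 ⟨le_rfl, by linarith⟩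
        ⟨by linarith, hρm.le⟩ (by linarith)⟩)
  have hrs0 : 0 < rs := by
    rcases hrs.1.lt_or_eq with h | h
    · exact h
    · rw [← h] at hrsρ
      simp only [hp, zero_mul] at hrsρ hhρ
      linarith
  have hmin : ∀ r ∈ Icc rs ρ, hp m ρ ≤ hp m r := fun r hr =>
    iso1_min hm2 hrs0.le hρm.le hr hrsρ.ge le_rfl
  rcases eq_or_ne (volume (A ∩ Ioo rs ρ)) 0 with hnull | hne
  · -- Case 2
    have hin := iso1_inner h3 hm2 hA hrs0 hrs.2 (by
      intro r hr
      rw [hrsρ]
      exact hmin r ⟨hr.1, by linarith [hr.2]⟩) (measure_mono_null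
        (inter_subset_inter_right _ (Ioo_subset_Ioo_right (by linarith))) hnull)
    have hout := iso1_outer h1 h3 hm2 hA hρ2 hρm (measure_mono_null
        (inter_subset_inter_right _ (Ioo_subset_Ioo_left (by linarith [hrs.2]))) hnull)
    have hadd := h4 m 0 (3 / 2) (3 / 2) m A hm2 le_rfl (by norm_num) le_rfl (by linarith)
      le_rfl hA
    refine le_trans ?_ ((add_le_add hin hout).trans hadd)
    set δ := ∫ r in A ∩ Ioc 0 rs, hp m r with hδ
    set v2 := ∫ r in A ∩ Ico ρ m, hp m r with hv2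
    have hδ0 : 0 ≤ δ := by
      refine setIntegral_nonneg (hA.inter measurableSet_Ioc) fun r hr => ?_
      exact iso1_hp_nonneg hr.2.1.le
    have hv20 : 0 ≤ v2 := by
      refine setIntegral_nonneg (hA.inter measurableSet_Ico) fun r hr => ?_
      exact iso1_hp_nonneg (by linarith [hr.2.1])
    have hsum : vp m ρ = δ + v2 := by
      rw [hvρ]
      have e1 : A ∩ Ioo 0 (m : ℝ) = ((A ∩ Ioc 0 rs) ∪ (A ∩ Ico ρ m)) ∪ (A ∩ Ioo rs ρ) := by
        rw [← inter_union_distrib_left, ← inter_union_distrib_left]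
        congr 1
        ext r
        simp only [mem_Ioo, mem_union, mem_Ioc, mem_Ico]
        constructor
        · rintro ⟨h5, h6⟩
          rcases le_or_gt r rs with h7 | h7
          · exact Or.inl (Or.inl ⟨h5, h7⟩)
          · rcases lt_or_ge r ρ with h8 | h8
            · exact Or.inr ⟨h7, h8⟩
            · exact Or.inl (Or.inr ⟨h8, h6⟩)
        · rintro ((⟨h5, h6⟩ | ⟨h5, h6⟩) | ⟨h5, h6⟩)
          · exact ⟨h5, by linarith [hrs.2]⟩
          · exact ⟨by linarith, h6⟩
          · exact ⟨by linarith, by linarith⟩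
      have e2 : ∫ r in A ∩ Ioo 0 (m : ℝ), hp m r =
          ∫ r in (A ∩ Ioc 0 rs) ∪ (A ∩ Ico ρ m), hp m r := by
        refine setIntegral_congr_set ?_
        rw [e1]
        exact union_ae_eq_left_of_ae_eq_empty (ae_eq_empty.2 hnull)
      rw [e2, setIntegral_union ?_ (hA.inter measurableSet_Ico)]
      · exact iso1_integrableOn (inter_subset_right.trans Ioc_subset_Icc_self)
      · exact iso1_integrableOn (inter_subset_right.trans Ico_subset_Icc_self)
      · rw [Set.disjoint_left]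
        rintro r ⟨-, h5⟩ ⟨-, h6⟩
        linarith [h5.2, h6.1, hrs.2]
    rw [← ENNReal.ofReal_add hδ0 (mul_nonneg hv20 (by rw [hfac]; positivity))]
    refine ENNReal.ofReal_le_ofReal ?_
    rw [hsum, hfac]
    have : δ * (ρ / (1 + ρ)) ≤ δ := by
      refine mul_le_of_le_one_right hδ0 ?_
      rw [div_le_one (by positivity)]; linarith
    linarith
  · -- Case 1
    have hpos : 0 < volume (A ∩ Ioo rs ρ) := pos_iff_ne_zero.2 hne
    have hpos2 : 0 < volume (Ioo rs ρ \ A) := by
      rw [pos_iff_ne_zero]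
      intro h0
      have e1 : ∫ r in Ioo rs ρ, hp m r ≤ ∫ r in A ∩ Ioo 0 (m : ℝ), hp m r := by
        calc ∫ r in Ioo rs ρ, hp m r = ∫ r in A ∩ Ioo rs ρ, hp m r := by
              refine setIntegral_congr_set ?_
              have e2 : Ioo rs ρ = (A ∩ Ioo rs ρ) ∪ (Ioo rs ρ \ A) := by
                rw [inter_comm, inter_union_sdiff]
              conv_lhs => rw [e2]
              exact union_ae_eq_left_of_ae_eq_empty (ae_eq_empty.2 h0)
          _ ≤ _ := by
              refine iso1_setIntegral_mono inter_subset_right (hA.inter measurableSet_Ioo) ?_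
              refine inter_subset_inter_right _ ?_
              intro r hr
              exact ⟨by linarith [hr.1], by linarith [hr.2]⟩
      have e3 : hp m 2 ≤ ∫ r in Ioo rs ρ, hp m r := by
        calc hp m 2 = ∫ r in Ioo (1 : ℝ) 2, hp m 2 := by
              rw [setIntegral_const]
              norm_num [Measure.real]
          _ ≤ ∫ r in Ioo (1 : ℝ) 2, hp m r := by
              refine setIntegral_mono_on (integrableOn_const (by simp))
                (iso1_integrableOn Ioo_subset_Icc_self) measurableSet_Ioo fun r hr => ?_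
              exact iso1_anti hm2 ⟨by linarith [hr.1], by linarith [hr.2]⟩
                ⟨by linarith, hm2'⟩ hr.2.le
          _ ≤ ∫ r in Ioo rs ρ, hp m r := by
              refine iso1_setIntegral_mono ?_ measurableSet_Ioo ?_
              · intro r hr
                exact ⟨by linarith [hr.1], by linarith [hr.2]⟩
              · intro r hr
                exact ⟨by linarith [hr.1, hrs.2], by linarith [hr.2]⟩
      have e4 : hp m 2 = 2 * Wp m 2 := rfl
      linarith
    have h7 := h3 m rs ρ (hp m ρ) A hm2 hrs0 (by linarith [hrs.2]) hρm hA hpos hpos2 hmin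
    refine le_trans ?_ (h7.trans (iso1_p1_mono A hrs0.le hρm.le))
    refine ENNReal.ofReal_le_ofReal ?_
    rw [hfac, mul_div_assoc', div_le_iff₀ (by positivity), hp]
    calc vp m ρ * ρ ≤ Wp m ρ * (1 + ρ) * ρ := by
          gcongr
          exact hle ρ hρ.le
      _ = ρ * Wp m ρ * (1 + ρ) := by ring

end Pool.Agent.Lib.MP_c95dcf_gt
end

section

/-!
# MP_c95dcf_gt, B04: crude one dimensional isoperimetric inequality
-/

set_option autoImplicit false

open MeasureTheory Set Filter Topology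
open scoped ENNReal NNReal

namespace Pool.Agent.Lib.MP_c95dcf_gt

theorem iso1c_hp_le {m : ℕ} {r : ℝ} (hr : 0 ≤ r) : hp m r ≤ r := by
  have h1 : wp m r ≤ 1 := by
    unfold wp
    refine max_le zero_le_one ?_
    have : 0 ≤ r / m := by positivity
    linarith
  have h2 : Wp m r ≤ 1 := pow_le_one₀ (le_max_left _ _) h1
  calc hp m r = r * Wp m r := rfl
    _ ≤ r * 1 := by gcongr
    _ = r := mul_one r

theorem iso1c (h1 : Stmt_Prof) (h2 : Stmt_ProfLim) (h3 : Stmt_Cross) (_h4 : Stmt_P1add) :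
    Stmt_Iso1c := by
  intro v₁ hv₁
  obtain ⟨hW, hV⟩ := h2
  -- the two radii
  set e : ℝ := min (v₁ / 4) (1 / 40) with he
  have he0 : 0 < e := lt_min (by positivity) (by norm_num)
  have he1 : e ≤ v₁ / 4 := min_le_left _ _
  have he2 : e ≤ 1 / 40 := min_le_right _ _
  set ra : ℝ := e with hra
  have hlim : Tendsto (fun r : ℝ => (1 + r) * Real.exp (-r)) atTop (𝓝 0) := by
    have t1 := Real.tendsto_pow_mul_exp_neg_atTop_nhds_zero 0
    have t2 := Real.tendsto_pow_mul_exp_neg_atTop_nhds_zero 1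
    have t3 := t1.add t2
    simp only [pow_zero, pow_one, add_zero] at t3
    refine t3.congr fun r => ?_
    ring
  obtain ⟨rb, hrb1, hrbe⟩ : ∃ rb : ℝ, 2 ≤ rb ∧ (1 + rb) * Real.exp (-rb) < e :=
    ((eventually_ge_atTop (2 : ℝ)).and (hlim.eventually (gt_mem_nhds he0))).exists
  have hra0 : 0 < ra := he0
  have hrb0 : 0 < rb := by linarith
  have hra1 : ra < 1 := by rw [hra]; linarith
  set ca : ℝ := ra * Real.exp (-ra) / 2 with hca
  set cb : ℝ := rb * Real.exp (-rb) / 2 with hcb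
  have hca0 : 0 < ca := by positivity
  have hcb0 : 0 < cb := by positivity
  have ev1 : ∀ᶠ m : ℕ in atTop, ca < hp m ra := by
    have : Tendsto (fun m : ℕ => hp m ra) atTop (𝓝 (ra * Real.exp (-ra))) :=
      (hW ra).const_mul ra
    refine this.eventually (lt_mem_nhds ?_)
    rw [hca]
    have : 0 < ra * Real.exp (-ra) := by positivity
    linarith
  have ev2 : ∀ᶠ m : ℕ in atTop, cb < hp m rb := by
    have : Tendsto (fun m : ℕ => hp m rb) atTop (𝓝 (rb * Real.exp (-rb))) :=
      (hW rb).const_mul rb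
    refine this.eventually (lt_mem_nhds ?_)
    rw [hcb]
    have : 0 < rb * Real.exp (-rb) := by positivity
    linarith
  have ev3 : ∀ᶠ m : ℕ in atTop, vp m rb < e :=
    (hV rb hrb0.le).eventually (gt_mem_nhds hrbe)
  have ev4 : ∀ᶠ m : ℕ in atTop, 1 / 2 < vp m 0 := by
    refine (hV 0 le_rfl).eventually (lt_mem_nhds ?_)
    norm_num
  have ev5 : ∀ᶠ m : ℕ in atTop, rb < m := tendsto_natCast_atTop_atTop.eventually_gt_atTop rb
  obtain ⟨m₀, hm₀⟩ := eventually_atTop.1 ((ev1.and ev2).and ((ev3.and ev4).and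
    (ev5.and (eventually_ge_atTop 2))))
  refine ⟨min ca cb, m₀, lt_min hca0 hcb0, (hm₀ m₀ le_rfl).2.2.2, ?_⟩
  intro m hm A hA hAv hAu
  obtain ⟨⟨hma, hmb⟩, ⟨hmv, hm0⟩, hrbm, hm2⟩ := hm₀ m hm
  have hm2' : (2 : ℝ) ≤ m := by exact_mod_cast hm2
  -- the outside mass
  have hinner : ∫ r in Ioc 0 ra, hp m r ≤ e := by
    calc ∫ r in Ioc 0 ra, hp m r ≤ ∫ r in Ioc 0 ra, (1 : ℝ) := by
          refine setIntegral_mono_on (iso1_integrableOn Ioc_subset_Icc_self)
            (integrableOn_const (by simp)) measurableSet_Ioc fun r hr => ?_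
          have := iso1c_hp_le (m := m) hr.1.le
          linarith [hr.2]
      _ = e := by
          rw [setIntegral_const]
          simp [Measure.real, hra]
          exact he0.le
  have houter : ∫ r in Ico rb m, hp m r ≤ e := by
    rw [integral_Ico_eq_integral_Ioo]
    exact hmv.le
  have hsplit : ∀ B : Set ℝ, MeasurableSet B →
      ∫ r in B ∩ Ioo 0 (m : ℝ), hp m r ≤ (∫ r in B ∩ Ioo ra rb, hp m r) + 2 * e := by
    intro B hB
    have e1 : B ∩ Ioo 0 (m : ℝ) = (B ∩ Ioo ra rb) ∪ ((B ∩ Ioc 0 ra) ∪ (B ∩ Ico rb m)) := by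
      rw [← inter_union_distrib_left, ← inter_union_distrib_left]
      congr 1
      ext r
      simp only [mem_Ioo, mem_union, mem_Ioc, mem_Ico]
      constructor
      · rintro ⟨h5, h6⟩
        rcases le_or_gt r ra with h7 | h7
        · exact Or.inr (Or.inl ⟨h5, h7⟩)
        · rcases lt_or_ge r rb with h8 | h8
          · exact Or.inl ⟨h7, h8⟩
          · exact Or.inr (Or.inr ⟨h8, h6⟩)
      · rintro (⟨h5, h6⟩ | ⟨h5, h6⟩ | ⟨h5, h6⟩)
        · exact ⟨by linarith, by linarith⟩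
        · exact ⟨h5, by linarith⟩
        · exact ⟨by linarith, h6⟩
    have i1 : IntegrableOn (hp m) (B ∩ Ioo ra rb) :=
      iso1_integrableOn (inter_subset_right.trans Ioo_subset_Icc_self)
    have i2 : IntegrableOn (hp m) (B ∩ Ioc 0 ra) :=
      iso1_integrableOn (inter_subset_right.trans Ioc_subset_Icc_self)
    have i3 : IntegrableOn (hp m) (B ∩ Ico rb m) :=
      iso1_integrableOn (inter_subset_right.trans Ico_subset_Icc_self)
    rw [e1, setIntegral_union ?_ ((hB.inter measurableSet_Ioc).union (hB.inter measurableSet_Ico))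
      i1 (i2.union i3), setIntegral_union ?_ (hB.inter measurableSet_Ico) i2 i3]
    · have h5 : ∫ r in B ∩ Ioc 0 ra, hp m r ≤ e :=
        (iso1_setIntegral_mono (m := m) (S := B ∩ Ioc 0 ra) (T := Ioc 0 ra) (by
          intro r hr; exact ⟨hr.1, by linarith [hr.2]⟩) measurableSet_Ioc
          inter_subset_right).trans hinner
      have h6 : ∫ r in B ∩ Ico rb m, hp m r ≤ e :=
        (iso1_setIntegral_mono (m := m) (S := B ∩ Ico rb m) (T := Ico rb m) (by
          intro r hr; exact ⟨by linarith [hr.1], hr.2⟩) measurableSet_Ico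
          inter_subset_right).trans houter
      linarith
    · rw [Set.disjoint_left]
      rintro r ⟨-, h5⟩ ⟨-, h6⟩
      linarith [h5.2, h6.1]
    · rw [Set.disjoint_left]
      rintro r ⟨-, h5⟩ (⟨-, h6⟩ | ⟨-, h6⟩)
      · linarith [h5.1, h6.2]
      · linarith [h5.2, h6.1]
  have hpos1 : 0 < volume (A ∩ Ioo ra rb) := by
    rw [pos_iff_ne_zero]
    intro h0
    have := hsplit A hA
    rw [setIntegral_measure_zero _ h0] at this
    linarith
  have hpos2 : 0 < volume (Ioo ra rb \ A) := by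
    rw [pos_iff_ne_zero]
    intro h0
    have h5 := hsplit Aᶜ hA.compl
    have e2 : Aᶜ ∩ Ioo ra rb = Ioo ra rb \ A := by
      rw [inter_comm, Set.sdiff_eq]
    rw [e2, setIntegral_measure_zero _ h0] at h5
    have h6 : vp m 0 = (∫ r in A ∩ Ioo 0 (m : ℝ), hp m r) + ∫ r in Aᶜ ∩ Ioo 0 (m : ℝ), hp m r := by
      have e3 : Aᶜ ∩ Ioo 0 (m : ℝ) = Ioo 0 (m : ℝ) \ A := by
        rw [inter_comm, Set.sdiff_eq]
      rw [vp, e3, inter_comm A, integral_inter_add_sdiff hA
        (iso1_integrableOn Ioo_subset_Icc_self)]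
    linarith
  have h7 := h3 m ra rb (min ca cb) A hm2 hra0 (by linarith) hrbm hA hpos1 hpos2 (by
    intro r hr
    refine iso1_min hm2 hra0.le hrbm.le hr ?_ ?_
    · exact (min_le_left _ _).trans hma.le
    · exact (min_le_right _ _).trans hmb.le)
  exact h7.trans (iso1_p1_mono A hra0.le hrbm.le)

end Pool.Agent.Lib.MP_c95dcf_gt
end
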