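import Pool.Agent.Lib.MP_c95dcf_gt.GStmts

section

/-!
# MP_c95dcf_gt, task G27: the isodiametric inequality
-/

set_option autoImplicit false

open MeasureTheory Set Filter Topology
open scoped ENNReal NNReal RealInnerProductSpace

namespace Pool.Agent.Lib.MP_c95dcf_gt

/-- The isodiametric inequality for compact sets. -/
lemma isodiam_compact (h : Stmt_PL) (d : ℕ) {A : Set (E d)} (hA : IsCompact A) :
    volume A ≤ om d * (Metric.ediam A / 2) ^ d := by
  have hfin : Metric.ediam A ≠ ∞ := hA.isBounded.ediam_ne_top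
  set r : ℝ := Metric.diam A / 2 with hr
  have hr0 : 0 ≤ r := by
    rw [hr]
    have := Metric.diam_nonneg (s := A)
    positivity
  have hball : volume (Metric.closedBall (0 : E d) r) = om d * (Metric.ediam A / 2) ^ d := by
    rw [Measure.addHaar_closedBall _ _ hr0, mul_comm, om]
    congr 1
    rw [finrank_euclideanSpace_fin, ENNReal.ofReal_pow hr0, hr, Metric.diam,
      ENNReal.ofReal_div_of_pos (by norm_num), ENNReal.ofReal_toReal hfin]
    norm_num
  rw [← hball]
  have hA' : MeasurableSet A := hA.measurableSet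
  have hnA : MeasurableSet (-A) := hA'.neg
  have hB : MeasurableSet (Metric.closedBall (0 : E d) r) := Metric.isClosed_closedBall.measurableSet
  have key := h d (A.indicator 1) ((-A).indicator 1) ((Metric.closedBall (0 : E d) r).indicator 1)
    (measurable_one.indicator hA') (measurable_one.indicator hnA) (measurable_one.indicator hB)
    (by
      intro x y
      by_cases hx : x ∈ A
      · by_cases hy : y ∈ -A
        · have hmem : (1 / 2 : ℝ) • (x + y) ∈ Metric.closedBall (0 : E d) r := by
            rw [mem_closedBall_zero_iff, norm_smul]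
            have h1 : ‖x + y‖ ≤ Metric.diam A := by
              have h2 : dist x (-y) ≤ Metric.diam A :=
                Metric.dist_le_diam_of_mem hA.isBounded hx (by simpa using hy)
              rwa [dist_eq_norm, sub_neg_eq_add] at h2
            rw [Real.norm_of_nonneg (by norm_num), hr]
            linarith
          rw [indicator_of_mem hx, indicator_of_mem hy, indicator_of_mem hmem]
          simp
        · simp [indicator_of_notMem hy]
      · simp [indicator_of_notMem hx])
  rw [lintegral_indicator_one hA', lintegral_indicator_one hnA, lintegral_indicator_one hB,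
    Measure.measure_neg, ← sq] at key
  by_contra hc
  push Not at hc
  exact absurd key (not_le.2 (ENNReal.pow_lt_pow_left (by norm_num) hc))

theorem isodiam (h : Stmt_PL) : Stmt_Isodiam := by
  intro d A
  rcases A.eq_empty_or_nonempty with rfl | hA
  · simp
  by_cases hb : Metric.ediam A = ∞
  · have hd : d ≠ 0 := by
      rintro rfl
      have : Metric.ediam A = 0 := Metric.ediam_subsingleton (fun x _ y _ => Subsingleton.elim _ _)
      rw [this] at hb
      exact absurd hb (by simp)
    rw [hb, ENNReal.top_div_of_ne_top (by norm_num), ENNReal.top_pow hd, ENNReal.mul_top]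
    · exact le_top
    · exact (Metric.measure_ball_pos volume _ (by norm_num)).ne'
  · have hbd : Bornology.IsBounded A := Metric.isBounded_iff_ediam_ne_top.2 hb
    have hc : IsCompact (closure A) := hbd.isCompact_closure
    calc volume A ≤ volume (closure A) := measure_mono subset_closure
      _ ≤ om d * (Metric.ediam (closure A) / 2) ^ d := isodiam_compact h d hc
      _ = om d * (Metric.ediam A / 2) ^ d := by rw [Metric.ediam_closure]

end Pool.Agent.Lib.MP_c95dcf_gt
end

section

set_option autoImplicit false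

open MeasureTheory Set Filter Topology
open scoped ENNReal NNReal RealInnerProductSpace

namespace Pool.Agent.Lib.MP_c95dcf_gt

theorem lineLemma_hasDerivAt {F : Set ℝ} {φ : ℝ → ℝ} (hφ : ContDiff ℝ 1 φ) {t : ℝ}
    (ht : t ∉ frontier F ∨ t ∉ tsupport φ) :
    HasDerivAt (F.indicator φ) (F.indicator (deriv φ) t) t := by
  have hd : HasDerivAt φ (deriv φ t) t := (hφ.differentiable one_ne_zero t).hasDerivAt
  by_cases hts : t ∈ tsupport φ
  · have hfr : t ∉ frontier F := ht.resolve_right (not_not.mpr hts)
    by_cases hin : t ∈ interior F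
    · have h1 : F.indicator φ =ᶠ[𝓝 t] φ := by
        filter_upwards [mem_interior_iff_mem_nhds.mp hin] with u hu
        exact indicator_of_mem hu φ
      rw [indicator_of_mem (interior_subset hin)]
      exact hd.congr_of_eventuallyEq h1
    · have hcl : t ∈ (closure F)ᶜ := by
        intro hcl
        exact hfr ⟨hcl, hin⟩
      rw [← interior_compl] at hcl
      have h1 : F.indicator φ =ᶠ[𝓝 t] fun _ => (0 : ℝ) := by
        filter_upwards [mem_interior_iff_mem_nhds.mp hcl] with u hu
        exact indicator_of_notMem hu φ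
      rw [indicator_of_notMem (interior_subset hcl)]
      exact (hasDerivAt_const t (0 : ℝ)).congr_of_eventuallyEq h1
  · have h0 : φ =ᶠ[𝓝 t] 0 := notMem_tsupport_iff_eventuallyEq.mp hts
    have h1 : F.indicator φ =ᶠ[𝓝 t] fun _ => (0 : ℝ) := by
      filter_upwards [h0] with u hu
      by_cases huF : u ∈ F
      · rw [indicator_of_mem huF, hu]; rfl
      · rw [indicator_of_notMem huF]
    have h2 : deriv φ t = 0 := by
      rw [h0.deriv_eq]
      simp
    have h3 : F.indicator (deriv φ) t = 0 := by
      by_cases htF : t ∈ F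
      · rw [indicator_of_mem htF, h2]
      · rw [indicator_of_notMem htF]
    rw [h3]
    exact (hasDerivAt_const t (0 : ℝ)).congr_of_eventuallyEq h1

theorem lineLemma_integrable {F : Set ℝ} (hF : MeasurableSet F) {φ : ℝ → ℝ}
    (hφ : ContDiff ℝ 1 φ) (p q : ℝ) :
    IntervalIntegrable (F.indicator (deriv φ)) volume p q := by
  have hc : Continuous (deriv φ) := hφ.continuous_deriv le_rfl
  have h := hc.intervalIntegrable (μ := volume) p q
  exact ⟨h.1.indicator hF, h.2.indicator hF⟩

theorem lineLemma_ftc {F : Set ℝ} (hF : MeasurableSet F) {φ : ℝ → ℝ} (hφ : ContDiff ℝ 1 φ)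
    {p q : ℝ} (hpq : p ≤ q) (h : ∀ t ∈ Icc p q, t ∉ frontier F ∨ t ∉ tsupport φ) :
    ∫ t in p..q, F.indicator (deriv φ) t = F.indicator φ q - F.indicator φ p := by
  apply intervalIntegral.integral_eq_sub_of_hasDerivAt
  · intro t ht
    rw [uIcc_of_le hpq] at ht
    exact lineLemma_hasDerivAt hφ (h t ht)
  · exact lineLemma_integrable hF hφ p q

theorem lineLemma_step {F : Set ℝ} (hF : MeasurableSet F) {φ : ℝ → ℝ} (hφ : ContDiff ℝ 1 φ)
    {M : ℝ} (hM : ∀ t, |deriv φ t| ≤ M) {a b s y z x p : ℝ} (hab : a ≤ b)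
    (hs : ∀ t ∈ Icc a b, |φ t| ≤ s) (hy : y < a) (hz : b < z) (hzx : z ≤ x)
    (hfr : ∀ t ∈ Icc z x, t ∉ frontier F ∨ t ∉ tsupport φ) :
    |(∫ t in p..x, F.indicator (deriv φ) t) - F.indicator φ x| ≤
      |(∫ t in p..y, F.indicator (deriv φ) t) - F.indicator φ y| + (s + 2 * M * (z - y)) := by
  have hM0 : 0 ≤ M := (abs_nonneg _).trans (hM 0)
  have hlip : ∀ u v : ℝ, |φ u - φ v| ≤ M * |u - v| := by
    intro u v
    have := Convex.norm_image_sub_le_of_norm_deriv_le (𝕜 := ℝ) (f := φ) (C := M) (s := univ)
      (x := v) (y := u) (fun t _ => hφ.differentiable one_ne_zero t)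
      (fun t _ => by simpa using hM t) convex_univ (mem_univ _) (mem_univ _)
    simpa [Real.norm_eq_abs] using this
  have i1 := lineLemma_integrable hF hφ p y
  have i2 := lineLemma_integrable hF hφ y z
  have i3 := lineLemma_integrable hF hφ z x
  have e1 : ∫ t in p..x, F.indicator (deriv φ) t =
      (∫ t in p..y, F.indicator (deriv φ) t) + (∫ t in y..z, F.indicator (deriv φ) t) +
        (∫ t in z..x, F.indicator (deriv φ) t) := by
    rw [intervalIntegral.integral_add_adjacent_intervals i1 i2,
      intervalIntegral.integral_add_adjacent_intervals (i1.trans i2) i3]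
  have e2 := lineLemma_ftc hF hφ hzx hfr
  have b1 : |∫ t in y..z, F.indicator (deriv φ) t| ≤ M * (z - y) := by
    have h := intervalIntegral.norm_integral_le_of_norm_le_const (a := y) (b := z) (C := M)
      (f := F.indicator (deriv φ)) (fun t _ => by
        by_cases htF : t ∈ F
        · rw [indicator_of_mem htF]; simpa using hM t
        · rw [indicator_of_notMem htF]; simpa using hM0)
    rw [abs_of_nonneg (by linarith : (0 : ℝ) ≤ z - y)] at h
    simpa using h
  have hφy : |φ y| ≤ s + M * (z - y) := by
    have h1 := hlip y a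
    have h2 := hs a ⟨le_rfl, hab⟩
    have h3 : |y - a| = a - y := by rw [abs_sub_comm, abs_of_nonneg (by linarith)]
    rw [h3] at h1
    have h4 : |φ y| ≤ |φ y - φ a| + |φ a| := by
      have := abs_add_le (φ y - φ a) (φ a)
      simpa using this
    have h5 : M * (a - y) ≤ M * (z - y) := by
      apply mul_le_mul_of_nonneg_left _ hM0
      linarith
    linarith
  have hφz : |φ z| ≤ s + M * (z - y) := by
    have h1 := hlip z b
    have h2 := hs b ⟨hab, le_rfl⟩
    have h3 : |z - b| = z - b := abs_of_nonneg (by linarith)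
    rw [h3] at h1
    have h4 : |φ z| ≤ |φ z - φ b| + |φ b| := by
      have := abs_add_le (φ z - φ b) (φ b)
      simpa using this
    have h5 : M * (z - b) ≤ M * (z - y) := by
      apply mul_le_mul_of_nonneg_left _ hM0
      linarith
    linarith
  have hs0 : 0 ≤ s := (abs_nonneg _).trans (hs a ⟨le_rfl, hab⟩)
  have hzy : |φ z - φ y| ≤ s + M * (z - y) := by
    have h1 := hlip z y
    rw [abs_of_nonneg (by linarith : (0 : ℝ) ≤ z - y)] at h1
    linarith
  have hpos : 0 ≤ s + M * (z - y) := (abs_nonneg _).trans hφy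
  have b2 : |F.indicator φ z - F.indicator φ y| ≤ s + M * (z - y) := by
    by_cases h1 : z ∈ F <;> by_cases h2 : y ∈ F
    · rw [indicator_of_mem h1, indicator_of_mem h2]; exact hzy
    · rw [indicator_of_mem h1, indicator_of_notMem h2]; simpa using hφz
    · rw [indicator_of_notMem h1, indicator_of_mem h2]; simpa using hφy
    · rw [indicator_of_notMem h1, indicator_of_notMem h2]; simpa using hpos
  have e3 : (∫ t in p..x, F.indicator (deriv φ) t) - F.indicator φ x =
      ((∫ t in p..y, F.indicator (deriv φ) t) - F.indicator φ y) +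
      (∫ t in y..z, F.indicator (deriv φ) t) - (F.indicator φ z - F.indicator φ y) := by
    rw [e1, e2]; ring
  rw [e3]
  calc _ ≤ |((∫ t in p..y, F.indicator (deriv φ) t) - F.indicator φ y) +
      (∫ t in y..z, F.indicator (deriv φ) t)| + |F.indicator φ z - F.indicator φ y| := abs_sub _ _
    _ ≤ |(∫ t in p..y, F.indicator (deriv φ) t) - F.indicator φ y| +
      |∫ t in y..z, F.indicator (deriv φ) t| + |F.indicator φ z - F.indicator φ y| := by
        gcongr; exact abs_add_le _ _
    _ ≤ _ := by linarith

/-- The data of an interval `[q.1, q.2.1]` with a bound `q.2.2`. -/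
theorem lineLemma_list {F : Set ℝ} (hF : MeasurableSet F) {φ : ℝ → ℝ} (hφ : ContDiff ℝ 1 φ)
    {M : ℝ} (hM : ∀ t, |deriv φ t| ≤ M) {p : ℝ} (hp : φ p = 0) (n : ℕ) :
    ∀ (l : List (ℝ × ℝ × ℝ)) (x : ℝ), l.length = n →
      (∀ q ∈ l, p < q.1 ∧ q.1 ≤ q.2.1 ∧ q.2.1 < x ∧ ∀ t ∈ Icc q.1 q.2.1, |φ t| ≤ q.2.2) →
      p ≤ x →
      (∀ t ∈ Icc p x, t ∈ frontier F → t ∈ tsupport φ → ∃ q ∈ l, t ∈ Icc q.1 q.2.1) →
      |(∫ t in p..x, F.indicator (deriv φ) t) - F.indicator φ x| ≤
        (l.map (fun q => q.2.2 + 2 * M * (q.2.1 - q.1))).sum := by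
  classical
  have hM0 : 0 ≤ M := (abs_nonneg _).trans (hM 0)
  have hp' : F.indicator φ p = 0 := by
    by_cases h : p ∈ F
    · rw [indicator_of_mem h, hp]
    · rw [indicator_of_notMem h]
  induction n with
  | zero =>
    intro l x hl _ hpx hfr
    have hl0 : l = [] := List.length_eq_zero_iff.mp hl
    subst hl0
    have := lineLemma_ftc hF hφ hpx (fun t ht => by
      by_contra hcon
      push Not at hcon
      obtain ⟨q, hq, _⟩ := hfr t ht hcon.1 hcon.2
      simp at hq)
    rw [this, hp']
    simp
  | succ n ih =>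
    intro l x hl hq hpx hfr
    have hne : l.toFinset.Nonempty := by
      rw [List.toFinset_nonempty_iff]
      rintro rfl
      simp at hl
    obtain ⟨c, hc, hmax⟩ := l.toFinset.exists_max_image (fun q => q.2.1) hne
    rw [List.mem_toFinset] at hc
    have hmax' : ∀ q ∈ l, q.2.1 ≤ c.2.1 := fun q h => hmax q (List.mem_toFinset.mpr h)
    have hperm := List.perm_cons_erase hc
    set l' := l.erase c with hl'
    have hl'len : l'.length = n := by
      rw [hl', List.length_erase_of_mem hc, hl]; rfl
    have hmem : ∀ q, q ∈ l ↔ q = c ∨ q ∈ l' := fun q => by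
      rw [hperm.mem_iff, List.mem_cons]
    have hsum : (l.map (fun q => q.2.2 + 2 * M * (q.2.1 - q.1))).sum =
        (c.2.2 + 2 * M * (c.2.1 - c.1)) + (l'.map (fun q => q.2.2 + 2 * M * (q.2.1 - q.1))).sum := by
      rw [(hperm.map _).sum_eq, List.map_cons, List.sum_cons]
    rw [hsum]
    obtain ⟨hc1, hc2, hc3, hc4⟩ := hq c hc
    by_cases hcase : ∃ j ∈ l', c.1 ≤ j.2.1
    · obtain ⟨j, hj, hcj⟩ := hcase
      have hjl : j ∈ l := (hmem j).mpr (Or.inr hj)
      obtain ⟨hj1, hj2, hj3, hj4⟩ := hq j hjl
      have hjc := hmax' j hjl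
      have hperm2 := List.perm_cons_erase hj
      set l2 := l'.erase j with hl2
      have hl2len : l2.length + 1 = n := by
        rw [hl2, List.length_erase_of_mem hj, hl'len]
        have : 0 < l'.length := List.length_pos_of_mem hj
        omega
      have hsum2 : (l'.map (fun q => q.2.2 + 2 * M * (q.2.1 - q.1))).sum =
          (j.2.2 + 2 * M * (j.2.1 - j.1)) +
            (l2.map (fun q => q.2.2 + 2 * M * (q.2.1 - q.1))).sum := by
        rw [(hperm2.map _).sum_eq, List.map_cons, List.sum_cons]
      have hmem2 : ∀ q, q ∈ l' ↔ q = j ∨ q ∈ l2 := fun q => by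
        rw [hperm2.mem_iff, List.mem_cons]
      have key := ih ((min c.1 j.1, c.2.1, max c.2.2 j.2.2) :: l2) x
        (by rw [List.length_cons]; exact hl2len)
        (by
          intro q hqm
          rcases List.mem_cons.mp hqm with rfl | hqm
          · refine ⟨lt_min hc1 hj1, (min_le_left _ _).trans hc2, hc3, ?_⟩
            intro t ht
            simp only at ht
            by_cases htc : c.1 ≤ t
            · exact (hc4 t ⟨htc, ht.2⟩).trans (le_max_left _ _)
            · push Not at htc
              refine (hj4 t ⟨?_, by linarith⟩).trans (le_max_right _ _)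
              rcases min_le_iff.mp ht.1 with h | h
              · linarith
              · exact h
          · exact hq q ((hmem q).mpr (Or.inr ((hmem2 q).mpr (Or.inr hqm)))))
        hpx
        (by
          intro t ht h1 h2
          obtain ⟨q, hq1, hq2⟩ := hfr t ht h1 h2
          rcases (hmem q).mp hq1 with rfl | hq1
          · exact ⟨_, List.mem_cons_self, ⟨(min_le_left _ _).trans hq2.1, hq2.2⟩⟩
          · rcases (hmem2 q).mp hq1 with rfl | hq1
            · exact ⟨_, List.mem_cons_self, ⟨(min_le_right _ _).trans hq2.1, hq2.2.trans hjc⟩⟩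
            · exact ⟨q, List.mem_cons_of_mem _ hq1, hq2⟩)
      rw [List.map_cons, List.sum_cons] at key
      rw [hsum2]
      have hcs : 0 ≤ c.2.2 := (abs_nonneg _).trans (hc4 c.1 ⟨le_rfl, hc2⟩)
      have hjs : 0 ≤ j.2.2 := (abs_nonneg _).trans (hj4 j.1 ⟨le_rfl, hj2⟩)
      have h1 : max c.2.2 j.2.2 ≤ c.2.2 + j.2.2 := max_le (by linarith) (by linarith)
      have h2 : c.2.1 - min c.1 j.1 ≤ (c.2.1 - c.1) + (j.2.1 - j.1) := by
        rcases min_choice c.1 j.1 with h | h <;> rw [h] <;> linarith
      have h3 : 2 * M * (c.2.1 - min c.1 j.1) ≤ 2 * M * ((c.2.1 - c.1) + (j.2.1 - j.1)) :=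
        mul_le_mul_of_nonneg_left h2 (by linarith)
      simp only at key
      have h4 : 2 * M * ((c.2.1 - c.1) + (j.2.1 - j.1)) =
        2 * M * (c.2.1 - c.1) + 2 * M * (j.2.1 - j.1) := by ring
      linarith
    · push Not at hcase
      have hy1 : ∀ᶠ y in 𝓝[<] c.1, p < y ∧ (∀ q ∈ l', q.2.1 < y) ∧ y < c.1 := by
        have h1 : ∀ᶠ y in 𝓝[<] c.1, p < y := (eventually_gt_nhds hc1).filter_mono nhdsWithin_le_nhds
        have h2 : ∀ᶠ y in 𝓝[<] c.1, ∀ q ∈ l'.toFinset, q.2.1 < y := by
          rw [Finset.eventually_all]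
          intro q hq'
          exact (eventually_gt_nhds (hcase q (List.mem_toFinset.mp hq'))).filter_mono
            nhdsWithin_le_nhds
        have h3 : ∀ᶠ y in 𝓝[<] c.1, y < c.1 := eventually_mem_nhdsWithin
        filter_upwards [h1, h2, h3] with y hy1 hy2 hy3
        exact ⟨hy1, fun q hq' => hy2 q (List.mem_toFinset.mpr hq'), hy3⟩
      have hz1 : ∀ᶠ z in 𝓝[>] c.2.1, z < x ∧ c.2.1 < z := by
        have h1 : ∀ᶠ z in 𝓝[>] c.2.1, z < x := (eventually_lt_nhds hc3).filter_mono nhdsWithin_le_nhds
        have h3 : ∀ᶠ z in 𝓝[>] c.2.1, c.2.1 < z := eventually_mem_nhdsWithin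
        exact h1.and h3
      have main : ∀ᶠ y in 𝓝[<] c.1, ∀ᶠ z in 𝓝[>] c.2.1,
          |(∫ t in p..x, F.indicator (deriv φ) t) - F.indicator φ x| ≤
          (l'.map (fun q => q.2.2 + 2 * M * (q.2.1 - q.1))).sum + (c.2.2 + 2 * M * (z - y)) := by
        filter_upwards [hy1] with y hy
        filter_upwards [hz1] with z hz
        have hIH := ih l' y hl'len
          (fun q hq' => by
            obtain ⟨h1, h2, _, h4⟩ := hq q ((hmem q).mpr (Or.inr hq'))
            exact ⟨h1, h2, hy.2.1 q hq', h4⟩)
          hy.1.le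
          (fun t ht h1 h2 => by
            obtain ⟨q, hq1, hq2⟩ := hfr t ⟨ht.1, by linarith [ht.2, hy.2.2]⟩ h1 h2
            rcases (hmem q).mp hq1 with rfl | hq1
            · exact absurd hq2.1 (by linarith [ht.2, hy.2.2])
            · exact ⟨q, hq1, hq2⟩)
        have hst := lineLemma_step (p := p) hF hφ hM hc2 hc4 hy.2.2 hz.2 hz.1.le
          (fun t ht => by
            by_contra hcon
            push Not at hcon
            obtain ⟨q, hq1, hq2⟩ := hfr t ⟨by linarith [ht.1, hz.2], ht.2⟩ hcon.1 hcon.2
            have := hmax' q hq1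
            linarith [hq2.2, ht.1, hz.2])
        linarith
      have lim1 : ∀ᶠ y in 𝓝[<] c.1,
          |(∫ t in p..x, F.indicator (deriv φ) t) - F.indicator φ x| ≤
          (l'.map (fun q => q.2.2 + 2 * M * (q.2.1 - q.1))).sum +
            (c.2.2 + 2 * M * (c.2.1 - y)) := by
        filter_upwards [main] with y hy
        refine ge_of_tendsto (x := 𝓝[>] c.2.1) ?_ hy
        refine tendsto_nhdsWithin_of_tendsto_nhds ?_
        exact (by fun_prop : Continuous fun z : ℝ =>
          (l'.map (fun q => q.2.2 + 2 * M * (q.2.1 - q.1))).sum +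
            (c.2.2 + 2 * M * (z - y))).tendsto _
      have lim2 : |(∫ t in p..x, F.indicator (deriv φ) t) - F.indicator φ x| ≤
          (l'.map (fun q => q.2.2 + 2 * M * (q.2.1 - q.1))).sum +
            (c.2.2 + 2 * M * (c.2.1 - c.1)) := by
        refine ge_of_tendsto (x := 𝓝[<] c.1) ?_ lim1
        refine tendsto_nhdsWithin_of_tendsto_nhds ?_
        exact (by fun_prop : Continuous fun y : ℝ =>
          (l'.map (fun q => q.2.2 + 2 * M * (q.2.1 - q.1))).sum +
            (c.2.2 + 2 * M * (c.2.1 - y))).tendsto _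
      linarith

theorem lineLemma : Stmt_LineLemma := by
  intro F φ N a b s M hF hφ hcomp hM hfr hs hab
  classical
  have hts : IsCompact (tsupport φ) := hcomp
  have hbd : Bornology.IsBounded (tsupport φ ∪ (range a ∪ range b)) :=
    hts.isBounded.union ((finite_range a).isBounded.union (finite_range b).isBounded)
  obtain ⟨R, hR⟩ := hbd.subset_closedBall 0
  have hmemR : ∀ t ∈ tsupport φ ∪ (range a ∪ range b), -(R + 1) < t ∧ t < R + 1 := by
    intro t ht
    have := hR ht
    rw [Metric.mem_closedBall, dist_zero_right, Real.norm_eq_abs, abs_le] at this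
    constructor <;> linarith
  have hout : ∀ t, (t ≤ -(R + 1) ∨ R + 1 ≤ t) → t ∉ tsupport φ := by
    intro t ht hmem
    have := hmemR t (Or.inl hmem)
    rcases ht with h | h <;> linarith
  have hφout : ∀ t, (t ≤ -(R + 1) ∨ R + 1 ≤ t) → φ t = 0 := fun t ht =>
    image_eq_zero_of_notMem_tsupport (hout t ht)
  by_cases hRpos : R + 1 < 0
  · -- the support is empty
    have h0 : φ = 0 := by
      funext t
      apply hφout
      rcases le_or_gt t (-(R + 1)) with h | h
      · exact Or.inl h
      · exact Or.inr (by linarith)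
    subst h0
    have hM0 : 0 ≤ M := (abs_nonneg _).trans (hM 0)
    have : ∀ i, 0 ≤ s i := fun i => (abs_nonneg _).trans (hs i (a i) ⟨le_rfl, hab i⟩)
    have h1 : (∫ t in F, deriv (0 : ℝ → ℝ) t) = 0 := by simp
    rw [h1, abs_zero]
    apply add_nonneg (Finset.sum_nonneg fun i _ => this i)
    apply mul_nonneg (by linarith) (Finset.sum_nonneg fun i _ => by linarith [hab i])
  · push Not at hRpos
    have hlist := lineLemma_list hF hφ hM (p := -(R + 1)) (hφout _ (Or.inl le_rfl)) N
      (List.ofFn fun i => (a i, b i, s i)) (R + 1) (by simp)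
      (by
        intro q hq
        rw [List.mem_ofFn] at hq
        obtain ⟨i, rfl⟩ := hq
        refine ⟨(hmemR (a i) (Or.inr (Or.inl ⟨i, rfl⟩))).1, hab i,
          (hmemR (b i) (Or.inr (Or.inr ⟨i, rfl⟩))).2, hs i⟩)
      (by linarith)
      (by
        intro t _ h1 h2
        obtain ⟨i, hi⟩ := mem_iUnion.mp (hfr ⟨h1, h2⟩)
        exact ⟨(a i, b i, s i), by rw [List.mem_ofFn]; exact ⟨i, rfl⟩, hi⟩)
    have hx0 : F.indicator φ (R + 1) = 0 := by
      by_cases h : R + 1 ∈ F
      · rw [indicator_of_mem h]; exact hφout _ (Or.inr le_rfl)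
      · rw [indicator_of_notMem h]
    rw [hx0, sub_zero] at hlist
    have hint : ∫ t in F, deriv φ t = ∫ t in (-(R + 1))..(R + 1), F.indicator (deriv φ) t := by
      rw [intervalIntegral.integral_of_le (by linarith), ← integral_indicator hF]
      symm
      apply setIntegral_eq_integral_of_forall_compl_eq_zero
      intro t ht
      by_cases h : t ∈ F
      · rw [indicator_of_mem h]
        have : t ∉ tsupport φ := by
          apply hout
          rw [mem_Ioc, not_and_or] at ht
          rcases ht with h | h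
          · left; linarith
          · right; linarith
        have h0 : φ =ᶠ[𝓝 t] 0 := notMem_tsupport_iff_eventuallyEq.mp this
        rw [h0.deriv_eq]; simp
      · rw [indicator_of_notMem h]
    rw [hint]
    refine hlist.trans (le_of_eq ?_)
    rw [List.map_ofFn, List.sum_ofFn]
    simp only [Function.comp_apply]
    rw [Finset.sum_add_distrib, Finset.mul_sum]

end Pool.Agent.Lib.MP_c95dcf_gt
end
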