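import Pool.Agent.Lib.MP_c95dcf_gt.GStmts
import Pool.Agent.Lib.MP_c95dcf_gt.Mg.G001

section

/-!
# MP_c95dcf_gt, task G22: Lebesgue points, and the perimeter measure is concentrated on `Sg`
-/

set_option autoImplicit false

open MeasureTheory Set Filter Topology
open scoped ENNReal NNReal RealInnerProductSpace

namespace Pool.Agent.Lib.MP_c95dcf_gt

/-- Open balls are increasing unions of closed balls. -/
theorem lebesgue_ball_eq {n : ℕ} (x : E n) (r : ℝ) (hr : 0 < r) :
    Metric.ball x r = ⋃ k : ℕ, Metric.closedBall x (r - r / (k + 2)) := by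
  ext y
  simp only [Metric.mem_ball, mem_iUnion, Metric.mem_closedBall]
  constructor
  · intro h
    have h1 : Tendsto (fun k : ℕ => r - r / ((k : ℝ) + 2)) atTop (𝓝 (r - 0)) := by
      refine tendsto_const_nhds.sub ?_
      exact Tendsto.div_atTop tendsto_const_nhds
        (tendsto_natCast_atTop_atTop.atTop_add tendsto_const_nhds)
    rw [sub_zero] at h1
    have h2 := h1.eventually (lt_mem_nhds h)
    obtain ⟨k, hk⟩ := h2.exists
    exact ⟨k, hk.le⟩
  · rintro ⟨k, hk⟩
    have : 0 < r / ((k : ℝ) + 2) := by positivity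
    linarith

theorem lebesgue_mono {n : ℕ} (x : E n) (r : ℝ) (hr : 0 < r) :
    Monotone fun k : ℕ => Metric.closedBall x (r - r / ((k : ℝ) + 2)) := by
  intro a b hab
  apply Metric.closedBall_subset_closedBall
  have hab' : (a : ℝ) ≤ b := by exact_mod_cast hab
  have : r / ((b : ℝ) + 2) ≤ r / ((a : ℝ) + 2) :=
    div_le_div_of_nonneg_left hr.le (by positivity) (by linarith)
  linarith

theorem lebesgue : Stmt_Lebesgue := by
  intro n μ ν hμ hν hν1
  have := hμ
  have hint : Integrable ν μ :=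
    Integrable.of_bound hν.aestronglyMeasurable 1 (Eventually.of_forall fun x => (hν1 x).le)
  filter_upwards [(Besicovitch.vitaliFamily μ).ae_tendsto_lintegral_enorm_sub_div_of_integrable
    hint] with x hx
  have h1 := hx.comp (Besicovitch.tendsto_filterAt μ x)
  rw [Metric.tendsto_nhds]
  intro ε hε
  have hpos : (0 : ℝ≥0∞) < ENNReal.ofReal (ε / 2) := by
    rw [ENNReal.ofReal_pos]
    positivity
  have h2 : ∀ᶠ r in 𝓝[>] (0 : ℝ), (∫⁻ y in Metric.closedBall x r, ‖ν y - ν x‖ₑ ∂μ) /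
      μ (Metric.closedBall x r) < ENNReal.ofReal (ε / 2) :=
    h1.eventually (gt_mem_nhds hpos)
  rw [(nhdsGT_basis (0 : ℝ)).eventually_iff] at h2 ⊢
  obtain ⟨δ, hδ, h2⟩ := h2
  refine ⟨δ, hδ, ?_⟩
  intro r hr
  have hr0 : 0 < r := hr.1
  have h3 : ∀ s ∈ Ioo (0 : ℝ) r, ∫⁻ y in Metric.closedBall x s, ‖ν y - ν x‖ₑ ∂μ ≤
      ENNReal.ofReal (ε / 2) * μ (Metric.ball x r) := by
    intro s hs
    have h4 := h2 ⟨hs.1, hs.2.trans hr.2⟩
    have h5 : ∫⁻ y in Metric.closedBall x s, ‖ν y - ν x‖ₑ ∂μ ≤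
        ENNReal.ofReal (ε / 2) * μ (Metric.closedBall x s) := by
      by_cases h0 : μ (Metric.closedBall x s) = 0
      · rw [Measure.restrict_eq_zero.mpr h0, lintegral_zero_measure]
        exact zero_le
      · exact (ENNReal.div_le_iff h0 (measure_ne_top μ _)).mp h4.le
    refine h5.trans (mul_le_mul_right ?_ _)
    exact measure_mono (Metric.closedBall_subset_ball hs.2)
  have h6 : ∫⁻ y in Metric.ball x r, ‖ν y - ν x‖ₑ ∂μ ≤
      ENNReal.ofReal (ε / 2) * μ (Metric.ball x r) := by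
    have h7 : ∫⁻ y in Metric.ball x r, ‖ν y - ν x‖ₑ ∂μ =
        (μ.withDensity fun y => ‖ν y - ν x‖ₑ) (Metric.ball x r) :=
      (withDensity_apply _ Metric.isOpen_ball.measurableSet).symm
    rw [h7, lebesgue_ball_eq x r hr0, (lebesgue_mono x r hr0).measure_iUnion]
    apply iSup_le
    intro k
    rw [withDensity_apply _ Metric.isClosed_closedBall.measurableSet,
      ← lebesgue_ball_eq x r hr0]
    apply h3
    have hk2 : (1 : ℝ) < (k : ℝ) + 2 := by have : (0:ℝ) ≤ (k:ℝ) := Nat.cast_nonneg k; linarith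
    constructor
    · have : r / ((k : ℝ) + 2) < r := div_lt_self hr0 hk2
      linarith
    · have : 0 < r / ((k : ℝ) + 2) := by positivity
      linarith
  have h8 : ∫ y in Metric.ball x r, ‖ν y - ν x‖ ∂μ ≤ (ε / 2) * (μ (Metric.ball x r)).toReal := by
    rw [integral_norm_eq_lintegral_enorm]
    · have h9 := ENNReal.toReal_mono (ENNReal.mul_ne_top ENNReal.ofReal_ne_top
        (measure_ne_top μ _)) h6
      rwa [ENNReal.toReal_mul, ENNReal.toReal_ofReal (by positivity)] at h9
    · exact (hν.sub_const _).aestronglyMeasurable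
  rw [Real.dist_eq, sub_zero, abs_of_nonneg]
  · refine lt_of_le_of_lt (div_le_of_le_mul₀ ENNReal.toReal_nonneg (by positivity) h8) ?_
    linarith
  · exact div_nonneg (integral_nonneg fun y => norm_nonneg _) ENNReal.toReal_nonneg

theorem lebesgue_int_dv {n : ℕ} {U : Set (E n)} {X : E n → E n} (hX : TF U X) :
    ∫ x, dv X x = 0 := by
  unfold dv
  have h1 : Continuous (fderiv ℝ X) := hX.diff.continuous_fderiv (by norm_num)
  have hcs : HasCompactSupport (fderiv ℝ X) := hX.comp.fderiv ℝ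
  have hcont : ∀ i : Fin n, Continuous fun x : E n =>
      (fderiv ℝ X x (EuclideanSpace.single i (1 : ℝ))) i := by
    intro i
    have h2 : Continuous fun x => (fderiv ℝ X x) (EuclideanSpace.single i (1 : ℝ)) :=
      h1.clm_apply continuous_const
    exact (EuclideanSpace.proj (𝕜 := ℝ) i).continuous.comp h2
  have hint : ∀ i : Fin n, Integrable fun x : E n =>
      (fderiv ℝ X x (EuclideanSpace.single i (1 : ℝ))) i := by
    intro i
    refine (hcont i).integrable_of_hasCompactSupport ?_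
    refine hcs.mono' ?_
    intro x hx
    apply subset_tsupport
    rw [Function.mem_support] at hx ⊢
    intro h
    apply hx
    simp [h]
  rw [integral_finsetSum _ fun i _ => hint i]
  apply Finset.sum_eq_zero
  intro i _
  have hdiff : ∀ x, DifferentiableAt ℝ X x := fun x => hX.diff.differentiable (by norm_num) x
  have hfd : ∀ x, fderiv ℝ (fun y => X y i) x = (EuclideanSpace.proj (𝕜 := ℝ) i).comp
      (fderiv ℝ X x) := by
    intro x
    exact ((EuclideanSpace.proj (𝕜 := ℝ) i).hasFDerivAt.comp x (hdiff x).hasFDerivAt).fderiv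
  have hXi : Continuous fun y => X y i :=
    (EuclideanSpace.proj (𝕜 := ℝ) i).continuous.comp hX.diff.continuous
  have hXc : HasCompactSupport fun y => X y i := by
    refine hX.comp.mono' ?_
    intro x hx
    apply subset_tsupport
    rw [Function.mem_support] at hx ⊢
    intro h
    apply hx
    simp [h]
  have key := integral_mul_fderiv_eq_neg_fderiv_mul_of_integrable (μ := volume)
    (f := fun _ : E n => (1 : ℝ)) (g := fun y => X y i) (v := EuclideanSpace.single i (1 : ℝ))
    ?_ ?_ ?_ ?_ ?_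
  · simp only [one_mul, hfd] at key
    simpa using key
  · simp
  · simp only [hfd, one_mul]
    exact hint i
  · simp only [one_mul]
    exact hXi.integrable_of_hasCompactSupport hXc
  · exact fun x _ => differentiableAt_const _
  · intro x _
    exact ((EuclideanSpace.proj (𝕜 := ℝ) i).hasFDerivAt.comp x
      (hdiff x).hasFDerivAt).differentiableAt

theorem sgFull : Stmt_SgFull := by
  intro n U A μ ν hU hA hP
  apply measure_null_of_locally_null
  intro x hx
  have hxU : x ∈ U := hx.1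
  have hx2 : ¬ ∀ s : ℝ, 0 < s → 0 < volume (A ∩ Metric.ball x s) ∧
      0 < volume (Metric.ball x s \ A) := fun h => hx.2 ⟨hxU, h⟩
  push Not at hx2
  obtain ⟨s, hs, hs2⟩ := hx2
  obtain ⟨t, ht, htU⟩ := Metric.isOpen_iff.mp hU x hxU
  have hst : 0 < min s t := lt_min hs ht
  refine ⟨Metric.ball x (min s t), mem_nhdsWithin_of_mem_nhds (Metric.ball_mem_nhds x hst), ?_⟩
  have hBU : Metric.ball x (min s t) ⊆ U :=
    (Metric.ball_subset_ball (min_le_right _ _)).trans htU
  have hBs : Metric.ball x (min s t) ⊆ Metric.ball x s :=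
    Metric.ball_subset_ball (min_le_left _ _)
  rw [hP.open_eq _ Metric.isOpen_ball hBU]
  rw [← nonpos_iff_eq_zero]
  refine iSup₂_le fun X hX => ?_
  rw [nonpos_iff_eq_zero, ENNReal.ofReal_eq_zero]
  have hsupp : ∀ y, y ∉ Metric.ball x (min s t) → dv X y = 0 := by
    intro y hy
    have : y ∉ tsupport X := fun h => hy (hX.1.supp h)
    have h2 : fderiv ℝ X y = 0 := by
      by_contra h3
      exact this (support_fderiv_subset ℝ h3)
    unfold dv
    simp [h2]
  by_cases h0 : volume (A ∩ Metric.ball x s) = 0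
  · have h1 : ∫ y in A, dv X y = ∫ y in A, (0 : ℝ) := by
      apply setIntegral_congr_ae hA
      have h2 : ∀ᵐ y, y ∉ A ∩ Metric.ball x s := measure_eq_zero_iff_ae_notMem.mp h0
      filter_upwards [h2] with y hy hyA
      apply hsupp
      intro hyB
      exact hy ⟨hyA, hBs hyB⟩
    rw [h1]
    simp
  · have h0' : volume (Metric.ball x s \ A) = 0 := by
      have := hs2 (pos_iff_ne_zero.mpr h0)
      exact nonpos_iff_eq_zero.mp this
    have h1 : ∫ y in A, dv X y = ∫ y, dv X y := by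
      rw [← integral_indicator hA]
      apply integral_congr_ae
      have h2 : ∀ᵐ y, y ∉ Metric.ball x s \ A := measure_eq_zero_iff_ae_notMem.mp h0'
      filter_upwards [h2] with y hy
      by_cases hyA : y ∈ A
      · rw [indicator_of_mem hyA]
      · rw [indicator_of_notMem hyA]
        symm
        apply hsupp
        intro hyB
        exact hy ⟨hBs hyB, hyA⟩
    rw [h1, lebesgue_int_dv hX.1]

end Pool.Agent.Lib.MP_c95dcf_gt
end

section

/-!
# MP_c95dcf_gt, task B12: the mass of a monotone set on the wrong side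
-/

set_option autoImplicit false

open MeasureTheory Set Filter Topology
open scoped ENNReal NNReal

namespace Pool.Agent.Lib.MP_c95dcf_gt

theorem left_wp_nonneg (m : ℕ) (r : ℝ) : 0 ≤ wp m r := le_max_left _ _

theorem left_Wp_nonneg (m : ℕ) (r : ℝ) : 0 ≤ Wp m r := pow_nonneg (left_wp_nonneg m r) _

theorem left_Wp_anti (m : ℕ) {r r' : ℝ} (h : r ≤ r') : Wp m r' ≤ Wp m r := by
  unfold Wp wp
  gcongr

theorem left_Wp_cont (m : ℕ) : Continuous (Wp m) := by
  unfold Wp wp
  fun_prop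

theorem left_norm (c : ℂ) (δ R : ℝ) (hδ : 0 < δ) (hδ1 : δ < 1) (hR : 0 < R)
    (h1 : c.re ≤ -(δ * ‖c‖)) (h2 : R / 8 ≤ ‖c‖) :
    ‖c + ((δ * R / 8 : ℝ) : ℂ)‖ ≤ ‖c‖ - δ ^ 2 * R / 16 := by
  have hn : ‖c + ((δ * R / 8 : ℝ) : ℂ)‖ ^ 2 = ‖c‖ ^ 2 + 2 * (δ * R / 8) * c.re +
      (δ * R / 8) ^ 2 := by
    rw [Complex.sq_norm, Complex.sq_norm, Complex.normSq_apply, Complex.normSq_apply]
    simp only [Complex.add_re, Complex.ofReal_re, Complex.add_im, Complex.ofReal_im]
    ring
  have hδ2 : δ ^ 2 ≤ 1 := pow_le_one₀ hδ.le hδ1.le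
  have h3 : 0 ≤ ‖c‖ - δ ^ 2 * R / 16 := by
    have := mul_le_mul_of_nonneg_right hδ2 hR.le
    linarith
  refine abs_le_of_sq_le_sq' ?_ h3 |>.2
  rw [hn]
  nlinarith [mul_nonneg (mul_pos hδ hR).le (sub_nonneg.2 h2), mul_pos hδ hR,
    mul_le_mul_of_nonneg_left h1 (mul_pos hδ hR).le,
    mul_nonneg (mul_nonneg (mul_pos hδ hR).le hδ.le) (sub_nonneg.2 h2),
    sq_nonneg (δ ^ 2 * R)]

theorem left (h1 : Stmt_MonoShift) (h2 : Stmt_Prof) : Stmt_Left := by
  intro m A δ R hm hA hmono hδ hδ1 hR hRm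
  have hexp := (h2 m hm).2.2.2.2.2.2.2.1
  set s : ℝ := δ * R / 8 with hs
  set κ : ℝ := δ ^ 2 * R / 16 with hκ
  have hs0 : 0 ≤ s := by positivity
  have hκ0 : 0 ≤ κ := by positivity
  set S : Set ℂ := {c | c.re ≤ -(δ * ‖c‖) ∧ R / 8 ≤ ‖c‖} with hS
  have hSm : MeasurableSet S := by
    rw [hS]
    refine (IsClosed.inter (s₁ := {c : ℂ | c.re ≤ -(δ * ‖c‖)}) (s₂ := {c : ℂ | R / 8 ≤ ‖c‖})
      ?_ ?_).measurableSet
    · exact isClosed_le Complex.continuous_re (by fun_prop)
    · exact isClosed_le continuous_const continuous_norm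
  set B : Set ℂ := Metric.ball (0 : ℂ) m with hB
  have hBm : MeasurableSet B := measurableSet_ball
  set f : ℂ → ℝ := fun c => Wp m ‖c‖ with hf
  have hfc : Continuous f := (left_Wp_cont m).comp continuous_norm
  have hf0 : ∀ c, 0 ≤ f c := fun c => left_Wp_nonneg m _
  have hfi : ∀ T : Set ℂ, T ⊆ B → IntegrableOn f T := fun T hT =>
    (hfc.continuousOn.integrableOn_compact (isCompact_closedBall (0 : ℂ) m)).mono_set
      (hT.trans Metric.ball_subset_closedBall)
  have hAB : MeasurableSet (A ∩ B) := hA.inter hBm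
  set T : Set ℂ := A ∩ S ∩ B with hT
  have hTm : MeasurableSet T := (hA.inter hSm).inter hBm
  have hshift : ∀ᵐ c : ℂ, c ∈ T → c + (s : ℂ) ∈ A ∩ B ∧ f c ≤ Real.exp (-κ) * f (c + (s : ℂ)) := by
    filter_upwards [h1 m 1 A hm hA hmono s hs0] with c hc hcT
    obtain ⟨⟨hcA, hcS⟩, hcB⟩ := hcT
    have hn : ‖c + (s : ℂ)‖ ≤ ‖c‖ - κ := left_norm c δ R hδ hδ1 hR hcS.1 hcS.2
    have hB' : c + (s : ℂ) ∈ B := by
      rw [hB, mem_ball_zero_iff] at hcB ⊢
      linarith
    have hsmul : c + s • (1 : ℂ) = c + (s : ℂ) := by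
      rw [Complex.real_smul, mul_one]
    rw [hsmul] at hc
    refine ⟨⟨hc hcA hcB hB', hB'⟩, ?_⟩
    have hκc : κ ≤ ‖c‖ := by
      have := norm_nonneg (c + (s : ℂ))
      linarith
    have h3 : Real.exp κ * Wp m ‖c‖ ≤ Wp m (‖c‖ - κ) := hexp ‖c‖ κ hκ0 hκc
    have h4 : Wp m (‖c‖ - κ) ≤ Wp m ‖c + (s : ℂ)‖ := left_Wp_anti m hn
    have h5 : Real.exp (-κ) * (Real.exp κ * Wp m ‖c‖) = Wp m ‖c‖ := by
      rw [← mul_assoc, ← Real.exp_add, neg_add_cancel, Real.exp_zero, one_mul]
    calc f c = Real.exp (-κ) * (Real.exp κ * Wp m ‖c‖) := h5.symm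
      _ ≤ Real.exp (-κ) * f (c + (s : ℂ)) := by
        have := Real.exp_pos (-κ)
        exact mul_le_mul_of_nonneg_left (h3.trans h4) this.le
  have hgi : Integrable ((A ∩ B).indicator f) :=
    (integrable_indicator_iff hAB).2 (hfi _ inter_subset_right)
  have hgi' : Integrable (fun c => (A ∩ B).indicator f (c + (s : ℂ))) := hgi.comp_add_right _
  have hg0 : ∀ c, 0 ≤ (A ∩ B).indicator f c := fun c => indicator_nonneg (fun c _ => hf0 c) c
  calc V0 m (A ∩ S) = ∫ c in T, f c := rfl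
    _ ≤ ∫ c in T, Real.exp (-κ) * (A ∩ B).indicator f (c + (s : ℂ)) := by
      refine setIntegral_mono_on_ae (hfi _ inter_subset_right) (hgi'.const_mul _).integrableOn
        hTm ?_
      filter_upwards [hshift] with c hc hcT
      obtain ⟨h3, h4⟩ := hc hcT
      rw [indicator_of_mem h3]
      exact h4
    _ ≤ ∫ c, Real.exp (-κ) * (A ∩ B).indicator f (c + (s : ℂ)) := by
      refine setIntegral_le_integral (hgi'.const_mul _) (Eventually.of_forall fun c => ?_)
      exact mul_nonneg (Real.exp_pos _).le (hg0 _)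
    _ = Real.exp (-κ) * ∫ c, (A ∩ B).indicator f c := by
      rw [integral_const_mul, integral_add_right_eq_self (fun c => (A ∩ B).indicator f c)]
    _ = Real.exp (-κ) * V0 m A := by
      rw [integral_indicator hAB]
      rfl

end Pool.Agent.Lib.MP_c95dcf_gt
end
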