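import Mathlib
import Pool.Agent.Lib.MP_c95dcf_gt.OStmts
import Pool.Agent.Lib.MP_c95dcf_gt.Mg.G001
import Pool.Agent.Lib.MP_c95dcf_gt.Mg.G011

section

/-!
# MP_c95dcf_gt, part O: classification of the lines
-/

set_option autoImplicit false

open Set Filter Topology

namespace Pool.Agent.Lib.MP_c95dcf_gt

section Lines

variable {n : ℕ} {U F : Set (E n)} {e : E n}

lemma lines_cont (x e : E n) : Continuous fun s : ℝ => x + s • e :=
  continuous_const.add (continuous_id.smul continuous_const)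

lemma lines_uIcc (hU : Convex ℝ U) {x : E n} {s t : ℝ} (hs : x + s • e ∈ U)
    (ht : x + t • e ∈ U) : ∀ r ∈ uIcc s t, x + r • e ∈ U := by
  have hconv : Convex ℝ {r : ℝ | x + r • e ∈ U} := by
    intro r hr r' hr' a b ha hb hab
    have h := hU hr hr' ha hb hab
    have h2 : x + (a • r + b • r') • e = a • (x + r • e) + b • (x + r' • e) := by
      have h3 : x = a • x + b • x := by rw [← add_smul, hab, one_smul]
      rw [smul_add, smul_add, add_smul, smul_smul, smul_smul]
      simp only [smul_eq_mul]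
      nth_rewrite 1 [h3]
      abel
    rw [mem_ofPred_eq, h2]
    exact h
  exact fun r hr => hconv.ordConnected.uIcc_subset hs ht hr

/-- Between a point of the interior and a point outside there is a point of the frontier. -/
lemma lines_ivt (hU : Convex ℝ U) (hF : IsClosed F) {x : E n} {s t : ℝ} (hs : x + s • e ∈ U)
    (ht : x + t • e ∈ U) (h1 : x + s • e ∈ interior F) (h2 : x + t • e ∉ F) :
    ∃ r ∈ uIcc s t, x + r • e ∈ frontier F ∧ x + r • e ∈ U := by
  by_contra hcon
  push Not at hcon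
  have hpre : IsPreconnected (uIcc s t) := isPreconnected_uIcc
  have hu : IsOpen {r : ℝ | x + r • e ∈ interior F} :=
    isOpen_interior.preimage (lines_cont x e)
  have hv : IsOpen {r : ℝ | x + r • e ∈ Fᶜ} := hF.isOpen_compl.preimage (lines_cont x e)
  obtain ⟨r, -, hr1, hr2⟩ := hpre _ _ hu hv (fun r hr => by
    by_cases h3 : x + r • e ∈ F
    · left
      by_contra h4
      exact hcon r hr (by rw [hF.frontier_eq]; exact ⟨h3, h4⟩) (lines_uIcc hU hs ht r hr)
    · right
      exact h3) ⟨s, left_mem_uIcc, h1⟩ ⟨t, right_mem_uIcc, h2⟩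
  exact hr2 (interior_subset hr1)

lemma lines_uniq (h : IsGr U F e) {x : E n} {s t : ℝ} (hs : x + s • e ∈ frontier F)
    (hsU : x + s • e ∈ U) (ht : x + t • e ∈ frontier F) (htU : x + t • e ∈ U) : s = t := by
  have h1 := h.graph _ ⟨hs, hsU⟩ _ ⟨ht, htU⟩ (t - s) (by rw [sub_smul]; abel)
  exact smul_left_injective ℝ h.ne (add_left_cancel h1)

lemma lines_near (hU : IsOpen U) {x : E n} {s : ℝ} (hs : x + s • e ∈ U) :
    ∃ d : ℝ, 0 < d ∧ x + (s - d) • e ∈ U ∧ x + (s + d) • e ∈ U := by
  have h := hU.preimage (lines_cont x e)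
  obtain ⟨ε, hε, h1⟩ := Metric.isOpen_iff.1 h s hs
  refine ⟨ε / 2, by positivity, ?_, ?_⟩
  · apply h1
    rw [Metric.mem_ball, Real.dist_eq, show s - ε / 2 - s = -(ε / 2) by ring, abs_neg,
      abs_of_pos (by positivity)]
    linarith
  · apply h1
    rw [Metric.mem_ball, Real.dist_eq, show s + ε / 2 - s = ε / 2 by ring,
      abs_of_pos (by positivity)]
    linarith

/-- Two frontier points near a point with a bad pattern. -/
lemma lines_bad (hU : IsOpen U) (hc : Convex ℝ U) (h : IsGr U F e) {p : E n} {d : ℝ}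
    (hd : 0 < d) (hp : p ∈ frontier F) (hpU : p ∈ U) (h1 : p + (-d) • e ∈ U)
    (h2 : p + d • e ∈ U) :
    ¬ (p + (-d) • e ∈ interior F ∧ p + d • e ∈ interior F) ∧
    ¬ (p + (-d) • e ∉ F ∧ p + d • e ∉ F) := by
  have hct : ∀ s : ℝ, Continuous fun q : E n => q + s • e := fun s =>
    continuous_id.add continuous_const
  have hev : ∀ᶠ q in 𝓝 p, q ∈ U ∧ q + (-d) • e ∈ U ∧ q + d • e ∈ U := by
    refine (hU.eventually_mem hpU).and (((hct (-d)).continuousAt.eventually_mem ?_).and
      ((hct d).continuousAt.eventually_mem ?_))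
    · exact hU.mem_nhds h1
    · exact hU.mem_nhds h2
  constructor
  · rintro ⟨h3, h4⟩
    have hev2 : ∀ᶠ q in 𝓝 p, q + (-d) • e ∈ interior F ∧ q + d • e ∈ interior F := by
      refine ((hct (-d)).continuousAt.eventually_mem ?_).and
        ((hct d).continuousAt.eventually_mem ?_)
      · exact isOpen_interior.mem_nhds h3
      · exact isOpen_interior.mem_nhds h4
    have hp2 : p ∈ closure Fᶜ := by
      rw [frontier_eq_closure_inter_closure] at hp
      exact hp.2
    obtain ⟨q, ⟨⟨hq1, hq2, hq3⟩, hq4, hq5⟩, hq6⟩ :=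
      mem_closure_iff_nhds.1 hp2 _ (hev.and hev2)
    have hq0 : q + (0 : ℝ) • e = q := by rw [zero_smul, add_zero]
    obtain ⟨r, hr, hr1, hr2⟩ := lines_ivt (x := q) (s := -d) (t := 0) hc h.closed hq2
      (by rw [hq0]; exact hq1) hq4 (by rw [hq0]; exact hq6)
    obtain ⟨r', hr', hr1', hr2'⟩ := lines_ivt (x := q) (s := d) (t := 0) hc h.closed hq3
      (by rw [hq0]; exact hq1) hq5 (by rw [hq0]; exact hq6)
    have h5 := lines_uniq h hr1 hr2 hr1' hr2'
    rw [uIcc_of_le (by linarith)] at hr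
    rw [uIcc_of_ge (by linarith)] at hr'
    have h6 : r = 0 := le_antisymm hr.2 (h5 ▸ hr'.1)
    rw [h6, hq0] at hr1
    exact hq6 (h.closed.frontier_subset hr1)
  · rintro ⟨h3, h4⟩
    have hev2 : ∀ᶠ q in 𝓝 p, q + (-d) • e ∈ Fᶜ ∧ q + d • e ∈ Fᶜ := by
      refine ((hct (-d)).continuousAt.eventually_mem ?_).and
        ((hct d).continuousAt.eventually_mem ?_)
      · exact h.closed.isOpen_compl.mem_nhds h3
      · exact h.closed.isOpen_compl.mem_nhds h4
    have hp2 : p ∈ closure (interior F) := by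
      rw [h.reg]
      exact h.closed.frontier_subset hp
    obtain ⟨q, ⟨⟨hq1, hq2, hq3⟩, hq4, hq5⟩, hq6⟩ :=
      mem_closure_iff_nhds.1 hp2 _ (hev.and hev2)
    have hq0 : q + (0 : ℝ) • e = q := by rw [zero_smul, add_zero]
    obtain ⟨r, hr, hr1, hr2⟩ := lines_ivt (x := q) (s := 0) (t := -d) hc h.closed
      (by rw [hq0]; exact hq1) hq2 (by rw [hq0]; exact hq6) hq4
    obtain ⟨r', hr', hr1', hr2'⟩ := lines_ivt (x := q) (s := 0) (t := d) hc h.closed
      (by rw [hq0]; exact hq1) hq3 (by rw [hq0]; exact hq6) hq5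
    have h5 := lines_uniq h hr1 hr2 hr1' hr2'
    rw [uIcc_of_ge (by linarith)] at hr
    rw [uIcc_of_le (by linarith)] at hr'
    have h6 : r = 0 := le_antisymm hr.2 (h5 ▸ hr'.1)
    rw [h6, hq0, h.closed.frontier_eq] at hr1
    exact hr1.2 hq6

lemma lines_class (hU : IsOpen U) (hc : Convex ℝ U) (h : IsGr U F e) {x : E n} (hx : x ∈ U) :
    x ∈ Zi U F e ∨ x ∈ Zo U F e ∨ x ∈ Ap U F e ∨ x ∈ Am U F e := by
  have hx0 : x + (0 : ℝ) • e = x := by rw [zero_smul, add_zero]
  have hfr : ∀ y, y ∈ F → y ∉ interior F → y ∈ frontier F := fun y h1 h2 => by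
    rw [h.closed.frontier_eq]
    exact ⟨h1, h2⟩
  by_cases hex : ∃ s₀ : ℝ, x + s₀ • e ∈ U ∧ x + s₀ • e ∈ frontier F
  · obtain ⟨s₀, hs₀U, hs₀⟩ := hex
    have hside : ∀ s t : ℝ, x + s • e ∈ U → x + t • e ∈ U → s₀ ∉ uIcc s t →
        x + s • e ∈ interior F → x + t • e ∈ interior F := by
      intro s t hs ht hst h1
      by_contra h2
      have h3 : x + t • e ∉ F := by
        intro h3
        apply hst
        rw [lines_uniq h hs₀ hs₀U (hfr _ h3 h2) ht]
        exact right_mem_uIcc
      obtain ⟨r, hr, hr1, hr2⟩ := lines_ivt hc h.closed hs ht h1 h3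
      exact hst (lines_uniq h hs₀ hs₀U hr1 hr2 ▸ hr)
    have hne : ∀ s : ℝ, x + s • e ∈ U → s ≠ s₀ → x + s • e ∈ F → x + s • e ∈ interior F := by
      intro s hs hss h1
      by_contra h2
      exact hss (lines_uniq h (hfr _ h1 h2) hs hs₀ hs₀U)
    obtain ⟨d, hd, hd1, hd2⟩ := lines_near hU hs₀U
    have he1 : x + (s₀ - d) • e = (x + s₀ • e) + (-d) • e := by
      rw [sub_smul, neg_smul]; abel
    have he2 : x + (s₀ + d) • e = (x + s₀ • e) + d • e := by rw [add_smul]; abel
    obtain ⟨hb1, hb2⟩ := lines_bad hU hc h hd hs₀ hs₀U (he1 ▸ hd1) (he2 ▸ hd2)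
    rw [← he1, ← he2] at hb1 hb2
    have hlow : ∀ s < s₀, s₀ ∉ uIcc s (s₀ - d) ∧ s₀ ∉ uIcc (s₀ - d) s := by
      intro s hs
      have : s₀ ∉ uIcc s (s₀ - d) := by
        intro h1
        rw [mem_uIcc] at h1
        rcases h1 with h1 | h1 <;> linarith [h1.1, h1.2]
      exact ⟨this, by rwa [uIcc_comm]⟩
    have hhigh : ∀ s > s₀, s₀ ∉ uIcc s (s₀ + d) ∧ s₀ ∉ uIcc (s₀ + d) s := by
      intro s hs
      have : s₀ ∉ uIcc s (s₀ + d) := by
        intro h1
        rw [mem_uIcc] at h1
        rcases h1 with h1 | h1 <;> linarith [h1.1, h1.2]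
      exact ⟨this, by rwa [uIcc_comm]⟩
    by_cases ha : x + (s₀ - d) • e ∈ interior F
    · have hb : x + (s₀ + d) • e ∉ interior F := fun hb => hb1 ⟨ha, hb⟩
      right; right; right
      refine ⟨hx, s₀, hs₀U, hs₀, ?_, ?_⟩
      · intro s hs hsU
        exact hside _ _ hd1 hsU (hlow s hs).2 ha
      · intro s hs hsU hsF
        exact hb (hside _ _ hsU hd2 (hhigh s hs).1 (hne s hsU (ne_of_gt hs) hsF))
    · have haF : x + (s₀ - d) • e ∉ F := fun h1 => ha (hne _ hd1 (by linarith) h1)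
      have hb : x + (s₀ + d) • e ∈ interior F := by
        by_contra hb
        exact hb2 ⟨haF, fun h1 => hb (hne _ hd2 (by linarith) h1)⟩
      right; right; left
      refine ⟨hx, s₀, hs₀U, hs₀, ?_, ?_⟩
      · intro s hs hsU hsF
        exact ha (hside _ _ hsU hd1 (hlow s hs).1 (hne s hsU (ne_of_lt hs) hsF))
      · intro s hs hsU
        exact hside _ _ hd2 hsU (hhigh s hs).2 hb
  · push Not at hex
    by_cases hxi : x ∈ interior F
    · left
      refine ⟨hx, fun s hs => ?_⟩
      by_contra hn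
      have h1 : x + s • e ∉ F := fun h1 => hex s hs (hfr _ h1 hn)
      obtain ⟨r, _, hr1, hr2⟩ := lines_ivt (x := x) (s := 0) (t := s) hc h.closed
        (by rw [hx0]; exact hx) hs (by rw [hx0]; exact hxi) h1
      exact hex r hr2 hr1
    · right; left
      have hxF : x ∉ F := fun h1 => hex 0 (by rw [hx0]; exact hx) (by rw [hx0]; exact hfr _ h1 hxi)
      refine ⟨hx, fun s hs hsF => ?_⟩
      have h1 : x + s • e ∈ interior F := by
        by_contra hn
        exact hex s hs (hfr _ hsF hn)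
      obtain ⟨r, _, hr1, hr2⟩ := lines_ivt (x := x) (s := s) (t := 0) hc h.closed
        hs (by rw [hx0]; exact hx) h1 (by rw [hx0]; exact hxF)
      exact hex r hr2 hr1

lemma lines_Ap_open (hU : IsOpen U) (hc : Convex ℝ U) (h : IsGr U F e) : IsOpen (Ap U F e) := by
  rw [isOpen_iff_eventually]
  rintro x ⟨hx, s₀, hs₀U, hs₀, h1, h2⟩
  obtain ⟨d, hd, hd1, hd2⟩ := lines_near hU hs₀U
  have hct : ∀ s : ℝ, Continuous fun q : E n => q + s • e := fun s =>
    continuous_id.add continuous_const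
  have hev : ∀ᶠ y in 𝓝 x, y ∈ U ∧ (y + (s₀ - d) • e ∈ U ∩ Fᶜ ∧
      y + (s₀ + d) • e ∈ U ∩ interior F) := by
    refine (hU.eventually_mem hx).and (((hct (s₀ - d)).continuousAt.eventually_mem ?_).and
      ((hct (s₀ + d)).continuousAt.eventually_mem ?_))
    · exact (hU.inter h.closed.isOpen_compl).mem_nhds ⟨hd1, h1 _ (by linarith) hd1⟩
    · exact (hU.inter isOpen_interior).mem_nhds ⟨hd2, h2 _ (by linarith) hd2⟩
  filter_upwards [hev] with y hy
  obtain ⟨hyU, ⟨hy1, hy2⟩, hy3, hy4⟩ := hy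
  rcases lines_class hU hc h hyU with h3 | h3 | h3 | h3
  · exact absurd (interior_subset (h3.2 _ hy1)) hy2
  · exact absurd (interior_subset hy4) (h3.2 _ hy3)
  · exact h3
  · exfalso
    obtain ⟨_, s₁, hs₁U, hs₁, h5, h6⟩ := h3
    rcases lt_trichotomy (s₀ - d) s₁ with h7 | h7 | h7
    · exact hy2 (interior_subset (h5 _ h7 hy1))
    · rw [← h7] at hs₁
      exact hy2 (h.closed.frontier_subset hs₁)
    · exact h6 (s₀ + d) (by linarith) hy3 (interior_subset hy4)

lemma lines_Am_open (hU : IsOpen U) (hc : Convex ℝ U) (h : IsGr U F e) : IsOpen (Am U F e) := by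
  rw [isOpen_iff_eventually]
  rintro x ⟨hx, s₀, hs₀U, hs₀, h1, h2⟩
  obtain ⟨d, hd, hd1, hd2⟩ := lines_near hU hs₀U
  have hct : ∀ s : ℝ, Continuous fun q : E n => q + s • e := fun s =>
    continuous_id.add continuous_const
  have hev : ∀ᶠ y in 𝓝 x, y ∈ U ∧ (y + (s₀ - d) • e ∈ U ∩ interior F ∧
      y + (s₀ + d) • e ∈ U ∩ Fᶜ) := by
    refine (hU.eventually_mem hx).and (((hct (s₀ - d)).continuousAt.eventually_mem ?_).and
      ((hct (s₀ + d)).continuousAt.eventually_mem ?_))
    · exact (hU.inter isOpen_interior).mem_nhds ⟨hd1, h1 _ (by linarith) hd1⟩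
    · exact (hU.inter h.closed.isOpen_compl).mem_nhds ⟨hd2, h2 _ (by linarith) hd2⟩
  filter_upwards [hev] with y hy
  obtain ⟨hyU, ⟨hy1, hy2⟩, hy3, hy4⟩ := hy
  rcases lines_class hU hc h hyU with h3 | h3 | h3 | h3
  · exact absurd (interior_subset (h3.2 _ hy3)) hy4
  · exact absurd (interior_subset hy2) (h3.2 _ hy1)
  · exfalso
    obtain ⟨_, s₁, hs₁U, hs₁, h5, h6⟩ := h3
    rcases lt_trichotomy (s₀ + d) s₁ with h7 | h7 | h7
    · exact h5 (s₀ - d) (by linarith) hy1 (interior_subset hy2)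
    · rw [← h7] at hs₁
      exact hy4 (h.closed.frontier_subset hs₁)
    · exact hy4 (interior_subset (h6 _ h7 hy3))
  · exact h3

lemma lines_Ap_not (hU : IsOpen U) {x : E n} (hx : x ∈ Ap U F e) :
    x ∈ U \ Zi U F e ∧ x ∈ U \ Zo U F e := by
  obtain ⟨hxU, s₀, hs₀U, hs₀, h1, h2⟩ := hx
  obtain ⟨d, hd, hd1, hd2⟩ := lines_near hU hs₀U
  exact ⟨⟨hxU, fun h3 => h1 _ (by linarith) hd1 (interior_subset (h3.2 _ hd1))⟩,
    ⟨hxU, fun h3 => h3.2 _ hd2 (interior_subset (h2 _ (by linarith) hd2))⟩⟩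

lemma lines_Am_not (hU : IsOpen U) {x : E n} (hx : x ∈ Am U F e) :
    x ∈ U \ Zi U F e ∧ x ∈ U \ Zo U F e := by
  obtain ⟨hxU, s₀, hs₀U, hs₀, h1, h2⟩ := hx
  obtain ⟨d, hd, hd1, hd2⟩ := lines_near hU hs₀U
  exact ⟨⟨hxU, fun h3 => h2 _ (by linarith) hd2 (interior_subset (h3.2 _ hd2))⟩,
    ⟨hxU, fun h3 => h3.2 _ hd1 (interior_subset (h1 _ (by linarith) hd1))⟩⟩

theorem lines : Stmt_Lines := by
  intro n U F e hU hc h
  have hmem : ∀ {x : E n}, x + (0 : ℝ) • e = x := fun {x} => by rw [zero_smul, add_zero]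
  refine ⟨?_, lines_Ap_open hU hc h, lines_Am_open hU hc h, ?_, ?_⟩
  · apply Subset.antisymm
    · intro x hx
      rcases lines_class hU hc h hx with h1 | h1 | h1 | h1
      · exact Or.inl (Or.inl (Or.inl h1))
      · exact Or.inl (Or.inl (Or.inr h1))
      · exact Or.inl (Or.inr h1)
      · exact Or.inr h1
    · rintro x (((h1 | h1) | h1) | h1) <;> exact h1.1
  · rw [isOpen_iff_eventually]
    rintro x ⟨hx, hx2⟩
    rcases lines_class hU hc h hx with h1 | h1 | h1 | h1
    · exact absurd h1 hx2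
    · have h2 : x ∉ F := by
        have := h1.2 0 (by rw [hmem]; exact hx)
        rwa [hmem] at this
      filter_upwards [hU.mem_nhds hx, h.closed.isOpen_compl.mem_nhds h2] with y hy hy2
      refine ⟨hy, fun h3 => hy2 ?_⟩
      have := h3.2 0 (by rw [hmem]; exact hy)
      rw [hmem] at this
      exact interior_subset this
    · filter_upwards [(lines_Ap_open hU hc h).mem_nhds h1] with y hy
      exact (lines_Ap_not hU hy).1
    · filter_upwards [(lines_Am_open hU hc h).mem_nhds h1] with y hy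
      exact (lines_Am_not hU hy).1
  · rw [isOpen_iff_eventually]
    rintro x ⟨hx, hx2⟩
    rcases lines_class hU hc h hx with h1 | h1 | h1 | h1
    · have h2 : x ∈ interior F := by
        have := h1.2 0 (by rw [hmem]; exact hx)
        rwa [hmem] at this
      filter_upwards [hU.mem_nhds hx, isOpen_interior.mem_nhds h2] with y hy hy2
      refine ⟨hy, fun h3 => ?_⟩
      have := h3.2 0 (by rw [hmem]; exact hy)
      rw [hmem] at this
      exact this (interior_subset hy2)
    · exact absurd h1 hx2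
    · filter_upwards [(lines_Ap_open hU hc h).mem_nhds h1] with y hy
      exact (lines_Ap_not hU hy).2
    · filter_upwards [(lines_Am_open hU hc h).mem_nhds h1] with y hy
      exact (lines_Am_not hU hy).2

end Lines

end Pool.Agent.Lib.MP_c95dcf_gt
end

section

/-!
# MP_c95dcf_gt: monotone sets are invariant under forward shifts (task B11)
-/

set_option autoImplicit false

open MeasureTheory Set Filter Topology
open scoped ENNReal NNReal ContDiff Manifold

namespace Pool.Agent.Lib.MP_c95dcf_gt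

/-- The set of points that can be moved by `s • h` inside the punctured disc. -/
def msU (m : ℕ) (h : ℂ) (s : ℝ) : Set ℂ :=
  {c | c ∈ Metric.ball (0 : ℂ) m ∧ c + s • h ∈ Metric.ball (0 : ℂ) m ∧
    c ∉ (fun τ : ℝ => -(τ • h)) '' Icc 0 s}

lemma msU_isOpen (m : ℕ) (h : ℂ) (s : ℝ) : IsOpen (msU m h s) := by
  have h1 : IsOpen (Metric.ball (0 : ℂ) m) := Metric.isOpen_ball
  have h2 : IsOpen {c : ℂ | c + s • h ∈ Metric.ball (0 : ℂ) m} :=
    h1.preimage (by fun_prop)
  have h3 : IsClosed ((fun τ : ℝ => -(τ • h)) '' Icc 0 s) :=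
    (isCompact_Icc.image (by fun_prop)).isClosed
  exact h1.inter (h2.inter h3.isOpen_compl)

lemma msU_shift (m : ℕ) (h : ℂ) (s : ℝ) (c : ℂ) (hc : c ∈ msU m h s) (τ : ℝ)
    (h0 : 0 ≤ τ) (h1 : τ ≤ s) : c + τ • h ∈ Dp m := by
  obtain ⟨hc1, hc2, hc3⟩ := hc
  refine ⟨?_, ?_⟩
  · rcases eq_or_lt_of_le h0 with h00 | h00
    · rw [← h00]; simpa using hc1
    have hs : 0 < s := lt_of_lt_of_le h00 h1
    have hconv := (convex_ball (0 : ℂ) (m : ℝ)) hc1 hc2 (a := 1 - τ / s) (b := τ / s)
      (by rw [sub_nonneg]; exact (div_le_one hs).2 h1) (by positivity) (by ring)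
    have : (1 - τ / s) • c + (τ / s) • (c + s • h) = c + τ • h := by
      rw [smul_add, smul_smul, div_mul_cancel₀ _ hs.ne', sub_smul, one_smul]
      abel
    rwa [this] at hconv
  · intro h00
    apply hc3
    refine ⟨τ, ⟨h0, h1⟩, ?_⟩
    have : c + τ • h = 0 := h00
    exact (eq_neg_of_add_eq_zero_left this).symm

/-- The integral of the translates of a test function over a monotone set increases. -/
lemma ms_int_le (m : ℕ) (h : ℂ) (A : Set ℂ) (hA : MeasurableSet A) (hmono : Mono m h A)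
    (s : ℝ) (hs : 0 ≤ s) (φ : ℂ → ℝ) (hφ : ContDiff ℝ 2 φ) (hφc : HasCompactSupport φ)
    (hφU : tsupport φ ⊆ msU m h s) (hφ0 : ∀ c, 0 ≤ φ c) :
    ∫ c in A, φ c ≤ ∫ c in A, φ (c - s • h) := by
  -- the reflected function
  set k : ℂ → ℝ := fun y => φ (-y) with hk
  have hkd : ContDiff ℝ 2 k := hφ.comp contDiff_neg
  have hkc : HasCompactSupport k := hφc.comp_homeomorph (Homeomorph.neg ℂ)
  set f : ℂ → ℝ := A.indicator (fun _ => (1 : ℝ)) with hf
  have hfl : LocallyIntegrable f volume :=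
    (locallyIntegrable_const (1 : ℝ)).indicator hA
  have hD : ∀ x : ℂ, HasFDerivAt (MeasureTheory.convolution f k (ContinuousLinearMap.lsmul ℝ ℝ) volume)
      (MeasureTheory.convolution f (fderiv ℝ k)
        ((ContinuousLinearMap.lsmul ℝ ℝ).precompR ℂ) volume x) x := fun x =>
    hkc.hasFDerivAt_convolution_right (ContinuousLinearMap.lsmul ℝ ℝ) hfl
      (hkd.of_le (by norm_num)) x
  set G : ℝ → ℝ := fun τ =>
    MeasureTheory.convolution f k (ContinuousLinearMap.lsmul ℝ ℝ) volume (τ • h) with hG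
  have hGeq : ∀ τ, G τ = ∫ c in A, φ (c - τ • h) := by
    intro τ
    rw [hG, ← integral_indicator hA]
    simp only [MeasureTheory.convolution, ContinuousLinearMap.lsmul_apply]
    refine integral_congr_ae (Eventually.of_forall fun t => ?_)
    by_cases ht : t ∈ A
    · simp [hf, hk, ht]
    · simp [hf, hk, ht]
  have hGd : ∀ τ, HasDerivAt G (- ∫ c in A, fderiv ℝ φ (c - τ • h) h) τ := by
    intro τ
    have h1 := (hD (τ • h)).comp_hasDerivAt τ ((hasDerivAt_id τ).smul_const h)
    rw [one_smul] at h1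
    have h2 := convolution_precompR_apply (ContinuousLinearMap.lsmul ℝ ℝ) (μ := volume) hfl
      (hkc.fderiv ℝ) (hkd.continuous_fderiv (by norm_num)) (τ • h) h
    rw [h2] at h1
    have hval : MeasureTheory.convolution f (fun a => fderiv ℝ k a h)
        (ContinuousLinearMap.lsmul ℝ ℝ) volume (τ • h)
        = - ∫ c in A, fderiv ℝ φ (c - τ • h) h := ?_
    · rw [hval] at h1
      exact h1
    rw [← integral_indicator hA, ← integral_neg]
    simp only [MeasureTheory.convolution, ContinuousLinearMap.lsmul_apply]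
    refine integral_congr_ae (Eventually.of_forall fun t => ?_)
    have hfk : ∀ y : ℂ, fderiv ℝ k y h = - fderiv ℝ φ (-y) h := by
      intro y
      have : HasFDerivAt k ((fderiv ℝ φ (-y)).comp (-(ContinuousLinearMap.id ℝ ℂ))) y :=
        ((hφ.differentiable (by norm_num)) (-y)).hasFDerivAt.comp y (hasFDerivAt_id y).neg
      rw [this.fderiv]
      simp
    by_cases ht : t ∈ A
    · simp [hf, ht, hfk]
    · simp [hf, ht]
  have hmonoG : MonotoneOn G (Icc 0 s) := by
    refine monotoneOn_of_deriv_nonneg (convex_Icc 0 s)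
      (fun τ _ => (hGd τ).continuousAt.continuousWithinAt)
      (fun τ _ => (hGd τ).differentiableAt.differentiableWithinAt) ?_
    intro τ hτ
    rw [interior_Icc] at hτ
    rw [(hGd τ).deriv, neg_nonneg]
    -- the translated test function
    set ψ : ℂ → ℝ := fun c => φ (c - τ • h) with hψ
    have hψd : ContDiff ℝ 2 ψ := hφ.comp (contDiff_id.sub contDiff_const)
    have hψf : ∀ c, fderiv ℝ ψ c h = fderiv ℝ φ (c - τ • h) h := by
      intro c
      have : HasFDerivAt ψ ((fderiv ℝ φ (c - τ • h)).comp (ContinuousLinearMap.id ℝ ℂ)) c :=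
        ((hφ.differentiable (by norm_num)) (c - τ • h)).hasFDerivAt.comp c
          ((hasFDerivAt_id c).sub_const (τ • h))
      rw [this.fderiv]
      simp
    have hψc : HasCompactSupport ψ := hφc.comp_homeomorph (Homeomorph.subRight (τ • h))
    have hψt : tsupport ψ ⊆ Dp m := by
      intro c hc
      have hc' : c - τ • h ∈ tsupport φ := by
        have := tsupport_comp_subset_preimage φ (f := fun c : ℂ => c - τ • h) (by fun_prop) hc
        exact this
      have := msU_shift m h s _ (hφU hc') τ hτ.1.le hτ.2.le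
      rwa [sub_add_cancel] at this
    have := hmono ψ hψd hψc hψt (fun c => hφ0 _)
    simpa only [hψf] using this
  have := hmonoG (left_mem_Icc.2 hs) (right_mem_Icc.2 hs) hs
  rw [hGeq, hGeq] at this
  simpa using this

lemma ms_null (h : ℂ) (s : ℝ) : volume ((fun τ : ℝ => -(τ • h)) '' Icc 0 s) = 0 := by
  have hsub : (fun τ : ℝ => -(τ • h)) '' Icc 0 s ⊆ (Submodule.span ℝ {h} : Submodule ℝ ℂ) := by
    rintro _ ⟨τ, -, rfl⟩
    exact Submodule.neg_mem _ (Submodule.smul_mem _ _ (Submodule.mem_span_singleton_self h))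
  refine measure_mono_null hsub (Measure.addHaar_submodule _ _ ?_)
  intro htop
  have h1 : Module.finrank ℝ (Submodule.span ℝ {h} : Submodule ℝ ℂ) ≤ 1 := by
    have := finrank_span_le_card (R := ℝ) ({h} : Set ℂ)
    simpa using this
  rw [htop, finrank_top, Complex.finrank_real_complex] at h1
  omega

theorem monoShift : Stmt_MonoShift := by
  intro m h A _ hA hmono s hs
  -- the bad set inside `U`
  set U := msU m h s with hU
  have hUo : IsOpen U := msU_isOpen m h s
  set T : Set ℂ := {c | c + s • h ∈ A} with hT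
  have hTm : MeasurableSet T := hA.preimage (by fun_prop)
  have key : volume (U ∩ (A \ T)) = 0 := by
    by_contra hne
    have hmeas : MeasurableSet (U ∩ (A \ T)) := hUo.measurableSet.inter (hA.diff hTm)
    obtain ⟨K, hKN, hKc, hK0⟩ := hmeas.exists_lt_isCompact (pos_iff_ne_zero.2 hne)
    have hKfin : volume K < ⊤ := hKc.measure_lt_top
    have hKlt : volume K < 2 * volume K := by
      rw [two_mul]
      exact ENNReal.lt_add_right hKfin.ne hK0.ne'
    obtain ⟨V, hKV, hVo, hV⟩ := K.exists_isOpen_lt_of_lt _ hKlt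
    have hKU : K ⊆ U ∩ V := fun x hx => ⟨(hKN hx).1, hKV hx⟩
    obtain ⟨δ, hδ, hδs⟩ := hKc.exists_cthickening_subset_open (hUo.inter hVo) hKU
    obtain ⟨g, g_smooth, g_range, g_supp, hg⟩ :=
      exists_contMDiff_support_eq_eq_one_iff 𝓘(ℝ, ℂ) (n := (⊤ : ℕ∞))
        (Metric.isOpen_thickening (δ := δ) (E := K))
        hKc.isClosed (Metric.self_subset_thickening hδ K)
    have g_diff : ContDiff ℝ ((⊤ : ℕ∞) : WithTop ℕ∞) g := g_smooth.contDiff
    have g_ts : tsupport g ⊆ U ∩ V := by
      refine Subset.trans ?_ hδs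
      rw [tsupport, g_supp]
      exact Metric.closure_thickening_subset_cthickening δ K
    have g_comp : HasCompactSupport g := by
      refine HasCompactSupport.of_support_subset_isCompact (hKc.cthickening (r := δ)) ?_
      rw [g_supp]
      exact Metric.thickening_subset_cthickening δ K
    have g0 : ∀ c, 0 ≤ g c := fun c => (g_range (mem_range_self c)).1
    have g1 : ∀ c, g c ≤ 1 := fun c => (g_range (mem_range_self c)).2
    have g_diff2 : ContDiff ℝ 2 g := by exact_mod_cast contDiff_infty.1 g_diff 2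
    have hle := ms_int_le m h A hA hmono s hs g g_diff2 g_comp
      (fun x hx => (g_ts hx).1) g0
    have hgi : Integrable g := g_diff.continuous.integrable_of_hasCompactSupport g_comp
    -- rewrite the right side as an integral over `T`
    have hR : ∫ c in A, g (c - s • h) = ∫ c in T, g c := by
      rw [← integral_indicator hA, ← integral_indicator hTm]
      have : ∀ c, (T.indicator g) c = (A.indicator fun c => g (c - s • h)) (c + s • h) := by
        intro c
        by_cases hc : c + s • h ∈ A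
        · rw [indicator_of_mem hc, indicator_of_mem (show c ∈ T from hc), add_sub_cancel_right]
        · rw [indicator_of_notMem hc, indicator_of_notMem (show c ∉ T from hc)]
      simp_rw [this]
      rw [integral_add_right_eq_self (fun c => (A.indicator fun c => g (c - s • h)) c) (s • h)]
    rw [hR] at hle
    have hsplitA : ∫ c in A, g c = (∫ c in A ∩ T, g c) + ∫ c in A \ T, g c :=
      (integral_inter_add_sdiff (s := A) (f := g) (μ := volume) hTm hgi.integrableOn).symm
    have hsplitT : ∫ c in T, g c = (∫ c in A ∩ T, g c) + ∫ c in T \ A, g c := by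
      rw [inter_comm]
      exact (integral_inter_add_sdiff (s := T) (f := g) (μ := volume) hA hgi.integrableOn).symm
    have h1 : (volume K).toReal ≤ ∫ c in A \ T, g c := by
      have : ∫ c in K, g c = (volume K).toReal := by
        rw [setIntegral_congr_fun hKc.measurableSet (g := fun _ => (1 : ℝ))
          (fun x hx => (hg x).1 hx)]
        simp [Measure.real]
      rw [← this]
      exact setIntegral_mono_set hgi.integrableOn (Eventually.of_forall g0)
        (LE.le.eventuallyLE (fun x hx => (hKN hx).2))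
    have h2 : ∫ c in T \ A, g c ≤ (volume (V \ K)).toReal := by
      have hsub : ∫ c in T \ A, g c = ∫ c in (T \ A) ∩ V, g c := by
        refine setIntegral_eq_of_subset_of_forall_sdiff_eq_zero (hTm.diff hA) inter_subset_left ?_
        intro x hx
        by_contra hgx
        exact hx.2 ⟨hx.1, (g_ts (subset_tsupport g hgx)).2⟩
      rw [hsub]
      have hVfin : volume (V \ K) < ⊤ :=
        lt_of_le_of_lt (measure_mono sdiff_subset) (hV.trans (ENNReal.mul_lt_top (by simp) hKfin))
      calc ∫ c in (T \ A) ∩ V, g c ≤ ∫ c in V \ K, g c := by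
            refine setIntegral_mono_set hgi.integrableOn (Eventually.of_forall g0)
              (LE.le.eventuallyLE ?_)
            rintro x ⟨⟨_, hxA⟩, hxV⟩
            exact ⟨hxV, fun hxK => hxA (hKN hxK).2.1⟩
        _ ≤ ∫ _ in V \ K, (1 : ℝ) := by
            refine setIntegral_mono_on hgi.integrableOn ?_ (hVo.measurableSet.diff hKc.measurableSet)
              (fun x _ => g1 x)
            exact integrableOn_const hVfin.ne
        _ = (volume (V \ K)).toReal := by simp [Measure.real]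
    have h3 : (volume (V \ K)).toReal < (volume K).toReal := by
      have hVK : volume (V \ K) < volume K := by
        rw [measure_sdiff hKV hKc.measurableSet.nullMeasurableSet hKfin.ne]
        refine ENNReal.sub_lt_of_lt_add (measure_mono hKV) ?_
        rwa [← two_mul]
      exact (ENNReal.toReal_lt_toReal (hVK.trans hKfin).ne hKfin.ne).2 hVK
    linarith
  have hnull := ms_null h s
  have k1 : ∀ᵐ c : ℂ, c ∉ U ∩ (A \ T) := measure_eq_zero_iff_ae_notMem.1 key
  have k2 : ∀ᵐ c : ℂ, c ∉ (fun τ : ℝ => -(τ • h)) '' Icc 0 s :=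
    measure_eq_zero_iff_ae_notMem.1 hnull
  filter_upwards [k1, k2] with c hc1 hc2 hcA hcm hcs
  by_contra hcT
  exact hc1 ⟨⟨hcm, hcs, hc2⟩, hcA, hcT⟩

end Pool.Agent.Lib.MP_c95dcf_gt
end

section

/-!
# MP_c95dcf_gt, task G11: additivity of the perimeter
-/

set_option autoImplicit false

open MeasureTheory Set Filter Topology
open scoped ENNReal NNReal RealInnerProductSpace Manifold ContDiff

namespace Pool.Agent.Lib.MP_c95dcf_gt

theorem PerAdd_cutoff {n : ℕ} {s t : Set (E n)} (hs : IsClosed s) (ht : IsClosed t)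
    (hd : Disjoint s t) : ∃ f : E n → ℝ, ContDiff ℝ 1 f ∧ (∀ᶠ x in 𝓝ˢ s, f x = 0) ∧
      (∀ᶠ x in 𝓝ˢ t, f x = 1) ∧ ∀ x, f x ∈ Icc (0:ℝ) 1 := by
  obtain ⟨f, h0, h1, h2⟩ := exists_contMDiffMap_zero_one_nhds_of_isClosed (n := 1)
    𝓘(ℝ, E n) hs ht hd
  exact ⟨f, f.contMDiff.contDiff, h0, h1, h2⟩

theorem PerAdd_dv_congr {n : ℕ} {X Y : E n → E n} {x : E n} (h : X =ᶠ[𝓝 x] Y) :
    dv X x = dv Y x := by
  unfold dv
  rw [h.fderiv_eq]

theorem PerAdd_ge {n : ℕ} {U A B : Set (E n)} (hU : IsOpen U) (hA : MeasurableSet A)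
    (hB : MeasurableSet B) (hd : closure (A ∩ U) ∩ closure (B ∩ U) ∩ U = ∅)
    {X Y : E n → E n} (hX : TF U X) (hX1 : ∀ x, ‖X x‖ ≤ 1) (hY : TF U Y) (hY1 : ∀ x, ‖Y x‖ ≤ 1) :
    ENNReal.ofReal ((∫ x in A, dv X x) + ∫ x in B, dv Y x) ≤ Per U (A ∪ B) := by
  have hKU : tsupport X ∪ tsupport Y ⊆ U := union_subset hX.supp hY.supp
  have hKc : IsCompact (tsupport X ∪ tsupport Y) := hX.comp.isCompact.union hY.comp.isCompact
  have hdisj : Disjoint (closure (B ∩ U) ∩ (tsupport X ∪ tsupport Y))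
      (closure (A ∩ U) ∩ (tsupport X ∪ tsupport Y)) := by
    rw [Set.disjoint_left]
    rintro x ⟨hx1, hx2⟩ ⟨hx3, _⟩
    have hmem : x ∈ closure (A ∩ U) ∩ closure (B ∩ U) ∩ U := ⟨⟨hx3, hx1⟩, hKU hx2⟩
    rw [hd] at hmem
    exact hmem
  obtain ⟨f, hf, hf0, hf1, hf2⟩ := PerAdd_cutoff
    (isClosed_closure.inter hKc.isClosed) (isClosed_closure.inter hKc.isClosed) hdisj
  let Z : E n → E n := fun x => f x • X x + (1 - f x) • Y x
  have hZs : ∀ x, x ∉ tsupport X ∪ tsupport Y → Z x = 0 := by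
    intro x hx
    rw [mem_union, not_or] at hx
    simp only [Z]
    rw [image_eq_zero_of_notMem_tsupport hx.1, image_eq_zero_of_notMem_tsupport hx.2]
    simp
  have hZ : TF U Z := by
    refine ⟨?_, HasCompactSupport.intro hKc hZs, ?_⟩
    · exact (hf.smul hX.diff).add ((contDiff_const.sub hf).smul hY.diff)
    · refine (closure_minimal ?_ hKc.isClosed).trans hKU
      intro x hx
      by_contra hne
      exact hx (hZs x hne)
  have hZ1 : ∀ x, ‖Z x‖ ≤ 1 := by
    intro x
    have h0 := (hf2 x).1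
    have h1 := (hf2 x).2
    calc ‖Z x‖ ≤ ‖f x • X x‖ + ‖(1 - f x) • Y x‖ := norm_add_le _ _
      _ = f x * ‖X x‖ + (1 - f x) * ‖Y x‖ := by
          rw [norm_smul, norm_smul, Real.norm_of_nonneg h0, Real.norm_of_nonneg (by linarith)]
      _ ≤ f x * 1 + (1 - f x) * 1 :=
          add_le_add (mul_le_mul_of_nonneg_left (hX1 x) h0)
            (mul_le_mul_of_nonneg_left (hY1 x) (by linarith))
      _ = 1 := by ring
  have hout : ∀ x, x ∉ tsupport X ∪ tsupport Y → dv Z x = 0 ∧ dv X x = 0 ∧ dv Y x = 0 := by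
    intro x hx
    refine ⟨?_, ?_, ?_⟩
    · have hne : ∀ᶠ y in 𝓝 x, Z y = (fun _ : E n => (0 : E n)) y := by
        filter_upwards [hKc.isClosed.isOpen_compl.mem_nhds hx] with y hy
        exact hZs y hy
      rw [PerAdd_dv_congr hne]
      simp [dv]
    · exact Elem_dv_eq_zero (fun h => hx (Or.inl h))
    · exact Elem_dv_eq_zero (fun h => hx (Or.inr h))
  have eA : ∀ x ∈ U ∩ A, dv Z x = dv X x := by
    intro x hx
    by_cases hK : x ∈ tsupport X ∪ tsupport Y
    · have hxt : x ∈ closure (A ∩ U) ∩ (tsupport X ∪ tsupport Y) :=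
        ⟨subset_closure ⟨hx.2, hx.1⟩, hK⟩
      apply PerAdd_dv_congr
      filter_upwards [eventually_nhdsSet_iff_forall.1 hf1 x hxt] with y hy
      simp [Z, hy]
    · rw [(hout x hK).1, (hout x hK).2.1]
  have eB : ∀ x ∈ U ∩ B, dv Z x = dv Y x := by
    intro x hx
    by_cases hK : x ∈ tsupport X ∪ tsupport Y
    · have hxt : x ∈ closure (B ∩ U) ∩ (tsupport X ∪ tsupport Y) :=
        ⟨subset_closure ⟨hx.2, hx.1⟩, hK⟩
      apply PerAdd_dv_congr
      filter_upwards [eventually_nhdsSet_iff_forall.1 hf0 x hxt] with y hy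
      simp [Z, hy]
    · rw [(hout x hK).1, (hout x hK).2.2]
  have hi := Elem_integrable_dv hZ.diff hZ.comp
  have hdd : Disjoint (U ∩ A) (U ∩ B) := by
    rw [Set.disjoint_left]
    rintro x ⟨hx1, hx2⟩ ⟨_, hx3⟩
    have hmem : x ∈ closure (A ∩ U) ∩ closure (B ∩ U) ∩ U :=
      ⟨⟨subset_closure ⟨hx2, hx1⟩, subset_closure ⟨hx3, hx1⟩⟩, hx1⟩
    rw [hd] at hmem
    exact hmem
  have key : ∫ x in A ∪ B, dv Z x = (∫ x in A, dv X x) + ∫ x in B, dv Y x := by
    rw [Elem_setIntegral_inter (A := A ∪ B) hU hZ.supp, Elem_setIntegral_inter (A := A) hU hX.supp,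
      Elem_setIntegral_inter (A := B) hU hY.supp, Set.inter_union_distrib_left,
      setIntegral_union hdd (hU.measurableSet.inter hB) hi.integrableOn hi.integrableOn,
      setIntegral_congr_fun (hU.measurableSet.inter hA) eA,
      setIntegral_congr_fun (hU.measurableSet.inter hB) eB]
  rw [← key]
  exact Elem_le_per hZ hZ1

theorem perAdd (hs : Stmt_Submod) : Stmt_PerAdd := by
  intro n U A B hU hA hB hd
  apply le_antisymm
  · exact le_trans (le_add_right le_rfl) (hs n U A B hU hA hB)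
  · have h0 : TF U (fun _ : E n => (0 : E n)) :=
      ⟨contDiff_const, HasCompactSupport.zero, by
        have : tsupport (fun _ : E n => (0 : E n)) = ∅ := by
          rw [tsupport_eq_empty_iff]; rfl
        rw [this]; exact empty_subset _⟩
    have h01 : ∀ x : E n, ‖(fun _ : E n => (0 : E n)) x‖ ≤ 1 := by intro x; simp
    have hdv0 : ∀ x : E n, dv (fun _ : E n => (0 : E n)) x = 0 := by
      intro x
      simp [dv]
    refine ENNReal.biSup_add_biSup_le' (p := fun X : E n → E n => TF U X ∧ ∀ x, ‖X x‖ ≤ 1)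
      (q := fun X : E n → E n => TF U X ∧ ∀ x, ‖X x‖ ≤ 1)
      (f := fun X => ENNReal.ofReal (∫ x in A, dv X x))
      (g := fun X => ENNReal.ofReal (∫ x in B, dv X x)) ⟨_, h0, h01⟩ ⟨_, h0, h01⟩ ?_
    rintro X ⟨hX, hX1⟩ Y ⟨hY, hY1⟩
    rcases le_total 0 (∫ x in A, dv X x) with ha | ha
    · rcases le_total 0 (∫ x in B, dv Y x) with hb | hb
      · rw [← ENNReal.ofReal_add ha hb]
        exact PerAdd_ge hU hA hB hd hX hX1 hY hY1
      · rw [ENNReal.ofReal_of_nonpos hb, add_zero]
        have h1 := PerAdd_ge hU hA hB hd hX hX1 h0 h01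
        simpa [hdv0] using h1
    · rw [ENNReal.ofReal_of_nonpos ha, zero_add]
      have h1 := PerAdd_ge hU hA hB hd h0 h01 hY hY1
      simpa [hdv0] using h1

end Pool.Agent.Lib.MP_c95dcf_gt
end
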