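import Pool.Agent.Lib.MP_c95dcf_gt.OStmts
import Pool.Agent.Lib.MP_c95dcf_gt.Mg.G001

section

/-!
# MP_c95dcf_gt, O3: the structure of graph sets
-/

set_option autoImplicit false

open Set Filter Topology

namespace Pool.Agent.Lib.MP_c95dcf_gt

/-- `S` contains with a point all the points of its line in `U`. -/
def PieceSat {n : ℕ} (U S : Set (E n)) (e : E n) : Prop :=
  ∀ x ∈ S, ∀ c : ℝ, x + c • e ∈ U → x + c • e ∈ S

theorem piece_shift {n : ℕ} (x e : E n) (c s : ℝ) : x + c • e + s • e = x + (c + s) • e := by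
  rw [add_smul, add_assoc]

theorem piece_sat_Zi {n : ℕ} (U F : Set (E n)) (e : E n) : PieceSat U (Zi U F e) e := by
  intro x hx c hc
  refine ⟨hc, fun s hs => ?_⟩
  rw [piece_shift] at hs ⊢
  exact hx.2 _ hs

theorem piece_sat_Zo {n : ℕ} (U F : Set (E n)) (e : E n) : PieceSat U (Zo U F e) e := by
  intro x hx c hc
  refine ⟨hc, fun s hs => ?_⟩
  rw [piece_shift] at hs ⊢
  exact hx.2 _ hs

theorem piece_sat_compl {n : ℕ} {U S : Set (E n)} {e : E n} (hS : PieceSat U S e) :
    PieceSat U (U \ S) e := by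
  intro x hx c hc
  refine ⟨hc, fun h => hx.2 ?_⟩
  have := hS _ h (-c) (by rw [piece_shift, add_neg_cancel, zero_smul, add_zero]; exact hx.1)
  rwa [piece_shift, add_neg_cancel, zero_smul, add_zero] at this

/-- The segment of a line, inside a saturated set. -/
theorem piece_seg {n : ℕ} {U S : Set (E n)} {e : E n} (hU : Convex ℝ U) (hSU : S ⊆ U)
    (hS : PieceSat U S e) {x : E n} (hx : x ∈ S) {c : ℝ} (hc : x + c • e ∈ U) :
    ∃ T : Set (E n), T ⊆ S ∧ x ∈ T ∧ x + c • e ∈ T ∧ IsPreconnected T := by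
  refine ⟨segment ℝ x (x + c • e), ?_, left_mem_segment _ _ _, right_mem_segment _ _ _,
    (convex_segment _ _).isPreconnected⟩
  intro z hz
  have hzU := hU.segment_subset (hSU hx) hc hz
  rw [segment_eq_image'] at hz
  obtain ⟨t, -, rfl⟩ := hz
  have hrw : x + t • (x + c • e - x) = x + (t * c) • e := by
    rw [add_sub_cancel_left, smul_smul]
  dsimp only at hzU ⊢
  rw [hrw] at hzU ⊢
  exact hS x hx _ hzU

/-- Points on a line near a given point. -/
theorem piece_near {n : ℕ} {U : Set (E n)} (hU : IsOpen U) {x e : E n} {s₀ : ℝ}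
    (h : x + s₀ • e ∈ U) : ∃ s < s₀, x + s • e ∈ U := by
  have hc : Continuous fun s : ℝ => x + s • e := by fun_prop
  have hev : ∀ᶠ s in 𝓝 s₀, x + s • e ∈ U := hc.continuousAt.eventually (hU.mem_nhds h)
  have hev' : ∀ᶠ s in 𝓝[<] s₀, x + s • e ∈ U := hev.filter_mono nhdsWithin_le_nhds
  obtain ⟨s, hs, hs'⟩ := (hev'.and self_mem_nhdsWithin).exists
  exact ⟨s, hs', hs⟩

theorem piece_disj {n : ℕ} {U F : Set (E n)} {e : E n} (hU : IsOpen U) (hF : IsClosed F)
    {x : E n} (h1 : x ∈ Ap U F e) (h2 : x ∈ Am U F e) : False := by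
  obtain ⟨-, s₀, hs0U, hs0F, hs0l, hs0r⟩ := h1
  obtain ⟨-, s₁, hs1U, hs1F, hs1l, hs1r⟩ := h2
  have hin : x + s₁ • e ∈ F := hF.frontier_subset hs1F
  have hnin : x + s₁ • e ∉ interior F := hs1F.2
  rcases lt_trichotomy s₁ s₀ with h | h | h
  · exact hs0l s₁ h hs1U hin
  · subst h
    obtain ⟨s, hs, hsU⟩ := piece_near hU hs1U
    exact hs0l s hs hsU (interior_subset (hs1l s hs hsU))
  · exact hnin (hs0r s₁ h hs1U)

theorem piece (h1 : Stmt_Unicoh) (h2 : Stmt_Lines) : Stmt_Piece := by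
  intro n U F e hUo hUc hG hFU hnUF hHC
  obtain ⟨hUeq, hAp, hAm, hBCo, hBEo⟩ := h2 n U F e hUo hUc hG
  have hFc := hG.closed
  have hcls : ∀ x ∈ U, x ∈ Zi U F e ∨ x ∈ Zo U F e ∨ x ∈ Ap U F e ∨ x ∈ Am U F e := by
    intro x hx
    rw [hUeq] at hx
    rcases hx with ((h | h) | h) | h
    · exact Or.inl h
    · exact Or.inr (Or.inl h)
    · exact Or.inr (Or.inr (Or.inl h))
    · exact Or.inr (Or.inr (Or.inr h))
  have hz : ∀ x : E n, x + (0 : ℝ) • e = x := fun x => by rw [zero_smul, add_zero]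
  have hZiF : ∀ x ∈ Zi U F e, x ∈ interior F := by
    intro x hx
    have := hx.2 0 (by rw [hz]; exact hx.1)
    rwa [hz] at this
  have hZoF : ∀ x ∈ Zo U F e, x ∉ F := by
    intro x hx
    have := hx.2 0 (by rw [hz]; exact hx.1)
    rwa [hz] at this
  set BC : Set (E n) := U \ Zi U F e with hBC
  set BE : Set (E n) := U \ Zo U F e with hBE
  have hsC : PieceSat U BC e := piece_sat_compl (piece_sat_Zi U F e)
  have hsE : PieceSat U BE e := piece_sat_compl (piece_sat_Zo U F e)
  have hBCU : BC ⊆ U := sdiff_subset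
  have hBEU : BE ⊆ U := sdiff_subset
  -- every line in BC has a point outside of F
  have hout : ∀ x ∈ BC, ∃ s : ℝ, x + s • e ∈ U ∧ x + s • e ∉ F := by
    intro x hx
    rcases hcls x hx.1 with h | h | h | h
    · exact absurd h hx.2
    · exact ⟨0, by rw [hz]; exact hx.1, by rw [hz]; exact hZoF x h⟩
    · obtain ⟨-, s₀, hs0U, -, hs0l, -⟩ := h
      obtain ⟨s, hs, hsU⟩ := piece_near hUo hs0U
      exact ⟨s, hsU, hs0l s hs hsU⟩
    · obtain ⟨-, s₀, hs0U, -, -, hs0r⟩ := h
      have hs0U' : x + (-s₀) • (-e) ∈ U := by rwa [neg_smul_neg]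
      obtain ⟨s, hs, hsU⟩ := piece_near hUo hs0U'
      rw [smul_neg, ← neg_smul] at hsU
      exact ⟨-s, hsU, hs0r (-s) (by linarith) hsU⟩
  have hoF : ∀ x ∈ U, x ∉ F → x ∈ BC := by
    intro x hx hxF
    exact ⟨hx, fun h => hxF (interior_subset (hZiF x h))⟩
  -- BC is preconnected
  have hBCc : IsPreconnected BC := by
    intro u v hu hv huv hnu hnv
    by_contra hne
    rw [not_nonempty_iff_eq_empty] at hne
    have hside : ∀ (u v : Set (E n)), IsOpen u → IsOpen v → BC ⊆ u ∪ v → BC ∩ (u ∩ v) = ∅ →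
        PieceSat U (BC ∩ u) e := by
      intro u v hu hv huv hne x hx c hc
      obtain ⟨T, hTS, hxT, hyT, hTc⟩ := piece_seg hUc hBCU hsC hx.1 hc
      refine ⟨hTS hyT, ?_⟩
      by_contra hyu
      have hyv : x + c • e ∈ v := by
        rcases huv (hTS hyT) with h | h
        · exact absurd h hyu
        · exact h
      obtain ⟨z, hz1, hz2⟩ := hTc u v hu hv (hTS.trans huv) ⟨x, hxT, hx.2⟩ ⟨_, hyT, hyv⟩
      have : z ∈ BC ∩ (u ∩ v) := ⟨hTS hz1, hz2⟩
      rw [hne] at this
      exact this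
    have hsu := hside u v hu hv huv hne
    have hsv := hside v u hv hu (by rwa [union_comm]) (by rwa [inter_comm v u])
    have hne1 : ∀ w : Set (E n), PieceSat U (BC ∩ w) e → (BC ∩ w).Nonempty →
        (BC ∩ w) \ F ≠ ∅ := by
      rintro w hw ⟨x, hx⟩
      obtain ⟨s, hsU, hsF⟩ := hout x hx.1
      exact Nonempty.ne_empty ⟨x + s • e, hw x hx s hsU, hsF⟩
    have hcu : (BC ∩ u) \ F ∪ (BC ∩ v) \ F = U \ F := by
      ext x
      constructor
      · rintro (h | h)
        · exact ⟨hBCU h.1.1, h.2⟩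
        · exact ⟨hBCU h.1.1, h.2⟩
      · intro h
        have hxB := hoF x h.1 h.2
        rcases huv hxB with h' | h'
        · exact Or.inl ⟨⟨hxB, h'⟩, h.2⟩
        · exact Or.inr ⟨⟨hxB, h'⟩, h.2⟩
    have hcd : closure ((BC ∩ u) \ F) ∩ closure ((BC ∩ v) \ F) ∩ U = ∅ := by
      rw [eq_empty_iff_forall_notMem]
      rintro x ⟨⟨hx1, hx2⟩, hxU⟩
      rw [mem_closure_iff] at hx1 hx2
      by_cases hxi : x ∈ Zi U F e
      · obtain ⟨y, hy1, hy2⟩ := hx1 (interior F) isOpen_interior (hZiF x hxi)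
        exact hy2.2 (interior_subset hy1)
      · have hxB : x ∈ BC := ⟨hxU, hxi⟩
        have hcontra : ∀ y, y ∈ BC → y ∈ u → y ∈ v → False := by
          intro y hy hyu hyv
          have : y ∈ BC ∩ (u ∩ v) := ⟨hy, hyu, hyv⟩
          rw [hne] at this
          exact this
        rcases huv hxB with h' | h'
        · obtain ⟨y, hy1, hy2⟩ := hx2 (BC ∩ u) (hBCo.inter hu) ⟨hxB, h'⟩
          exact hcontra y hy1.1 hy1.2 hy2.1.2
        · obtain ⟨y, hy1, hy2⟩ := hx1 (BC ∩ v) (hBCo.inter hv) ⟨hxB, h'⟩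
          exact hcontra y hy1.1 hy2.1.2 hy1.2
    rcases hHC ((BC ∩ u) \ F) ((BC ∩ v) \ F) ((hBCo.inter hu).sdiff hFc)
      ((hBCo.inter hv).sdiff hFc) hcu hcd with h | h
    · exact hne1 u hsu hnu h
    · exact hne1 v hsv hnv h
  -- the component
  obtain ⟨p, hpF, hpU⟩ := hFU
  have hpE : p ∈ BE := ⟨hpU, fun h => hZoF p h hpF⟩
  set B₁ : Set (E n) := connectedComponentIn BE p with hB1
  have hB1o : IsOpen B₁ := hBEo.connectedComponentIn
  have hB1c : IsPreconnected B₁ := isPreconnected_connectedComponentIn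
  have hB1E : B₁ ⊆ BE := connectedComponentIn_subset _ _
  have hpB : p ∈ B₁ := mem_connectedComponentIn hpE
  have hB1sat : PieceSat U B₁ e := by
    intro x hx c hc
    obtain ⟨T, hTS, hxT, hyT, hTc⟩ := piece_seg hUc hBEU hsE (hB1E hx) hc
    have hsub := hTc.subset_connectedComponentIn hxT hTS
    have heq : connectedComponentIn BE p = connectedComponentIn BE x :=
      connectedComponentIn_eq hx
    rw [hB1, heq]
    exact hsub hyT
  -- other components
  have hother : ∀ y ∈ BE \ B₁, connectedComponentIn BE y ⊆ BE \ B₁ := by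
    intro y hy z hz
    refine ⟨connectedComponentIn_subset _ _ hz, fun hz1 => hy.2 ?_⟩
    have e1 : connectedComponentIn BE y = connectedComponentIn BE z :=
      connectedComponentIn_eq hz
    have e2 : connectedComponentIn BE p = connectedComponentIn BE z :=
      connectedComponentIn_eq hz1
    rw [hB1, e2, ← e1]
    exact mem_connectedComponentIn hy.1
  have hRo : IsOpen (BE \ B₁) := by
    rw [isOpen_iff_mem_nhds]
    intro y hy
    exact Filter.mem_of_superset
      ((hBEo.connectedComponentIn (x := y)).mem_nhds (mem_connectedComponentIn hy.1))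
      (hother y hy)
  -- the piece
  have hFB : (F ∩ B₁) ⊆ F ∩ U := inter_subset_inter_right _ (hB1E.trans hBEU)
  -- orientation
  set BC' : Set (E n) := BC ∪ (BE \ B₁) with hBC'
  have hBC'o : IsOpen BC' := hBCo.union hRo
  have hmeet : ∀ y ∈ BE \ B₁, (connectedComponentIn BE y ∩ BC).Nonempty := by
    intro y hy
    by_contra hne
    rw [not_nonempty_iff_eq_empty] at hne
    have hjo : IsOpen (connectedComponentIn BE y) := hBEo.connectedComponentIn
    have hjZ : connectedComponentIn BE y ⊆ Zi U F e := by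
      intro z hz
      by_contra hzi
      have : z ∈ connectedComponentIn BE y ∩ BC :=
        ⟨hz, hBEU (connectedComponentIn_subset _ _ hz), hzi⟩
      rw [hne] at this
      exact this
    have hcl : U ∩ closure (connectedComponentIn BE y) ⊆ connectedComponentIn BE y := by
      rintro z ⟨hzU, hzc⟩
      rw [mem_closure_iff] at hzc
      have hzi : z ∈ Zi U F e := by
        by_contra hzi
        obtain ⟨w, hw1, hw2⟩ := hzc BC hBCo ⟨hzU, hzi⟩
        exact hw1.2 (hjZ hw2)
      have hzE : z ∈ BE := ⟨hzU, fun h => hZoF z h (interior_subset (hZiF z hzi))⟩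
      obtain ⟨w, hw1, hw2⟩ := hzc _ (hBEo.connectedComponentIn (x := z))
        (mem_connectedComponentIn hzE)
      have e1 : connectedComponentIn BE y = connectedComponentIn BE w :=
        connectedComponentIn_eq hw2
      have e2 : connectedComponentIn BE z = connectedComponentIn BE w :=
        connectedComponentIn_eq hw1
      rw [e1, ← e2]
      exact mem_connectedComponentIn hzE
    apply hnUF
    intro x hxU
    by_contra hxF
    have hxj : x ∉ connectedComponentIn BE y := fun h =>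
      hxF (interior_subset (hZiF x (hjZ h)))
    obtain ⟨w, -, hw1, hw2⟩ := hUc.isPreconnected (connectedComponentIn BE y)
      (closure (connectedComponentIn BE y))ᶜ hjo isClosed_closure.isOpen_compl
      (by
        intro z hzU
        by_cases hzc : z ∈ closure (connectedComponentIn BE y)
        · exact Or.inl (hcl ⟨hzU, hzc⟩)
        · exact Or.inr hzc)
      ⟨y, hBEU hy.1, mem_connectedComponentIn hy.1⟩
      ⟨x, hxU, fun h => hxj (hcl ⟨hxU, h⟩)⟩
    exact hw2 (subset_closure hw1)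
  have hBCne : BC.Nonempty := by
    obtain ⟨x, hxU, hxF⟩ := not_subset.mp hnUF
    exact ⟨x, hoF x hxU hxF⟩
  have hBC'c : IsPreconnected BC' := by
    obtain ⟨x, hx⟩ := hBCne
    refine isPreconnected_of_forall x fun y hy => ?_
    rcases hy with hy | hy
    · exact ⟨BC, subset_union_left, hx, hy, hBCc⟩
    · obtain ⟨w, hw1, hw2⟩ := hmeet y hy
      refine ⟨BC ∪ connectedComponentIn BE y,
        union_subset_union_right _ (hother y hy), Or.inl hx,
        Or.inr (mem_connectedComponentIn hy.1), ?_⟩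
      exact hBCc.union w hw2 hw1 isPreconnected_connectedComponentIn
  have hcover : B₁ ∪ BC' = U := by
    apply Subset.antisymm
    · exact union_subset (hB1E.trans hBEU) (union_subset hBCU (sdiff_subset.trans hBEU))
    · intro x hx
      by_cases hxo : x ∈ Zo U F e
      · exact Or.inr (Or.inl (hoF x hx (hZoF x hxo)))
      · by_cases hxB : x ∈ B₁
        · exact Or.inl hxB
        · exact Or.inr (Or.inr ⟨⟨hx, hxo⟩, hxB⟩)
  have huni := h1 n U B₁ BC' hUo hUc hB1o hBC'o hB1c hBC'c hcover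
  have hor : Ap U F e ∩ B₁ = ∅ ∨ Am U F e ∩ B₁ = ∅ := by
    by_contra hcon
    push Not at hcon
    obtain ⟨⟨x, hx1, hx2⟩, ⟨y, hy1, hy2⟩⟩ := hcon
    have hpm : ∀ z, z ∈ Ap U F e ∨ z ∈ Am U F e → z ∈ BC := by
      intro z hz'
      have hzU : z ∈ U := by rcases hz' with h | h <;> exact h.1
      refine ⟨hzU, fun hzi => ?_⟩
      rcases hz' with h | h
      · obtain ⟨-, s₀, hs0U, hs0F, -, -⟩ := h
        exact hs0F.2 (hzi.2 s₀ hs0U)
      · obtain ⟨-, s₀, hs0U, hs0F, -, -⟩ := h
        exact hs0F.2 (hzi.2 s₀ hs0U)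
    obtain ⟨z, -, hz1, hz2⟩ := huni (Ap U F e) (Am U F e) hAp hAm (by
        rintro z ⟨hzB, hzC⟩
        have hzE := hB1E hzB
        have hzC' : z ∈ BC := by
          rcases hzC with h | h
          · exact h
          · exact absurd hzB h.2
        rcases hcls z hzE.1 with h | h | h | h
        · exact absurd h hzC'.2
        · exact absurd h hzE.2
        · exact Or.inl h
        · exact Or.inr h)
      ⟨x, ⟨hx2, Or.inl (hpm x (Or.inl hx1))⟩, hx1⟩
      ⟨y, ⟨hy2, Or.inl (hpm y (Or.inr hy1))⟩, hy1⟩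
    exact piece_disj hUo hFc hz1 hz2
  have hmain : ∀ σ : ℝ, (σ = 1 ∧ Am U F e ∩ B₁ = ∅ ∨ σ = -1 ∧ Ap U F e ∩ B₁ = ∅) →
      ∀ x ∈ F ∩ B₁, ∀ s : ℝ, 0 ≤ s → x + (s * σ) • e ∈ U → x + (s * σ) • e ∈ F ∩ B₁ := by
    intro σ hσ x hx s hs hxs
    refine ⟨?_, hB1sat x hx.2 _ hxs⟩
    have hxE := hB1E hx.2
    rcases hcls x hxE.1 with h | h | h | h
    · exact interior_subset (h.2 _ hxs)
    · exact absurd h hxE.2
    · have h' : x ∈ Ap U F e ∩ B₁ := ⟨h, hx.2⟩
      rcases hσ with ⟨rfl, -⟩ | ⟨-, hem⟩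
      · obtain ⟨-, s₀, hs0U, hs0F, hs0l, hs0r⟩ := h
        have hs0 : s₀ ≤ 0 := by
          by_contra hcon
          push Not at hcon
          refine hs0l 0 hcon ?_ ?_
          · rw [hz]; exact hxE.1
          · rw [hz]; exact hx.1
        rw [mul_one] at hxs ⊢
        rcases lt_or_eq_of_le (hs0.trans hs) with h3 | h3
        · exact interior_subset (hs0r s h3 hxs)
        · rw [← h3]
          exact hFc.frontier_subset hs0F
      · rw [hem] at h'
        exact absurd h' (notMem_empty _)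
    · have h' : x ∈ Am U F e ∩ B₁ := ⟨h, hx.2⟩
      rcases hσ with ⟨-, hem⟩ | ⟨rfl, -⟩
      · rw [hem] at h'
        exact absurd h' (notMem_empty _)
      · obtain ⟨-, s₀, hs0U, hs0F, hs0l, hs0r⟩ := h
        have hs0 : 0 ≤ s₀ := by
          by_contra hcon
          push Not at hcon
          refine hs0r 0 hcon ?_ ?_
          · rw [hz]; exact hxE.1
          · rw [hz]; exact hx.1
        rw [mul_neg, mul_one] at hxs ⊢
        have hle : -s ≤ s₀ := by linarith
        rcases lt_or_eq_of_le hle with h3 | h3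
        · exact interior_subset (hs0l (-s) h3 hxs)
        · rw [h3]
          exact hFc.frontier_subset hs0F
  have hGint : (interior (F ∩ B₁)).Nonempty := by
    have hp : p ∈ closure (interior F) := by rw [hG.reg]; exact hpF
    obtain ⟨w, hw1, hw2⟩ := mem_closure_iff.mp hp B₁ hB1o hpB
    refine ⟨w, ?_⟩
    rw [interior_inter, hB1o.interior_eq]
    exact ⟨hw2, hw1⟩
  have hclo : closure (F ∩ B₁) ∩ closure ((F ∩ U) \ (F ∩ B₁)) ∩ U = ∅ := by
    rw [eq_empty_iff_forall_notMem]
    rintro z ⟨⟨hz1, hz2⟩, hzU⟩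
    have hzF : z ∈ F := closure_minimal inter_subset_left hFc hz1
    have hzE : z ∈ BE := ⟨hzU, fun h => hZoF z h hzF⟩
    by_cases hzB : z ∈ B₁
    · obtain ⟨w, hw1, hw2⟩ := mem_closure_iff.mp hz2 B₁ hB1o hzB
      exact hw2.2 ⟨hw2.1.1, hw1⟩
    · obtain ⟨w, hw1, hw2⟩ := mem_closure_iff.mp hz1 _ hRo ⟨hzE, hzB⟩
      exact hw1.2 hw2.2
  rcases hor with h | h
  · exact ⟨F ∩ B₁, -1, hFB, hFc.measurableSet.inter hB1o.measurableSet, hGint, Or.inr rfl, hclo,
      hmain (-1) (Or.inr ⟨rfl, h⟩)⟩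
  · exact ⟨F ∩ B₁, 1, hFB, hFc.measurableSet.inter hB1o.measurableSet, hGint, Or.inl rfl, hclo,
      hmain 1 (Or.inl ⟨rfl, h⟩)⟩

end Pool.Agent.Lib.MP_c95dcf_gt
end

section

/-!
# MP_c95dcf_gt, task B05: polar coordinates and the masses of the slices
-/

set_option autoImplicit false

open MeasureTheory Set Filter Topology
open scoped ENNReal NNReal

namespace Pool.Agent.Lib.MP_c95dcf_gt

theorem b05_measurable_wp (m : ℕ) : Measurable (wp m) := by
  unfold wp
  fun_prop

theorem b05_measurable_Wp (m : ℕ) : Measurable (Wp m) := by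
  unfold Wp
  exact (b05_measurable_wp m).pow_const m

theorem b05_measurable_hp (m : ℕ) : Measurable (hp m) := by
  unfold hp
  exact measurable_id.mul (b05_measurable_Wp m)

theorem b05_wp_nonneg (m : ℕ) (r : ℝ) : 0 ≤ wp m r := le_max_left _ _

theorem b05_wp_le_one (m : ℕ) {r : ℝ} (hr : 0 ≤ r) : wp m r ≤ 1 := by
  unfold wp
  have : 0 ≤ r / (m : ℝ) := div_nonneg hr (Nat.cast_nonneg m)
  exact max_le zero_le_one (by linarith)

theorem b05_Wp_nonneg (m : ℕ) (r : ℝ) : 0 ≤ Wp m r := pow_nonneg (b05_wp_nonneg m r) m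

theorem b05_Wp_le_one (m : ℕ) {r : ℝ} (hr : 0 ≤ r) : Wp m r ≤ 1 :=
  pow_le_one₀ (b05_wp_nonneg m r) (b05_wp_le_one m hr)

theorem b05_hp_nonneg (m : ℕ) {r : ℝ} (hr : 0 ≤ r) : 0 ≤ hp m r :=
  mul_nonneg hr (b05_Wp_nonneg m r)

theorem b05_hp_le (m : ℕ) {r : ℝ} (hr : 0 ≤ r) : hp m r ≤ r :=
  mul_le_of_le_one_right hr (b05_Wp_le_one m hr)

/-- The slicing set in the product. -/
def b05_S (m : ℕ) (A : Set ℂ) : Set (ℝ × ℝ) :=
  {p | p.2 ∈ Ioo 0 (m : ℝ) ∧ (p.2 : ℂ) * Complex.exp (p.1 * Complex.I) ∈ A}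

theorem b05_measurableSet_S (m : ℕ) {A : Set ℂ} (hA : MeasurableSet A) :
    MeasurableSet (b05_S m A) := by
  have h1 : MeasurableSet {p : ℝ × ℝ | p.2 ∈ Ioo 0 (m : ℝ)} :=
    measurableSet_Ioo.preimage measurable_snd
  have h2 : Measurable (fun p : ℝ × ℝ => (p.2 : ℂ) * Complex.exp (p.1 * Complex.I)) := by
    fun_prop
  exact h1.inter (h2 hA)

theorem b05_measurableSet_Sl (m : ℕ) {A : Set ℂ} (hA : MeasurableSet A) (θ : ℝ) :
    MeasurableSet (Sl m A θ) :=
  (b05_measurableSet_S m hA).preimage (measurable_const.prodMk measurable_id : Measurable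
    (fun r : ℝ => (θ, r)))

theorem b05_Sl_subset (m : ℕ) (A : Set ℂ) (θ : ℝ) : Sl m A θ ⊆ Ioo 0 (m : ℝ) := fun _ h => h.1

/-- Measurability of the parametric integrals over the slices. -/
theorem b05_measurable_slice (m : ℕ) {A : Set ℂ} (hA : MeasurableSet A) {k : ℝ → ℝ}
    (hk : Measurable k) : Measurable (fun θ => ∫ r in Sl m A θ, k r) := by
  have h1 : StronglyMeasurable (Function.uncurry (fun (θ r : ℝ) =>
      (b05_S m A).indicator (fun p : ℝ × ℝ => k p.2) (θ, r))) := by
    apply Measurable.stronglyMeasurable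
    exact (hk.comp measurable_snd).indicator (b05_measurableSet_S m hA)
  have h2 := h1.integral_prod_right (ν := volume)
  have h3 : (fun θ => ∫ r in Sl m A θ, k r) =
      (fun θ => ∫ r, (b05_S m A).indicator (fun p : ℝ × ℝ => k p.2) (θ, r)) := by
    funext θ
    rw [← integral_indicator (b05_measurableSet_Sl m hA θ)]
    congr 1
  rw [h3]
  exact h2.measurable

theorem b05_intOn {k : ℝ → ℝ} {m : ℕ} {C : ℝ} (hk : Measurable k)
    (hb : ∀ r ∈ Ioo 0 (m : ℝ), |k r| ≤ C) {S : Set ℝ} (hS : MeasurableSet S)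
    (hSm : S ⊆ Ioo 0 (m : ℝ)) : IntegrableOn k S := by
  refine Measure.integrableOn_of_bounded (M := C) ?_ hk.aestronglyMeasurable ?_
  · exact ((measure_mono hSm).trans_lt (by simp)).ne
  · refine (ae_restrict_iff' hS).2 (Eventually.of_forall fun r hr => ?_)
    rw [Real.norm_eq_abs]
    exact hb r (hSm hr)

theorem b05_hp_bound (m : ℕ) : ∀ r ∈ Ioo 0 (m : ℝ), |hp m r| ≤ m := by
  intro r hr
  rw [abs_of_nonneg (b05_hp_nonneg m hr.1.le)]
  exact (b05_hp_le m hr.1.le).trans hr.2.le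

theorem b05_measurable_min (m : ℕ) (R' : ℝ) : Measurable (fun r => min 1 (R' / r) * hp m r) := by
  have := b05_measurable_hp m
  fun_prop

theorem b05_min_nonneg {R' r : ℝ} (hR : 0 < R') (hr : 0 < r) : 0 ≤ min 1 (R' / r) :=
  le_min zero_le_one (div_pos hR hr).le

theorem b05_min_bound (m : ℕ) {R' : ℝ} (hR : 0 < R') :
    ∀ r ∈ Ioo 0 (m : ℝ), |min 1 (R' / r) * hp m r| ≤ m := by
  intro r hr
  rw [abs_of_nonneg (mul_nonneg (b05_min_nonneg hR hr.1) (b05_hp_nonneg m hr.1.le))]
  have h1 : min 1 (R' / r) * hp m r ≤ 1 * hp m r :=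
    mul_le_mul_of_nonneg_right (min_le_left _ _) (b05_hp_nonneg m hr.1.le)
  have h2 := b05_hp_le m hr.1.le
  have h3 := hr.2
  linarith

theorem slices : Stmt_Slices := by
  intro m R' A _ hR hA
  refine ⟨b05_measurable_slice m hA (b05_measurable_hp m),
    b05_measurable_slice m hA (b05_measurable_min m R'), fun θ => ?_⟩
  have hS := b05_measurableSet_Sl m hA θ
  have hSs := b05_Sl_subset m A θ
  have i1 : IntegrableOn (hp m) (Sl m A θ) :=
    b05_intOn (b05_measurable_hp m) (b05_hp_bound m) hS hSs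
  have i2 : IntegrableOn (fun r => min 1 (R' / r) * hp m r) (Sl m A θ) :=
    b05_intOn (b05_measurable_min m R') (b05_min_bound m hR) hS hSs
  have i3 : IntegrableOn (hp m) (Ioo 0 (m : ℝ)) :=
    b05_intOn (b05_measurable_hp m) (b05_hp_bound m) measurableSet_Ioo subset_rfl
  refine ⟨?_, ?_, ?_, ?_⟩
  · exact setIntegral_nonneg hS fun r hr =>
      mul_nonneg (b05_min_nonneg hR (hSs hr).1) (b05_hp_nonneg m (hSs hr).1.le)
  · refine setIntegral_mono_on i2 i1 hS fun r hr => ?_
    have h1 := mul_le_mul_of_nonneg_right (min_le_left 1 (R' / r))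
      (b05_hp_nonneg m (hSs hr).1.le)
    linarith
  · have i4 : IntegrableOn (hp m) (Ioo R' (m : ℝ)) :=
      i3.mono_set (Ioo_subset_Ioo_left hR.le)
    have e1 : vp m R' = ∫ r in Ioo 0 (m : ℝ), (Ioo R' (m : ℝ)).indicator (hp m) r := by
      rw [setIntegral_indicator measurableSet_Ioo,
        inter_eq_self_of_subset_right (Ioo_subset_Ioo_left hR.le)]
      rfl
    have i5 : IntegrableOn ((Ioo R' (m : ℝ)).indicator (hp m)) (Ioo 0 (m : ℝ)) :=
      i3.indicator measurableSet_Ioo
    have e2 : ∫ r in Sl m A θ, (Ioo R' (m : ℝ)).indicator (hp m) r ≤ vp m R' := by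
      rw [e1]
      refine setIntegral_mono_set i5 ?_ (LE.le.eventuallyLE hSs)
      refine (ae_restrict_iff' measurableSet_Ioo).2 (Eventually.of_forall fun r hr => ?_)
      exact indicator_nonneg (fun s hs => b05_hp_nonneg m (hR.le.trans hs.1.le)) r
    have e3 : vth m A θ ≤ ∫ r in Sl m A θ, (min 1 (R' / r) * hp m r +
        (Ioo R' (m : ℝ)).indicator (hp m) r) := by
      refine setIntegral_mono_on i1 (i2.add (i5.mono_set hSs)) hS fun r hr => ?_
      have hr' := hSs hr
      have hh := b05_hp_nonneg m hr'.1.le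
      by_cases h : R' < r
      · rw [indicator_of_mem (show r ∈ Ioo R' (m : ℝ) from ⟨h, hr'.2⟩)]
        have := mul_nonneg (b05_min_nonneg hR hr'.1) hh
        linarith
      · rw [indicator_of_notMem (fun h' => h h'.1)]
        have h1 : min 1 (R' / r) = 1 := min_eq_left (by
          rw [le_div_iff₀ hr'.1]
          linarith [not_lt.1 h])
        rw [h1]
        linarith
    rw [integral_add i2 (i5.mono_set hSs)] at e3
    have e4 : vt m R' A θ = ∫ r in Sl m A θ, min 1 (R' / r) * hp m r := rfl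
    linarith
  · refine setIntegral_mono_set i3 ?_ (LE.le.eventuallyLE hSs)
    refine (ae_restrict_iff' measurableSet_Ioo).2 (Eventually.of_forall fun r hr => ?_)
    exact b05_hp_nonneg m hr.1.le

theorem b05_symm_eq (r θ : ℝ) : Complex.polarCoord.symm (r, θ) =
    (r : ℂ) * Complex.exp (θ * Complex.I) := by
  rw [Complex.polarCoord_symm_apply, Complex.exp_mul_I]
  simp

theorem polar : Stmt_Polar := by
  intro m A _ hA
  have hb : MeasurableSet (A ∩ Metric.ball (0 : ℂ) m) := hA.inter Metric.isOpen_ball.measurableSet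
  have e1 : V0 m A = ∫ c, (A ∩ Metric.ball (0 : ℂ) m).indicator (fun c => Wp m ‖c‖) c := by
    rw [integral_indicator hb]
    rfl
  have hmeas : Measurable (fun c : ℂ => Wp m ‖c‖) := (b05_measurable_Wp m).comp measurable_norm
  rw [e1, ← Complex.integral_comp_polarCoord_symm]
  have hT : polarCoord.target = Ioi (0 : ℝ) ×ˢ Ioo (-Real.pi) Real.pi := rfl
  rw [hT]
  have e2 : ∀ p : ℝ × ℝ, p ∈ Ioi (0 : ℝ) ×ˢ Ioo (-Real.pi) Real.pi →
      p.1 • (A ∩ Metric.ball (0 : ℂ) m).indicator (fun c => Wp m ‖c‖)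
        (Complex.polarCoord.symm p) = (Sl m A p.2).indicator (hp m) p.1 := by
    rintro ⟨r, θ⟩ ⟨hr, -⟩
    have hr' : 0 < r := hr
    simp only
    rw [b05_symm_eq]
    have hn : ‖(r : ℂ) * Complex.exp (θ * Complex.I)‖ = r := by
      rw [norm_mul, Complex.norm_exp_ofReal_mul_I, mul_one, Complex.norm_real,
        Real.norm_of_nonneg hr'.le]
    by_cases h : r ∈ Sl m A θ
    · have h1 : (r : ℂ) * Complex.exp (θ * Complex.I) ∈ A ∩ Metric.ball (0 : ℂ) m := by
        refine ⟨h.2, ?_⟩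
        rw [Metric.mem_ball, dist_zero_right, hn]
        exact h.1.2
      rw [indicator_of_mem h1, indicator_of_mem h]
      simp only [hn]
      rfl
    · have h1 : (r : ℂ) * Complex.exp (θ * Complex.I) ∉ A ∩ Metric.ball (0 : ℂ) m := by
        rintro ⟨h1, h2⟩
        rw [Metric.mem_ball, dist_zero_right, hn] at h2
        exact h ⟨⟨hr', h2⟩, h1⟩
      rw [indicator_of_notMem h1, indicator_of_notMem h, smul_zero]
  rw [setIntegral_congr_fun (measurableSet_Ioi.prod measurableSet_Ioo) e2]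
  have hgm : Measurable (fun p : ℝ × ℝ => (Sl m A p.2).indicator (hp m) p.1) := by
    have : (fun p : ℝ × ℝ => (Sl m A p.2).indicator (hp m) p.1) =
        (fun q : ℝ × ℝ => (b05_S m A).indicator (fun p : ℝ × ℝ => hp m p.2) q) ∘ Prod.swap := by
      funext p
      rfl
    rw [this]
    exact (((b05_measurable_hp m).comp measurable_snd).indicator
      (b05_measurableSet_S m hA)).comp measurable_swap
  have hint : Integrable (fun p : ℝ × ℝ => (Sl m A p.2).indicator (hp m) p.1)
      ((volume.restrict (Ioi (0 : ℝ))).prod (volume.restrict (Ioo (-Real.pi) Real.pi))) := by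
    rw [Measure.prod_restrict]
    have hsup : ∀ p : ℝ × ℝ, p.1 ∉ Ioo 0 (m : ℝ) →
        (Sl m A p.2).indicator (hp m) p.1 = 0 := fun p hp' =>
      indicator_of_notMem (fun h => hp' h.1) _
    have h3 : IntegrableOn (fun p : ℝ × ℝ => (Sl m A p.2).indicator (hp m) p.1)
        (Ioo (0 : ℝ) m ×ˢ Ioo (-Real.pi) Real.pi) (volume.prod volume) := by
      refine Measure.integrableOn_of_bounded (M := (m : ℝ)) ?_ hgm.aestronglyMeasurable ?_
      · rw [Measure.prod_prod]
        exact ENNReal.mul_ne_top (by simp) (by simp)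
      · refine Eventually.of_forall fun p => ?_
        by_cases h : p.1 ∈ Sl m A p.2
        · rw [indicator_of_mem h, Real.norm_eq_abs]
          exact b05_hp_bound m _ h.1
        · rw [indicator_of_notMem h]
          simp
    refine IntegrableOn.of_forall_sdiff_eq_zero h3
      (measurableSet_Ioi.prod measurableSet_Ioo) ?_
    rintro p ⟨hp1, hp2⟩
    apply hsup
    intro h
    exact hp2 ⟨h, hp1.2⟩
  have e3 : ∫ p in Ioi (0 : ℝ) ×ˢ Ioo (-Real.pi) Real.pi, (Sl m A p.2).indicator (hp m) p.1 =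
      ∫ p, (Sl m A p.2).indicator (hp m) p.1
        ∂((volume.restrict (Ioi (0 : ℝ))).prod (volume.restrict (Ioo (-Real.pi) Real.pi))) := by
    rw [Measure.prod_restrict]
    rfl
  rw [e3, integral_prod_symm _ hint]
  refine integral_congr_ae (Eventually.of_forall fun θ => ?_)
  simp only
  rw [setIntegral_indicator (b05_measurableSet_Sl m hA θ)]
  unfold vth
  congr 2
  exact inter_eq_self_of_subset_right ((b05_Sl_subset m A θ).trans Ioo_subset_Ioi_self)

end Pool.Agent.Lib.MP_c95dcf_gt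
end

section

/-!
# MP_c95dcf_gt, task B18: area and perimeter of the rings
-/

set_option autoImplicit false

open MeasureTheory Set Filter Topology
open scoped ENNReal NNReal ComplexConjugate

namespace Pool.Agent.Lib.MP_c95dcf_gt

/-- The unit vector of angle `θ`. -/
noncomputable def b18_e (θ : ℝ) : ℂ := Complex.exp (θ * Complex.I)

theorem b18_norm_e (θ : ℝ) : ‖b18_e θ‖ = 1 := Complex.norm_exp_ofReal_mul_I θ

theorem b18_cont_e : Continuous b18_e := by
  unfold b18_e
  fun_prop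

theorem b18_hasDeriv_e (θ : ℝ) : HasDerivAt b18_e (Complex.I * b18_e θ) θ := by
  have h1 : HasDerivAt (fun t : ℝ => ((t : ℂ) * Complex.I)) (1 * Complex.I) θ :=
    (Complex.ofRealCLM.hasDerivAt).mul_const Complex.I
  have h2 := h1.cexp
  unfold b18_e
  convert h2 using 1
  ring

/-- The divergence in a rotated frame. -/
theorem b18_trace (L : ℂ →L[ℝ] ℂ) (e : ℂ) (he : ‖e‖ = 1) :
    (L e * conj e).re + (L (Complex.I * e) * conj e).im = (L 1).re + (L Complex.I).im := by
  have h1 : e = e.re • (1 : ℂ) + e.im • Complex.I := by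
    apply Complex.ext <;> simp
  have h2 : Complex.I * e = (-e.im) • (1 : ℂ) + e.re • Complex.I := by
    apply Complex.ext <;> simp
  have h3 : e.re ^ 2 + e.im ^ 2 = 1 := by
    have := Complex.sq_norm e
    rw [he, Complex.normSq_apply] at this
    nlinarith
  have h4 : L e = e.re • L 1 + e.im • L Complex.I := by
    conv_lhs => rw [h1]
    rw [map_add, L.map_smul, L.map_smul]
  have h5 : L (Complex.I * e) = (-e.im) • L 1 + e.re • L Complex.I := by
    rw [h2, map_add, L.map_smul, L.map_smul]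
  rw [h4, h5]
  simp only [Complex.real_smul, Complex.add_re, Complex.mul_re,
    Complex.ofReal_re, Complex.ofReal_im, Complex.add_im, Complex.mul_im, Complex.conj_re,
    Complex.conj_im]
  linear_combination ((L 1).re + (L Complex.I).im) * h3

variable {Y : ℂ → ℂ}

/-- The radial derivative term. -/
noncomputable def b18_D1 (Y : ℂ → ℂ) (r θ : ℝ) : ℝ :=
  (Y (r * b18_e θ) * conj (b18_e θ)).re +
    r * ((fderiv ℝ Y (r * b18_e θ) (b18_e θ)) * conj (b18_e θ)).re

/-- The angular derivative term. -/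
noncomputable def b18_D2 (Y : ℂ → ℂ) (r θ : ℝ) : ℝ :=
  r * ((fderiv ℝ Y (r * b18_e θ) (Complex.I * b18_e θ)) * conj (b18_e θ)).im -
    (Y (r * b18_e θ) * conj (b18_e θ)).re

theorem b18_sum (r θ : ℝ) : r * dvc Y (r * b18_e θ) = b18_D1 Y r θ + b18_D2 Y r θ := by
  unfold b18_D1 b18_D2 dvc
  rw [← b18_trace (fderiv ℝ Y (r * b18_e θ)) (b18_e θ) (b18_norm_e θ)]
  ring

theorem b18_hasDeriv_r (hY : ContDiff ℝ 1 Y) (r θ : ℝ) :
    HasDerivAt (fun s : ℝ => s * (Y (s * b18_e θ) * conj (b18_e θ)).re) (b18_D1 Y r θ) r := by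
  have h1 : HasDerivAt (fun s : ℝ => ((s : ℂ) * b18_e θ)) (b18_e θ) r := by
    have := (Complex.ofRealCLM.hasDerivAt (x := r)).mul_const (b18_e θ)
    simpa using this
  have h2 : HasFDerivAt Y (fderiv ℝ Y (r * b18_e θ)) (r * b18_e θ) :=
    (hY.differentiable one_ne_zero _).hasFDerivAt
  have h3 : HasDerivAt (fun s : ℝ => Y (s * b18_e θ)) (fderiv ℝ Y (r * b18_e θ) (b18_e θ)) r :=
    h2.comp_hasDerivAt r h1
  have h4 := h3.mul_const (conj (b18_e θ))
  have h5 : HasDerivAt (fun s : ℝ => (Y (s * b18_e θ) * conj (b18_e θ)).re)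
      ((fderiv ℝ Y (r * b18_e θ) (b18_e θ)) * conj (b18_e θ)).re r :=
    (Complex.reCLM.hasFDerivAt.comp_hasDerivAt r h4)
  refine ((hasDerivAt_id r).mul h5).congr_deriv ?_
  unfold b18_D1
  simp

theorem b18_hasDeriv_θ (hY : ContDiff ℝ 1 Y) (r θ : ℝ) :
    HasDerivAt (fun t : ℝ => (Y (r * b18_e t) * conj (b18_e t)).im) (b18_D2 Y r θ) θ := by
  have h1 : HasDerivAt (fun t : ℝ => ((r : ℂ) * b18_e t)) ((r : ℂ) * (Complex.I * b18_e θ)) θ :=
    (b18_hasDeriv_e θ).const_mul _
  have h2 : HasFDerivAt Y (fderiv ℝ Y (r * b18_e θ)) (r * b18_e θ) :=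
    (hY.differentiable one_ne_zero _).hasFDerivAt
  have h3 : HasDerivAt (fun t : ℝ => Y (r * b18_e t))
      (fderiv ℝ Y (r * b18_e θ) ((r : ℂ) * (Complex.I * b18_e θ))) θ :=
    h2.comp_hasDerivAt θ h1
  have h4 : HasDerivAt (fun t : ℝ => conj (b18_e t)) (conj (Complex.I * b18_e θ)) θ :=
    (Complex.conjCLE.toContinuousLinearMap.hasFDerivAt.comp_hasDerivAt θ (b18_hasDeriv_e θ))
  have h5 := h3.mul h4
  refine (Complex.imCLM.hasFDerivAt.comp_hasDerivAt θ h5).congr_deriv ?_
  unfold b18_D2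
  have h7 : ∀ (L : ℂ →L[ℝ] ℂ) (z : ℂ), L ((r : ℂ) * z) = (r : ℂ) * L z := by
    intro L z
    have := L.map_smul r z
    rwa [Complex.real_smul, Complex.real_smul] at this
  rw [h7]
  simp only [Complex.imCLM_apply, Complex.add_im, map_mul, Complex.conj_I, Complex.mul_im,
    Complex.mul_re, Complex.ofReal_re, Complex.ofReal_im, Complex.conj_re, Complex.conj_im,
    Complex.neg_re, Complex.neg_im, Complex.I_re, Complex.I_im]
  ring

theorem b18_cont_D1 (hY : ContDiff ℝ 1 Y) : Continuous (fun p : ℝ × ℝ => b18_D1 Y p.1 p.2) := by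
  have h0 := hY.continuous
  have h1 := hY.continuous_fderiv one_ne_zero
  have h2 := b18_cont_e
  have h3 : Continuous (fun p : ℝ × ℝ => (p.1 : ℂ) * b18_e p.2) := by fun_prop
  have h4 : Continuous (fun p : ℝ × ℝ => fderiv ℝ Y (p.1 * b18_e p.2) (b18_e p.2)) :=
    (h1.comp h3).clm_apply (h2.comp continuous_snd)
  have h5 : Continuous (fun p : ℝ × ℝ => Y (p.1 * b18_e p.2)) := h0.comp h3
  unfold b18_D1
  fun_prop

theorem b18_cont_D2 (hY : ContDiff ℝ 1 Y) : Continuous (fun p : ℝ × ℝ => b18_D2 Y p.1 p.2) := by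
  have h0 := hY.continuous
  have h1 := hY.continuous_fderiv one_ne_zero
  have h2 := b18_cont_e
  have h3 : Continuous (fun p : ℝ × ℝ => (p.1 : ℂ) * b18_e p.2) := by fun_prop
  have h4 : Continuous (fun p : ℝ × ℝ =>
      fderiv ℝ Y (p.1 * b18_e p.2) (Complex.I * b18_e p.2)) :=
    (h1.comp h3).clm_apply (continuous_const.mul (h2.comp continuous_snd))
  have h5 : Continuous (fun p : ℝ × ℝ => Y (p.1 * b18_e p.2)) := h0.comp h3
  unfold b18_D2
  fun_prop

theorem b18_intOn {D : ℝ × ℝ → ℝ} (hD : Continuous D) (a b c d : ℝ) :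
    Integrable D ((volume.restrict (Ioo a b)).prod (volume.restrict (Ioo c d))) := by
  rw [Measure.prod_restrict]
  have h : IntegrableOn D (Icc a b ×ˢ Icc c d) (volume.prod volume) :=
    hD.continuousOn.integrableOn_compact (isCompact_Icc.prod isCompact_Icc)
  exact h.mono_set (prod_mono Ioo_subset_Icc_self Ioo_subset_Icc_self)

theorem b18_int (hY : ContDiff ℝ 1 Y) {R M : ℝ} (hR : 0 < R) (hRM : R < M)
    (h0 : ∀ c : ℂ, ‖c‖ = M → Y c = 0) :
    ∫ c in {c : ℂ | R < ‖c‖} ∩ Metric.ball (0 : ℂ) M, dvc Y c =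
      ∫ θ in Ioo (-Real.pi) Real.pi, -(R * (Y (R * b18_e θ) * conj (b18_e θ)).re) := by
  have hA : MeasurableSet ({c : ℂ | R < ‖c‖} ∩ Metric.ball (0 : ℂ) M) :=
    (measurableSet_lt measurable_const measurable_norm).inter Metric.isOpen_ball.measurableSet
  rw [← integral_indicator hA, ← Complex.integral_comp_polarCoord_symm]
  have hT : polarCoord.target = Ioi (0 : ℝ) ×ˢ Ioo (-Real.pi) Real.pi := rfl
  rw [hT]
  have e2 : ∀ p : ℝ × ℝ, p ∈ Ioi (0 : ℝ) ×ˢ Ioo (-Real.pi) Real.pi →
      p.1 • ({c : ℂ | R < ‖c‖} ∩ Metric.ball (0 : ℂ) M).indicator (dvc Y)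
        (Complex.polarCoord.symm p) = (Ioo R M ×ˢ Ioo (-Real.pi) Real.pi).indicator
          (fun p : ℝ × ℝ => b18_D1 Y p.1 p.2 + b18_D2 Y p.1 p.2) p := by
    rintro ⟨r, θ⟩ ⟨hr, hθ⟩
    have hr' : 0 < r := hr
    rw [b05_symm_eq]
    have hn : ‖(r : ℂ) * Complex.exp (θ * Complex.I)‖ = r := by
      rw [norm_mul, Complex.norm_exp_ofReal_mul_I, mul_one, Complex.norm_real,
        Real.norm_of_nonneg hr'.le]
    by_cases h : r ∈ Ioo R M
    · have h1 : (r : ℂ) * Complex.exp (θ * Complex.I) ∈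
          {c : ℂ | R < ‖c‖} ∩ Metric.ball (0 : ℂ) M := by
        constructor
        · change R < ‖(r : ℂ) * Complex.exp (θ * Complex.I)‖
          rw [hn]
          exact h.1
        · rw [Metric.mem_ball, dist_zero_right, hn]
          exact h.2
      rw [indicator_of_mem h1, indicator_of_mem (show ((r, θ) : ℝ × ℝ) ∈
        Ioo R M ×ˢ Ioo (-Real.pi) Real.pi from ⟨h, hθ⟩)]
      simp only
      rw [← b18_sum]
      rfl
    · have h1 : (r : ℂ) * Complex.exp (θ * Complex.I) ∉
          {c : ℂ | R < ‖c‖} ∩ Metric.ball (0 : ℂ) M := by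
        rintro ⟨h1, h2⟩
        rw [Metric.mem_ball, dist_zero_right, hn] at h2
        change R < ‖(r : ℂ) * Complex.exp (θ * Complex.I)‖ at h1
        rw [hn] at h1
        exact h ⟨h1, h2⟩
      rw [indicator_of_notMem h1, indicator_of_notMem (fun h' => h h'.1), smul_zero]
  rw [setIntegral_congr_fun (measurableSet_Ioi.prod measurableSet_Ioo) e2,
    setIntegral_indicator (measurableSet_Ioo.prod measurableSet_Ioo),
    inter_eq_self_of_subset_right (prod_mono
      (Ioo_subset_Ioi_self.trans (Ioi_subset_Ioi hR.le)) subset_rfl)]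
  have e3 : ∫ p in Ioo R M ×ˢ Ioo (-Real.pi) Real.pi,
      (b18_D1 Y p.1 p.2 + b18_D2 Y p.1 p.2) =
      ∫ p : ℝ × ℝ, (b18_D1 Y p.1 p.2 + b18_D2 Y p.1 p.2)
        ∂((volume.restrict (Ioo R M)).prod (volume.restrict (Ioo (-Real.pi) Real.pi))) := by
    rw [Measure.prod_restrict]
    rfl
  have i1 := b18_intOn (b18_cont_D1 hY) R M (-Real.pi) Real.pi
  have i2 := b18_intOn (b18_cont_D2 hY) R M (-Real.pi) Real.pi
  rw [e3, integral_add i1 i2, integral_prod_symm _ i1, integral_prod _ i2]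
  have hpi : -Real.pi ≤ Real.pi := by linarith [Real.pi_pos]
  have z2 : ∀ r : ℝ, ∫ θ in Ioo (-Real.pi) Real.pi, b18_D2 Y r θ = 0 := by
    intro r
    rw [← integral_Ioc_eq_integral_Ioo, ← intervalIntegral.integral_of_le hpi]
    rw [intervalIntegral.integral_eq_sub_of_hasDerivAt (fun θ _ => b18_hasDeriv_θ hY r θ)]
    · have e : b18_e (-Real.pi) = b18_e Real.pi := by
        unfold b18_e
        rw [Complex.ofReal_neg, neg_mul, Complex.exp_neg, Complex.exp_pi_mul_I]
        norm_num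
      rw [e, sub_self]
    · have h := b18_cont_D2 hY
      exact (h.comp (continuous_const.prodMk continuous_id :
        Continuous (fun θ : ℝ => (r, θ)))).intervalIntegrable _ _
  have z1 : ∀ θ : ℝ, ∫ r in Ioo R M, b18_D1 Y r θ =
      -(R * (Y (R * b18_e θ) * conj (b18_e θ)).re) := by
    intro θ
    rw [← integral_Ioc_eq_integral_Ioo, ← intervalIntegral.integral_of_le hRM.le]
    rw [intervalIntegral.integral_eq_sub_of_hasDerivAt (fun r _ => b18_hasDeriv_r hY r θ)]
    · have : Y (M * b18_e θ) = 0 := by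
        apply h0
        rw [norm_mul, b18_norm_e, mul_one, Complex.norm_real,
          Real.norm_of_nonneg (hR.trans hRM).le]
      rw [this]
      simp
    · have h := b18_cont_D1 hY
      exact (h.comp (continuous_id.prodMk continuous_const :
        Continuous (fun r : ℝ => (r, θ)))).intervalIntegrable _ _
  simp only [z1, z2, integral_zero, add_zero]

theorem b18_Sl (m : ℕ) {R : ℝ} (hR : 0 < R) (θ : ℝ) :
    Sl m ({c : ℂ | R < ‖c‖} ∩ Metric.ball (0 : ℂ) m) θ = Ioo R (m : ℝ) := by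
  ext r
  have hn : 0 < r → ‖(r : ℂ) * Complex.exp (θ * Complex.I)‖ = r := fun hr => by
    rw [norm_mul, Complex.norm_exp_ofReal_mul_I, mul_one, Complex.norm_real,
      Real.norm_of_nonneg hr.le]
  constructor
  · rintro ⟨⟨h1, h2⟩, h3, -⟩
    change R < ‖(r : ℂ) * Complex.exp (θ * Complex.I)‖ at h3
    rw [hn h1] at h3
    exact ⟨h3, h2⟩
  · rintro ⟨h1, h2⟩
    refine ⟨⟨hR.trans h1, h2⟩, ?_, ?_⟩
    · change R < ‖(r : ℂ) * Complex.exp (θ * Complex.I)‖
      rw [hn (hR.trans h1)]
      exact h1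
    · rw [Metric.mem_ball, dist_zero_right, hn (hR.trans h1)]
      exact h2

theorem ring_set (_h : Stmt_Prof) : Stmt_Ring := by
  intro m R hm hR hRm
  have hA : MeasurableSet ({c : ℂ | R < ‖c‖} ∩ Metric.ball (0 : ℂ) m) :=
    (measurableSet_lt measurable_const measurable_norm).inter Metric.isOpen_ball.measurableSet
  have hvol : (volume.restrict (Ioo (-Real.pi) Real.pi)).real univ = 2 * Real.pi := by
    rw [measureReal_restrict_apply_univ, Real.volume_real_Ioo_of_le (by linarith [Real.pi_pos])]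
    ring
  constructor
  · rw [polar m _ hm hA]
    have : ∀ θ, vth m ({c : ℂ | R < ‖c‖} ∩ Metric.ball (0 : ℂ) m) θ = vp m R := by
      intro θ
      unfold vth vp
      rw [b18_Sl m hR θ]
    simp only [this, integral_const, smul_eq_mul, hvol]
  · refine iSup₂_le fun Y hY => ENNReal.ofReal_le_ofReal ?_
    obtain ⟨hY, hb⟩ := hY
    rw [b18_int hY.diff hR hRm]
    · have hc : Continuous (fun θ : ℝ => -(R * (Y (R * b18_e θ) * conj (b18_e θ)).re)) := by
        have h0 := hY.diff.continuous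
        have h2 := b18_cont_e
        have h5 : Continuous (fun θ : ℝ => Y (R * b18_e θ)) :=
          h0.comp (continuous_const.mul h2)
        fun_prop
      calc ∫ θ in Ioo (-Real.pi) Real.pi, -(R * (Y (R * b18_e θ) * conj (b18_e θ)).re)
          ≤ ∫ θ in Ioo (-Real.pi) Real.pi, hp m R := by
            refine integral_mono_ae (hc.continuousOn.integrableOn_compact
              (isCompact_Icc (a := -Real.pi) (b := Real.pi)) |>.mono_set Ioo_subset_Icc_self)
              (integrable_const _) (Eventually.of_forall fun θ => ?_)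
            have h1 : |(Y (R * b18_e θ) * conj (b18_e θ)).re| ≤ Wp m R := by
              refine (Complex.abs_re_le_norm _).trans ?_
              rw [norm_mul, RCLike.norm_conj, b18_norm_e, mul_one]
              have := hb (R * b18_e θ)
              rwa [norm_mul, b18_norm_e, mul_one, Complex.norm_real,
                Real.norm_of_nonneg hR.le] at this
            have h2 := neg_le_of_abs_le h1
            have h3 := mul_le_mul_of_nonneg_left h2 hR.le
            simp only [hp]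
            linarith
        _ = 2 * Real.pi * hp m R := by
            rw [integral_const, hvol, smul_eq_mul]
    · intro c hc
      apply image_eq_zero_of_notMem_tsupport
      intro hc'
      have := (hY.supp hc').1
      rw [Metric.mem_ball, dist_zero_right, hc] at this
      exact lt_irrefl _ this

end Pool.Agent.Lib.MP_c95dcf_gt
end
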