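import Pool.Agent.Lib.MP_c95dcf_gt.Mg.G001
import Pool.Agent.Lib.MP_c95dcf_gt.GStmts

section

/-!
# MP_c95dcf_gt, task B01: one-variable calculus of the profile
-/

set_option autoImplicit false

open MeasureTheory Set Filter Topology
open scoped ENNReal NNReal

namespace Pool.Agent.Lib.MP_c95dcf_gt

namespace ProfB01

lemma wp_nonneg (m : ℕ) (r : ℝ) : 0 ≤ wp m r := le_max_left _ _

lemma wp_eq (m : ℕ) (hm : 2 ≤ m) (r : ℝ) (hr : r ≤ m) : wp m r = 1 - r / m := by
  have hm0 : (0 : ℝ) < m := by positivity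
  unfold wp
  apply max_eq_right
  have : r / m ≤ 1 := (div_le_one hm0).2 hr
  linarith

lemma wp_zero (m : ℕ) (hm : 2 ≤ m) (r : ℝ) (hr : (m : ℝ) ≤ r) : wp m r = 0 := by
  have hm0 : (0 : ℝ) < m := by positivity
  unfold wp
  apply max_eq_left
  have : 1 ≤ r / m := (one_le_div hm0).2 hr
  linarith

lemma Wp_nonneg (m : ℕ) (r : ℝ) : 0 ≤ Wp m r := pow_nonneg (wp_nonneg m r) m

lemma Wp_zero (m : ℕ) (hm : 2 ≤ m) (r : ℝ) (hr : (m : ℝ) ≤ r) : Wp m r = 0 := by
  unfold Wp
  rw [wp_zero m hm r hr, zero_pow (by omega)]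

lemma wp_cont (m : ℕ) : Continuous (wp m) := by
  unfold wp
  fun_prop

lemma Wp_cont (m : ℕ) : Continuous (Wp m) := (wp_cont m).pow m

lemma hp_cont (m : ℕ) : Continuous (hp m) := continuous_id.mul (Wp_cont m)

lemma hp_nonneg (m : ℕ) (r : ℝ) (hr : 0 ≤ r) : 0 ≤ hp m r := mul_nonneg hr (Wp_nonneg m r)

lemma vp_eq_int (m : ℕ) (r : ℝ) (hr : r ≤ m) : vp m r = ∫ s in r..(m : ℝ), hp m s := by
  unfold vp
  rw [intervalIntegral.integral_of_le hr, integral_Ioc_eq_integral_Ioo]

lemma vp_zero (m : ℕ) (r : ℝ) (hr : (m : ℝ) ≤ r) : vp m r = 0 := by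
  unfold vp
  rw [Ioo_eq_empty (by linarith)]
  simp

lemma vp_formula (m : ℕ) (hm : 2 ≤ m) (r : ℝ) (_h0 : 0 ≤ r) (hr : r ≤ m) :
    vp m r = wp m r ^ (m + 1) * (m / (m + 2)) * (r + m / (m + 1)) := by
  have hm0 : (0 : ℝ) < m := by positivity
  rw [vp_eq_int m r hr, wp_eq m hm r hr]
  have hderiv : ∀ s ∈ Set.uIcc r (m : ℝ), HasDerivAt
      (fun s : ℝ => -((1 - s / m) ^ (m + 1) * (m / (m + 2)) * (s + m / (m + 1)))) (hp m s) s := by
    intro s hs
    rw [Set.uIcc_of_le hr] at hs
    unfold hp Wp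
    rw [wp_eq m hm s hs.2]
    have h1 : HasDerivAt (fun s : ℝ => 1 - s / m) (-(1 / m)) s := by
      have := ((hasDerivAt_id s).div_const (m : ℝ)).const_sub 1
      simpa using this
    have h2 := (h1.pow (m + 1)).mul_const ((m : ℝ) / (m + 2))
    have h3 : HasDerivAt (fun s : ℝ => s + (m : ℝ) / (m + 1)) 1 s := (hasDerivAt_id s).add_const _
    have h4 := (h2.mul h3).neg
    refine h4.congr_deriv ?_
    simp only [Nat.add_sub_cancel, Pi.pow_apply]
    generalize hu : (1 - s / (m : ℝ)) = u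
    have hs' : s = m * (1 - u) := by
      rw [← hu]
      field_simp
      ring
    rw [hs', pow_succ]
    push_cast
    field_simp
    ring
  rw [intervalIntegral.integral_eq_sub_of_hasDerivAt hderiv
    ((hp_cont m).intervalIntegrable _ _)]
  have : (1 - (m : ℝ) / m) = 0 := by rw [div_self hm0.ne']; ring
  rw [this]
  simp

lemma vp_nonneg (m : ℕ) (r : ℝ) (hr : 0 ≤ r) : 0 ≤ vp m r := by
  unfold vp
  apply setIntegral_nonneg measurableSet_Ioo
  intro s hs
  exact hp_nonneg m s (hr.trans hs.1.le)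

lemma vp_le (m : ℕ) (hm : 2 ≤ m) (r : ℝ) (hr : 0 ≤ r) : vp m r ≤ Wp m r * (1 + r) := by
  rcases le_or_gt r m with h | h
  · rw [vp_formula m hm r hr h]
    have hm0 : (0 : ℝ) < m := by positivity
    have hw0 := wp_nonneg m r
    have hw1 : wp m r ≤ 1 := by
      rw [wp_eq m hm r h]
      have : 0 ≤ r / m := by positivity
      linarith
    have hW := Wp_nonneg m r
    unfold Wp at hW ⊢
    have h1 : (m : ℝ) / (m + 2) ≤ 1 := by
      rw [div_le_one (by positivity)]; linarith
    have h2 : (m : ℝ) / (m + 1) ≤ 1 := by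
      rw [div_le_one (by positivity)]; linarith
    have h3 : (0 : ℝ) ≤ m / (m + 2) := by positivity
    have h4 : (0 : ℝ) ≤ m / (m + 1) := by positivity
    have h5 : wp m r * (m / (m + 2)) ≤ 1 := by
      calc wp m r * (m / (m + 2)) ≤ 1 * 1 := by gcongr
        _ = 1 := by ring
    calc wp m r ^ (m + 1) * (m / (m + 2)) * (r + m / (m + 1))
        = wp m r ^ m * ((wp m r * (m / (m + 2))) * (r + m / (m + 1))) := by ring
      _ ≤ wp m r ^ m * (1 * (1 + r)) := by
          apply mul_le_mul_of_nonneg_left _ hW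
          apply mul_le_mul h5 (by linarith) (by positivity) (by norm_num)
      _ = wp m r ^ m * (1 + r) := by ring
  · rw [vp_zero m r h.le]
    exact mul_nonneg (Wp_nonneg m r) (by linarith)

lemma Wp_shift (m : ℕ) (hm : 2 ≤ m) (r s : ℝ) (hs : 0 ≤ s) (hsr : s ≤ r) :
    Real.exp s * Wp m r ≤ Wp m (r - s) := by
  have hm0 : (0 : ℝ) < m := by positivity
  rcases le_or_gt r m with h | h
  · have e1 : Real.exp s = (Real.exp (s / m)) ^ m := by
      rw [← Real.exp_nat_mul]
      congr 1
      field_simp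
    unfold Wp
    rw [e1, ← mul_pow]
    apply pow_le_pow_left₀ (mul_nonneg (Real.exp_pos _).le (wp_nonneg m r))
    rw [wp_eq m hm r h, wp_eq m hm (r - s) (by linarith)]
    have hx : 0 ≤ s / m := by positivity
    have hx1 : s / m ≤ r / m := by gcongr
    have hx2 : r / m ≤ 1 := (div_le_one hm0).2 h
    have e2 : (r - s) / m = r / m - s / m := by ring
    rw [e2]
    set x := s / (m : ℝ) with hxdef
    set y := r / (m : ℝ) with hydef
    have h5 : 1 - x ≤ Real.exp (-x) := by
      have := Real.add_one_le_exp (-x)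
      linarith
    have h6 : (1 - y) ≤ (1 - (y - x)) * Real.exp (-x) := by
      have h7 : (1 - (y - x)) * (1 - x) ≤ (1 - (y - x)) * Real.exp (-x) := by
        apply mul_le_mul_of_nonneg_left h5
        linarith
      nlinarith
    have h8 : Real.exp x * Real.exp (-x) = 1 := by
      rw [← Real.exp_add]; simp
    calc Real.exp x * (1 - y) ≤ Real.exp x * ((1 - (y - x)) * Real.exp (-x)) := by
          apply mul_le_mul_of_nonneg_left h6 (Real.exp_pos _).le
      _ = (1 - (y - x)) * (Real.exp x * Real.exp (-x)) := by ring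
      _ = 1 - (y - x) := by rw [h8]; ring
  · rw [Wp_zero m hm r h.le, mul_zero]
    exact Wp_nonneg m _

lemma Wp_exp (m : ℕ) (hm : 2 ≤ m) (r : ℝ) (hr : 0 ≤ r) : Wp m r ≤ Real.exp (-r) := by
  have h := Wp_shift m hm r r hr le_rfl
  have h0 : Wp m (r - r) = 1 := by
    unfold Wp wp
    simp
  rw [h0] at h
  have h8 : Real.exp (-r) * Real.exp r = 1 := by
    rw [← Real.exp_add]; simp
  calc Wp m r = Real.exp (-r) * (Real.exp r * Wp m r) := by
        rw [← mul_assoc, h8, one_mul]
    _ ≤ Real.exp (-r) * 1 := by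
        apply mul_le_mul_of_nonneg_left h (Real.exp_pos _).le
    _ = Real.exp (-r) := mul_one _

lemma Wp_eighth (m : ℕ) (hm : 2 ≤ m) (r : ℝ) (hr : 0 ≤ r) (hrm : r ≤ m) :
    Wp m r ≤ Real.exp (-(7 / 10 * r)) * Wp m (r / 8) ^ 2 := by
  have hm0 : (0 : ℝ) < m := by positivity
  have e1 : Real.exp (-(7 / 10 * r)) = (Real.exp (-(7 / 10 * (r / m)))) ^ m := by
    rw [← Real.exp_nat_mul]
    congr 1
    field_simp
  unfold Wp
  rw [e1, ← pow_mul, mul_comm m 2, pow_mul, ← mul_pow]
  apply pow_le_pow_left₀ (wp_nonneg m r)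
  rw [wp_eq m hm r hrm, wp_eq m hm (r / 8) (by linarith)]
  have e2 : r / 8 / m = r / m / 8 := by ring
  rw [e2]
  have hx : 0 ≤ r / m := by positivity
  have hx2 : r / m ≤ 1 := (div_le_one hm0).2 hrm
  set x := r / (m : ℝ) with hxdef
  have h5 : 1 - 7 / 10 * x ≤ Real.exp (-(7 / 10 * x)) := by
    have := Real.add_one_le_exp (-(7 / 10 * x))
    linarith
  have h6 : (1 - 7 / 10 * x) * (1 - x / 8) ^ 2 ≤ Real.exp (-(7 / 10 * x)) * (1 - x / 8) ^ 2 := by
    apply mul_le_mul_of_nonneg_right h5 (sq_nonneg _)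
  refine le_trans ?_ h6
  nlinarith [mul_nonneg hx hx, mul_nonneg (mul_nonneg hx hx) (sub_nonneg.2 hx2)]

lemma vp_shift (m : ℕ) (hm : 2 ≤ m) (r y : ℝ) (hy : 0 ≤ y) (hyr : y ≤ r) (hr : 0 < r)
    (hrm : r ≤ m) : Real.exp y * (1 - y / r) * vp m r ≤ vp m (r - y) := by
  have h1 : vp m (r - y) = ∫ s in (r - y)..(m : ℝ), hp m s := vp_eq_int m _ (by linarith)
  have h2 : (∫ s in (r - y)..((m : ℝ) - y), hp m s) + ∫ s in ((m : ℝ) - y)..(m : ℝ), hp m s
      = ∫ s in (r - y)..(m : ℝ), hp m s :=
    intervalIntegral.integral_add_adjacent_intervals ((hp_cont m).intervalIntegrable _ _)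
      ((hp_cont m).intervalIntegrable _ _)
  have h3 : 0 ≤ ∫ s in ((m : ℝ) - y)..(m : ℝ), hp m s := by
    apply intervalIntegral.integral_nonneg (by linarith)
    intro s hs
    apply hp_nonneg
    linarith [hs.1]
  have h4 : ∫ s in r..(m : ℝ), hp m (s - y) = ∫ s in (r - y)..((m : ℝ) - y), hp m s := by
    rw [intervalIntegral.integral_comp_sub_right]
  have h5 : ∫ s in r..(m : ℝ), Real.exp y * (1 - y / r) * hp m s
      ≤ ∫ s in r..(m : ℝ), hp m (s - y) := by
    apply intervalIntegral.integral_mono_on hrm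
    · exact ((hp_cont m).const_mul _).intervalIntegrable _ _
    · exact ((hp_cont m).comp (continuous_id.sub continuous_const)).intervalIntegrable _ _
    · intro s hs
      unfold hp
      have hW := Wp_shift m hm s y hy (hyr.trans hs.1)
      have hs0 : 0 < s := hr.trans_le hs.1
      have hk : s * (1 - y / r) ≤ s - y := by
        have : y ≤ s * (y / r) := by
          rw [mul_div_assoc', le_div_iff₀ hr]
          nlinarith [hs.1]
        linarith
      have hk0 : 0 ≤ 1 - y / r := by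
        have := (div_le_one hr).2 hyr
        linarith
      calc Real.exp y * (1 - y / r) * (s * Wp m s)
          = (s * (1 - y / r)) * (Real.exp y * Wp m s) := by ring
        _ ≤ (s - y) * Wp m (s - y) := by
            apply mul_le_mul hk hW
            · exact mul_nonneg (Real.exp_pos _).le (Wp_nonneg m s)
            · linarith [hs.1]
  rw [intervalIntegral.integral_const_mul, ← vp_eq_int m r hrm] at h5
  linarith

lemma vp_add (m : ℕ) (hm : 2 ≤ m) (r s : ℝ) (hr : 0 < r) (hs : 0 ≤ s) :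
    vp m (r + s) ≤ Real.exp (-s) * (1 + s / r) * vp m r := by
  have hv := vp_nonneg m r hr.le
  rcases le_or_gt (r + s) m with h | h
  · have h1 := vp_shift m hm (r + s) s hs (by linarith) (by linarith) h
    have e1 : r + s - s = r := by ring
    have e2 : 1 - s / (r + s) = r / (r + s) := by
      field_simp
      ring
    rw [e1, e2] at h1
    have h2 : vp m (r + s) = Real.exp (-s) * (1 + s / r) *
        (Real.exp s * (r / (r + s)) * vp m (r + s)) := by
      have h8 : Real.exp (-s) * Real.exp s = 1 := by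
        rw [← Real.exp_add]; simp
      have h9 : (1 + s / r) * (r / (r + s)) = 1 := by
        field_simp
      calc vp m (r + s) = (Real.exp (-s) * Real.exp s) * ((1 + s / r) * (r / (r + s)))
            * vp m (r + s) := by rw [h8, h9]; ring
        _ = _ := by ring
    rw [h2]
    apply mul_le_mul_of_nonneg_left h1
    positivity
  · rw [vp_zero m _ h.le]
    positivity

lemma vp_contOn (m : ℕ) (hm : 2 ≤ m) : ContinuousOn (vp m) (Icc 0 (m : ℝ)) := by
  have hc : ContinuousOn (fun r : ℝ => wp m r ^ (m + 1) * (m / (m + 2)) * (r + m / (m + 1)))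
      (Icc 0 (m : ℝ)) := by
    apply Continuous.continuousOn
    have := wp_cont m
    fun_prop
  exact hc.congr (fun r hr => vp_formula m hm r hr.1 hr.2)

lemma hp_pos (m : ℕ) (hm : 2 ≤ m) (r : ℝ) (hr : 0 < r) (hrm : r < m) : 0 < hp m r := by
  have hm0 : (0 : ℝ) < m := by positivity
  unfold hp Wp
  rw [wp_eq m hm r hrm.le]
  have : r / m < 1 := (div_lt_one hm0).2 hrm
  have h2 : 0 < 1 - r / m := by linarith
  positivity

lemma vp_anti (m : ℕ) (hm : 2 ≤ m) : StrictAntiOn (vp m) (Icc 0 (m : ℝ)) := by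
  intro a ha b hb hab
  rw [vp_eq_int m a ha.2, vp_eq_int m b hb.2]
  have h2 : (∫ s in a..b, hp m s) + ∫ s in b..(m : ℝ), hp m s = ∫ s in a..(m : ℝ), hp m s :=
    intervalIntegral.integral_add_adjacent_intervals ((hp_cont m).intervalIntegrable _ _)
      ((hp_cont m).intervalIntegrable _ _)
  have h3 : 0 < ∫ s in a..b, hp m s := by
    apply intervalIntegral.intervalIntegral_pos_of_pos_on ((hp_cont m).intervalIntegrable _ _)
    · intro s hs
      exact hp_pos m hm s (ha.1.trans_lt hs.1) (hs.2.trans_le hb.2)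
    · exact hab
  linarith

end ProfB01

open ProfB01

theorem prof : Stmt_Prof := by
  intro m hm
  refine ⟨fun r h0 h1 => vp_formula m hm r h0 h1, vp_contOn m hm, vp_anti m hm,
    fun r hr => vp_nonneg m r hr, fun r hr => vp_le m hm r hr,
    fun r y h1 h2 h3 h4 => vp_shift m hm r y h1 h2 h3 h4,
    fun r s h1 h2 => vp_add m hm r s h1 h2, fun r s h1 h2 => Wp_shift m hm r s h1 h2,
    fun r hr => Wp_exp m hm r hr, fun r h1 h2 => Wp_eighth m hm r h1 h2⟩

theorem profLim : Stmt_ProfLim := by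
  have hW : ∀ r : ℝ, Tendsto (fun m : ℕ => Wp m r) atTop (𝓝 (Real.exp (-r))) := by
    intro r
    have h := Real.tendsto_one_add_div_pow_exp (-r)
    refine h.congr' ?_
    filter_upwards [eventually_ge_atTop (max 2 ⌈r⌉₊)] with m hm
    have h2 : 2 ≤ m := (le_max_left _ _).trans hm
    have h3 : r ≤ m := (Nat.le_ceil r).trans (by exact_mod_cast (le_max_right _ _).trans hm)
    unfold Wp
    rw [wp_eq m h2 r h3]
    congr 1
    ring
  refine ⟨hW, ?_⟩
  intro r hr
  have h1 : Tendsto (fun m : ℕ => (m : ℝ) / (m + 2)) atTop (𝓝 1) := by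
    simpa using tendsto_natCast_div_add_atTop (2 : ℝ)
  have h2 : Tendsto (fun m : ℕ => (m : ℝ) / (m + 1)) atTop (𝓝 1) := by
    simpa using tendsto_natCast_div_add_atTop (1 : ℝ)
  have h3 : Tendsto (fun m : ℕ => 1 - r / m) atTop (𝓝 1) := by
    have := (tendsto_const_div_atTop_nhds_zero_nat r).const_sub 1
    simpa using this
  have h4 : Tendsto (fun m : ℕ => Wp m r * (1 - r / m) * ((m : ℝ) / (m + 2)) *
      (r + (m : ℝ) / (m + 1))) atTop (𝓝 (Real.exp (-r) * 1 * 1 * (r + 1))) :=
    (((hW r).mul h3).mul h1).mul (tendsto_const_nhds.add h2)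
  have e : Real.exp (-r) * 1 * 1 * (r + 1) = (1 + r) * Real.exp (-r) := by ring
  rw [e] at h4
  refine h4.congr' ?_
  filter_upwards [eventually_ge_atTop (max 2 ⌈r⌉₊)] with m hm
  have h2 : 2 ≤ m := (le_max_left _ _).trans hm
  have h3 : r ≤ m := (Nat.le_ceil r).trans (by exact_mod_cast (le_max_right _ _).trans hm)
  rw [vp_formula m h2 r hr h3]
  unfold Wp
  rw [wp_eq m h2 r h3]
  ring

end Pool.Agent.Lib.MP_c95dcf_gt
end

section

/-!
# MP_c95dcf_gt, part G: task G19, the regular representative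
-/

set_option autoImplicit false

open MeasureTheory Set Filter Topology
open scoped ENNReal NNReal RealInnerProductSpace

namespace Pool.Agent.Lib.MP_c95dcf_gt

/-- If the density of `A` at `x` is at least `c > 0` in small balls then it does not tend
to zero. -/
theorem regRep_dens {n : ℕ} {A : Set (E n)} {x : E n} {c r₀ : ℝ} (hc : 0 < c) (hr₀ : 0 < r₀)
    (h : ∀ r : ℝ, 0 < r → r < r₀ → ENNReal.ofReal (c * r ^ n) ≤ volume (A ∩ Metric.ball x r)) :
    ¬ Tendsto (fun r => volume (A ∩ Metric.closedBall x r) / volume (Metric.closedBall x r))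
      (𝓝[>] 0) (𝓝 0) := by
  intro ht
  set ω : ℝ≥0∞ := volume (Metric.ball (0 : E n) 1) with hω
  have hω0 : ω ≠ 0 := (Metric.measure_ball_pos volume (0 : E n) one_pos).ne'
  have hωt : ω ≠ ∞ := measure_ball_lt_top.ne
  have hlow : ∀ᶠ r in 𝓝[>] (0 : ℝ), ENNReal.ofReal c / ω ≤
      volume (A ∩ Metric.closedBall x r) / volume (Metric.closedBall x r) := by
    filter_upwards [Ioo_mem_nhdsGT hr₀] with r hr
    have h1 := h r hr.1 hr.2
    have h2 : volume (Metric.closedBall x r) = ENNReal.ofReal (r ^ n) * ω := by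
      rw [Measure.addHaar_closedBall volume x hr.1.le, finrank_euclideanSpace, Fintype.card_fin]
    have hrn : ENNReal.ofReal (r ^ n) ≠ 0 := by
      rw [Ne, ENNReal.ofReal_eq_zero, not_le]
      exact pow_pos hr.1 n
    rw [h2]
    have h3 : ENNReal.ofReal c / ω = ENNReal.ofReal (c * r ^ n) / (ENNReal.ofReal (r ^ n) * ω) := by
      rw [ENNReal.ofReal_mul hc.le, mul_comm (ENNReal.ofReal c),
        ENNReal.mul_div_mul_left _ _ hrn ENNReal.ofReal_ne_top]
    rw [h3]
    refine ENNReal.div_le_div_right (h1.trans (measure_mono ?_)) _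
    exact inter_subset_inter_right _ Metric.ball_subset_closedBall
  have h4 : ENNReal.ofReal c / ω ≤ 0 := ge_of_tendsto ht hlow
  rw [nonpos_iff_eq_zero, ENNReal.div_eq_zero_iff] at h4
  rcases h4 with h4 | h4
  · rw [ENNReal.ofReal_eq_zero] at h4
    linarith
  · exact hωt h4

theorem regRep : Stmt_RegRep := by
  intro n U A _ hU hconv _ hA hAU hdens
  set Bl : E n → ℝ → Set (E n) := fun x s => Metric.ball x s with hBl
  have hballpos : ∀ (x : E n) (s : ℝ), 0 < s → 0 < volume (Metric.ball x s) := fun x s hs =>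
    Metric.measure_ball_pos volume x hs
  set O1 : Set (E n) := {x | x ∈ U ∧ ∃ s : ℝ, 0 < s ∧ volume (Metric.ball x s \ A) = 0} with hO1
  set O0 : Set (E n) := {x | x ∈ U ∧ ∃ s : ℝ, 0 < s ∧ volume (A ∩ Metric.ball x s) = 0} with hO0
  have hO1o : IsOpen O1 := by
    rw [Metric.isOpen_iff]
    rintro x ⟨hxU, s, hs, hv⟩
    obtain ⟨t, ht, htU⟩ := Metric.isOpen_iff.1 hU x hxU
    refine ⟨min (s / 2) t, lt_min (by positivity) ht, fun y hy => ?_⟩
    rw [Metric.mem_ball] at hy
    refine ⟨htU (Metric.mem_ball.2 (hy.trans_le (min_le_right _ _))), s / 2, by positivity, ?_⟩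
    refine measure_mono_null (sdiff_subset_sdiff_left ?_) hv
    refine Metric.ball_subset_ball' ?_
    have := hy.trans_le (min_le_left _ _)
    linarith
  have hO0o : IsOpen O0 := by
    rw [Metric.isOpen_iff]
    rintro x ⟨hxU, s, hs, hv⟩
    obtain ⟨t, ht, htU⟩ := Metric.isOpen_iff.1 hU x hxU
    refine ⟨min (s / 2) t, lt_min (by positivity) ht, fun y hy => ?_⟩
    rw [Metric.mem_ball] at hy
    refine ⟨htU (Metric.mem_ball.2 (hy.trans_le (min_le_right _ _))), s / 2, by positivity, ?_⟩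
    refine measure_mono_null (inter_subset_inter_right _ ?_) hv
    refine Metric.ball_subset_ball' ?_
    have := hy.trans_le (min_le_left _ _)
    linarith
  have hdisj : Disjoint O1 O0 := by
    rw [Set.disjoint_left]
    rintro x ⟨_, s, hs, hv⟩ ⟨_, t, ht, hw⟩
    have h1 := hballpos x (min s t) (lt_min hs ht)
    have h2 : volume (Metric.ball x (min s t)) = 0 := by
      refine measure_mono_null (t := (Metric.ball x s \ A) ∪ (A ∩ Metric.ball x t)) ?_
        (measure_union_null hv hw)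
      intro y hy
      by_cases hyA : y ∈ A
      · exact Or.inr ⟨hyA, Metric.ball_subset_ball (min_le_right _ _) hy⟩
      · exact Or.inl ⟨Metric.ball_subset_ball (min_le_left _ _) hy, hyA⟩
    exact h1.ne' h2
  have hcover : ∀ x ∈ U, x ∉ O1 → x ∉ O0 → x ∈ Sg U A := by
    intro x hx h1 h0
    refine ⟨hx, fun s hs => ⟨?_, ?_⟩⟩
    · rw [pos_iff_ne_zero]; exact fun h => h0 ⟨hx, s, hs, h⟩
    · rw [pos_iff_ne_zero]; exact fun h => h1 ⟨hx, s, hs, h⟩
  have hSg1 : ∀ x ∈ Sg U A, x ∉ O1 := by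
    rintro x hx ⟨_, s, hs, hv⟩
    exact (hx.2 s hs).2.ne' hv
  have hSg0 : ∀ x ∈ Sg U A, x ∉ O0 := by
    rintro x hx ⟨_, s, hs, hv⟩
    exact (hx.2 s hs).1.ne' hv
  -- null sets
  have hn1 : volume (O1 \ A) = 0 := by
    refine measure_null_of_locally_null _ fun x hx => ?_
    obtain ⟨⟨_, s, hs, hv⟩, _⟩ := hx
    refine ⟨Metric.ball x s \ A, ?_, hv⟩
    refine mem_nhdsWithin.2 ⟨Metric.ball x s, Metric.isOpen_ball, Metric.mem_ball_self hs, ?_⟩
    rintro y ⟨hy1, _, hy2⟩
    exact ⟨hy1, hy2⟩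
  have hn0 : volume (A ∩ O0) = 0 := by
    refine measure_null_of_locally_null _ fun x hx => ?_
    obtain ⟨_, _, s, hs, hv⟩ := hx
    refine ⟨A ∩ Metric.ball x s, ?_, hv⟩
    refine mem_nhdsWithin.2 ⟨Metric.ball x s, Metric.isOpen_ball, Metric.mem_ball_self hs, ?_⟩
    rintro y ⟨hy1, hy2, _⟩
    exact ⟨hy2, hy1⟩
  have hnS : volume (Sg U A) = 0 := by
    have a1 := Besicovitch.ae_tendsto_measure_inter_div_of_measurableSet
      (volume : Measure (E n)) hA
    have a2 := Besicovitch.ae_tendsto_measure_inter_div_of_measurableSet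
      (volume : Measure (E n)) hA.compl
    have a3 : ∀ᵐ x ∂(volume : Measure (E n)), x ∉ Sg U A := by
      filter_upwards [a1, a2] with x h1 h2 hx
      obtain ⟨c, r₀, hc, hr₀, hd⟩ := hdens x hx
      by_cases hxA : x ∈ A
      · have h3 : Aᶜ.indicator (1 : E n → ℝ≥0∞) x = 0 := by
          rw [indicator_of_notMem]
          simpa using hxA
        rw [h3] at h2
        refine regRep_dens hc hr₀ (fun r hr hr' => ?_) h2
        refine ((hd r hr hr').2).trans (measure_mono ?_)
        rintro y ⟨hy1, hy2⟩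
        exact ⟨hy2, hy1⟩
      · rw [indicator_of_notMem hxA] at h1
        exact regRep_dens hc hr₀ (fun r hr hr' => (hd r hr hr').1) h1
    have h5 := measure_eq_zero_iff_ae_notMem.2 a3
    exact h5
  have hnF : volume (frontier U) = 0 := hconv.addHaar_frontier volume
  -- the set
  set F : Set (E n) := closure O1 with hF
  have hFO0 : ∀ x ∈ F, x ∉ O0 := by
    intro x hx h0
    obtain ⟨y, hy0, hy1⟩ := mem_closure_iff.1 hx O0 hO0o h0
    exact Set.disjoint_left.1 hdisj hy1 hy0
  have hO1F : O1 ⊆ interior F := interior_maximal subset_closure hO1o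
  have hFU : F ⊆ closure U := closure_mono fun x hx => hx.1
  have hsd : volume (symmDiff F A) = 0 := by
    refine measure_mono_null (t := (frontier U ∪ (O1 \ A)) ∪ (Sg U A ∪ (A ∩ O0))) ?_
      (measure_union_null (measure_union_null hnF hn1) (measure_union_null hnS hn0))
    rintro x (⟨hxF, hxA⟩ | ⟨hxA, hxF⟩)
    · by_cases hxU : x ∈ U
      · by_cases hx1 : x ∈ O1
        · exact Or.inl (Or.inr ⟨hx1, hxA⟩)
        · exact Or.inr (Or.inl (hcover x hxU hx1 (hFO0 x hxF)))
      · refine Or.inl (Or.inl ⟨hFU hxF, ?_⟩)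
        rw [hU.interior_eq]
        exact hxU
    · have hx1 : x ∉ O1 := fun h => hxF (subset_closure h)
      by_cases hx0 : x ∈ O0
      · exact Or.inr (Or.inr ⟨hxA, hx0⟩)
      · exact Or.inr (Or.inl (hcover x (hAU hxA) hx1 hx0))
  have hfr : frontier F ∩ U = Sg U A := by
    have hFc : IsClosed F := isClosed_closure
    ext x
    constructor
    · rintro ⟨hx, hxU⟩
      rw [hFc.frontier_eq] at hx
      exact hcover x hxU (fun h => hx.2 (hO1F h)) (hFO0 x hx.1)
    · intro hx
      refine ⟨?_, hx.1⟩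
      rw [hFc.frontier_eq]
      obtain ⟨t, ht, htU⟩ := Metric.isOpen_iff.1 hU x hx.1
      constructor
      · -- `x` is in the closure of `O1`
        rw [hF, Metric.mem_closure_iff]
        intro ε hε
        by_contra hno
        push Not at hno
        have h1 : volume (A ∩ Metric.ball x (min ε t)) = 0 := by
          refine measure_mono_null (t := Sg U A ∪ (A ∩ O0)) ?_ (measure_union_null hnS hn0)
          rintro y ⟨hyA, hyb⟩
          have hy1 : y ∉ O1 := by
            intro h
            have h2 := hno y h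
            rw [Metric.mem_ball, dist_comm] at hyb
            linarith [min_le_left ε t]
          by_cases hy0 : y ∈ O0
          · exact Or.inr ⟨hyA, hy0⟩
          · exact Or.inl (hcover y (hAU hyA) hy1 hy0)
        exact (hx.2 (min ε t) (lt_min hε ht)).1.ne' h1
      · intro hint
        rw [mem_interior_iff_mem_nhds, Metric.mem_nhds_iff] at hint
        obtain ⟨ε, hε, hεF⟩ := hint
        have h1 : volume (Metric.ball x (min ε t) \ A) = 0 := by
          refine measure_mono_null (t := (O1 \ A) ∪ Sg U A) ?_ (measure_union_null hn1 hnS)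
          rintro y ⟨hyb, hyA⟩
          have hyF : y ∈ F := hεF (Metric.ball_subset_ball (min_le_left _ _) hyb)
          have hyU : y ∈ U := htU (Metric.ball_subset_ball (min_le_right _ _) hyb)
          by_cases hy1 : y ∈ O1
          · exact Or.inl ⟨hy1, hyA⟩
          · exact Or.inr (hcover y hyU hy1 (hFO0 y hyF))
        exact (hx.2 (min ε t) (lt_min hε ht)).2.ne' h1
  have hae : F =ᵐ[volume] A := by
    rw [← measure_symmDiff_eq_zero_iff]
    exact hsd
  have hSgF : Sg U A = Sg U F := by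
    have e1 : ∀ S : Set (E n), volume (A ∩ S) = volume (F ∩ S) := fun S =>
      measure_congr (hae.symm.inter (ae_eq_refl S))
    have e2 : ∀ S : Set (E n), volume (S \ A) = volume (S \ F) := fun S =>
      measure_congr ((ae_eq_refl S).diff hae.symm)
    ext x
    unfold Sg
    simp only [mem_sep_iff, e1, e2]
  refine ⟨F, isClosed_closure, hFU, ?_, hsd, hfr, hSgF⟩
  refine Subset.antisymm ?_ (closure_mono hO1F)
  exact (closure_mono interior_subset).trans (by rw [hF, closure_closure])

end Pool.Agent.Lib.MP_c95dcf_gt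
end
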