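import Pool.Agent.Lib.MP_c95dcf_gt.Mg.G001
import Pool.Agent.Lib.MP_c95dcf_gt.GStmts

section

/-!
# MP_c95dcf_gt, task B19: rotations
-/

set_option autoImplicit false

open MeasureTheory Set Filter Topology
open scoped ENNReal NNReal

namespace Pool.Agent.Lib.MP_c95dcf_gt

/-- Rotation of integrals. -/
theorem rot_integral (u : ℂ) (hu : ‖u‖ = 1) (A : Set ℂ) (f : ℂ → ℝ) :
    ∫ c in {c | u * c ∈ A}, f (u * c) = ∫ c in A, f c := by
  have hu1 : u ∈ Submonoid.unitSphere ℂ := mem_sphere_zero_iff_norm.mpr hu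
  have hmp : MeasurePreserving (rotation (⟨u, hu1⟩ : Circle)) :=
    (rotation (⟨u, hu1⟩ : Circle)).measurePreserving
  have he : MeasurableEmbedding (rotation (⟨u, hu1⟩ : Circle)) :=
    (rotation (⟨u, hu1⟩ : Circle)).toHomeomorph.measurableEmbedding
  have := hmp.setIntegral_preimage_emb he f A
  rw [← this]
  rfl

theorem rot_measurable (u : ℂ) {A : Set ℂ} (hA : MeasurableSet A) :
    MeasurableSet {c | u * c ∈ A} :=
  (measurable_const_mul u) hA

theorem rot_V0 (m : ℕ) (u : ℂ) (hu : ‖u‖ = 1) (A : Set ℂ) : V0 m {c | u * c ∈ A} = V0 m A := by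
  unfold V0
  rw [← rot_integral u hu (A ∩ Metric.ball 0 m) fun c => Wp m ‖c‖]
  have h1 : {c | u * c ∈ A} ∩ Metric.ball (0 : ℂ) m = {c | u * c ∈ A ∩ Metric.ball (0 : ℂ) m} := by
    ext c
    simp [hu]
  rw [h1]
  simp [hu]

theorem rot_contDiff (u : ℂ) (k : WithTop ℕ∞) {F : Type*} [NormedAddCommGroup F]
    [NormedSpace ℝ F] {φ : ℂ → F} (h : ContDiff ℝ k φ) : ContDiff ℝ k fun c => φ (u * c) :=
  h.comp (contDiff_const.mul contDiff_id)

theorem rot_comp (u : ℂ) (hu : ‖u‖ = 1) {F : Type*} [NormedAddCommGroup F] {φ : ℂ → F}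
    (h : HasCompactSupport φ) : HasCompactSupport fun c => φ (u * c) := by
  have hu0 : u ≠ 0 := by
    intro h0
    rw [h0, norm_zero] at hu
    exact zero_ne_one hu
  exact h.comp_homeomorph (Homeomorph.mulLeft₀ u hu0)

theorem rot_supp (m : ℕ) (u : ℂ) (hu : ‖u‖ = 1) {F : Type*} [NormedAddCommGroup F] {φ : ℂ → F}
    (h : tsupport φ ⊆ Dp m) : tsupport (fun c => φ (u * c)) ⊆ Dp m := by
  have hu0 : u ≠ 0 := by
    intro h0
    rw [h0, norm_zero] at hu
    exact zero_ne_one hu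
  intro c hc
  have h1 : u * c ∈ tsupport φ := by
    have := tsupport_comp_subset_preimage φ (f := fun c => u * c) (continuous_const_mul u)
    exact this hc
  have h2 := h h1
  unfold Dp at h2 ⊢
  simpa [hu, hu0] using h2

theorem rot_fderiv (u : ℂ) {F : Type*} [NormedAddCommGroup F] [NormedSpace ℝ F] {φ : ℂ → F}
    (h : ContDiff ℝ 1 φ) (c v : ℂ) :
    fderiv ℝ (fun c => φ (u * c)) c v = fderiv ℝ φ (u * c) (u * v) := by
  have h1 : HasFDerivAt (fun c : ℂ => u * c) (ContinuousLinearMap.mul ℝ ℂ u) c :=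
    (ContinuousLinearMap.mul ℝ ℂ u).hasFDerivAt
  have h2 : HasFDerivAt φ (fderiv ℝ φ (u * c)) (u * c) :=
    (h.differentiable (by norm_num) _).hasFDerivAt
  have h3 := (h2.comp c h1).fderiv
  have h4 : (fun c => φ (u * c)) = φ ∘ (fun c => u * c) := rfl
  rw [h4, h3]
  rfl

theorem rot_mono (m : ℕ) (h u : ℂ) (hu : ‖u‖ = 1) (t : ℝ) (ht : 0 < t) (hh : h = t * u)
    (A : Set ℂ) (hM : Mono m h A) : Mono m 1 {c | u * c ∈ A} := by
  have hu0 : u ≠ 0 := by
    intro h0
    rw [h0, norm_zero] at hu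
    exact zero_ne_one hu
  intro φ hφ hc hs hp
  have hu' : ‖u⁻¹‖ = 1 := by rw [norm_inv, hu, inv_one]
  have key := hM (fun c => φ (u⁻¹ * c)) (rot_contDiff _ _ hφ) (rot_comp _ hu' hc)
    (rot_supp m _ hu' hs) fun c => hp _
  have h1 : ∀ c, fderiv ℝ (fun c => φ (u⁻¹ * c)) c h = t * fderiv ℝ φ (u⁻¹ * c) 1 := by
    intro c
    rw [rot_fderiv _ (hφ.of_le (by norm_num)), hh]
    have : u⁻¹ * (t * u) = t • (1 : ℂ) := by
      field_simp
      simp
    rw [this, map_smul, smul_eq_mul]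
  simp only [h1] at key
  rw [integral_const_mul] at key
  have h2 : ∫ c in A, fderiv ℝ φ (u⁻¹ * c) 1 ≤ 0 := by
    by_contra hcon
    exact absurd key (not_le.mpr (mul_pos ht (not_le.mp hcon)))
  rw [← rot_integral u hu A fun c => fderiv ℝ φ (u⁻¹ * c) 1] at h2
  have h3 : ∀ c : ℂ, u⁻¹ * (u * c) = c := fun c => by field_simp
  simpa only [h3] using h2

theorem rot_dvc (u : ℂ) (hu : ‖u‖ = 1) {Y : ℂ → ℂ} (hY : ContDiff ℝ 1 Y) (c : ℂ) :
    dvc (fun c => u * Y (u⁻¹ * c)) c = dvc Y (u⁻¹ * c) := by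
  have hu0 : u ≠ 0 := by
    intro h0
    rw [h0, norm_zero] at hu
    exact zero_ne_one hu
  have hd : ∀ v, fderiv ℝ (fun c => u * Y (u⁻¹ * c)) c v =
      u * fderiv ℝ Y (u⁻¹ * c) (u⁻¹ * v) := by
    intro v
    have h1 : DifferentiableAt ℝ (fun c => Y (u⁻¹ * c)) c :=
      (rot_contDiff u⁻¹ 1 hY).differentiable (by norm_num) c
    rw [fderiv_const_mul h1, smul_apply, smul_eq_mul, rot_fderiv _ hY]
  unfold dvc
  rw [hd, hd]
  set D := fderiv ℝ Y (u⁻¹ * c) with hD
  have hns : u.re * u.re + u.im * u.im = 1 := by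
    have := Complex.normSq_eq_norm_sq u
    rw [hu, Complex.normSq_apply] at this
    simpa using this
  have hinv : u⁻¹ = (u.re : ℂ) - (u.im : ℂ) * Complex.I := by
    rw [inv_eq_iff_eq_inv, eq_comm, inv_eq_iff_eq_inv, eq_comm]
    rw [Complex.inv_def, Complex.normSq_apply, hns]
    apply Complex.ext <;> simp
  have e1 : D (u⁻¹ * 1) = u.re • D 1 - u.im • D Complex.I := by
    rw [← map_smul, ← map_smul, ← map_sub]
    congr 1
    rw [hinv]
    simp
  have e2 : D (u⁻¹ * Complex.I) = u.im • D 1 + u.re • D Complex.I := by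
    rw [← map_smul, ← map_smul, ← map_add]
    congr 1
    rw [hinv]
    apply Complex.ext <;> simp
  rw [e1, e2]
  simp only [Complex.mul_re, Complex.mul_im, Complex.sub_re, Complex.sub_im, Complex.add_re,
    Complex.add_im, Complex.smul_re, Complex.smul_im, smul_eq_mul]
  linear_combination ((D 1).re + (D Complex.I).im) * hns

theorem rot_P0_le (m : ℕ) (u : ℂ) (hu : ‖u‖ = 1) (A : Set ℂ) :
    P0 m {c | u * c ∈ A} ≤ P0 m A := by
  have hu0 : u ≠ 0 := by
    intro h0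
    rw [h0, norm_zero] at hu
    exact zero_ne_one hu
  have hu' : ‖u⁻¹‖ = 1 := by rw [norm_inv, hu, inv_one]
  refine iSup₂_le fun Y hY => ?_
  refine le_iSup₂_of_le (f := fun (Y : ℂ → ℂ) (_ : TFc (Dp m) Y ∧ ∀ c, ‖Y c‖ ≤ Wp m ‖c‖) =>
    ENNReal.ofReal (∫ c in A, dvc Y c)) (fun c => u * Y (u⁻¹ * c)) ?_ ?_
  · refine ⟨⟨?_, ?_, ?_⟩, ?_⟩
    · exact contDiff_const.mul (rot_contDiff _ _ hY.1.diff)
    · exact (rot_comp _ hu' hY.1.comp).mul_left
    · have h1 : tsupport (fun c => u * Y (u⁻¹ * c)) ⊆ tsupport (fun c => Y (u⁻¹ * c)) :=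
        closure_mono fun c hc => by
          rw [Function.mem_support] at hc ⊢
          exact fun h => hc (by rw [h, mul_zero])
      exact h1.trans (rot_supp m _ hu' hY.1.supp)
    · intro c
      rw [norm_mul, hu, one_mul]
      have := hY.2 (u⁻¹ * c)
      rwa [norm_mul, hu', one_mul] at this
  · apply ENNReal.ofReal_le_ofReal
    apply le_of_eq
    simp only [rot_dvc u hu hY.1.diff]
    rw [← rot_integral u hu A fun c => dvc Y (u⁻¹ * c)]
    have h3 : ∀ c : ℂ, u⁻¹ * (u * c) = c := fun c => by field_simp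
    simp only [h3]

theorem rot : Stmt_Rot := by
  intro m h A hh hA hM
  have hn : 0 < ‖h‖ := norm_pos_iff.mpr hh
  have hn' : (‖h‖ : ℂ) ≠ 0 := by exact_mod_cast hn.ne'
  have hu : ‖h / ‖h‖‖ = 1 := by
    rw [norm_div, Complex.norm_real, norm_norm, div_self hn.ne']
  have hu0 : h / ‖h‖ ≠ 0 := div_ne_zero hh hn'
  refine ⟨{c | h / ‖h‖ * c ∈ A}, rot_measurable _ hA,
    rot_mono m h (h / ‖h‖) hu ‖h‖ hn (by field_simp) A hM, rot_V0 m _ hu A, ?_⟩
  apply le_antisymm (rot_P0_le m _ hu A)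
  have hu' : ‖(h / ‖h‖)⁻¹‖ = 1 := by rw [norm_inv, hu, inv_one]
  have h1 := rot_P0_le m (h / ‖h‖)⁻¹ hu' {c | h / ‖h‖ * c ∈ A}
  have h2 : {c | (h / ‖h‖)⁻¹ * c ∈ {c | h / ‖h‖ * c ∈ A}} = A := by
    ext c
    simp only [mem_ofPred_eq]
    rw [← mul_assoc, mul_inv_cancel₀ hu0, one_mul]
  rwa [h2] at h1

end Pool.Agent.Lib.MP_c95dcf_gt
end

section

/-!
# MP_c95dcf_gt, task G10: submodularity of the perimeter
-/

set_option autoImplicit false

open MeasureTheory Set Filter Topology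
open scoped ENNReal NNReal RealInnerProductSpace

namespace Pool.Agent.Lib.MP_c95dcf_gt

namespace Submod

variable {n : ℕ}

/-- smooth absolute value -/
noncomputable def sq (d t : ℝ) : ℝ := Real.sqrt (t ^ 2 + d ^ 2)

lemma sq_pos {d : ℝ} (hd : 0 < d) (t : ℝ) : 0 < sq d t := Real.sqrt_pos.2 (by positivity)

lemma abs_le_sq (d t : ℝ) : |t| ≤ sq d t := by
  rw [← Real.sqrt_sq_eq_abs]; exact Real.sqrt_le_sqrt (by nlinarith [sq_nonneg d])

lemma sq_le {d : ℝ} (hd : 0 ≤ d) (t : ℝ) : sq d t ≤ |t| + d := by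
  unfold sq
  rw [Real.sqrt_le_left (by positivity)]
  nlinarith [sq_abs t, abs_nonneg t]

lemma hasDerivAt_sq {d : ℝ} (hd : 0 < d) (t : ℝ) : HasDerivAt (sq d) (t / sq d t) t := by
  have h : HasDerivAt (fun t : ℝ => t ^ 2 + d ^ 2) (2 * t) t := by
    simpa using (hasDerivAt_pow 2 t).add_const (d ^ 2)
  have h2 := h.sqrt (by positivity : t ^ 2 + d ^ 2 ≠ 0)
  have : t / sq d t = 2 * t / (2 * Real.sqrt (t ^ 2 + d ^ 2)) := by
    unfold sq
    rw [mul_div_mul_left _ _ two_ne_zero]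
  rw [this]
  exact h2

lemma contDiff_sq {d : ℝ} (hd : 0 < d) : ContDiff ℝ 1 (sq d) := by
  unfold sq
  exact ((contDiff_id.pow 2).add contDiff_const).sqrt (fun t => by positivity)

/-- smooth maximum (`σ = 1`) and minimum (`σ = -1`) -/
noncomputable def mm (σ d : ℝ) (u v : E n → ℝ) (x : E n) : ℝ :=
  (u x + v x + σ * sq d (u x - v x)) / 2

/-- the weight -/
noncomputable def th (d : ℝ) (u v : E n → ℝ) (x : E n) : ℝ :=
  (u x - v x) / sq d (u x - v x)

lemma contDiff_mm {σ d : ℝ} (hd : 0 < d) {u v : E n → ℝ} (hu : ContDiff ℝ 1 u)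
    (hv : ContDiff ℝ 1 v) : ContDiff ℝ 1 (mm σ d u v) := by
  unfold mm
  exact ((hu.add hv).add (contDiff_const.mul ((contDiff_sq hd).comp (hu.sub hv)))).div_const 2

lemma contDiff_th {d : ℝ} (hd : 0 < d) {u v : E n → ℝ} (hu : ContDiff ℝ 1 u)
    (hv : ContDiff ℝ 1 v) : ContDiff ℝ 1 (th d u v) := by
  unfold th
  exact (hu.sub hv).div ((contDiff_sq hd).comp (hu.sub hv)) (fun x => (sq_pos hd _).ne')

lemma abs_th_le {d : ℝ} (hd : 0 < d) (u v : E n → ℝ) (x : E n) : |th d u v x| ≤ 1 := by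
  unfold th
  rw [abs_div, abs_of_pos (sq_pos hd _), div_le_one (sq_pos hd _)]
  exact abs_le_sq _ _

lemma fderiv_mm {σ d : ℝ} (hd : 0 < d) {u v : E n → ℝ} (hu : ContDiff ℝ 1 u)
    (hv : ContDiff ℝ 1 v) (x w : E n) :
    fderiv ℝ (mm σ d u v) x w =
      (fderiv ℝ u x w + fderiv ℝ v x w + σ * th d u v x * (fderiv ℝ u x w - fderiv ℝ v x w)) / 2 := by
  have hu' : HasFDerivAt u (fderiv ℝ u x) x := (hu.differentiable one_ne_zero x).hasFDerivAt
  have hv' : HasFDerivAt v (fderiv ℝ v x) x := (hv.differentiable one_ne_zero x).hasFDerivAt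
  have h1 : HasFDerivAt (fun x => sq d (u x - v x))
      ((th d u v x) • (fderiv ℝ u x - fderiv ℝ v x)) x :=
    (hasDerivAt_sq hd _).comp_hasFDerivAt x (hu'.sub hv')
  have h2 : HasFDerivAt (mm σ d u v)
      ((1 / 2 : ℝ) • (fderiv ℝ u x + fderiv ℝ v x + σ • ((th d u v x) • (fderiv ℝ u x - fderiv ℝ v x))))
      x := by
    have := ((hu'.add hv').add (h1.const_smul σ)).const_smul (1 / 2 : ℝ)
    refine this.congr_of_eventuallyEq (Eventually.of_forall fun y => ?_)
    simp [mm]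
    ring
  rw [h2.fderiv]
  simp
  ring

/-- the new test fields -/
noncomputable def mix (σ d : ℝ) (u v : E n → ℝ) (X Y : E n → E n) (x : E n) : E n :=
  ((1 + σ * th d u v x) / 2) • X x + ((1 - σ * th d u v x) / 2) • Y x

lemma norm_mix_le {σ d : ℝ} (hσ : |σ| ≤ 1) (hd : 0 < d) (u v : E n → ℝ) {X Y : E n → E n}
    (hX : ∀ x, ‖X x‖ ≤ 1) (hY : ∀ x, ‖Y x‖ ≤ 1) (x : E n) : ‖mix σ d u v X Y x‖ ≤ 1 := by
  have h1 : |σ * th d u v x| ≤ 1 := by
    rw [abs_mul]; exact mul_le_one₀ hσ (abs_nonneg _) (abs_th_le hd u v x)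
  obtain ⟨h2, h3⟩ := abs_le.1 h1
  calc ‖mix σ d u v X Y x‖ ≤ ‖((1 + σ * th d u v x) / 2) • X x‖ + ‖((1 - σ * th d u v x) / 2) • Y x‖ :=
        norm_add_le _ _
    _ ≤ (1 + σ * th d u v x) / 2 * 1 + (1 - σ * th d u v x) / 2 * 1 := by
        rw [norm_smul, norm_smul, Real.norm_of_nonneg (by linarith), Real.norm_of_nonneg (by linarith)]
        exact add_le_add (mul_le_mul_of_nonneg_left (hX x) (by linarith))
          (mul_le_mul_of_nonneg_left (hY x) (by linarith))
    _ = 1 := by ring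

lemma tf_mix {σ d : ℝ} (hd : 0 < d) {u v : E n → ℝ} (hu : ContDiff ℝ 1 u)
    (hv : ContDiff ℝ 1 v) {U : Set (E n)} {X Y : E n → E n} (hX : TF U X) (hY : TF U Y) :
    TF (tsupport X ∪ tsupport Y) (mix σ d u v X Y) := by
  have hs : Function.support (mix σ d u v X Y) ⊆ tsupport X ∪ tsupport Y := by
    intro x hx
    by_contra hcon
    rw [mem_union, not_or] at hcon
    apply hx
    simp [mix, image_eq_zero_of_notMem_tsupport hcon.1, image_eq_zero_of_notMem_tsupport hcon.2]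
  have hcl : IsClosed (tsupport X ∪ tsupport Y) := (isClosed_tsupport X).union (isClosed_tsupport Y)
  refine ⟨?_, ?_, closure_minimal hs hcl⟩
  · have ht := contDiff_th hd hu hv
    unfold mix
    exact (((contDiff_const.add (contDiff_const.mul ht)).div_const 2).smul hX.diff).add
      (((contDiff_const.sub (contDiff_const.mul ht)).div_const 2).smul hY.diff)
  · exact HasCompactSupport.of_support_subset_isCompact (hX.comp.isCompact.union hY.comp.isCompact) hs

lemma dv_eq_zero_of_notMem {X : E n → E n} {x : E n} (hx : x ∉ tsupport X) : dv X x = 0 := by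
  unfold dv
  have : fderiv ℝ X x = 0 := by
    have h := support_fderiv_subset ℝ (f := X)
    by_contra hne
    exact hx (h hne)
  simp [this]

lemma continuous_dv {X : E n → E n} (hX : ContDiff ℝ 1 X) : Continuous (dv X) := by
  unfold dv
  have h := hX.continuous_fderiv one_ne_zero
  refine continuous_finsetSum _ fun i _ => ?_
  have h2 : Continuous fun x => (fderiv ℝ X x) (EuclideanSpace.single i (1 : ℝ)) :=
    h.clm_apply continuous_const
  exact (EuclideanSpace.proj (𝕜 := ℝ) i).continuous.comp h2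

lemma hasCompactSupport_dv {X : E n → E n} (hX : HasCompactSupport X) :
    HasCompactSupport (dv X) := by
  refine HasCompactSupport.intro hX.isCompact fun x hx => dv_eq_zero_of_notMem hx

lemma hasCompactSupport_fderiv_apply {g : E n → ℝ} {X : E n → E n} (hX : HasCompactSupport X) :
    HasCompactSupport (fun x => fderiv ℝ g x (X x)) := by
  refine HasCompactSupport.intro hX.isCompact fun x hx => ?_
  simp [image_eq_zero_of_notMem_tsupport hx]

lemma integrable_fderiv_apply {g : E n → ℝ} {X : E n → E n} (hg : ContDiff ℝ 1 g)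
    (hX : ContDiff ℝ 1 X) (hXc : HasCompactSupport X) :
    Integrable (fun x => fderiv ℝ g x (X x)) := by
  refine Continuous.integrable_of_hasCompactSupport ?_ (hasCompactSupport_fderiv_apply hXc)
  exact (hg.continuous_fderiv one_ne_zero).clm_apply hX.continuous

/-- The key identity. -/
lemma key_identity (h3 : Stmt_IBP) {d : ℝ} (hd : 0 < d) {u v : E n → ℝ} (hu : ContDiff ℝ 1 u)
    (hv : ContDiff ℝ 1 v) {U : Set (E n)} {X Y : E n → E n} (hX : TF U X) (hY : TF U Y) :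
    (∫ x, mm 1 d u v x * dv X x) + (∫ x, mm (-1) d u v x * dv Y x) =
      (∫ x, u x * dv (mix 1 d u v X Y) x) + ∫ x, v x * dv (mix (-1) d u v X Y) x := by
  have ibp : ∀ (g : E n → ℝ) (Z : E n → E n) (W : Set (E n)), ContDiff ℝ 1 g → TF W Z →
      ∫ x, g x * dv Z x = - ∫ x, fderiv ℝ g x (Z x) := by
    intro g Z W hg hZ
    have := h3 n univ g Z isOpen_univ hg.contDiffOn ⟨hZ.diff, hZ.comp, subset_univ _⟩
    simpa using this
  have hm1 := tf_mix (σ := 1) hd hu hv hX hY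
  have hm2 := tf_mix (σ := -1) hd hu hv hX hY
  rw [ibp _ _ _ (contDiff_mm hd hu hv) hX, ibp _ _ _ (contDiff_mm hd hu hv) hY,
    ibp _ _ _ hu hm1, ibp _ _ _ hv hm2, ← neg_add, ← neg_add, neg_inj,
    ← integral_add (integrable_fderiv_apply (contDiff_mm hd hu hv) hX.diff hX.comp)
      (integrable_fderiv_apply (contDiff_mm hd hu hv) hY.diff hY.comp),
    ← integral_add (integrable_fderiv_apply hu hm1.diff hm1.comp)
      (integrable_fderiv_apply hv hm2.diff hm2.comp)]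
  refine integral_congr_ae (Eventually.of_forall fun x => ?_)
  simp only [fderiv_mm hd hu hv]
  simp only [mix, map_add, map_smul, smul_eq_mul]
  ring

lemma abs_mm_sub_le {σ d : ℝ} (hσ : σ = 1 ∨ σ = -1) (hd : 0 ≤ d) (u v : E n → ℝ) (x : E n)
    (a b : ℝ) : |mm σ d u v x - (a + b + σ * |a - b|) / 2| ≤ |u x - a| + |v x - b| + d := by
  have h1 := abs_le_sq d (u x - v x)
  have h2 := sq_le hd (u x - v x)
  have h3 : |(|u x - v x| - |a - b|)| ≤ |u x - a| + |v x - b| := by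
    calc |(|u x - v x| - |a - b|)| ≤ |(u x - v x) - (a - b)| := abs_abs_sub_abs_le_abs_sub _ _
      _ = |(u x - a) - (v x - b)| := by ring_nf
      _ ≤ |u x - a| + |v x - b| := abs_sub _ _
  have h4 := abs_le.1 h3
  have h5 := abs_le.1 (le_refl |u x - a|)
  have h6 := abs_le.1 (le_refl |v x - b|)
  unfold mm
  rw [abs_le]
  rcases hσ with rfl | rfl
  · constructor <;> linarith [h4.1, h4.2, h5.1, h5.2, h6.1, h6.2]
  · constructor <;> linarith [h4.1, h4.2, h5.1, h5.2, h6.1, h6.2]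

lemma locInt_ind {A : Set (E n)} (hA : MeasurableSet A) :
    LocallyIntegrable (A.indicator (1 : E n → ℝ)) := by
  have h : LocallyIntegrable (1 : E n → ℝ) := locallyIntegrable_const 1
  exact h.indicator hA

lemma int_ind_mul {A : Set (E n)} (hA : MeasurableSet A) (f : E n → ℝ) :
    ∫ x, A.indicator (1 : E n → ℝ) x * f x = ∫ x in A, f x := by
  rw [← integral_indicator hA]
  refine integral_congr_ae (Eventually.of_forall fun x => ?_)
  by_cases hx : x ∈ A <;> simp [hx]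

lemma int_le {U A : Set (E n)} (hfin : Per U A ≠ ∞) {X : E n → E n}
    (hX : TF U X) (hX1 : ∀ x, ‖X x‖ ≤ 1) : ∫ x in A, dv X x ≤ (Per U A).toReal := by
  have h : ENNReal.ofReal (∫ x in A, dv X x) ≤ Per U A := by
    unfold Per
    exact le_iSup₂ (f := fun (X : E n → E n) (_ : TF U X ∧ ∀ x, ‖X x‖ ≤ 1) =>
      ENNReal.ofReal (∫ x in A, dv X x)) X ⟨hX, hX1⟩
  exact (ENNReal.ofReal_le_iff_le_toReal hfin).1 h

/-- Passage to the limit. -/
lemma tendsto_aux {K : Set (E n)} (hK : IsCompact K) {f : ℕ → E n → ℝ} {g : E n → ℝ}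
    {u v : ℕ → E n → ℝ} {a b : E n → ℝ} {d : ℕ → ℝ} {w : E n → ℝ} (hw : Continuous w)
    (hwK : ∀ x, x ∉ K → w x = 0) (hf : ∀ k, Continuous (f k)) (hg : LocallyIntegrable g)
    (hu : ∀ k, Continuous (u k)) (hv : ∀ k, Continuous (v k)) (ha : LocallyIntegrable a)
    (hb : LocallyIntegrable b)
    (hle : ∀ k x, |f k x - g x| ≤ |u k x - a x| + |v k x - b x| + d k)
    (hlu : Tendsto (fun k => ∫ x in K, |u k x - a x|) atTop (𝓝 0))
    (hlv : Tendsto (fun k => ∫ x in K, |v k x - b x|) atTop (𝓝 0))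
    (hld : Tendsto d atTop (𝓝 0)) :
    Tendsto (fun k => ∫ x, f k x * w x) atTop (𝓝 (∫ x, g x * w x)) := by
  have hws : HasCompactSupport w := HasCompactSupport.intro hK hwK
  obtain ⟨C, hC⟩ := hw.bounded_above_of_compact_support hws
  have hC0 : 0 ≤ C := (norm_nonneg _).trans (hC 0)
  have hKm : MeasurableSet K := hK.measurableSet
  have hsupp : ∀ F : E n → ℝ, ∫ x, F x * w x = ∫ x in K, F x * w x := by
    intro F
    rw [setIntegral_eq_integral_of_forall_compl_eq_zero]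
    intro x hx
    rw [hwK x hx, mul_zero]
  have intOn : ∀ F : E n → ℝ, LocallyIntegrable F → IntegrableOn (fun x => F x * w x) K := by
    intro F hF
    exact (hF.integrableOn_isCompact hK).mul_continuousOn hw.continuousOn hK
  have hu1 : ∀ k, IntegrableOn (fun x => |u k x - a x|) K := fun k =>
    (((hu k).locallyIntegrable.sub ha).integrableOn_isCompact hK).abs
  have hv1 : ∀ k, IntegrableOn (fun x => |v k x - b x|) K := fun k =>
    (((hv k).locallyIntegrable.sub hb).integrableOn_isCompact hK).abs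
  have hd1 : ∀ k, IntegrableOn (fun _ : E n => d k) K := fun k =>
    integrableOn_const hK.measure_lt_top.ne
  rw [tendsto_iff_norm_sub_tendsto_zero]
  have hbound : ∀ k, ‖(∫ x, f k x * w x) - ∫ x, g x * w x‖ ≤
      C * ((∫ x in K, |u k x - a x|) + (∫ x in K, |v k x - b x|) + d k * (volume K).toReal) := by
    intro k
    rw [hsupp, hsupp, ← integral_sub (intOn _ (hf k).locallyIntegrable) (intOn _ hg)]
    have h1 : (∫ x in K, |u k x - a x|) + (∫ x in K, |v k x - b x|) + d k * (volume K).toReal =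
        ∫ x in K, (|u k x - a x| + |v k x - b x| + d k) := by
      have huv : IntegrableOn (fun x => |u k x - a x| + |v k x - b x|) K := (hu1 k).add (hv1 k)
      rw [integral_add huv (hd1 k), integral_add (hu1 k) (hv1 k)]
      simp [Measure.real, mul_comm]
    rw [h1, ← integral_const_mul]
    refine norm_integral_le_of_norm_le ((((hu1 k).add (hv1 k)).add (hd1 k)).const_mul C) ?_
    refine Eventually.of_forall fun x => ?_
    have h2 : f k x * w x - g x * w x = (f k x - g x) * w x := by ring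
    rw [h2, norm_mul, mul_comm]
    exact mul_le_mul (hC x) (hle k x) (norm_nonneg _) hC0
  refine squeeze_zero (fun k => norm_nonneg _) hbound ?_
  have := ((hlu.add hlv).add (hld.mul_const (volume K).toReal)).const_mul C
  simpa using this

lemma ind_max {A B : Set (E n)} (x : E n) :
    (A.indicator (1 : E n → ℝ) x + B.indicator (1 : E n → ℝ) x +
      1 * |A.indicator (1 : E n → ℝ) x - B.indicator (1 : E n → ℝ) x|) / 2 =
      (A ∪ B).indicator (1 : E n → ℝ) x := by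
  by_cases h1 : x ∈ A <;> by_cases h2 : x ∈ B <;> simp [h1, h2]

lemma ind_min {A B : Set (E n)} (x : E n) :
    (A.indicator (1 : E n → ℝ) x + B.indicator (1 : E n → ℝ) x +
      (-1) * |A.indicator (1 : E n → ℝ) x - B.indicator (1 : E n → ℝ) x|) / 2 =
      (A ∩ B).indicator (1 : E n → ℝ) x := by
  by_cases h1 : x ∈ A <;> by_cases h2 : x ∈ B <;> simp [h1, h2]

lemma main_ineq (hK : Stmt_Kern) (h1 : Stmt_Conv) (h2 : Stmt_ConvTest) (h3 : Stmt_IBP)
    {U A B : Set (E n)} (hU : IsOpen U) (hA : MeasurableSet A) (hB : MeasurableSet B)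
    (hfA : Per U A ≠ ∞) (hfB : Per U B ≠ ∞) {X Y : E n → E n} (hX : TF U X) (hY : TF U Y)
    (hX1 : ∀ x, ‖X x‖ ≤ 1) (hY1 : ∀ x, ‖Y x‖ ≤ 1) :
    (∫ x in A ∪ B, dv X x) + (∫ x in A ∩ B, dv Y x) ≤ (Per U A).toReal + (Per U B).toReal := by
  obtain ⟨ρ, hρ⟩ := hK n
  have hKc : IsCompact (tsupport X ∪ tsupport Y) := hX.comp.isCompact.union hY.comp.isCompact
  have hKU : tsupport X ∪ tsupport Y ⊆ U := union_subset hX.supp hY.supp
  obtain ⟨hcA, hlA⟩ := h1 n ρ hρ _ (locInt_ind hA)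
  obtain ⟨hcB, hlB⟩ := h1 n ρ hρ _ (locInt_ind hB)
  set uk : ℕ → E n → ℝ := fun k => conv (ρ k) (A.indicator 1) with huk
  set vk : ℕ → E n → ℝ := fun k => conv (ρ k) (B.indicator 1) with hvk
  set dk : ℕ → ℝ := fun k => 1 / (k + 1 : ℝ) with hdk
  have hdpos : ∀ k, 0 < dk k := fun k => by rw [hdk]; positivity
  have hd0 : Tendsto dk atTop (𝓝 0) := tendsto_one_div_add_atTop_nhds_zero_nat
  have hlimX : Tendsto (fun k => ∫ x, mm 1 (dk k) (uk k) (vk k) x * dv X x) atTop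
      (𝓝 (∫ x, (A ∪ B).indicator (1 : E n → ℝ) x * dv X x)) := by
    refine tendsto_aux (u := uk) (v := vk) (a := A.indicator 1) (b := B.indicator 1) (d := dk) hKc
      (continuous_dv hX.diff)
      (fun x hx => dv_eq_zero_of_notMem (fun h => hx (Or.inl h)))
      (fun k => (contDiff_mm (hdpos k) (hcA k) (hcB k)).continuous) (locInt_ind (hA.union hB))
      (fun k => (hcA k).continuous) (fun k => (hcB k).continuous) (locInt_ind hA) (locInt_ind hB)
      (fun k x => ?_) (hlA _ hKc) (hlB _ hKc) hd0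
    rw [← ind_max]
    exact abs_mm_sub_le (Or.inl rfl) (hdpos k).le _ _ _ _ _
  have hlimY : Tendsto (fun k => ∫ x, mm (-1) (dk k) (uk k) (vk k) x * dv Y x) atTop
      (𝓝 (∫ x, (A ∩ B).indicator (1 : E n → ℝ) x * dv Y x)) := by
    refine tendsto_aux (u := uk) (v := vk) (a := A.indicator 1) (b := B.indicator 1) (d := dk) hKc
      (continuous_dv hY.diff)
      (fun x hx => dv_eq_zero_of_notMem (fun h => hx (Or.inr h)))
      (fun k => (contDiff_mm (hdpos k) (hcA k) (hcB k)).continuous) (locInt_ind (hA.inter hB))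
      (fun k => (hcA k).continuous) (fun k => (hcB k).continuous) (locInt_ind hA) (locInt_ind hB)
      (fun k x => ?_) (hlA _ hKc) (hlB _ hKc) hd0
    rw [← ind_min]
    exact abs_mm_sub_le (Or.inr rfl) (hdpos k).le _ _ _ _ _
  rw [int_ind_mul (hA.union hB)] at hlimX
  rw [int_ind_mul (hA.inter hB)] at hlimY
  refine le_of_tendsto (hlimX.add hlimY) ?_
  obtain ⟨δ, hδ, hδU⟩ := hKc.exists_cthickening_subset_open hU hKU
  have hev : ∀ᶠ k in atTop, dk k < δ := hd0.eventually (gt_mem_nhds hδ)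
  filter_upwards [hev] with k hk
  rw [key_identity h3 (hdpos k) (hcA k) (hcB k) hX hY]
  have hV : ∀ x ∈ tsupport X ∪ tsupport Y, ∀ y : E n, ‖y‖ ≤ 1 / (k + 1 : ℝ) → x + y ∈ U := by
    intro x hx y hy
    refine hδU (Metric.mem_cthickening_of_dist_le (x + y) x δ _ hx ?_)
    rw [dist_eq_norm, add_sub_cancel_left]
    exact hy.trans hk.le
  have hfin : ∀ (S : Set (E n)) (Z : E n → E n), MeasurableSet S → Per U S ≠ ∞ →
      TF (tsupport X ∪ tsupport Y) Z → (∀ x, ‖Z x‖ ≤ 1) →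
      ∫ x, conv (ρ k) (S.indicator 1) x * dv Z x ≤ (Per U S).toReal := by
    intro S Z hS hfS hZ hZ1
    obtain ⟨Z', hZ', hb, -, heq⟩ := h2 n ρ hρ _ (locInt_ind hS) k U _ Z hU hZ hV
    rw [heq, int_ind_mul hS]
    exact int_le hfS hZ' (hb 1 hZ1)
  exact add_le_add
    (hfin A _ hA hfA (tf_mix (hdpos k) (hcA k) (hcB k) hX hY)
      (norm_mix_le (by simp) (hdpos k) _ _ hX1 hY1))
    (hfin B _ hB hfB (tf_mix (hdpos k) (hcA k) (hcB k) hX hY)
      (norm_mix_le (by simp) (hdpos k) _ _ hX1 hY1))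

lemma tf_zero (U : Set (E n)) : TF U (0 : E n → E n) :=
  ⟨contDiff_const, HasCompactSupport.zero, by simp [tsupport]⟩

lemma dv_zero (x : E n) : dv (0 : E n → E n) x = 0 := by simp [dv]

end Submod

open Submod in
theorem submod (hK : Stmt_Kern) (h1 : Stmt_Conv) (h2 : Stmt_ConvTest) (h3 : Stmt_IBP) :
    Stmt_Submod := by
  intro n U A B hU hA hB
  by_cases hfA : Per U A = ∞
  · simp [hfA]
  by_cases hfB : Per U B = ∞
  · simp [hfB]
  have hR : Per U A + Per U B = ENNReal.ofReal ((Per U A).toReal + (Per U B).toReal) := by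
    rw [ENNReal.ofReal_add ENNReal.toReal_nonneg ENNReal.toReal_nonneg, ENNReal.ofReal_toReal hfA,
      ENNReal.ofReal_toReal hfB]
  have hpos : ∀ (S : Set (E n)) (X : E n → E n), TF U X → (∀ x, ‖X x‖ ≤ 1) →
      ∃ X', TF U X' ∧ (∀ x, ‖X' x‖ ≤ 1) ∧
        ENNReal.ofReal (∫ x in S, dv X x) = ENNReal.ofReal (∫ x in S, dv X' x) ∧
        0 ≤ ∫ x in S, dv X' x := by
    intro S X hX hX1
    rcases le_or_gt 0 (∫ x in S, dv X x) with h | h
    · exact ⟨X, hX, hX1, rfl, h⟩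
    · refine ⟨0, tf_zero U, by simp, ?_, by simp [dv_zero]⟩
      rw [ENNReal.ofReal_of_nonpos h.le]
      simp [dv_zero]
  rw [hR]
  unfold Per
  refine ENNReal.biSup_add_biSup_le' ?_ ?_ ?_
  · exact ⟨0, tf_zero U, by simp⟩
  · exact ⟨0, tf_zero U, by simp⟩
  rintro X ⟨hX, hX1⟩ Y ⟨hY, hY1⟩
  obtain ⟨X', hX', hX1', he1, hn1⟩ := hpos (A ∪ B) X hX hX1
  obtain ⟨Y', hY', hY1', he2, hn2⟩ := hpos (A ∩ B) Y hY hY1
  rw [he1, he2, ← ENNReal.ofReal_add hn1 hn2]
  exact ENNReal.ofReal_le_ofReal (main_ineq hK h1 h2 h3 hU hA hB hfA hfB hX' hY' hX1' hY1')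

end Pool.Agent.Lib.MP_c95dcf_gt
end
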