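import Mathlib
import Pool.Agent.Lib.MP_c95dcf_gt.GStmts

section

/-!
# MP_c95dcf_gt, part B: mollification on an interval
-/

set_option autoImplicit false

open MeasureTheory Set Filter Topology
open scoped ENNReal NNReal Convolution

namespace Pool.Agent.Lib.MP_c95dcf_gt

/-- Mollifier of radius `1 / (n + 1)`. -/
noncomputable def molB (n : ℕ) : ContDiffBump (0 : ℝ) where
  rIn := 1 / (2 * (n + 1))
  rOut := 1 / (n + 1)
  rIn_pos := by positivity
  rIn_lt_rOut := by
    have : (0 : ℝ) < n + 1 := by positivity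
    exact one_div_lt_one_div_of_lt this (by linarith)

/-- The cut off of `f`. -/
noncomputable def molC (α β : ℝ) (n : ℕ) (f : ℝ → ℝ) : ℝ → ℝ :=
  (Icc (α + 2 / (n + 1)) (β - 2 / (n + 1))).indicator f

/-- The mollification of `f` inside of `(α, β)`. -/
noncomputable def molF (α β : ℝ) (n : ℕ) (f : ℝ → ℝ) : ℝ → ℝ :=
  ((molB n).normed volume) ⋆[ContinuousLinearMap.lsmul ℝ ℝ, volume] (molC α β n f)

theorem molF_apply (α β : ℝ) (n : ℕ) (f : ℝ → ℝ) (x : ℝ) :
    molF α β n f x = ∫ t, (molB n).normed volume t * molC α β n f (x - t) := rfl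

theorem molC_bound {α β C : ℝ} {n : ℕ} {f : ℝ → ℝ} (hC : 0 ≤ C) (hf : ∀ x, |f x| ≤ C) (x : ℝ) :
    |molC α β n f x| ≤ C := by
  unfold molC
  rw [indicator_apply]
  split_ifs
  · exact hf x
  · simpa using hC

theorem molC_measurable {α β : ℝ} {n : ℕ} {f : ℝ → ℝ} (hf : Measurable f) :
    Measurable (molC α β n f) := hf.indicator measurableSet_Icc

theorem mol_locInt {C : ℝ} {f : ℝ → ℝ} (hm : Measurable f) (hf : ∀ x, |f x| ≤ C) :
    LocallyIntegrable f volume := by
  have h1 : LocallyIntegrable (fun _ : ℝ => C) volume := locallyIntegrable_const C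
  exact h1.mono hm.aestronglyMeasurable (Eventually.of_forall fun x => by
    rw [Real.norm_eq_abs, Real.norm_eq_abs]
    exact (hf x).trans (le_abs_self C))

theorem mol_integrable {α β C : ℝ} {n : ℕ} {f : ℝ → ℝ} (hm : Measurable f)
    (hf : ∀ x, |f x| ≤ C) (x : ℝ) :
    Integrable (fun t => (molB n).normed volume t * molC α β n f (x - t)) := by
  have hC : 0 ≤ C := (abs_nonneg _).trans (hf 0)
  have h0 : Integrable (fun t => (molB n).normed volume t * C) :=
    ((molB n).integrable_normed).mul_const C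
  refine h0.mono' ?_ (Eventually.of_forall fun t => ?_)
  · have h1 : Measurable ((molB n).normed volume) := (molB n).continuous_normed.measurable
    have h2 : Measurable (fun t => molC α β n f (x - t)) :=
      (molC_measurable hm).comp (by fun_prop)
    exact (h1.mul h2).aestronglyMeasurable
  · rw [norm_mul, Real.norm_of_nonneg ((molB n).nonneg_normed t), Real.norm_eq_abs]
    exact mul_le_mul_of_nonneg_left (molC_bound hC hf _) ((molB n).nonneg_normed t)

theorem molF_contDiff {α β C : ℝ} {n : ℕ} {f : ℝ → ℝ} (hm : Measurable f)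
    (hf : ∀ x, |f x| ≤ C) : ContDiff ℝ 1 (molF α β n f) := by
  have hC : 0 ≤ C := (abs_nonneg _).trans (hf 0)
  refine HasCompactSupport.contDiff_convolution_left _ (molB n).hasCompactSupport_normed
    (molB n).contDiff_normed (mol_locInt (molC_measurable hm) (molC_bound hC hf))

theorem molF_bound {α β C : ℝ} {n : ℕ} {f : ℝ → ℝ} (hf : ∀ x, |f x| ≤ C) (x : ℝ) :
    |molF α β n f x| ≤ C := by
  have hC : 0 ≤ C := (abs_nonneg _).trans (hf 0)
  rw [molF_apply]
  have h0 : Integrable (fun t => (molB n).normed volume t * C) :=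
    ((molB n).integrable_normed).mul_const C
  have h1 := norm_integral_le_of_norm_le h0
    (f := fun t => (molB n).normed volume t * molC α β n f (x - t))
    (Eventually.of_forall fun t => by
      rw [norm_mul, Real.norm_of_nonneg ((molB n).nonneg_normed t), Real.norm_eq_abs]
      exact mul_le_mul_of_nonneg_left (molC_bound hC hf _) ((molB n).nonneg_normed t))
  rw [integral_mul_const, (molB n).integral_normed, one_mul, Real.norm_eq_abs] at h1
  exact h1

theorem molF_nonneg {α β : ℝ} {n : ℕ} {f : ℝ → ℝ} (hf : ∀ x, 0 ≤ f x) (x : ℝ) :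
    0 ≤ molF α β n f x := by
  rw [molF_apply]
  refine integral_nonneg fun t => mul_nonneg ((molB n).nonneg_normed t) ?_
  unfold molC
  exact indicator_nonneg (fun y _ => hf y) _

theorem molF_sum {α β C : ℝ} {n : ℕ} {ι : Type*} (s : Finset ι) {f : ι → ℝ → ℝ}
    (hm : ∀ i ∈ s, Measurable (f i)) (hf : ∀ i ∈ s, ∀ x, |f i x| ≤ C) (x : ℝ) :
    ∑ i ∈ s, molF α β n (f i) x = molF α β n (fun y => ∑ i ∈ s, f i y) x := by
  simp_rw [molF_apply]
  rw [← integral_finsetSum s fun i hi => mol_integrable (hm i hi) (hf i hi) x]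
  refine integral_congr_ae (Eventually.of_forall fun t => ?_)
  simp only
  rw [← Finset.mul_sum]
  congr 1
  unfold molC
  simp only [indicator_apply]
  split_ifs
  · rfl
  · simp

theorem molF_zero {α β : ℝ} {n : ℕ} {f : ℝ → ℝ} {x : ℝ}
    (hx : x ∉ Icc (α + 1 / (n + 1)) (β - 1 / (n + 1))) : molF α β n f x = 0 := by
  rw [molF_apply]
  have h0 : ∀ t, (molB n).normed volume t * molC α β n f (x - t) = 0 := by
    intro t
    by_cases ht : t ∈ Metric.ball (0 : ℝ) (1 / (n + 1))
    · rw [mem_ball_zero_iff, Real.norm_eq_abs, abs_lt] at ht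
      have : x - t ∉ Icc (α + 2 / (n + 1)) (β - 2 / (n + 1)) := by
        intro h
        have e : (2 : ℝ) / (n + 1) = 1 / (n + 1) + 1 / (n + 1) := by ring
        rw [e] at h
        exact hx ⟨by linarith [h.1], by linarith [h.2]⟩
      unfold molC
      rw [indicator_of_notMem this, mul_zero]
    · have : t ∉ Function.support ((molB n).normed volume) := by
        rw [(molB n).support_normed_eq]
        exact ht
      rw [Function.notMem_support.1 this, zero_mul]
  simp [h0]

theorem molF_tsupport {α β : ℝ} {n : ℕ} {f : ℝ → ℝ} :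
    tsupport (molF α β n f) ⊆ Icc (α + 1 / (n + 1)) (β - 1 / (n + 1)) := by
  refine closure_minimal ?_ isClosed_Icc
  intro x hx
  by_contra h
  exact hx (molF_zero h)

theorem molF_tendsto {α β C : ℝ} {f : ℝ → ℝ} (hm : Measurable f) (hf : ∀ x, |f x| ≤ C) :
    ∀ᵐ x : ℝ, x ∈ Ioo α β → Tendsto (fun n : ℕ => molF α β n f x) atTop (𝓝 (f x)) := by
  have h1 : Tendsto (fun n : ℕ => (molB n).rOut) atTop (𝓝 0) :=
    tendsto_one_div_add_atTop_nhds_zero_nat
  have h2 : ∀ᶠ n in atTop, (molB n).rOut ≤ 2 * (molB n).rIn := by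
    refine Eventually.of_forall fun n => ?_
    show 1 / ((n : ℝ) + 1) ≤ 2 * (1 / (2 * ((n : ℝ) + 1)))
    have : (0 : ℝ) < n + 1 := by positivity
    field_simp
    exact le_rfl
  have h3 := ContDiffBump.ae_convolution_tendsto_right_of_locallyIntegrable (μ := volume)
    (g := f) h1 h2 (mol_locInt hm hf)
  filter_upwards [h3] with x hx hxI
  refine hx.congr' ?_
  have h4 : ∀ᶠ n : ℕ in atTop, 3 * (1 / ((n : ℝ) + 1)) < min (x - α) (β - x) := by
    have h5 : Tendsto (fun n : ℕ => 3 * (1 / ((n : ℝ) + 1))) atTop (𝓝 (3 * 0)) :=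
      tendsto_one_div_add_atTop_nhds_zero_nat.const_mul 3
    rw [mul_zero] at h5
    exact h5.eventually (gt_mem_nhds (lt_min (by linarith [hxI.1]) (by linarith [hxI.2])))
  filter_upwards [h4] with n hn
  rw [lt_min_iff] at hn
  rw [molF_apply, convolution_def]
  refine integral_congr_ae (Eventually.of_forall fun t => ?_)
  simp only [ContinuousLinearMap.lsmul_apply, smul_eq_mul]
  by_cases ht : t ∈ Metric.ball (0 : ℝ) (1 / (n + 1))
  · rw [mem_ball_zero_iff, Real.norm_eq_abs, abs_lt] at ht
    have : x - t ∈ Icc (α + 2 / (n + 1)) (β - 2 / (n + 1)) := by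
      have e : (2 : ℝ) / (n + 1) = 1 / (n + 1) + 1 / (n + 1) := by ring
      rw [e]
      exact ⟨by linarith [hn.1], by linarith [hn.2]⟩
    unfold molC
    rw [indicator_of_mem this]
  · have : t ∉ Function.support ((molB n).normed volume) := by
      rw [(molB n).support_normed_eq]
      exact ht
    rw [Function.notMem_support.1 this, zero_mul, zero_mul]

end Pool.Agent.Lib.MP_c95dcf_gt
end

section

/-!
# MP_c95dcf_gt, G09: perimeter and scaling, relative isoperimetric inequality in balls
-/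

set_option autoImplicit false

open MeasureTheory Set Filter Topology
open scoped ENNReal NNReal RealInnerProductSpace Pointwise

namespace Pool.Agent.Lib.MP_c95dcf_gt

/-- the similarity `y ↦ x + r • y` -/
noncomputable def scaleMap {n : ℕ} (x : E n) (r : ℝ) (y : E n) : E n := x + r • y

/-- the inverse similarity -/
noncomputable def scaleInv {n : ℕ} (x : E n) (r : ℝ) (z : E n) : E n := r⁻¹ • (z - x)

theorem scaleInv_map {n : ℕ} (x : E n) {r : ℝ} (hr : 0 < r) (y : E n) :
    scaleInv x r (scaleMap x r y) = y := by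
  simp [scaleInv, scaleMap, smul_smul, inv_mul_cancel₀ hr.ne']

theorem scaleMap_inv {n : ℕ} (x : E n) {r : ℝ} (hr : 0 < r) (z : E n) :
    scaleMap x r (scaleInv x r z) = z := by
  simp [scaleInv, scaleMap, smul_smul, mul_inv_cancel₀ hr.ne']

theorem scaleMap_image {n : ℕ} (x : E n) {r : ℝ} (hr : 0 < r) (A : Set (E n)) :
    scaleMap x r '' A = scaleInv x r ⁻¹' A := by
  ext z
  constructor
  · rintro ⟨y, hy, rfl⟩
    rw [mem_preimage, scaleInv_map x hr]
    exact hy
  · intro hz
    exact ⟨scaleInv x r z, hz, scaleMap_inv x hr z⟩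

theorem continuous_scaleInv {n : ℕ} (x : E n) (r : ℝ) : Continuous (scaleInv x r) := by
  unfold scaleInv
  fun_prop

theorem continuous_scaleMap {n : ℕ} (x : E n) (r : ℝ) : Continuous (scaleMap x r) := by
  unfold scaleMap
  fun_prop

theorem measurableSet_scale {n : ℕ} (x : E n) {r : ℝ} (hr : 0 < r) {A : Set (E n)}
    (hA : MeasurableSet A) : MeasurableSet (scaleMap x r '' A) := by
  rw [scaleMap_image x hr]
  exact (continuous_scaleInv x r).measurable hA

theorem hasFDerivAt_scaleInv {n : ℕ} (x : E n) (r : ℝ) (z : E n) :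
    HasFDerivAt (scaleInv x r) (r⁻¹ • ContinuousLinearMap.id ℝ (E n)) z := by
  unfold scaleInv
  exact ((hasFDerivAt_id z).sub_const x).const_smul r⁻¹

theorem dv_scale {n : ℕ} (x : E n) (r : ℝ) {X : E n → E n} (hX : ContDiff ℝ 1 X) (z : E n) :
    dv (X ∘ scaleInv x r) z = r⁻¹ * dv X (scaleInv x r z) := by
  have h1 : HasFDerivAt (X ∘ scaleInv x r)
      ((fderiv ℝ X (scaleInv x r z)).comp (r⁻¹ • ContinuousLinearMap.id ℝ (E n))) z :=
    ((hX.differentiable (by norm_num)).differentiableAt.hasFDerivAt).comp z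
      (hasFDerivAt_scaleInv x r z)
  unfold dv
  rw [h1.fderiv, Finset.mul_sum]
  refine Finset.sum_congr rfl fun i _ => ?_
  simp

theorem TF.scale {n : ℕ} (x : E n) {r : ℝ} (hr : 0 < r) {U : Set (E n)} {X : E n → E n}
    (hX : TF U X) : TF (scaleMap x r '' U) (X ∘ scaleInv x r) := by
  have hK : tsupport (X ∘ scaleInv x r) ⊆ scaleMap x r '' tsupport X := by
    rw [scaleMap_image x hr]
    refine closure_minimal ?_ ((isClosed_tsupport X).preimage (continuous_scaleInv x r))
    intro z hz
    exact subset_tsupport X hz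
  refine ⟨?_, ?_, ?_⟩
  · refine hX.diff.comp ?_
    unfold scaleInv
    fun_prop
  · exact (hX.comp.isCompact.image (continuous_scaleMap x r)).of_isClosed_subset
      (isClosed_tsupport _) hK
  · exact hK.trans (image_mono hX.supp)

theorem integral_scale {n : ℕ} (x : E n) {r : ℝ} (hr : 0 < r) {A : Set (E n)}
    (hA : MeasurableSet A) (f : E n → ℝ) :
    ∫ z in scaleMap x r '' A, f (scaleInv x r z) = r ^ n * ∫ y in A, f y := by
  rw [← integral_indicator (measurableSet_scale x hr hA), ← integral_indicator hA]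
  have h1 : (scaleMap x r '' A).indicator (fun z => f (scaleInv x r z)) =
      fun z => (A.indicator f) (r⁻¹ • (z - x)) := by
    funext z
    rw [scaleMap_image x hr]
    by_cases hz : scaleInv x r z ∈ A
    · rw [indicator_of_mem (show z ∈ scaleInv x r ⁻¹' A from hz)]
      exact (indicator_of_mem hz f).symm
    · rw [indicator_of_notMem (show z ∉ scaleInv x r ⁻¹' A from hz)]
      exact (indicator_of_notMem hz f).symm
  rw [h1, integral_sub_right_eq_self (fun z => (A.indicator f) (r⁻¹ • z)) x,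
    Measure.integral_comp_smul]
  have h2 : Module.finrank ℝ (E n) = n := by simp [E]
  rw [h2, inv_pow, inv_inv, abs_of_pos (pow_pos hr n), smul_eq_mul]

theorem perScale_le {n : ℕ} (hn : 1 ≤ n) (x : E n) {r : ℝ} (hr : 0 < r) (U : Set (E n))
    {A : Set (E n)} (hA : MeasurableSet A) :
    ENNReal.ofReal (r ^ (n - 1)) * Per U A ≤ Per (scaleMap x r '' U) (scaleMap x r '' A) := by
  conv_lhs => unfold Per
  rw [ENNReal.mul_iSup]
  refine iSup_le fun X => ?_
  rw [ENNReal.mul_iSup]
  refine iSup_le fun hX => ?_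
  rw [← ENNReal.ofReal_mul (by positivity)]
  refine le_trans (le_of_eq ?_) (le_iSup₂_of_le (f := fun (X : E n → E n)
    (_ : TF (scaleMap x r '' U) X ∧ ∀ x, ‖X x‖ ≤ 1) =>
      ENNReal.ofReal (∫ z in scaleMap x r '' A, dv X z)) (X ∘ scaleInv x r)
      ⟨hX.1.scale x hr, fun z => hX.2 _⟩ le_rfl)
  congr 1
  have h1 : ∫ z in scaleMap x r '' A, dv (X ∘ scaleInv x r) z =
      ∫ z in scaleMap x r '' A, r⁻¹ * dv X (scaleInv x r z) :=
    integral_congr_ae (Eventually.of_forall fun z => dv_scale x r hX.1.diff z)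
  rw [h1, integral_const_mul, integral_scale x hr hA, ← mul_assoc]
  congr 1
  obtain ⟨m, rfl⟩ : ∃ m, n = m + 1 := ⟨n - 1, by omega⟩
  rw [Nat.add_sub_cancel, pow_succ, mul_comm (r ^ m) r, ← mul_assoc, inv_mul_cancel₀ hr.ne',
    one_mul]

theorem scaleMap_scaleMap {n : ℕ} (x : E n) {r : ℝ} (hr : 0 < r) (A : Set (E n)) :
    scaleMap (-(r⁻¹ • x)) r⁻¹ '' (scaleMap x r '' A) = A := by
  rw [← image_comp]
  have : scaleMap (-(r⁻¹ • x)) r⁻¹ ∘ scaleMap x r = id := by
    funext y
    simp [scaleMap, smul_smul, inv_mul_cancel₀ hr.ne']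
  rw [this, image_id]

theorem perScale : Stmt_PerScale := by
  intro n U A x r hn hr hA
  change Per (scaleMap x r '' U) (scaleMap x r '' A) = _
  refine le_antisymm ?_ (perScale_le hn x hr U hA)
  have h1 := perScale_le hn (-(r⁻¹ • x)) (inv_pos.2 hr) (scaleMap x r '' U)
    (measurableSet_scale x hr hA)
  rw [scaleMap_scaleMap x hr, scaleMap_scaleMap x hr] at h1
  refine le_trans (le_of_eq ?_) (mul_le_mul_right h1 (ENNReal.ofReal (r ^ (n - 1))))
  rw [← mul_assoc, ← ENNReal.ofReal_mul (by positivity), ← mul_pow, mul_inv_cancel₀ hr.ne',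
    one_pow, ENNReal.ofReal_one, one_mul]

theorem volume_scale {n : ℕ} (x : E n) {r : ℝ} (hr : 0 < r) (A : Set (E n)) :
    volume (scaleMap x r '' A) = ENNReal.ofReal (r ^ n) * volume A := by
  have h1 : scaleMap x r '' A = (fun y => x + y) '' (r • A) := by
    rw [← image_smul, ← image_comp]
    rfl
  have h2 : Module.finrank ℝ (E n) = n := by simp [E]
  rw [h1, image_add_left, measure_preimage_add, Measure.addHaar_smul, h2,
    abs_of_pos (pow_pos hr n)]

theorem relIsoBall (h1 : Stmt_RelIso) (h2 : Stmt_PerScale) : Stmt_RelIsoBall := by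
  intro n hn
  obtain ⟨c, hc, h⟩ := h1 n (Metric.ball 0 1) hn Metric.isOpen_ball (convex_ball 0 1)
    Metric.isBounded_ball ⟨0, Metric.mem_ball_self one_pos⟩
  refine ⟨c, hc, fun x r hr A hA => ?_⟩
  set A' : Set (E n) := scaleMap x r ⁻¹' A with hA'
  have hmA' : MeasurableSet A' := (continuous_scaleMap x r).measurable hA
  have hsurj : Function.Surjective (scaleMap x r) := fun z => ⟨_, scaleMap_inv x hr z⟩
  have hinj : Function.Injective (scaleMap x r) := fun y z hyz => by
    rw [← scaleInv_map x hr y, hyz, scaleInv_map x hr z]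
  have hA2 : scaleMap x r '' A' = A := image_preimage_eq A hsurj
  have hB : scaleMap x r '' Metric.ball 0 1 = Metric.ball x r := by
    have h3 : scaleMap x r '' Metric.ball 0 1 =
        (fun y => x + y) '' (r • Metric.ball (0 : E n) 1) := by
      rw [← image_smul, ← image_comp]
      rfl
    rw [h3, smul_unitBall_of_pos hr, image_add_left]
    ext z
    simp [dist_eq_norm, ← sub_eq_neg_add]
  have hp := h2 n (Metric.ball 0 1) A' x r (by omega) hr hmA'
  change Per (scaleMap x r '' Metric.ball 0 1) (scaleMap x r '' A') = _ at hp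
  rw [hA2, hB] at hp
  rw [hp]
  have hv1 : volume (A ∩ Metric.ball x r) =
      ENNReal.ofReal (r ^ n) * volume (A' ∩ Metric.ball 0 1) := by
    rw [← volume_scale x hr, image_inter hinj, hA2, hB]
  have hv2 : volume (Metric.ball x r \ A) =
      ENNReal.ofReal (r ^ n) * volume (Metric.ball 0 1 \ A') := by
    rw [← volume_scale x hr, image_sdiff hinj, hA2, hB]
  rw [hv1, hv2]
  have hmin : min (ENNReal.ofReal (r ^ n) * volume (A' ∩ Metric.ball 0 1))
      (ENNReal.ofReal (r ^ n) * volume (Metric.ball 0 1 \ A')) =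
      ENNReal.ofReal (r ^ n) * min (volume (A' ∩ Metric.ball 0 1))
        (volume (Metric.ball 0 1 \ A')) := by
    exact (Monotone.map_min (f := fun t : ℝ≥0∞ => ENNReal.ofReal (r ^ n) * t)
      (fun a b hab => mul_le_mul_right hab _)).symm
  have hn0 : (0 : ℝ) < n := by
    have : 0 < n := by omega
    exact_mod_cast this
  have hexp : (0 : ℝ) ≤ ((n : ℝ) - 1) / n := by
    apply div_nonneg _ hn0.le
    have : (2 : ℝ) ≤ n := by exact_mod_cast hn
    linarith
  rw [hmin, ENNReal.mul_rpow_of_nonneg _ _ hexp]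
  have hpow : ENNReal.ofReal (r ^ n) ^ (((n : ℝ) - 1) / n) = ENNReal.ofReal (r ^ (n - 1)) := by
    rw [ENNReal.ofReal_rpow_of_pos (pow_pos hr n), ← Real.rpow_natCast r n,
      ← Real.rpow_mul hr.le, mul_div_cancel₀ _ hn0.ne', ← Real.rpow_natCast r (n - 1)]
    congr 2
    rw [Nat.cast_sub (by omega), Nat.cast_one]
  rw [hpow, mul_left_comm]
  exact mul_le_mul_right (h A' hmA') _

end Pool.Agent.Lib.MP_c95dcf_gt
end
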