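import Pool.Agent.Lib.MP_c95dcf_gt.OStmts
import Pool.Agent.Lib.MP_c95dcf_gt.GStmts

section

/-!
# MP_c95dcf_gt, O1: unicoherence of convex open sets
-/

set_option autoImplicit false

open Set Filter Topology

namespace Pool.Agent.Lib.MP_c95dcf_gt

theorem unicoh_int_const {X : Type*} [TopologicalSpace X] {S : Set X} (hS : IsPreconnected S)
    {f : X → ℝ} (hf : ContinuousOn f S) (hi : ∀ x ∈ S, ∃ k : ℤ, f x = k) {x y : X} (hx : x ∈ S)
    (hy : y ∈ S) : f x = f y := by
  have key : ∀ a ∈ S, ∀ b ∈ S, ¬ f a < f b := by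
    intro a ha b hb hab
    obtain ⟨k, hk⟩ := hi a ha
    obtain ⟨l, hl⟩ := hi b hb
    have hkl : k < l := by
      rw [hk, hl] at hab
      exact_mod_cast hab
    have hsub := (hS.image f hf).Icc_subset (mem_image_of_mem f ha) (mem_image_of_mem f hb)
    have hmem : (k : ℝ) + 1 / 2 ∈ Icc (f a) (f b) := by
      have : (k : ℝ) + 1 ≤ l := by exact_mod_cast hkl
      rw [hk, hl]
      constructor <;> linarith
    obtain ⟨z, hz, hfz⟩ := hsub hmem
    obtain ⟨m, hm⟩ := hi z hz
    rw [hm] at hfz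
    have h1 : ((2 * m : ℤ) : ℝ) = ((2 * k + 1 : ℤ) : ℝ) := by
      push_cast
      linarith
    have h2 : (2 * m : ℤ) = 2 * k + 1 := by exact_mod_cast h1
    omega
  rcases lt_trichotomy (f x) (f y) with h | h | h
  · exact absurd h (key x hx y hy)
  · exact h
  · exact absurd h (key y hy x hx)

/-- The general statement, in a normed space. -/
theorem unicoh_aux {V : Type*} [NormedAddCommGroup V] [NormedSpace ℝ V] {U B₁ B₂ : Set V}
    (hUo : IsOpen U) (hUc : Convex ℝ U) (h1o : IsOpen B₁) (h2o : IsOpen B₂)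
    (h1 : IsPreconnected B₁) (h2 : IsPreconnected B₂) (hU : B₁ ∪ B₂ = U) :
    IsPreconnected (B₁ ∩ B₂) := by
  classical
  by_cases hZ1 : B₂ ⊆ B₁
  · rwa [inter_eq_right.mpr hZ1]
  by_cases hZ2 : B₁ ⊆ B₂
  · rwa [inter_eq_left.mpr hZ2]
  have hc1 : (B₁ᶜ).Nonempty := by
    obtain ⟨x, -, hx⟩ := not_subset.mp hZ1
    exact ⟨x, hx⟩
  have hc2 : (B₂ᶜ).Nonempty := by
    obtain ⟨x, -, hx⟩ := not_subset.mp hZ2
    exact ⟨x, hx⟩
  intro u v hu hv huv hsu hsv
  by_contra hne
  rw [not_nonempty_iff_eq_empty] at hne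
  -- the two pieces
  set W₂ : Set V := (B₁ ∩ B₂) ∩ v with hW2
  set W₁ : Set V := (B₁ ∩ B₂) ∩ u with hW1
  have hW1o : IsOpen W₁ := (h1o.inter h2o).inter hu
  have hW2o : IsOpen W₂ := (h1o.inter h2o).inter hv
  have hdisj : ∀ x ∈ W₁, x ∉ W₂ := by
    intro x hx hx2
    have : x ∈ B₁ ∩ B₂ ∩ (u ∩ v) := ⟨hx.1, hx.2, hx2.2⟩
    rw [hne] at this
    exact this
  have hcov : ∀ x ∈ B₁ ∩ B₂, x ∈ W₁ ∨ x ∈ W₂ := by
    intro x hx
    rcases huv hx with h | h
    · exact Or.inl ⟨hx, h⟩
    · exact Or.inr ⟨hx, h⟩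
  -- the Urysohn function
  set d₁ : V → ℝ := fun x => Metric.infDist x B₁ᶜ with hd1
  set d₂ : V → ℝ := fun x => Metric.infDist x B₂ᶜ with hd2
  have hd1c : Continuous d₁ := Metric.continuous_infDist_pt _
  have hd2c : Continuous d₂ := Metric.continuous_infDist_pt _
  have hd1n : ∀ x, 0 ≤ d₁ x := fun x => Metric.infDist_nonneg
  have hd2n : ∀ x, 0 ≤ d₂ x := fun x => Metric.infDist_nonneg
  have hd1z : ∀ x, x ∉ B₁ → d₁ x = 0 := fun x hx => Metric.infDist_zero_of_mem hx
  have hd2z : ∀ x, x ∉ B₂ → d₂ x = 0 := fun x hx => Metric.infDist_zero_of_mem hx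
  have hd1p : ∀ x ∈ B₁, 0 < d₁ x := by
    intro x hx
    refine lt_of_le_of_ne (hd1n x) fun h => ?_
    exact ((isClosed_compl_iff.mpr h1o).mem_iff_infDist_zero hc1).mpr h.symm hx
  have hd2p : ∀ x ∈ B₂, 0 < d₂ x := by
    intro x hx
    refine lt_of_le_of_ne (hd2n x) fun h => ?_
    exact ((isClosed_compl_iff.mpr h2o).mem_iff_infDist_zero hc2).mpr h.symm hx
  have hsum : ∀ x ∈ U, d₁ x + d₂ x ≠ 0 := by
    intro x hx
    rw [← hU] at hx
    rcases hx with h | h
    · have := hd1p x h
      have := hd2n x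
      positivity
    · have := hd2p x h
      have := hd1n x
      positivity
  set lam : V → ℝ := fun x => d₂ x / (d₁ x + d₂ x) with hlam
  have hlamc : ContinuousOn lam U :=
    hd2c.continuousOn.div (hd1c.add hd2c).continuousOn hsum
  have hlam0 : ∀ x ∈ U, x ∉ B₂ → lam x = 0 := by
    intro x _ hx2
    simp only [hlam, hd2z x hx2, zero_div]
  have hlam1 : ∀ x ∈ U, x ∉ B₁ → lam x = 1 := by
    intro x hx hx1
    have := hsum x hx
    rw [hd1z x hx1, zero_add] at this
    simp only [hlam, hd1z x hx1, zero_add]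
    exact div_self this
  -- general continuity of a function given by cases
  have hcase : ∀ {Y : Type} [TopologicalSpace Y] (p q : V → Y) (S : Set V), S ⊆ U →
      ContinuousOn p U → ContinuousOn q U → (∀ x ∈ S, x ∉ W₁ → x ∉ W₂ → p x = q x) →
      ContinuousOn (fun x => if x ∈ W₂ then q x else p x) S := by
    intro Y _ p q S hSU hp hq hpq x hx
    have hpx : ContinuousAt p x := hp.continuousAt (hUo.mem_nhds (hSU hx))
    have hqx : ContinuousAt q x := hq.continuousAt (hUo.mem_nhds (hSU hx))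
    apply ContinuousAt.continuousWithinAt
    by_cases hx1 : x ∈ W₁
    · refine hpx.congr ?_
      filter_upwards [hW1o.mem_nhds hx1] with y hy
      rw [if_neg (hdisj y hy)]
    by_cases hx2 : x ∈ W₂
    · refine hqx.congr ?_
      filter_upwards [hW2o.mem_nhds hx2] with y hy
      rw [if_pos hy]
    · have heq := hpq x hx hx1 hx2
      unfold ContinuousAt
      beta_reduce
      rw [if_neg hx2]
      refine Tendsto.if' ?_ hpx
      rw [heq]
      exact hqx
  -- the circle valued function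
  have hpic : ContinuousOn (fun x => Complex.exp ((Real.pi * lam x : ℝ) * Complex.I)) U := by
    fun_prop
  have hqic : ContinuousOn (fun x => Complex.exp ((-(Real.pi * lam x) : ℝ) * Complex.I)) U := by
    fun_prop
  have hgc := hcase _ _ U Subset.rfl hpic hqic (by
    intro x hx hx1 hx2
    have : x ∉ B₁ ∨ x ∉ B₂ := by
      by_contra hcon
      push Not at hcon
      rcases hcov x hcon with h | h
      · exact hx1 h
      · exact hx2 h
    rcases this with h | h
    · simp only [hlam1 x hx h, mul_one]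
      rw [Complex.exp_pi_mul_I, Complex.ofReal_neg, neg_mul, Complex.exp_neg,
        Complex.exp_pi_mul_I]
      norm_num
    · simp only [hlam0 x hx h, mul_zero, neg_zero])
  obtain ⟨x₀, hx₀⟩ := hsu
  have hUne : U.Nonempty := ⟨x₀, by rw [← hU]; exact Or.inl hx₀.1.1⟩
  have hsc : IsSimplyConnected U := by
    have : ContractibleSpace U := hUc.contractibleSpace hUne
    exact SimplyConnectedSpace.ofContractible U
  obtain ⟨f, hfc, hfe⟩ := Complex.exists_continuousOn_eqOn_exp_comp hsc hUo hgc (by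
    rintro ⟨x, -, hx⟩
    dsimp only at hx
    split_ifs at hx
    · exact Complex.exp_ne_zero _ hx
    · exact Complex.exp_ne_zero _ hx)
  set G : V → ℝ := fun x => (f x).im with hG
  have hGc : ContinuousOn G U := Complex.continuous_im.comp_continuousOn hfc
  -- the imaginary part of the lift
  have hlift : ∀ x ∈ U, ∀ t : ℝ,
      (if x ∈ W₂ then Complex.exp ((-(Real.pi * lam x) : ℝ) * Complex.I)
        else Complex.exp ((Real.pi * lam x : ℝ) * Complex.I)) =
          Complex.exp ((t : ℝ) * Complex.I) → ∃ k : ℤ, (G x - t) / (2 * Real.pi) = k := by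
    intro x hx t ht
    have h := hfe hx
    dsimp only [Function.comp] at h
    rw [ht] at h
    rw [Complex.exp_eq_exp_iff_exists_int] at h
    obtain ⟨k, hk⟩ := h
    refine ⟨k, ?_⟩
    have him := congrArg Complex.im hk
    simp only [Complex.add_im, Complex.mul_im, Complex.ofReal_re, Complex.ofReal_im,
      Complex.I_re, Complex.I_im, mul_one, mul_zero, Complex.intCast_re, Complex.intCast_im,
      Complex.mul_re, Complex.re_ofNat, Complex.im_ofNat] at him
    have hpi := Real.pi_pos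
    rw [div_eq_iff (by positivity)]
    simp only [hG]
    linarith
  have hB1U : B₁ ⊆ U := by rw [← hU]; exact subset_union_left
  have hB2U : B₂ ⊆ U := by rw [← hU]; exact subset_union_right
  have hplc : ContinuousOn (fun x => Real.pi * lam x) U := by fun_prop
  -- the explicit lift on B₁
  have hth1 : ContinuousOn (fun x => if x ∈ W₂ then -(Real.pi * lam x) else Real.pi * lam x)
      B₁ := by
    refine hcase (fun x => Real.pi * lam x) (fun x => -(Real.pi * lam x)) B₁ hB1U hplc hplc.neg ?_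
    intro x hx hx1 hx2
    have h2 : x ∉ B₂ := by
      intro h2
      rcases hcov x ⟨hx, h2⟩ with h | h
      · exact hx1 h
      · exact hx2 h
    simp only [hlam0 x (hB1U hx) h2, mul_zero, neg_zero]
  have hth2 : ContinuousOn (fun x => if x ∈ W₂ then 2 * Real.pi - Real.pi * lam x
      else Real.pi * lam x) B₂ := by
    refine hcase (fun x => Real.pi * lam x) (fun x => 2 * Real.pi - Real.pi * lam x) B₂ hB2U
      hplc (continuousOn_const.sub hplc) ?_
    intro x hx hx1 hx2
    have h1 : x ∉ B₁ := by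
      intro h1
      rcases hcov x ⟨h1, hx⟩ with h | h
      · exact hx1 h
      · exact hx2 h
    simp only [hlam1 x (hB2U hx) h1, mul_one]
    ring
  obtain ⟨y₀, hy₀⟩ := hsv
  have hx1 : x₀ ∈ W₁ := hx₀
  have hy2 : y₀ ∈ W₂ := hy₀
  have e1 := unicoh_int_const h1 (((hGc.mono hB1U).sub hth1).div_const (2 * Real.pi)) (by
    intro x hx
    refine hlift x (hB1U hx) _ ?_
    by_cases hx2 : x ∈ W₂
    · beta_reduce
      rw [if_pos hx2, if_pos hx2]
    · beta_reduce
      rw [if_neg hx2, if_neg hx2]) hx₀.1.1 hy₀.1.1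
  have e2 := unicoh_int_const h2 (((hGc.mono hB2U).sub hth2).div_const (2 * Real.pi)) (by
    intro x hx
    refine hlift x (hB2U hx) _ ?_
    by_cases hx2 : x ∈ W₂
    · beta_reduce
      rw [if_pos hx2, if_pos hx2, Complex.exp_eq_exp_iff_exists_int]
      refine ⟨-1, ?_⟩
      push_cast
      ring
    · beta_reduce
      rw [if_neg hx2, if_neg hx2]) hx₀.1.2 hy₀.1.2
  have hpi := Real.pi_pos
  rw [div_left_inj' (by positivity)] at e1 e2
  simp only [Pi.sub_apply, if_neg (hdisj x₀ hx1), if_pos hy2] at e1 e2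
  linarith

theorem unicoh : Stmt_Unicoh := by
  intro n U B₁ B₂ hUo hUc h1o h2o h1 h2 hU
  exact unicoh_aux hUo hUc h1o h2o h1 h2 hU

end Pool.Agent.Lib.MP_c95dcf_gt
end

section

/-!
# MP_c95dcf_gt, G14: the total variation measure of a linear functional on test fields
-/

set_option autoImplicit false

open MeasureTheory Set Filter Topology
open scoped ENNReal NNReal RealInnerProductSpace Manifold ContDiff

namespace Pool.Agent.Lib.MP_c95dcf_gt

variable {n : ℕ}

theorem varMeasure_TF_zero (U : Set (E n)) : TF U (0 : E n → E n) :=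
  ⟨contDiff_const, HasCompactSupport.zero, by simp [tsupport]⟩

theorem varMeasure_TF_mono {U V : Set (E n)} (h : U ⊆ V) {X : E n → E n} (hX : TF U X) : TF V X :=
  ⟨hX.diff, hX.comp, hX.supp.trans h⟩

theorem varMeasure_TF_add {U : Set (E n)} {X Y : E n → E n} (hX : TF U X) (hY : TF U Y) :
    TF U (X + Y) :=
  ⟨hX.diff.add hY.diff, hX.comp.add hY.comp,
    (tsupport_add X Y).trans (union_subset hX.supp hY.supp)⟩

theorem varMeasure_TF_sum {U : Set (E n)} {ι : Type*} (s : Finset ι) (Y : ι → E n → E n)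
    (hY : ∀ i ∈ s, TF U (Y i)) : TF U (∑ i ∈ s, Y i) := by
  classical
  induction s using Finset.induction_on with
  | empty => simpa using varMeasure_TF_zero U
  | insert a s ha ih =>
    rw [Finset.sum_insert ha]
    exact varMeasure_TF_add (hY a (Finset.mem_insert_self _ _))
      (ih fun i hi => hY i (Finset.mem_insert_of_mem hi))

theorem varMeasure_T_zero {U : Set (E n)} {T : (E n → E n) → ℝ} {M : ℝ} (h : IsFun U T M) :
    T 0 = 0 := by
  have := h.smul 0 0 (varMeasure_TF_zero U)
  simpa using this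

theorem varMeasure_T_sum {U : Set (E n)} {T : (E n → E n) → ℝ} {M : ℝ} (h : IsFun U T M)
    {ι : Type*} (s : Finset ι) (Y : ι → E n → E n) (hY : ∀ i ∈ s, TF U (Y i)) :
    T (∑ i ∈ s, Y i) = ∑ i ∈ s, T (Y i) := by
  classical
  induction s using Finset.induction_on with
  | empty => simpa using varMeasure_T_zero h
  | insert a s ha ih =>
    rw [Finset.sum_insert ha, Finset.sum_insert ha,
      h.add _ _ (hY a (Finset.mem_insert_self _ _))
        (varMeasure_TF_sum s Y fun i hi => hY i (Finset.mem_insert_of_mem hi)),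
      ih fun i hi => hY i (Finset.mem_insert_of_mem hi)]

/-- The variation of `T` on `W`. -/
noncomputable def varV (T : (E n → E n) → ℝ) (W : Set (E n)) : ℝ≥0∞ :=
  ⨆ (X : E n → E n) (_ : TF W X ∧ ∀ x, ‖X x‖ ≤ 1), ENNReal.ofReal (T X)

theorem varV_le {T : (E n → E n) → ℝ} {W : Set (E n)} {X : E n → E n} (hX : TF W X)
    (h1 : ∀ x, ‖X x‖ ≤ 1) : ENNReal.ofReal (T X) ≤ varV T W :=
  le_iSup₂_of_le X ⟨hX, h1⟩ le_rfl

theorem varV_mono {T : (E n → E n) → ℝ} {V W : Set (E n)} (h : V ⊆ W) : varV T V ≤ varV T W :=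
  iSup₂_le fun _ hX => varV_le (varMeasure_TF_mono h hX.1) hX.2

theorem varV_empty {U : Set (E n)} {T : (E n → E n) → ℝ} {M : ℝ} (h : IsFun U T M) :
    varV T ∅ = 0 := by
  refine le_antisymm (iSup₂_le fun X hX => ?_) bot_le
  have h0 : X = 0 := by
    have h1 : tsupport X = ∅ := subset_empty_iff.mp hX.1.supp
    exact tsupport_eq_empty_iff.mp h1
  rw [h0, varMeasure_T_zero h]
  simp

/-- Additivity for disjoint supports. -/
theorem varV_add_le {U : Set (E n)} {T : (E n → E n) → ℝ} {M : ℝ} (h : IsFun U T M)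
    {W G : Set (E n)} (hW : W ⊆ U) {X : E n → E n} (hX : TF (W ∩ G) X) (h1 : ∀ x, ‖X x‖ ≤ 1) :
    ENNReal.ofReal (T X) + varV T (W \ tsupport X) ≤ varV T W := by
  have hXW : TF W X := varMeasure_TF_mono inter_subset_left hX
  unfold varV
  rw [ENNReal.add_biSup' ⟨0, varMeasure_TF_zero _, fun x => by simp⟩]
  refine iSup₂_le fun Y hY => ?_
  have hYW : TF W Y := varMeasure_TF_mono sdiff_subset hY.1
  have hsum : ∀ x, ‖(X + Y) x‖ ≤ 1 := by
    intro x
    by_cases hx : X x = 0
    · simpa [hx] using hY.2 x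
    · have hx' : x ∈ tsupport X := subset_tsupport _ hx
      have hYx : Y x = 0 := by
        by_contra hne
        exact (hY.1.supp (subset_tsupport _ hne)).2 hx'
      simpa [hYx] using h1 x
  have hTadd : T (X + Y) = T X + T Y :=
    h.add X Y (varMeasure_TF_mono hW hXW) (varMeasure_TF_mono hW hYW)
  rcases le_total 0 (T X) with hx | hx
  · rcases le_total 0 (T Y) with hy | hy
    · rw [← ENNReal.ofReal_add hx hy, ← hTadd]
      exact varV_le (varMeasure_TF_add hXW hYW) hsum
    · rw [ENNReal.ofReal_of_nonpos hy, add_zero]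
      exact varV_le hXW h1
  · rw [ENNReal.ofReal_of_nonpos hx, zero_add]
    exact varV_le hYW hY.2

/-- Countable subadditivity on open sets. -/
theorem varV_iUnion_le {U : Set (E n)} {T : (E n → E n) → ℝ} {M : ℝ} (h : IsFun U T M)
    (W : ℕ → Set (E n)) (hW : ∀ i, IsOpen (W i)) (hWU : ∀ i, W i ⊆ U) :
    varV T (⋃ i, W i) ≤ ∑' i, varV T (W i) := by
  classical
  refine iSup₂_le fun X hX => ?_
  obtain ⟨hX, h1⟩ := hX
  obtain ⟨f, hf⟩ := SmoothPartitionOfUnity.exists_isSubordinate (I := 𝓘(ℝ, E n))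
    (s := tsupport X) (isClosed_tsupport X) W hW hX.supp
  have hfin : {i | ((Function.support (f i)) ∩ tsupport X).Nonempty}.Finite :=
    f.locallyFinite.finite_nonempty_inter_compact hX.comp.isCompact
  set s : Finset ℕ := hfin.toFinset with hs
  set Y : ℕ → E n → E n := fun i x => f i x • X x with hYdef
  have hYsupp : ∀ i, tsupport (Y i) ⊆ tsupport (f i) ∩ tsupport X := by
    intro i
    refine subset_inter ?_ ?_
    · exact tsupport_smul_subset_left (fun x => f i x) X
    · exact tsupport_smul_subset_right (fun x => f i x) X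
  have hYTF : ∀ i, TF (W i) (Y i) := by
    intro i
    refine ⟨?_, ?_, ?_⟩
    · have h2 : ContDiff ℝ ∞ (f i : E n → ℝ) := (f i).contMDiff.contDiff
      exact (h2.of_le (by exact_mod_cast le_top)).smul hX.diff
    · refine hX.comp.mono ?_
      intro x hx hx0
      exact hx (by simp [hYdef, hx0])
    · exact (hYsupp i).trans (inter_subset_left.trans (hf i))
  have hY1 : ∀ i x, ‖Y i x‖ ≤ 1 := by
    intro i x
    have h3 : ‖Y i x‖ = |f i x| * ‖X x‖ := by
      simp [hYdef, norm_smul]
    rw [h3, abs_of_nonneg (f.nonneg i x)]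
    calc f i x * ‖X x‖ ≤ 1 * 1 := by
          gcongr
          · exact f.le_one i x
          · exact h1 x
      _ = 1 := by norm_num
  have hsum : X = ∑ i ∈ s, Y i := by
    funext x
    rw [Finset.sum_apply]
    by_cases hx : x ∈ tsupport X
    · have h4 : ∑ᶠ i, f i x = 1 := f.sum_eq_one hx
      have h5 : ∑ᶠ i, f i x = ∑ i ∈ s, f i x := by
        refine finsum_eq_sum_of_support_subset _ ?_
        intro i hi
        have : i ∈ {i | ((Function.support (f i)) ∩ tsupport X).Nonempty} := ⟨x, hi, hx⟩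
        simpa [hs] using this
      have h6 : ∑ i ∈ s, Y i x = (∑ i ∈ s, f i x) • X x := by
        rw [Finset.sum_smul]
      rw [h6, ← h5, h4, one_smul]
    · have hx0 : X x = 0 := image_eq_zero_of_notMem_tsupport hx
      simp [hYdef, hx0]
  have hTsum : T X = ∑ i ∈ s, T (Y i) := by
    conv_lhs => rw [hsum]
    exact varMeasure_T_sum h s Y fun i _ => varMeasure_TF_mono (hWU i) (hYTF i)
  calc ENNReal.ofReal (T X) = ENNReal.ofReal (∑ i ∈ s, T (Y i)) := by rw [hTsum]
    _ ≤ ∑ i ∈ s, ENNReal.ofReal (T (Y i)) :=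
        Finset.le_sum_of_subadditive _ ENNReal.ofReal_zero.le (fun _ _ => ENNReal.ofReal_add_le) _ _
    _ ≤ ∑ i ∈ s, varV T (W i) := Finset.sum_le_sum fun i _ => varV_le (hYTF i) (hY1 i)
    _ ≤ ∑' i, varV T (W i) := ENNReal.sum_le_tsum s

theorem varMeasure : Stmt_VarMeasure := by
  intro n U T M hU h
  have m0 : (fun (W : Set (E n)) (_ : IsOpen W) => varV T (W ∩ U)) ∅ isOpen_empty = 0 := by
    simp only [empty_inter]
    exact varV_empty h
  have PU : ∀ ⦃f : ℕ → Set (E n)⦄, (∀ i, IsOpen (f i)) → IsOpen (⋃ i, f i) :=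
    fun f hf => isOpen_iUnion hf
  have msU : ∀ ⦃f : ℕ → Set (E n)⦄ (hm : ∀ i, IsOpen (f i)),
      (fun (W : Set (E n)) (_ : IsOpen W) => varV T (W ∩ U)) (⋃ i, f i) (PU hm) ≤
        ∑' i, (fun (W : Set (E n)) (_ : IsOpen W) => varV T (W ∩ U)) (f i) (hm i) := by
    intro f hm
    simp only
    rw [iUnion_inter]
    exact varV_iUnion_le h _ (fun i => (hm i).inter hU) fun i => inter_subset_right
  have m_mono : ∀ ⦃s₁ s₂ : Set (E n)⦄ (hs₁ : IsOpen s₁) (hs₂ : IsOpen s₂), s₁ ⊆ s₂ →
      (fun (W : Set (E n)) (_ : IsOpen W) => varV T (W ∩ U)) s₁ hs₁ ≤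
        (fun (W : Set (E n)) (_ : IsOpen W) => varV T (W ∩ U)) s₂ hs₂ := by
    intro s₁ s₂ _ _ hs
    exact varV_mono (inter_subset_inter_left _ hs)
  set μs : OuterMeasure (E n) :=
    inducedOuterMeasure (fun (W : Set (E n)) (_ : IsOpen W) => varV T (W ∩ U)) isOpen_empty m0
    with hμs
  have hopen : ∀ W, IsOpen W → μs W = varV T (W ∩ U) := by
    intro W hW
    exact inducedOuterMeasure_eq' PU msU m_mono hW
  have hcar : (inferInstance : MeasurableSpace (E n)) ≤ μs.caratheodory := by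
    rw [show (inferInstance : MeasurableSpace (E n)) = borel (E n) from BorelSpace.measurable_eq]
    refine MeasurableSpace.generateFrom_le ?_
    intro G hG
    rw [inducedOuterMeasure_caratheodory PU msU m_mono]
    intro t ht
    change μs (t ∩ G) + μs (t \ G) ≤ μs t
    have hG' : IsOpen G := hG
    rw [hopen _ (ht.inter hG'), hopen _ ht]
    unfold varV
    rw [ENNReal.biSup_add' ⟨0, varMeasure_TF_zero _, fun x => by simp⟩]
    refine iSup₂_le fun X hX => ?_
    obtain ⟨hX, h1⟩ := hX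
    have hX' : TF ((t ∩ U) ∩ G) X := by
      refine varMeasure_TF_mono ?_ hX
      intro x hx
      exact ⟨⟨hx.1.1, hx.2⟩, hx.1.2⟩
    have key := varV_add_le h (W := t ∩ U) inter_subset_right hX' h1
    refine le_trans (add_le_add_right ?_ _) key
    have hsub : t \ G ⊆ t \ tsupport X := by
      intro x hx
      exact ⟨hx.1, fun hx' => hx.2 (hX'.supp hx').2⟩
    calc μs (t \ G) ≤ μs (t \ tsupport X) := measure_mono hsub
      _ = varV T ((t \ tsupport X) ∩ U) := hopen _ (ht.sdiff (isClosed_tsupport X))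
      _ ≤ varV T ((t ∩ U) \ tsupport X) := by
          refine varV_mono ?_
          intro x hx
          exact ⟨⟨hx.1.1, hx.2⟩, hx.1.2⟩
  refine ⟨(μs.toMeasure hcar).restrict U, ?_, ?_, ?_⟩
  · constructor
    rw [Measure.restrict_apply MeasurableSet.univ, univ_inter, toMeasure_apply _ _ hU.measurableSet,
      hopen _ hU, inter_self]
    refine lt_of_le_of_lt (iSup₂_le fun X hX => ?_) (ENNReal.ofReal_lt_top (r := M))
    exact ENNReal.ofReal_le_ofReal (h.bdd X hX.1 hX.2)
  · rw [Measure.restrict_apply hU.measurableSet.compl]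
    simp
  · intro W hW hWU
    rw [Measure.restrict_apply hW.measurableSet, inter_eq_self_of_subset_left hWU,
      toMeasure_apply _ _ hW.measurableSet, hopen _ hW, inter_eq_self_of_subset_left hWU]
    rfl

end Pool.Agent.Lib.MP_c95dcf_gt
end
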