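import Pool.Agent.Lib.MP_c95dcf_gt.Mg.G022
import Pool.Agent.Lib.MP_c95dcf_gt.Mg.G021
import Pool.Agent.Lib.MP_c95dcf_gt.Mg.G003
import Pool.Agent.Lib.MP_c95dcf_gt.Mg.G011
import Pool.Agent.Lib.MP_c95dcf_gt.Mg.G006
import Pool.Agent.Lib.MP_c95dcf_gt.Conv
import Pool.Agent.Lib.MP_c95dcf_gt.Poincare
import Pool.Agent.Lib.MP_c95dcf_gt.RelIso
import Pool.Agent.Lib.MP_c95dcf_gt.Mg.G020
import Pool.Agent.Lib.MP_c95dcf_gt.Mg.G017
import Pool.Agent.Lib.MP_c95dcf_gt.Mg.G024
import Pool.Agent.Lib.MP_c95dcf_gt.VarBound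
import Pool.Agent.Lib.MP_c95dcf_gt.Riesz
import Pool.Agent.Lib.MP_c95dcf_gt.Mg.G009
import Pool.Agent.Lib.MP_c95dcf_gt.Mg.G019
import Pool.Agent.Lib.MP_c95dcf_gt.Mg.G012
import Pool.Agent.Lib.MP_c95dcf_gt.HalfPer
import Pool.Agent.Lib.MP_c95dcf_gt.Mg.G016
import Pool.Agent.Lib.MP_c95dcf_gt.BlowSeq
import Pool.Agent.Lib.MP_c95dcf_gt.PL1
import Pool.Agent.Lib.MP_c95dcf_gt.PL
import Pool.Agent.Lib.MP_c95dcf_gt.Mg.G015
import Pool.Agent.Lib.MP_c95dcf_gt.Mg.G010
import Pool.Agent.Lib.MP_c95dcf_gt.Diffeo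
import Pool.Agent.Lib.MP_c95dcf_gt.Mg.G018
import Pool.Agent.Lib.MP_c95dcf_gt.Mg.G001
import Pool.Agent.Lib.MP_c95dcf_gt.Mg.G014
import Pool.Agent.Lib.MP_c95dcf_gt.Sep
import Pool.Agent.Lib.MP_c95dcf_gt.Mg.G008
import Pool.Agent.Lib.MP_c95dcf_gt.Transport
import Pool.Agent.Lib.MP_c95dcf_gt.Core
import Pool.Agent.Lib.MP_c95dcf_gt.Mg.G013
import Pool.Agent.Lib.MP_c95dcf_gt.Main
import Pool.Agent.Lib.MP_c95dcf_gt.Crude
import Pool.Agent.Lib.MP_c95dcf_gt.BFinal

section

/-!
# MP_c95dcf_gt, part B: the slicing inequality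
-/

set_option autoImplicit false

open MeasureTheory Set Filter Topology
open scoped ENNReal NNReal

namespace Pool.Agent.Lib.MP_c95dcf_gt

theorem s3_wcontDiffAt {m : ℕ} {r : ℝ} (hr : r < m) : ContDiffAt ℝ 1 (Wp m) r := by
  have hm0 : (0 : ℝ) ≤ m := Nat.cast_nonneg m
  have h1 : Wp m =ᶠ[𝓝 r] fun s => (1 - s / m) ^ m := by
    filter_upwards [gt_mem_nhds hr] with s hs
    unfold Wp wp
    congr 1
    refine max_eq_right ?_
    rcases hm0.eq_or_lt with h | h
    · rw [← h]; simp
    · rw [sub_nonneg, div_le_one h]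
      exact hs.le
  have h2 : ContDiffAt ℝ 1 (fun s : ℝ => (1 - s / m) ^ m) r := by fun_prop
  exact h2.congr_of_eventuallyEq h1

theorem s3_radC {m : ℕ} {a : ℝ → ℝ} (ha : RadC m a) : RadC m (fun r => Wp m r * a r) where
  diff := by
    rw [contDiff_iff_contDiffAt]
    intro r
    by_cases hr : r < m
    · exact (s3_wcontDiffAt hr).mul ha.diff.contDiffAt
    · have h1 : r ∉ tsupport a := fun h => hr (ha.supp h).2
      have h2 : (fun r => Wp m r * a r) =ᶠ[𝓝 r] fun _ => 0 := by
        filter_upwards [(isClosed_tsupport a).isOpen_compl.mem_nhds h1] with s hs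
        rw [image_eq_zero_of_notMem_tsupport hs, mul_zero]
      exact contDiffAt_const.congr_of_eventuallyEq h2
  comp := ha.comp.mul_left
  supp := (tsupport_mul_subset_right).trans ha.supp

theorem s3_deriv {m : ℕ} {a : ℝ → ℝ} (ha : RadC m a) (r : ℝ) :
    deriv (fun s => a s * hp m s) r =
      Wp m r * a r + r * deriv (fun s => Wp m s * a s) r := by
  have h1 : (fun s => a s * hp m s) = fun s => s * (Wp m s * a s) := by
    ext s
    unfold hp
    ring
  have h2 := ((s3_radC ha).diff.differentiable one_ne_zero r).hasDerivAt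
  have h3 := (hasDerivAt_id r).mul h2
  simp only [id, one_mul] at h3
  rw [h1]
  exact h3.deriv

/-- The slice functional of a test function. -/
noncomputable def psi (m : ℕ) (A : Set ℂ) (a : ℝ → ℝ) (θ : ℝ) : ℝ :=
  ∫ r in Sl m A θ, - deriv (fun s => a s * hp m s) r

theorem s3_psi_eq {m : ℕ} {A : Set ℂ} {a : ℝ → ℝ} (ha : RadC m a) (θ : ℝ) :
    psi m A a θ = - ∫ r in Sl m A θ, ((fun s => Wp m s * a s) r +
      r * deriv (fun s => Wp m s * a s) r) := by
  unfold psi
  rw [← integral_neg]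
  congr 1
  ext r
  rw [s3_deriv ha]

theorem s3_dcont {m : ℕ} {a : ℝ → ℝ} (ha : RadC m a) :
    Continuous (fun r => - deriv (fun s => a s * hp m s) r) := by
  have h1 := (s3_radC ha).diff.continuous
  have h2 := (s3_radC ha).diff.continuous_deriv le_rfl
  have h3 : (fun r => - deriv (fun s => a s * hp m s) r) =
      fun r => -((fun s => Wp m s * a s) r + r * deriv (fun s => Wp m s * a s) r) := by
    ext r
    rw [s3_deriv ha]
  rw [h3]
  fun_prop

theorem s3_psi_meas {m : ℕ} {A : Set ℂ} (hA : MeasurableSet A) {a : ℝ → ℝ} (ha : RadC m a) :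
    Measurable (psi m A a) := slm_measurable_integral m hA (s3_dcont ha).measurable

theorem s3_int_bound {m : ℕ} {A : Set ℂ} (hA : MeasurableSet A) {f : ℝ → ℝ}
    {C : ℝ} (hC : ∀ r ∈ Ioo 0 (m : ℝ), |f r| ≤ C) (θ : ℝ) :
    |∫ r in Sl m A θ, f r| ≤ C * m := by
  have hS := slm_measurableSet m hA θ
  have hfin : volume (Sl m A θ) < ⊤ :=
    lt_of_le_of_lt (measure_mono (slm_Sl_subset m A θ)) measure_Ioo_lt_top
  have h1 := norm_setIntegral_le_of_norm_le_const (μ := volume) (s := Sl m A θ) (f := f)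
    (C := C) hfin (fun r hr => hC r hr.1)
  rw [Real.norm_eq_abs] at h1
  have h2 : volume.real (Sl m A θ) ≤ m := by
    have : volume.real (Sl m A θ) ≤ volume.real (Ioo 0 (m : ℝ)) :=
      measureReal_mono (slm_Sl_subset m A θ) measure_Ioo_lt_top.ne
    rwa [Real.volume_real_Ioo_of_le (Nat.cast_nonneg m), sub_zero] at this
  rcases (Nat.cast_nonneg m : (0 : ℝ) ≤ m).eq_or_lt with h0 | h0
  · have h3 : volume.real (Sl m A θ) = 0 := le_antisymm (h2.trans h0.ge) measureReal_nonneg
    rw [h3, mul_zero] at h1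
    rw [← h0, mul_zero]
    exact h1
  · have hC0 : 0 ≤ C := (abs_nonneg _).trans (hC (m / 2) ⟨by positivity, by linarith⟩)
    exact h1.trans (mul_le_mul_of_nonneg_left h2 hC0)

theorem s3_psi_bound {m : ℕ} {A : Set ℂ} (hA : MeasurableSet A) {a : ℝ → ℝ} (ha : RadC m a) :
    ∃ C : ℝ, ∀ θ, |psi m A a θ| ≤ C := by
  obtain ⟨C, hC⟩ := (isCompact_Icc (a := (0 : ℝ)) (b := (m : ℝ))).exists_bound_of_continuousOn
    (s3_dcont ha).continuousOn
  refine ⟨C * m, fun θ => s3_int_bound hA (fun r hr => ?_) θ⟩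
  exact hC r (Ioo_subset_Icc_self hr)

/-- The basic inequality, for smooth data. -/
theorem s3_base {m : ℕ} {A : Set ℂ} (hA : MeasurableSet A) (K : ℕ) {a η : ℕ → ℝ → ℝ}
    {σ B : ℝ → ℝ} (ha : ∀ k, RadC m (a k)) (ha1 : ∀ k r, |a k r| ≤ 1)
    (hη : ∀ k, ContDiff ℝ 1 (η k)) (hηc : ∀ k, ∃ δ > 0, ∀ θ : ℝ, Real.pi - δ < |θ| → η k θ = 0)
    (hη0 : ∀ k θ, 0 ≤ η k θ) (hη1 : ∀ θ, ∑ k ∈ Finset.range K, η k θ ≤ 1)
    (hσ : AngC σ) (hσ1 : ∀ θ, |σ θ| ≤ 1 / 2) (hB : RadC m B) (hB0 : ∀ r, |B r| ≤ 1) :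
    ENNReal.ofReal (∫ θ in Ioo (-Real.pi) Real.pi,
      (Real.sqrt (1 - σ θ ^ 2) * ∑ k ∈ Finset.range K, η k θ * psi m A (a k) θ -
        deriv σ θ * ∫ r in Sl m A θ, Wp m r * B r)) ≤ P0 m A := by
  have hpos : ∀ θ, 0 < 1 - σ θ ^ 2 := by
    intro θ
    have := hσ1 θ
    have h2 : σ θ ^ 2 ≤ (1 / 2) ^ 2 := sq_le_sq' (by linarith [(abs_le.1 this).1]) (abs_le.1 this).2
    norm_num at h2
    linarith
  have hE : ∀ k, AngC (fun θ => Real.sqrt (1 - σ θ ^ 2) * η k θ) := by
    intro k
    refine ⟨?_, ?_⟩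
    · refine ContDiff.mul ?_ (hη k)
      exact (contDiff_const.sub (hσ.diff.pow 2)).sqrt fun θ => (hpos θ).ne'
    · obtain ⟨δ, hδ, h⟩ := hηc k
      refine ⟨δ, hδ, fun θ hθ => ?_⟩
      rw [h θ hθ, h Real.pi (by rw [abs_of_pos Real.pi_pos]; linarith), mul_zero, mul_zero]
  have hα : ∀ k, RadC m (fun r => Wp m r * a k r) := fun k => s3_radC (ha k)
  have hβ : RadC m (fun r => Wp m r * B r) := s3_radC hB
  set X : ℕ → ℂ → ℂ := fun k =>
    pfld 1 (fun θ => Real.sqrt (1 - σ θ ^ 2) * η k θ) (fun r => Wp m r * a k r) with hX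
  set Z : ℂ → ℂ := pfld Complex.I σ (fun r => Wp m r * B r) with hZ
  have hXT : ∀ k ∈ Finset.range K, TFc (Dp m) (X k) := fun k _ => pfld_TFc 1 (hE k) (hα k)
  have hZT : TFc (Dp m) Z := pfld_TFc Complex.I hσ hβ
  have hST : TFc (Dp m) (fun c => ∑ k ∈ Finset.range K, X k c) := TFc.sum _ hXT
  have hYT : TFc (Dp m) (fun c => -(∑ k ∈ Finset.range K, X k c + Z c)) :=
    (hST.add hZT).neg
  have hbound : ∀ c, ‖-(∑ k ∈ Finset.range K, X k c + Z c)‖ ≤ Wp m ‖c‖ := by
    intro c
    have hW : 0 ≤ Wp m ‖c‖ := slm_Wp_nonneg m _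
    by_cases hc : c = 0
    · have e1 : -(∑ k ∈ Finset.range K, X k c + Z c) = 0 := by
        simp [hX, hZ, pfld, hc]
      rw [e1, norm_zero]
      exact hW
    · set S : ℝ := ∑ k ∈ Finset.range K, η k (Complex.arg c) * a k ‖c‖ with hS
      set θ := Complex.arg c with hθ
      have hcn : (‖c‖ : ℂ) ≠ 0 := by exact_mod_cast (norm_ne_zero_iff.2 hc)
      have e1 : -(∑ k ∈ Finset.range K, X k c + Z c) =
          -((((Real.sqrt (1 - σ θ ^ 2) * Wp m ‖c‖ * S : ℝ) : ℂ) +
            ((σ θ * Wp m ‖c‖ * B ‖c‖ : ℝ) : ℂ) * Complex.I) * (c / ‖c‖)) := by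
        congr 1
        have e2 : ∑ k ∈ Finset.range K, X k c =
            ((Real.sqrt (1 - σ θ ^ 2) * Wp m ‖c‖ * S : ℝ) : ℂ) * (c / ‖c‖) := by
          rw [hS, Finset.mul_sum]
          push_cast
          rw [Finset.sum_mul]
          refine Finset.sum_congr rfl fun k _ => ?_
          simp only [hX, pfld, ← hθ]
          push_cast
          field_simp
        rw [e2]
        simp only [hZ, pfld, ← hθ]
        push_cast
        field_simp
      rw [e1, norm_neg, norm_mul, norm_div, Complex.norm_real, norm_norm,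
        div_self (norm_ne_zero_iff.2 hc), mul_one]
      have hS1 : |S| ≤ 1 := by
        rw [hS]
        refine (Finset.abs_sum_le_sum_abs _ _).trans ?_
        refine le_trans (Finset.sum_le_sum fun k _ => ?_) (hη1 θ)
        rw [abs_mul, abs_of_nonneg (hη0 k θ)]
        exact mul_le_of_le_one_right (hη0 k θ) (ha1 k _)
      rw [Complex.norm_add_mul_I]
      rw [show Wp m ‖c‖ = Real.sqrt (Wp m ‖c‖ ^ 2) from (Real.sqrt_sq hW).symm]
      rw [Real.sqrt_sq hW]
      refine Real.sqrt_le_iff.2 ⟨hW, ?_⟩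
      have hsq : Real.sqrt (1 - σ θ ^ 2) ^ 2 = 1 - σ θ ^ 2 := Real.sq_sqrt (hpos θ).le
      have h1 : S ^ 2 ≤ 1 := by
        rw [← sq_abs]
        exact pow_le_one₀ (abs_nonneg _) hS1
      have h2 : B ‖c‖ ^ 2 ≤ 1 := by
        rw [← sq_abs]
        exact pow_le_one₀ (abs_nonneg _) (hB0 _)
      calc (Real.sqrt (1 - σ θ ^ 2) * Wp m ‖c‖ * S) ^ 2 + (σ θ * Wp m ‖c‖ * B ‖c‖) ^ 2
          = (1 - σ θ ^ 2) * Wp m ‖c‖ ^ 2 * S ^ 2 + σ θ ^ 2 * Wp m ‖c‖ ^ 2 * B ‖c‖ ^ 2 := by
            rw [mul_pow, mul_pow, hsq]; ring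
        _ ≤ (1 - σ θ ^ 2) * Wp m ‖c‖ ^ 2 * 1 + σ θ ^ 2 * Wp m ‖c‖ ^ 2 * 1 := by
            have := (hpos θ).le
            gcongr
        _ = Wp m ‖c‖ ^ 2 := by ring
  have hval : ∫ c in A, dvc (fun c => -(∑ k ∈ Finset.range K, X k c + Z c)) c =
      ∫ θ in Ioo (-Real.pi) Real.pi,
      (Real.sqrt (1 - σ θ ^ 2) * ∑ k ∈ Finset.range K, η k θ * psi m A (a k) θ -
        deriv σ θ * ∫ r in Sl m A θ, Wp m r * B r) := by
    have e1 : ∀ c, dvc (fun c => -(∑ k ∈ Finset.range K, X k c + Z c)) c =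
        -(∑ k ∈ Finset.range K, dvc (X k) c + dvc Z c) := by
      intro c
      rw [dvc_neg, dvc_add hST hZT, dvc_sum _ hXT]
    simp_rw [e1]
    have iX : ∀ k ∈ Finset.range K, IntegrableOn (fun c => dvc (X k) c) A :=
      fun k hk => (hXT k hk).dvc_integrable.integrableOn
    have iZ : IntegrableOn (fun c => dvc Z c) A := hZT.dvc_integrable.integrableOn
    rw [integral_neg, integral_add (integrable_finsetSum _ iX) iZ,
      integral_finsetSum _ iX]
    have vX : ∀ k ∈ Finset.range K, ∫ c in A, dvc (X k) c = ∫ θ in Ioo (-Real.pi) Real.pi,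
        -(Real.sqrt (1 - σ θ ^ 2) * (η k θ * psi m A (a k) θ)) := by
      intro k _
      rw [pfld_integral hA 1 (hE k) (hα k)]
      refine setIntegral_congr_fun measurableSet_Ioo fun θ _ => ?_
      simp only [Complex.one_re, Complex.one_im, one_mul, zero_mul, add_zero]
      rw [s3_psi_eq (ha k)]
      ring
    have vZ : ∫ c in A, dvc Z c = ∫ θ in Ioo (-Real.pi) Real.pi,
        deriv σ θ * ∫ r in Sl m A θ, Wp m r * B r := by
      rw [pfld_integral hA Complex.I hσ hβ]
      refine setIntegral_congr_fun measurableSet_Ioo fun θ _ => ?_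
      simp only [Complex.I_re, Complex.I_im, one_mul, zero_mul, zero_add]
    rw [Finset.sum_congr rfl vX, vZ]
    have hfin : volume (Ioo (-Real.pi) Real.pi) ≠ ⊤ := measure_Ioo_lt_top.ne
    have jX : ∀ k ∈ Finset.range K, IntegrableOn (fun θ =>
        -(Real.sqrt (1 - σ θ ^ 2) * (η k θ * psi m A (a k) θ))) (Ioo (-Real.pi) Real.pi) := by
      intro k _
      obtain ⟨C, hC⟩ := s3_psi_bound hA (ha k)
      have hC0 : 0 ≤ C := (abs_nonneg _).trans (hC 0)
      obtain ⟨C', hC'⟩ := (isCompact_Icc (a := -Real.pi) (b := Real.pi)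
        ).exists_bound_of_continuousOn (hη k).continuous.continuousOn
      have mη : Measurable (η k) := (hη k).continuous.measurable
      have mσ : Measurable σ := hσ.diff.continuous.measurable
      have mp := s3_psi_meas hA (ha k)
      refine Measure.integrableOn_of_bounded hfin (M := 1 * (C' * C))
        (by fun_prop : Measurable _).aestronglyMeasurable ?_
      refine (ae_restrict_mem measurableSet_Ioo).mono fun θ hθ => ?_
      rw [norm_neg, norm_mul, norm_mul]
      have s1 : ‖Real.sqrt (1 - σ θ ^ 2)‖ ≤ 1 := by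
        rw [Real.norm_of_nonneg (Real.sqrt_nonneg _)]
        exact Real.sqrt_le_one.2 (by nlinarith [sq_nonneg (σ θ)])
      have s2 := hC' θ (Ioo_subset_Icc_self hθ)
      have s3 : ‖psi m A (a k) θ‖ ≤ C := hC θ
      have s4 : 0 ≤ C' := (norm_nonneg _).trans s2
      gcongr
    have jZ : IntegrableOn (fun θ => deriv σ θ * ∫ r in Sl m A θ, Wp m r * B r)
        (Ioo (-Real.pi) Real.pi) := by
      have md : Continuous (deriv σ) := hσ.diff.continuous_deriv le_rfl
      obtain ⟨C', hC'⟩ := (isCompact_Icc (a := -Real.pi) (b := Real.pi)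
        ).exists_bound_of_continuousOn md.continuousOn
      have mb : Measurable (fun θ => ∫ r in Sl m A θ, Wp m r * B r) :=
        slm_measurable_integral m hA
          ((slm_Wp_continuous m).mul hB.diff.continuous).measurable
      refine Measure.integrableOn_of_bounded hfin (M := C' * (1 * m))
        (md.measurable.mul mb).aestronglyMeasurable ?_
      refine (ae_restrict_mem measurableSet_Ioo).mono fun θ hθ => ?_
      have s2 := hC' θ (Ioo_subset_Icc_self hθ)
      have s4 : 0 ≤ C' := (norm_nonneg _).trans s2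
      have s3 : ‖∫ r in Sl m A θ, Wp m r * B r‖ ≤ 1 * m := by
        rw [Real.norm_eq_abs]
        refine s3_int_bound hA (fun r hr => ?_) θ
        rw [abs_mul, abs_of_nonneg (slm_Wp_nonneg m r)]
        exact mul_le_one₀ (slm_Wp_le_one m hr.1.le) (abs_nonneg _) (hB0 r)
      rw [norm_mul]
      gcongr
    rw [← integral_finsetSum _ jX, ← integral_add (integrable_finsetSum _ jX) jZ,
      ← integral_neg]
    refine setIntegral_congr_fun measurableSet_Ioo fun θ _ => ?_
    simp only [Finset.sum_neg_distrib, Finset.mul_sum]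
    ring
  rw [← hval]
  exact le_iSup₂ (f := fun (Y : ℂ → ℂ) (_ : TFc (Dp m) Y ∧ ∀ c, ‖Y c‖ ≤ Wp m ‖c‖) =>
    ENNReal.ofReal (∫ c in A, dvc Y c)) _ ⟨hYT, hbound⟩

/-- Approximation of a bounded function `g` with mean zero by continuous functions with mean zero
and compact support. -/
theorem s3_approx {g : ℝ → ℝ} {G σ₀ : ℝ} (hgm : Measurable g) (hg : ∀ θ, |g θ| ≤ G)
    (hg0 : ∫ θ in Ioo (-Real.pi) Real.pi, g θ = 0)
    (hσ : ∀ θ ∈ Icc (-Real.pi) Real.pi, |σ₀ + ∫ τ in Ioc (-Real.pi) θ, g τ| ≤ 1 / 2) :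
    ∃ (s : ℕ → ℝ → ℝ) (M : ℝ), (∀ n, AngC (s n)) ∧ (∀ n θ, |s n θ| ≤ 1 / 2) ∧
      (∀ n θ, |deriv (s n) θ| ≤ M) ∧
      (∀ θ ∈ Ioo (-Real.pi) Real.pi, Tendsto (fun n => s n θ) atTop
        (𝓝 (σ₀ + ∫ τ in Ioc (-Real.pi) θ, g τ))) ∧
      ∀ᵐ θ : ℝ, θ ∈ Ioo (-Real.pi) Real.pi →
        Tendsto (fun n => deriv (s n) θ) atTop (𝓝 (g θ)) := by
  set I := Ioo (-Real.pi) Real.pi with hI
  have hpi := Real.pi_pos
  have hpi3 := Real.pi_gt_three
  have hG : 0 ≤ G := (abs_nonneg _).trans (hg 0)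
  have hIfin : volume I ≠ ⊤ := measure_Ioo_lt_top.ne
  -- the first approximation
  set u : ℕ → ℝ → ℝ := fun n => molF (-Real.pi) Real.pi n g with hu
  have huc : ∀ n, Continuous (u n) := fun n => (molF_contDiff hgm hg).continuous
  have hub : ∀ n θ, |u n θ| ≤ G := fun n θ => molF_bound hg θ
  have hut : ∀ᵐ θ : ℝ, θ ∈ I → Tendsto (fun n => u n θ) atTop (𝓝 (g θ)) :=
    molF_tendsto hgm hg
  -- the correction
  set ψ : ℝ → ℝ := (molB 0).normed volume with hψ
  have hψc : Continuous ψ := (molB 0).continuous_normed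
  have hψsupp : ∀ θ, 1 < |θ| → ψ θ = 0 := by
    intro θ hθ
    have : θ ∉ Function.support ψ := by
      rw [hψ, (molB 0).support_normed_eq, mem_ball_zero_iff, Real.norm_eq_abs]
      have : (molB 0).rOut = 1 := by
        show (1 : ℝ) / (((0 : ℕ) : ℝ) + 1) = 1
        norm_num
      rw [this]
      exact not_lt.2 hθ.le
    exact Function.notMem_support.1 this
  obtain ⟨Cψ, hCψ⟩ : ∃ C, ∀ θ, |ψ θ| ≤ C := by
    obtain ⟨C, hC⟩ := (isCompact_Icc (a := (-1 : ℝ)) (b := 1)).exists_bound_of_continuousOn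
      hψc.continuousOn
    refine ⟨C, fun θ => ?_⟩
    by_cases h : |θ| ≤ 1
    · exact hC θ (abs_le.1 h)
    · rw [hψsupp θ (not_le.1 h), abs_zero]
      exact (norm_nonneg _).trans (hC 0 (by constructor <;> norm_num))
  have hCψ0 : 0 ≤ Cψ := (abs_nonneg _).trans (hCψ 0)
  have hψI : ∫ θ in I, ψ θ = 1 := by
    rw [← (molB 0).integral_normed (μ := volume)]
    refine setIntegral_eq_integral_of_forall_compl_eq_zero fun θ hθ => hψsupp θ ?_
    by_contra h
    push Not at h
    rw [abs_le] at h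
    exact hθ ⟨by linarith [h.1], by linarith [h.2]⟩
  set μ : ℕ → ℝ := fun n => ∫ θ in I, u n θ with hμ
  have huI : ∀ n, IntegrableOn (u n) I := fun n =>
    Measure.integrableOn_of_bounded hIfin (huc n).measurable.aestronglyMeasurable (M := G)
      (Eventually.of_forall fun θ => hub n θ)
  have hgI : IntegrableOn g I :=
    Measure.integrableOn_of_bounded hIfin hgm.aestronglyMeasurable (M := G)
      (Eventually.of_forall fun θ => hg θ)
  have hψint : IntegrableOn ψ I :=
    Measure.integrableOn_of_bounded hIfin hψc.measurable.aestronglyMeasurable (M := Cψ)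
      (Eventually.of_forall fun θ => hCψ θ)
  have hμlim : Tendsto μ atTop (𝓝 0) := by
    rw [← hg0]
    refine tendsto_integral_of_dominated_convergence (fun _ => G)
      (fun n => (huc n).measurable.aestronglyMeasurable) (integrableOn_const hIfin)
      (fun n => Eventually.of_forall fun θ => hub n θ) ?_
    rw [ae_restrict_iff' measurableSet_Ioo]
    exact hut
  have hμb : ∀ n, |μ n| ≤ G * (2 * Real.pi) := by
    intro n
    have h1 := norm_setIntegral_le_of_norm_le_const (μ := volume) (s := I) (f := u n)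
      (C := G) measure_Ioo_lt_top (fun θ _ => hub n θ)
    rw [Real.volume_real_Ioo_of_le (by linarith)] at h1
    calc |μ n| ≤ G * (Real.pi - -Real.pi) := h1
      _ = G * (2 * Real.pi) := by ring
  set w : ℕ → ℝ → ℝ := fun n θ => u n θ - μ n * ψ θ with hw
  have hwc : ∀ n, Continuous (w n) := fun n => (huc n).sub (continuous_const.mul hψc)
  have hwb : ∀ n θ, |w n θ| ≤ G + G * (2 * Real.pi) * Cψ := by
    intro n θ
    calc |w n θ| ≤ |u n θ| + |μ n * ψ θ| := abs_sub _ _
      _ ≤ G + G * (2 * Real.pi) * Cψ := by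
        rw [abs_mul]
        have := hub n θ
        have := hμb n
        have := hCψ θ
        gcongr
  have hwI : ∀ n, ∫ θ in I, w n θ = 0 := by
    intro n
    have : ∫ θ in I, w n θ = (∫ θ in I, u n θ) - ∫ θ in I, μ n * ψ θ :=
      integral_sub (huI n) (hψint.const_mul _)
    rw [this, integral_const_mul, hψI, mul_one, sub_self]
  have hwz : ∀ (n : ℕ) (θ : ℝ), θ ∉ Icc (-Real.pi + 1 / (n + 1)) (Real.pi - 1 / (n + 1)) → w n θ = 0 := by
    intro n θ hθ
    have h1 : u n θ = 0 := molF_zero hθ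
    have h2 : ψ θ = 0 := by
      refine hψsupp θ ?_
      by_contra h
      push Not at h
      rw [abs_le] at h
      have h3 : (1 : ℝ) / (n + 1) ≤ 1 := by
        rw [div_le_one (by positivity)]
        linarith [(Nat.cast_nonneg n : (0 : ℝ) ≤ n)]
      exact hθ ⟨by linarith [h.1], by linarith [h.2]⟩
    simp only [hw, h1, h2, mul_zero, sub_zero]
  have hwt : ∀ᵐ θ : ℝ, θ ∈ I → Tendsto (fun n => w n θ) atTop (𝓝 (g θ)) := by
    filter_upwards [hut] with θ h1 hθ
    have h2 := (h1 hθ).sub (hμlim.mul_const (ψ θ))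
    rw [zero_mul, sub_zero] at h2
    exact h2
  set e : ℕ → ℝ := fun n => ∫ θ in I, |w n θ - g θ| with he
  have he0 : ∀ n, 0 ≤ e n := fun n => integral_nonneg fun θ => abs_nonneg _
  have helim : Tendsto e atTop (𝓝 0) := by
    have h0 : (0 : ℝ) = ∫ θ in I, (0 : ℝ) := by simp
    rw [h0]
    refine tendsto_integral_of_dominated_convergence
      (fun _ => G + G * (2 * Real.pi) * Cψ + G)
      (fun n => ((hwc n).measurable.sub hgm).norm.aestronglyMeasurable)
      (integrableOn_const hIfin) ?_ ?_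
    · intro n
      refine Eventually.of_forall fun θ => ?_
      rw [Real.norm_eq_abs, abs_abs]
      calc |w n θ - g θ| ≤ |w n θ| + |g θ| := abs_sub _ _
        _ ≤ _ := add_le_add (hwb n θ) (hg θ)
    · rw [ae_restrict_iff' measurableSet_Ioo]
      filter_upwards [hwt] with θ h1 hθ
      have h2 := ((h1 hθ).sub_const (g θ)).abs
      rw [sub_self, abs_zero] at h2
      exact h2
  have hwint : ∀ n (S : Set ℝ), S ⊆ I → IntegrableOn (w n) S := fun n S hS =>
    ((huI n).sub (hψint.const_mul (μ n))).mono_set hS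
  -- primitives
  set T : ℕ → ℝ → ℝ := fun n θ => ∫ τ in (-Real.pi)..θ, w n τ with hTdef
  have hTd : ∀ n θ, HasDerivAt (T n) (w n θ) θ := fun n θ =>
    intervalIntegral.integral_hasDerivAt_right ((hwc n).intervalIntegrable _ _)
      ((hwc n).stronglyMeasurableAtFilter _ _) (hwc n).continuousAt
  have hTclose : ∀ n, ∀ θ ∈ I, |T n θ - ∫ τ in Ioc (-Real.pi) θ, g τ| ≤ e n := by
    intro n θ hθ
    have hsub : Ioc (-Real.pi) θ ⊆ I := fun x hx => ⟨hx.1, lt_of_le_of_lt hx.2 hθ.2⟩
    have h1 : T n θ = ∫ τ in Ioc (-Real.pi) θ, w n τ :=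
      intervalIntegral.integral_of_le hθ.1.le
    rw [h1, ← integral_sub (hwint n _ hsub) (hgI.mono_set hsub)]
    refine (abs_integral_le_integral_abs).trans ?_
    refine setIntegral_mono_set ?_ (Eventually.of_forall fun θ => abs_nonneg _)
      hsub.eventuallyLE
    exact ((hwint n I Subset.rfl).sub hgI).abs
  have hTend : ∀ (n : ℕ) (θ : ℝ), Real.pi - 1 / (n + 1) < |θ| → T n θ = 0 := by
    intro n θ hθ
    have hn0 : (0 : ℝ) < 1 / (n + 1) := by positivity
    rcases lt_or_ge θ 0 with h0 | h0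
    · rw [abs_of_neg h0] at hθ
      have h1 : ∀ τ ∈ uIcc (-Real.pi) θ, w n τ = 0 := by
        intro τ hτ
        refine hwz n τ fun h => ?_
        rw [mem_uIcc] at hτ
        rcases hτ with h2 | h2 <;> linarith [h.1, h2.1, h2.2]
      simp only [hTdef]
      rw [intervalIntegral.integral_congr (g := fun _ => 0) h1]
      simp
    · rw [abs_of_nonneg h0] at hθ
      have h1 : ∀ τ ∈ uIcc Real.pi θ, w n τ = 0 := by
        intro τ hτ
        refine hwz n τ fun h => ?_
        rw [mem_uIcc] at hτ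
        rcases hτ with h2 | h2 <;> linarith [h.2, h2.1, h2.2]
      simp only [hTdef]
      rw [← intervalIntegral.integral_add_adjacent_intervals
        ((hwc n).intervalIntegrable (-Real.pi) Real.pi) ((hwc n).intervalIntegrable _ _),
        intervalIntegral.integral_congr (a := Real.pi) (g := fun _ => 0) h1,
        intervalIntegral.integral_of_le (by linarith), integral_Ioc_eq_integral_Ioo, hwI n]
      simp
  set lam : ℕ → ℝ := fun n => 1 / (1 + 2 * e n) with hlam
  have hlam0 : ∀ n, 0 < lam n := fun n => by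
    have := he0 n
    positivity
  have hlam1 : ∀ n, lam n ≤ 1 := fun n => by
    have := he0 n
    rw [hlam]
    simp only
    rw [div_le_one (by positivity)]
    linarith
  have hlamlim : Tendsto lam atTop (𝓝 1) := by
    have h1 : Tendsto (fun n => 1 / (1 + 2 * e n)) atTop (𝓝 (1 / (1 + 2 * 0))) :=
      tendsto_const_nhds.div (tendsto_const_nhds.add (helim.const_mul 2)) (by norm_num)
    rw [mul_zero, add_zero, div_one] at h1
    exact h1
  have hσ₀ : |σ₀| ≤ 1 / 2 := by
    have := hσ (-Real.pi) ⟨le_rfl, by linarith⟩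
    simpa using this
  refine ⟨fun n θ => lam n * (σ₀ + T n θ), G + G * (2 * Real.pi) * Cψ, ?_, ?_, ?_, ?_, ?_⟩
  · intro n
    refine ⟨?_, 1 / (n + 1), by positivity, fun θ hθ => ?_⟩
    · have hT1 : ContDiff ℝ 1 (T n) := by
        rw [contDiff_one_iff_deriv]
        refine ⟨fun θ => (hTd n θ).differentiableAt, ?_⟩
        have : deriv (T n) = w n := by
          ext θ
          exact (hTd n θ).deriv
        rw [this]
        exact hwc n
      exact contDiff_const.mul (contDiff_const.add hT1)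
    · have h1 := hTend n θ hθ
      have h2 := hTend n Real.pi (by
        have : (0 : ℝ) < 1 / (n + 1) := by positivity
        rw [abs_of_pos hpi]
        linarith)
      simp only [h1, h2]
  · intro n θ
    have h1 : |σ₀ + T n θ| ≤ 1 / 2 + e n := by
      by_cases h : Real.pi - 1 / (n + 1) < |θ|
      · rw [hTend n θ h, add_zero]
        linarith [he0 n]
      · have hn0 : (0 : ℝ) < 1 / (n + 1) := by positivity
        push Not at h
        have h2 := abs_le.1 h
        have hθI : θ ∈ I := ⟨by linarith [h2.1], by linarith [h2.2]⟩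
        have h3 := hTclose n θ hθI
        have h4 := hσ θ (Ioo_subset_Icc_self hθI)
        have h5 : σ₀ + T n θ = (σ₀ + ∫ τ in Ioc (-Real.pi) θ, g τ) +
          (T n θ - ∫ τ in Ioc (-Real.pi) θ, g τ) := by ring
        rw [h5]
        exact (abs_add_le _ _).trans (add_le_add h4 h3)
    rw [abs_mul, abs_of_pos (hlam0 n)]
    have := he0 n
    calc lam n * |σ₀ + T n θ| ≤ lam n * (1 / 2 + e n) :=
          mul_le_mul_of_nonneg_left h1 (hlam0 n).le
      _ = 1 / 2 := by
        simp only [hlam]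
        field_simp
        try ring
  · intro n θ
    have h1 : HasDerivAt (fun θ => lam n * (σ₀ + T n θ)) (lam n * w n θ) θ :=
      ((hTd n θ).const_add σ₀).const_mul _
    rw [h1.deriv, abs_mul, abs_of_pos (hlam0 n)]
    calc lam n * |w n θ| ≤ 1 * |w n θ| := mul_le_mul_of_nonneg_right (hlam1 n) (abs_nonneg _)
      _ ≤ _ := by rw [one_mul]; exact hwb n θ
  · intro θ hθ
    have h1 : Tendsto (fun n => T n θ) atTop (𝓝 (∫ τ in Ioc (-Real.pi) θ, g τ)) := by
      rw [tendsto_iff_dist_tendsto_zero]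
      refine squeeze_zero (fun n => dist_nonneg) (fun n => ?_) helim
      rw [Real.dist_eq]
      exact hTclose n θ hθ
    have h2 := hlamlim.mul (h1.const_add σ₀)
    rw [one_mul] at h2
    exact h2
  · filter_upwards [hwt] with θ h1 hθ
    have h2 : ∀ n, deriv (fun θ => lam n * (σ₀ + T n θ)) θ = lam n * w n θ := fun n =>
      (((hTd n θ).const_add σ₀).const_mul _).deriv
    simp_rw [h2]
    have h3 := hlamlim.mul (h1 hθ)
    rw [one_mul] at h3
    exact h3

theorem s3_iob {I : Set ℝ} (hI : volume I ≠ ⊤) {f : ℝ → ℝ} {M : ℝ}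
    (hf : AEStronglyMeasurable f (volume.restrict I)) (hM : ∀ θ, ‖f θ‖ ≤ M) :
    IntegrableOn f I :=
  (integrableOn_const (C := M) hI).integrable.mono' hf (Eventually.of_forall hM)

theorem s3_sum_ind (K : ℕ) {E : ℕ → Set ℝ} (hE : Pairwise (Function.onFun Disjoint E)) (θ : ℝ) :
    ∑ k ∈ Finset.range K, (E k).indicator (fun _ => (1 : ℝ)) θ ≤ 1 := by
  by_cases h : ∃ k ∈ Finset.range K, θ ∈ E k
  · obtain ⟨k, hk, hθ⟩ := h
    rw [Finset.sum_eq_single_of_mem k hk, indicator_of_mem hθ]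
    intro j _ hjk
    exact indicator_of_notMem (fun h => disjoint_left.1 (hE hjk) h hθ) _
  · push Not at h
    rw [Finset.sum_eq_zero fun k hk => indicator_of_notMem (h k hk) _]
    exact zero_le_one

theorem s3_sets {m : ℕ} {R' G σ₀ : ℝ} {A : Set ℂ} {g σ : ℝ → ℝ} (hR : 0 < R')
    (hA : MeasurableSet A) (K : ℕ) {a : ℕ → ℝ → ℝ} {E : ℕ → Set ℝ} (ha : ∀ k, RadC m (a k))
    (ha1 : ∀ k r, |a k r| ≤ 1) (hEm : ∀ k, MeasurableSet (E k))
    (hE : Pairwise (Function.onFun Disjoint E)) (hgm : Measurable g) (hg : ∀ θ, |g θ| ≤ G)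
    (hg0 : ∫ θ in Ioo (-Real.pi) Real.pi, g θ = 0)
    (hσd : ∀ θ, σ θ = σ₀ + ∫ τ in Ioc (-Real.pi) θ, g τ)
    (hσ : ∀ θ ∈ Icc (-Real.pi) Real.pi, |σ θ| ≤ 1 / 2) :
    ENNReal.ofReal (∫ θ in Ioo (-Real.pi) Real.pi,
      (Real.sqrt (1 - σ θ ^ 2) * ∑ k ∈ Finset.range K,
        (E k).indicator (fun _ => (1 : ℝ)) θ * psi m A (a k) θ -
          1 / R' * g θ * vt m R' A θ)) ≤ P0 m A := by
  classical
  set I := Ioo (-Real.pi) Real.pi with hI
  have hIfin : volume I ≠ ⊤ := measure_Ioo_lt_top.ne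
  obtain ⟨s, M, hs1, hs2, hs3, hs4, hs5⟩ := s3_approx hgm hg hg0
    (fun θ hθ => by rw [← hσd]; exact hσ θ hθ)
  set η : ℕ → ℕ → ℝ → ℝ := fun n k =>
    molF (-Real.pi) Real.pi n ((E k).indicator (fun _ => (1 : ℝ))) with hη
  set fB : ℝ → ℝ := fun r => max 0 (min 1 (r / R')) with hfB
  set B : ℕ → ℝ → ℝ := fun n => molF 0 (m : ℝ) n fB with hB
  have hfBm : Measurable fB := by
    simp only [hfB]
    fun_prop
  have hfB1 : ∀ r, |fB r| ≤ 1 := by
    intro r
    rw [abs_of_nonneg (le_max_left _ _)]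
    exact max_le zero_le_one (min_le_left _ _)
  have hIm : ∀ k, Measurable ((E k).indicator (fun _ => (1 : ℝ))) := fun k =>
    measurable_const.indicator (hEm k)
  have hI1 : ∀ k θ, |(E k).indicator (fun _ => (1 : ℝ)) θ| ≤ 1 := by
    intro k θ
    rw [indicator_apply]
    split_ifs <;> simp
  have hBR : ∀ n, RadC m (B n) := by
    intro n
    have hn : (0 : ℝ) < 1 / (n + 1) := by positivity
    have hts : tsupport (B n) ⊆ Icc (0 + 1 / ((n : ℝ) + 1)) (m - 1 / ((n : ℝ) + 1)) :=
      molF_tsupport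
    refine ⟨molF_contDiff hfBm hfB1, ?_, hts.trans ?_⟩
    · exact isCompact_Icc.of_isClosed_subset (isClosed_tsupport _) hts
    · intro r hr
      exact ⟨by linarith [hr.1], by linarith [hr.2]⟩
  have hB1 : ∀ n r, |B n r| ≤ 1 := fun n r => molF_bound hfB1 r
  have hηc : ∀ n k, Continuous (η n k) := fun n k => (molF_contDiff (hIm k) (hI1 k)).continuous
  have hη1 : ∀ n k θ, |η n k θ| ≤ 1 := fun n k θ => molF_bound (hI1 k) θ
  set J : ℕ → ℝ → ℝ := fun n θ => Real.sqrt (1 - s n θ ^ 2) *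
      ∑ k ∈ Finset.range K, η n k θ * psi m A (a k) θ -
        deriv (s n) θ * ∫ r in Sl m A θ, Wp m r * B n r with hJ
  have hbase : ∀ n, ENNReal.ofReal (∫ θ in I, J n θ) ≤ P0 m A := by
    intro n
    refine s3_base hA K ha ha1 (fun k => molF_contDiff (hIm k) (hI1 k)) (fun k => ?_)
      (fun k θ => molF_nonneg (fun x => indicator_nonneg (fun _ _ => zero_le_one) x) θ)
      (fun θ => ?_) (hs1 n) (hs2 n) (hBR n) (hB1 n)
    · refine ⟨1 / (n + 1), by positivity, fun θ hθ => molF_zero fun h => ?_⟩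
      have : |θ| ≤ Real.pi - 1 / (n + 1) := abs_le.2 ⟨by linarith [h.1], h.2⟩
      linarith
    · rw [molF_sum (C := 1) _ (fun k _ => hIm k) (fun k _ => hI1 k)]
      refine (le_abs_self _).trans (molF_bound (C := 1) (fun x => ?_) θ)
      rw [abs_of_nonneg (Finset.sum_nonneg fun k _ =>
        indicator_nonneg (fun _ _ => zero_le_one) x)]
      exact s3_sum_ind K hE x
  -- bounds for `psi`
  have hpb : ∃ C : ℝ, 0 ≤ C ∧ ∀ k ∈ Finset.range K, ∀ θ, |psi m A (a k) θ| ≤ C := by
    choose C hC using fun k => s3_psi_bound hA (ha k)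
    have hC0 : ∀ k, 0 ≤ C k := fun k => (abs_nonneg _).trans (hC k 0)
    refine ⟨∑ k ∈ Finset.range K, C k, Finset.sum_nonneg fun k _ => hC0 k, fun k hk θ => ?_⟩
    exact (hC k θ).trans (Finset.single_le_sum (f := C) (fun k _ => hC0 k) hk)
  obtain ⟨C, hC0, hC⟩ := hpb
  have hM0 : 0 ≤ M := (abs_nonneg _).trans (hs3 0 0)
  have hmeasJ : ∀ n, AEStronglyMeasurable (J n) (volume.restrict I) := by
    intro n
    have m1 : Measurable (s n) := (hs1 n).diff.continuous.measurable
    have m2 : Measurable (deriv (s n)) := ((hs1 n).diff.continuous_deriv le_rfl).measurable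
    have m3 : ∀ k, Measurable (η n k) := fun k => (hηc n k).measurable
    have m4 : ∀ k, Measurable (psi m A (a k)) := fun k => s3_psi_meas hA (ha k)
    have m5 : Measurable (fun θ => ∫ r in Sl m A θ, Wp m r * B n r) :=
      slm_measurable_integral m hA ((slm_Wp_continuous m).mul (hBR n).diff.continuous).measurable
    have m6 : Measurable (fun θ => ∑ k ∈ Finset.range K, η n k θ * psi m A (a k) θ) :=
      Finset.measurable_fun_sum _ fun k _ => (m3 k).mul (m4 k)
    have m7 : Measurable (fun θ => Real.sqrt (1 - s n θ ^ 2)) := by fun_prop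
    exact ((m7.mul m6).sub (m2.mul m5)).aestronglyMeasurable
  have hlimB : ∀ θ, Tendsto (fun n => ∫ r in Sl m A θ, Wp m r * B n r) atTop
      (𝓝 (1 / R' * vt m R' A θ)) := by
    intro θ
    have hS := slm_measurableSet m hA θ
    have hSfin : volume (Sl m A θ) ≠ ⊤ :=
      (lt_of_le_of_lt (measure_mono (slm_Sl_subset m A θ)) measure_Ioo_lt_top).ne
    have e1 : 1 / R' * vt m R' A θ = ∫ r in Sl m A θ, Wp m r * fB r := by
      unfold vt
      rw [← integral_const_mul]
      refine setIntegral_congr_fun hS fun r hr => ?_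
      have hr0 : 0 < r := hr.1.1
      have e2 : fB r = min 1 (r / R') := max_eq_right (le_min zero_le_one (by positivity))
      simp only [e2, hp]
      rcases le_total r R' with h | h
      · rw [min_eq_left ((one_le_div hr0).2 h), min_eq_right ((div_le_one hR).2 h)]
        field_simp
      · rw [min_eq_right ((div_le_one hr0).2 h), min_eq_left ((one_le_div hR).2 h)]
        field_simp
    rw [e1]
    refine tendsto_integral_of_dominated_convergence (fun _ => (1 : ℝ)) ?_
      (integrableOn_const hSfin) ?_ ?_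
    · intro n
      exact ((slm_Wp_continuous m).mul (hBR n).diff.continuous).aestronglyMeasurable
    · intro n
      refine (ae_restrict_mem hS).mono fun r hr => ?_
      rw [norm_mul, Real.norm_of_nonneg (slm_Wp_nonneg m r)]
      exact mul_le_one₀ (slm_Wp_le_one m hr.1.1.le) (norm_nonneg _) (hB1 n r)
    · rw [ae_restrict_iff' hS]
      filter_upwards [molF_tendsto (α := 0) (β := (m : ℝ)) hfBm hfB1] with r h1 hr
      exact (h1 hr.1).const_mul _
  have hlim : Tendsto (fun n => ∫ θ in I, J n θ) atTop (𝓝 (∫ θ in I,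
      (Real.sqrt (1 - σ θ ^ 2) * ∑ k ∈ Finset.range K,
        (E k).indicator (fun _ => (1 : ℝ)) θ * psi m A (a k) θ -
          1 / R' * g θ * vt m R' A θ))) := by
    refine tendsto_integral_of_dominated_convergence
      (fun _ => 1 * (∑ _k ∈ Finset.range K, 1 * C) + M * (1 * m)) hmeasJ
      (integrableOn_const hIfin) ?_ ?_
    · intro n
      refine Eventually.of_forall fun θ => ?_
      simp only [hJ]
      refine (norm_sub_le _ _).trans (add_le_add ?_ ?_)
      · rw [norm_mul]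
        have s1 : ‖Real.sqrt (1 - s n θ ^ 2)‖ ≤ 1 := by
          rw [Real.norm_of_nonneg (Real.sqrt_nonneg _)]
          exact Real.sqrt_le_one.2 (by nlinarith [sq_nonneg (s n θ)])
        have s2 : ‖∑ k ∈ Finset.range K, η n k θ * psi m A (a k) θ‖ ≤
            ∑ _k ∈ Finset.range K, 1 * C := by
          refine (norm_sum_le _ _).trans (Finset.sum_le_sum fun k hk => ?_)
          rw [norm_mul]
          exact mul_le_mul (hη1 n k θ) (hC k hk θ) (norm_nonneg _) zero_le_one
        exact mul_le_mul s1 s2 (norm_nonneg _) zero_le_one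
      · rw [norm_mul]
        refine mul_le_mul (hs3 n θ) ?_ (norm_nonneg _) hM0
        rw [Real.norm_eq_abs]
        refine s3_int_bound hA (fun r hr => ?_) θ
        rw [abs_mul, abs_of_nonneg (slm_Wp_nonneg m r)]
        exact mul_le_one₀ (slm_Wp_le_one m hr.1.le) (abs_nonneg _) (hB1 n r)
    · rw [ae_restrict_iff' measurableSet_Ioo]
      have h1 : ∀ᵐ θ : ℝ, ∀ k, θ ∈ I → Tendsto (fun n => η n k θ) atTop
          (𝓝 ((E k).indicator (fun _ => (1 : ℝ)) θ)) := by
        rw [ae_all_iff]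
        exact fun k => molF_tendsto (hIm k) (hI1 k)
      filter_upwards [h1, hs5] with θ h1 h5 hθ
      have h4 := hs4 θ hθ
      rw [← hσd θ] at h4
      have t1 : Tendsto (fun n => Real.sqrt (1 - s n θ ^ 2)) atTop
          (𝓝 (Real.sqrt (1 - σ θ ^ 2))) :=
        (Real.continuous_sqrt.tendsto _).comp ((h4.pow 2).const_sub 1)
      have t2 : Tendsto (fun n => ∑ k ∈ Finset.range K, η n k θ * psi m A (a k) θ) atTop
          (𝓝 (∑ k ∈ Finset.range K,
            (E k).indicator (fun _ => (1 : ℝ)) θ * psi m A (a k) θ)) :=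
        tendsto_finsetSum _ fun k _ => (h1 k hθ).mul_const _
      have t3 := (t1.mul t2).sub ((h5 hθ).mul (hlimB θ))
      have e3 : g θ * (1 / R' * vt m R' A θ) = 1 / R' * g θ * vt m R' A θ := by ring
      rw [e3] at t3
      exact t3
  exact le_of_tendsto' (ENNReal.tendsto_ofReal hlim) hbase

theorem s3 (h : Stmt_P1sep) : Stmt_S3 := by
  classical
  intro m R' G P σ₀ A p g σ hm hR hA hpm hp0 hpP hp hgm hg hg0 hσd hσ
  obtain ⟨a, ha, hsep⟩ := h m hm
  have haR : ∀ k, RadC m (a k) := fun k => ⟨(ha k).1, (ha k).2.1, (ha k).2.2.1⟩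
  have ha1 : ∀ k r, |a k r| ≤ 1 := fun k => (ha k).2.2.2
  set I := Ioo (-Real.pi) Real.pi with hI
  have hIfin : volume I ≠ ⊤ := measure_Ioo_lt_top.ne
  have hP0 : 0 ≤ P := (hp0 0).trans (hpP 0)
  have hψm : ∀ k, Measurable (psi m A (a k)) := fun k => s3_psi_meas hA (haR k)
  have hψ : ∀ θ ∈ I, ENNReal.ofReal (p θ) ≤ ⨆ k, ENNReal.ofReal (psi m A (a k) θ) :=
    fun θ hθ => (hp θ hθ).trans (hsep _ (slm_measurableSet m hA θ))
  -- measurability of `σ` on `I`: it is continuous there
  have hgI : IntegrableOn g I :=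
    Measure.integrableOn_of_bounded hIfin hgm.aestronglyMeasurable (M := G)
      (Eventually.of_forall fun θ => hg θ)
  obtain ⟨s, M, hs1, hs2, hs3, hs4, hs5⟩ := s3_approx hgm hg hg0
    (fun θ hθ => by rw [← hσd]; exact hσ θ hθ)
  have hσae : AEStronglyMeasurable σ (volume.restrict I) := by
    refine aestronglyMeasurable_of_tendsto_ae atTop (f := s)
      (fun n => (hs1 n).diff.continuous.aestronglyMeasurable) ?_
    rw [ae_restrict_iff' measurableSet_Ioo]
    refine Eventually.of_forall fun θ hθ => ?_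
    have := hs4 θ hθ
    rwa [← hσd θ] at this
  have hsq : AEStronglyMeasurable (fun θ => Real.sqrt (1 - σ θ ^ 2)) (volume.restrict I) :=
    Real.continuous_sqrt.comp_aestronglyMeasurable
      ((continuous_const.sub (continuous_pow 2)).comp_aestronglyMeasurable hσae)
  have hsq1 : ∀ θ, ‖Real.sqrt (1 - σ θ ^ 2)‖ ≤ 1 := fun θ => by
    rw [Real.norm_of_nonneg (Real.sqrt_nonneg _)]
    exact Real.sqrt_le_one.2 (by nlinarith [sq_nonneg (σ θ)])
  have hvtI : IntegrableOn (fun θ => 1 / R' * g θ * vt m R' A θ) I := by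
    refine Measure.integrableOn_of_bounded hIfin
      (((hgm.const_mul _).mul (slm_vt_meas m R' hA)).aestronglyMeasurable)
      (M := 1 / R' * G * vp m 0) (Eventually.of_forall fun θ => ?_)
    have h1 := slm_vt_bound m hR hA θ
    rw [norm_mul, norm_mul, Real.norm_of_nonneg (by positivity : 0 ≤ 1 / R'),
      Real.norm_eq_abs, Real.norm_of_nonneg h1.1]
    have hG0 : 0 ≤ G := (abs_nonneg _).trans (hg 0)
    exact mul_le_mul (mul_le_mul_of_nonneg_left (hg θ) (by positivity)) h1.2 h1.1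
      (by positivity)
  have hpI : IntegrableOn (fun θ => Real.sqrt (1 - σ θ ^ 2) * p θ) I := by
    refine s3_iob hIfin (hsq.mul hpm.aestronglyMeasurable) (M := 1 * P) (fun θ => ?_)
    rw [norm_mul, Real.norm_of_nonneg (hp0 θ)]
    exact mul_le_mul (hsq1 θ) (hpP θ) (hp0 θ) zero_le_one
  have hsqI : IntegrableOn (fun θ => Real.sqrt (1 - σ θ ^ 2)) I :=
    s3_iob hIfin hsq hsq1
  -- main step, with a loss `ε`
  have key : ∀ ε : ℝ, 0 < ε → ENNReal.ofReal ((∫ θ in I,
      (Real.sqrt (1 - σ θ ^ 2) * p θ - 1 / R' * g θ * vt m R' A θ)) -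
        ε * ∫ θ in I, Real.sqrt (1 - σ θ ^ 2)) ≤ P0 m A := by
    intro ε hε
    set S : ℕ → Set ℝ := fun k => {θ | θ ∈ I ∧ ε ≤ p θ ∧ p θ - ε < psi m A (a k) θ} with hS
    have hSm : ∀ k, MeasurableSet (S k) := by
      intro k
      have m1 : MeasurableSet {θ | ε ≤ p θ} := measurableSet_le measurable_const hpm
      have m2 : MeasurableSet {θ | p θ - ε < psi m A (a k) θ} :=
        measurableSet_lt (hpm.sub_const ε) (hψm k)
      exact measurableSet_Ioo.inter (m1.inter m2)
    set E : ℕ → Set ℝ := disjointed S with hE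
    have hEm : ∀ k, MeasurableSet (E k) := fun k => MeasurableSet.disjointed hSm k
    have hEd : Pairwise (Function.onFun Disjoint E) := disjoint_disjointed S
    have hES : ∀ k, E k ⊆ S k := fun k => disjointed_subset S k
    have hcov : ∀ θ ∈ I, ε ≤ p θ → ∃ k, θ ∈ E k := by
      intro θ hθ hε'
      have h1 : ENNReal.ofReal (p θ - ε) < ⨆ k, ENNReal.ofReal (psi m A (a k) θ) := by
        refine lt_of_lt_of_le ?_ (hψ θ hθ)
        rw [ENNReal.ofReal_lt_ofReal_iff (by linarith)]
        linarith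
      obtain ⟨k, hk⟩ := lt_iSup_iff.1 h1
      have h2 : θ ∈ S k := ⟨hθ, hε', (ENNReal.ofReal_lt_ofReal_iff_of_nonneg
        (by linarith)).1 hk⟩
      have h3 : θ ∈ ⋃ k, E k := by
        rw [hE, iUnion_disjointed]
        exact mem_iUnion.2 ⟨k, h2⟩
      exact mem_iUnion.1 h3
    -- the integrals with `K` sets
    set F : ℕ → ℝ → ℝ := fun K θ => Real.sqrt (1 - σ θ ^ 2) * ∑ k ∈ Finset.range K,
      (E k).indicator (fun _ => (1 : ℝ)) θ * (p θ - ε) - 1 / R' * g θ * vt m R' A θ with hF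
    have hFle : ∀ K, ENNReal.ofReal (∫ θ in I, F K θ) ≤ P0 m A := by
      intro K
      refine le_trans (ENNReal.ofReal_le_ofReal ?_)
        (s3_sets (σ₀ := σ₀) hR hA K haR ha1 hEm hEd hgm hg hg0 hσd hσ)
      refine setIntegral_mono_on ?_ ?_ measurableSet_Ioo ?_
      · refine IntegrableOn.sub ?_ hvtI
        refine s3_iob hIfin (hsq.mul ?_)
          (M := 1 * (∑ _k ∈ Finset.range K, 1 * (P + ε))) (fun θ => ?_)
        · exact (Finset.measurable_fun_sum _ fun k _ =>
            (measurable_const.indicator (hEm k)).mul (hpm.sub_const ε)).aestronglyMeasurable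
        · rw [norm_mul]
          refine mul_le_mul (hsq1 θ) ?_ (norm_nonneg _) zero_le_one
          refine (norm_sum_le _ _).trans (Finset.sum_le_sum fun k _ => ?_)
          rw [norm_mul]
          refine mul_le_mul ?_ ?_ (norm_nonneg _) zero_le_one
          · rw [indicator_apply]
            split_ifs <;> simp
          · rw [Real.norm_eq_abs]
            calc |p θ - ε| ≤ |p θ| + |ε| := abs_sub _ _
              _ = p θ + ε := by rw [abs_of_nonneg (hp0 θ), abs_of_pos hε]
              _ ≤ P + ε := by linarith [hpP θ]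
      · refine IntegrableOn.sub ?_ hvtI
        choose C hC using fun k => s3_psi_bound hA (haR k)
        refine s3_iob hIfin (hsq.mul ?_)
          (M := 1 * (∑ k ∈ Finset.range K, 1 * C k)) (fun θ => ?_)
        · exact (Finset.measurable_fun_sum _ fun k _ =>
            (measurable_const.indicator (hEm k)).mul (hψm k)).aestronglyMeasurable
        · rw [norm_mul]
          refine mul_le_mul (hsq1 θ) ?_ (norm_nonneg _) zero_le_one
          refine (norm_sum_le _ _).trans (Finset.sum_le_sum fun k _ => ?_)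
          rw [norm_mul]
          refine mul_le_mul ?_ (hC k θ) (norm_nonneg _) zero_le_one
          rw [indicator_apply]
          split_ifs <;> simp
      · intro θ _
        simp only [hF]
        refine sub_le_sub_right (mul_le_mul_of_nonneg_left ?_ (Real.sqrt_nonneg _)) _
        refine Finset.sum_le_sum fun k _ => ?_
        rw [indicator_apply]
        split_ifs with hk
        · rw [one_mul, one_mul]
          exact (hES k hk).2.2.le
        · simp
    -- limit in `K`
    have hlim : Tendsto (fun K => ∫ θ in I, F K θ) atTop (𝓝 (∫ θ in I,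
        (Real.sqrt (1 - σ θ ^ 2) * (if ε ≤ p θ then p θ - ε else 0) -
          1 / R' * g θ * vt m R' A θ))) := by
      refine tendsto_integral_of_dominated_convergence
        (fun θ => 1 * (P + ε) + ‖1 / R' * g θ * vt m R' A θ‖) ?_ ?_ ?_ ?_
      · intro K
        exact (hsq.mul (Finset.measurable_fun_sum _ fun k _ =>
            (measurable_const.indicator (hEm k)).mul
              (hpm.sub_const ε)).aestronglyMeasurable).sub hvtI.aestronglyMeasurable
      · exact (integrableOn_const hIfin).add hvtI.norm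
      · intro K
        refine Eventually.of_forall fun θ => ?_
        simp only [hF]
        refine (norm_sub_le _ _).trans (add_le_add ?_ le_rfl)
        rw [norm_mul]
        refine mul_le_mul (hsq1 θ) ?_ (norm_nonneg _) zero_le_one
        rw [← Finset.sum_mul, norm_mul]
        have h1 := s3_sum_ind K hEd θ
        have h0 : 0 ≤ ∑ k ∈ Finset.range K, (E k).indicator (fun _ => (1 : ℝ)) θ :=
          Finset.sum_nonneg fun k _ => indicator_nonneg (fun _ _ => zero_le_one) θ
        rw [Real.norm_of_nonneg h0, Real.norm_eq_abs]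
        have h2 : |p θ - ε| ≤ P + ε :=
          calc |p θ - ε| ≤ |p θ| + |ε| := abs_sub _ _
            _ = p θ + ε := by rw [abs_of_nonneg (hp0 θ), abs_of_pos hε]
            _ ≤ P + ε := by linarith [hpP θ]
        calc _ ≤ 1 * (P + ε) := mul_le_mul h1 h2 (abs_nonneg _) zero_le_one
          _ = P + ε := one_mul _
      · rw [ae_restrict_iff' measurableSet_Ioo]
        refine Eventually.of_forall fun θ hθ => ?_
        refine Tendsto.sub_const (Tendsto.const_mul _ ?_) _
        by_cases hε' : ε ≤ p θ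
        · obtain ⟨k, hk⟩ := hcov θ hθ hε'
          refine tendsto_const_nhds.congr' ?_
          filter_upwards [eventually_gt_atTop k] with K hK
          rw [if_pos hε', Finset.sum_eq_single_of_mem k (Finset.mem_range.2 hK),
            indicator_of_mem hk, one_mul]
          intro j _ hjk
          rw [indicator_of_notMem (fun h => disjoint_left.1 (hEd hjk) h hk), zero_mul]
        · refine tendsto_const_nhds.congr fun K => ?_
          rw [if_neg hε', Finset.sum_eq_zero]
          intro k _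
          rw [indicator_of_notMem (fun h => hε' (hES k h).2.1), zero_mul]
    have h1 := le_of_tendsto' (ENNReal.tendsto_ofReal hlim) hFle
    refine le_trans (ENNReal.ofReal_le_ofReal ?_) h1
    have hifI : IntegrableOn (fun θ => Real.sqrt (1 - σ θ ^ 2) *
        (if ε ≤ p θ then p θ - ε else 0)) I := by
      have m1 : Measurable (fun θ => if ε ≤ p θ then p θ - ε else 0) :=
        Measurable.ite (measurableSet_le measurable_const hpm) (hpm.sub_const ε)
          measurable_const
      refine s3_iob hIfin (hsq.mul m1.aestronglyMeasurable) (M := 1 * P) (fun θ => ?_)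
      rw [norm_mul]
      refine mul_le_mul (hsq1 θ) ?_ (norm_nonneg _) zero_le_one
      split_ifs with h
      · rw [Real.norm_of_nonneg (by linarith)]
        linarith [hpP θ]
      · simpa using hP0
    have e1 : (∫ θ in I, (Real.sqrt (1 - σ θ ^ 2) * p θ - 1 / R' * g θ * vt m R' A θ)) -
        ε * ∫ θ in I, Real.sqrt (1 - σ θ ^ 2) = ∫ θ in I,
        ((Real.sqrt (1 - σ θ ^ 2) * p θ - 1 / R' * g θ * vt m R' A θ) -
          ε * Real.sqrt (1 - σ θ ^ 2)) := by
      rw [← integral_const_mul]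
      exact (integral_sub (hpI.sub hvtI) (hsqI.const_mul ε)).symm
    rw [e1]
    refine setIntegral_mono_on ((hpI.sub hvtI).sub (hsqI.const_mul ε)) (hifI.sub hvtI)
      measurableSet_Ioo ?_
    intro θ _
    have h0 := Real.sqrt_nonneg (1 - σ θ ^ 2)
    have h2 : p θ - ε ≤ if ε ≤ p θ then p θ - ε else 0 := by
      split_ifs with h
      · exact le_rfl
      · linarith [not_le.1 h]
    have h3 := mul_le_mul_of_nonneg_left h2 h0
    linarith
  -- let `ε` tend to zero
  have hlim : Tendsto (fun n : ℕ => ENNReal.ofReal ((∫ θ in I,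
      (Real.sqrt (1 - σ θ ^ 2) * p θ - 1 / R' * g θ * vt m R' A θ)) -
        1 / ((n : ℝ) + 1) * ∫ θ in I, Real.sqrt (1 - σ θ ^ 2))) atTop
      (𝓝 (ENNReal.ofReal (∫ θ in I,
        (Real.sqrt (1 - σ θ ^ 2) * p θ - 1 / R' * g θ * vt m R' A θ)))) := by
    refine ENNReal.tendsto_ofReal ?_
    have h1 := (tendsto_one_div_add_atTop_nhds_zero_nat (𝕜 := ℝ)).mul_const
      (∫ θ in I, Real.sqrt (1 - σ θ ^ 2))
    have h2 := h1.const_sub (∫ θ in I,
      (Real.sqrt (1 - σ θ ^ 2) * p θ - 1 / R' * g θ * vt m R' A θ))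
    rw [zero_mul, sub_zero] at h2
    exact h2
  exact le_of_tendsto' hlim fun n => key _ (by positivity)

end Pool.Agent.Lib.MP_c95dcf_gt
end

section

/-!
# MP_c95dcf_gt: assembly of the parts G, O and B
-/

set_option autoImplicit false

namespace Pool.Agent.Lib.MP_c95dcf_gt

theorem all_poincare (hK : Stmt_Kern) (hI : Stmt_IBP) : Stmt_Poincare :=
  poincare hK conv_basic conv_test hI

theorem all_compact (hK : Stmt_Kern) (hI : Stmt_IBP) : Stmt_Compact :=
  compactness (poincareSet (all_poincare hK hI))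

theorem all_relIso (hK : Stmt_Kern) (hI : Stmt_IBP) : Stmt_RelIso :=
  relIso perMono (poincareSet (all_poincare hK hI)) ballLower

theorem all_relIsoBall (hK : Stmt_Kern) (hI : Stmt_IBP) : Stmt_RelIsoBall :=
  relIsoBall (all_relIso hK hI) perScale

theorem all_submod (hK : Stmt_Kern) (hI : Stmt_IBP) : Stmt_Submod :=
  submod hK conv_basic conv_test hI

theorem all_perAdd (hK : Stmt_Kern) (hI : Stmt_IBP) : Stmt_PerAdd :=
  perAdd (all_submod hK hI)

theorem all_riesz : Stmt_Riesz := riesz varMeasure varBound rieszL2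

theorem all_prep : Stmt_PRep := prep all_riesz

theorem all_dens (hK : Stmt_Kern) (hI : Stmt_IBP) : Stmt_Dens :=
  dens (densHalf cut (all_relIsoBall hK hI)) (all_relIsoBall hK hI) (lminCompl perCompl)

theorem all_A (hK : Stmt_Kern) (hI : Stmt_IBP) : Stmt_A :=
  partA (exist (all_compact hK hI) lsc) lmin all_prep (all_dens hK hI) regRep
    (blowup lebesgue sgFull (blowSeq (all_dens hK hI) (all_compact hK hI) lsc
      (halfSpace hK conv_basic conv_test hI) halfPer perScale)) haus perCongr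

theorem all_E2 : Stmt_E2 := e2 (e2scalar cover (e2cover lineLemma (isodiam (pl pl1))))

theorem all_piece : Stmt_Piece := piece unicoh lines

theorem all_iso1 : Stmt_Iso1 := iso1 prof profLim cross p1add

theorem all_B (hK : Stmt_Kern) (hI : Stmt_IBP) : Stmt_B :=
  partB prof profLim
    (main_ineq prof all_iso1 polar slices (s3 p1sep) (osc (s3 p1sep)) (core transport)
      (left monoShift prof) (inner_mass (isoDisc (all_relIsoBall hK hI)) prof))
    (crudeMid prof profLim (iso1c prof profLim cross p1add) polar slices (s3 p1sep)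
      (osc (s3 p1sep)))
    (crudeLow prof profLim (iso1c prof profLim cross p1add) polar slices (s3 p1sep)
      (osc (s3 p1sep)) all_iso1)
    (crudeRad prof profLim polar slices (osc (s3 p1sep))) (ring_set prof) rot

end Pool.Agent.Lib.MP_c95dcf_gt
end
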